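import Mathlib
import Pool.Agent.H858R2.Defs

set_option autoImplicit false
open scoped ContDiff Manifold Topology Matrix
open Set Filter

/-!
# Ricci flow and blow-up limits: definitions

Metrics, their curvature and the Ricci flow are those of `Pool.Agent.H858R2.Defs` and `Pool.Agent.QTot`
(`Metric`, `R4`, `RV`, `IsRicciFlow`, `Gam`, `Ric`, `Rm`, `Jac`).
-/

namespace Pool.Agent.Helper696_RF

open Pool.Agent.QTot Pool.Agent.H858R2

/-- four-index arrays -/
abbrev T4 (n : ℕ) : Type := Fin n → Fin n → Fin n → Fin n → ℝ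

/-- Components of the curvature tensor, `R_{ijkl} = ⟨R(∂_i,∂_j)∂_l, ∂_k⟩`, so that `R_{ijij} > 0` on round
spheres. -/
noncomputable def Rc {n : ℕ} (G : Eu n → Mt n) (x : Eu n) : T4 n := fun i j k l => R4 G i j l k x

/-- The components in the frame given by the columns of `F` of a tensor with components `R`. -/
def rot {n : ℕ} (R : T4 n) (F : Mt n) : T4 n := fun i j k l =>
  ∑ a, ∑ b, ∑ c, ∑ d, R a b c d * F a i * F b j * F c k * F d l

/-- `Q(R)_{ijkl} = R_{ijpq} R_{klpq} + 2 R_{ipkq} R_{jplq} - 2 R_{iplq} R_{jpkq}` -/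
def QQ {n : ℕ} (R : T4 n) : T4 n := fun i j k l =>
  ∑ p, ∑ q, (R i j p q * R k l p q + 2 * (R i p k q * R j p l q) - 2 * (R i p l q * R j p k q))

/-- `R(X, Y, Z, W)`, with the sign for which `R(X, Y, X, Y)` is the sectional curvature of orthonormal
`X, Y`. -/
noncomputable def cv {n : ℕ} (G : Eu n → Mt n) (x : Eu n) (X Y Z W : Eu n) : ℝ :=
  ∑ i, ∑ j, ∑ k, ∑ l, Rc G x i j k l * X i * Y j * Z k * W l

/-- inner product of two vectors given by their components -/
def ip {n : ℕ} (G : Mt n) (X Y : Eu n) : ℝ := ∑ i, ∑ j, G i j * X i * Y j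

section
variable {n : ℕ} {M : Type} [TopologicalSpace M] [ChartedSpace (En n) M]

/-- Non-negative isotropic curvature (the weak form of positive isotropic curvature): for every
orthonormal four-frame `v 0, v 1, v 2, v 3` at every point,
`R_{1313} + R_{1414} + R_{2323} + R_{2424} - 2 R_{1234} ≥ 0`. -/
def WPIC (g : Metric n M) : Prop :=
  ∀ e ∈ atlas (En n) M, ∀ y ∈ ctarget e, ∀ v : Fin 4 → Eu n,
    (∀ a b, ip (g.G e y) (v a) (v b) = if a = b then 1 else 0) →
    0 ≤ cv (g.G e) y (v 0) (v 2) (v 0) (v 2) + cv (g.G e) y (v 0) (v 3) (v 0) (v 3)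
      + cv (g.G e) y (v 1) (v 2) (v 1) (v 2) + cv (g.G e) y (v 1) (v 3) (v 1) (v 3)
      - 2 * cv (g.G e) y (v 0) (v 1) (v 2) (v 3)

/-- Non-negative curvature operator: `∑ R_{ijkl} φ^{ij} φ^{kl} ≥ 0` for every bivector `φ` at every
point. -/
def NonnegOp (g : Metric n M) : Prop :=
  ∀ e ∈ atlas (En n) M, ∀ y ∈ ctarget e, ∀ φ : Mt n, φᵀ = -φ →
    0 ≤ ∑ i, ∑ j, ∑ k, ∑ l, Rc (g.G e) y i j k l * φ i j * φ k l

/-- Rotational symmetry of the curvature about a plane: for every point there is an orthonormal frame (the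
columns of `F`) such that the curvature tensor at the point is invariant under all orthogonal maps `O` of the
tangent space that fix the first two vectors of the frame. -/
def PlaneSym (g : Metric n M) : Prop :=
  ∀ e ∈ atlas (En n) M, ∀ y ∈ ctarget e, ∃ F : Mt n, Fᵀ * g.G e y * F = 1 ∧
    ∀ O : Mt n, Oᵀ * O = 1 → (∀ i j : Fin n, j.val < 2 → O i j = if i = j then 1 else 0) →
      rot (Rc (g.G e) y) (F * O) = rot (Rc (g.G e) y) F

/-- The norm `|Rm|` of the curvature tensor at the point `x`. -/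
noncomputable def normRm (g : Metric n M) (x : M) : ℝ :=
  let e := chartAt (En n) x
  let y : Eu n := WithLp.ofLp (e x)
  let I : Mt n := (g.G e y)⁻¹
  Real.sqrt (∑ i, ∑ j, ∑ k, ∑ l, ∑ a, ∑ b, ∑ c, ∑ d,
    I i a * I j b * I k c * I l d * Rc (g.G e) y i j k l * Rc (g.G e) y a b c d)

variable {N : Type} [TopologicalSpace N] [ChartedSpace (En n) N]

/-- The matrix in the chart `e` of `N` of the pull-back of the metric `g` on `M` under `ψ : N → M`. -/
noncomputable def pullG (g : Metric n M) (ψ : N → M) (e : OpenPartialHomeomorph N (En n))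
    (y : Eu n) : Mt n :=
  let e' := chartAt (En n) (ψ (e.symm (WithLp.toLp 2 y)))
  pull (fun z => WithLp.ofLp (e' (ψ (e.symm (WithLp.toLp 2 z))))) (g.G e') y

/-- Blow-up limits. The family `h s`, `s ∈ I`, of metrics on `N`, based at `p`, is a blow-up limit at time `T`
of `g t`, `t ∈ [0, T)`: there are points `x i` of `M` and times `t i → T` with `Q i = |Rm|(x i, t i) → ∞`, open
sets `U i` exhausting `N` and smooth embeddings `ψ i : U i → M` with `ψ i p = x i`, such that for every `s ∈ I`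
the pull-backs under `ψ i` of the rescaled metrics `Q i g(t i + s / Q i)` converge to `h s`, locally uniformly
with all derivatives. -/
def IsBlowUpLimit (T : ℝ) (g : ℝ → Metric n M) (I : Set ℝ) (h : ℝ → Metric n N) (p : N) : Prop :=
  ∃ (x : ℕ → M) (t Q : ℕ → ℝ) (U : ℕ → Set N) (ψ : ℕ → N → M),
    (∀ i, t i ∈ Ico 0 T) ∧ Tendsto t atTop (𝓝 T) ∧
    (∀ i, Q i = normRm (g (t i)) (x i)) ∧ Tendsto Q atTop atTop ∧
    (∀ i, IsOpen (U i)) ∧ (∀ K : Set N, IsCompact K → ∀ᶠ i in atTop, K ⊆ U i) ∧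
    (∀ i, ContMDiffOn (𝓡 n) (𝓡 n) ∞ (ψ i) (U i)) ∧ (∀ i, InjOn (ψ i) (U i)) ∧
    (∀ i, ψ i p = x i) ∧
    ∀ s ∈ I, (∀ᶠ i in atTop, t i + s / Q i ∈ Ico 0 T) ∧
      ∀ e ∈ atlas (En n) N, ∀ a b : Fin n, ∀ k : ℕ,
        TendstoLocallyUniformlyOn
          (fun i y => iteratedFDeriv ℝ k (fun z => (Q i • pullG (g (t i + s / Q i)) (ψ i) e z) a b) y)
          (fun y => iteratedFDeriv ℝ k (fun z => (h s).G e z a b) y) atTop (ctarget e)

end

end Pool.Agent.Helper696_RF
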