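import Mathlib
import Pool.Agent.Helper696_RF.Defs

set_option autoImplicit false
open scoped ContDiff Manifold Topology Matrix
open Set Filter

namespace Pool.Agent.Helper696_RF

open Pool.Agent.QTot Pool.Agent.H858R2

/-- lowering the upper index of the Christoffel symbols -/
theorem rcs_low {n : ℕ} {G : Eu n → Mt n} {y : Eu n} (hd : (G y).det ≠ 0) (k i j : Fin n) :
    ∑ a, G y k a * Gam G a i j y = 1 / 2 * (pd i (fun z => G z j k) y + pd j (fun z => G z i k) y
      - pd k (fun z => G z i j) y) := by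
  have hu : IsUnit (G y).det := isUnit_iff_ne_zero.2 hd
  have h1 : ∀ l, ∑ a, G y k a * (G y)⁻¹ a l = if k = l then 1 else 0 := by
    intro l
    have : (G y * (G y)⁻¹) k l = (1 : Mt n) k l := by rw [Matrix.mul_nonsing_inv _ hu]
    rw [Matrix.mul_apply, Matrix.one_apply] at this
    exact this
  unfold Gam
  set V : Fin n → ℝ := fun l => pd i (fun z => G z j l) y + pd j (fun z => G z i l) y
      - pd l (fun z => G z i j) y with hV
  have h2 : ∀ a, G y k a * (1 / 2 * ∑ l, (G y)⁻¹ a l * V l) = ∑ l, 1 / 2 * (G y k a * (G y)⁻¹ a l * V l) := by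
    intro a
    rw [Finset.mul_sum, Finset.mul_sum]
    refine Finset.sum_congr rfl fun l _ => ?_
    ring
  have h3 : ∑ a, G y k a * (1 / 2 * ∑ l, (G y)⁻¹ a l * V l) = 1 / 2 * V k := by
    simp only [h2]
    rw [Finset.sum_comm]
    have h4 : ∀ l, ∑ a, 1 / 2 * (G y k a * (G y)⁻¹ a l * V l) = if k = l then 1 / 2 * V l else 0 := by
      intro l
      rw [← Finset.mul_sum, ← Finset.sum_mul, h1 l]
      split_ifs <;> ring
    simp only [h4, Finset.sum_ite_eq, Finset.mem_univ, if_true]
  exact h3

section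
variable {n : ℕ} {G : Eu n → Mt n} {x : Eu n}
    (hG : ∀ i j, ContDiffAt ℝ ∞ (fun y => G y i j) x) (hs : ∀ᶠ y in 𝓝 x, (G y).IsSymm)
    (hd : (G x).det ≠ 0)

include hs in
theorem rcs_D (c a b : Fin n) : pd c (fun z => G z a b) x = pd c (fun z => G z b a) x :=
  N2.pd_congr (hs.mono fun _ hy => hy.apply _ _)

include hs in
theorem rcs_H2 (c d a b : Fin n) :
    pd c (pd d (fun z => G z a b)) x = pd c (pd d (fun z => G z b a)) x := by
  apply N2.pd_congr
  filter_upwards [hs.eventually_nhds] with y hy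
  exact N2.pd_congr (hy.mono fun _ hz => hz.apply _ _)

include hG in
theorem rcs_H1 (c d a b : Fin n) :
    pd c (pd d (fun z => G z a b)) x = pd d (pd c (fun z => G z a b)) x :=
  N2.pd_symm ((hG a b).of_le (WithTop.coe_le_coe.2 le_top))

include hG hd in
theorem rcs_det : ∀ᶠ y in 𝓝 x, (G y).det ≠ 0 :=
  (N2.det_cont fun i j => (hG i j).continuousAt).eventually_ne hd

include hG hd in
theorem rcs_gam (a b c : Fin n) : DifferentiableAt ℝ (Gam G a b c) x := by
  have h := N2.gam_smooth (k := 1) (fun i j => (hG i j).of_le (WithTop.coe_le_coe.2 le_top)) hd a b c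
  exact h.differentiableAt (by norm_num)

include hG in
theorem rcs_pdd (c a b : Fin n) : DifferentiableAt ℝ (pd c (fun z => G z a b)) x := by
  have h := N2.pd_smooth (i := c) (k := 1) (f := fun z => G z a b) (x := x)
    ((hG a b).of_le (WithTop.coe_le_coe.2 le_top))
  exact h.differentiableAt (by norm_num)

include hG hd in
/-- derivative of the lowered Christoffel symbols -/
theorem rcs_dlow (m k i j : Fin n) :
    ∑ a, G x k a * pd m (Gam G a i j) x =
      1 / 2 * (pd m (pd i (fun z => G z j k)) x + pd m (pd j (fun z => G z i k)) x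
        - pd m (pd k (fun z => G z i j)) x) - ∑ a, pd m (fun z => G z k a) x * Gam G a i j x := by
  have hGd : ∀ a b, DifferentiableAt ℝ (fun y => G y a b) x := fun a b =>
    (hG a b).differentiableAt (by simp)
  have e1 : pd m (fun y => ∑ a, G y k a * Gam G a i j y) x =
      pd m (fun y => 1 / 2 * (pd i (fun z => G z j k) y + pd j (fun z => G z i k) y
      - pd k (fun z => G z i j) y)) x :=
    N2.pd_congr ((rcs_det hG hd).mono fun y hy => rcs_low hy k i j)
  have e2 : pd m (fun y => ∑ a, G y k a * Gam G a i j y) x =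
      ∑ a, (pd m (fun z => G z k a) x * Gam G a i j x + G x k a * pd m (Gam G a i j) x) := by
    have hm : ∀ a, DifferentiableAt ℝ (fun y => G y k a * Gam G a i j y) x := fun a =>
      (hGd k a).mul (rcs_gam hG hd a i j)
    have hsum := N2.pd_sum' (i := m) (x := x) Finset.univ (F := fun a y => G y k a * Gam G a i j y) (fun a _ => hm a)
    refine hsum.trans ?_
    exact Finset.sum_congr rfl fun a _ => N2.pd_mul' (hGd k a) (rcs_gam hG hd a i j)
  have d1 := rcs_pdd hG i j k
  have d2 := rcs_pdd hG j i k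
  have d3 := rcs_pdd hG k i j
  have e3 : pd m (fun y => 1 / 2 * (pd i (fun z => G z j k) y + pd j (fun z => G z i k) y
      - pd k (fun z => G z i j) y)) x = 1 / 2 * (pd m (pd i (fun z => G z j k)) x +
        pd m (pd j (fun z => G z i k)) x - pd m (pd k (fun z => G z i j)) x) := by
    have f2 : ∀ c : ℝ, pd m (fun _ : Eu n => c) x = 0 := by
      intro c
      unfold pd
      simp
    have d12 : DifferentiableAt ℝ (fun y => pd i (fun z => G z j k) y + pd j (fun z => G z i k) y) x := d1.add d2
    have d4 : DifferentiableAt ℝ (fun y => (-1 : ℝ) * pd k (fun z => G z i j) y) x := d3.const_mul _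
    have d5 : DifferentiableAt ℝ (fun y => (pd i (fun z => G z j k) y + pd j (fun z => G z i k) y) +
      (-1 : ℝ) * pd k (fun z => G z i j) y) x := d12.add d4
    have f1 : (fun y => 1 / 2 * (pd i (fun z => G z j k) y + pd j (fun z => G z i k) y
      - pd k (fun z => G z i j) y)) = fun y => (1 / 2 : ℝ) * ((pd i (fun z => G z j k) y
        + pd j (fun z => G z i k) y) + (-1 : ℝ) * pd k (fun z => G z i j) y) := by
      funext y
      ring
    have g1 := N2.pd_mul' (i := m) (x := x) (f := fun _ => (1 / 2 : ℝ)) (differentiableAt_const _) d5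
    have g2 := N2.pd_add' (i := m) (x := x) d12 d4
    have g3 := N2.pd_add' (i := m) (x := x) d1 d2
    have g4 := N2.pd_mul' (i := m) (x := x) (f := fun _ => (-1 : ℝ)) (differentiableAt_const _) d3
    rw [f2] at g1 g4
    rw [f1]
    refine g1.trans ?_
    rw [zero_mul, zero_add]
    congr 1
    refine g2.trans ?_
    have g3' : pd m (fun y => pd i (fun z => G z j k) y + pd j (fun z => G z i k) y) x =
      pd m (pd i (fun z => G z j k)) x + pd m (pd j (fun z => G z i k)) x := g3
    have g4' : pd m (fun y => (-1 : ℝ) * pd k (fun z => G z i j) y) x =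
      0 * pd k (fun z => G z i j) x + -1 * pd m (pd k (fun z => G z i j)) x := g4
    rw [g3', g4']
    ring
  rw [e2, e3, Finset.sum_add_distrib] at e1
  linarith

/-- the second derivatives of the metric -/
noncomputable def rcs_H (G : Eu n → Mt n) (x : Eu n) (a b c d : Fin n) : ℝ :=
  pd a (pd b (fun z => G z c d)) x

/-- the lowered Christoffel symbols -/
noncomputable def rcs_L (G : Eu n → Mt n) (x : Eu n) (k i j : Fin n) : ℝ :=
  ∑ a, G x k a * Gam G a i j x

/-- product of two Christoffel symbols -/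
noncomputable def rcs_B (G : Eu n → Mt n) (x : Eu n) (a b c d : Fin n) : ℝ :=
  ∑ p, rcs_L G x p a b * Gam G p c d x

include hs hd in
theorem rcs_DL (i k a : Fin n) : pd i (fun z => G z k a) x = rcs_L G x k i a + rcs_L G x a i k := by
  unfold rcs_L
  rw [rcs_low hd, rcs_low hd, rcs_D hs i k a, rcs_D hs k i a, rcs_D hs a i k]
  ring

include hG hs hd in
/-- the curvature tensor in coordinates -/
theorem rcs_main (i j k l : Fin n) : Rc G x i j k l =
    1 / 2 * (rcs_H G x i l j k - rcs_H G x i k l j - rcs_H G x j l i k + rcs_H G x j k l i)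
      - rcs_B G x i k l j + rcs_B G x j k l i := by
  have h0 : Rc G x i j k l = ∑ a, G x k a * pd i (Gam G a l j) x - ∑ a, G x k a * pd j (Gam G a l i) x +
      (∑ e, rcs_L G x k i e * Gam G e l j x - ∑ e, rcs_L G x k j e * Gam G e l i x) := by
    have g1 : ∀ i j : Fin n, ∑ e, rcs_L G x k i e * Gam G e l j x =
        ∑ a, G x k a * ∑ e, Gam G a i e x * Gam G e l j x := by
      intro i j
      unfold rcs_L
      simp only [Finset.sum_mul, Finset.mul_sum]
      rw [Finset.sum_comm]
      refine Finset.sum_congr rfl fun a _ => Finset.sum_congr rfl fun e _ => ?_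
      ring
    rw [g1 i j, g1 j i, ← Finset.sum_sub_distrib, ← Finset.sum_sub_distrib, ← Finset.sum_add_distrib]
    unfold Rc R4 N2.Rm
    refine Finset.sum_congr rfl fun a _ => ?_
    rw [Finset.sum_sub_distrib]
    ring
  rw [h0, rcs_dlow hG hd i k l j, rcs_dlow hG hd j k l i]
  have h1 : ∀ i j : Fin n, ∑ a, pd i (fun z => G z k a) x * Gam G a l j x =
      ∑ a, rcs_L G x k i a * Gam G a l j x + rcs_B G x i k l j := by
    intro i j
    unfold rcs_B
    rw [← Finset.sum_add_distrib]
    refine Finset.sum_congr rfl fun a _ => ?_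
    rw [rcs_DL hs hd i k a]
    ring
  rw [h1 i j, h1 j i]
  have h2 : pd i (pd j (fun z => G z l k)) x = pd j (pd i (fun z => G z l k)) x := rcs_H1 hG i j l k
  rw [h2]
  unfold rcs_H
  ring

include hG in
theorem rcs_Ha (a b c d : Fin n) : rcs_H G x a b c d = rcs_H G x b a c d := rcs_H1 hG a b c d

include hs in
theorem rcs_Hb (a b c d : Fin n) : rcs_H G x a b c d = rcs_H G x a b d c := rcs_H2 hs a b c d

include hs in
theorem rcs_La (k i j : Fin n) : rcs_L G x k i j = rcs_L G x k j i := by
  unfold rcs_L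
  refine Finset.sum_congr rfl fun a _ => ?_
  rw [N2.gam_sym hs a i j]

include hs in
theorem rcs_Ba (a b c d : Fin n) : rcs_B G x a b c d = rcs_B G x b a c d := by
  unfold rcs_B
  refine Finset.sum_congr rfl fun p _ => ?_
  rw [rcs_La hs p a b]

include hs in
theorem rcs_Bb (a b c d : Fin n) : rcs_B G x a b c d = rcs_B G x a b d c := by
  unfold rcs_B
  refine Finset.sum_congr rfl fun p _ => ?_
  rw [N2.gam_sym hs p c d]

include hs in
theorem rcs_Bc (a b c d : Fin n) : rcs_B G x a b c d = rcs_B G x c d a b := by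
  unfold rcs_B rcs_L
  simp only [Finset.sum_mul]
  rw [Finset.sum_comm]
  refine Finset.sum_congr rfl fun p _ => Finset.sum_congr rfl fun q _ => ?_
  have : G x q p = G x p q := hs.self_of_nhds.apply _ _
  rw [this]
  ring

end

/-! ## TARGET A (symmetries of the curvature tensor, in coordinates). -/
theorem rc_symm {n : ℕ} {G : Eu n → Mt n} {x : Eu n}
    (hG : ∀ i j, ContDiffAt ℝ ∞ (fun y => G y i j) x) (hs : ∀ᶠ y in 𝓝 x, (G y).IsSymm)
    (hd : (G x).det ≠ 0) (i j k l : Fin n) :
    Rc G x i j k l = -Rc G x j i k l ∧ Rc G x i j k l = -Rc G x i j l k ∧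
      Rc G x i j k l = Rc G x k l i j ∧ Rc G x i j k l + Rc G x j k i l + Rc G x k i j l = 0 := by
  have M := rcs_main hG hs hd
  have Ha := rcs_Ha hG
  have Hb := rcs_Hb hs
  have Ba := rcs_Ba hs
  have Bb := rcs_Bb hs
  have Bc := rcs_Bc hs
  have Ba' : ∀ a b c d, rcs_B G x a b c d = rcs_B G x c d a b := Bc
  refine ⟨?_, ?_, ?_, ?_⟩
  · rw [M, M]
    linarith [Ha j l i k]
  · rw [M, M]
    have e1 := Hb i k j l
    have e2 := Hb i l k j
    have e3 := Hb j k i l
    have e4 := Hb j l k i
    have b1 : rcs_B G x i l k j = rcs_B G x j k l i := by rw [Bc, Ba, Bb]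
    have b2 : rcs_B G x j l k i = rcs_B G x i k l j := by rw [Bc, Ba, Bb]
    linarith
  · rw [M, M]
    have e1 : rcs_H G x k j l i = rcs_H G x j k l i := Ha _ _ _ _
    have e2 : rcs_H G x k i j l = rcs_H G x i k l j := by rw [Ha, Hb]
    have e3 : rcs_H G x l j k i = rcs_H G x j l i k := by rw [Ha, Hb]
    have e4 : rcs_H G x l i j k = rcs_H G x i l j k := Ha _ _ _ _
    have b1 : rcs_B G x k i j l = rcs_B G x i k l j := by rw [Ba, Bb]
    have b2 : rcs_B G x l i j k = rcs_B G x j k l i := Bc _ _ _ _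
    linarith
  · rw [M, M, M]
    have e1 : rcs_H G x j l k i = rcs_H G x j l i k := Hb _ _ _ _
    have e2 : rcs_H G x j i l k = rcs_H G x i j l k := Ha _ _ _ _
    have e3 : rcs_H G x k l j i = rcs_H G x k l i j := Hb _ _ _ _
    have e4 : rcs_H G x k i l j = rcs_H G x i k l j := Ha _ _ _ _
    have e5 : rcs_H G x k j l i = rcs_H G x j k l i := Ha _ _ _ _
    have e6 : rcs_H G x i l k j = rcs_H G x i l j k := Hb _ _ _ _
    have b1 : rcs_B G x k i l j = rcs_B G x i k l j := Ba _ _ _ _
    have b2 : rcs_B G x k j l i = rcs_B G x j k l i := Ba _ _ _ _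
    have b3 : rcs_B G x j i l k = rcs_B G x i j l k := Ba _ _ _ _
    linarith

end Pool.Agent.Helper696_RF
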