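import Mathlib
import Pool.Agent.Helper696_RF.Defs

/-!
# Algebraic curvature tensors: definitions
-/

set_option autoImplicit false
open scoped ContDiff Manifold Topology Matrix
open Set Filter

namespace Pool.Agent.Helper696_RF

open Pool.Agent.QTot Pool.Agent.H858R2

/-- The symmetries of an algebraic curvature tensor. -/
structure IsAlg {n : ℕ} (R : T4 n) : Prop where
  anti : ∀ i j k l, R i j k l = -R j i k l
  pair : ∀ i j k l, R i j k l = R k l i j
  bian : ∀ i j k l, R i j k l + R j k i l + R k i j l = 0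

/-- evaluation of a component, as a linear functional -/
def ev4 {n : ℕ} (i j k l : Fin n) : T4 n →ₗ[ℝ] ℝ where
  toFun R := R i j k l
  map_add' _ _ := rfl
  map_smul' _ _ := rfl

/-- `R_{0202} + R_{0303} + R_{1212} + R_{1313} - 2 R_{0123}` for the four indices `v 0, .., v 3` -/
noncomputable def iso4 {n : ℕ} (v : Fin 4 → Fin n) : T4 n →ₗ[ℝ] ℝ :=
  ev4 (v 0) (v 2) (v 0) (v 2) + ev4 (v 0) (v 3) (v 0) (v 3) + ev4 (v 1) (v 2) (v 1) (v 2)
    + ev4 (v 1) (v 3) (v 1) (v 3) - (2 : ℝ) • ev4 (v 0) (v 1) (v 2) (v 3)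

/-- non-negative isotropic curvature, for the components of a curvature tensor in an orthonormal frame -/
def PIC {n : ℕ} (R : T4 n) : Prop :=
  ∀ O : Mt n, Oᵀ * O = 1 → ∀ v : Fin 4 → Fin n, Function.Injective v → 0 ≤ iso4 v (rot R O)

/-- Ricci curvature component `∑ R_{apap}` -/
noncomputable def ric4 {n : ℕ} (a : Fin n) : T4 n →ₗ[ℝ] ℝ := ∑ p, ev4 a p a p

/-- scalar curvature -/
noncomputable def scal4 {n : ℕ} : T4 n →ₗ[ℝ] ℝ := ∑ a, ric4 a

/-- the functional `K_ab + ν/(n-2) (Ric_aa + Ric_bb - 2 K_ab) + ν²/((n-2)(n-3)) (scal - 2 Ric_aa - 2 Ric_bb + 2 K_ab)` -/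
noncomputable def fnu {n : ℕ} (ν : ℝ) (a b : Fin n) : T4 n →ₗ[ℝ] ℝ :=
  ev4 a b a b + (ν / ((n : ℝ) - 2)) • (ric4 a + ric4 b - (2 : ℝ) • ev4 a b a b)
    + (ν ^ 2 / (((n : ℝ) - 2) * ((n : ℝ) - 3))) •
      (scal4 - (2 : ℝ) • ric4 a - (2 : ℝ) • ric4 b + (2 : ℝ) • ev4 a b a b)

/-- the curvature tensor with the sectional curvatures `K i j` of the coordinate planes and all other
components zero -/
def dg {n : ℕ} (K : Mt n) : T4 n := fun i j k l =>
  K i j * ((if i = k then 1 else 0) * (if j = l then 1 else 0)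
    - (if i = l then 1 else 0) * (if j = k then 1 else 0))

/-- the matrix with entries `K_01 = B`, `K_0e = A`, `K_1e = E`, `K_ee' = C` for `e, e' ≥ 2` -/
def KW {n : ℕ} (A E B C : ℝ) : Mt n := fun i j =>
  if i.val < 2 then (if j.val < 2 then B else (if i.val = 0 then A else E))
  else (if j.val < 2 then (if j.val = 0 then A else E) else C)

end Pool.Agent.Helper696_RF
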