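import Mathlib
import Pool.Agent.Helper696_RF.Defs

/-!
# Shared definitions for the evolution equation of the curvature
-/

set_option autoImplicit false
open scoped ContDiff Manifold Topology Matrix
open Set Filter

namespace Pool.Agent.Helper696_RF

open Pool.Agent.QTot Pool.Agent.H858R2

/-- A Ricci flow near the point `(t0, x0)`. -/
structure LocFlow {n : ℕ} (G : ℝ → Eu n → Mt n) (t0 : ℝ) (x0 : Eu n) : Prop where
  smooth : ∀ᶠ p : ℝ × Eu n in 𝓝 (t0, x0), ∀ i j,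
    ContDiffAt ℝ ∞ (fun q : ℝ × Eu n => G q.1 q.2 i j) p
  symm : ∀ᶠ p : ℝ × Eu n in 𝓝 (t0, x0), (G p.1 p.2).IsSymm
  pos : ∀ᶠ p : ℝ × Eu n in 𝓝 (t0, x0), (G p.1 p.2).PosDef
  flow : ∀ᶠ p : ℝ × Eu n in 𝓝 (t0, x0), ∀ i j,
    HasDerivAt (fun τ => G τ p.2 i j) (-2 * Ric (G p.1) p.2 i j) p.1

/-- covariant derivative `∇_m T_{ijkl}` of a covariant 4-tensor field -/
noncomputable def cd4 {n : ℕ} (G : Eu n → Mt n) (T : Eu n → T4 n) (x : Eu n) (m : Fin n) : T4 n :=
  fun i j k l => pd m (fun y => T y i j k l) x - ∑ p, (Gam G p m i x * T x p j k l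
    + Gam G p m j x * T x i p k l + Gam G p m k x * T x i j p l + Gam G p m l x * T x i j k p)

/-- covariant derivative `∇_m S_{ij}` of a covariant 2-tensor field -/
noncomputable def cd2 {n : ℕ} (G : Eu n → Mt n) (S : Eu n → Mt n) (x : Eu n) (m i j : Fin n) : ℝ :=
  pd m (fun y => S y i j) x - ∑ p, (Gam G p m i x * S x p j + Gam G p m j x * S x i p)

/-- the frame `(3/2) 1 - (1/2) G`, orthonormal to second order where `G = 1` -/
noncomputable def fr {n : ℕ} (G : Mt n) : Mt n := (3 / 2 : ℝ) • 1 - (1 / 2 : ℝ) • G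

end Pool.Agent.Helper696_RF
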