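import Mathlib
import Pool.Agent.Helper696_RF.Defs
import Pool.Agent.Helper696_RF.Loc

set_option autoImplicit false
open scoped ContDiff Manifold Topology Matrix
open Set Filter

namespace Pool.Agent.Helper696_RF

open Pool.Agent.QTot Pool.Agent.H858R2

/-! ## Auxiliary lemmas -/

theorem RFB_pd_sub {n : ℕ} {i : Fin n} {f g : Eu n → ℝ} {x : Eu n} (hf : DifferentiableAt ℝ f x)
    (hg : DifferentiableAt ℝ g x) : pd i (fun y => f y - g y) x = pd i f x - pd i g x := by
  unfold pd
  rw [fderiv_fun_sub hf hg]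
  rfl

/-- lowering the index of the Christoffel symbols -/
theorem RFB_lower {n : ℕ} {G : Eu n → Mt n} {x : Eu n} (hd : (G x).det ≠ 0) (k m a : Fin n) :
    ∑ p, G x k p * Gam G p m a x = (1 / 2) * (pd m (fun y => G y a k) x + pd a (fun y => G y m k) x
      - pd k (fun y => G y m a) x) := by
  classical
  set v : Fin n → ℝ := fun l => pd m (fun y => G y a l) x + pd a (fun y => G y m l) x
      - pd l (fun y => G y m a) x with hv
  have h1 : ∀ p, Gam G p m a x = (1 / 2) * ((G x)⁻¹.mulVec v) p := fun p => rfl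
  have h2 : ∑ p, G x k p * Gam G p m a x = (1 / 2) * ((G x).mulVec ((G x)⁻¹.mulVec v)) k := by
    simp only [h1]
    rw [show ((G x).mulVec ((G x)⁻¹.mulVec v)) k = ∑ p, G x k p * ((G x)⁻¹.mulVec v) p from rfl,
      Finset.mul_sum]
    refine Finset.sum_congr rfl fun p _ => ?_
    ring
  rw [h2, Matrix.mulVec_mulVec, Matrix.mul_nonsing_inv _ (isUnit_iff_ne_zero.2 hd), Matrix.one_mulVec]

/-- metric compatibility -/
theorem RFB_compat {n : ℕ} {G : Eu n → Mt n} {x : Eu n}
    (hs : ∀ᶠ y in 𝓝 x, (G y).IsSymm) (hd : (G x).det ≠ 0) (m k a : Fin n) :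
    pd m (fun y => G y k a) x = ∑ p, (Gam G p m k x * G x p a + G x k p * Gam G p m a x) := by
  have e1 : ∀ m k a, pd m (fun y => G y k a) x = pd m (fun y => G y a k) x := fun m k a =>
    N2.pd_congr (hs.mono fun y hy => hy.apply _ _)
  have e2 : ∑ p, Gam G p m k x * G x p a = ∑ p, G x a p * Gam G p m k x := by
    refine Finset.sum_congr rfl fun p _ => ?_
    rw [hs.self_of_nhds.apply a p]; ring
  rw [Finset.sum_add_distrib, e2, RFB_lower hd, RFB_lower hd, e1 m a k, e1 a m k]
  have e3 := e1 k m a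
  linarith

theorem RFB_matrix {n : ℕ} (Γ : Fin n → Mt n) (A : Fin n → Fin n → Mt n)
    (B : Fin n → Fin n → Fin n → Mt n) (hB : ∀ m i j, B m i j = B i m j) (m i j : Fin n) :
    (let F := fun i j => A i j - A j i + Γ i * Γ j - Γ j * Γ i
     let dF := fun m i j => B m i j - B m j i + A m i * Γ j + Γ i * A m j - A m j * Γ i - Γ j * A m i
     let E := fun m i j => Γ m * F i j + dF m i j - F i j * Γ m
     E m i j + E i j m + E j m i = 0) := by
  simp only
  rw [hB m i j, hB m j i, hB i j m]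
  noncomm_ring

/-! ## TARGET B (second Bianchi identity, in coordinates). -/
theorem bianchi2 {n : ℕ} {G : Eu n → Mt n} {x : Eu n}
    (hG : ∀ i j, ContDiffAt ℝ ∞ (fun y => G y i j) x) (hs : ∀ᶠ y in 𝓝 x, (G y).IsSymm)
    (hd : (G x).det ≠ 0) (m i j k l : Fin n) :
    cd4 G (Rc G) x m i j k l + cd4 G (Rc G) x i j m k l + cd4 G (Rc G) x j m i k l = 0 := by
  classical
  have hG3 : ∀ i j, ContDiffAt ℝ (3 : ℕ) (fun y => G y i j) x :=
    fun i j => contDiffAt_infty.1 (hG i j) 3
  have hGam2 : ∀ a b c, ContDiffAt ℝ (2 : ℕ) (Gam G a b c) x := fun a b c =>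
    N2.gam_smooth (k := 2) hG3 hd a b c
  have hGamd : ∀ a b c, DifferentiableAt ℝ (Gam G a b c) x := fun a b c =>
    (hGam2 a b c).differentiableAt (by norm_num)
  have hpGamd : ∀ d a b c, DifferentiableAt ℝ (pd d (Gam G a b c)) x := fun d a b c =>
    (N2.pd_smooth (k := 1) (hGam2 a b c)).differentiableAt (by norm_num)
  have hGd : ∀ i j, DifferentiableAt ℝ (fun y => G y i j) x := fun i j =>
    (hG3 i j).differentiableAt (by norm_num)
  -- symmetry
  have hsym1 : ∀ a b c, Gam G a b c =ᶠ[𝓝 x] Gam G a c b := fun a b c =>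
    hs.eventually_nhds.mono fun y hy => N2.gam_sym hy a b c
  have hsym2 : ∀ d a b c, pd d (Gam G a b c) =ᶠ[𝓝 x] pd d (Gam G a c b) := fun d a b c =>
    (hsym1 a b c).eventually_nhds.mono fun y hy => N2.pd_congr hy
  -- matrices
  set g : Mt n := G x with hg
  set Γ : Fin n → Mt n := fun i => Matrix.of fun a b => Gam G a i b x with hΓ
  set A : Fin n → Fin n → Mt n := fun i j => Matrix.of fun a b => pd i (Gam G a j b) x with hA
  set B : Fin n → Fin n → Fin n → Mt n := fun m i j =>
    Matrix.of fun a b => pd m (pd i (Gam G a j b)) x with hB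
  have hBs : ∀ m i j, B m i j = B i m j := by
    intro m i j
    ext a b
    simp only [hB, Matrix.of_apply]
    exact N2.pd_symm (hGam2 a j b)
  have hΓs : ∀ i a b, Γ i a b = Γ b a i := by
    intro i a b
    simp only [hΓ, Matrix.of_apply]
    exact N2.gam_sym hs a i b
  set F : Fin n → Fin n → Mt n := fun i j => A i j - A j i + Γ i * Γ j - Γ j * Γ i with hF
  set dF : Fin n → Fin n → Fin n → Mt n := fun m i j =>
    B m i j - B m j i + A m i * Γ j + Γ i * A m j - A m j * Γ i - Γ j * A m i with hdF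
  have hFa : ∀ i j, F i j = - F j i := by
    intro i j
    simp only [hF]
    abel
  have hRm : ∀ a l i j, N2.Rm G a l i j =ᶠ[𝓝 x] fun y => pd i (Gam G a j l) y - pd j (Gam G a i l) y
      + ∑ e, (Gam G a i e y * Gam G e j l y - Gam G a j e y * Gam G e i l y) := by
    intro a l i j
    have h1 : ∀ᶠ y in 𝓝 x, ∀ e, Gam G e l j y = Gam G e j l y :=
      Filter.eventually_all.2 fun e => hsym1 e l j
    have h2 : ∀ᶠ y in 𝓝 x, ∀ e, Gam G e l i y = Gam G e i l y :=
      Filter.eventually_all.2 fun e => hsym1 e l i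
    filter_upwards [hsym2 i a l j, hsym2 j a l i, h1, h2] with y h3 h4 h5 h6
    unfold N2.Rm
    rw [h3, h4]
    congr 1
    refine Finset.sum_congr rfl fun e _ => ?_
    rw [h5, h6]
  have hRF : ∀ a l i j, N2.Rm G a l i j x = F i j a l := by
    intro a l i j
    rw [(hRm a l i j).self_of_nhds]
    simp only [hF, hA, hΓ, Matrix.sub_apply, Matrix.add_apply, Matrix.mul_apply, Matrix.of_apply,
      Finset.sum_sub_distrib]
    ring
  have hRmd : ∀ a l i j, DifferentiableAt ℝ (N2.Rm G a l i j) x := by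
    intro a l i j
    refine DifferentiableAt.congr_of_eventuallyEq ?_ (hRm a l i j)
    refine ((hpGamd _ _ _ _).sub (hpGamd _ _ _ _)).add ?_
    refine DifferentiableAt.fun_sum fun e _ => ?_
    exact ((hGamd _ _ _).mul (hGamd _ _ _)).sub ((hGamd _ _ _).mul (hGamd _ _ _))
  have hdRF : ∀ m a l i j, pd m (N2.Rm G a l i j) x = dF m i j a l := by
    intro m a l i j
    rw [N2.pd_congr (hRm a l i j)]
    have hprod : ∀ e, DifferentiableAt ℝ (fun y => Gam G a i e y * Gam G e j l y
        - Gam G a j e y * Gam G e i l y) x := fun e =>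
      ((hGamd _ _ _).mul (hGamd _ _ _)).sub ((hGamd _ _ _).mul (hGamd _ _ _))
    rw [N2.pd_add' (f := fun y => pd i (Gam G a j l) y - pd j (Gam G a i l) y)
      ((hpGamd _ _ _ _).sub (hpGamd _ _ _ _)) (DifferentiableAt.fun_sum fun e _ => hprod e),
      RFB_pd_sub (hpGamd _ _ _ _) (hpGamd _ _ _ _), N2.pd_sum' _ (fun e _ => hprod e)]
    have hterm : ∀ e, pd m (fun y => Gam G a i e y * Gam G e j l y
        - Gam G a j e y * Gam G e i l y) x =
        (pd m (Gam G a i e) x * Gam G e j l x + Gam G a i e x * pd m (Gam G e j l) x)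
        - (pd m (Gam G a j e) x * Gam G e i l x + Gam G a j e x * pd m (Gam G e i l) x) := by
      intro e
      rw [RFB_pd_sub (f := fun y => Gam G a i e y * Gam G e j l y)
        (g := fun y => Gam G a j e y * Gam G e i l y) ((hGamd _ _ _).mul (hGamd _ _ _))
        ((hGamd _ _ _).mul (hGamd _ _ _)), N2.pd_mul' (hGamd _ _ _) (hGamd _ _ _),
        N2.pd_mul' (hGamd _ _ _) (hGamd _ _ _)]
    simp only [hterm, hdF, hA, hB, hΓ, Matrix.sub_apply, Matrix.add_apply, Matrix.mul_apply,
      Matrix.of_apply, Finset.sum_sub_distrib, Finset.sum_add_distrib]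
    ring
  have hRc : ∀ i j k l, Rc G x i j k l = (g * F i j) k l := by
    intro i j k l
    simp only [Rc, R4, Matrix.mul_apply, hRF, hg]
  have hdRc : ∀ m i j k l, pd m (fun y => Rc G y i j k l) x =
      (((Γ m)ᵀ * g + g * Γ m) * F i j + g * dF m i j) k l := by
    intro m i j k l
    have h0 : (fun y => Rc G y i j k l) = fun y => ∑ a, G y k a * N2.Rm G a l i j y := by
      funext y; rfl
    rw [h0, N2.pd_sum' (F := fun a y => G y k a * N2.Rm G a l i j y) _
      (fun a _ => (hGd k a).mul (hRmd a l i j))]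
    rw [Matrix.add_apply, Matrix.mul_apply, Matrix.mul_apply, ← Finset.sum_add_distrib]
    refine Finset.sum_congr rfl fun a _ => ?_
    rw [N2.pd_mul' (hGd k a) (hRmd a l i j), RFB_compat hs hd, hRF, hdRF]
    congr 2
    rw [Matrix.add_apply, Matrix.mul_apply, Matrix.mul_apply, ← Finset.sum_add_distrib]
    rfl
  have hcd : ∀ m i j k l, cd4 G (Rc G) x m i j k l =
      (g * (Γ m * F i j + dF m i j - F i j * Γ m)) k l
      - ∑ p, (Γ m p i * (g * F p j) k l + Γ m p j * (g * F i p) k l) := by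
    intro m i j k l
    unfold cd4
    rw [hdRc]
    simp only [hRc]
    have e1 : ∑ p, (Gam G p m i x * (g * F p j) k l + Gam G p m j x * (g * F i p) k l
        + Gam G p m k x * (g * F i j) p l + Gam G p m l x * (g * F i j) k p) =
        ∑ p, (Γ m p i * (g * F p j) k l + Γ m p j * (g * F i p) k l)
        + ((Γ m)ᵀ * (g * F i j)) k l + ((g * F i j) * Γ m) k l := by
      rw [Matrix.mul_apply, Matrix.mul_apply (M := g * F i j), ← Finset.sum_add_distrib,
        ← Finset.sum_add_distrib]
      refine Finset.sum_congr rfl fun p _ => ?_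
      simp only [hΓ, Matrix.transpose_apply, Matrix.of_apply]
      ring
    rw [e1]
    have e2 : ((Γ m)ᵀ * g + g * Γ m) * F i j + g * dF m i j =
        (Γ m)ᵀ * (g * F i j) + (g * F i j) * Γ m
          + g * (Γ m * F i j + dF m i j - F i j * Γ m) := by
      noncomm_ring
    rw [e2, Matrix.add_apply, Matrix.add_apply]
    ring
  rw [hcd, hcd, hcd]
  have hE := RFB_matrix Γ A B hBs m i j
  simp only at hE
  have hE' : (Γ m * F i j + dF m i j - F i j * Γ m) + (Γ i * F j m + dF i j m - F j m * Γ i)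
      + (Γ j * F m i + dF j m i - F m i * Γ j) = 0 := hE
  have hE2 : (g * (Γ m * F i j + dF m i j - F i j * Γ m)) k l
      + (g * (Γ i * F j m + dF i j m - F j m * Γ i)) k l
      + (g * (Γ j * F m i + dF j m i - F m i * Γ j)) k l = 0 := by
    rw [← Matrix.add_apply, ← Matrix.add_apply, ← Matrix.mul_add, ← Matrix.mul_add, hE',
      Matrix.mul_zero, Matrix.zero_apply]
  have hS : ∑ p, (Γ m p i * (g * F p j) k l + Γ m p j * (g * F i p) k l)
      + ∑ p, (Γ i p j * (g * F p m) k l + Γ i p m * (g * F j p) k l)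
      + ∑ p, (Γ j p m * (g * F p i) k l + Γ j p i * (g * F m p) k l) = 0 := by
    rw [← Finset.sum_add_distrib, ← Finset.sum_add_distrib]
    apply Finset.sum_eq_zero
    intro p _
    have n1 : ∀ a b, (g * F a b) k l = - (g * F b a) k l := by
      intro a b
      rw [hFa a b, Matrix.mul_neg, Matrix.neg_apply]
    rw [hΓs i p m, hΓs j p m, hΓs j p i, n1 j p, n1 i p, n1 m p]
    ring
  linarith

end Pool.Agent.Helper696_RF
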