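import Mathlib
import Pool.Agent.Helper696_RF.Defs
import Pool.Agent.Helper696_RF.Loc
import Pool.Agent.Helper696_RF.A

/-!
Needs on disk: `Pool/Agent/Helper696_RF/Defs.lean` (origin/main), `Pool/Agent/H858R2/Defs.lean` and the directory
`Pool/Agent/QTot` (starting files). Useful lemmas are in `Pool.Agent.QTot.N2` (already imported through Defs): `pd_congr`,
`pd_add'`, `pd_mul'`, `pd_sum'`, `pd_comp'`, `pd_smooth`, `pd_symm`, `inv_smooth`, `gam_smooth`, `gam_sym`, `gam_pull'`,
`rm_pull`, `ric_pull`, `Ric_eq`.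
-/

set_option autoImplicit false
open scoped ContDiff Manifold Topology Matrix
open Set Filter

namespace Pool.Agent.Helper696_RF

open Pool.Agent.QTot Pool.Agent.H858R2

/-! ### auxiliary lemmas for TARGET C (helper474) -/

open Pool.Agent.QTot.N2 in
theorem tc_compat {n : ℕ} {G : Eu n → Mt n} {x : Eu n}
    (hs : ∀ᶠ y in 𝓝 x, (G y).IsSymm) (hd : (G x).det ≠ 0) (m a b : Fin n) :
    pd m (fun y => G y a b) x = ∑ p, (Gam G p m a x * G x p b + Gam G p m b x * G x a p) := by
  have hsx : ∀ i j, G x i j = G x j i := fun i j => hs.self_of_nhds.apply j i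
  have hps : ∀ q i j, pd q (fun y => G y i j) x = pd q (fun y => G y j i) x := fun q i j =>
    pd_congr (hs.mono fun y hy => hy.apply j i)
  have hu : IsUnit (G x).det := isUnit_iff_ne_zero.2 hd
  have hlow : ∀ a b, ∑ p, G x b p * Gam G p m a x =
      1 / 2 * (pd m (fun y => G y a b) x + pd a (fun y => G y m b) x - pd b (fun y => G y m a) x) := by
    intro a b
    set v : Fin n → ℝ := fun l =>
      pd m (fun y => G y a l) x + pd a (fun y => G y m l) x - pd l (fun y => G y m a) x with hv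
    have e1 : ∀ p, Gam G p m a x = 1 / 2 * ((G x)⁻¹.mulVec v) p := by
      intro p
      rfl
    have e2 : ∑ p, G x b p * Gam G p m a x = 1 / 2 * ((G x).mulVec ((G x)⁻¹.mulVec v)) b := by
      show _ = 1 / 2 * ∑ p, G x b p * ((G x)⁻¹.mulVec v) p
      rw [Finset.mul_sum]
      refine Finset.sum_congr rfl fun p _ => ?_
      rw [e1]; ring
    rw [e2, Matrix.mulVec_mulVec, Matrix.mul_nonsing_inv _ hu, Matrix.one_mulVec]
  rw [Finset.sum_add_distrib]
  have h1 : ∑ p, Gam G p m a x * G x p b = ∑ p, G x b p * Gam G p m a x :=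
    Finset.sum_congr rfl fun p _ => by rw [hsx p b]; ring
  have h2 : ∑ p, Gam G p m b x * G x a p = ∑ p, G x a p * Gam G p m b x :=
    Finset.sum_congr rfl fun p _ => by ring
  rw [h1, h2, hlow, hlow, hps m b a]
  ring

open Pool.Agent.QTot.N2 in
theorem tc_inv {n : ℕ} {G : Eu n → Mt n} {x : Eu n}
    (hG : ∀ i j, ContDiffAt ℝ (1 : ℕ) (fun y => G y i j) x) (hs : ∀ᶠ y in 𝓝 x, (G y).IsSymm)
    (hd : (G x).det ≠ 0) (m a b : Fin n) :
    pd m (fun y => (G y)⁻¹ a b) x =
      -∑ p, (Gam G a m p x * (G x)⁻¹ p b + Gam G b m p x * (G x)⁻¹ a p) := by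
  classical
  have hu : IsUnit (G x).det := isUnit_iff_ne_zero.2 hd
  have hGd : ∀ i j, DifferentiableAt ℝ (fun y => G y i j) x := fun i j =>
    (hG i j).differentiableAt (by norm_num)
  have hId : ∀ i j, DifferentiableAt ℝ (fun y => (G y)⁻¹ i j) x := fun i j =>
    (inv_smooth hG hd i j).differentiableAt (by norm_num)
  have hne : ∀ᶠ y in 𝓝 x, (G y).det ≠ 0 :=
    (det_cont (M := G) fun a k => (hGd a k).continuousAt).eventually_ne hd
  set I : Mt n := (G x)⁻¹ with hI
  set Gm : Mt n := Matrix.of fun p a => Gam G p m a x with hGm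
  set dG : Mt n := Matrix.of fun a b => pd m (fun y => G y a b) x with hdG
  set dI : Mt n := Matrix.of fun a b => pd m (fun y => (G y)⁻¹ a b) x with hdI
  have h1 : dI * G x + I * dG = 0 := by
    ext a b
    have h2 : pd m (fun y => ∑ c, (G y)⁻¹ a c * G y c b) x = 0 := by
      have : (fun y => ∑ c, (G y)⁻¹ a c * G y c b) =ᶠ[𝓝 x] fun _ => (1 : Mt n) a b := by
        filter_upwards [hne] with y hy
        have := congrFun (congrFun (Matrix.nonsing_inv_mul (G y) (isUnit_iff_ne_zero.2 hy)) a) b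
        rw [Matrix.mul_apply] at this
        exact this
      rw [pd_congr this]
      unfold pd
      simp
    have hm : ∀ c, DifferentiableAt ℝ (fun y => (G y)⁻¹ a c * G y c b) x := fun c =>
      (hId a c).mul (hGd c b)
    rw [pd_sum' _ (fun c _ => hm c)] at h2
    rw [Matrix.add_apply, Matrix.mul_apply, Matrix.mul_apply, ← Finset.sum_add_distrib,
      Matrix.zero_apply, ← h2]
    refine Finset.sum_congr rfl fun c _ => ?_
    rw [pd_mul' (hId a c) (hGd c b)]
    rfl
  have h3 : dG = Gmᵀ * G x + G x * Gm := by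
    ext a b
    rw [Matrix.add_apply, Matrix.mul_apply, Matrix.mul_apply, ← Finset.sum_add_distrib]
    show pd m (fun y => G y a b) x = _
    rw [tc_compat hs hd]
    refine Finset.sum_congr rfl fun c _ => ?_
    show _ = Gam G c m a x * G x c b + G x a c * Gam G c m b x
    ring
  have h4 : dI = -(I * Gmᵀ) - Gm * I := by
    have h5 : dI * G x * I = -(I * dG * I) := by
      have : dI * G x = -(I * dG) := eq_neg_of_add_eq_zero_left h1
      rw [this, Matrix.neg_mul]
    rw [Matrix.mul_assoc, hI, Matrix.mul_nonsing_inv _ hu, Matrix.mul_one, ← hI, h3] at h5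
    rw [h5, Matrix.mul_add, Matrix.add_mul, neg_add, sub_eq_add_neg]
    congr 1
    · rw [← Matrix.mul_assoc, Matrix.mul_assoc, hI, Matrix.mul_nonsing_inv _ hu, Matrix.mul_one]
    · rw [← Matrix.mul_assoc, hI, Matrix.nonsing_inv_mul _ hu, Matrix.one_mul]
  have h6 := congrFun (congrFun h4 a) b
  rw [Matrix.sub_apply, Matrix.neg_apply, Matrix.mul_apply, Matrix.mul_apply] at h6
  have h7 : pd m (fun y => (G y)⁻¹ a b) x = dI a b := rfl
  rw [h7, h6, Finset.sum_add_distrib]
  have e1 : ∑ j, I a j * Gmᵀ j b = ∑ p, Gam G b m p x * I a p :=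
    Finset.sum_congr rfl fun p _ => by
      show I a p * Gam G b m p x = _
      ring
  have e2 : ∑ j, Gm a j * I j b = ∑ p, Gam G a m p x * I p b := rfl
  rw [e1, e2]
  ring

theorem tc_ric {n : ℕ} {G : Eu n → Mt n} {x : Eu n}
    (hG : ∀ i j, ContDiffAt ℝ ∞ (fun y => G y i j) x) (hs : ∀ᶠ y in 𝓝 x, (G y).IsSymm)
    (hd : (G x).det ≠ 0) (i j : Fin n) :
    Ric G x i j = ∑ a, ∑ b, (G x)⁻¹ a b * Rc G x a i b j := by
  classical
  have hu : IsUnit (G x).det := isUnit_iff_ne_zero.2 hd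
  have hsx : ∀ i j, G x i j = G x j i := fun i j => hs.self_of_nhds.apply j i
  rw [Pool.Agent.QTot.N2.Ric_eq]
  have h1 : ∀ a b, (G x)⁻¹ a b * Rc G x a i b j
      = ∑ c, (G x)⁻¹ a b * G x a c * Pool.Agent.QTot.N2.Rm G c i b j x := by
    intro a b
    rw [(rc_symm hG hs hd a i b j).2.2.1]
    show (G x)⁻¹ a b * ∑ c, G x a c * Pool.Agent.QTot.N2.Rm G c i b j x = _
    rw [Finset.mul_sum]
    exact Finset.sum_congr rfl fun c _ => by ring
  have h2 : ∀ b c, ∑ a, (G x)⁻¹ a b * G x a c = (1 : Mt n) c b := by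
    intro b c
    have := congrFun (congrFun (Matrix.mul_nonsing_inv (G x) hu) c) b
    rw [Matrix.mul_apply] at this
    rw [← this]
    exact Finset.sum_congr rfl fun a _ => by rw [hsx a c]; ring
  calc ∑ k, Pool.Agent.QTot.N2.Rm G k i k j x
      = ∑ b, ∑ c, (1 : Mt n) c b * Pool.Agent.QTot.N2.Rm G c i b j x := by
        refine Finset.sum_congr rfl fun b _ => ?_
        rw [Finset.sum_eq_single b]
        · rw [Matrix.one_apply_eq, one_mul]
        · intro c _ hc
          rw [Matrix.one_apply_ne hc, zero_mul]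
        · intro h; exact absurd (Finset.mem_univ _) h
    _ = ∑ b, ∑ c, ∑ a, (G x)⁻¹ a b * G x a c * Pool.Agent.QTot.N2.Rm G c i b j x := by
        refine Finset.sum_congr rfl fun b _ => Finset.sum_congr rfl fun c _ => ?_
        rw [← h2, Finset.sum_mul]
    _ = ∑ b, ∑ a, ∑ c, (G x)⁻¹ a b * G x a c * Pool.Agent.QTot.N2.Rm G c i b j x :=
        Finset.sum_congr rfl fun b _ => Finset.sum_comm
    _ = ∑ a, ∑ b, ∑ c, (G x)⁻¹ a b * G x a c * Pool.Agent.QTot.N2.Rm G c i b j x :=
        Finset.sum_comm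
    _ = _ := by
        refine Finset.sum_congr rfl fun a _ => Finset.sum_congr rfl fun b _ => ?_
        rw [h1]

open Pool.Agent.QTot.N2 in
theorem tc_rc_diff {n : ℕ} {G : Eu n → Mt n} {x : Eu n}
    (hG : ∀ i j, ContDiffAt ℝ ∞ (fun y => G y i j) x)
    (hd : (G x).det ≠ 0) (i j k l : Fin n) : DifferentiableAt ℝ (fun y => Rc G y i j k l) x := by
  have hG3 : ∀ i j, ContDiffAt ℝ (3 : ℕ) (fun y => G y i j) x := fun i j =>
    contDiffAt_infty.1 (hG i j) 3
  have hGam : ∀ a b c, ContDiffAt ℝ (2 : ℕ) (Gam G a b c) x := fun a b c => gam_smooth hG3 hd a b c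
  have hGd : ∀ a b c, DifferentiableAt ℝ (Gam G a b c) x := fun a b c =>
    (hGam a b c).differentiableAt (by norm_num)
  have hpd : ∀ q a b c, DifferentiableAt ℝ (pd q (Gam G a b c)) x := fun q a b c =>
    (pd_smooth (k := 1) (hGam a b c)).differentiableAt (by norm_num)
  have hRm : ∀ a b c d, DifferentiableAt ℝ (Rm G a b c d) x := by
    intro a b c d
    unfold Rm
    refine ((hpd _ _ _ _).sub (hpd _ _ _ _)).add (DifferentiableAt.fun_sum fun e _ => ?_)
    exact ((hGd _ _ _).mul (hGd _ _ _)).sub ((hGd _ _ _).mul (hGd _ _ _))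
  show DifferentiableAt ℝ (fun y => ∑ a, G y k a * Rm G a l i j y) x
  refine DifferentiableAt.fun_sum fun a _ => ?_
  exact ((hG3 k a).differentiableAt (by norm_num)).mul (hRm _ _ _ _)

/-! ## TARGET C (traces and covariant derivatives commute).
Proof: `Ric G y i j = ∑ k, Rm G k i k j y = ∑ a b, G⁻¹ a b * Rc G y a i b j` wherever `det G ≠ 0` (`Ric_eq`, symmetries; use that
smoothness holds near `x` as assumed). Differentiate this
with the product rule and use `∂_m G⁻¹^{ab} = - ∑ p, (Γ^a_{mp} G⁻¹^{pb} + Γ^b_{mp} G⁻¹^{ap})` (differentiate `G⁻¹ G = 1` and use metric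
compatibility `∂_m G_{ab} = ∑ p, (Γ^p_{ma} G_{pb} + Γ^p_{mb} G_{ap})`). -/
theorem trace_cd {n : ℕ} {G : Eu n → Mt n} {x : Eu n}
    (hG : ∀ᶠ y in 𝓝 x, ∀ i j, ContDiffAt ℝ ∞ (fun y => G y i j) y) (hs : ∀ᶠ y in 𝓝 x, (G y).IsSymm)
    (hd : (G x).det ≠ 0) (m i j : Fin n) :
    ∑ a, ∑ b, (G x)⁻¹ a b * cd4 G (Rc G) x m a i b j = cd2 G (fun y => Ric G y) x m i j := by
  classical
  have hGx : ∀ i j, ContDiffAt ℝ ∞ (fun y => G y i j) x := hG.self_of_nhds
  have hG1 : ∀ i j, ContDiffAt ℝ (1 : ℕ) (fun y => G y i j) x := fun i j =>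
    contDiffAt_infty.1 (hGx i j) 1
  have hId : ∀ i j, DifferentiableAt ℝ (fun y => (G y)⁻¹ i j) x := fun i j =>
    (Pool.Agent.QTot.N2.inv_smooth hG1 hd i j).differentiableAt (by norm_num)
  have hne : ∀ᶠ y in 𝓝 x, (G y).det ≠ 0 :=
    (Pool.Agent.QTot.N2.det_cont (M := G) fun a k =>
      ((hG1 a k).differentiableAt (by norm_num)).continuousAt).eventually_ne hd
  have hric : ∀ i j, (fun y => Ric G y i j) =ᶠ[𝓝 x]
      fun y => ∑ a, ∑ b, (G y)⁻¹ a b * Rc G y a i b j := by
    intro i j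
    filter_upwards [hG, hs.eventually_nhds, hne] with y h1 h2 h3
    exact tc_ric h1 h2 h3 i j
  have hR : ∀ a b, DifferentiableAt ℝ (fun y => Rc G y a i b j) x := fun a b =>
    tc_rc_diff hGx hd a i b j
  have hpd : pd m (fun y => Ric G y i j) x = ∑ a, ∑ b,
      (pd m (fun y => (G y)⁻¹ a b) x * Rc G x a i b j
        + (G x)⁻¹ a b * pd m (fun y => Rc G y a i b j) x) := by
    have hm : ∀ a b, DifferentiableAt ℝ (fun y => (G y)⁻¹ a b * Rc G y a i b j) x := fun a b =>
      (hId a b).mul (hR a b)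
    have hm2 : ∀ a, DifferentiableAt ℝ (fun y => ∑ b, (G y)⁻¹ a b * Rc G y a i b j) x := fun a =>
      DifferentiableAt.fun_sum fun b _ => hm a b
    rw [Pool.Agent.QTot.N2.pd_congr (hric i j), Pool.Agent.QTot.N2.pd_sum' _ (fun a _ => hm2 a)]
    refine Finset.sum_congr rfl fun a _ => ?_
    rw [Pool.Agent.QTot.N2.pd_sum' _ (fun b _ => hm a b)]
    refine Finset.sum_congr rfl fun b _ => ?_
    rw [Pool.Agent.QTot.N2.pd_mul' (hId a b) (hR a b)]
  have hric' : ∀ i j, Ric G x i j = ∑ a, ∑ b, (G x)⁻¹ a b * Rc G x a i b j := fun i j =>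
    (hric i j).self_of_nhds
  -- the derivative of the inverse
  have hinv : ∑ a, ∑ b, pd m (fun y => (G y)⁻¹ a b) x * Rc G x a i b j =
      -∑ a, ∑ b, ∑ p, (G x)⁻¹ a b * (Gam G p m a x * Rc G x p i b j
        + Gam G p m b x * Rc G x a i p j) := by
    have e1 : ∀ a b, pd m (fun y => (G y)⁻¹ a b) x * Rc G x a i b j
        = -(∑ p, Gam G a m p x * (G x)⁻¹ p b * Rc G x a i b j)
          - ∑ p, Gam G b m p x * (G x)⁻¹ a p * Rc G x a i b j := by
      intro a b
      rw [tc_inv hG1 hs hd, Finset.sum_add_distrib, neg_mul, add_mul, Finset.sum_mul,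
        Finset.sum_mul]
      ring
    simp only [e1]
    have e2 : ∑ a, ∑ b, ∑ p, Gam G a m p x * (G x)⁻¹ p b * Rc G x a i b j
        = ∑ a, ∑ b, ∑ p, (G x)⁻¹ a b * (Gam G p m a x * Rc G x p i b j) := by
      calc _ = ∑ a, ∑ p, ∑ b, Gam G a m p x * (G x)⁻¹ p b * Rc G x a i b j :=
            Finset.sum_congr rfl fun a _ => Finset.sum_comm
        _ = ∑ p, ∑ a, ∑ b, Gam G a m p x * (G x)⁻¹ p b * Rc G x a i b j := Finset.sum_comm
        _ = ∑ p, ∑ b, ∑ a, Gam G a m p x * (G x)⁻¹ p b * Rc G x a i b j :=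
            Finset.sum_congr rfl fun a _ => Finset.sum_comm
        _ = _ := by
            refine Finset.sum_congr rfl fun a _ => Finset.sum_congr rfl fun b _ =>
              Finset.sum_congr rfl fun p _ => ?_
            ring
    have e3 : ∑ a, ∑ b, ∑ p, Gam G b m p x * (G x)⁻¹ a p * Rc G x a i b j
        = ∑ a, ∑ b, ∑ p, (G x)⁻¹ a b * (Gam G p m b x * Rc G x a i p j) := by
      refine Finset.sum_congr rfl fun a _ => ?_
      rw [Finset.sum_comm]
      refine Finset.sum_congr rfl fun b _ => Finset.sum_congr rfl fun p _ => ?_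
      ring
    simp only [Finset.sum_sub_distrib, Finset.sum_neg_distrib]
    rw [e2, e3]
    simp only [mul_add, Finset.sum_add_distrib]
    ring
  unfold cd2 cd4
  simp only
  rw [hpd]
  have e4 : ∑ a, ∑ b, (pd m (fun y => (G y)⁻¹ a b) x * Rc G x a i b j
        + (G x)⁻¹ a b * pd m (fun y => Rc G y a i b j) x)
      = ∑ a, ∑ b, (G x)⁻¹ a b * pd m (fun y => Rc G y a i b j) x
        - ∑ a, ∑ b, ∑ p, (G x)⁻¹ a b * (Gam G p m a x * Rc G x p i b j
        + Gam G p m b x * Rc G x a i p j) := by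
    simp only [Finset.sum_add_distrib (f := fun b => pd m (fun y => (G y)⁻¹ _ b) x * _)]
    rw [Finset.sum_add_distrib, hinv]
    ring
  rw [e4]
  have e5 : ∑ p, (Gam G p m i x * Ric G x p j + Gam G p m j x * Ric G x i p)
      = ∑ a, ∑ b, ∑ p, (G x)⁻¹ a b * (Gam G p m i x * Rc G x a p b j
        + Gam G p m j x * Rc G x a i b p) := by
    calc _ = ∑ p, ∑ a, ∑ b, (G x)⁻¹ a b * (Gam G p m i x * Rc G x a p b j
        + Gam G p m j x * Rc G x a i b p) := by
          refine Finset.sum_congr rfl fun p _ => ?_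
          rw [hric', hric', Finset.mul_sum, Finset.mul_sum, ← Finset.sum_add_distrib]
          refine Finset.sum_congr rfl fun a _ => ?_
          rw [Finset.mul_sum, Finset.mul_sum, ← Finset.sum_add_distrib]
          refine Finset.sum_congr rfl fun b _ => ?_
          ring
      _ = ∑ a, ∑ p, ∑ b, (G x)⁻¹ a b * (Gam G p m i x * Rc G x a p b j
        + Gam G p m j x * Rc G x a i b p) := Finset.sum_comm
      _ = _ := Finset.sum_congr rfl fun a _ => Finset.sum_comm
  rw [e5, ← Finset.sum_sub_distrib, ← Finset.sum_sub_distrib]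
  refine Finset.sum_congr rfl fun a _ => ?_
  rw [← Finset.sum_sub_distrib, ← Finset.sum_sub_distrib]
  refine Finset.sum_congr rfl fun b _ => ?_
  rw [mul_sub, sub_sub, ← Finset.sum_add_distrib, Finset.mul_sum]
  congr 1
  refine Finset.sum_congr rfl fun p _ => ?_
  ring

end Pool.Agent.Helper696_RF
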