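import Mathlib
import Pool.Agent.Helper696_RF.Defs
import Pool.Agent.Helper696_RF.Loc

/-!
Needs on disk: `Pool/Agent/Helper696_RF/Defs.lean` (origin/main), `Pool/Agent/H858R2/Defs.lean` and the directory
`Pool/Agent/QTot` (starting files). Useful lemmas are in `Pool.Agent.QTot.N2` (already imported through Defs): `pd_congr`,
`pd_add'`, `pd_mul'`, `pd_sum'`, `pd_comp'`, `pd_smooth`, `pd_symm`, `inv_smooth`, `gam_smooth`, `gam_sym`, `gam_pull'`,
`rm_pull`, `ric_pull`, `Ric_eq`.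
-/

set_option autoImplicit false
open scoped ContDiff Manifold Topology Matrix
open Set Filter

namespace Pool.Agent.Helper696_RF

open Pool.Agent.QTot Pool.Agent.H858R2

/-! ## Auxiliary results -/

theorem rfd_mixed {n : ℕ} {F : ℝ × Eu n → ℝ} {t0 : ℝ} {x0 : Eu n}
    (hF : ∀ᶠ p in 𝓝 (t0, x0), ContDiffAt ℝ ∞ F p) {R : Eu n → ℝ}
    (hR : ∀ᶠ y in 𝓝 x0, HasDerivAt (fun τ => F (τ, y)) (R y) t0) (l : Fin n) :
    HasDerivAt (fun τ => pd l (fun y => F (τ, y)) x0) (pd l R x0) t0 := by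
  have hF2 : ContDiffAt ℝ 2 F (t0, x0) := by
    exact_mod_cast contDiffAt_infty.1 hF.self_of_nhds 2
  have hsym : IsSymmSndFDerivAt ℝ F (t0, x0) := hF2.isSymmSndFDerivAt (by simp)
  have hd : DifferentiableAt ℝ (fderiv ℝ F) (t0, x0) :=
    (hF2.fderiv_right (m := 1) (by norm_num)).differentiableAt (by norm_num)
  have hdiff : ∀ᶠ p in 𝓝 (t0, x0), DifferentiableAt ℝ F p :=
    hF.mono fun p hp => hp.differentiableAt (by simp)
  have htx : Tendsto (fun y : Eu n => (t0, y)) (𝓝 x0) (𝓝 (t0, x0)) :=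
    (by fun_prop : Continuous (fun y : Eu n => (t0, y))).tendsto x0
  have htt : Tendsto (fun τ : ℝ => (τ, x0)) (𝓝 t0) (𝓝 (t0, x0)) :=
    (by fun_prop : Continuous (fun τ : ℝ => (τ, x0))).tendsto t0
  set e : Eu n := Pi.single l 1 with he
  have h1 : (fun τ => pd l (fun y => F (τ, y)) x0) =ᶠ[𝓝 t0]
      fun τ => fderiv ℝ F (τ, x0) (0, e) := by
    filter_upwards [htt.eventually hdiff] with τ hτ
    unfold pd
    have h2 : HasFDerivAt (fun y => F (τ, y))
        ((fderiv ℝ F (τ, x0)).comp (ContinuousLinearMap.inr ℝ ℝ (Eu n))) x0 :=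
      hτ.hasFDerivAt.comp x0 (hasFDerivAt_prodMk_right τ x0)
    rw [h2.fderiv]
    simp [he]
  have h3 : R =ᶠ[𝓝 x0] fun y => fderiv ℝ F (t0, y) (1, 0) := by
    filter_upwards [htx.eventually hdiff, hR] with y hy hRy
    have h4 : HasDerivAt (fun τ => F (τ, y)) (fderiv ℝ F (t0, y) (1, 0)) t0 := by
      have h5 : HasFDerivAt (fun τ => F (τ, y))
          ((fderiv ℝ F (t0, y)).comp (ContinuousLinearMap.inl ℝ ℝ (Eu n))) t0 :=
        hy.hasFDerivAt.comp t0 (hasFDerivAt_prodMk_left t0 y)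
      have h6 := h5.hasDerivAt
      simpa using h6
    exact hRy.unique h4
  have h7 : pd l R x0 = fderiv ℝ (fderiv ℝ F) (t0, x0) (0, e) (1, 0) := by
    rw [N2.pd_congr h3]
    unfold pd
    have h8 : HasFDerivAt (fun y => fderiv ℝ F (t0, y))
        ((fderiv ℝ (fderiv ℝ F) (t0, x0)).comp (ContinuousLinearMap.inr ℝ ℝ (Eu n))) x0 :=
      hd.hasFDerivAt.comp x0 (hasFDerivAt_prodMk_right t0 x0)
    have h9 := h8.clm_apply (hasFDerivAt_const ((1 : ℝ), (0 : Eu n)) x0)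
    rw [h9.fderiv]
    simp [he]
  have h10 : HasDerivAt (fun τ => fderiv ℝ F (τ, x0) (0, e))
      (fderiv ℝ (fderiv ℝ F) (t0, x0) (1, 0) (0, e)) t0 := by
    have h8 : HasFDerivAt (fun τ => fderiv ℝ F (τ, x0))
        ((fderiv ℝ (fderiv ℝ F) (t0, x0)).comp (ContinuousLinearMap.inl ℝ ℝ (Eu n))) t0 :=
      hd.hasFDerivAt.comp t0 (hasFDerivAt_prodMk_left t0 x0)
    have h9 := (h8.clm_apply (hasFDerivAt_const ((0 : ℝ), e) t0)).hasDerivAt
    simpa using h9
  rw [h7, ← hsym.eq (1, 0) (0, e)]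
  exact h10.congr_of_eventuallyEq h1

theorem rfd_inv_smooth {n : ℕ} {A : ℝ → Mt n} {t : ℝ}
    (hA : ∀ i j, ContDiffAt ℝ 1 (fun τ => A τ i j) t) (hd : (A t).det ≠ 0) (a b : Fin n) :
    ContDiffAt ℝ 1 (fun τ => (A τ)⁻¹ a b) t := by
  classical
  have hdet : ∀ M : ℝ → Mt n, (∀ i j, ContDiffAt ℝ 1 (fun y => M y i j) t) →
      ContDiffAt ℝ 1 (fun y => (M y).det) t := by
    intro M hM
    simp only [Matrix.det_apply]
    refine ContDiffAt.sum fun σ _ => ?_
    refine ContDiffAt.const_smul _ ?_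
    exact contDiffAt_prod fun i _ => hM _ _
  have hadj : ContDiffAt ℝ 1 (fun y => (A y).adjugate a b) t := by
    simp only [Matrix.adjugate_apply]
    apply hdet
    intro i j
    by_cases h : i = b
    · subst h
      simp only [Matrix.updateRow_self]
      exact contDiffAt_const
    · simp only [Matrix.updateRow_ne h]
      exact hA i j
  have : (fun y => (A y)⁻¹ a b) = fun y => ((A y).det)⁻¹ * (A y).adjugate a b := by
    funext y
    rw [Matrix.inv_def, Ring.inverse_eq_inv']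
    rfl
  rw [this]
  exact ((hdet A hA).inv hd).mul hadj

theorem rfd_inv_deriv {n : ℕ} {A : ℝ → Mt n} {t : ℝ} {A' : Mt n}
    (hA : ∀ i j, ContDiffAt ℝ 1 (fun τ => A τ i j) t)
    (hA' : ∀ i j, HasDerivAt (fun τ => A τ i j) (A' i j) t)
    (hd : ∀ᶠ τ in 𝓝 t, (A τ).det ≠ 0) (a b : Fin n) :
    HasDerivAt (fun τ => (A τ)⁻¹ a b) ((-((A t)⁻¹ * A' * (A t)⁻¹)) a b) t := by
  classical
  have hdt := hd.self_of_nhds
  have hdu : IsUnit (A t).det := isUnit_iff_ne_zero.2 hdt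
  set B' : Mt n := Matrix.of fun a b => deriv (fun τ => (A τ)⁻¹ a b) t with hB'
  have hB : ∀ a b, HasDerivAt (fun τ => (A τ)⁻¹ a b) (B' a b) t := fun a b =>
    ((rfd_inv_smooth hA hdt a b).differentiableAt (by norm_num)).hasDerivAt
  have hprod : B' * A t + (A t)⁻¹ * A' = 0 := by
    ext a b
    have h1 : HasDerivAt (fun τ => ∑ c, (A τ)⁻¹ a c * A τ c b)
        (∑ c, (B' a c * A t c b + (A t)⁻¹ a c * A' c b)) t :=
      HasDerivAt.fun_sum fun c _ => (hB a c).mul (hA' c b)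
    have h2 : (fun τ => ∑ c, (A τ)⁻¹ a c * A τ c b) =ᶠ[𝓝 t] fun _ => (1 : Mt n) a b := by
      filter_upwards [hd] with τ hτ
      rw [← Matrix.nonsing_inv_mul (A τ) (isUnit_iff_ne_zero.2 hτ), Matrix.mul_apply]
    have h3 : HasDerivAt (fun _ : ℝ => (1 : Mt n) a b)
        (∑ c, (B' a c * A t c b + (A t)⁻¹ a c * A' c b)) t := h1.congr_of_eventuallyEq h2.symm
    have h4 := h3.unique (hasDerivAt_const t ((1 : Mt n) a b))
    rw [Matrix.add_apply, Matrix.mul_apply, Matrix.mul_apply, ← Finset.sum_add_distrib, h4]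
    rfl
  have hfin : B' = -((A t)⁻¹ * A' * (A t)⁻¹) := by
    have h1 : B' * A t = -((A t)⁻¹ * A') := eq_neg_of_add_eq_zero_left hprod
    calc B' = B' * (A t * (A t)⁻¹) := by rw [Matrix.mul_nonsing_inv _ hdu, mul_one]
      _ = (B' * A t) * (A t)⁻¹ := by rw [Matrix.mul_assoc]
      _ = -((A t)⁻¹ * A' * (A t)⁻¹) := by rw [h1, neg_mul]
  rw [← hfin]
  exact hB a b

theorem rfd_alg {n : ℕ} (I Rc : Mt n) (hRc : ∀ i j, Rc i j = Rc j i) (Γ : Fin n → Fin n → Fin n → ℝ)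
    (hΓ : ∀ a b c, Γ a b c = Γ a c b) (Bv : Fin n → ℝ) (DR : Fin n → Fin n → Fin n → ℝ)
    (k l j : Fin n) (hB : ∀ c, 2 * Γ c l j = ∑ a, I c a * Bv a) :
    1 / 2 * ∑ a, ((2 * (I * Rc * I) k a) * Bv a +
        I k a * ((-2) * DR l j a + (-2) * DR j l a - (-2) * DR a l j)) =
      -∑ a, I k a * ((DR l j a - ∑ p, (Γ p l j * Rc p a + Γ p l a * Rc j p)) +
        (DR j l a - ∑ p, (Γ p j l * Rc p a + Γ p j a * Rc l p)) -
        (DR a l j - ∑ p, (Γ p a l * Rc p j + Γ p a j * Rc l p))) := by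
  have e1 : ∀ a, (DR l j a - ∑ p, (Γ p l j * Rc p a + Γ p l a * Rc j p)) +
        (DR j l a - ∑ p, (Γ p j l * Rc p a + Γ p j a * Rc l p)) -
        (DR a l j - ∑ p, (Γ p a l * Rc p j + Γ p a j * Rc l p)) =
      (DR l j a + DR j l a - DR a l j) - ∑ p, 2 * Γ p l j * Rc p a := by
    intro a
    have e2 : ∑ p, 2 * Γ p l j * Rc p a = ∑ p, (Γ p l j * Rc p a + Γ p l a * Rc j p) +
        ∑ p, (Γ p j l * Rc p a + Γ p j a * Rc l p) -
        ∑ p, (Γ p a l * Rc p j + Γ p a j * Rc l p) := by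
      rw [← Finset.sum_add_distrib, ← Finset.sum_sub_distrib]
      refine Finset.sum_congr rfl fun p _ => ?_
      rw [hΓ p j l, hΓ p a l, hΓ p a j, hRc p j]
      ring
    rw [e2]; ring
  simp only [e1]
  have e3 : ∑ a, (I * Rc * I) k a * Bv a = ∑ a, I k a * ∑ p, 2 * Γ p l j * Rc p a := by
    have e4 : ∑ a, (I * Rc * I) k a * Bv a = ∑ c, (I * Rc) k c * (2 * Γ c l j) := by
      simp only [hB, Matrix.mul_apply (M := I * Rc), Finset.sum_mul, Finset.mul_sum]
      rw [Finset.sum_comm]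
      refine Finset.sum_congr rfl fun c _ => Finset.sum_congr rfl fun a _ => ?_
      ring
    rw [e4]
    simp only [Matrix.mul_apply, Finset.sum_mul, Finset.mul_sum]
    rw [Finset.sum_comm]
    refine Finset.sum_congr rfl fun a _ => Finset.sum_congr rfl fun p _ => ?_
    rw [hRc a p]
    ring
  rw [Finset.sum_add_distrib]
  have e5 : ∑ a, 2 * (I * Rc * I) k a * Bv a = 2 * ∑ a, (I * Rc * I) k a * Bv a := by
    rw [Finset.mul_sum]
    exact Finset.sum_congr rfl fun a _ => by ring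
  rw [e5, e3, mul_add]
  simp only [mul_sub, Finset.sum_sub_distrib]
  have e6 : ∑ a, I k a * ((-2) * DR l j a + (-2) * DR j l a) =
      (-2) * ∑ a, I k a * (DR l j a + DR j l a) := by
    rw [Finset.mul_sum]
    exact Finset.sum_congr rfl fun a _ => by ring
  have e7 : ∑ a, I k a * ((-2) * DR a l j) = (-2) * ∑ a, I k a * DR a l j := by
    rw [Finset.mul_sum]
    exact Finset.sum_congr rfl fun a _ => by ring
  rw [e6, e7]
  ring

/-! ## TARGET D (variation of the Christoffel symbols under Ricci flow).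
Proof: write `Gam (G τ) k l j x = (1/2) ∑ a, (G τ x)⁻¹ k a * (∂_l G_{ja} + ∂_j G_{la} - ∂_a G_{lj})`; interchange the time derivative with the
space derivative `pd` (joint smoothness), `∂_t (∂_l G_{ja}) = -2 ∂_l Ric_{ja}`, `∂_t G⁻¹ = 2 G⁻¹ Ric G⁻¹`; then complete the partial
derivatives of `Ric` to covariant ones `cd2` with the symmetry of `Gam` in the lower indices and the symmetry of `Ric` (which may be
deduced from the flow equation and the symmetry of `G`). -/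
theorem gam_dot {n : ℕ} {G : ℝ → Eu n → Mt n} {t0 : ℝ} {x0 : Eu n} (h : LocFlow G t0 x0)
    (k l j : Fin n) :
    HasDerivAt (fun τ => Gam (G τ) k l j x0)
      (-∑ a, (G t0 x0)⁻¹ k a * (cd2 (G t0) (fun y => Ric (G t0) y) x0 l j a
        + cd2 (G t0) (fun y => Ric (G t0) y) x0 j l a - cd2 (G t0) (fun y => Ric (G t0) y) x0 a l j)) t0 := by
  classical
  have htx : Tendsto (fun y : Eu n => (t0, y)) (𝓝 x0) (𝓝 (t0, x0)) :=
    (by fun_prop : Continuous (fun y : Eu n => (t0, y))).tendsto x0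
  have htt : Tendsto (fun τ : ℝ => (τ, x0)) (𝓝 t0) (𝓝 (t0, x0)) :=
    (by fun_prop : Continuous (fun τ : ℝ => (τ, x0))).tendsto t0
  have hsmooth : ∀ i j, ∀ᶠ p : ℝ × Eu n in 𝓝 (t0, x0),
      ContDiffAt ℝ ∞ (fun q : ℝ × Eu n => G q.1 q.2 i j) p := fun i j =>
    h.smooth.mono fun p hp => hp i j
  have hsym : ∀ᶠ y in 𝓝 x0, (G t0 y).IsSymm := htx.eventually h.symm
  have hflow : ∀ i j, ∀ᶠ y in 𝓝 x0,
      HasDerivAt (fun τ => G τ y i j) (-2 * Ric (G t0) y i j) t0 := fun i j =>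
    (htx.eventually h.flow).mono fun y hy => hy i j
  have hpos : ∀ᶠ τ in 𝓝 t0, (G τ x0).det ≠ 0 :=
    (htt.eventually h.pos).mono fun τ hτ => hτ.det_pos.ne'
  have hpdR : ∀ l i j, HasDerivAt (fun τ => pd l (fun y => G τ y i j) x0)
      ((-2) * pd l (fun y => Ric (G t0) y i j) x0) t0 := by
    intro l i j
    have h1 := rfd_mixed (F := fun q : ℝ × Eu n => G q.1 q.2 i j) (hsmooth i j) (hflow i j) l
    have h2 : pd l (fun y => -2 * Ric (G t0) y i j) x0 =
        (-2) * pd l (fun y => Ric (G t0) y i j) x0 := by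
      unfold pd
      have h3 : (fun y => -2 * Ric (G t0) y i j) = (-2 : ℝ) • fun y => Ric (G t0) y i j := by
        funext y; simp
      rw [h3, fderiv_const_smul_field]
      simp
    rw [← h2]
    exact h1
  have hcd : ∀ i j, ContDiffAt ℝ 1 (fun τ => G τ x0 i j) t0 := by
    intro i j
    have h1 : ContDiffAt ℝ 1 (fun q : ℝ × Eu n => G q.1 q.2 i j) (t0, x0) :=
      ((hsmooth i j).self_of_nhds).of_le (by exact_mod_cast (le_top : (1 : ℕ∞) ≤ ⊤))
    exact h1.comp t0 (contDiffAt_id.prodMk contDiffAt_const)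
  have hinv := rfd_inv_deriv (A := fun τ => G τ x0) (A' := Matrix.of fun i j => -2 * Ric (G t0) x0 i j)
    hcd (fun i j => (hflow i j).self_of_nhds) hpos
  have hinv' : ∀ a b, HasDerivAt (fun τ => (G τ x0)⁻¹ a b)
      (2 * ((G t0 x0)⁻¹ * Ric (G t0) x0 * (G t0 x0)⁻¹) a b) t0 := by
    intro a b
    have h1 := hinv a b
    have h2 : (Matrix.of fun i j => -2 * Ric (G t0) x0 i j) = (-2 : ℝ) • Ric (G t0) x0 := by
      ext i j; simp
    rw [h2] at h1
    have h3 : (-((G t0 x0)⁻¹ * ((-2 : ℝ) • Ric (G t0) x0) * (G t0 x0)⁻¹)) a b =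
        2 * ((G t0 x0)⁻¹ * Ric (G t0) x0 * (G t0 x0)⁻¹) a b := by
      simp
    rw [← h3]
    exact h1
  have hRsym : ∀ i j, Ric (G t0) x0 i j = Ric (G t0) x0 j i := by
    intro i j
    have h1 := (hflow i j).self_of_nhds
    have h2 := (hflow j i).self_of_nhds
    have h3 : (fun τ => G τ x0 i j) =ᶠ[𝓝 t0] fun τ => G τ x0 j i :=
      (htt.eventually h.symm).mono fun τ hτ => (hτ.apply j i)
    have h4 := (h2.congr_of_eventuallyEq h3).unique h1
    linarith
  have hmain : HasDerivAt (fun τ => Gam (G τ) k l j x0)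
      (1 / 2 * ∑ a, ((2 * ((G t0 x0)⁻¹ * Ric (G t0) x0 * (G t0 x0)⁻¹) k a) *
        (pd l (fun y => G t0 y j a) x0 + pd j (fun y => G t0 y l a) x0
          - pd a (fun y => G t0 y l j) x0) +
        (G t0 x0)⁻¹ k a * ((-2) * pd l (fun y => Ric (G t0) y j a) x0
          + (-2) * pd j (fun y => Ric (G t0) y l a) x0
          - (-2) * pd a (fun y => Ric (G t0) y l j) x0))) t0 := by
    unfold Gam
    refine HasDerivAt.const_mul _ (HasDerivAt.fun_sum fun a _ => ?_)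
    exact (hinv' k a).mul (((hpdR l j a).add (hpdR j l a)).sub (hpdR a l j))
  refine hmain.congr_deriv ?_
  have halg := rfd_alg ((G t0 x0)⁻¹) (Ric (G t0) x0) hRsym
    (fun a b c => Gam (G t0) a b c x0) (fun a b c => N2.gam_sym hsym a b c)
    (fun a => pd l (fun y => G t0 y j a) x0 + pd j (fun y => G t0 y l a) x0
          - pd a (fun y => G t0 y l j) x0)
    (fun a b c => pd a (fun y => Ric (G t0) y b c) x0) k l j (fun c => by
      unfold Gam
      ring)
  rw [halg]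
  rfl

end Pool.Agent.Helper696_RF
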