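import Mathlib
import Pool.Agent.Helper696_RF.Defs
import Pool.Agent.Helper696_RF.Loc
import Pool.Agent.Helper696_RF.A
import Pool.Agent.Helper696_RF.B
import Pool.Agent.Helper696_RF.C
import Pool.Agent.Helper696_RF.D

/-!
Needs on disk: `Pool/Agent/Helper696_RF/Defs.lean` (origin/main), `Pool/Agent/H858R2/Defs.lean` and the directory
`Pool/Agent/QTot` (starting files). Useful lemmas are in `Pool.Agent.QTot.N2` (already imported through Defs): `pd_congr`,
`pd_add'`, `pd_mul'`, `pd_sum'`, `pd_comp'`, `pd_smooth`, `pd_symm`, `inv_smooth`, `gam_smooth`, `gam_sym`, `gam_pull'`,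
`rm_pull`, `ric_pull`, `Ric_eq`.
-/

set_option autoImplicit false
open scoped ContDiff Manifold Topology Matrix
open Set Filter

namespace Pool.Agent.Helper696_RF

open Pool.Agent.QTot Pool.Agent.H858R2

namespace EvAux

open Pool.Agent.QTot.N2 (pd_congr pd_add' pd_mul' pd_sum' pd_smooth pd_symm det_cont)

theorem pd_neg' {n : ℕ} {i : Fin n} {f : Eu n → ℝ} {x : Eu n} :
    pd i (fun y => -f y) x = -pd i f x := by
  unfold pd
  rw [fderiv_fun_neg]
  rfl

theorem pd_sub' {n : ℕ} {i : Fin n} {f g : Eu n → ℝ} {x : Eu n} (hf : DifferentiableAt ℝ f x)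
    (hg : DifferentiableAt ℝ g x) : pd i (fun y => f y - g y) x = pd i f x - pd i g x := by
  unfold pd
  rw [fderiv_fun_sub hf hg]
  rfl

theorem pd_const' {n : ℕ} {i : Fin n} {x : Eu n} (c : ℝ) :
    pd i (fun _ => c) x = 0 := by
  unfold pd
  simp

theorem pd_cmul' {n : ℕ} {i : Fin n} {f : Eu n → ℝ} {x : Eu n} (c : ℝ)
    (hf : DifferentiableAt ℝ f x) : pd i (fun y => c * f y) x = c * pd i f x := by
  rw [pd_mul' (differentiableAt_const c) hf, pd_const']
  ring

theorem inf_diff {E : Type*} [NormedAddCommGroup E] [NormedSpace ℝ E] {f : E → ℝ} {x : E}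
    (hf : ContDiffAt ℝ ∞ f x) : DifferentiableAt ℝ f x := hf.differentiableAt (by simp)

theorem pd_inf {n : ℕ} {i : Fin n} {f : Eu n → ℝ} {x : Eu n}
    (hf : ContDiffAt ℝ ∞ f x) : ContDiffAt ℝ ∞ (pd i f) x := by
  rw [contDiffAt_infty] at hf ⊢
  intro k
  exact pd_smooth (hf (k + 1))

/-- smoothness of the inverse entries, general domain -/
theorem inv_inf {n : ℕ} {E : Type*} [NormedAddCommGroup E] [NormedSpace ℝ E]
    {G : E → Mt n} {x : E} {k : WithTop ℕ∞}
    (hG : ∀ i j, ContDiffAt ℝ k (fun y => G y i j) x) (hd : (G x).det ≠ 0) (a b : Fin n) :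
    ContDiffAt ℝ k (fun y => (G y)⁻¹ a b) x := by
  classical
  have hdet : ∀ M : E → Mt n, (∀ i j, ContDiffAt ℝ k (fun y => M y i j) x) →
      ContDiffAt ℝ k (fun y => (M y).det) x := by
    intro M hM
    simp only [Matrix.det_apply]
    refine ContDiffAt.sum fun σ _ => ?_
    refine ContDiffAt.const_smul _ ?_
    exact contDiffAt_prod fun i _ => hM _ _
  have hadj : ContDiffAt ℝ k (fun y => (G y).adjugate a b) x := by
    simp only [Matrix.adjugate_apply]
    apply hdet
    intro i j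
    by_cases h : i = b
    · subst h
      simp only [Matrix.updateRow_self]
      exact contDiffAt_const
    · simp only [Matrix.updateRow_ne h]
      exact hG i j
  have : (fun y => (G y)⁻¹ a b) = fun y => ((G y).det)⁻¹ * (G y).adjugate a b := by
    funext y
    rw [Matrix.inv_def, Ring.inverse_eq_inv']
    rfl
  rw [this]
  exact ((hdet G hG).inv hd).mul hadj

section one
variable {n : ℕ} {G : Eu n → Mt n} {x : Eu n}

theorem gam_inf (hG : ∀ i j, ContDiffAt ℝ ∞ (fun y => G y i j) x) (hd : (G x).det ≠ 0)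
    (a b c : Fin n) : ContDiffAt ℝ ∞ (Gam G a b c) x := by
  unfold Gam
  refine contDiffAt_const.mul (ContDiffAt.sum fun l _ => ?_)
  refine (inv_inf hG hd a l).mul ?_
  exact ((pd_inf (hG _ _)).add (pd_inf (hG _ _))).sub (pd_inf (hG _ _))

theorem rm_inf (hG : ∀ i j, ContDiffAt ℝ ∞ (fun y => G y i j) x) (hd : (G x).det ≠ 0)
    (a b c d : Fin n) : ContDiffAt ℝ ∞ (N2.Rm G a b c d) x := by
  unfold N2.Rm
  refine ((pd_inf (gam_inf hG hd _ _ _)).sub (pd_inf (gam_inf hG hd _ _ _))).add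
    (ContDiffAt.sum fun e _ => ?_)
  exact ((gam_inf hG hd _ _ _).mul (gam_inf hG hd _ _ _)).sub
    ((gam_inf hG hd _ _ _).mul (gam_inf hG hd _ _ _))

theorem rc_inf (hG : ∀ i j, ContDiffAt ℝ ∞ (fun y => G y i j) x) (hd : (G x).det ≠ 0)
    (i j k l : Fin n) : ContDiffAt ℝ ∞ (fun y => Rc G y i j k l) x := by
  unfold Rc R4
  exact ContDiffAt.sum fun a _ => (hG _ _).mul (rm_inf hG hd _ _ _ _)

theorem ric_inf (hG : ∀ i j, ContDiffAt ℝ ∞ (fun y => G y i j) x) (hd : (G x).det ≠ 0)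
    (i j : Fin n) : ContDiffAt ℝ ∞ (fun y => Ric G y i j) x := by
  simp only [N2.Ric_eq]
  exact ContDiffAt.sum fun a _ => rm_inf hG hd _ _ _ _

theorem cd4_inf (hG : ∀ i j, ContDiffAt ℝ ∞ (fun y => G y i j) x) (hd : (G x).det ≠ 0)
    {T : Eu n → T4 n} (hT : ∀ i j k l, ContDiffAt ℝ ∞ (fun y => T y i j k l) x)
    (m i j k l : Fin n) : ContDiffAt ℝ ∞ (fun y => cd4 G T y m i j k l) x := by
  unfold cd4
  refine (pd_inf (hT _ _ _ _)).sub (ContDiffAt.sum fun p _ => ?_)
  exact ((((gam_inf hG hd _ _ _).mul (hT _ _ _ _)).add ((gam_inf hG hd _ _ _).mul (hT _ _ _ _))).add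
    ((gam_inf hG hd _ _ _).mul (hT _ _ _ _))).add ((gam_inf hG hd _ _ _).mul (hT _ _ _ _))

theorem cd2_inf (hG : ∀ i j, ContDiffAt ℝ ∞ (fun y => G y i j) x) (hd : (G x).det ≠ 0)
    {T : Eu n → Mt n} (hT : ∀ i j, ContDiffAt ℝ ∞ (fun y => T y i j) x)
    (m i j : Fin n) : ContDiffAt ℝ ∞ (fun y => cd2 G T y m i j) x := by
  unfold cd2
  refine (pd_inf (hT _ _)).sub (ContDiffAt.sum fun p _ => ?_)
  exact ((gam_inf hG hd _ _ _).mul (hT _ _)).add ((gam_inf hG hd _ _ _).mul (hT _ _))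

/-- first derivatives of the inverse at the centre -/
theorem inv_pd (hG : ∀ i j, ContDiffAt ℝ ∞ (fun y => G y i j) x) (h1 : G x = 1)
    (hd : ∀ m i j, pd m (fun y => G y i j) x = 0) (m a b : Fin n) :
    pd m (fun y => (G y)⁻¹ a b) x = 0 := by
  have hdx : (G x).det ≠ 0 := by rw [h1]; simp
  have hne : ∀ᶠ y in 𝓝 x, (G y).det ≠ 0 :=
    (det_cont (fun i j => (hG i j).continuousAt)).eventually_ne hdx
  have e : (fun y => ∑ c, (G y)⁻¹ a c * G y c b) =ᶠ[𝓝 x] fun _ => (1 : Mt n) a b := by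
    filter_upwards [hne] with y hy
    have := congrFun (congrFun (Matrix.nonsing_inv_mul (G y) (isUnit_iff_ne_zero.2 hy)) a) b
    rw [Matrix.mul_apply] at this
    exact this
  have hi : ∀ a b, DifferentiableAt ℝ (fun y => (G y)⁻¹ a b) x := fun a b =>
    inf_diff (inv_inf hG hdx a b)
  have hg : ∀ a b, DifferentiableAt ℝ (fun y => G y a b) x := fun a b => inf_diff (hG a b)
  have h2 := pd_congr (i := m) e
  rw [pd_const', pd_sum' _ (fun c _ => (hi a c).fun_mul (hg c b))] at h2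
  simp only [pd_mul' (hi _ _) (hg _ _), hd, mul_zero, add_zero, h1, Matrix.one_apply, mul_ite,
    mul_one] at h2
  simpa using h2

/-- Christoffel symbols at the centre -/
theorem gam_zero (hd : ∀ m i j, pd m (fun y => G y i j) x = 0) (a b c : Fin n) :
    Gam G a b c x = 0 := by
  simp [Gam, hd]

/-- first derivatives of the Christoffel symbols at the centre -/
theorem gam_one (hG : ∀ i j, ContDiffAt ℝ ∞ (fun y => G y i j) x) (h1 : G x = 1)
    (hd : ∀ m i j, pd m (fun y => G y i j) x = 0) (m a i j : Fin n) :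
    pd m (Gam G a i j) x = (pd m (pd i (fun y => G y j a)) x + pd m (pd j (fun y => G y i a)) x
      - pd m (pd a (fun y => G y i j)) x) / 2 := by
  have hdx : (G x).det ≠ 0 := by rw [h1]; simp
  have hi : ∀ a b, DifferentiableAt ℝ (fun y => (G y)⁻¹ a b) x := fun a b =>
    inf_diff (inv_inf hG hdx a b)
  have hp : ∀ i a b, DifferentiableAt ℝ (fun y => pd i (fun z => G z a b) y) x := fun i a b =>
    inf_diff (pd_inf (hG a b))
  have hD : ∀ l, DifferentiableAt ℝ (fun y => pd i (fun z => G z j l) y + pd j (fun z => G z i l) y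
      - pd l (fun z => G z i j) y) x := fun l => ((hp _ _ _).fun_add (hp _ _ _)).fun_sub (hp _ _ _)
  have e : Gam G a i j = fun y => 1 / 2 * ∑ l, (G y)⁻¹ a l * (pd i (fun z => G z j l) y
      + pd j (fun z => G z i l) y - pd l (fun z => G z i j) y) := rfl
  rw [e, pd_cmul' _ (DifferentiableAt.fun_sum fun l _ => (hi a l).fun_mul (hD l)),
    pd_sum' _ (fun l _ => (hi a l).fun_mul (hD l))]
  simp only [pd_mul' (hi _ _) (hD _), inv_pd hG h1 hd, zero_mul, zero_add, h1, inv_one,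
    Matrix.one_apply, ite_mul, one_mul, Finset.sum_ite_eq, Finset.mem_univ, if_true]
  rw [pd_sub' ((hp _ _ _).fun_add (hp _ _ _)) (hp _ _ _), pd_add' (hp _ _ _) (hp _ _ _)]
  ring

/-- curvature at the centre -/
theorem rc_zero (h1 : G x = 1)
    (hd : ∀ m i j, pd m (fun y => G y i j) x = 0) (i j k l : Fin n) :
    Rc G x i j k l = pd i (Gam G k l j) x - pd j (Gam G k l i) x := by
  simp [Rc, R4, h1, Matrix.one_apply, N2.Rm, gam_zero hd]

/-- the derivative of the covariant derivative at the centre -/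
theorem cd4_pd (hG : ∀ i j, ContDiffAt ℝ ∞ (fun y => G y i j) x) (h1 : G x = 1)
    (hd : ∀ m i j, pd m (fun y => G y i j) x = 0)
    {T : Eu n → T4 n} (hT : ∀ i j k l, ContDiffAt ℝ ∞ (fun y => T y i j k l) x)
    (q m i j k l : Fin n) : pd q (fun y => cd4 G T y m i j k l) x =
      pd q (pd m (fun y => T y i j k l)) x - ∑ p, (pd q (Gam G p m i) x * T x p j k l
        + pd q (Gam G p m j) x * T x i p k l + pd q (Gam G p m k) x * T x i j p l
        + pd q (Gam G p m l) x * T x i j k p) := by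
  have hdx : (G x).det ≠ 0 := by rw [h1]; simp
  have hg : ∀ a b c, DifferentiableAt ℝ (Gam G a b c) x := fun a b c => inf_diff (gam_inf hG hdx a b c)
  have ht : ∀ i j k l, DifferentiableAt ℝ (fun y => T y i j k l) x := fun i j k l =>
    inf_diff (hT i j k l)
  have hp : DifferentiableAt ℝ (fun z => pd m (fun y => T y i j k l) z) x :=
    inf_diff (pd_inf (hT i j k l))
  have hm : ∀ a b c i j k l, DifferentiableAt ℝ (fun y => Gam G a b c y * T y i j k l) x :=
    fun a b c i j k l => (hg a b c).mul (ht i j k l)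
  have e : (fun y => cd4 G T y m i j k l) = fun y => pd m (fun y => T y i j k l) y -
      ∑ p, (Gam G p m i y * T y p j k l
    + Gam G p m j y * T y i p k l + Gam G p m k y * T y i j p l + Gam G p m l y * T y i j k p) := rfl
  rw [e, pd_sub' hp (DifferentiableAt.fun_sum fun p _ =>
    (((hm _ _ _ _ _ _ _).fun_add (hm _ _ _ _ _ _ _)).fun_add (hm _ _ _ _ _ _ _)).fun_add (hm _ _ _ _ _ _ _)),
    pd_sum' _ (fun p _ =>
    (((hm _ _ _ _ _ _ _).fun_add (hm _ _ _ _ _ _ _)).fun_add (hm _ _ _ _ _ _ _)).fun_add (hm _ _ _ _ _ _ _))]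
  congr 1
  refine Finset.sum_congr rfl fun p _ => ?_
  rw [pd_add' (((hm _ _ _ _ _ _ _).fun_add (hm _ _ _ _ _ _ _)).fun_add (hm _ _ _ _ _ _ _)) (hm _ _ _ _ _ _ _),
    pd_add' ((hm _ _ _ _ _ _ _).fun_add (hm _ _ _ _ _ _ _)) (hm _ _ _ _ _ _ _),
    pd_add' (hm _ _ _ _ _ _ _) (hm _ _ _ _ _ _ _)]
  simp only [pd_mul' (hg _ _ _) (ht _ _ _ _), gam_zero hd, zero_mul, add_zero]

theorem pd2_congr {n : ℕ} {i j : Fin n} {f g : Eu n → ℝ} {x : Eu n} (h : f =ᶠ[𝓝 x] g) :
    pd i (pd j f) x = pd i (pd j g) x := by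
  refine pd_congr ?_
  filter_upwards [h.eventually_nhds] with y hy
  exact pd_congr hy

theorem pd2_neg {n : ℕ} {i j : Fin n} {f : Eu n → ℝ} {x : Eu n} :
    pd i (pd j (fun y => -f y)) x = -pd i (pd j f) x := by
  have : pd j (fun y => -f y) = fun y => -pd j f y := by
    funext y
    exact pd_neg'
  rw [this, pd_neg']

/-- second derivative of a product with a factor with vanishing first derivative -/
theorem pd2_mul {n : ℕ} {m : Fin n} {f g : Eu n → ℝ} {x : Eu n} (hf : ContDiffAt ℝ ∞ f x)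
    (hg : ContDiffAt ℝ ∞ g x) (h0 : pd m g x = 0) :
    pd m (pd m (fun y => f y * g y)) x = pd m (pd m f) x * g x + f x * pd m (pd m g) x := by
  have ev : ∀ {f : Eu n → ℝ}, ContDiffAt ℝ ∞ f x → ∀ᶠ y in 𝓝 x, DifferentiableAt ℝ f y := by
    intro f hf
    have h1 : ContDiffAt ℝ 1 f x := hf.of_le (by exact_mod_cast le_top)
    filter_upwards [h1.eventually (by simp)] with y hy
    exact hy.differentiableAt (by simp)
  have e : pd m (fun y => f y * g y) =ᶠ[𝓝 x] fun y => pd m f y * g y + f y * pd m g y := by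
    filter_upwards [ev hf, ev hg] with y h1 h2
    exact pd_mul' h1 h2
  have a1 := inf_diff hf
  have a2 := inf_diff hg
  have a3 := inf_diff (pd_inf (i := m) hf)
  have a4 := inf_diff (pd_inf (i := m) hg)
  rw [pd_congr e, pd_add' (a3.fun_mul a2) (a1.fun_mul a4), pd_mul' a3 a2, pd_mul' a1 a4, h0]
  ring

end one


section joint
variable {n : ℕ}

/-- partial derivative in the space variable as a directional derivative -/
theorem pd_joint {f : ℝ × Eu n → ℝ} {p : ℝ × Eu n} (hf : DifferentiableAt ℝ f p) (i : Fin n) :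
    pd i (fun y => f (p.1, y)) p.2 = fderiv ℝ f p (0, Pi.single i 1) := by
  have h2 : HasFDerivAt (fun y : Eu n => ((p.1, y) : ℝ × Eu n))
      ((0 : Eu n →L[ℝ] ℝ).prod (ContinuousLinearMap.id ℝ (Eu n))) p.2 :=
    (hasFDerivAt_const p.1 p.2).prodMk (hasFDerivAt_id p.2)
  have h : HasFDerivAt (fun y => f (p.1, y))
      ((fderiv ℝ f p).comp ((0 : Eu n →L[ℝ] ℝ).prod (ContinuousLinearMap.id ℝ (Eu n)))) p.2 :=
    HasFDerivAt.comp p.2 (g := f) (f := fun y : Eu n => ((p.1, y) : ℝ × Eu n)) hf.hasFDerivAt h2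
  unfold pd
  rw [h.fderiv]
  simp

theorem dt_joint {f : ℝ × Eu n → ℝ} {p : ℝ × Eu n} (hf : DifferentiableAt ℝ f p) :
    HasDerivAt (fun t => f (t, p.2)) (fderiv ℝ f p (1, 0)) p.1 := by
  have h2 : HasDerivAt (fun t : ℝ => ((t, p.2) : ℝ × Eu n)) (1, 0) p.1 :=
    (hasDerivAt_id p.1).prodMk (hasDerivAt_const p.1 p.2)
  exact HasFDerivAt.comp_hasDerivAt p.1 (f := fun t : ℝ => ((t, p.2) : ℝ × Eu n)) hf.hasFDerivAt h2

theorem ev_diff {E : Type*} [NormedAddCommGroup E] [NormedSpace ℝ E] {f : E → ℝ} {x : E}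
    (hf : ContDiffAt ℝ ∞ f x) : ∀ᶠ y in 𝓝 x, DifferentiableAt ℝ f y := by
  have h1 : ContDiffAt ℝ 1 f x := hf.of_le (by exact_mod_cast le_top)
  filter_upwards [h1.eventually (by simp)] with y hy
  exact hy.differentiableAt (by simp)

theorem pdJ_inf {f : ℝ × Eu n → ℝ} {p : ℝ × Eu n} (hf : ContDiffAt ℝ ∞ f p) (i : Fin n) :
    ContDiffAt ℝ ∞ (fun q : ℝ × Eu n => pd i (fun y => f (q.1, y)) q.2) p := by
  have e : (fun q : ℝ × Eu n => pd i (fun y => f (q.1, y)) q.2) =ᶠ[𝓝 p]
      fun q => fderiv ℝ f q (0, Pi.single i 1) := by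
    filter_upwards [ev_diff hf] with q hq
    exact pd_joint hq i
  refine ContDiffAt.congr_of_eventuallyEq ?_ e
  exact (hf.fderiv_right (m := ∞) (by simp)).clm_apply contDiffAt_const

theorem comm_joint {f : ℝ × Eu n → ℝ} {t0 : ℝ} {x0 : Eu n} (hf : ContDiffAt ℝ ∞ f (t0, x0))
    (i : Fin n) :
    HasDerivAt (fun t => pd i (fun y => f (t, y)) x0)
      (pd i (fun y => deriv (fun t => f (t, y)) t0) x0) t0 := by
  have hf2 : ContDiffAt ℝ 2 f (t0, x0) := by exact_mod_cast contDiffAt_infty.1 hf 2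
  have hsym : IsSymmSndFDerivAt ℝ f (t0, x0) := hf2.isSymmSndFDerivAt (by simp)
  have hfd : ContDiffAt ℝ ∞ (fderiv ℝ f) (t0, x0) := hf.fderiv_right (m := ∞) (by simp)
  have hd : DifferentiableAt ℝ (fderiv ℝ f) (t0, x0) := hfd.differentiableAt (by simp)
  have hdv : ∀ v : ℝ × Eu n, DifferentiableAt ℝ (fun q => fderiv ℝ f q v) (t0, x0) := fun v =>
    hd.clm_apply (differentiableAt_const v)
  have key : ∀ v w : ℝ × Eu n, fderiv ℝ (fun q => fderiv ℝ f q v) (t0, x0) w =
      fderiv ℝ (fderiv ℝ f) (t0, x0) w v := by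
    intro v w
    have h := (hd.hasFDerivAt).clm_apply (hasFDerivAt_const v (t0, x0))
    rw [h.fderiv]
    simp
  have hc1 : Tendsto (fun t : ℝ => ((t, x0) : ℝ × Eu n)) (𝓝 t0) (𝓝 (t0, x0)) :=
    (continuous_id.prodMk continuous_const).continuousAt
  have hc2 : Tendsto (fun y : Eu n => ((t0, y) : ℝ × Eu n)) (𝓝 x0) (𝓝 (t0, x0)) :=
    (continuous_const.prodMk continuous_id).continuousAt
  have e1 : (fun t => pd i (fun y => f (t, y)) x0) =ᶠ[𝓝 t0]
      fun t => fderiv ℝ f (t, x0) (0, Pi.single i 1) := by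
    filter_upwards [hc1.eventually (ev_diff hf)] with t ht
    exact pd_joint ht i
  have e2 : (fun y => deriv (fun t => f (t, y)) t0) =ᶠ[𝓝 x0]
      fun y => fderiv ℝ f (t0, y) (1, 0) := by
    filter_upwards [hc2.eventually (ev_diff hf)] with y hy
    exact (dt_joint hy).deriv
  have h1 := dt_joint (hdv (0, Pi.single i 1))
  have h2 := pd_joint (hdv (1, 0)) i
  rw [N2.pd_congr e2]
  simp only at h2
  rw [h2, key, hsym, ← key]
  exact h1.congr_of_eventuallyEq e1

theorem gamJ_inf {G : ℝ → Eu n → Mt n} {p : ℝ × Eu n}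
    (hG : ∀ i j, ContDiffAt ℝ ∞ (fun q : ℝ × Eu n => G q.1 q.2 i j) p)
    (hd : (G p.1 p.2).det ≠ 0) (a b c : Fin n) :
    ContDiffAt ℝ ∞ (fun q : ℝ × Eu n => Gam (G q.1) a b c q.2) p := by
  unfold Gam
  refine contDiffAt_const.mul (ContDiffAt.sum fun l _ => ?_)
  refine (inv_inf (G := fun q : ℝ × Eu n => G q.1 q.2) hG hd a l).mul ?_
  exact ((pdJ_inf (hG _ _) _).add (pdJ_inf (hG _ _) _)).sub (pdJ_inf (hG _ _) _)

end joint

/-- contraction of the Ricci identity -/
theorem ricci2 {n : ℕ} (R : T4 n) (N : Fin n → Fin n → T4 n)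
    (s2 : ∀ i j k l, R i j k l = -R i j l k)
    (hN : ∀ a b i j k l, N a b i j k l - N b a i j k l =
      -∑ p, (R a b p i * R p j k l + R a b p j * R i p k l + R a b p k * R i j p l
        + R a b p l * R i j k p)) (a b i j : Fin n) :
    ∑ p, N a b p i p j - ∑ p, N b a p i p j =
      -∑ q, (R a b q i * (∑ p, R p q p j) + R a b q j * (∑ p, R p i p q)) := by
  rw [← Finset.sum_sub_distrib]
  have e1 : ∀ p, N a b p i p j - N b a p i p j =
      -∑ q, (R a b q p * R q i p j + R a b q i * R p q p j + R a b q p * R p i q j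
        + R a b q j * R p i p q) := fun p => hN a b p i p j
  simp only [e1, Finset.sum_neg_distrib, Finset.sum_add_distrib, Finset.mul_sum]
  have e2 : ∑ p, ∑ q, R a b q p * R q i p j + ∑ p, ∑ q, R a b q p * R p i q j = 0 := by
    rw [Finset.sum_comm (f := fun p q => R a b q p * R p i q j), ← Finset.sum_add_distrib]
    refine Finset.sum_eq_zero fun p _ => ?_
    rw [← Finset.sum_add_distrib]
    refine Finset.sum_eq_zero fun q _ => ?_
    rw [s2 a b q p]
    ring
  have e3 : ∑ p, ∑ q, R a b q i * R p q p j = ∑ q, ∑ p, R a b q i * R p q p j := Finset.sum_comm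
  have e4 : ∑ p, ∑ q, R a b q j * R p i p q = ∑ q, ∑ p, R a b q j * R p i p q := Finset.sum_comm
  linarith

/-- the algebra of the evolution equation -/
theorem alg {n : ℕ} (R : T4 n) (N : Fin n → Fin n → T4 n) (Rr : Mt n) (R2 : Fin n → Fin n → Mt n)
    (s1 : ∀ i j k l, R i j k l = -R j i k l) (s2 : ∀ i j k l, R i j k l = -R i j l k)
    (s3 : ∀ i j k l, R i j k l = R k l i j)
    (s4 : ∀ i j k l, R i j k l + R j k i l + R k i j l = 0)
    (t1 : ∀ a b i j k l, N a b i j k l = -N a b j i k l)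
    (t3 : ∀ a b i j k l, N a b i j k l = N a b k l i j)
    (hb : ∀ a m i j k l, N a m i j k l + N a i j m k l + N a j m i k l = 0)
    (hN : ∀ a b i j k l, N a b i j k l - N b a i j k l =
      -∑ p, (R a b p i * R p j k l + R a b p j * R i p k l + R a b p k * R i j p l
        + R a b p l * R i j k p))
    (hr : ∀ i j, Rr i j = ∑ p, R p i p j) (hr2 : ∀ a b i j, R2 a b i j = ∑ p, N a b p i p j)
    (i j k l : Fin n) :
    (∑ a, (-2 * Rr k a) * R i j a l - (R2 i l j k + R2 i j l k - R2 i k l j)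
      + (R2 j l i k + R2 j i l k - R2 j k l i))
      + ∑ p, (Rr p i * R p j k l + Rr p j * R i p k l + Rr p k * R i j p l + Rr p l * R i j k p)
      = ∑ m, N m m i j k l + QQ R i j k l := by
  have rs : ∀ i j, Rr i j = Rr j i := by
    intro i j
    rw [hr, hr]
    exact Finset.sum_congr rfl fun p _ => s3 _ _ _ _
  have r2s : ∀ a b i j, R2 a b i j = R2 a b j i := by
    intro a b i j
    rw [hr2, hr2]
    exact Finset.sum_congr rfl fun p _ => t3 _ _ _ _ _ _
  -- contraction on the first derivative index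
  have c1 : ∀ i j k l, ∑ m, N i m m j k l = R2 i k l j - R2 i l k j := by
    intro i j k l
    rw [hr2, hr2, ← Finset.sum_sub_distrib]
    refine Finset.sum_congr rfl fun m _ => ?_
    have h1 := hb i m k l m j
    have h2 := t3 i m m j k l
    have h3 := t1 i k l m m j
    linarith
  -- commuting
  have c2 : ∀ i j k l, ∑ m, N m i m j k l = R2 i k l j - R2 i l k j + ∑ p, Rr p i * R p j k l
      - ∑ m, ∑ p, (R m i p j * R m p k l + R m i p k * R m j p l + R m i p l * R m j k p) := by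
    intro i j k l
    have e1 : ∀ m, N m i m j k l = N i m m j k l - ∑ p, (R m i p m * R p j k l
        + (R m i p j * R m p k l + R m i p k * R m j p l + R m i p l * R m j k p)) := by
      intro m
      have h1 := hN m i m j k l
      have h2 : ∑ p, (R m i p m * R p j k l
        + (R m i p j * R m p k l + R m i p k * R m j p l + R m i p l * R m j k p))
        = ∑ p, (R m i p m * R p j k l + R m i p j * R m p k l + R m i p k * R m j p l
        + R m i p l * R m j k p) := Finset.sum_congr rfl fun p _ => by ring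
      rw [h2]
      linarith
    simp only [e1, Finset.sum_sub_distrib, c1]
    have e2 : ∑ m, ∑ p, (R m i p m * R p j k l
        + (R m i p j * R m p k l + R m i p k * R m j p l + R m i p l * R m j k p)) =
        ∑ m, ∑ p, R m i p m * R p j k l + 
        ∑ m, ∑ p, (R m i p j * R m p k l + R m i p k * R m j p l + R m i p l * R m j k p) := by
      simp only [Finset.sum_add_distrib]
    have e3 : ∑ m, ∑ p, R m i p m * R p j k l = -∑ p, Rr p i * R p j k l := by
      rw [Finset.sum_comm, ← Finset.sum_neg_distrib]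
      refine Finset.sum_congr rfl fun p _ => ?_
      rw [rs p i, hr, Finset.sum_mul, ← Finset.sum_neg_distrib]
      refine Finset.sum_congr rfl fun m _ => ?_
      rw [s2 m i p m]
      ring
    rw [e2, e3]
    ring
  have c3 : ∑ m, N m m i j k l = ∑ m, N m i m j k l - ∑ m, N m j m i k l := by
    rw [← Finset.sum_sub_distrib]
    refine Finset.sum_congr rfl fun m _ => ?_
    have h1 := hb m m i j k l
    have h2 := t1 m i j m k l
    linarith
  have c4 : R2 i j l k - R2 j i l k = -∑ q, (R i j q l * Rr q k + R i j q k * Rr l q) := by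
    rw [hr2, hr2, ricci2 R N s2 hN]
    simp only [hr]
  have hQ : QQ R i j k l = 
      ∑ m, ∑ p, (R m i p j * R m p k l + R m i p k * R m j p l + R m i p l * R m j k p)
      - ∑ m, ∑ p, (R m j p i * R m p k l + R m j p k * R m i p l + R m j p l * R m i k p) := by
    simp only [QQ]
    rw [← Finset.sum_sub_distrib]
    refine Finset.sum_congr rfl fun m _ => ?_
    rw [← Finset.sum_sub_distrib]
    refine Finset.sum_congr rfl fun p _ => ?_
    have a1 : R i j m p = R m i p j - R m j p i := by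
      have h1 := s4 m i p j
      have h2 := s3 i j m p
      have h3 := s3 m j p i
      have h4 := s1 i p m j
      have h5 := s1 p m i j
      linarith
    have a2 : R k l m p = R m p k l := s3 _ _ _ _
    have a3 : R i m k p = R m i p k := by rw [s1, s2, neg_neg]
    have a4 : R j m l p = R m j p l := by rw [s1, s2, neg_neg]
    have a5 : R i m l p = R m i p l := by rw [s1, s2, neg_neg]
    have a6 : R j m k p = R m j p k := by rw [s1, s2, neg_neg]
    have a7 : R m j k p = -R m j p k := s2 _ _ _ _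
    have a8 : R m i k p = -R m i p k := s2 _ _ _ _
    rw [a1, a2, a3, a4, a5, a6, a7, a8]
    ring
  rw [c3, c2 i j k l, c2 j i k l, hQ]
  have d1 : ∑ p, Rr p j * R p i k l = -∑ p, Rr p j * R i p k l := by
    rw [← Finset.sum_neg_distrib]
    exact Finset.sum_congr rfl fun p _ => by rw [s1 p i k l]; ring
  have d2 : ∑ q, (R i j q l * Rr q k + R i j q k * Rr l q) = ∑ q, Rr q k * R i j q l
      - ∑ q, Rr q l * R i j k q := by
    rw [← Finset.sum_sub_distrib]
    exact Finset.sum_congr rfl fun q _ => by rw [s2 i j q k, rs l q]; ring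
  have d3 : ∑ a, (-2 * Rr k a) * R i j a l = -2 * ∑ q, Rr q k * R i j q l := by
    rw [Finset.mul_sum]
    exact Finset.sum_congr rfl fun q _ => by rw [rs k q]; ring
  have d4 : ∑ p, (Rr p i * R p j k l + Rr p j * R i p k l + Rr p k * R i j p l + Rr p l * R i j k p)
      = ∑ p, Rr p i * R p j k l + ∑ p, Rr p j * R i p k l + ∑ p, Rr p k * R i j p l
        + ∑ p, Rr p l * R i j k p := by
    simp only [Finset.sum_add_distrib]
  rw [d1, d3, d4]
  rw [d2] at c4
  rw [r2s i l j k, r2s j l i k]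
  linarith



section rotation
variable {n : ℕ}

/-- second derivative of a finite sum -/
theorem pd2_sum {ι : Type*} {m : Fin n} (s : Finset ι) {F : ι → Eu n → ℝ} {x : Eu n}
    (h : ∀ a ∈ s, ContDiffAt ℝ ∞ (F a) x) :
    pd m (pd m (fun y => ∑ a ∈ s, F a y)) x = ∑ a ∈ s, pd m (pd m (F a)) x := by
  have e : pd m (fun y => ∑ a ∈ s, F a y) =ᶠ[𝓝 x] fun y => ∑ a ∈ s, pd m (F a) y := by
    have : ∀ᶠ y in 𝓝 x, ∀ a ∈ s, DifferentiableAt ℝ (F a) y :=
      (Filter.eventually_all_finset s).2 fun a ha => ev_diff (h a ha)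
    filter_upwards [this] with y hy
    exact pd_sum' s hy
  rw [pd_congr e, pd_sum' s (fun a ha => inf_diff (pd_inf (h a ha)))]

/-- expansion of a contraction with four near-identity frames -/
theorem rot_delta (r u : T4 n) (H : Mt n) (i j k l : Fin n) :
    ∑ a, ∑ b, ∑ c, ∑ d, ((((u a b c d * (1 : Mt n) a i + r a b c d * H a i) * (1 : Mt n) b j
      + (r a b c d * (1 : Mt n) a i) * H b j) * (1 : Mt n) c k
      + (r a b c d * (1 : Mt n) a i * (1 : Mt n) b j) * H c k) * (1 : Mt n) d l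
      + (r a b c d * (1 : Mt n) a i * (1 : Mt n) b j * (1 : Mt n) c k) * H d l) =
      u i j k l + ∑ p, (H p i * r p j k l + H p j * r i p k l + H p k * r i j p l
        + H p l * r i j k p) := by
  simp only [Finset.sum_add_distrib, Matrix.one_apply, mul_ite, ite_mul, mul_one, mul_zero,
    zero_mul, Finset.sum_ite_eq', Finset.mem_univ, if_true, Finset.sum_const_zero,
    Finset.sum_ite_irrel]
  simp only [mul_comm (H _ _)]
  ring

end rotation

end EvAux

namespace EvAux

/-- the flow near nearby points -/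
theorem loc_near {n : ℕ} {G : ℝ → Eu n → Mt n} {t0 : ℝ} {x0 : Eu n} (h : LocFlow G t0 x0) :
    ∀ᶠ y in 𝓝 x0, LocFlow G t0 y := by
  have hc2 : Tendsto (fun y : Eu n => ((t0, y) : ℝ × Eu n)) (𝓝 x0) (𝓝 (t0, x0)) :=
    (continuous_const.prodMk continuous_id).continuousAt
  filter_upwards [hc2.eventually h.smooth.eventually_nhds, hc2.eventually h.symm.eventually_nhds,
    hc2.eventually h.pos.eventually_nhds, hc2.eventually h.flow.eventually_nhds] with y a b c d
  exact ⟨a, b, c, d⟩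

/-- the metric at the fixed time -/
theorem loc_slice {n : ℕ} {G : ℝ → Eu n → Mt n} {t0 : ℝ} {x0 : Eu n} (h : LocFlow G t0 x0) :
    (∀ i j, ContDiffAt ℝ ∞ (fun y => G t0 y i j) x0) ∧ (∀ᶠ y in 𝓝 x0, (G t0 y).IsSymm) ∧
      (G t0 x0).det ≠ 0 := by
  have hc2 : Tendsto (fun y : Eu n => ((t0, y) : ℝ × Eu n)) (𝓝 x0) (𝓝 (t0, x0)) :=
    (continuous_const.prodMk continuous_id).continuousAt
  refine ⟨fun i j => ?_, hc2.eventually h.symm, (h.pos.self_of_nhds).det_pos.ne'⟩
  have h1 := h.smooth.self_of_nhds i j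
  exact ContDiffAt.comp x0 (g := fun q : ℝ × Eu n => G q.1 q.2 i j)
    (f := fun y : Eu n => ((t0, y) : ℝ × Eu n)) h1 (contDiffAt_const.prodMk contDiffAt_id)

section centre
variable {n : ℕ} {G : ℝ → Eu n → Mt n} {t0 : ℝ} {x0 : Eu n}

/-- second covariant derivatives of the Ricci tensor -/
noncomputable def D2 (G : Eu n → Mt n) (x : Eu n) (a m : Fin n) : Mt n := fun i j =>
  pd a (fun y => cd2 G (fun z => Ric G z) y m i j) x

/-- the time derivative of the Christoffel symbols, differentiated -/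
theorem gam_dot_pd (h : LocFlow G t0 x0) (h1 : G t0 x0 = 1)
    (hd : ∀ m i j, pd m (fun y => G t0 y i j) x0 = 0) (c k l j : Fin n) :
    pd c (fun y => deriv (fun t => Gam (G t) k l j y) t0) x0 =
      -(D2 (G t0) x0 c l j k + D2 (G t0) x0 c j l k - D2 (G t0) x0 c k l j) := by
  obtain ⟨hG, hs, hdet⟩ := loc_slice h
  have e : (fun y => deriv (fun t => Gam (G t) k l j y) t0) =ᶠ[𝓝 x0] fun y =>
      -∑ a, (G t0 y)⁻¹ k a * (cd2 (G t0) (fun y => Ric (G t0) y) y l j a
        + cd2 (G t0) (fun y => Ric (G t0) y) y j l a - cd2 (G t0) (fun y => Ric (G t0) y) y a l j) := by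
    filter_upwards [loc_near h] with y hy
    exact (gam_dot hy k l j).deriv
  have hi : ∀ a b, DifferentiableAt ℝ (fun y => (G t0 y)⁻¹ a b) x0 := fun a b =>
    inf_diff (inv_inf hG hdet a b)
  have hc : ∀ m a b, DifferentiableAt ℝ (fun y => cd2 (G t0) (fun y => Ric (G t0) y) y m a b) x0 :=
    fun m a b => inf_diff (cd2_inf hG hdet (ric_inf hG hdet) m a b)
  have hD : ∀ a, DifferentiableAt ℝ (fun y => cd2 (G t0) (fun y => Ric (G t0) y) y l j a
        + cd2 (G t0) (fun y => Ric (G t0) y) y j l a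
        - cd2 (G t0) (fun y => Ric (G t0) y) y a l j) x0 :=
    fun a => ((hc _ _ _).fun_add (hc _ _ _)).fun_sub (hc _ _ _)
  rw [N2.pd_congr e, pd_neg', N2.pd_sum' _ (fun a _ => (hi k a).fun_mul (hD a))]
  simp only [N2.pd_mul' (hi _ _) (hD _), inv_pd hG h1 hd, zero_mul, zero_add, h1, inv_one,
    Matrix.one_apply, ite_mul, one_mul, Finset.sum_ite_eq, Finset.mem_univ, if_true]
  rw [pd_sub' ((hc _ _ _).fun_add (hc _ _ _)) (hc _ _ _), N2.pd_add' (hc _ _ _) (hc _ _ _)]
  rfl

/-- the time derivative of the curvature coefficients -/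
theorem rm_dot (h : LocFlow G t0 x0) (h1 : G t0 x0 = 1)
    (hd : ∀ m i j, pd m (fun y => G t0 y i j) x0 = 0) (a b c d : Fin n) :
    HasDerivAt (fun t => N2.Rm (G t) a b c d x0)
      (-(D2 (G t0) x0 c b d a + D2 (G t0) x0 c d b a - D2 (G t0) x0 c a b d)
        + (D2 (G t0) x0 d b c a + D2 (G t0) x0 d c b a - D2 (G t0) x0 d a b c)) t0 := by
  have hG : ∀ i j, ContDiffAt ℝ ∞ (fun q : ℝ × Eu n => G q.1 q.2 i j) (t0, x0) :=
    h.smooth.self_of_nhds
  have hdet : (G (t0, x0).1 (t0, x0).2).det ≠ 0 := (loc_slice h).2.2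
  have hJ : ∀ a b c, ContDiffAt ℝ ∞ (fun q : ℝ × Eu n => Gam (G q.1) a b c q.2) (t0, x0) :=
    fun a b c => gamJ_inf hG hdet a b c
  have k1 : ∀ a b c e, HasDerivAt (fun t => pd e (Gam (G t) a b c) x0)
      (pd e (fun y => deriv (fun t => Gam (G t) a b c y) t0) x0) t0 := fun a b c e =>
    comm_joint (hJ a b c) e
  have k2 : ∀ a b c, HasDerivAt (fun t => Gam (G t) a b c x0)
      (fderiv ℝ (fun q : ℝ × Eu n => Gam (G q.1) a b c q.2) (t0, x0) (1, 0)) t0 := fun a b c =>
    dt_joint (inf_diff (hJ a b c))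
  have k3 : HasDerivAt (fun t => ∑ e, (Gam (G t) a c e x0 * Gam (G t) e b d x0
      - Gam (G t) a d e x0 * Gam (G t) e b c x0)) 0 t0 := by
    have := HasDerivAt.fun_sum (u := Finset.univ) (fun (e : Fin n) _ =>
      ((k2 a c e).fun_mul (k2 e b d)).fun_sub ((k2 a d e).fun_mul (k2 e b c)))
    simpa [gam_zero hd] using this
  have := ((k1 a b d c).fun_sub (k1 a b c d)).fun_add k3
  rw [gam_dot_pd h h1 hd, gam_dot_pd h h1 hd] at this
  refine (this.congr_deriv ?_)
  ring

/-- the time derivative of the curvature tensor -/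
theorem rc_dot (h : LocFlow G t0 x0) (h1 : G t0 x0 = 1)
    (hd : ∀ m i j, pd m (fun y => G t0 y i j) x0 = 0) (i j k l : Fin n) :
    HasDerivAt (fun t => Rc (G t) x0 i j k l)
      (∑ a, (-2 * Ric (G t0) x0 k a) * Rc (G t0) x0 i j a l
        - (D2 (G t0) x0 i l j k + D2 (G t0) x0 i j l k - D2 (G t0) x0 i k l j)
        + (D2 (G t0) x0 j l i k + D2 (G t0) x0 j i l k - D2 (G t0) x0 j k l i)) t0 := by
  have hfl := h.flow.self_of_nhds
  have := HasDerivAt.fun_sum (u := Finset.univ) (fun (a : Fin n) _ =>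
    (hfl k a).fun_mul (rm_dot h h1 hd a l i j))
  have e : (fun t => Rc (G t) x0 i j k l) =
      fun t => ∑ a, G t x0 k a * N2.Rm (G t) a l i j x0 := rfl
  rw [e]
  refine this.congr_deriv ?_
  simp only [Finset.sum_add_distrib, h1, Matrix.one_apply, ite_mul, one_mul, zero_mul,
    Finset.sum_ite_eq, Finset.mem_univ, if_true]
  have e2 : ∀ a, Rc (G t0) x0 i j a l = N2.Rm (G t0) a l i j x0 := by
    intro a
    simp [Rc, R4, h1, Matrix.one_apply]
  simp only [e2]
  ring

end centre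

end EvAux

/-! ## TARGET E (evolution equation of the curvature tensor at a point where `g = 1` and `∂ g = 0`).
Write `R` for `Rc (G t0) 0`, `Γ1 m a i j = pd m (Gam (G t0) a i j) 0`, `g2 m n i j = pd m (pd n (G t0 · i j)) 0`,
`N2 n m i j k l = pd n (fun y => cd4 (G t0) (Rc (G t0)) y m i j k l) 0`,
`Ric2 n m i j = pd n (fun y => cd2 (G t0) (Ric (G t0)) y m i j) 0`. At `0` all `Gam` and all first derivatives of `G`, `G⁻¹` vanish.
Steps.
(1) `R_{ijkl} = Γ1 i k l j - Γ1 j k l i`; `Γ1 m a i j = (g2 m i j a + g2 m j i a - g2 m a i j)/2`.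
(2) `N2 n m i j k l = pd n (pd m R_{ijkl}) - ∑ p (Γ1 n p m i R_pjkl + Γ1 n p m j R_ipkl + Γ1 n p m k R_ijpl + Γ1 n p m l R_ijkp)`.
(3) Ricci identity from (1),(2): `N2 n m ijkl - N2 m n ijkl = -∑ p (R_nmpi R_pjkl + R_nmpj R_ipkl + R_nmpk R_ijpl + R_nmpl R_ijkp)`;
    in the same way `Ric2 n m i j - Ric2 m n i j = -∑ p (R_nmpi Ric_pj + R_nmpj Ric_ip)`.
(4) differentiate `bianchi2`: `N2 n m ijkl + N2 n i jmkl + N2 n j mikl = 0`; `N2 n m` has the symmetries of `rc_symm` in `ijkl`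
    (differentiate them); differentiate `trace_cd`: `Ric2 n m i j = ∑ p, N2 n m p i p j`; `Ric_ij = ∑ p, R_pipj`.
(5) `∂_t R_{ijkl} = ∑ a (-2 Ric_ka) R_ijal - (Ric2 i l j k + Ric2 i j l k - Ric2 i k l j) + (Ric2 j l i k + Ric2 j i l k - Ric2 j k l i)`:
    `Rc = ∑ a G_ka Rm_{a l i j}`, the quadratic terms in `Gam` have zero time derivative at `0`, and
    `∂_t ∂_i Γ^k_lj = ∂_i ∂_t Γ^k_lj` (joint smoothness) with `gam_dot` at nearby points (the hypothesis `LocFlow` is open).
(6) algebra: from (4) `∑ m N2 m m ijkl = -∑ m N2 m i jmkl - ∑ m N2 m j mikl`; commute with (3); use (pair symmetry and Bianchi)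
    `∑ m N2 i m j m k l = -Ric2 i k l j + Ric2 i l k j`; together with (5) this gives
    `∂_t R_{ijkl} + ∑ p (Ric_pi R_pjkl + Ric_pj R_ipkl + Ric_pk R_ijpl + Ric_pl R_ijkp) = ∑ m N2 m m ijkl + QQ(R)_{ijkl}`.
(7) the time derivative of `rot (Rc (G t) 0) (fr (G t 0))` is the left side of (6) (as `∂_t fr = Ric`), and
    `∑ m pd m (pd m (rot (Rc) (fr G)))_{ijkl} = ∑ m pd m pd m R_{ijkl} - (1/2) ∑ m p (g2 m m p i R_pjkl + ...)`. Since
    `∑ m Γ1 m p m i = (1/2) ∑ m g2 m m p i + A'_{p i}`, `A'_{p i} = (1/2) ∑ m (g2 m i m p - g2 m p m i)` antisymmetric, take `A = -A'`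
    (or its negative, as the signs require). -/
theorem evol {n : ℕ} {G : ℝ → Eu n → Mt n} {t0 : ℝ} (h : LocFlow G t0 0) (h1 : G t0 0 = 1)
    (hd : ∀ m i j, pd m (fun y => G t0 y i j) 0 = 0) :
    ∃ A : Mt n, Aᵀ = -A ∧ ∀ i j k l,
      deriv (fun t => rot (Rc (G t) 0) (fr (G t 0)) i j k l) t0 =
        ∑ m, pd m (pd m (fun y => rot (Rc (G t0) y) (fr (G t0 y)) i j k l)) 0
        + QQ (Rc (G t0) 0) i j k l
        + ∑ p, (A p i * Rc (G t0) 0 p j k l + A p j * Rc (G t0) 0 i p k l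
          + A p k * Rc (G t0) 0 i j p l + A p l * Rc (G t0) 0 i j k p) := by
  obtain ⟨hG, hs, hdet⟩ := EvAux.loc_slice h
  have hnear : ∀ᶠ y in 𝓝 (0 : Eu n), (∀ i j, ContDiffAt ℝ ∞ (fun z => G t0 z i j) y) ∧
      (∀ᶠ z in 𝓝 y, (G t0 z).IsSymm) ∧ (G t0 y).det ≠ 0 := by
    filter_upwards [EvAux.loc_near h] with y hy
    exact EvAux.loc_slice hy
  have hRs : ∀ i j k l, ContDiffAt ℝ ∞ (fun y => Rc (G t0) y i j k l) 0 := EvAux.rc_inf hG hdet
  have hRics : ∀ i j, ContDiffAt ℝ ∞ (fun y => Ric (G t0) y i j) 0 := EvAux.ric_inf hG hdet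
  set R : T4 n := Rc (G t0) 0 with hR
  set N : Fin n → Fin n → T4 n := fun a m i j k l =>
    pd a (fun y => cd4 (G t0) (Rc (G t0)) y m i j k l) 0 with hNdef
  set Rr : Mt n := Ric (G t0) 0 with hRr
  set R2 : Fin n → Fin n → Mt n := fun a m => EvAux.D2 (G t0) 0 a m with hR2
  have hsym := rc_symm hG hs hdet
  have s1 : ∀ i j k l, R i j k l = -R j i k l := fun i j k l => (hsym i j k l).1
  have s2 : ∀ i j k l, R i j k l = -R i j l k := fun i j k l => (hsym i j k l).2.1
  have s3 : ∀ i j k l, R i j k l = R k l i j := fun i j k l => (hsym i j k l).2.2.1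
  have s4 : ∀ i j k l, R i j k l + R j k i l + R k i j l = 0 := fun i j k l =>
    (hsym i j k l).2.2.2
  have hN2 : ∀ a m i j k l, N a m i j k l = pd a (pd m (fun y => Rc (G t0) y i j k l)) 0
      - ∑ p, (pd a (Gam (G t0) p m i) 0 * R p j k l
        + pd a (Gam (G t0) p m j) 0 * R i p k l + pd a (Gam (G t0) p m k) 0 * R i j p l
        + pd a (Gam (G t0) p m l) 0 * R i j k p) := fun a m i j k l =>
    EvAux.cd4_pd hG h1 hd hRs a m i j k l
  have hgs : ∀ a p i j, pd a (Gam (G t0) p i j) 0 = pd a (Gam (G t0) p j i) 0 := by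
    intro a p i j
    refine N2.pd_congr ?_
    filter_upwards [hs.eventually_nhds] with y hy
    exact N2.gam_sym hy p i j
  have t1 : ∀ a b i j k l, N a b i j k l = -N a b j i k l := by
    intro a b i j k l
    rw [hN2, hN2]
    have e : (fun y => Rc (G t0) y i j k l) =ᶠ[𝓝 0] fun y => -Rc (G t0) y j i k l := by
      filter_upwards [hnear] with y hy
      exact (rc_symm hy.1 hy.2.1 hy.2.2 i j k l).1
    rw [EvAux.pd2_congr e, EvAux.pd2_neg, neg_sub, sub_eq_add_neg, add_comm, 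
      sub_eq_add_neg, ← Finset.sum_neg_distrib]
    congr 1
    refine Finset.sum_congr rfl fun p _ => ?_
    rw [s1 p j k l, s1 i p k l, s1 i j p l, s1 i j k p]
    ring
  have t3 : ∀ a b i j k l, N a b i j k l = N a b k l i j := by
    intro a b i j k l
    rw [hN2, hN2]
    have e : (fun y => Rc (G t0) y i j k l) =ᶠ[𝓝 0] fun y => Rc (G t0) y k l i j := by
      filter_upwards [hnear] with y hy
      exact (rc_symm hy.1 hy.2.1 hy.2.2 i j k l).2.2.1
    rw [EvAux.pd2_congr e]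
    congr 1
    refine Finset.sum_congr rfl fun p _ => ?_
    rw [s3 p j k l, s3 i p k l, s3 i j p l, s3 i j k p]
    ring
  have hcd : ∀ m i j k l, DifferentiableAt ℝ (fun y => cd4 (G t0) (Rc (G t0)) y m i j k l) 0 :=
    fun m i j k l => EvAux.inf_diff (EvAux.cd4_inf hG hdet hRs m i j k l)
  have hb : ∀ a m i j k l, N a m i j k l + N a i j m k l + N a j m i k l = 0 := by
    intro a m i j k l
    have e : (fun y => cd4 (G t0) (Rc (G t0)) y m i j k l + cd4 (G t0) (Rc (G t0)) y i j m k l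
        + cd4 (G t0) (Rc (G t0)) y j m i k l) =ᶠ[𝓝 0] fun _ => 0 := by
      filter_upwards [hnear] with y hy
      exact bianchi2 hy.1 hy.2.1 hy.2.2 m i j k l
    have h2 := N2.pd_congr (i := a) e
    rwa [EvAux.pd_const', N2.pd_add' ((hcd _ _ _ _ _).fun_add (hcd _ _ _ _ _)) (hcd _ _ _ _ _),
      N2.pd_add' (hcd _ _ _ _ _) (hcd _ _ _ _ _)] at h2
  have hRG : ∀ a b p i, R a b p i = pd a (Gam (G t0) p b i) 0 - pd b (Gam (G t0) p a i) 0 := by
    intro a b p i
    rw [hR, EvAux.rc_zero h1 hd, hgs a p i b, hgs b p i a]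
  have hN : ∀ a b i j k l, N a b i j k l - N b a i j k l =
      -∑ p, (R a b p i * R p j k l + R a b p j * R i p k l + R a b p k * R i j p l
        + R a b p l * R i j k p) := by
    intro a b i j k l
    have hcm : pd a (pd b (fun y => Rc (G t0) y i j k l)) 0
        = pd b (pd a (fun y => Rc (G t0) y i j k l)) 0 :=
      N2.pd_symm (by exact_mod_cast contDiffAt_infty.1 (hRs i j k l) 2)
    rw [hN2, hN2, hcm, sub_sub_sub_cancel_left, ← Finset.sum_sub_distrib, ← Finset.sum_neg_distrib]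
    refine Finset.sum_congr rfl fun p _ => ?_
    rw [hRG a b p i, hRG a b p j, hRG a b p k, hRG a b p l]
    ring
  have hr : ∀ i j, Rr i j = ∑ p, R p i p j := by
    intro i j
    rw [hRr, N2.Ric_eq]
    refine Finset.sum_congr rfl fun p _ => ?_
    rw [s3 p i p j]
    simp [hR, Rc, R4, h1, Matrix.one_apply]
  have hr2 : ∀ a b i j, R2 a b i j = ∑ p, N a b p i p j := by
    intro a b i j
    have e : (fun y => cd2 (G t0) (fun z => Ric (G t0) z) y b i j) =ᶠ[𝓝 0]
        fun y => ∑ p, ∑ q, (G t0 y)⁻¹ p q * cd4 (G t0) (Rc (G t0)) y b p i q j := by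
      filter_upwards [hnear.eventually_nhds] with y hy
      refine (trace_cd ?_ hy.self_of_nhds.2.1 hy.self_of_nhds.2.2 b i j).symm
      filter_upwards [hy] with z hz
      exact hz.1
    have hi : ∀ a b, DifferentiableAt ℝ (fun y => (G t0 y)⁻¹ a b) 0 := fun a b =>
      EvAux.inf_diff (EvAux.inv_inf hG hdet a b)
    have e2 : R2 a b i j = pd a (fun y => cd2 (G t0) (fun z => Ric (G t0) z) y b i j) 0 := rfl
    rw [e2, N2.pd_congr e, N2.pd_sum' _ (fun p _ => DifferentiableAt.fun_sum fun q _ =>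
      (hi p q).fun_mul (hcd _ _ _ _ _))]
    refine Finset.sum_congr rfl fun p _ => ?_
    rw [N2.pd_sum' _ (fun q _ => (hi p q).fun_mul (hcd _ _ _ _ _))]
    simp only [N2.pd_mul' (hi _ _) (hcd _ _ _ _ _), EvAux.inv_pd hG h1 hd, zero_mul, zero_add, h1,
      inv_one, Matrix.one_apply, ite_mul, one_mul, Finset.sum_ite_eq, Finset.mem_univ, if_true]
    rfl
  have halg := EvAux.alg R N Rr R2 s1 s2 s3 s4 t1 t3 hb hN hr hr2
  have hfr : ∀ (M : Mt n) a b, fr M a b = 3 / 2 * (1 : Mt n) a b - 1 / 2 * M a b := by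
    intro M a b
    simp [fr]
  have hfr0 : ∀ a b, fr (G t0 0) a b = (1 : Mt n) a b := by
    intro a b
    rw [hfr, h1]
    ring
  refine ⟨Matrix.of fun p i => -(1 / 2) * ∑ m, (pd m (pd i (fun y => G t0 y m p)) 0
    - pd m (pd p (fun y => G t0 y m i)) 0), ?_, fun i j k l => ?_⟩
  · ext p i
    simp only [Matrix.transpose_apply, Matrix.neg_apply, Matrix.of_apply]
    rw [← mul_neg, ← Finset.sum_neg_distrib]
    simp only [neg_sub]
  -- the time derivative
  have hF : ∀ a b, HasDerivAt (fun t => fr (G t 0) a b) (Rr a b) t0 := by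
    intro a b
    simp only [hfr]
    have := ((h.flow.self_of_nhds a b).const_mul (1 / 2 : ℝ)).const_sub (3 / 2 * (1 : Mt n) a b)
    refine this.congr_deriv ?_
    simp only [hRr]
    ring
  have hdR := EvAux.rc_dot h h1 hd
  have hdt : deriv (fun t => rot (Rc (G t) 0) (fr (G t 0)) i j k l) t0 = ∑ m, N m m i j k l
      + QQ R i j k l := by
    rw [← halg]
    unfold rot
    have := HasDerivAt.fun_sum (u := Finset.univ) (fun (a : Fin n) _ =>
      HasDerivAt.fun_sum (u := Finset.univ) (fun (b : Fin n) _ =>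
      HasDerivAt.fun_sum (u := Finset.univ) (fun (c : Fin n) _ =>
      HasDerivAt.fun_sum (u := Finset.univ) (fun (d : Fin n) _ =>
      ((((hdR a b c d).fun_mul (hF a i)).fun_mul (hF b j)).fun_mul (hF c k)).fun_mul (hF d l)))))
    rw [this.deriv]
    simp only [hfr0]
    exact EvAux.rot_delta _ _ _ _ _ _ _
  -- the space derivatives
  have hFs : ∀ a b, ContDiffAt ℝ ∞ (fun y => fr (G t0 y) a b) 0 := by
    intro a b
    simp only [hfr]
    exact contDiffAt_const.sub (contDiffAt_const.mul (hG a b))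
  have hF1 : ∀ m a b, pd m (fun y => fr (G t0 y) a b) 0 = 0 := by
    intro m a b
    simp only [hfr]
    rw [EvAux.pd_sub' (differentiableAt_const _)
      ((EvAux.inf_diff (hG a b)).const_mul _), EvAux.pd_const',
      EvAux.pd_cmul' _ (EvAux.inf_diff (hG a b)), hd]
    ring
  have hF2 : ∀ m a b, pd m (pd m (fun y => fr (G t0 y) a b)) 0 =
      -(1 / 2) * pd m (pd m (fun y => G t0 y a b)) 0 := by
    intro m a b
    have e : pd m (fun y => fr (G t0 y) a b) =ᶠ[𝓝 0] fun y => -(1 / 2) * pd m (fun z => G t0 z a b) y := by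
      filter_upwards [EvAux.ev_diff (hG a b)] with y hy
      simp only [hfr]
      rw [EvAux.pd_sub' (differentiableAt_const _) (hy.const_mul _), EvAux.pd_const',
        EvAux.pd_cmul' _ hy]
      ring
    rw [N2.pd_congr e, EvAux.pd_cmul' _ (EvAux.inf_diff (EvAux.pd_inf (hG a b)))]
  have hsp : ∀ m, pd m (pd m (fun y => rot (Rc (G t0) y) (fr (G t0 y)) i j k l)) 0 =
      pd m (pd m (fun y => Rc (G t0) y i j k l)) 0
      + ∑ p, ((-(1 / 2) * pd m (pd m (fun y => G t0 y p i)) 0) * R p j k l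
        + (-(1 / 2) * pd m (pd m (fun y => G t0 y p j)) 0) * R i p k l
        + (-(1 / 2) * pd m (pd m (fun y => G t0 y p k)) 0) * R i j p l
        + (-(1 / 2) * pd m (pd m (fun y => G t0 y p l)) 0) * R i j k p) := by
    intro m
    have c1 : ∀ a b c d, ContDiffAt ℝ ∞ (fun y => Rc (G t0) y a b c d * fr (G t0 y) a i) 0 :=
      fun a b c d => (hRs a b c d).mul (hFs a i)
    have c2 : ∀ a b c d, ContDiffAt ℝ ∞ (fun y => Rc (G t0) y a b c d * fr (G t0 y) a i
        * fr (G t0 y) b j) 0 := fun a b c d => (c1 a b c d).mul (hFs b j)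
    have c3 : ∀ a b c d, ContDiffAt ℝ ∞ (fun y => Rc (G t0) y a b c d * fr (G t0 y) a i
        * fr (G t0 y) b j * fr (G t0 y) c k) 0 := fun a b c d => (c2 a b c d).mul (hFs c k)
    have c4 : ∀ a b c d, ContDiffAt ℝ ∞ (fun y => Rc (G t0) y a b c d * fr (G t0 y) a i
        * fr (G t0 y) b j * fr (G t0 y) c k * fr (G t0 y) d l) 0 :=
      fun a b c d => (c3 a b c d).mul (hFs d l)
    unfold rot
    rw [EvAux.pd2_sum _ (fun a _ => ContDiffAt.sum fun b _ => ContDiffAt.sum fun c _ =>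
      ContDiffAt.sum fun d _ => c4 a b c d)]
    have e1 : ∀ a, pd m (pd m (fun y => ∑ b, ∑ c, ∑ d, Rc (G t0) y a b c d * fr (G t0 y) a i
        * fr (G t0 y) b j * fr (G t0 y) c k * fr (G t0 y) d l)) 0 = ∑ b, ∑ c, ∑ d,
        pd m (pd m (fun y => Rc (G t0) y a b c d * fr (G t0 y) a i
        * fr (G t0 y) b j * fr (G t0 y) c k * fr (G t0 y) d l)) 0 := by
      intro a
      rw [EvAux.pd2_sum _ (fun b _ => ContDiffAt.sum fun c _ => ContDiffAt.sum fun d _ => c4 a b c d)]
      refine Finset.sum_congr rfl fun b _ => ?_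
      rw [EvAux.pd2_sum _ (fun c _ => ContDiffAt.sum fun d _ => c4 a b c d)]
      refine Finset.sum_congr rfl fun c _ => ?_
      rw [EvAux.pd2_sum _ (fun d _ => c4 a b c d)]
    simp only [e1]
    have e2 : ∀ a b c d, pd m (pd m (fun y => Rc (G t0) y a b c d * fr (G t0 y) a i
        * fr (G t0 y) b j * fr (G t0 y) c k * fr (G t0 y) d l)) 0 =
        ((((pd m (pd m (fun y => Rc (G t0) y a b c d)) 0 * (1 : Mt n) a i
        + R a b c d * (-(1 / 2) * pd m (pd m (fun y => G t0 y a i)) 0)) * (1 : Mt n) b j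
      + (R a b c d * (1 : Mt n) a i) * (-(1 / 2) * pd m (pd m (fun y => G t0 y b j)) 0))
        * (1 : Mt n) c k
      + (R a b c d * (1 : Mt n) a i * (1 : Mt n) b j)
        * (-(1 / 2) * pd m (pd m (fun y => G t0 y c k)) 0)) * (1 : Mt n) d l
      + (R a b c d * (1 : Mt n) a i * (1 : Mt n) b j * (1 : Mt n) c k)
        * (-(1 / 2) * pd m (pd m (fun y => G t0 y d l)) 0)) := by
      intro a b c d
      rw [EvAux.pd2_mul (c3 a b c d) (hFs d l) (hF1 m d l),
        EvAux.pd2_mul (c2 a b c d) (hFs c k) (hF1 m c k),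
        EvAux.pd2_mul (c1 a b c d) (hFs b j) (hF1 m b j),
        EvAux.pd2_mul (hRs a b c d) (hFs a i) (hF1 m a i)]
      simp only [hfr0, hF2, hR]
    simp only [e2]
    exact EvAux.rot_delta R (fun a b c d => pd m (pd m (fun y => Rc (G t0) y a b c d)) 0)
      (Matrix.of fun a b => -(1 / 2) * pd m (pd m (fun y => G t0 y a b)) 0) i j k l
  have hG1 : ∀ m p i, pd m (Gam (G t0) p m i) 0 = (pd m (pd m (fun y => G t0 y i p)) 0
      + pd m (pd i (fun y => G t0 y m p)) 0 - pd m (pd p (fun y => G t0 y m i)) 0) / 2 :=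
    fun m p i => EvAux.gam_one hG h1 hd m p m i
  have hgsy : ∀ m p i, pd m (pd m (fun y => G t0 y i p)) 0 = pd m (pd m (fun y => G t0 y p i)) 0 := by
    intro m p i
    refine EvAux.pd2_congr ?_
    filter_upwards [hs] with y hy
    exact hy.apply _ _
  have hA : ∀ (i : Fin n) (r : Fin n → ℝ), ∑ p, (Matrix.of fun p i => -(1 / 2 : ℝ) *
      ∑ m, (pd m (pd i (fun y => G t0 y m p)) 0 - pd m (pd p (fun y => G t0 y m i)) 0)) p i * r p =
      ∑ m, ∑ p, (-pd m (Gam (G t0) p m i) 0 + 1 / 2 * pd m (pd m (fun y => G t0 y p i)) 0) * r p := by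
    intro i r
    rw [Finset.sum_comm]
    refine Finset.sum_congr rfl fun p _ => ?_
    rw [← Finset.sum_mul, Matrix.of_apply, Finset.mul_sum]
    congr 1
    refine Finset.sum_congr rfl fun m _ => ?_
    rw [hG1, hgsy]
    ring
  have e3 : ∀ m, N m m i j k l = pd m (pd m (fun y => rot (Rc (G t0) y) (fr (G t0 y)) i j k l)) 0
      + ∑ p, ((-pd m (Gam (G t0) p m i) 0 + 1 / 2 * pd m (pd m (fun y => G t0 y p i)) 0) * R p j k l
      + (-pd m (Gam (G t0) p m j) 0 + 1 / 2 * pd m (pd m (fun y => G t0 y p j)) 0) * R i p k l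
      + (-pd m (Gam (G t0) p m k) 0 + 1 / 2 * pd m (pd m (fun y => G t0 y p k)) 0) * R i j p l
      + (-pd m (Gam (G t0) p m l) 0 + 1 / 2 * pd m (pd m (fun y => G t0 y p l)) 0) * R i j k p) := by
    intro m
    rw [hN2, hsp, add_assoc, ← Finset.sum_add_distrib, sub_eq_add_neg, ← Finset.sum_neg_distrib]
    congr 1
    refine Finset.sum_congr rfl fun p _ => ?_
    ring
  rw [hdt, Finset.sum_congr rfl fun m _ => e3 m]
  simp only [Finset.sum_add_distrib]
  rw [hA i (fun p => R p j k l), hA j (fun p => R i p k l), hA k (fun p => R i j p l),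
    hA l (fun p => R i j k p)]
  ring

end Pool.Agent.Helper696_RF
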