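import Mathlib
import Pool.Agent.Helper696_RF.Defs
import Pool.Agent.Helper696_RF.Loc
import Pool.Agent.QTot.C1

set_option autoImplicit false
open scoped ContDiff Manifold Topology Matrix
open Set Filter

namespace Pool.Agent.Helper696_RF

open Pool.Agent.QTot Pool.Agent.H858R2

/-! ### Auxiliary lemmas -/

/-- an orthonormal frame -/
theorem nc_frame {n : ℕ} (g : Mt n) (hg : g.PosDef) : ∃ P : Mt n, Pᵀ * g * P = 1 ∧ P.det ≠ 0 := by
  obtain ⟨B, hB⟩ : ∃ B : Mt n, g = Bᵀ * B := by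
    open scoped MatrixOrder in
    obtain ⟨B, hB⟩ := CStarAlgebra.nonneg_iff_eq_star_mul_self.mp hg.posSemidef.nonneg
    exact ⟨B, by rw [hB, Matrix.star_eq_conjTranspose, Matrix.conjTranspose_eq_transpose_of_trivial]⟩
  have hdet : B.det ≠ 0 := by
    intro h
    have := hg.det_pos
    rw [hB, Matrix.det_mul, h, mul_zero] at this
    exact lt_irrefl _ this
  have hu : IsUnit B.det := isUnit_iff_ne_zero.2 hdet
  refine ⟨B⁻¹, ?_, ?_⟩
  · rw [hB, Matrix.transpose_nonsing_inv]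
    have hu' : IsUnit Bᵀ.det := by rwa [Matrix.det_transpose]
    rw [← Matrix.mul_assoc, Matrix.nonsing_inv_mul _ hu', Matrix.one_mul,
      Matrix.mul_nonsing_inv _ hu]
  · rw [Matrix.det_nonsing_inv, Ring.inverse_eq_inv']
    exact inv_ne_zero hdet

/-- fourfold sums -/
def s4 {n : ℕ} (f : Fin n → Fin n → Fin n → Fin n → ℝ) : ℝ := ∑ a, ∑ b, ∑ c, ∑ d, f a b c d

theorem s4_eq {n : ℕ} (f : Fin n → Fin n → Fin n → Fin n → ℝ) :
    s4 f = ∑ x : Fin n × Fin n × Fin n × Fin n, f x.1 x.2.1 x.2.2.1 x.2.2.2 := by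
  unfold s4
  simp only [Fintype.sum_prod_type]

theorem s4_comm {n : ℕ} (f : Fin n → Fin n → Fin n → Fin n → Fin n → Fin n → Fin n → Fin n → ℝ) :
    s4 (fun a b c d => s4 (fun p q r s => f a b c d p q r s)) =
      s4 (fun p q r s => s4 (fun a b c d => f a b c d p q r s)) := by
  simp only [s4_eq]
  exact Finset.sum_comm

theorem s4_mul_left {n : ℕ} (x : ℝ) (f : Fin n → Fin n → Fin n → Fin n → ℝ) :
    s4 (fun a b c d => x * f a b c d) = x * s4 f := by
  simp only [s4_eq, Finset.mul_sum]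

theorem s4_mul_right {n : ℕ} (x : ℝ) (f : Fin n → Fin n → Fin n → Fin n → ℝ) :
    s4 (fun a b c d => f a b c d * x) = s4 f * x := by
  simp only [s4_eq, Finset.sum_mul]

theorem s4_prod {n : ℕ} (f g h k : Fin n → ℝ) :
    s4 (fun a b c d => f a * g b * h c * k d) = (∑ a, f a) * (∑ b, g b) * (∑ c, h c) * ∑ d, k d := by
  unfold s4
  rw [Finset.sum_mul, Finset.sum_mul, Finset.sum_mul]
  refine Finset.sum_congr rfl fun a _ => ?_
  rw [show f a * ∑ b, g b = ∑ b, f a * g b from Finset.mul_sum _ _ _, Finset.sum_mul, Finset.sum_mul]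
  refine Finset.sum_congr rfl fun b _ => ?_
  rw [show f a * g b * ∑ c, h c = ∑ c, f a * g b * h c from Finset.mul_sum _ _ _, Finset.sum_mul]
  refine Finset.sum_congr rfl fun c _ => ?_
  rw [Finset.mul_sum]

theorem rot_rot {n : ℕ} (R : T4 n) (J F : Mt n) : rot (rot R J) F = rot R (J * F) := by
  funext i j k l
  have e1 : rot (rot R J) F i j k l = s4 (fun a b c d => s4 (fun p q r s =>
      R p q r s * ((J p a * F a i) * (J q b * F b j) * (J r c * F c k) * (J s d * F d l)))) := by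
    show s4 (fun a b c d => s4 (fun p q r s => R p q r s * J p a * J q b * J r c * J s d)
      * F a i * F b j * F c k * F d l) = _
    simp only [← s4_mul_right]
    congr 1
    funext a b c d
    congr 1
    funext p q r s
    ring
  rw [e1, s4_comm]
  simp only [s4_mul_left, s4_prod]
  show _ = s4 (fun p q r s => R p q r s * (J * F) p i * (J * F) q j * (J * F) r k * (J * F) s l)
  simp only [Matrix.mul_apply]
  congr 1
  funext p q r s
  ring

theorem nc_sum5 {n : ℕ} (f : Fin n → Fin n → Fin n → Fin n → Fin n → ℝ) :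
    ∑ c, ∑ b, ∑ p, ∑ q, ∑ r, f c b p q r = ∑ q, ∑ r, ∑ b, ∑ p, ∑ c, f c b p q r := by
  have e1 : ∑ c, ∑ b, ∑ p, ∑ q, ∑ r, f c b p q r =
      ∑ x : Fin n × Fin n × Fin n, ∑ y : Fin n × Fin n, f x.1 x.2.1 x.2.2 y.1 y.2 := by
    simp only [Fintype.sum_prod_type]
  have e2 : ∑ y : Fin n × Fin n, ∑ x : Fin n × Fin n × Fin n, f x.1 x.2.1 x.2.2 y.1 y.2 =
      ∑ q, ∑ r, ∑ c, ∑ b, ∑ p, f c b p q r := by
    simp only [Fintype.sum_prod_type]
  rw [e1, Finset.sum_comm, e2]
  refine Finset.sum_congr rfl fun q _ => Finset.sum_congr rfl fun r _ => ?_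
  rw [Finset.sum_comm]
  exact Finset.sum_congr rfl fun b _ => Finset.sum_comm

/-- transformation of the curvature tensor -/
theorem rc_pull {n : ℕ} {φ : Eu n → Eu n} {z : Eu n} (hφ : ContDiffAt ℝ ∞ φ z)
    (hJ : (Jac φ z).det ≠ 0)
    {G : Eu n → Mt n} (hG : ∀ i j, ContDiffAt ℝ ∞ (fun x => G x i j) (φ z))
    (hs : ∀ᶠ x in 𝓝 (φ z), (G x).IsSymm) (hd : (G (φ z)).det ≠ 0) :
    Rc (pull φ G) z = rot (Rc G (φ z)) (Jac φ z) := by
  funext i j k l
  set J := Jac φ z with hJdef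
  have e0 : ∀ a, pull φ G z k a = ∑ c, (∑ b, J b k * G (φ z) b c) * J c a := by
    intro a
    simp only [pull, Matrix.mul_apply, Matrix.transpose_apply, hJdef]
  have e1 : Rc (pull φ G) z i j k l =
      ∑ c, (∑ b, J b k * G (φ z) b c) * ∑ a, J c a * N2.Rm (pull φ G) a l i j z := by
    show ∑ a, pull φ G z k a * N2.Rm (pull φ G) a l i j z = _
    simp only [e0, Finset.sum_mul, Finset.mul_sum]
    rw [Finset.sum_comm]
    refine Finset.sum_congr rfl fun c _ => ?_
    refine Finset.sum_congr rfl fun b _ => Finset.sum_congr rfl fun a _ => ?_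
    ring
  rw [e1]
  have e2 : ∀ c, ∑ a, J c a * N2.Rm (pull φ G) a l i j z =
      ∑ p, ∑ q, ∑ r, N2.Rm G c p q r (φ z) * J p l * J q i * J r j := fun c =>
    N2.rm_pull hφ hJ hG hs hd c l i j
  simp only [e2]
  have e3 : ∑ c, (∑ b, J b k * G (φ z) b c) *
      ∑ p, ∑ q, ∑ r, N2.Rm G c p q r (φ z) * J p l * J q i * J r j =
      ∑ c, ∑ b, ∑ p, ∑ q, ∑ r, (G (φ z) b c * N2.Rm G c p q r (φ z)) *
        (J q i * J r j * J b k * J p l) := by
    refine Finset.sum_congr rfl fun c _ => ?_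
    rw [Finset.sum_mul]
    refine Finset.sum_congr rfl fun b _ => ?_
    simp only [Finset.mul_sum]
    refine Finset.sum_congr rfl fun p _ => Finset.sum_congr rfl fun q _ =>
      Finset.sum_congr rfl fun r _ => ?_
    ring
  rw [e3, nc_sum5]
  show _ = ∑ q, ∑ r, ∑ b, ∑ p, (∑ c, G (φ z) b c * N2.Rm G c p q r (φ z))
    * J q i * J r j * J b k * J p l
  refine Finset.sum_congr rfl fun q _ => Finset.sum_congr rfl fun r _ =>
    Finset.sum_congr rfl fun b _ => Finset.sum_congr rfl fun p _ => ?_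
  rw [← Finset.sum_mul]
  ring

/-! ### The polynomial coordinates -/

/-- the quadratic map -/
noncomputable def nphi {n : ℕ} (x0 : Eu n) (P : Mt n) (C : Fin n → Fin n → Fin n → ℝ) (z : Eu n) :
    Eu n := fun a => x0 a + ∑ i, P a i * z i + ∑ i, ∑ j, (-(1 / 2) * C a i j) * (z i * z j)

theorem nphi_smooth {n : ℕ} (x0 : Eu n) (P : Mt n) (C : Fin n → Fin n → Fin n → ℝ) :
    ContDiff ℝ ∞ (nphi x0 P C) := by
  refine contDiff_pi.2 fun a => ?_
  refine (contDiff_const.add (ContDiff.sum fun i _ => contDiff_const.mul (contDiff_apply ℝ ℝ i))).add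
    (ContDiff.sum fun i _ => ContDiff.sum fun j _ =>
      contDiff_const.mul ((contDiff_apply ℝ ℝ i).mul (contDiff_apply ℝ ℝ j)))

theorem nphi_zero {n : ℕ} (x0 : Eu n) (P : Mt n) (C : Fin n → Fin n → Fin n → ℝ) :
    nphi x0 P C 0 = x0 := by
  funext a
  simp [nphi]

theorem nphi_pd {n : ℕ} (x0 : Eu n) (P : Mt n) (C : Fin n → Fin n → Fin n → ℝ)
    (hC : ∀ a i j, C a i j = C a j i) (a m : Fin n) (z : Eu n) :
    pd m (fun y => nphi x0 P C y a) z = P a m + ∑ j, (-C a m j) * z j := by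
  have h1 : C1.PD m (fun y : Eu n => x0 a + ∑ i, P a i * y i + ∑ i, ∑ j, (-(1 / 2) * C a i j) * (y i * y j)) z
      ((0 + ∑ i, (0 * z i + P a i * (if m = i then 1 else 0))) +
        ∑ i, ∑ j, (0 * (z i * z j) + (-(1 / 2) * C a i j) *
          ((if m = i then 1 else 0) * z j + z i * (if m = j then 1 else 0)))) := by
    refine C1.PD.add (C1.PD.add (C1.PD.const m _ z) (C1.PD.sum _ fun i _ => ?_))
      (C1.PD.sum _ fun i _ => C1.PD.sum _ fun j _ => ?_)
    · exact C1.PD.mul (C1.PD.const m _ z) (C1.PD.coord m i z)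
    · exact C1.PD.mul (C1.PD.const m _ z) (C1.PD.mul (C1.PD.coord m i z) (C1.PD.coord m j z))
  have h2 := h1.2
  show pd m (fun y : Eu n => x0 a + ∑ i, P a i * y i + ∑ i, ∑ j, (-(1 / 2) * C a i j) * (y i * y j)) z = _
  rw [h2]
  have e1 : ∑ i, (0 * z i + P a i * (if m = i then 1 else 0)) = P a m := by
    simp
  have e2 : ∑ i, ∑ j, (0 * (z i * z j) + (-(1 / 2) * C a i j) *
          ((if m = i then 1 else 0) * z j + z i * (if m = j then 1 else 0))) =
      ∑ i, ∑ j, (if m = i then (-(1 / 2) * C a i j) * z j else 0) +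
      ∑ i, ∑ j, (if m = j then (-(1 / 2) * C a i j) * z i else 0) := by
    rw [← Finset.sum_add_distrib]
    refine Finset.sum_congr rfl fun i _ => ?_
    rw [← Finset.sum_add_distrib]
    refine Finset.sum_congr rfl fun j _ => ?_
    split_ifs <;> ring
  have e3 : ∑ i, ∑ j, (if m = i then (-(1 / 2) * C a i j) * z j else 0) =
      ∑ j, (-(1 / 2) * C a m j) * z j := by
    rw [Finset.sum_comm]
    refine Finset.sum_congr rfl fun j _ => ?_
    simp
  have e4 : ∑ i, ∑ j, (if m = j then (-(1 / 2) * C a i j) * z i else 0) =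
      ∑ j, (-(1 / 2) * C a m j) * z j := by
    refine Finset.sum_congr rfl fun i _ => ?_
    rw [Finset.sum_ite_eq]
    simp [hC a i m]
  rw [e1, e2, e3, e4, zero_add, ← Finset.sum_add_distrib]
  congr 1
  refine Finset.sum_congr rfl fun j _ => ?_
  ring

theorem nphi_pd2 {n : ℕ} (x0 : Eu n) (P : Mt n) (C : Fin n → Fin n → Fin n → ℝ)
    (hC : ∀ a i j, C a i j = C a j i) (a l m : Fin n) (z : Eu n) :
    pd l (pd m (fun y => nphi x0 P C y a)) z = - C a m l := by
  have h0 : pd m (fun y => nphi x0 P C y a) = fun z => P a m + ∑ j, (-C a m j) * z j :=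
    funext fun z => nphi_pd x0 P C hC a m z
  rw [h0]
  have h1 : C1.PD l (fun z : Eu n => P a m + ∑ j, (-C a m j) * z j) z
      (0 + ∑ j, (0 * z j + (-C a m j) * (if l = j then 1 else 0))) :=
    C1.PD.add (C1.PD.const l _ z) (C1.PD.sum _ fun j _ =>
      C1.PD.mul (C1.PD.const l _ z) (C1.PD.coord l j z))
  rw [h1.2]
  simp

theorem nphi_jac {n : ℕ} (x0 : Eu n) (P : Mt n) (C : Fin n → Fin n → Fin n → ℝ)
    (hC : ∀ a i j, C a i j = C a j i) : Jac (nphi x0 P C) 0 = P := by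
  ext a m
  show pd m (fun y => nphi x0 P C y a) 0 = P a m
  rw [nphi_pd x0 P C hC]
  simp

/-! ### The target -/

theorem nc_posDef {n : ℕ} {g J : Mt n} (hg : g.PosDef) (hJ : J.det ≠ 0) : (Jᵀ * g * J).PosDef := by
  have hinj : Function.Injective J.mulVec :=
    Matrix.mulVec_injective_iff_isUnit.2 ((Matrix.isUnit_iff_isUnit_det _).2 (isUnit_iff_ne_zero.2 hJ))
  have h := hg.conjTranspose_mul_mul_same hinj
  rwa [Matrix.conjTranspose_eq_transpose_of_trivial] at h

theorem nc_pull_apply {n : ℕ} (φ : Eu n → Eu n) (G : Eu n → Mt n) (y : Eu n) (i j : Fin n) :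
    pull φ G y i j = ∑ c, (∑ b, Jac φ y b i * G (φ y) b c) * Jac φ y c j := by
  simp only [pull, Matrix.mul_apply, Matrix.transpose_apply]

theorem nc_jac_smooth {n : ℕ} {φ : Eu n → Eu n} (hφ : ContDiff ℝ ∞ φ) (a i : Fin n) :
    ContDiff ℝ ∞ (fun y => Jac φ y a i) := by
  have h : ContDiff ℝ ∞ (fun y => φ y a) := contDiff_pi.1 hφ a
  show ContDiff ℝ ∞ (fun y => fderiv ℝ (fun y => φ y a) y (Pi.single i 1))
  exact (h.fderiv_right (m := ∞) (by norm_cast)).clm_apply contDiff_const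

theorem norm_coord {n : ℕ} {G : ℝ → Eu n → Mt n} {t0 : ℝ} {x0 : Eu n} (h : LocFlow G t0 x0) :
    ∃ φ : Eu n → Eu n, ContDiff ℝ ∞ φ ∧ φ 0 = x0 ∧ (Jac φ 0).det ≠ 0 ∧
      LocFlow (fun t => pull φ (G t)) t0 0 ∧ pull φ (G t0) 0 = 1 ∧
      (∀ m i j, pd m (fun y => pull φ (G t0) y i j) 0 = 0) ∧
      ∀ᶠ p : ℝ × Eu n in 𝓝 (t0, 0), (Jac φ p.2).det ≠ 0 ∧ ∀ F : Mt n,
        rot (Rc (pull φ (G p.1)) p.2) F = rot (Rc (G p.1) (φ p.2)) (Jac φ p.2 * F) := by
  have hpos0 : (G t0 x0).PosDef := h.pos.self_of_nhds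
  obtain ⟨P, hP1, hPd⟩ := nc_frame _ hpos0
  -- slices at the time `p.1`
  have hslice : ∀ (t : ℝ) (y : Eu n), Tendsto (fun x : Eu n => (t, x)) (𝓝 y) (𝓝 (t, y)) :=
    fun t y => (Continuous.prodMk_right t).tendsto y
  have hsymm0 : ∀ᶠ y in 𝓝 x0, (G t0 y).IsSymm := (hslice t0 x0).eventually h.symm
  set C : Fin n → Fin n → Fin n → ℝ := fun a i j =>
    ∑ b, ∑ c, Gam (G t0) a b c x0 * P b i * P c j with hCdef
  have hC : ∀ a i j, C a i j = C a j i := by
    intro a i j
    simp only [hCdef]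
    rw [Finset.sum_comm]
    refine Finset.sum_congr rfl fun c _ => Finset.sum_congr rfl fun b _ => ?_
    rw [N2.gam_sym hsymm0 a b c]
    ring
  set φ := nphi x0 P C with hφdef
  have hφ : ContDiff ℝ ∞ φ := nphi_smooth x0 P C
  have hφ0 : φ 0 = x0 := nphi_zero x0 P C
  have hJ0 : Jac φ 0 = P := nphi_jac x0 P C hC
  -- the determinant
  have hJc : ∀ᶠ y in 𝓝 (0 : Eu n), (Jac φ y).det ≠ 0 := by
    have hc : ContinuousAt (fun y => (Jac φ y).det) (0 : Eu n) :=
      N2.det_cont fun i j => (nc_jac_smooth hφ i j).continuous.continuousAt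
    exact hc.eventually_ne (by rw [hJ0]; exact hPd)
  have hJp : ∀ᶠ p : ℝ × Eu n in 𝓝 (t0, 0), (Jac φ p.2).det ≠ 0 :=
    (continuous_snd.tendsto (t0, (0 : Eu n))).eventually hJc
  -- the map of space-time
  have hΦ : Tendsto (fun q : ℝ × Eu n => (q.1, φ q.2)) (𝓝 (t0, 0)) (𝓝 (t0, x0)) := by
    have hc : Continuous (fun q : ℝ × Eu n => (q.1, φ q.2)) :=
      continuous_fst.prodMk (hφ.continuous.comp continuous_snd)
    have := hc.tendsto (t0, (0 : Eu n))
    simp only [hφ0] at this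
    exact this
  have hΦs : ContDiff ℝ ∞ (fun q : ℝ × Eu n => (q.1, φ q.2)) :=
    contDiff_fst.prodMk (hφ.comp contDiff_snd)
  have hsm := hΦ.eventually h.smooth
  have hsy := hΦ.eventually h.symm
  have hsy2 := hΦ.eventually h.symm.eventually_nhds
  have hpo := hΦ.eventually h.pos
  have hfl := hΦ.eventually h.flow
  -- conditions for the transformation laws
  have hcond : ∀ᶠ p : ℝ × Eu n in 𝓝 (t0, 0),
      (∀ i j, ContDiffAt ℝ ∞ (fun x => G p.1 x i j) (φ p.2)) ∧
      (∀ᶠ x in 𝓝 (φ p.2), (G p.1 x).IsSymm) ∧ (G p.1 (φ p.2)).det ≠ 0 := by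
    filter_upwards [hsm, hsy2, hpo] with p h1 h2 h3
    refine ⟨fun i j => ?_, (hslice p.1 (φ p.2)).eventually h2, h3.det_pos.ne'⟩
    exact (h1 i j).comp (φ p.2) (contDiffAt_const.prodMk contDiffAt_id)
  have hcurv : ∀ᶠ p : ℝ × Eu n in 𝓝 (t0, 0), (Jac φ p.2).det ≠ 0 ∧ ∀ F : Mt n,
        rot (Rc (pull φ (G p.1)) p.2) F = rot (Rc (G p.1) (φ p.2)) (Jac φ p.2 * F) := by
    filter_upwards [hJp, hcond] with p h1 h2
    refine ⟨h1, fun F => ?_⟩
    rw [rc_pull hφ.contDiffAt h1 h2.1 h2.2.1 h2.2.2, rot_rot]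
  have hflow : LocFlow (fun t => pull φ (G t)) t0 0 := by
    refine ⟨?_, ?_, ?_, ?_⟩
    · filter_upwards [hsm] with p h1
      intro i j
      simp only [nc_pull_apply]
      refine ContDiffAt.sum fun c _ => ContDiffAt.mul (ContDiffAt.sum fun b _ =>
        ContDiffAt.mul ?_ ?_) ?_
      · exact ((nc_jac_smooth hφ b i).comp contDiff_snd).contDiffAt
      · exact (h1 b c).comp p hΦs.contDiffAt
      · exact ((nc_jac_smooth hφ c j).comp contDiff_snd).contDiffAt
    · filter_upwards [hsy] with p h1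
      show ((Jac φ p.2)ᵀ * G p.1 (φ p.2) * Jac φ p.2)ᵀ = _
      rw [Matrix.transpose_mul, Matrix.transpose_mul, Matrix.transpose_transpose, h1.eq,
        ← Matrix.mul_assoc]
      rfl
    · filter_upwards [hpo, hJp] with p h1 h2
      exact nc_posDef h1 h2
    · filter_upwards [hfl, hJp, hcond] with p h1 h2 h3
      intro i j
      simp only [nc_pull_apply]
      have e1 : Ric (pull φ (G p.1)) p.2 = (Jac φ p.2)ᵀ * Ric (G p.1) (φ p.2) * Jac φ p.2 :=
        N2.ric_pull hφ.contDiffAt h2 h3.1 h3.2.1 h3.2.2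
      have e2 : -2 * Ric (pull φ (G p.1)) p.2 i j =
          ∑ c, (∑ b, Jac φ p.2 b i * (-2 * Ric (G p.1) (φ p.2) b c)) * Jac φ p.2 c j := by
        rw [e1]
        simp only [Matrix.mul_apply, Matrix.transpose_apply, Finset.mul_sum, Finset.sum_mul]
        refine Finset.sum_congr rfl fun c _ => Finset.sum_congr rfl fun b _ => ?_
        ring
      rw [e2]
      refine HasDerivAt.fun_sum fun c _ => HasDerivAt.mul_const (HasDerivAt.fun_sum fun b _ =>
        HasDerivAt.const_mul _ ?_) _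
      exact h1 b c
  refine ⟨φ, hφ, hφ0, by rw [hJ0]; exact hPd, hflow, ?_, ?_, hcurv⟩
  · show (Jac φ 0)ᵀ * G t0 (φ 0) * Jac φ 0 = 1
    rw [hJ0, hφ0]
    exact hP1
  · have hone : pull φ (G t0) 0 = 1 := by
      show (Jac φ 0)ᵀ * G t0 (φ 0) * Jac φ 0 = 1
      rw [hJ0, hφ0]
      exact hP1
    have hc0 := hcond.self_of_nhds
    simp only [hφ0] at hc0
    -- the Christoffel symbols vanish
    have hgam : ∀ k i j, Gam (pull φ (G t0)) k i j 0 = 0 := by
      have key : ∀ i j a, ∑ k, P a k * Gam (pull φ (G t0)) k i j 0 = 0 := by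
        intro i j a
        have h1 := N2.gam_pull' (φ := φ) (x := 0) (G := G t0) (hφ.contDiffAt.of_le (by norm_cast))
          (by rw [hJ0]; exact hPd)
          (fun i j => by
            rw [hφ0]
            exact (hc0.1 i j).differentiableAt (by simp))
          (by rw [hφ0]; exact hc0.2.1) (by rw [hφ0]; exact hc0.2.2) a i j
        rw [hJ0, hφ0, nphi_pd2 x0 P C hC a i j 0, hC a j i] at h1
        rw [h1]
        simp only [hCdef]
        ring
      intro k i j
      have hu : IsUnit P.det := isUnit_iff_ne_zero.2 hPd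
      have h2 : P.mulVec (fun k => Gam (pull φ (G t0)) k i j 0) = 0 := funext fun a => key i j a
      have h3 : P⁻¹.mulVec (P.mulVec (fun k => Gam (pull φ (G t0)) k i j 0)) = 0 := by
        rw [h2, Matrix.mulVec_zero]
      rw [Matrix.mulVec_mulVec, Matrix.nonsing_inv_mul _ hu, Matrix.one_mulVec] at h3
      exact congrFun h3 k
    have hgam2 : ∀ k i j, pd i (fun y => pull φ (G t0) y j k) 0 + pd j (fun y => pull φ (G t0) y i k) 0
        - pd k (fun y => pull φ (G t0) y i j) 0 = 0 := by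
      intro k i j
      have h1 := hgam k i j
      unfold Gam at h1
      rw [hone, inv_one] at h1
      simp only [Matrix.one_apply, ite_mul, one_mul, zero_mul, Finset.sum_ite_eq, Finset.mem_univ,
        if_true] at h1
      linarith
    have hsymE : ∀ᶠ y in 𝓝 (0 : Eu n), (pull φ (G t0) y).IsSymm :=
      (hslice t0 0).eventually hflow.symm
    have hs : ∀ m i j, pd m (fun y => pull φ (G t0) y i j) 0 = pd m (fun y => pull φ (G t0) y j i) 0 :=
      fun m i j => N2.pd_congr (hsymE.mono fun y hy => hy.apply _ _)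
    intro m i j
    have h1 := hgam2 j m i
    have h2 := hgam2 i m j
    have h3 := hs m i j
    have h4 := hs i m j
    have h5 := hs j m i
    linarith

end Pool.Agent.Helper696_RF
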