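import Mathlib
import Pool.Agent.Helper696_RF.Defs
import Pool.Agent.Helper696_RF.Loc
import Pool.Agent.Helper696_RF.Ev
import Pool.Agent.Helper696_RF.F
import Pool.Agent.QTot.R2

/-!
RF-G pointwise maximum test (helper313). Extra import: the starting file `Pool.Agent.QTot.R2` (joint smoothness).
Auxiliary lemmas are prefixed `G_`; reusable: `G_rot_mul`, `G_rot_one`, `G_QQ_rot`, `G_correct` (correcting almost
orthonormal frames), `G_second` (second derivative test), `G_T_smooth` (joint smoothness of the curvature).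
-/

set_option autoImplicit false
open scoped ContDiff Manifold Topology Matrix
open Set Filter

namespace Pool.Agent.Helper696_RF


open Pool.Agent.QTot Pool.Agent.H858R2

/-! ### RF-G: algebra of `rot` and `QQ` -/

/-- index quadruples -/
abbrev G_I4 (n : ℕ) := Fin n × Fin n × Fin n × Fin n

theorem G_rot_eq {n : ℕ} (R : T4 n) (F : Mt n) (i j k l : Fin n) : rot R F i j k l =
    ∑ x : G_I4 n, R x.1 x.2.1 x.2.2.1 x.2.2.2 *
      (F x.1 i * F x.2.1 j * F x.2.2.1 k * F x.2.2.2 l) := by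
  simp only [rot, Fintype.sum_prod_type]
  refine Finset.sum_congr rfl fun a _ => Finset.sum_congr rfl fun b _ =>
    Finset.sum_congr rfl fun c _ => Finset.sum_congr rfl fun d _ => ?_
  ring

theorem G_prod4 {n : ℕ} (f g h k : Fin n → ℝ) :
    (∑ a, f a) * (∑ b, g b) * (∑ c, h c) * (∑ d, k d) =
      ∑ x : G_I4 n, f x.1 * g x.2.1 * h x.2.2.1 * k x.2.2.2 := by
  simp only [Fintype.sum_prod_type]
  simp only [← Finset.mul_sum, ← Finset.sum_mul]

theorem G_rot_mul {n : ℕ} (R : T4 n) (A B : Mt n) : rot (rot R A) B = rot R (A * B) := by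
  funext i j k l
  rw [G_rot_eq, G_rot_eq]
  calc ∑ x : G_I4 n, rot R A x.1 x.2.1 x.2.2.1 x.2.2.2 *
      (B x.1 i * B x.2.1 j * B x.2.2.1 k * B x.2.2.2 l)
      = ∑ x : G_I4 n, ∑ y : G_I4 n, R y.1 y.2.1 y.2.2.1 y.2.2.2 *
          ((A y.1 x.1 * B x.1 i) * (A y.2.1 x.2.1 * B x.2.1 j) * (A y.2.2.1 x.2.2.1 * B x.2.2.1 k) *
            (A y.2.2.2 x.2.2.2 * B x.2.2.2 l)) := by
        refine Finset.sum_congr rfl fun x _ => ?_
        rw [G_rot_eq, Finset.sum_mul]
        refine Finset.sum_congr rfl fun y _ => ?_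
        ring
    _ = _ := by
        rw [Finset.sum_comm]
        refine Finset.sum_congr rfl fun y _ => ?_
        rw [← Finset.mul_sum]
        congr 1
        simp only [Matrix.mul_apply]
        rw [G_prod4]

theorem G_rot_one {n : ℕ} (R : T4 n) : rot R 1 = R := by
  funext i j k l
  simp [rot, Matrix.one_apply]

theorem G_rot_add {n : ℕ} (R R' : T4 n) (F : Mt n) : rot (R + R') F = rot R F + rot R' F := by
  funext i j k l
  simp only [rot, Pi.add_apply, add_mul, Finset.sum_add_distrib]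

theorem G_rot_smul {n : ℕ} (c : ℝ) (R : T4 n) (F : Mt n) : rot (c • R) F = c • rot R F := by
  funext i j k l
  simp only [rot, Pi.smul_apply, smul_eq_mul, Finset.mul_sum, mul_assoc]

theorem G_sw13 {n : ℕ} (g : Fin n → Fin n → Fin n → Fin n → ℝ) :
    ∑ a, ∑ b, ∑ c, ∑ d, g a b c d = ∑ c, ∑ d, ∑ a, ∑ b, g a b c d := by
  calc _ = ∑ a, ∑ c, ∑ d, ∑ b, g a b c d := by
        refine Finset.sum_congr rfl fun a _ => ?_
        rw [Finset.sum_comm]
        refine Finset.sum_congr rfl fun c _ => ?_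
        rw [Finset.sum_comm]
    _ = ∑ c, ∑ a, ∑ d, ∑ b, g a b c d := Finset.sum_comm
    _ = _ := by
        refine Finset.sum_congr rfl fun c _ => ?_
        rw [Finset.sum_comm]

theorem G_sw24 {n : ℕ} (g : Fin n → Fin n → Fin n → Fin n → ℝ) :
    ∑ a, ∑ b, ∑ c, ∑ d, g a b c d = ∑ b, ∑ d, ∑ a, ∑ c, g a b c d := by
  calc _ = ∑ b, ∑ a, ∑ c, ∑ d, g a b c d := Finset.sum_comm
    _ = ∑ b, ∑ a, ∑ d, ∑ c, g a b c d := by
        refine Finset.sum_congr rfl fun b _ => Finset.sum_congr rfl fun a _ => ?_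
        rw [Finset.sum_comm]
    _ = _ := by
        refine Finset.sum_congr rfl fun b _ => ?_
        rw [Finset.sum_comm]

theorem G_mv {n : ℕ} {ι : Type} [Fintype ι] (g : ι → Fin n → Fin n → ℝ) :
    ∑ x, ∑ p, ∑ q, g x p q = ∑ p, ∑ q, ∑ x, g x p q := by
  rw [Finset.sum_comm]
  refine Finset.sum_congr rfl fun p _ => ?_
  rw [Finset.sum_comm]

theorem G_s6 {n : ℕ} (g : Fin n → Fin n → Fin n → Fin n → Fin n → Fin n → ℝ) :
    ∑ a, ∑ b, ∑ c, ∑ d, ∑ p, ∑ q, g a b c d p q = ∑ p, ∑ q, ∑ a, ∑ b, ∑ c, ∑ d, g a b c d p q := by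
  calc _ = ∑ a, ∑ b, ∑ c, ∑ p, ∑ q, ∑ d, g a b c d p q := by
        refine Finset.sum_congr rfl fun a _ => Finset.sum_congr rfl fun b _ =>
          Finset.sum_congr rfl fun c _ => G_mv _
    _ = ∑ a, ∑ b, ∑ p, ∑ q, ∑ c, ∑ d, g a b c d p q := by
        refine Finset.sum_congr rfl fun a _ => Finset.sum_congr rfl fun b _ => G_mv _
    _ = ∑ a, ∑ p, ∑ q, ∑ b, ∑ c, ∑ d, g a b c d p q := by
        refine Finset.sum_congr rfl fun a _ => G_mv _
    _ = _ := G_mv _

theorem G_fac1 {n : ℕ} (f g : Fin n → Fin n → ℝ) :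
    ∑ a, ∑ b, ∑ c, ∑ d, f a b * g c d = (∑ a, ∑ b, f a b) * (∑ c, ∑ d, g c d) := by
  simp only [← Finset.mul_sum, ← Finset.sum_mul]

theorem G_fac2 {n : ℕ} (f g : Fin n → Fin n → ℝ) :
    ∑ a, ∑ b, ∑ c, ∑ d, f a c * g b d = (∑ a, ∑ c, f a c) * (∑ b, ∑ d, g b d) := by
  rw [← G_fac1]
  refine Finset.sum_congr rfl fun a _ => ?_
  rw [Finset.sum_comm]

theorem G_fac3 {n : ℕ} (f g : Fin n → Fin n → ℝ) :
    ∑ a, ∑ b, ∑ c, ∑ d, f a d * g b c = (∑ a, ∑ d, f a d) * (∑ b, ∑ c, g b c) := by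
  rw [← G_fac1]
  refine Finset.sum_congr rfl fun a _ => ?_
  rw [← G_mv]

theorem G_parseval {n : ℕ} (E : Mt n) (hE : E * Eᵀ = 1) (X Y : Mt n) :
    ∑ p, ∑ q, (∑ c, ∑ d, X c d * E c p * E d q) * (∑ c, ∑ d, Y c d * E c p * E d q) =
      ∑ c, ∑ d, X c d * Y c d := by
  have h1 : ∀ (Z : Mt n) (p q : Fin n), ∑ c, ∑ d, Z c d * E c p * E d q = (Eᵀ * Z * E) p q := by
    intro Z p q
    simp only [Matrix.mul_apply, Matrix.transpose_apply, Finset.sum_mul]
    rw [Finset.sum_comm]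
    refine Finset.sum_congr rfl fun d _ => Finset.sum_congr rfl fun c _ => ?_
    ring
  have h2 : ∀ U V : Mt n, ∑ p, ∑ q, U p q * V p q = (U * Vᵀ).trace := by
    intro U V
    simp only [Matrix.trace, Matrix.diag_apply, Matrix.mul_apply, Matrix.transpose_apply]
  simp only [h1]
  rw [h2, h2]
  rw [Matrix.transpose_mul, Matrix.transpose_mul, Matrix.transpose_transpose]
  calc (Eᵀ * X * E * (Eᵀ * (Yᵀ * E))).trace = (Eᵀ * (X * (E * Eᵀ) * Yᵀ) * E).trace := by
        simp only [Matrix.mul_assoc]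
    _ = (E * (Eᵀ * (X * (E * Eᵀ) * Yᵀ))).trace := by rw [Matrix.trace_mul_comm]
    _ = ((E * Eᵀ) * (X * (E * Eᵀ) * Yᵀ)).trace := by simp only [Matrix.mul_assoc]
    _ = _ := by rw [hE, Matrix.one_mul, Matrix.mul_one]

theorem G_QQ_rot {n : ℕ} (R : T4 n) (E : Mt n) (hE : E * Eᵀ = 1) :
    QQ (rot R E) = rot (QQ R) E := by
  funext i j k l
  -- the partial contractions
  have c1 : ∀ i j p q, rot R E i j p q =
      ∑ c, ∑ d, (∑ a, ∑ b, R a b c d * E a i * E b j) * E c p * E d q := by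
    intro i j p q
    simp only [rot]
    rw [G_sw13]
    simp only [Finset.sum_mul]
  have c2 : ∀ i p k q, rot R E i p k q =
      ∑ b, ∑ d, (∑ a, ∑ c, R a b c d * E a i * E c k) * E b p * E d q := by
    intro i p k q
    simp only [rot]
    rw [G_sw24]
    simp only [Finset.sum_mul]
    refine Finset.sum_congr rfl fun b _ => Finset.sum_congr rfl fun d _ =>
      Finset.sum_congr rfl fun a _ => Finset.sum_congr rfl fun c _ => ?_
    ring1
  have e1 : ∑ p, ∑ q, rot R E i j p q * rot R E k l p q =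
      ∑ c, ∑ d, (∑ a, ∑ b, R a b c d * E a i * E b j) * (∑ a, ∑ b, R a b c d * E a k * E b l) := by
    simp only [c1]
    exact G_parseval E hE (fun c d => ∑ a, ∑ b, R a b c d * E a i * E b j)
      (fun c d => ∑ a, ∑ b, R a b c d * E a k * E b l)
  have e2 : ∀ i j k l, ∑ p, ∑ q, rot R E i p k q * rot R E j p l q =
      ∑ b, ∑ d, (∑ a, ∑ c, R a b c d * E a i * E c k) * (∑ a, ∑ c, R a b c d * E a j * E c l) := by
    intro i j k l
    simp only [c2]
    exact G_parseval E hE (fun b d => ∑ a, ∑ c, R a b c d * E a i * E c k)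
      (fun b d => ∑ a, ∑ c, R a b c d * E a j * E c l)
  have lhs : QQ (rot R E) i j k l = (∑ p, ∑ q, rot R E i j p q * rot R E k l p q) +
      2 * (∑ p, ∑ q, rot R E i p k q * rot R E j p l q) -
      2 * (∑ p, ∑ q, rot R E i p l q * rot R E j p k q) := by
    simp only [QQ, Finset.mul_sum, ← Finset.sum_add_distrib, ← Finset.sum_sub_distrib]
  have rhs : rot (QQ R) E i j k l =
      (∑ p, ∑ q, (∑ a, ∑ b, R a b p q * E a i * E b j) * (∑ c, ∑ d, R c d p q * E c k * E d l)) +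
      2 * (∑ p, ∑ q, (∑ a, ∑ c, R a p c q * E a i * E c k) * (∑ b, ∑ d, R b p d q * E b j * E d l)) -
      2 * (∑ p, ∑ q, (∑ a, ∑ d, R a p d q * E a i * E d l) *
        (∑ b, ∑ c, R b p c q * E b j * E c k)) := by
    have s1 : ∑ a, ∑ b, ∑ c, ∑ d, ∑ p, ∑ q,
        (R a b p q * E a i * E b j) * (R c d p q * E c k * E d l) =
        ∑ p, ∑ q, (∑ a, ∑ b, R a b p q * E a i * E b j) *
          (∑ c, ∑ d, R c d p q * E c k * E d l) := by
      rw [G_s6]
      refine Finset.sum_congr rfl fun p _ => Finset.sum_congr rfl fun q _ => ?_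
      exact G_fac1 (fun a b => R a b p q * E a i * E b j) (fun c d => R c d p q * E c k * E d l)
    have s2 : ∑ a, ∑ b, ∑ c, ∑ d, ∑ p, ∑ q,
        (R a p c q * E a i * E c k) * (R b p d q * E b j * E d l) =
        ∑ p, ∑ q, (∑ a, ∑ c, R a p c q * E a i * E c k) *
          (∑ b, ∑ d, R b p d q * E b j * E d l) := by
      rw [G_s6]
      refine Finset.sum_congr rfl fun p _ => Finset.sum_congr rfl fun q _ => ?_
      exact G_fac2 (fun a c => R a p c q * E a i * E c k) (fun b d => R b p d q * E b j * E d l)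
    have s3 : ∑ a, ∑ b, ∑ c, ∑ d, ∑ p, ∑ q,
        (R a p d q * E a i * E d l) * (R b p c q * E b j * E c k) =
        ∑ p, ∑ q, (∑ a, ∑ d, R a p d q * E a i * E d l) *
          (∑ b, ∑ c, R b p c q * E b j * E c k) := by
      rw [G_s6]
      refine Finset.sum_congr rfl fun p _ => Finset.sum_congr rfl fun q _ => ?_
      exact G_fac3 (fun a d => R a p d q * E a i * E d l) (fun b c => R b p c q * E b j * E c k)
    rw [← s1, ← s2, ← s3]
    simp only [rot, QQ, Finset.mul_sum, Finset.sum_mul, ← Finset.sum_add_distrib,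
      ← Finset.sum_sub_distrib]
    refine Finset.sum_congr rfl fun a _ => Finset.sum_congr rfl fun b _ =>
      Finset.sum_congr rfl fun c _ => Finset.sum_congr rfl fun d _ =>
      Finset.sum_congr rfl fun p _ => Finset.sum_congr rfl fun q _ => ?_
    ring
  rw [lhs, rhs, e1, e2, e2]

/-! ### the square root -/

theorem G_sqrt_bd {u : ℝ} (hu : |u - 1| ≤ 1 / 2) : |(√u)⁻¹ - 1| ≤ |u - 1| := by
  have h1 : 1 / 2 ≤ u := by linarith [(abs_le.1 hu).1]
  have h2 : 7 / 10 ≤ √u := by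
    apply Real.le_sqrt_of_sq_le
    norm_num
    linarith
  have h3 : √u * √u = u := Real.mul_self_sqrt (by linarith)
  have h4 : (√u)⁻¹ - 1 = (1 - u) / (√u * (1 + √u)) := by
    have : √u ≠ 0 := by positivity
    have h5 : 1 + √u ≠ 0 := by positivity
    field_simp
    nlinarith
  rw [h4, abs_div, abs_of_pos (show 0 < √u * (1 + √u) by positivity), abs_sub_comm,
    div_le_iff₀ (by positivity)]
  have h6 : 1 ≤ √u * (1 + √u) := by nlinarith
  nlinarith [abs_nonneg (u - 1)]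

/-- approximate orthonormality can be corrected -/
theorem G_correct {n : ℕ} (N : Mt n) (hN : N.IsSymm) (δ : ℝ)
    (hδ : ∀ i j, |N i j - (1 : Mt n) i j| ≤ δ) (hn : (n : ℝ) ^ 2 * δ ≤ 1 / 2) :
    ∃ S : Mt n, Sᵀ * N * S = 1 ∧ ∀ i j, |S i j - (1 : Mt n) i j| ≤ (n : ℝ) ^ 3 * δ := by
  classical
  have hH : N.IsHermitian := by
    rw [Matrix.IsHermitian, Matrix.conjTranspose_eq_transpose_of_trivial]
    exact hN
  set U : Mt n := (hH.eigenvectorUnitary : Mt n) with hU
  set lam := hH.eigenvalues with hlam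
  have hUU : Uᵀ * U = 1 := by
    have := Unitary.coe_star_mul_self hH.eigenvectorUnitary
    rw [Matrix.star_eq_conjTranspose, Matrix.conjTranspose_eq_transpose_of_trivial] at this
    exact this
  have hUU' : U * Uᵀ = 1 := by
    have := Unitary.coe_mul_star_self hH.eigenvectorUnitary
    rw [Unitary.coe_star, Matrix.star_eq_conjTranspose, Matrix.conjTranspose_eq_transpose_of_trivial] at this
    exact this
  have hspec : N = U * Matrix.diagonal lam * Uᵀ := by
    have := hH.spectral_theorem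
    rw [Unitary.conjStarAlgAut_apply] at this
    rw [Matrix.star_eq_conjTranspose, Matrix.conjTranspose_eq_transpose_of_trivial] at this
    exact this
  have hdiag : Uᵀ * N * U = Matrix.diagonal lam := by
    rw [hspec]
    calc Uᵀ * (U * Matrix.diagonal lam * Uᵀ) * U =
        (Uᵀ * U) * Matrix.diagonal lam * (Uᵀ * U) := by simp only [Matrix.mul_assoc]
      _ = _ := by rw [hUU, Matrix.one_mul, Matrix.mul_one]
  have hUle : ∀ i k, |U i k| ≤ 1 := by
    intro i k
    have h1 : (U * Uᵀ) i i = 1 := by rw [hUU', Matrix.one_apply_eq]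
    rw [Matrix.mul_apply] at h1
    have h2 : U i k * U i k ≤ ∑ j, U i j * Uᵀ j i :=
      Finset.single_le_sum (f := fun j => U i j * Uᵀ j i)
        (fun j _ => by rw [Matrix.transpose_apply]; exact mul_self_nonneg _) (Finset.mem_univ k)
    rw [h1] at h2
    rw [abs_le_one_iff_mul_self_le_one]
    exact h2
  have hlamb : ∀ k, |lam k - 1| ≤ (n : ℝ) ^ 2 * δ := by
    intro k
    have h1 : lam k - 1 = (Uᵀ * (N - 1) * U) k k := by
      rw [Matrix.mul_sub, Matrix.sub_mul, Matrix.mul_one, hdiag, hUU, Matrix.sub_apply,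
        Matrix.diagonal_apply_eq, Matrix.one_apply_eq]
    rw [h1]
    simp only [Matrix.mul_apply, Matrix.transpose_apply, Finset.sum_mul]
    refine (Finset.abs_sum_le_sum_abs _ _).trans ?_
    have h2 : ∀ j ∈ (Finset.univ : Finset (Fin n)), |∑ i, U i k * (N - 1) i j * U j k| ≤ n * δ := by
      intro j _
      refine (Finset.abs_sum_le_sum_abs _ _).trans ?_
      have h3 : ∀ i ∈ (Finset.univ : Finset (Fin n)), |U i k * (N - 1) i j * U j k| ≤ δ := by
        intro i _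
        rw [abs_mul, abs_mul, Matrix.sub_apply]
        have hd := hδ i j
        have h0 : 0 ≤ |N i j - (1 : Mt n) i j| := abs_nonneg _
        calc |U i k| * |N i j - (1 : Mt n) i j| * |U j k| ≤ 1 * δ * 1 :=
              mul_le_mul (mul_le_mul (hUle i k) hd h0 zero_le_one) (hUle j k) (abs_nonneg _)
                (by rw [one_mul]; exact h0.trans hd)
          _ = δ := by ring
      refine (Finset.sum_le_sum h3).trans ?_
      simp
    refine (Finset.sum_le_sum h2).trans (le_of_eq ?_)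
    simp
    ring
  have hlam2 : ∀ k, 0 < lam k := by
    intro k
    have := (abs_le.1 ((hlamb k).trans hn)).1
    linarith
  refine ⟨U * Matrix.diagonal (fun k => (√(lam k))⁻¹) * Uᵀ, ?_, ?_⟩
  · have ht : (U * Matrix.diagonal (fun k => (√(lam k))⁻¹) * Uᵀ)ᵀ =
        U * Matrix.diagonal (fun k => (√(lam k))⁻¹) * Uᵀ := by
      rw [Matrix.transpose_mul, Matrix.transpose_mul, Matrix.transpose_transpose,
        Matrix.diagonal_transpose, Matrix.mul_assoc]
    rw [ht]
    calc U * Matrix.diagonal (fun k => (√(lam k))⁻¹) * Uᵀ * N *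
        (U * Matrix.diagonal (fun k => (√(lam k))⁻¹) * Uᵀ)
        = U * (Matrix.diagonal (fun k => (√(lam k))⁻¹) * (Uᵀ * N * U) *
          Matrix.diagonal (fun k => (√(lam k))⁻¹)) * Uᵀ := by simp only [Matrix.mul_assoc]
      _ = U * 1 * Uᵀ := by
          rw [hdiag, Matrix.diagonal_mul_diagonal, Matrix.diagonal_mul_diagonal]
          congr 2
          rw [← Matrix.diagonal_one]
          congr 1
          funext k
          have h1 : √(lam k) ≠ 0 := (Real.sqrt_pos.2 (hlam2 k)).ne'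
          have h2 : √(lam k) * √(lam k) = lam k := Real.mul_self_sqrt (hlam2 k).le
          field_simp
          nlinarith
      _ = 1 := by rw [Matrix.mul_one, hUU']
  · intro i j
    have h1 : (U * Matrix.diagonal (fun k => (√(lam k))⁻¹) * Uᵀ) i j - (1 : Mt n) i j =
        ∑ k, U i k * ((√(lam k))⁻¹ - 1) * U j k := by
      have h2 : (1 : Mt n) i j = ∑ k, U i k * U j k := by
        rw [← hUU', Matrix.mul_apply]
        rfl
      rw [h2, Matrix.mul_apply, ← Finset.sum_sub_distrib]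
      refine Finset.sum_congr rfl fun k _ => ?_
      rw [Matrix.mul_diagonal, Matrix.transpose_apply]
      ring
    rw [h1]
    refine (Finset.abs_sum_le_sum_abs _ _).trans ?_
    have h3 : ∀ k ∈ (Finset.univ : Finset (Fin n)),
        |U i k * ((√(lam k))⁻¹ - 1) * U j k| ≤ (n : ℝ) ^ 2 * δ := by
      intro k _
      rw [abs_mul, abs_mul]
      have h4 := (G_sqrt_bd ((hlamb k).trans hn)).trans (hlamb k)
      have h0 : 0 ≤ |(√(lam k))⁻¹ - 1| := abs_nonneg _
      calc |U i k| * |(√(lam k))⁻¹ - 1| * |U j k| ≤ 1 * ((n : ℝ) ^ 2 * δ) * 1 :=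
            mul_le_mul (mul_le_mul (hUle i k) h4 h0 zero_le_one) (hUle j k) (abs_nonneg _)
              (by rw [one_mul]; exact h0.trans h4)
        _ = _ := by ring
    refine (Finset.sum_le_sum h3).trans (le_of_eq ?_)
    simp
    ring




/-! ### RF-G: smoothness -/

open Pool.Agent.QTot.R1 Pool.Agent.QTot.R2

theorem G_open {n : ℕ} {G : ℝ → Eu n → Mt n} {t0 : ℝ} {x0 : Eu n} (h : LocFlow G t0 x0) :
    ∃ Ω : Set (ℝ × Eu n), IsOpen Ω ∧ (t0, x0) ∈ Ω ∧ SmM Ω G ∧ Nd Ω G := by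
  have h1 := h.smooth.and h.pos
  obtain ⟨Ω, hΩ, hopen, hmem⟩ := eventually_nhds_iff.1 h1
  refine ⟨Ω, hopen, hmem, ?_, ?_⟩
  · intro i j p hp
    exact ((hΩ p hp).1 i j).contDiffWithinAt
  · intro p hp
    exact (hΩ p hp).2.det_pos.ne'

theorem G_Rm_smooth {n : ℕ} {Ω : Set (ℝ × Eu n)} (hΩ : IsOpen Ω) {G : ℝ → Eu n → Mt n}
    (hG : SmM Ω G) (hd : Nd Ω G) (a b c d : Fin n) : SmF Ω (fun t y => N2.Rm (G t) a b c d y) := by
  have h : SmF Ω (fun t y => pd c (Gam (G t) a b d) y - pd d (Gam (G t) a b c) y +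
      ∑ e, (Gam (G t) a c e y * Gam (G t) e b d y - Gam (G t) a d e y * Gam (G t) e b c y)) :=
    r2_add (r2_sub (smf_pd hΩ (smf_gam hΩ hG hd a b d) c) (smf_pd hΩ (smf_gam hΩ hG hd a b c) d))
      (r2_sum Finset.univ fun e => r2_sub
        (r2_mul (smf_gam hΩ hG hd a c e) (smf_gam hΩ hG hd e b d))
        (r2_mul (smf_gam hΩ hG hd a d e) (smf_gam hΩ hG hd e b c)))
  exact h

theorem G_Rc_smooth {n : ℕ} {Ω : Set (ℝ × Eu n)} (hΩ : IsOpen Ω) {G : ℝ → Eu n → Mt n}
    (hG : SmM Ω G) (hd : Nd Ω G) (i j k l : Fin n) : SmF Ω (fun t y => Rc (G t) y i j k l) := by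
  have h : SmF Ω (fun t y => ∑ a, G t y k a * N2.Rm (G t) a l i j y) :=
    r2_sum Finset.univ fun a => r2_mul (hG k a) (G_Rm_smooth hΩ hG hd a l i j)
  exact h

theorem G_fr_smooth {n : ℕ} {Ω : Set (ℝ × Eu n)} {G : ℝ → Eu n → Mt n}
    (hG : SmM Ω G) (i j : Fin n) : SmF Ω (fun t y => fr (G t y) i j) := by
  have h : SmF Ω (fun t y => (3 / 2 : ℝ) * (1 : Mt n) i j - (1 / 2 : ℝ) * G t y i j) :=
    r2_sub (r2_const Ω _) (r2_mul (r2_const Ω _) (hG i j))
  exact h

theorem G_T_smooth {n : ℕ} {Ω : Set (ℝ × Eu n)} (hΩ : IsOpen Ω) {G : ℝ → Eu n → Mt n}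
    (hG : SmM Ω G) (hd : Nd Ω G) (i j k l : Fin n) :
    SmF Ω (fun t y => rot (Rc (G t) y) (fr (G t y)) i j k l) := by
  have h : SmF Ω (fun t y => ∑ a, ∑ b, ∑ c, ∑ d, Rc (G t) y a b c d * fr (G t y) a i *
      fr (G t y) b j * fr (G t y) c k * fr (G t y) d l) :=
    r2_sum Finset.univ fun a => r2_sum Finset.univ fun b => r2_sum Finset.univ fun c =>
      r2_sum Finset.univ fun d => r2_mul (r2_mul (r2_mul (r2_mul (G_Rc_smooth hΩ hG hd a b c d)
        (G_fr_smooth hG a i)) (G_fr_smooth hG b j)) (G_fr_smooth hG c k)) (G_fr_smooth hG d l)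
  exact h

theorem G_smf_at {n : ℕ} {Ω : Set (ℝ × Eu n)} (hΩ : IsOpen Ω) {f : ℝ → Eu n → ℝ} (hf : SmF Ω f)
    {t0 : ℝ} {x0 : Eu n} (hm : (t0, x0) ∈ Ω) :
    ContDiffAt ℝ ∞ (fun p : ℝ × Eu n => f p.1 p.2) (t0, x0) :=
  (hf (t0, x0) hm).contDiffAt (hΩ.mem_nhds hm)

theorem G_smf_t {n : ℕ} {Ω : Set (ℝ × Eu n)} (hΩ : IsOpen Ω) {f : ℝ → Eu n → ℝ} (hf : SmF Ω f)
    {t0 : ℝ} {x0 : Eu n} (hm : (t0, x0) ∈ Ω) : DifferentiableAt ℝ (fun t => f t x0) t0 := by
  have h1 := (G_smf_at hΩ hf hm).differentiableAt (by simp)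
  exact DifferentiableAt.comp (g := fun p : ℝ × Eu n => f p.1 p.2) (f := fun t => (t, x0)) t0 h1
    (differentiableAt_id.prodMk (differentiableAt_const _))

theorem G_smf_x {n : ℕ} {Ω : Set (ℝ × Eu n)} (hΩ : IsOpen Ω) {f : ℝ → Eu n → ℝ} (hf : SmF Ω f)
    {t0 : ℝ} {x0 : Eu n} (hm : (t0, x0) ∈ Ω) : ContDiffAt ℝ ∞ (fun y => f t0 y) x0 := by
  have h1 := G_smf_at hΩ hf hm
  exact ContDiffAt.comp (g := fun p : ℝ × Eu n => f p.1 p.2) (f := fun y => (t0, y)) x0 h1
    (contDiffAt_const.prodMk contDiffAt_id)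

/-- the value on a frame as a function of curvature and frame -/
noncomputable def G_val {n : ℕ} (L : T4 n →ₗ[ℝ] ℝ) (p : T4 n × (Fin n → Fin n → ℝ)) : ℝ :=
  L (rot p.1 (Matrix.of p.2))

theorem G_val_smooth {n : ℕ} (L : T4 n →ₗ[ℝ] ℝ) : ContDiff ℝ ∞ (G_val L) := by
  have hL : ContDiff ℝ ∞ L := (LinearMap.toContinuousLinearMap L).contDiff
  apply hL.comp
  rw [contDiff_pi]; intro i
  rw [contDiff_pi]; intro j
  rw [contDiff_pi]; intro k
  rw [contDiff_pi]; intro l
  have hR : ∀ a b c d : Fin n, ContDiff ℝ ∞ (fun p : T4 n × (Fin n → Fin n → ℝ) => p.1 a b c d) := by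
    intro a b c d
    fun_prop
  have hF : ∀ a b : Fin n, ContDiff ℝ ∞ (fun p : T4 n × (Fin n → Fin n → ℝ) => p.2 a b) := by
    intro a b
    fun_prop
  simp only [rot, Matrix.of_apply]
  exact ContDiff.sum fun a _ => ContDiff.sum fun b _ => ContDiff.sum fun c _ =>
    ContDiff.sum fun d _ => ((((hR a b c d).mul (hF a i)).mul (hF b j)).mul (hF c k)).mul (hF d l)




/-! ### RF-G: calculus -/

theorem G_left_min {f : ℝ → ℝ} {f' t0 : ℝ} (hf : HasDerivAt f f' t0)
    (hmin : ∀ᶠ t in 𝓝 t0, t ≤ t0 → f t0 ≤ f t) : f' ≤ 0 := by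
  have h1 : Tendsto (slope f t0) (𝓝[<] t0) (𝓝 f') :=
    (hasDerivAt_iff_tendsto_slope.1 hf).mono_left (nhdsWithin_mono _ fun t ht => ne_of_lt ht)
  refine le_of_tendsto h1 ?_
  have h2 : ∀ᶠ t in 𝓝[<] t0, t ≤ t0 → f t0 ≤ f t := hmin.filter_mono nhdsWithin_le_nhds
  filter_upwards [h2, self_mem_nhdsWithin] with t ht htt
  have htt' : t < t0 := htt
  rw [slope_def_field]
  exact div_nonpos_of_nonneg_of_nonpos (by linarith [ht htt'.le]) (by linarith)

theorem G_second1 {g : ℝ → ℝ} (hc : ContinuousAt g 0) (hmin : ∀ᶠ s in 𝓝 (0 : ℝ), g 0 ≤ g s) :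
    0 ≤ deriv (deriv g) 0 := by
  by_contra hcon
  push Not at hcon
  have hloc : IsLocalMin g 0 := hmin
  have hd : deriv g 0 = 0 := hloc.deriv_eq_zero
  have h1 : IsLocalMin (fun s => -g s) 0 := by
    apply isLocalMin_of_deriv_deriv_pos
    · have e : deriv (fun s => -g s) = fun s => -deriv g s := by
        funext s
        exact deriv.fun_neg
      rw [e]
      have e2 : deriv (fun s => -deriv g s) 0 = -deriv (deriv g) 0 := deriv.fun_neg
      rw [e2]
      linarith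
    · have e2 : deriv (fun s => -g s) 0 = -deriv g 0 := deriv.fun_neg
      rw [e2, hd, neg_zero]
    · exact hc.neg
  have h2 : g =ᶠ[𝓝 0] fun _ => g 0 := by
    filter_upwards [hmin, h1] with s hs hs'
    have : -g 0 ≤ -g s := hs'
    linarith
  have h3 : deriv g =ᶠ[𝓝 0] fun _ => 0 := by
    have := h2.deriv
    filter_upwards [this] with s hs
    rw [hs]
    simp
  have h4 : deriv (deriv g) 0 = 0 := by
    rw [h3.deriv_eq]
    simp
  linarith

theorem G_line {n : ℕ} {f : Eu n → ℝ} {m : Fin n} {s : ℝ}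
    (hf : DifferentiableAt ℝ f (s • Pi.single m (1 : ℝ))) :
    HasDerivAt (fun s : ℝ => f (s • Pi.single m (1 : ℝ))) (pd m f (s • Pi.single m (1 : ℝ))) s := by
  have h1 : HasDerivAt (fun s : ℝ => s • (Pi.single m (1 : ℝ) : Eu n)) (Pi.single m (1 : ℝ)) s := by
    simpa using (hasDerivAt_id s).smul_const (Pi.single m (1 : ℝ) : Eu n)
  exact hf.hasFDerivAt.comp_hasDerivAt s h1

theorem G_second {n : ℕ} {f : Eu n → ℝ} (hf : ContDiffAt ℝ ∞ f 0)
    (hmin : ∀ᶠ y in 𝓝 (0 : Eu n), f 0 ≤ f y) (m : Fin n) : 0 ≤ pd m (pd m f) 0 := by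
  have hlin : Continuous fun s : ℝ => s • (Pi.single m (1 : ℝ) : Eu n) :=
    continuous_id.smul continuous_const
  have ht : Tendsto (fun s : ℝ => s • (Pi.single m (1 : ℝ) : Eu n)) (𝓝 0) (𝓝 0) := by
    have := hlin.tendsto 0
    rwa [zero_smul] at this
  have hev : ∀ᶠ y in 𝓝 (0 : Eu n), ContDiffAt ℝ 1 f y := by
    have h2 : ContDiffAt ℝ 1 f 0 := hf.of_le (by exact_mod_cast le_top)
    exact h2.eventually (by simp)
  have h1 : deriv (fun s : ℝ => f (s • Pi.single m (1 : ℝ))) =ᶠ[𝓝 0]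
      fun s => pd m f (s • Pi.single m (1 : ℝ)) := by
    filter_upwards [ht.eventually hev] with s hs
    exact (G_line (hs.differentiableAt (by simp))).deriv
  have hpd : ContDiffAt ℝ (1 : ℕ) (pd m f) 0 := N2.pd_smooth (contDiffAt_infty.1 hf (1 + 1))
  have h2 : deriv (deriv (fun s : ℝ => f (s • Pi.single m (1 : ℝ)))) 0 = pd m (pd m f) 0 := by
    rw [h1.deriv_eq]
    have h3 : DifferentiableAt ℝ (pd m f) ((0 : ℝ) • (Pi.single m (1 : ℝ) : Eu n)) := by
      rw [zero_smul]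
      exact hpd.differentiableAt (by simp)
    have := (G_line h3).deriv
    rwa [zero_smul] at this
  rw [← h2]
  apply G_second1
  · have : ContinuousAt f ((0 : ℝ) • (Pi.single m (1 : ℝ) : Eu n)) := by
      rw [zero_smul]
      exact hf.continuousAt
    exact this.comp (f := fun s : ℝ => s • (Pi.single m (1 : ℝ) : Eu n)) hlin.continuousAt
  · have := ht.eventually hmin
    simpa using this

theorem G_pd2_lin {n : ℕ} {ι : Type} [Fintype ι] (c : ι → ℝ) (f : ι → Eu n → ℝ)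
    (hf : ∀ x, ContDiffAt ℝ ∞ (f x) 0) (m : Fin n) :
    pd m (pd m (fun y => ∑ x, c x * f x y)) 0 = ∑ x, c x * pd m (pd m (f x)) 0 := by
  have hev : ∀ x, ∀ᶠ y in 𝓝 (0 : Eu n), ContDiffAt ℝ 1 (f x) y := by
    intro x
    have h2 : ContDiffAt ℝ 1 (f x) 0 := (hf x).of_le (by exact_mod_cast le_top)
    exact h2.eventually (by simp)
  have hev' : ∀ᶠ y in 𝓝 (0 : Eu n), ∀ x, ContDiffAt ℝ 1 (f x) y := eventually_all.2 hev
  have hc : ∀ (x : ι) (y : Eu n) (g : Eu n → ℝ), DifferentiableAt ℝ g y →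
      pd m (fun z => c x * g z) y = c x * pd m g y := by
    intro x y g hg
    rw [N2.pd_mul' (differentiableAt_const _) hg]
    simp [pd]
  have h1 : pd m (fun y => ∑ x, c x * f x y) =ᶠ[𝓝 0] fun y => ∑ x, c x * pd m (f x) y := by
    filter_upwards [hev'] with y hy
    rw [N2.pd_sum' _ (fun x _ => ((hy x).differentiableAt (by simp)).const_mul (c x))]
    refine Finset.sum_congr rfl fun x _ => ?_
    exact hc x y _ ((hy x).differentiableAt (by simp))
  rw [N2.pd_congr h1]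
  have hpd : ∀ x, DifferentiableAt ℝ (pd m (f x)) 0 := by
    intro x
    have hpd : ContDiffAt ℝ (1 : ℕ) (pd m (f x)) 0 :=
      N2.pd_smooth (contDiffAt_infty.1 (hf x) (1 + 1))
    exact hpd.differentiableAt (by simp)
  rw [N2.pd_sum' _ (fun x _ => (hpd x).const_mul (c x))]
  refine Finset.sum_congr rfl fun x _ => ?_
  exact hc x 0 _ (hpd x)

theorem G_pd2_sq {n : ℕ} (u : Eu n → ℝ) (hu : ContDiffAt ℝ ∞ u 0) (h0 : u 0 = 0) (m : Fin n)
    (h1 : pd m u 0 = 0) : pd m (pd m (fun y => u y * u y)) 0 = 0 := by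
  have hev : ∀ᶠ y in 𝓝 (0 : Eu n), ContDiffAt ℝ 1 u y := by
    have h2 : ContDiffAt ℝ 1 u 0 := hu.of_le (by exact_mod_cast le_top)
    exact h2.eventually (by simp)
  have h2 : pd m (fun y => u y * u y) =ᶠ[𝓝 0] fun y => pd m u y * u y + u y * pd m u y := by
    filter_upwards [hev] with y hy
    exact N2.pd_mul' (hy.differentiableAt (by simp)) (hy.differentiableAt (by simp))
  rw [N2.pd_congr h2]
  have hpd : ContDiffAt ℝ (1 : ℕ) (pd m u) 0 :=
      N2.pd_smooth (contDiffAt_infty.1 hu (1 + 1))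
  have hd1 := hpd.differentiableAt (by simp)
  have hd0 : DifferentiableAt ℝ u 0 := hu.differentiableAt (by simp)
  have e1 := N2.pd_add' (i := m) (f := fun y => pd m u y * u y) (g := fun y => u y * pd m u y)
    (hd1.mul hd0) (hd0.mul hd1)
  rw [e1, N2.pd_mul' hd1 hd0, N2.pd_mul' hd0 hd1, h0, h1]
  ring

/-! ### RF-G: coefficients of a linear functional -/

/-- the basis tensor -/
def G_e {n : ℕ} (x : G_I4 n) : T4 n := fun i j k l => if (i, j, k, l) = x then 1 else 0

theorem G_T4_sum {n : ℕ} (T : T4 n) :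
    T = ∑ x : G_I4 n, T x.1 x.2.1 x.2.2.1 x.2.2.2 • G_e x := by
  funext i j k l
  simp only [Finset.sum_apply, Pi.smul_apply, smul_eq_mul, G_e]
  rw [Finset.sum_eq_single (i, j, k, l)]
  · simp
  · intro x _ hx
    rw [if_neg (Ne.symm hx), mul_zero]
  · intro h
    exact absurd (Finset.mem_univ _) h

theorem G_lin_eq {n : ℕ} (Λ : T4 n →ₗ[ℝ] ℝ) (T : T4 n) :
    Λ T = ∑ x : G_I4 n, Λ (G_e x) * T x.1 x.2.1 x.2.2.1 x.2.2.2 := by
  conv_lhs => rw [G_T4_sum T]
  rw [map_sum]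
  refine Finset.sum_congr rfl fun x _ => ?_
  rw [map_smul, smul_eq_mul, mul_comm]

/-- the functional `T ↦ L (rot T E)` -/
def G_Lam {n : ℕ} (L : T4 n →ₗ[ℝ] ℝ) (E : Mt n) : T4 n →ₗ[ℝ] ℝ where
  toFun T := L (rot T E)
  map_add' T T' := by rw [G_rot_add, map_add]
  map_smul' c T := by rw [G_rot_smul, map_smul]; rfl

theorem G_Lam_apply {n : ℕ} (L : T4 n →ₗ[ℝ] ℝ) (E : Mt n) (T : T4 n) :
    G_Lam L E T = L (rot T E) := rfl

/-! ### RF-G: the lower bound on almost orthonormal frames -/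

theorem G_bd3 {n : ℕ} (A X : Mt n) (B x : ℝ) (hx0 : 0 ≤ x) (hA : ∀ i j, |A i j| ≤ B)
    (hX : ∀ i j, |X i j| ≤ x) (i j : Fin n) : |(Aᵀ * X * A) i j| ≤ (n : ℝ) ^ 2 * (B ^ 2 * x) := by
  simp only [Matrix.mul_apply, Matrix.transpose_apply, Finset.sum_mul]
  refine (Finset.abs_sum_le_sum_abs _ _).trans ?_
  have h2 : ∀ b ∈ (Finset.univ : Finset (Fin n)), |∑ a, A a i * X a b * A b j| ≤ n * (B ^ 2 * x) := by
    intro b _
    refine (Finset.abs_sum_le_sum_abs _ _).trans ?_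
    have h3 : ∀ a ∈ (Finset.univ : Finset (Fin n)), |A a i * X a b * A b j| ≤ B ^ 2 * x := by
      intro a _
      rw [abs_mul, abs_mul]
      have hB : 0 ≤ B := (abs_nonneg _).trans (hA a i)
      calc |A a i| * |X a b| * |A b j| ≤ B * x * B :=
            mul_le_mul (mul_le_mul (hA a i) (hX a b) (abs_nonneg _) hB) (hA b j) (abs_nonneg _)
              (mul_nonneg hB hx0)
        _ = B ^ 2 * x := by ring
    refine (Finset.sum_le_sum h3).trans ?_
    simp
  refine (Finset.sum_le_sum h2).trans (le_of_eq ?_)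
  simp
  ring

theorem G_entry_le {n : ℕ} (F : Fin n → Fin n → ℝ) (i j : Fin n) : |F i j| ≤ ‖F‖ :=
  (norm_le_pi_norm (F i) j).trans (norm_le_pi_norm F i)

theorem G_low {n : ℕ} {G : ℝ → Eu n → Mt n} {t0 : ℝ} (h : LocFlow G t0 0) (h1 : G t0 0 = 1)
    (L : T4 n →ₗ[ℝ] ℝ) (E : Mt n) (hE : Eᵀ * E = 1) (H : ℝ → ℝ)
    (hmin : ∀ᶠ p : ℝ × Eu n in 𝓝 (t0, 0), p.1 ≤ t0 → ∀ F : Mt n, Fᵀ * G p.1 p.2 * F = 1 →
      0 ≤ L (rot (Rc (G p.1) p.2) F) + H p.1) :
    ∃ C : ℝ, 0 ≤ C ∧ ∀ᶠ q : (ℝ × Eu n) × (Fin n → Fin n → ℝ) in 𝓝 ((t0, 0), E),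
      q.1.1 ≤ t0 → ∀ δ : ℝ, 0 ≤ δ →
        (∀ i j, |((Matrix.of q.2)ᵀ * G q.1.1 q.1.2 * Matrix.of q.2) i j - (1 : Mt n) i j| ≤ δ) →
        -(C * δ) ≤ L (rot (Rc (G q.1.1) q.1.2) (Matrix.of q.2)) + H q.1.1 := by
  classical
  obtain ⟨Ω, hΩ, hm, hG, hd⟩ := G_open h
  set R0 : T4 n := Rc (G t0) 0 with hR0
  set E0 : Fin n → Fin n → ℝ := E with hE0
  obtain ⟨K, s, hs, hK⟩ := ((G_val_smooth L).contDiffAt (x := (R0, E0))).of_le
    (show (1 : WithTop ℕ∞) ≤ ∞ by exact_mod_cast le_top) |>.exists_lipschitzOnWith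
  obtain ⟨r, hr, hrs⟩ := Metric.mem_nhds_iff.1 hs
  set B : ℝ := ‖E0‖ + 1 with hB
  have hB0 : 0 < B := by positivity
  set c : ℝ := (n : ℝ) * (B * (n : ℝ) ^ 3) with hc
  have hc0 : 0 ≤ c := by positivity
  set d0 : ℝ := min (1 / (2 * ((n : ℝ) ^ 2 + 1))) (r / (4 * (c + 1))) with hd0
  have hd00 : 0 < d0 := lt_min (by positivity) (by positivity)
  refine ⟨K * c, by positivity, ?_⟩
  -- continuity of the data
  have hRcont : ContinuousAt (fun p : ℝ × Eu n => Rc (G p.1) p.2) (t0, 0) := by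
    refine continuousAt_pi.2 fun i => continuousAt_pi.2 fun j => continuousAt_pi.2 fun k =>
      continuousAt_pi.2 fun l => ?_
    exact (G_smf_at hΩ (G_Rc_smooth hΩ hG hd i j k l) hm).continuousAt
  have hGcont : ∀ i j, ContinuousAt (fun p : ℝ × Eu n => G p.1 p.2 i j) (t0, 0) := fun i j =>
    (G_smf_at hΩ (hG i j) hm).continuousAt
  have hfst : Tendsto (fun q : (ℝ × Eu n) × (Fin n → Fin n → ℝ) => q.1) (𝓝 ((t0, 0), E0))
      (𝓝 (t0, 0)) := continuous_fst.tendsto _
  have hsnd : Tendsto (fun q : (ℝ × Eu n) × (Fin n → Fin n → ℝ) => q.2) (𝓝 ((t0, 0), E0))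
      (𝓝 E0) := continuous_snd.tendsto _
  have ev1 : ∀ᶠ q : (ℝ × Eu n) × (Fin n → Fin n → ℝ) in 𝓝 ((t0, 0), E0),
      dist (Rc (G q.1.1) q.1.2) R0 < r := by
    have h2 : ∀ᶠ p : ℝ × Eu n in 𝓝 (t0, 0), dist (Rc (G p.1) p.2) R0 < r :=
      hRcont.tendsto.eventually (Metric.ball_mem_nhds _ hr)
    exact hfst.eventually h2
  have ev2 : ∀ᶠ q : (ℝ × Eu n) × (Fin n → Fin n → ℝ) in 𝓝 ((t0, 0), E0),
      dist q.2 E0 < min (r / 2) 1 :=
    hsnd.eventually (Metric.ball_mem_nhds _ (lt_min (by positivity) one_pos))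
  have ev3 : ∀ᶠ q : (ℝ × Eu n) × (Fin n → Fin n → ℝ) in 𝓝 ((t0, 0), E0), ∀ i j,
      |((Matrix.of q.2)ᵀ * G q.1.1 q.1.2 * Matrix.of q.2) i j - (1 : Mt n) i j| < d0 := by
    refine eventually_all.2 fun i => eventually_all.2 fun j => ?_
    have hcont : ContinuousAt (fun q : (ℝ × Eu n) × (Fin n → Fin n → ℝ) =>
        ((Matrix.of q.2)ᵀ * G q.1.1 q.1.2 * Matrix.of q.2) i j - (1 : Mt n) i j) ((t0, 0), E0) := by
      simp only [Matrix.mul_apply, Matrix.transpose_apply, Matrix.of_apply]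
      refine ContinuousAt.sub ?_ continuousAt_const
      refine tendsto_finsetSum _ fun b _ => ?_
      refine Tendsto.mul ?_ ?_
      · refine tendsto_finsetSum _ fun a _ => ?_
        refine Tendsto.mul ?_ ?_
        · exact ((continuous_apply i).comp ((continuous_apply a).comp continuous_snd)).tendsto _
        · exact (hGcont a b).tendsto.comp hfst
      · exact ((continuous_apply j).comp ((continuous_apply b).comp continuous_snd)).tendsto _
    have hval : ((Matrix.of E0)ᵀ * G t0 0 * Matrix.of E0) i j - (1 : Mt n) i j = 0 := by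
      rw [h1, Matrix.mul_one]
      have : (Matrix.of E0)ᵀ * Matrix.of E0 = 1 := hE
      rw [this, sub_self]
    have h3 := hcont.abs.tendsto
    simp only [hval, abs_zero] at h3
    exact h3.eventually (gt_mem_nhds hd00)
  have ev4 : ∀ᶠ q : (ℝ × Eu n) × (Fin n → Fin n → ℝ) in 𝓝 ((t0, 0), E0),
      (G q.1.1 q.1.2).IsSymm := hfst.eventually h.symm
  have ev5 := hfst.eventually hmin
  filter_upwards [ev1, ev2, ev3, ev4, ev5] with q q1 q2 q3 q4 q5 hqt δ hδ0 hδ
  set F : Mt n := Matrix.of q.2 with hF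
  set g : Mt n := G q.1.1 q.1.2 with hg
  set N : Mt n := Fᵀ * g * F with hN
  have hNs : N.IsSymm := by
    rw [Matrix.IsSymm, hN, Matrix.transpose_mul, Matrix.transpose_mul, Matrix.transpose_transpose,
      q4.eq, Matrix.mul_assoc]
  set δ' := min δ d0 with hδ'
  have hδ'0 : 0 ≤ δ' := le_min hδ0 hd00.le
  have hb : ∀ i j, |N i j - (1 : Mt n) i j| ≤ δ' := fun i j => le_min (hδ i j) (q3 i j).le
  have hnd : (n : ℝ) ^ 2 * δ' ≤ 1 / 2 := by
    have h2 : δ' ≤ 1 / (2 * ((n : ℝ) ^ 2 + 1)) := (min_le_right _ _).trans (min_le_left _ _)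
    calc (n : ℝ) ^ 2 * δ' ≤ (n : ℝ) ^ 2 * (1 / (2 * ((n : ℝ) ^ 2 + 1))) := by gcongr
      _ ≤ 1 / 2 := by
          rw [mul_one_div, div_le_div_iff₀ (by positivity) (by positivity)]
          linarith
  obtain ⟨S, hS, hS1⟩ := G_correct N hNs δ' hb hnd
  have hFS : (F * S)ᵀ * g * (F * S) = 1 := by
    rw [← hS, hN, Matrix.transpose_mul]
    simp only [Matrix.mul_assoc]
  have hFle : ∀ i j, |F i j| ≤ B := by
    intro i j
    have h2 : ‖q.2‖ ≤ B := by
      have h3 : dist q.2 E0 < 1 := lt_of_lt_of_le q2 (min_le_right _ _)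
      rw [dist_eq_norm] at h3
      calc ‖q.2‖ = ‖E0 + (q.2 - E0)‖ := by rw [add_sub_cancel]
        _ ≤ ‖E0‖ + ‖q.2 - E0‖ := norm_add_le _ _
        _ ≤ B := by rw [hB]; linarith
    exact (G_entry_le q.2 i j).trans h2
  set FS : Fin n → Fin n → ℝ := fun i j => (F * S) i j with hFSdef
  have hdist : dist FS q.2 ≤ c * δ' := by
    rw [dist_pi_le_iff (by positivity)]
    intro i
    rw [dist_pi_le_iff (by positivity)]
    intro j
    rw [Real.dist_eq]
    have h2 : FS i j - q.2 i j = ∑ k, F i k * (S k j - (1 : Mt n) k j) := by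
      have h3 : q.2 i j = (F * 1) i j := by rw [Matrix.mul_one]; rfl
      rw [h3, hFSdef]
      simp only [Matrix.mul_apply]
      rw [← Finset.sum_sub_distrib]
      refine Finset.sum_congr rfl fun k _ => ?_
      ring
    rw [h2]
    refine (Finset.abs_sum_le_sum_abs _ _).trans ?_
    have h3 : ∀ k ∈ (Finset.univ : Finset (Fin n)), |F i k * (S k j - (1 : Mt n) k j)| ≤
        B * ((n : ℝ) ^ 3 * δ') := by
      intro k _
      rw [abs_mul]
      exact mul_le_mul (hFle i k) (hS1 k j) (abs_nonneg _) hB0.le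
    refine (Finset.sum_le_sum h3).trans (le_of_eq ?_)
    simp [hc]
    ring
  have hcd : c * δ' < r / 2 := by
    have h2 : δ' ≤ r / (4 * (c + 1)) := (min_le_right _ _).trans (min_le_right _ _)
    calc c * δ' ≤ c * (r / (4 * (c + 1))) := by gcongr
      _ < r / 2 := by
          rw [mul_div_assoc', div_lt_div_iff₀ (by positivity) (by positivity)]
          nlinarith
  have hin1 : ((Rc (G q.1.1) q.1.2 : T4 n), q.2) ∈ s := by
    apply hrs
    rw [Metric.mem_ball, Prod.dist_eq, max_lt_iff]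
    refine ⟨q1, lt_of_lt_of_le q2 ((min_le_left _ _).trans (by linarith))⟩
  have hin2 : ((Rc (G q.1.1) q.1.2 : T4 n), FS) ∈ s := by
    apply hrs
    rw [Metric.mem_ball, Prod.dist_eq, max_lt_iff]
    refine ⟨q1, ?_⟩
    calc dist FS E0 ≤
        dist FS q.2 + dist q.2 E0 := dist_triangle _ _ _
      _ < r / 2 + r / 2 := add_lt_add_of_le_of_lt (hdist.trans hcd.le)
          (lt_of_lt_of_le q2 (min_le_left _ _))
      _ = r := by ring
  have hlip := hK.dist_le_mul _ hin2 _ hin1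
  rw [Prod.dist_eq, dist_self, max_eq_right dist_nonneg, Real.dist_eq] at hlip
  have hval2 : G_val L ((Rc (G q.1.1) q.1.2 : T4 n), FS) =
      L (rot (Rc (G q.1.1) q.1.2) (F * S)) := rfl
  have hval1 : G_val L ((Rc (G q.1.1) q.1.2 : T4 n), q.2) =
      L (rot (Rc (G q.1.1) q.1.2) F) := rfl
  rw [hval1, hval2] at hlip
  have h5 := q5 hqt (F * S) hFS
  have h6 := (abs_le.1 hlip).2
  have h7 : (K : ℝ) * dist FS q.2 ≤ K * c * δ := by
    calc (K : ℝ) * dist FS q.2 ≤ K * (c * δ') := by gcongr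
      _ ≤ K * (c * δ) := by
          gcongr
          exact min_le_left _ _
      _ = K * c * δ := by ring
  linarith




theorem G_fr_cube {n : ℕ} (g : Mt n) : fr g * g * fr g = 1 + (-(3 / 4) : ℝ) • ((g - 1) * (g - 1)) +
    (1 / 4 : ℝ) • ((g - 1) * (g - 1) * (g - 1)) := by
  simp only [fr, sub_mul, mul_sub, smul_mul_assoc, mul_smul_comm, one_mul, mul_one, mul_assoc]
  module

theorem G_fr_symm {n : ℕ} {g : Mt n} (hg : g.IsSymm) : (fr g)ᵀ = fr g := by
  rw [fr, Matrix.transpose_sub, Matrix.transpose_smul, Matrix.transpose_smul, Matrix.transpose_one,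
    hg.eq]

theorem G_frame_bd {n : ℕ} (g E : Mt n) (hg : g.IsSymm) (hE : Eᵀ * E = 1) (B : ℝ)
    (hB : ∀ i j, |E i j| ≤ B) (hU : ∀ i j, |g i j - (1 : Mt n) i j| ≤ 1) (i j : Fin n) :
    |((fr g * E)ᵀ * g * (fr g * E)) i j - (1 : Mt n) i j| ≤
      (n : ℝ) ^ 2 * (B ^ 2 * ((1 + n) *
        ∑ a, ∑ b, (g a b - (1 : Mt n) a b) * (g a b - (1 : Mt n) a b))) := by
  set U : Mt n := g - 1 with hUdef
  have hUe : ∀ a b, g a b - (1 : Mt n) a b = U a b := fun a b => by rw [hUdef, Matrix.sub_apply]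
  simp only [hUe] at hU ⊢
  set q : ℝ := ∑ a, ∑ b, U a b * U a b with hq
  have hq0 : 0 ≤ q := Finset.sum_nonneg fun a _ => Finset.sum_nonneg fun b _ => mul_self_nonneg _
  have hrow : ∀ a, ∑ b, U a b * U a b ≤ q := fun a =>
    Finset.single_le_sum (f := fun a => ∑ b, U a b * U a b)
      (fun a _ => Finset.sum_nonneg fun b _ => mul_self_nonneg _) (Finset.mem_univ a)
  have hcol : ∀ b, ∑ a, U a b * U a b ≤ q := by
    intro b
    rw [hq, Finset.sum_comm]
    exact Finset.single_le_sum (f := fun b => ∑ a, U a b * U a b)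
      (fun b _ => Finset.sum_nonneg fun a _ => mul_self_nonneg _) (Finset.mem_univ b)
  have hU2 : ∀ a b, |(U * U) a b| ≤ q := by
    intro a b
    rw [Matrix.mul_apply]
    refine (Finset.abs_sum_le_sum_abs _ _).trans ?_
    have h1 : ∀ k ∈ (Finset.univ : Finset (Fin n)), |U a k * U k b| ≤
        (1 / 2) * (U a k * U a k) + (1 / 2) * (U k b * U k b) := by
      intro k _
      rw [abs_mul]
      have h2 := sq_nonneg (|U a k| - |U k b|)
      have h3 : |U a k| * |U a k| = U a k * U a k := abs_mul_abs_self _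
      have h4 : |U k b| * |U k b| = U k b * U k b := abs_mul_abs_self _
      nlinarith
    refine (Finset.sum_le_sum h1).trans ?_
    rw [Finset.sum_add_distrib, ← Finset.mul_sum, ← Finset.mul_sum]
    linarith [hrow a, hcol b]
  have hU3 : ∀ a b, |(U * U * U) a b| ≤ n * q := by
    intro a b
    rw [Matrix.mul_apply]
    refine (Finset.abs_sum_le_sum_abs _ _).trans ?_
    have h1 : ∀ k ∈ (Finset.univ : Finset (Fin n)), |(U * U) a k * U k b| ≤ q := by
      intro k _
      rw [abs_mul]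
      calc |(U * U) a k| * |U k b| ≤ q * 1 :=
            mul_le_mul (hU2 a k) (hU k b) (abs_nonneg _) hq0
        _ = q := mul_one q
    refine (Finset.sum_le_sum h1).trans (le_of_eq ?_)
    simp
  set X : Mt n := (-(3 / 4) : ℝ) • (U * U) + (1 / 4 : ℝ) • (U * U * U) with hX
  have hXb : ∀ a b, |X a b| ≤ (1 + n) * q := by
    intro a b
    rw [hX, Matrix.add_apply, Matrix.smul_apply, Matrix.smul_apply, smul_eq_mul, smul_eq_mul]
    refine (abs_add_le _ _).trans ?_
    rw [abs_mul, abs_mul, abs_neg, abs_of_pos (show (0 : ℝ) < 3 / 4 by norm_num),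
      abs_of_pos (show (0 : ℝ) < 1 / 4 by norm_num)]
    have h1 := hU2 a b
    have h2 := hU3 a b
    have h3 : 0 ≤ (n : ℝ) * q := by positivity
    nlinarith
  have hmain : (fr g * E)ᵀ * g * (fr g * E) - 1 = Eᵀ * X * E := by
    have h1 : (fr g * E)ᵀ * g * (fr g * E) = Eᵀ * (fr g * g * fr g) * E := by
      rw [Matrix.transpose_mul, G_fr_symm hg]
      simp only [Matrix.mul_assoc]
    rw [h1, G_fr_cube, add_assoc, ← hX, Matrix.mul_add, Matrix.add_mul, Matrix.mul_one, hE]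
    simp
  have h2 : ((fr g * E)ᵀ * g * (fr g * E)) i j - (1 : Mt n) i j = (Eᵀ * X * E) i j := by
    rw [← hmain, Matrix.sub_apply]
  rw [h2]
  exact G_bd3 E X B _ (by positivity) hB hXb i j

/-- derivative of the rotation by `1 + s A` -/
theorem G_rot_deriv {n : ℕ} (R : T4 n) (A : Mt n) (i j k l : Fin n) :
    HasDerivAt (fun s : ℝ => rot R (1 + s • A) i j k l)
      (∑ p, (A p i * R p j k l + A p j * R i p k l + A p k * R i j p l + A p l * R i j k p)) 0 := by
  have he : ∀ a b : Fin n, HasDerivAt (fun s : ℝ => ((1 : Mt n) + s • A) a b) (A a b) 0 := by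
    intro a b
    have h1 : HasDerivAt (fun s : ℝ => (1 : Mt n) a b + s * A a b) (1 * A a b) 0 :=
      ((hasDerivAt_id (0 : ℝ)).mul_const (A a b)).const_add _
    rw [one_mul] at h1
    exact h1
  have hterm : ∀ a b c d : Fin n, HasDerivAt (fun s : ℝ => R a b c d *
      ((1 : Mt n) + s • A) a i * ((1 : Mt n) + s • A) b j * ((1 : Mt n) + s • A) c k *
        ((1 : Mt n) + s • A) d l)
      (R a b c d * A a i * (1 : Mt n) b j * (1 : Mt n) c k * (1 : Mt n) d l +
        R a b c d * (1 : Mt n) a i * A b j * (1 : Mt n) c k * (1 : Mt n) d l +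
        R a b c d * (1 : Mt n) a i * (1 : Mt n) b j * A c k * (1 : Mt n) d l +
        R a b c d * (1 : Mt n) a i * (1 : Mt n) b j * (1 : Mt n) c k * A d l) 0 := by
    intro a b c d
    have h1 := ((((he a i).const_mul (R a b c d)).fun_mul (he b j)).fun_mul (he c k)).fun_mul (he d l)
    refine h1.congr_deriv ?_
    simp only [zero_smul, add_zero]
    ring
  have hsum : HasDerivAt (fun s : ℝ => rot R (1 + s • A) i j k l)
      (∑ a, ∑ b, ∑ c, ∑ d, (R a b c d * A a i * (1 : Mt n) b j * (1 : Mt n) c k * (1 : Mt n) d l +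
        R a b c d * (1 : Mt n) a i * A b j * (1 : Mt n) c k * (1 : Mt n) d l +
        R a b c d * (1 : Mt n) a i * (1 : Mt n) b j * A c k * (1 : Mt n) d l +
        R a b c d * (1 : Mt n) a i * (1 : Mt n) b j * (1 : Mt n) c k * A d l)) 0 := by
    simp only [rot]
    exact HasDerivAt.fun_sum fun a _ => HasDerivAt.fun_sum fun b _ => HasDerivAt.fun_sum fun c _ =>
      HasDerivAt.fun_sum fun d _ => hterm a b c d
  refine hsum.congr_deriv ?_
  simp only [Finset.sum_add_distrib, Matrix.one_apply, mul_ite, ite_mul, mul_one, mul_zero, zero_mul,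
    Finset.sum_ite_eq', Finset.mem_univ, if_true]
  simp only [Finset.sum_ite_irrel, Finset.sum_ite_eq', Finset.mem_univ, if_true,
    Finset.sum_const_zero, mul_comm]




theorem G_main {n : ℕ} {G : ℝ → Eu n → Mt n} {t0 : ℝ} (h : LocFlow G t0 0) (h1 : G t0 0 = 1)
    (hd : ∀ m i j, pd m (fun y => G t0 y i j) 0 = 0)
    (L : T4 n →ₗ[ℝ] ℝ) (E : Mt n) (hE : Eᵀ * E = 1) (H : ℝ → ℝ) (H' : ℝ)
    (hH : HasDerivAt H H' t0)
    (hmin : ∀ᶠ p : ℝ × Eu n in 𝓝 (t0, 0), p.1 ≤ t0 → ∀ F : Mt n, Fᵀ * G p.1 p.2 * F = 1 →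
      0 ≤ L (rot (Rc (G p.1) p.2) F) + H p.1)
    (h0 : L (rot (Rc (G t0) 0) E) + H t0 = 0) :
    L (QQ (rot (Rc (G t0) 0) E)) + H' ≤ 0 := by
  classical
  have hEE : E * Eᵀ = 1 := mul_eq_one_comm.1 hE
  obtain ⟨C, hC0, hlow⟩ := G_low h h1 L E hE H hmin
  obtain ⟨Ω, hΩ, hm, hG, hnd⟩ := G_open h
  set R0 : T4 n := Rc (G t0) 0 with hR0
  set Λ : T4 n →ₗ[ℝ] ℝ := G_Lam L E with hΛ
  set T : ℝ → Eu n → T4 n := fun t y => rot (Rc (G t) y) (fr (G t y)) with hT
  have hfr1 : fr (1 : Mt n) = 1 := by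
    rw [fr, ← sub_smul]
    norm_num
  have hTE : ∀ t y, Λ (T t y) = L (rot (Rc (G t) y) (fr (G t y) * E)) := by
    intro t y
    rw [hΛ, G_Lam_apply, hT, G_rot_mul]
  have hT0 : T t0 0 = R0 := by
    simp only [hT]
    rw [h1, hfr1, G_rot_one]
  have hΛ0 : Λ R0 + H t0 = 0 := h0
  set B : ℝ := ‖(fun i j => E i j : Fin n → Fin n → ℝ)‖ with hB
  have hBE : ∀ i j, |E i j| ≤ B := G_entry_le (fun i j => E i j)
  set c : ℝ := (n : ℝ) ^ 2 * (B ^ 2 * (1 + n)) with hc
  have hc0 : 0 ≤ c := by positivity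
  set u : Fin n → Fin n → ℝ → Eu n → ℝ := fun i j t y => G t y i j - (1 : Mt n) i j with hu
  have hu0 : ∀ i j, u i j t0 0 = 0 := by
    intro i j
    simp only [hu]
    rw [h1, sub_self]
  set w : ℝ → Eu n → ℝ := fun t y =>
    Λ (T t y) + H t + (C * c) * ∑ i, ∑ j, u i j t y * u i j t y with hw
  have hw0 : w t0 0 = 0 := by
    simp only [hw, hu0, hT0, mul_zero, Finset.sum_const_zero, add_zero]
    exact hΛ0
  -- the comparison function is nonnegative
  have hGcont : ∀ i j, ContinuousAt (fun p : ℝ × Eu n => G p.1 p.2 i j) (t0, 0) := fun i j =>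
    (G_smf_at hΩ (hG i j) hm).continuousAt
  have hclaim : ∀ᶠ p : ℝ × Eu n in 𝓝 (t0, 0), p.1 ≤ t0 → 0 ≤ w p.1 p.2 := by
    have ht : Tendsto (fun p : ℝ × Eu n => ((p, fun i j => (fr (G p.1 p.2) * E) i j) :
        (ℝ × Eu n) × (Fin n → Fin n → ℝ))) (𝓝 (t0, 0)) (𝓝 ((t0, 0), E)) := by
      refine Tendsto.prodMk_nhds tendsto_id ?_
      refine tendsto_pi_nhds.2 fun i => tendsto_pi_nhds.2 fun j => ?_
      have h2 : E i j = ∑ k, ((3 / 2 : ℝ) * (1 : Mt n) i k - (1 / 2 : ℝ) * G t0 0 i k) * E k j := by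
        rw [h1]
        have h3 : E i j = (fr (1 : Mt n) * E) i j := by rw [hfr1, Matrix.one_mul]
        rw [h3, Matrix.mul_apply]
        rfl
      rw [h2]
      simp only [Matrix.mul_apply]
      refine tendsto_finsetSum _ fun k _ => ?_
      refine Tendsto.mul ?_ tendsto_const_nhds
      exact (tendsto_const_nhds (x := (3 / 2 : ℝ) * (1 : Mt n) i k)).sub
        ((hGcont i k).tendsto.const_mul (1 / 2 : ℝ))
    have e1 := ht.eventually hlow
    have e2 : ∀ᶠ p : ℝ × Eu n in 𝓝 (t0, 0), ∀ i j, |u i j p.1 p.2| < 1 := by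
      refine eventually_all.2 fun i => eventually_all.2 fun j => ?_
      have h3 : ContinuousAt (fun p : ℝ × Eu n => u i j p.1 p.2) (t0, 0) :=
        (hGcont i j).sub continuousAt_const
      have h4 := h3.abs.tendsto
      simp only [hu0, abs_zero] at h4
      exact h4.eventually (gt_mem_nhds one_pos)
    filter_upwards [e1, e2, h.symm] with p p1 p2 p3 hpt
    have hq0 : 0 ≤ ∑ i, ∑ j, u i j p.1 p.2 * u i j p.1 p.2 :=
      Finset.sum_nonneg fun a _ => Finset.sum_nonneg fun b _ => mul_self_nonneg _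
    have h5 := p1 hpt (c * ∑ i, ∑ j, u i j p.1 p.2 * u i j p.1 p.2) (by positivity) (by
      intro i j
      have h6 := G_frame_bd (G p.1 p.2) E p3 hE B hBE (fun i j => (p2 i j).le) i j
      refine h6.trans (le_of_eq ?_)
      simp only [hc, hu]
      ring)
    simp only [hw]
    rw [hTE]
    have h7 : (Matrix.of fun i j => (fr (G p.1 p.2) * E) i j) = fr (G p.1 p.2) * E := rfl
    simp only [h7] at h5
    linarith
  -- (a) time derivative
  set T' : T4 n := fun i j k l => deriv (fun t => rot (Rc (G t) 0) (fr (G t 0)) i j k l) t0 with hT'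
  have ha : Λ T' + H' ≤ 0 := by
    have hTd : HasDerivAt (fun t => T t 0) T' t0 := by
      rw [hasDerivAt_pi]; intro i
      rw [hasDerivAt_pi]; intro j
      rw [hasDerivAt_pi]; intro k
      rw [hasDerivAt_pi]; intro l
      exact (G_smf_t hΩ (G_T_smooth hΩ hG hnd i j k l) hm).hasDerivAt
    have hΛd : HasDerivAt (fun t => Λ (T t 0)) (Λ T') t0 :=
      (LinearMap.toContinuousLinearMap Λ).hasFDerivAt.comp_hasDerivAt t0 hTd
    have hud : ∀ i j, HasDerivAt (fun t => u i j t 0 * u i j t 0) 0 t0 := by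
      intro i j
      have h3 : DifferentiableAt ℝ (fun t => u i j t 0) t0 :=
        (G_smf_t hΩ (hG i j) hm).sub_const _
      have h4 := h3.hasDerivAt.fun_mul h3.hasDerivAt
      rw [hu0, mul_zero, zero_mul, add_zero] at h4
      exact h4
    have hqd : HasDerivAt (fun t => ∑ i, ∑ j, u i j t 0 * u i j t 0) 0 t0 := by
      have h3 : HasDerivAt (fun t => ∑ i, ∑ j, u i j t 0 * u i j t 0)
          (∑ _i : Fin n, ∑ _j : Fin n, (0 : ℝ)) t0 :=
        HasDerivAt.fun_sum fun i _ => HasDerivAt.fun_sum fun j _ => hud i j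
      simpa using h3
    have hwd : HasDerivAt (fun t => w t 0) (Λ T' + H' + (C * c) * 0) t0 :=
      (hΛd.fun_add hH).fun_add (hqd.const_mul (C * c))
    rw [mul_zero, add_zero] at hwd
    apply G_left_min hwd
    have ht : Tendsto (fun t : ℝ => ((t, 0) : ℝ × Eu n)) (𝓝 t0) (𝓝 (t0, 0)) :=
      (continuous_id.prodMk continuous_const).tendsto t0
    have h3 := ht.eventually hclaim
    filter_upwards [h3] with t ht3 htt
    rw [hw0]
    exact ht3 htt
  -- (b) space derivatives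
  have hb : ∀ m : Fin n,
      0 ≤ Λ (fun i j k l => pd m (pd m (fun y => T t0 y i j k l)) 0) := by
    intro m
    have hTs : ∀ i j k l, ContDiffAt ℝ ∞ (fun y => T t0 y i j k l) 0 := fun i j k l =>
      G_smf_x hΩ (G_T_smooth hΩ hG hnd i j k l) hm
    have hus : ∀ i j, ContDiffAt ℝ ∞ (fun y => u i j t0 y) 0 := fun i j =>
      (G_smf_x hΩ (hG i j) hm).sub contDiffAt_const
    have hpu : ∀ i j, pd m (fun y => u i j t0 y) 0 = 0 := by
      intro i j
      have h3 : pd m (fun y => u i j t0 y) 0 = pd m (fun y => G t0 y i j) 0 := by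
        unfold pd
        simp only [hu]
        rw [fderiv_sub_const]
      rw [h3, hd]
    -- one sum
    let f : (G_I4 n ⊕ (Fin n × Fin n)) ⊕ Unit → Eu n → ℝ := fun x => match x with
      | Sum.inl (Sum.inl x) => fun y => T t0 y x.1 x.2.1 x.2.2.1 x.2.2.2
      | Sum.inl (Sum.inr x) => fun y => u x.1 x.2 t0 y * u x.1 x.2 t0 y
      | Sum.inr _ => fun _ => 1
    let cf : (G_I4 n ⊕ (Fin n × Fin n)) ⊕ Unit → ℝ := fun x => match x with
      | Sum.inl (Sum.inl x) => Λ (G_e x)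
      | Sum.inl (Sum.inr _) => C * c
      | Sum.inr _ => H t0
    have hwf : (fun y => w t0 y) = fun y => ∑ x, cf x * f x y := by
      funext y
      simp only [hw, Fintype.sum_sum_type, Fintype.sum_prod_type, f, cf, Finset.univ_unique,
        Finset.sum_singleton, mul_one]
      rw [G_lin_eq Λ (T t0 y)]
      simp only [Fintype.sum_prod_type, Finset.mul_sum]
      ring
    have hfs : ∀ x, ContDiffAt ℝ ∞ (f x) 0 := by
      intro x
      rcases x with (x | x) | x
      · exact hTs _ _ _ _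
      · exact (hus _ _).mul (hus _ _)
      · exact contDiffAt_const
    have hws : ContDiffAt ℝ ∞ (fun y => w t0 y) 0 := by
      rw [hwf]
      exact ContDiffAt.sum fun x _ => contDiffAt_const.mul (hfs x)
    have h3 : 0 ≤ pd m (pd m (fun y => w t0 y)) 0 := by
      apply G_second hws
      have ht : Tendsto (fun y : Eu n => ((t0, y) : ℝ × Eu n)) (𝓝 0) (𝓝 (t0, 0)) :=
        (continuous_const.prodMk continuous_id).tendsto 0
      filter_upwards [ht.eventually hclaim] with y hy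
      rw [hw0]
      exact hy le_rfl
    rw [hwf, G_pd2_lin cf f hfs m] at h3
    simp only [Fintype.sum_sum_type, f, cf, Finset.univ_unique, Finset.sum_singleton] at h3
    have h4 : ∀ x : Fin n × Fin n, pd m (pd m (fun y => u x.1 x.2 t0 y * u x.1 x.2 t0 y)) 0 = 0 :=
      fun x => G_pd2_sq _ (hus _ _) (hu0 _ _) m (hpu _ _)
    have h5 : pd m (pd m (fun _ : Eu n => (1 : ℝ))) 0 = 0 := by
      have h6 : pd m (fun _ : Eu n => (1 : ℝ)) = fun _ => 0 := by
        funext y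
        simp [pd]
      rw [h6]
      simp [pd]
    simp only [h4, h5, mul_zero, Finset.sum_const_zero, add_zero] at h3
    rw [G_lin_eq]
    exact h3
  -- (c) first variation
  obtain ⟨A, hA, hev⟩ := evol h h1 hd
  set Z : T4 n := fun i j k l => ∑ p, (A p i * R0 p j k l + A p j * R0 i p k l
    + A p k * R0 i j p l + A p l * R0 i j k p) with hZ
  have hcZ : Λ Z = 0 := by
    set D : Mt n := Eᵀ * (A * A) * E with hD
    set b : ℝ := ∑ i, ∑ j, |D i j| with hbdef
    have hb0 : 0 ≤ b := Finset.sum_nonneg fun i _ => Finset.sum_nonneg fun j _ => abs_nonneg _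
    have hbD : ∀ i j, |D i j| ≤ b := fun i j =>
      (Finset.single_le_sum (f := fun j => |D i j|) (fun j _ => abs_nonneg _)
        (Finset.mem_univ j)).trans
      (Finset.single_le_sum (f := fun i => ∑ j, |D i j|)
        (fun i _ => Finset.sum_nonneg fun j _ => abs_nonneg _) (Finset.mem_univ i))
    set v : ℝ → ℝ := fun s => Λ (rot R0 (1 + s • A)) + H t0 + C * (b * (s * s)) with hv
    have hv0 : v 0 = 0 := by
      simp only [hv, zero_smul, add_zero, G_rot_one, mul_zero]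
      exact hΛ0
    have hvd : HasDerivAt v (Λ Z) 0 := by
      have hTd : HasDerivAt (fun s : ℝ => rot R0 (1 + s • A)) Z 0 := by
        rw [hasDerivAt_pi]; intro i
        rw [hasDerivAt_pi]; intro j
        rw [hasDerivAt_pi]; intro k
        rw [hasDerivAt_pi]; intro l
        exact G_rot_deriv R0 A i j k l
      have hΛd : HasDerivAt (fun s : ℝ => Λ (rot R0 (1 + s • A))) (Λ Z) 0 :=
        (LinearMap.toContinuousLinearMap Λ).hasFDerivAt.comp_hasDerivAt 0 hTd
      have hsq : HasDerivAt (fun s : ℝ => C * (b * (s * s))) 0 0 := by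
        have h3 := (((hasDerivAt_id (0 : ℝ)).fun_mul (hasDerivAt_id (0 : ℝ))).const_mul b).const_mul C
        simpa using h3
      have h4 := (hΛd.add_const (H t0)).fun_add hsq
      rw [add_zero] at h4
      exact h4
    have hvmin : IsLocalMin v 0 := by
      have ht : Tendsto (fun s : ℝ => (((t0, 0), fun i j => (((1 : Mt n) + s • A) * E) i j) :
          (ℝ × Eu n) × (Fin n → Fin n → ℝ))) (𝓝 0) (𝓝 ((t0, 0), E)) := by
        refine Tendsto.prodMk_nhds tendsto_const_nhds ?_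
        refine tendsto_pi_nhds.2 fun i => tendsto_pi_nhds.2 fun j => ?_
        have h2 : E i j = ∑ k, ((1 : Mt n) i k + 0 * A i k) * E k j := by
          have h3 : E i j = ((1 : Mt n) * E) i j := by rw [Matrix.one_mul]
          conv_lhs => rw [h3, Matrix.mul_apply]
          simp
        rw [h2]
        simp only [Matrix.mul_apply]
        refine tendsto_finsetSum _ fun k _ => ?_
        refine Tendsto.mul ?_ tendsto_const_nhds
        exact (tendsto_const_nhds (x := (1 : Mt n) i k)).add (tendsto_id.mul_const (A i k))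
      have e1 := ht.eventually hlow
      filter_upwards [e1] with s hs
      rw [hv0]
      have hF : ((((1 : Mt n) + s • A) * E)ᵀ * G t0 0 * (((1 : Mt n) + s • A) * E)) - 1 =
          (-(s * s)) • D := by
        rw [h1, Matrix.mul_one, Matrix.transpose_mul, Matrix.transpose_add, Matrix.transpose_one,
          Matrix.transpose_smul, hA, hD]
        have h3 : Eᵀ * (1 + s • -A) * ((1 + s • A) * E) =
            Eᵀ * ((1 + s • -A) * (1 + s • A)) * E := by
          simp only [Matrix.mul_assoc]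
        have h4 : (1 + s • -A) * (1 + s • A) = 1 - (s * s) • (A * A) := by
          simp only [add_mul, mul_add, one_mul, mul_one, smul_mul_assoc, mul_smul_comm, neg_mul,
            smul_neg]
          module
        rw [h3, h4, Matrix.mul_sub, Matrix.sub_mul, Matrix.mul_one, hE, Matrix.mul_smul,
          Matrix.smul_mul, neg_smul]
        abel
      have h5 := hs le_rfl (b * (s * s)) (mul_nonneg hb0 (mul_self_nonneg s)) (by
        intro i j
        have h6 : (((Matrix.of fun i j => (((1 : Mt n) + s • A) * E) i j)ᵀ * G t0 0 *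
            (Matrix.of fun i j => (((1 : Mt n) + s • A) * E) i j)) i j - (1 : Mt n) i j) =
            (-(s * s)) * D i j := by
          have h7 : (Matrix.of fun i j => (((1 : Mt n) + s • A) * E) i j) =
            ((1 : Mt n) + s • A) * E := rfl
          rw [h7, ← Matrix.sub_apply, hF, Matrix.smul_apply, smul_eq_mul]
        rw [h6, abs_mul, abs_neg, abs_of_nonneg (mul_self_nonneg s), mul_comm]
        exact mul_le_mul_of_nonneg_right (hbD i j) (mul_self_nonneg s))
      have h7 : (Matrix.of fun i j => (((1 : Mt n) + s • A) * E) i j) =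
            ((1 : Mt n) + s • A) * E := rfl
      simp only [h7] at h5
      simp only [hv]
      rw [hΛ, G_Lam_apply, G_rot_mul]
      linarith
    have h8 := hvmin.deriv_eq_zero
    rw [hvd.deriv] at h8
    exact h8
  -- assembly
  have hTeq : T' = (∑ m, fun i j k l => pd m (pd m (fun y => T t0 y i j k l)) 0) + QQ R0 + Z := by
    funext i j k l
    simp only [hT', Pi.add_apply, Finset.sum_apply, hZ]
    exact hev i j k l
  rw [hTeq, map_add, map_add, map_sum, hcZ, add_zero] at ha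
  have hsum : 0 ≤ ∑ m, Λ (fun i j k l => pd m (pd m (fun y => T t0 y i j k l)) 0) :=
    Finset.sum_nonneg fun m _ => hb m
  have hfin : Λ (QQ R0) = L (QQ (rot R0 E)) := by
    rw [hΛ, G_Lam_apply, G_QQ_rot R0 E hEE]
  rw [hfin] at ha
  linarith

/-! ## TARGET G (pointwise test; `L` is a linear functional of the curvature components in an orthonormal frame).
Proof. By `norm_coord` we may assume `x0 = 0`, `G t0 0 = 1`, `∂ G t0 = 0` at `0` (frames `F'` of the pulled back metric at `z`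
correspond to frames `Jac φ z * F'` of `G` at `φ z`; put `E' = (Jac φ 0)⁻¹ E`, so `E'ᵀ E' = 1`). Let
`Ψ(t,y) = L (rot (rot (Rc (G t) y) (fr (G t y))) E') + H t` (note `rot (rot R A) B = rot R (A * B)`). Approximate orthonormality: with
`F = fr (G t y) * E'` and `D = Fᵀ G F - 1` one has `|D| ≤ C |G t y - 1|^2`; for small `D` there is `S` with `(F S)ᵀ G (F S) = 1` and
`|S - 1| ≤ C |D|` (spectral theorem for the symmetric matrix `1 + D`), so the hypothesis `hmin` gives
`Ψ(t,y) ≥ -C |G t y - 1|^2` for `(t,y)` near `(t0,0)`, `t ≤ t0`, with equality (both sides `0`) at `(t0,0)`.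
(a) time: `|G t 0 - 1|^2 = O((t - t0)^2)`, so `∂_t Ψ(t0,0) ≤ 0`.
(b) space: `|G t0 y - 1|^2 = O(|y|^4)`, so `∂_m ∂_m Ψ(t0,0) ≥ 0` for every `m`.
(c) first variation: for `A` antisymmetric, `s ↦ L (rot (rot (Rc (G t0) 0) (exp (s A))) E')` has a minimum at `s = 0` (orthonormal
frames at the point `(t0,0)`), so its derivative, `L` of the rotation by `E'` of the tensor
`∑ p (A p i R_pjkl + A p j R_ipkl + A p k R_ijpl + A p l R_ijkp)`, vanishes.
By `evol` (multiply by `E'` and apply `L`): `∂_t Ψ = ∑ m ∂_m ∂_m Ψ + L (rot (QQ R) E') + 0 + H'` at `(t0,0)`; and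
`QQ (rot R E') = rot (QQ R) E'` for orthogonal `E'` (`E' E'ᵀ = 1`). Hence `L (QQ (rot R E')) + H' ≤ 0`. -/
theorem ptl {n : ℕ} {G : ℝ → Eu n → Mt n} {t0 : ℝ} {x0 : Eu n} (h : LocFlow G t0 x0)
    (L : T4 n →ₗ[ℝ] ℝ) (E : Mt n) (hE : Eᵀ * G t0 x0 * E = 1) (H : ℝ → ℝ) (H' : ℝ)
    (hH : HasDerivAt H H' t0)
    (hmin : ∀ᶠ p : ℝ × Eu n in 𝓝 (t0, x0), p.1 ≤ t0 → ∀ F : Mt n, Fᵀ * G p.1 p.2 * F = 1 →
      0 ≤ L (rot (Rc (G p.1) p.2) F) + H p.1)
    (h0 : L (rot (Rc (G t0) x0) E) + H t0 = 0) :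
    L (QQ (rot (Rc (G t0) x0) E)) + H' ≤ 0 := by
  obtain ⟨φ, hφ, hφ0, hJ, hflow, hone, hpd, hrot⟩ := norm_coord h
  set G' : ℝ → Eu n → Mt n := fun t => pull φ (G t) with hG'
  set J : Mt n := Jac φ 0 with hJdef
  have hJu : IsUnit J.det := isUnit_iff_ne_zero.2 hJ
  have hJE : J * (J⁻¹ * E) = E := by
    rw [← Matrix.mul_assoc, Matrix.mul_nonsing_inv _ hJu, Matrix.one_mul]
  have hpull : Jᵀ * G t0 x0 * J = 1 := by
    rw [← hone, pull, hφ0]
  have hE' : (J⁻¹ * E)ᵀ * (J⁻¹ * E) = 1 := by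
    calc (J⁻¹ * E)ᵀ * (J⁻¹ * E) = (J⁻¹ * E)ᵀ * (Jᵀ * G t0 x0 * J) * (J⁻¹ * E) := by
          rw [hpull, Matrix.mul_one]
      _ = (J * (J⁻¹ * E))ᵀ * G t0 x0 * (J * (J⁻¹ * E)) := by
          rw [Matrix.transpose_mul J]
          simp only [Matrix.mul_assoc]
      _ = 1 := by rw [hJE, hE]
  have hr0 : rot (Rc (G' t0) 0) (J⁻¹ * E) = rot (Rc (G t0) x0) E := by
    have h1 := (hrot.self_of_nhds).2 (J⁻¹ * E)
    rw [hφ0, hJE] at h1
    exact h1
  have hmin' : ∀ᶠ p : ℝ × Eu n in 𝓝 (t0, 0), p.1 ≤ t0 → ∀ F : Mt n, Fᵀ * G' p.1 p.2 * F = 1 →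
      0 ≤ L (rot (Rc (G' p.1) p.2) F) + H p.1 := by
    have ht : Tendsto (fun p : ℝ × Eu n => ((p.1, φ p.2) : ℝ × Eu n)) (𝓝 (t0, 0)) (𝓝 (t0, x0)) := by
      have h1 : Continuous fun p : ℝ × Eu n => ((p.1, φ p.2) : ℝ × Eu n) :=
        continuous_fst.prodMk (hφ.continuous.comp continuous_snd)
      have h2 := h1.tendsto (t0, 0)
      rw [hφ0] at h2
      exact h2
    filter_upwards [ht.eventually hmin, hrot] with p p1 p2 hpt F hF
    rw [p2.2 F]
    apply p1 hpt
    rw [← hF]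
    simp only [hG', pull, Matrix.transpose_mul, Matrix.mul_assoc]
  have := G_main hflow hone hpd L (J⁻¹ * E) hE' H H' hH hmin' (by
    rw [hr0]
    exact h0)
  change L (QQ (rot (Rc (G' t0) 0) (J⁻¹ * E))) + H' ≤ 0 at this
  rw [hr0] at this
  exact this

end Pool.Agent.Helper696_RF
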