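import Mathlib
import Pool.Agent.Helper696_RF.Defs
import Pool.Agent.Helper696_RF.Loc

/-!
Needs on disk: `Pool/Agent/Helper696_RF/Defs.lean` (origin/main), `Pool/Agent/H858R2/Defs.lean` and the directory
`Pool/Agent/QTot` (starting files). Useful lemmas are in `Pool.Agent.QTot.N2` (already imported through Defs): `pd_congr`,
`pd_add'`, `pd_mul'`, `pd_sum'`, `pd_comp'`, `pd_smooth`, `pd_symm`, `inv_smooth`, `gam_smooth`, `gam_sym`, `gam_pull'`,
`rm_pull`, `ric_pull`, `Ric_eq`.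
-/

set_option autoImplicit false
open scoped ContDiff Manifold Topology Matrix
open Set Filter

namespace Pool.Agent.Helper696_RF

open Pool.Agent.QTot Pool.Agent.H858R2


namespace MaxP

/-! ### congruence of the curvature -/

theorem pd_congr_nhds {n : ℕ} (i : Fin n) {f g : Eu n → ℝ} {x : Eu n} (h : f =ᶠ[𝓝 x] g) :
    pd i f =ᶠ[𝓝 x] pd i g := by
  filter_upwards [h.eventually_nhds] with y hy
  exact N2.pd_congr hy

theorem Gam_congr {n : ℕ} {G G' : Eu n → Mt n} {x : Eu n} (h : G =ᶠ[𝓝 x] G') (k i j : Fin n) :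
    Gam G k i j =ᶠ[𝓝 x] Gam G' k i j := by
  filter_upwards [h.eventually_nhds] with y hy
  have hy' : G =ᶠ[𝓝 y] G' := hy
  have h1 : ∀ a b c : Fin n, pd a (fun z => G z b c) y = pd a (fun z => G' z b c) y := by
    intro a b c
    apply N2.pd_congr
    filter_upwards [hy'] with z hz
    rw [hz]
  unfold Gam
  simp only [h1, hy'.eq_of_nhds]

theorem Rc_congr {n : ℕ} {G G' : Eu n → Mt n} {x : Eu n} (h : G =ᶠ[𝓝 x] G') :
    Rc G x = Rc G' x := by
  have h1 : ∀ a k i j : Fin n, pd a (Gam G k i j) x = pd a (Gam G' k i j) x :=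
    fun a k i j => N2.pd_congr (Gam_congr h k i j)
  have h2 : ∀ k i j : Fin n, Gam G k i j x = Gam G' k i j x :=
    fun k i j => (Gam_congr h k i j).eq_of_nhds
  unfold Rc R4 N2.Rm
  simp only [h1, h2, h.eq_of_nhds]

/-! ### change of frames -/

theorem prod4 {n : ℕ} (f g h k : Fin n → ℝ) :
    (∑ a, f a) * (∑ b, g b) * (∑ c, h c) * (∑ d, k d) =
      ∑ a, ∑ b, ∑ c, ∑ d, f a * g b * h c * k d := by
  simp only [← Finset.mul_sum, ← Finset.sum_mul]

theorem swap44 {n : ℕ} (f : Fin n → Fin n → Fin n → Fin n → Fin n → Fin n → Fin n → Fin n → ℝ) :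
    ∑ a, ∑ b, ∑ c, ∑ d, ∑ p, ∑ q, ∑ r, ∑ s, f a b c d p q r s =
      ∑ p, ∑ q, ∑ r, ∑ s, ∑ a, ∑ b, ∑ c, ∑ d, f a b c d p q r s := by
  have e1 : ∀ g : Fin n → Fin n → Fin n → Fin n → ℝ, ∑ a, ∑ b, ∑ c, ∑ d, g a b c d =
      ∑ x : Fin n × Fin n × Fin n × Fin n, g x.1 x.2.1 x.2.2.1 x.2.2.2 := by
    intro g
    rw [Fintype.sum_prod_type]
    refine Finset.sum_congr rfl fun a _ => ?_
    rw [Fintype.sum_prod_type]
    refine Finset.sum_congr rfl fun b _ => ?_
    rw [Fintype.sum_prod_type]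
  simp only [e1]
  rw [Finset.sum_comm]

theorem rot_rot {n : ℕ} (R : T4 n) (J F : Mt n) : rot (rot R J) F = rot R (J * F) := by
  funext i j k l
  have h1 : rot (rot R J) F i j k l = ∑ a, ∑ b, ∑ c, ∑ d, ∑ p, ∑ q, ∑ r, ∑ s,
      (R p q r s * J p a * J q b * J r c * J s d) * F a i * F b j * F c k * F d l := by
    simp only [rot, Finset.sum_mul]
  have h2 : rot R (J * F) i j k l = ∑ p, ∑ q, ∑ r, ∑ s, ∑ a, ∑ b, ∑ c, ∑ d,
      (R p q r s * J p a * J q b * J r c * J s d) * F a i * F b j * F c k * F d l := by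
    simp only [rot]
    refine Finset.sum_congr rfl fun p _ => Finset.sum_congr rfl fun q _ =>
      Finset.sum_congr rfl fun r _ => Finset.sum_congr rfl fun s _ => ?_
    have h3 := prod4 (fun a => J p a * F a i) (fun b => J q b * F b j) (fun c => J r c * F c k)
      (fun d => J s d * F d l)
    have h4 : R p q r s * (J * F) p i * (J * F) q j * (J * F) r k * (J * F) s l =
        R p q r s * ((∑ a, J p a * F a i) * (∑ b, J q b * F b j) * (∑ c, J r c * F c k) *
          (∑ d, J s d * F d l)) := by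
      simp only [Matrix.mul_apply]
      ring
    rw [h4, h3, Finset.mul_sum]
    refine Finset.sum_congr rfl fun a _ => ?_
    rw [Finset.mul_sum]
    refine Finset.sum_congr rfl fun b _ => ?_
    rw [Finset.mul_sum]
    refine Finset.sum_congr rfl fun c _ => ?_
    rw [Finset.mul_sum]
    refine Finset.sum_congr rfl fun d _ => ?_
    ring
  rw [h1, h2, swap44]

theorem Rc_pull {n : ℕ} {φ : Eu n → Eu n} {x₀ : Eu n} (hφ : ContDiffAt ℝ ∞ φ x₀)
    (hJ : (Jac φ x₀).det ≠ 0) {G : Eu n → Mt n}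
    (hG : ∀ i j, ContDiffAt ℝ ∞ (fun x => G x i j) (φ x₀))
    (hs : ∀ᶠ x in 𝓝 (φ x₀), (G x).IsSymm) (hd : (G (φ x₀)).det ≠ 0) :
    Rc (pull φ G) x₀ = rot (Rc G (φ x₀)) (Jac φ x₀) := by
  funext i j k l
  have key := fun a => N2.rm_pull hφ hJ hG hs hd a l i j
  set J := Jac φ x₀ with hJdef
  have h1 : Rc (pull φ G) x₀ i j k l =
      ∑ c, (∑ b, J b k * G (φ x₀) b c) * ∑ a, J c a * N2.Rm (pull φ G) a l i j x₀ := by
    show ∑ a, pull φ G x₀ k a * N2.Rm (pull φ G) a l i j x₀ = _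
    have e : ∀ a, pull φ G x₀ k a = ∑ c, (∑ b, J b k * G (φ x₀) b c) * J c a := by
      intro a
      simp only [pull, Matrix.mul_apply, Matrix.transpose_apply, ← hJdef]
    simp only [e, Finset.sum_mul, Finset.mul_sum]
    rw [Finset.sum_comm]
    refine Finset.sum_congr rfl fun c _ => Finset.sum_congr rfl fun a _ =>
      Finset.sum_congr rfl fun b _ => ?_
    ring
  rw [h1]
  simp only [key]
  show _ = ∑ a, ∑ b, ∑ c, ∑ d, (∑ e, G (φ x₀) c e * N2.Rm G e d a b (φ x₀)) *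
    J a i * J b j * J c k * J d l
  -- both sides as sums over e, c, d, a, b
  have h2 : ∑ e, (∑ c, J c k * G (φ x₀) c e) * ∑ d, ∑ a, ∑ b,
      N2.Rm G e d a b (φ x₀) * J d l * J a i * J b j =
      ∑ e, ∑ c, ∑ d, ∑ a, ∑ b, G (φ x₀) c e * N2.Rm G e d a b (φ x₀) *
        J a i * J b j * J c k * J d l := by
    refine Finset.sum_congr rfl fun e _ => ?_
    rw [Finset.sum_mul]
    refine Finset.sum_congr rfl fun c _ => ?_
    rw [Finset.mul_sum]
    refine Finset.sum_congr rfl fun d _ => ?_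
    rw [Finset.mul_sum]
    refine Finset.sum_congr rfl fun a _ => ?_
    rw [Finset.mul_sum]
    refine Finset.sum_congr rfl fun b _ => ?_
    ring
  rw [h2]
  have h3 : ∑ a, ∑ b, ∑ c, ∑ d, (∑ e, G (φ x₀) c e * N2.Rm G e d a b (φ x₀)) *
      J a i * J b j * J c k * J d l = ∑ a, ∑ b, ∑ c, ∑ d, ∑ e,
        G (φ x₀) c e * N2.Rm G e d a b (φ x₀) * J a i * J b j * J c k * J d l := by
    simp only [Finset.sum_mul]
  rw [h3]
  have e1 : ∀ g : Fin n → Fin n → Fin n → Fin n → Fin n → ℝ,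
      ∑ e, ∑ c, ∑ d, ∑ a, ∑ b, g a b c d e =
      ∑ x : Fin n × Fin n × Fin n × Fin n × Fin n, g x.2.2.2.1 x.2.2.2.2 x.2.1 x.2.2.1 x.1 := by
    intro g
    simp only [Fintype.sum_prod_type]
  have e2 : ∀ g : Fin n → Fin n → Fin n → Fin n → Fin n → ℝ,
      ∑ a, ∑ b, ∑ c, ∑ d, ∑ e, g a b c d e =
      ∑ x : Fin n × Fin n × Fin n × Fin n × Fin n, g x.1 x.2.1 x.2.2.1 x.2.2.2.1 x.2.2.2.2 := by
    intro g
    simp only [Fintype.sum_prod_type]
  rw [e1 (fun a b c d e => G (φ x₀) c e * N2.Rm G e d a b (φ x₀) * J a i * J b j * J c k * J d l),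
    e2 (fun a b c d e => G (φ x₀) c e * N2.Rm G e d a b (φ x₀) * J a i * J b j * J c k * J d l)]
  refine Fintype.sum_equiv
    (⟨fun x => (x.2.2.2.1, x.2.2.2.2, x.2.1, x.2.2.1, x.1),
      fun x => (x.2.2.2.2, x.2.2.1, x.2.2.2.1, x.1, x.2.1), fun _ => rfl, fun _ => rfl⟩ :
      (Fin n × Fin n × Fin n × Fin n × Fin n) ≃ (Fin n × Fin n × Fin n × Fin n × Fin n)) _ _ ?_
  intro x
  rfl


/-! ### charts -/

theorem isOpen_ctarget {n : ℕ} {M : Type} [TopologicalSpace M]
    (e : OpenPartialHomeomorph M (En n)) : IsOpen (ctarget e) :=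
  e.open_target.preimage (PiLp.continuous_toLp 2 _)

/-- coordinates in `e` of points which are in the domain of both charts -/
def cdm {n : ℕ} {M : Type} [TopologicalSpace M] (e e' : OpenPartialHomeomorph M (En n)) :
    Set (Eu n) := {y | WithLp.toLp 2 y ∈ e.target ∧ e.symm (WithLp.toLp 2 y) ∈ e'.source}

theorem isOpen_cdm {n : ℕ} {M : Type} [TopologicalSpace M]
    (e e' : OpenPartialHomeomorph M (En n)) : IsOpen (cdm e e') :=
  (e.isOpen_inter_preimage_symm e'.open_source).preimage (PiLp.continuous_toLp 2 _)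

theorem ctrn_smooth {n : ℕ} {M : Type} [TopologicalSpace M] [ChartedSpace (En n) M]
    [IsManifold (𝓡 n) ∞ M] {e e' : OpenPartialHomeomorph M (En n)} (he : e ∈ atlas (En n) M)
    (he' : e' ∈ atlas (En n) M) {y : Eu n} (hy : y ∈ cdm e e') :
    ContDiffAt ℝ ∞ (ctrn e e') y := by
  have h := HasGroupoid.compatible (G := contDiffGroupoid ∞ (𝓡 n)) he he'
  have h1 := contMDiffOn_of_mem_contDiffGroupoid h
  rw [contMDiffOn_iff_contDiffOn] at h1
  have h2 : ContDiffAt ℝ ∞ (e.symm.trans e') (WithLp.toLp 2 y) :=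
    h1.contDiffAt ((e.symm.trans e').open_source.mem_nhds ⟨hy.1, hy.2⟩)
  have h3 : ContDiff ℝ ∞ (fun y : Eu n => (WithLp.toLp 2 y : En n)) :=
    (PiLp.continuousLinearEquiv 2 ℝ (fun _ : Fin n => ℝ)).symm.contDiff
  have h4 : ContDiff ℝ ∞ (fun y : En n => (WithLp.ofLp y : Eu n)) :=
    (PiLp.continuousLinearEquiv 2 ℝ (fun _ : Fin n => ℝ)).contDiff
  exact h4.contDiffAt.comp y (h2.comp y h3.contDiffAt)

theorem ctrn_mem {n : ℕ} {M : Type} [TopologicalSpace M] {e e' : OpenPartialHomeomorph M (En n)}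
    {y : Eu n} (hy : y ∈ cdm e e') : ctrn e e' y ∈ ctarget e' := by
  show WithLp.toLp 2 (WithLp.ofLp (e' (e.symm (WithLp.toLp 2 y)))) ∈ e'.target
  rw [WithLp.toLp_ofLp]
  exact e'.map_source hy.2

theorem isSymm_of_posDef {n : ℕ} {A : Mt n} (h : A.PosDef) : A.IsSymm := by
  have := h.isHermitian
  rw [Matrix.IsHermitian, Matrix.conjTranspose_eq_transpose_of_trivial] at this
  exact this

theorem rc_change {n : ℕ} {M : Type} [TopologicalSpace M] [ChartedSpace (En n) M]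
    [IsManifold (𝓡 n) ∞ M] (g : Metric n M) {e e' : OpenPartialHomeomorph M (En n)}
    (he : e ∈ atlas (En n) M) (he' : e' ∈ atlas (En n) M) {y : Eu n} (hy : y ∈ cdm e e') :
    g.G e y = (Jac (ctrn e e') y)ᵀ * g.G e' (ctrn e e' y) * Jac (ctrn e e') y ∧
    Rc (g.G e) y = rot (Rc (g.G e') (ctrn e e' y)) (Jac (ctrn e e') y) := by
  have hc := g.compat e he e' he' y hy.1 hy.2
  refine ⟨hc, ?_⟩
  have hmem := ctrn_mem hy
  have hev : g.G e =ᶠ[𝓝 y] pull (ctrn e e') (g.G e') := by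
    filter_upwards [(isOpen_cdm e e').mem_nhds hy] with z hz
    exact g.compat e he e' he' z hz.1 hz.2
  have hd : (g.G e' (ctrn e e' y)).det ≠ 0 := (g.posDef e' he' _ hmem).det_pos.ne'
  have hJ : (Jac (ctrn e e') y).det ≠ 0 := by
    intro h0
    have h1 := (g.posDef e he y hy.1).det_pos
    rw [hc, Matrix.det_mul, h0, mul_zero] at h1
    exact lt_irrefl _ h1
  rw [Rc_congr hev]
  refine Rc_pull (ctrn_smooth he he' hy) hJ (fun i j => ?_) ?_ hd
  · exact (g.smooth e' he' i j).contDiffAt ((isOpen_ctarget e').mem_nhds hmem)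
  · filter_upwards [(isOpen_ctarget e').mem_nhds hmem] with z hz
    exact isSymm_of_posDef (g.posDef e' he' z hz)

/-! ### smooth families -/

/-- smooth functions of time and space -/
def Sm {n : ℕ} (T : ℝ) (U : Set (Eu n)) (f : ℝ → Eu n → ℝ) : Prop :=
  ContDiffOn ℝ ∞ (fun p : ℝ × Eu n => f p.1 p.2) (Ico 0 T ×ˢ U)

theorem Sm.pd {n : ℕ} {T : ℝ} {U : Set (Eu n)} (hU : IsOpen U) {f : ℝ → Eu n → ℝ}
    (hf : Sm T U f) (a : Fin n) : Sm T U (fun t => QTot.pd a (f t)) := by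
  have hD : UniqueDiffOn ℝ (Ico 0 T ×ˢ U) := (uniqueDiffOn_Ico 0 T).prod hU.uniqueDiffOn
  have h1 : ContDiffOn ℝ ∞ (fun p : ℝ × Eu n =>
      fderivWithin ℝ (fun q : ℝ × Eu n => f q.1 q.2) (Ico 0 T ×ˢ U) p (0, Pi.single a 1))
      (Ico 0 T ×ˢ U) :=
    (ContDiffOn.fderivWithin hf hD (by simp)).clm_apply contDiffOn_const
  refine h1.congr ?_
  rintro ⟨t, y⟩ ⟨ht, hy⟩
  have h2 : DifferentiableWithinAt ℝ (fun q : ℝ × Eu n => f q.1 q.2) (Ico 0 T ×ˢ U) (t, y) :=
    (ContDiffOn.differentiableOn hf (by simp)) (t, y) ⟨ht, hy⟩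
  have h3 : HasFDerivAt (fun z : Eu n => (t, z)) (ContinuousLinearMap.inr ℝ ℝ (Eu n)) y :=
    hasFDerivAt_prodMk_right t y
  have h4 : HasFDerivWithinAt (fun z : Eu n => f t z)
      ((fderivWithin ℝ (fun q : ℝ × Eu n => f q.1 q.2) (Ico 0 T ×ˢ U) (t, y)).comp
        (ContinuousLinearMap.inr ℝ ℝ (Eu n))) U y :=
    h2.hasFDerivWithinAt.comp y h3.hasFDerivWithinAt (fun z hz => ⟨ht, hz⟩)
  have h5 := (h4.hasFDerivAt (hU.mem_nhds hy)).fderiv
  show fderiv ℝ (f t) y (Pi.single a 1) = _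
  rw [show fderiv ℝ (f t) y = _ from h5]
  rfl

theorem Sm.inv {n : ℕ} {T : ℝ} {U : Set (Eu n)} {G : ℝ → Eu n → Mt n}
    (hG : ∀ i j, Sm T U (fun t y => G t y i j)) (hd : ∀ t ∈ Ico 0 T, ∀ y ∈ U, (G t y).det ≠ 0)
    (a b : Fin n) : Sm T U (fun t y => (G t y)⁻¹ a b) := by
  classical
  have hdet : ∀ M : ℝ → Eu n → Mt n, (∀ i j, Sm T U (fun t y => M t y i j)) →
      Sm T U (fun t y => (M t y).det) := by
    intro M hM
    unfold Sm
    simp only [Matrix.det_apply]
    refine ContDiffOn.sum fun σ _ => ?_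
    refine ContDiffOn.const_smul _ ?_
    exact contDiffOn_prod fun i _ => hM _ _
  have hadj : Sm T U (fun t y => (G t y).adjugate a b) := by
    simp only [Matrix.adjugate_apply]
    apply hdet
    intro i j
    by_cases h : i = b
    · subst h
      simp only [Matrix.updateRow_self]
      exact contDiffOn_const
    · simp only [Matrix.updateRow_ne h]
      exact hG i j
  have e : (fun (t : ℝ) (y : Eu n) => (G t y)⁻¹ a b) =
      fun t y => ((G t y).det)⁻¹ * (G t y).adjugate a b := by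
    funext t y
    rw [Matrix.inv_def, Ring.inverse_eq_inv']
    rfl
  rw [e]
  exact (ContDiffOn.inv (hdet G hG) (fun p hp => hd p.1 hp.1 p.2 hp.2)).mul hadj

theorem Sm.gam {n : ℕ} {T : ℝ} {U : Set (Eu n)} (hU : IsOpen U) {G : ℝ → Eu n → Mt n}
    (hG : ∀ i j, Sm T U (fun t y => G t y i j)) (hd : ∀ t ∈ Ico 0 T, ∀ y ∈ U, (G t y).det ≠ 0)
    (k i j : Fin n) : Sm T U (fun t => Gam (G t) k i j) := by
  unfold Sm Gam
  refine contDiffOn_const.mul (ContDiffOn.sum fun l _ => ?_)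
  refine ContDiffOn.mul (Sm.inv hG hd k l) ?_
  exact (ContDiffOn.add (Sm.pd hU (hG j l) i) (Sm.pd hU (hG i l) j)).sub (Sm.pd hU (hG i j) l)

theorem Sm.rc {n : ℕ} {T : ℝ} {U : Set (Eu n)} (hU : IsOpen U) {G : ℝ → Eu n → Mt n}
    (hG : ∀ i j, Sm T U (fun t y => G t y i j)) (hd : ∀ t ∈ Ico 0 T, ∀ y ∈ U, (G t y).det ≠ 0)
    (i j k l : Fin n) : Sm T U (fun t y => Rc (G t) y i j k l) := by
  have hg := fun k i j => Sm.gam hU hG hd k i j
  unfold Sm Rc R4 N2.Rm
  refine ContDiffOn.sum fun a _ => ?_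
  refine ContDiffOn.mul (hG _ _) ?_
  refine ContDiffOn.add (ContDiffOn.sub (Sm.pd hU (hg _ _ _) _) (Sm.pd hU (hg _ _ _) _)) ?_
  refine ContDiffOn.sum fun e _ => ?_
  exact (ContDiffOn.mul (hg _ _ _) (hg _ _ _)).sub (ContDiffOn.mul (hg _ _ _) (hg _ _ _))

/-! ### a square root near the identity -/

theorem root_aux {n : ℕ} (A : Mt n) (hA : A.PosDef) : ∃ S : Mt n, Sᵀ * A * S = 1 ∧
    (∑ j, ∑ k, |(A - 1) j k| ≤ 1 / 2 →
      ∀ j k, |(S - 1) j k| ≤ n * (2 * ∑ j, ∑ k, |(A - 1) j k|)) := by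
  have hH := hA.isHermitian
  obtain ⟨U, lam, hU1, hU2, hAU, hlam⟩ : ∃ (U : Mt n) (lam : Fin n → ℝ), U * Uᵀ = 1 ∧
      Uᵀ * U = 1 ∧ A = U * Matrix.diagonal lam * Uᵀ ∧ ∀ i, 0 < lam i := by
    refine ⟨hH.eigenvectorUnitary, hH.eigenvalues, ?_, ?_, ?_, hA.eigenvalues_pos⟩
    · have := Matrix.mem_unitaryGroup_iff.mp hH.eigenvectorUnitary.2
      rwa [Matrix.star_eq_conjTranspose, Matrix.conjTranspose_eq_transpose_of_trivial] at this
    · have := Matrix.mem_unitaryGroup_iff'.mp hH.eigenvectorUnitary.2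
      rwa [Matrix.star_eq_conjTranspose, Matrix.conjTranspose_eq_transpose_of_trivial] at this
    · have := hH.spectral_theorem
      rw [Unitary.conjStarAlgAut_apply, Matrix.star_eq_conjTranspose,
        Matrix.conjTranspose_eq_transpose_of_trivial] at this
      exact this
  have hUle : ∀ j i, |U j i| ≤ 1 := by
    intro j i
    have h1 : ∑ k, U j k * U j k = 1 := by
      have := congrFun (congrFun hU1 j) j
      simpa [Matrix.mul_apply] using this
    have h2 : U j i * U j i ≤ 1 := by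
      rw [← h1]
      exact Finset.single_le_sum (f := fun k => U j k * U j k)
        (fun k _ => mul_self_nonneg _) (Finset.mem_univ i)
    exact abs_le_one_iff_mul_self_le_one.mpr h2
  set μ : Fin n → ℝ := fun i => (Real.sqrt (lam i))⁻¹ with hμ
  refine ⟨U * Matrix.diagonal μ * Uᵀ, ?_, ?_⟩
  · have e1 : (U * Matrix.diagonal μ * Uᵀ)ᵀ = U * Matrix.diagonal μ * Uᵀ := by
      rw [Matrix.transpose_mul, Matrix.transpose_mul, Matrix.transpose_transpose,
        Matrix.diagonal_transpose, Matrix.mul_assoc]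
    rw [e1, hAU]
    have e2 : U * Matrix.diagonal μ * Uᵀ * (U * Matrix.diagonal lam * Uᵀ) *
        (U * Matrix.diagonal μ * Uᵀ) = U * (Matrix.diagonal μ * (Uᵀ * U) * Matrix.diagonal lam *
        (Uᵀ * U) * Matrix.diagonal μ) * Uᵀ := by
      simp only [Matrix.mul_assoc]
    rw [e2, hU2, Matrix.mul_one, Matrix.mul_one, Matrix.diagonal_mul_diagonal,
      Matrix.diagonal_mul_diagonal]
    have e3 : (fun i => μ i * lam i * μ i) = fun _ => 1 := by
      funext i
      have h0 : 0 < Real.sqrt (lam i) := Real.sqrt_pos.mpr (hlam i)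
      have h1 : lam i = Real.sqrt (lam i) * Real.sqrt (lam i) :=
        (Real.mul_self_sqrt (hlam i).le).symm
      simp only [hμ]
      nth_rw 2 [h1]
      field_simp
    rw [e3, Matrix.diagonal_one, Matrix.mul_one, hU1]
  · intro hsmall j k
    set N := ∑ j, ∑ k, |(A - 1) j k| with hN
    have hlam1 : ∀ i, |lam i - 1| ≤ N := by
      intro i
      have e1 : Uᵀ * (A - 1) * U = Matrix.diagonal lam - 1 := by
        rw [hAU, Matrix.mul_sub, Matrix.sub_mul, Matrix.mul_one, hU2]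
        have : Uᵀ * (U * Matrix.diagonal lam * Uᵀ) * U =
            (Uᵀ * U) * Matrix.diagonal lam * (Uᵀ * U) := by simp only [Matrix.mul_assoc]
        rw [this, hU2, Matrix.one_mul, Matrix.mul_one]
      have e2 : lam i - 1 = ∑ k, (∑ j, U j i * (A - 1) j k) * U k i := by
        have := congrFun (congrFun e1 i) i
        simp only [Matrix.mul_apply, Matrix.transpose_apply, Matrix.sub_apply,
          Matrix.diagonal_apply_eq, Matrix.one_apply_eq] at this
        simp only [Matrix.sub_apply]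
        exact this.symm
      rw [e2, hN, Finset.sum_comm]
      refine (Finset.abs_sum_le_sum_abs _ _).trans (Finset.sum_le_sum fun k _ => ?_)
      rw [abs_mul]
      calc |∑ j, U j i * (A - 1) j k| * |U k i| ≤ (∑ j, |(A - 1) j k|) * 1 := by
            apply mul_le_mul _ (hUle k i) (abs_nonneg _)
              (Finset.sum_nonneg fun _ _ => abs_nonneg _)
            refine (Finset.abs_sum_le_sum_abs _ _).trans (Finset.sum_le_sum fun j _ => ?_)
            rw [abs_mul]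
            exact mul_le_of_le_one_left (abs_nonneg _) (hUle j i)
        _ = ∑ j, |(A - 1) j k| := mul_one _
    have hμ1 : ∀ i, |μ i - 1| ≤ 2 * N := by
      intro i
      have h1 := abs_le.mp (hlam1 i)
      have h2 : (1 : ℝ) / 2 ≤ lam i := by linarith [h1.1]
      set s := Real.sqrt (lam i) with hs
      have hs0 : 0 < s := Real.sqrt_pos.mpr (hlam i)
      have hss : s * s = lam i := Real.mul_self_sqrt (hlam i).le
      have hs1 : (1 : ℝ) / 2 ≤ s := by nlinarith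
      have e : μ i - 1 = (1 - s) / s := by simp only [hμ]; rw [← hs]; field_simp
      rw [e, abs_div, abs_of_pos hs0, div_le_iff₀ hs0]
      have h3 : |1 - s| * (1 + s) = |lam i - 1| := by
        rw [← abs_of_pos (show (0 : ℝ) < 1 + s by linarith), ← abs_mul, abs_sub_comm (lam i)]
        congr 1
        rw [← hss]; ring
      have h4 : |1 - s| ≤ |lam i - 1| := by
        rw [← h3]
        exact le_mul_of_one_le_right (abs_nonneg _) (by linarith)
      have h5 := hlam1 i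
      nlinarith [abs_nonneg (lam i - 1)]
    have e1 : U * Matrix.diagonal μ * Uᵀ - 1 = U * Matrix.diagonal (fun i => μ i - 1) * Uᵀ := by
      have : Matrix.diagonal (fun i => μ i - 1) = Matrix.diagonal μ - (1 : Mt n) := by
        rw [← Matrix.diagonal_one, Matrix.diagonal_sub]
      rw [this, Matrix.mul_sub, Matrix.sub_mul, Matrix.mul_one, hU1]
    rw [e1]
    have e2 : (U * Matrix.diagonal (fun i => μ i - 1) * Uᵀ) j k =
        ∑ i, U j i * (μ i - 1) * U k i := by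
      rw [Matrix.mul_apply]
      refine Finset.sum_congr rfl fun i _ => ?_
      rw [Matrix.mul_diagonal]; rfl
    rw [e2]
    calc |∑ i, U j i * (μ i - 1) * U k i| ≤ ∑ i, |U j i * (μ i - 1) * U k i| :=
          Finset.abs_sum_le_sum_abs _ _
      _ ≤ ∑ _i : Fin n, 2 * N := by
          apply Finset.sum_le_sum
          intro i _
          rw [abs_mul, abs_mul]
          calc |U j i| * |μ i - 1| * |U k i| ≤ 1 * |μ i - 1| * 1 := by
                apply mul_le_mul _ (hUle k i) (abs_nonneg _) (by positivity)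
                exact mul_le_mul_of_nonneg_right (hUle j i) (abs_nonneg _)
            _ ≤ 2 * N := by rw [one_mul, mul_one]; exact hμ1 i
      _ = n * (2 * N) := by simp

theorem root_exists (n : ℕ) : ∃ r : Mt n → Mt n, (∀ A, A.PosDef → (r A)ᵀ * A * r A = 1) ∧
    Tendsto r (𝓝[{A | A.PosDef}] 1) (𝓝 1) := by
  classical
  choose r hr1 hr2 using fun A : {A : Mt n // A.PosDef} => root_aux A.1 A.2
  refine ⟨fun A => if h : A.PosDef then r ⟨A, h⟩ else 1, ?_, ?_⟩
  · intro A hA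
    simp only [hA, dif_pos]
    exact hr1 ⟨A, hA⟩
  · have hN : Tendsto (fun A : Mt n => ∑ j, ∑ k, |(A - 1) j k|) (𝓝[{A | A.PosDef}] 1) (𝓝 0) := by
      have hc : Continuous (fun A : Mt n => ∑ j, ∑ k, |(A - 1) j k|) := by
        refine continuous_finsetSum _ fun j _ => continuous_finsetSum _ fun k _ => ?_
        exact ((continuous_apply_apply j k).comp (continuous_id.sub continuous_const)).abs
      have h1 := hc.tendsto (1 : Mt n)
      simp only [sub_self, Matrix.zero_apply, abs_zero, Finset.sum_const_zero] at h1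
      exact h1.mono_left nhdsWithin_le_nhds
    have hsmall : ∀ᶠ A : Mt n in 𝓝[{A | A.PosDef}] 1, ∑ j, ∑ k, |(A - 1) j k| ≤ 1 / 2 :=
      (hN.eventually (gt_mem_nhds (show (0 : ℝ) < 1 / 2 by norm_num))).mono fun _ h => h.le
    refine tendsto_pi_nhds.mpr fun j => tendsto_pi_nhds.mpr fun k => ?_
    rw [tendsto_iff_norm_sub_tendsto_zero]
    refine squeeze_zero' (Eventually.of_forall fun _ => norm_nonneg _) ?_
      (show Tendsto (fun A : Mt n => (n : ℝ) * (2 * ∑ j, ∑ k, |(A - 1) j k|))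
        (𝓝[{A | A.PosDef}] 1) (𝓝 0) by
        have := (hN.const_mul 2).const_mul (n : ℝ)
        simpa using this)
    filter_upwards [hsmall, self_mem_nhdsWithin] with A h1 h2
    have h2' : A.PosDef := h2
    simp only [h2', dif_pos]
    exact hr2 ⟨A, h2'⟩ h1 j k


/-! ### continuity -/

theorem continuous_rot {n : ℕ} : Continuous (fun p : T4 n × Mt n => rot p.1 p.2) := by
  refine continuous_pi fun i => continuous_pi fun j => continuous_pi fun k =>
    continuous_pi fun l => ?_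
  unfold rot
  have h1 : ∀ a b : Fin n, Continuous (fun p : T4 n × Mt n => p.2 a b) := fun a b =>
    (continuous_apply_apply a b).comp continuous_snd
  have h2 : ∀ a b c d : Fin n, Continuous (fun p : T4 n × Mt n => p.1 a b c d) := by
    intro a b c d
    exact (continuous_apply d).comp ((continuous_apply c).comp ((continuous_apply b).comp
      ((continuous_apply a).comp continuous_fst)))
  refine continuous_finsetSum _ fun a _ => continuous_finsetSum _ fun b _ =>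
    continuous_finsetSum _ fun c _ => continuous_finsetSum _ fun d _ => ?_
  exact ((((h2 a b c d).mul (h1 a i)).mul (h1 b j)).mul (h1 c k)).mul (h1 d l)

theorem tendsto_rot {n : ℕ} {ι : Type} {l : Filter ι} {R : ι → T4 n} {F : ι → Mt n}
    {R0 : T4 n} {F0 : Mt n} (h1 : Tendsto R l (𝓝 R0)) (h2 : Tendsto F l (𝓝 F0)) :
    Tendsto (fun k => rot (R k) (F k)) l (𝓝 (rot R0 F0)) := by
  have h3 : Tendsto (fun k => (R k, F k)) l (𝓝 (R0, F0)) := h1.prodMk_nhds h2
  have h4 := continuous_rot (n := n)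
  have h5 := (h4.tendsto (R0, F0)).comp h3
  exact h5

theorem continuous_L {n : ℕ} {Θ : Type} [TopologicalSpace Θ] (L : Θ → T4 n →ₗ[ℝ] ℝ)
    (hL : ∀ R : T4 n, Continuous fun θ => L θ R) :
    Continuous (fun p : Θ × T4 n => L p.1 p.2) := by
  let b := Module.finBasis ℝ (T4 n)
  have e : (fun p : Θ × T4 n => L p.1 p.2) =
      fun p => ∑ i, b.repr p.2 i * L p.1 (b i) := by
    funext p
    nth_rw 1 [← b.sum_repr p.2]
    rw [map_sum]
    refine Finset.sum_congr rfl fun i _ => ?_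
    rw [map_smul, smul_eq_mul]
  rw [e]
  refine continuous_finsetSum _ fun i _ => ?_
  have h1 : Continuous (fun R : T4 n => b.repr R i) :=
    LinearMap.continuous_of_finiteDimensional (b.coord i)
  exact (h1.comp continuous_snd).mul ((hL (b i)).comp continuous_fst)

/-- the entries of a frame are bounded by the inverse of the metric -/
theorem frame_inv {n : ℕ} {G F : Mt n} (h : Fᵀ * G * F = 1) : G⁻¹ = F * Fᵀ := by
  have h1 : Fᵀ * (G * F) = 1 := by rw [← Matrix.mul_assoc]; exact h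
  have h2 : (G * F) * Fᵀ = 1 := mul_eq_one_comm.mp h1
  apply Matrix.inv_eq_right_inv
  rw [← Matrix.mul_assoc]; exact h2

theorem frame_bound {n : ℕ} {G F : Mt n} (h : Fᵀ * G * F = 1) (i j : Fin n) :
    F i j ^ 2 ≤ G⁻¹ i i := by
  rw [frame_inv h, Matrix.mul_apply]
  have : F i j ^ 2 = F i j * Fᵀ j i := by rw [Matrix.transpose_apply]; ring
  rw [this]
  exact Finset.single_le_sum (f := fun j => F i j * Fᵀ j i)
    (fun k _ => by rw [Matrix.transpose_apply]; exact mul_self_nonneg _) (Finset.mem_univ j)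

section
variable {n : ℕ} {M : Type} [TopologicalSpace M] [ChartedSpace (En n) M] [IsManifold (𝓡 n) ∞ M]

theorem det_ne (g : Metric n M) {e : OpenPartialHomeomorph M (En n)} (he : e ∈ atlas (En n) M)
    {y : Eu n} (hy : y ∈ ctarget e) : (g.G e y).det ≠ 0 := (g.posDef e he y hy).det_pos.ne'

theorem sm_G {T : ℝ} {g : ℝ → Metric n M} (hg : IsRicciFlow T g)
    {e : OpenPartialHomeomorph M (En n)} (he : e ∈ atlas (En n) M) (i j : Fin n) :
    Sm T (ctarget e) (fun t y => (g t).G e y i j) := hg.1 e he i j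

theorem tendsto_G {T : ℝ} {g : ℝ → Metric n M} (hg : IsRicciFlow T g)
    {e : OpenPartialHomeomorph M (En n)} (he : e ∈ atlas (En n) M) {ι : Type} {l : Filter ι}
    {t : ι → ℝ} {y : ι → Eu n} {t0 : ℝ} {y0 : Eu n} (ht0 : t0 ∈ Ico 0 T) (hy0 : y0 ∈ ctarget e)
    (ht : ∀ᶠ k in l, t k ∈ Ico 0 T) (hy : ∀ᶠ k in l, y k ∈ ctarget e)
    (h1 : Tendsto t l (𝓝 t0)) (h2 : Tendsto y l (𝓝 y0)) :
    Tendsto (fun k => (g (t k)).G e (y k)) l (𝓝 ((g t0).G e y0)) ∧
    (∀ a b, Tendsto (fun k => ((g (t k)).G e (y k))⁻¹ a b) l (𝓝 (((g t0).G e y0)⁻¹ a b))) ∧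
    Tendsto (fun k => Rc ((g (t k)).G e) (y k)) l (𝓝 (Rc ((g t0).G e) y0)) := by
  have hU := isOpen_ctarget e
  have hG := sm_G hg he
  have hd : ∀ t ∈ Ico 0 T, ∀ y ∈ ctarget e, ((g t).G e y).det ≠ 0 := fun t _ y hy =>
    det_ne (g t) he hy
  have hin : Tendsto (fun k => (t k, y k)) l (𝓝[Ico 0 T ×ˢ ctarget e] (t0, y0)) := by
    rw [tendsto_nhdsWithin_iff]
    refine ⟨h1.prodMk_nhds h2, ?_⟩
    filter_upwards [ht, hy] with k a b
    exact ⟨a, b⟩
  have key : ∀ f : ℝ → Eu n → ℝ, Sm T (ctarget e) f →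
      Tendsto (fun k => f (t k) (y k)) l (𝓝 (f t0 y0)) := by
    intro f hf
    have hc : ContinuousWithinAt (fun p : ℝ × Eu n => f p.1 p.2) (Ico 0 T ×ˢ ctarget e) (t0, y0) :=
      (ContDiffOn.continuousOn hf) (t0, y0) ⟨ht0, hy0⟩
    exact hc.tendsto.comp hin
  refine ⟨?_, fun a b => key _ (Sm.inv hG hd a b), ?_⟩
  · exact tendsto_pi_nhds.mpr fun i => tendsto_pi_nhds.mpr fun j => key _ (hG i j)
  · exact tendsto_pi_nhds.mpr fun i => tendsto_pi_nhds.mpr fun j =>
      tendsto_pi_nhds.mpr fun a => tendsto_pi_nhds.mpr fun b => key _ (Sm.rc hU hG hd i j a b)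

theorem closure_lemma [CompactSpace M] {T : ℝ} {g : ℝ → Metric n M} (hg : IsRicciFlow T g)
    {ι : Type} (𝒰 : Ultrafilter ι) (t : ι → ℝ) (t0 : ℝ) (ht0 : t0 ∈ Ico 0 T)
    (htD : ∀ k, t k ∈ Ico 0 T) (ht : Tendsto t 𝒰 (𝓝 t0))
    (e : ι → OpenPartialHomeomorph M (En n)) (he : ∀ k, e k ∈ atlas (En n) M) (y : ι → Eu n)
    (hy : ∀ k, y k ∈ ctarget (e k)) (F : ι → Mt n)
    (hF : ∀ k, (F k)ᵀ * (g (t k)).G (e k) (y k) * F k = 1) :
    ∃ e0 ∈ atlas (En n) M, ∃ y0 ∈ ctarget e0, ∃ F0 : Mt n,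
      F0ᵀ * (g t0).G e0 y0 * F0 = 1 ∧
      Tendsto (fun k => rot (Rc ((g (t k)).G (e k)) (y k)) (F k)) 𝒰
        (𝓝 (rot (Rc ((g t0).G e0) y0) F0)) := by
  -- the limit point
  obtain ⟨x0, -, hx0⟩ := isCompact_univ.ultrafilter_le_nhds
    (𝒰.map fun k => (e k).symm (WithLp.toLp 2 (y k))) (by simp)
  have hx : Tendsto (fun k => (e k).symm (WithLp.toLp 2 (y k))) 𝒰 (𝓝 x0) := hx0
  set e0 := chartAt (En n) x0 with he0
  have he0m : e0 ∈ atlas (En n) M := chart_mem_atlas _ _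
  have hx0s : x0 ∈ e0.source := mem_chart_source _ _
  set y0 : Eu n := WithLp.ofLp (e0 x0) with hy0
  have hy0m : y0 ∈ ctarget e0 := by
    show WithLp.toLp 2 (WithLp.ofLp (e0 x0)) ∈ e0.target
    rw [WithLp.toLp_ofLp]
    exact e0.map_source hx0s
  have hev : ∀ᶠ k in (𝒰 : Filter ι), y k ∈ cdm (e k) e0 := by
    filter_upwards [hx.eventually (e0.open_source.mem_nhds hx0s)] with k hk
    exact ⟨hy k, hk⟩
  set y' : ι → Eu n := fun k => ctrn (e k) e0 (y k) with hy'
  have hy'l : Tendsto y' 𝒰 (𝓝 y0) := by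
    have h1 : Tendsto (fun k => e0 ((e k).symm (WithLp.toLp 2 (y k)))) 𝒰 (𝓝 (e0 x0)) :=
      (e0.continuousAt hx0s).tendsto.comp hx
    exact ((PiLp.continuous_ofLp 2 _).tendsto _).comp h1
  have hy'm : ∀ᶠ k in (𝒰 : Filter ι), y' k ∈ ctarget e0 := hev.mono fun k hk => ctrn_mem hk
  obtain ⟨lG, lI, lR⟩ := tendsto_G hg he0m ht0 hy0m (Eventually.of_forall htD) hy'm ht hy'l
  set F' : ι → Mt n := fun k => Jac (ctrn (e k) e0) (y k) * F k with hF'
  have hfr : ∀ᶠ k in (𝒰 : Filter ι), (F' k)ᵀ * (g (t k)).G e0 (y' k) * F' k = 1 ∧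
      rot (Rc ((g (t k)).G (e k)) (y k)) (F k) = rot (Rc ((g (t k)).G e0) (y' k)) (F' k) := by
    filter_upwards [hev] with k hk
    obtain ⟨c1, c2⟩ := rc_change (g (t k)) (he k) he0m hk
    constructor
    · rw [← hF k, c1]
      simp only [hF', hy', Matrix.transpose_mul, Matrix.mul_assoc]
    · rw [c2, rot_rot]
  -- the limit of the frames
  have hlim : ∀ i j : Fin n, ∃ a : ℝ, Tendsto (fun k => F' k i j) 𝒰 (𝓝 a) := by
    intro i j
    have hb : ∀ᶠ k in (𝒰 : Filter ι), F' k i j ∈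
        Icc (-(((g t0).G e0 y0)⁻¹ i i + 2)) (((g t0).G e0 y0)⁻¹ i i + 2) := by
      filter_upwards [hfr, (lI i i).eventually (gt_mem_nhds
        (show ((g t0).G e0 y0)⁻¹ i i < ((g t0).G e0 y0)⁻¹ i i + 1 by linarith))] with k h1 h2
      have h3 := frame_bound h1.1 i j
      constructor <;> nlinarith [sq_nonneg (F' k i j - 1), sq_nonneg (F' k i j + 1)]
    obtain ⟨a, -, ha⟩ := (isCompact_Icc (a := -(((g t0).G e0 y0)⁻¹ i i + 2))
      (b := ((g t0).G e0 y0)⁻¹ i i + 2)).ultrafilter_le_nhds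
      (𝒰.map fun k => F' k i j) (by rw [le_principal_iff]; exact hb)
    exact ⟨a, ha⟩
  choose F00 hF00 using hlim
  obtain ⟨F0, hF0⟩ : ∃ F0 : Mt n, ∀ i j, Tendsto (fun k => F' k i j) 𝒰 (𝓝 (F0 i j)) :=
    ⟨F00, hF00⟩
  have hF0l : Tendsto F' 𝒰 (𝓝 F0) :=
    tendsto_pi_nhds.mpr fun i => tendsto_pi_nhds.mpr fun j => hF0 i j
  refine ⟨e0, he0m, y0, hy0m, F0, ?_, ?_⟩
  · have hT : Tendsto (fun k => (F' k)ᵀ) 𝒰 (𝓝 F0ᵀ) :=
      (Continuous.matrix_transpose continuous_id).continuousAt.tendsto.comp hF0l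
    have h1 : Tendsto (fun k => (F' k)ᵀ * (g (t k)).G e0 (y' k) * F' k) 𝒰
        (𝓝 (F0ᵀ * (g t0).G e0 y0 * F0)) := (hT.mul lG).mul hF0l
    have h2 : Tendsto (fun k => (F' k)ᵀ * (g (t k)).G e0 (y' k) * F' k) 𝒰 (𝓝 1) :=
      tendsto_const_nhds.congr' (hfr.mono fun k hk => hk.1.symm)
    exact tendsto_nhds_unique h1 h2
  · have h1 : Tendsto (fun k => rot (Rc ((g (t k)).G e0) (y' k)) (F' k)) 𝒰
        (𝓝 (rot (Rc ((g t0).G e0) y0) F0)) := tendsto_rot lR hF0l
    exact h1.congr' (hfr.mono fun k hk => hk.2.symm)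

end

end MaxP


end Pool.Agent.Helper696_RF
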