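import Mathlib
import Pool.Agent.Helper696_RF.Defs
import Pool.Agent.Helper696_RF.Loc
import Pool.Agent.Helper696_RF.G
import Pool.Agent.Helper696_RF.H0

set_option autoImplicit false
open scoped ContDiff Manifold Topology Matrix
open Set Filter

namespace Pool.Agent.Helper696_RF

open Pool.Agent.QTot Pool.Agent.H858R2

/-! ## TARGET H (the maximum principle on a closed manifold).
Proof. Put `Ψ(t,e,y,F,θ) = L θ (rot (Rc ((g t).G e) y) F) + H θ t`. Cover the compact `M` by finitely many chart pieces: charts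
`e_j` of the atlas and compact sets `K_j ⊆ ctarget e_j` whose images cover `M`. For each `j` the set
`{(t,y,F,θ) : t ∈ [0,t1], y ∈ K_j, Fᵀ (g t).G e_j y F = 1}` is compact (closed; `F` bounded since `G` is bounded below on the
compact `[0,t1] × K_j`) and `Ψ` is continuous on it (the components of `Rc` are continuous in `(t,y)` on `[0,T) × ctarget e`, up to
`t = 0`: `ContDiffOn` on `Ico 0 T ×ˢ ctarget e`, a set with unique differentiability; the space derivatives `pd` at time `t` are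
components of the derivative within it). `Ψ` does not depend on the chart: if `e, e'` both contain the point then with
`J = Jac (ctrn e e') y` a frame `F` in `e` corresponds to `J * F` in `e'` (`Metric.compat`, `rm_pull`). Suppose the conclusion fails.
The set of `t ∈ [0,t1]` for which there is a point and a frame with `Ψ ≤ 0` is non-empty and closed (projection of compact sets); let
`t0` be its minimum; `t0 > 0` by `hinit`. For `t < t0` all `Ψ > 0`; hence at `t0` all `Ψ ≥ 0` (a frame at `(t0,y)` is a limit of frames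
`F S_t` at `(t,y)`, `S_t = (Fᵀ G_t F)^{-1/2} → 1`), and `Ψ = 0` at some `(t0,e,y,E,θ)`. By `hode` there
`0 < L θ (QQ ..) + H' θ t0`; but `ptl` applied at this point (in the chart `e`, `0 < t0 < T`, so `(g t).G e` is a `LocFlow` there)
gives `≤ 0`. Contradiction. -/
theorem maxp {n : ℕ} {M : Type} [TopologicalSpace M] [ChartedSpace (En n) M]
    [IsManifold (𝓡 n) ∞ M] [CompactSpace M]
    {T : ℝ} {g : ℝ → Metric n M} (hg : IsRicciFlow T g) {t1 : ℝ} (ht1 : t1 < T)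
    {Θ : Type} [TopologicalSpace Θ] [CompactSpace Θ] (L : Θ → T4 n →ₗ[ℝ] ℝ)
    (hL : ∀ R : T4 n, Continuous fun θ => L θ R) (H H' : Θ → ℝ → ℝ)
    (hH : Continuous fun q : Θ × ℝ => H q.1 q.2) (hH' : ∀ θ t, HasDerivAt (H θ) (H' θ t) t)
    (hinit : ∀ e ∈ atlas (En n) M, ∀ y ∈ ctarget e, ∀ F : Mt n, Fᵀ * (g 0).G e y * F = 1 →
      ∀ θ, 0 < L θ (rot (Rc ((g 0).G e) y) F) + H θ 0)
    (hode : ∀ t ∈ Ioc 0 t1, ∀ e ∈ atlas (En n) M, ∀ y ∈ ctarget e,
      (∀ F : Mt n, Fᵀ * (g t).G e y * F = 1 → ∀ θ, 0 ≤ L θ (rot (Rc ((g t).G e) y) F) + H θ t) →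
      ∀ E : Mt n, Eᵀ * (g t).G e y * E = 1 → ∀ θ, L θ (rot (Rc ((g t).G e) y) E) + H θ t = 0 →
        0 < L θ (QQ (rot (Rc ((g t).G e) y) E)) + H' θ t) :
    ∀ t ∈ Icc 0 t1, ∀ e ∈ atlas (En n) M, ∀ y ∈ ctarget e, ∀ F : Mt n,
      Fᵀ * (g t).G e y * F = 1 → ∀ θ, 0 < L θ (rot (Rc ((g t).G e) y) F) + H θ t := by
  classical
  by_contra hcon
  push Not at hcon
  obtain ⟨t', ht', e', he', y', hy', F', hF', θ', hΨ'⟩ := hcon
  let S : Set ℝ := {t | t ∈ Icc 0 t1 ∧ ∃ e ∈ atlas (En n) M, ∃ y ∈ ctarget e, ∃ F : Mt n,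
    Fᵀ * (g t).G e y * F = 1 ∧ ∃ θ, L θ (rot (Rc ((g t).G e) y) F) + H θ t ≤ 0}
  have hSne : S.Nonempty := ⟨t', ht', e', he', y', hy', F', hF', θ', hΨ'⟩
  have hSb : BddBelow S := ⟨0, fun t ht => ht.1.1⟩
  set t0 := sInf S with ht0def
  have ht00 : 0 ≤ t0 := le_csInf hSne fun t ht => ht.1.1
  have ht01 : t0 ≤ t1 := (csInf_le hSb ⟨ht', e', he', y', hy', F', hF', θ', hΨ'⟩).trans ht'.2
  have ht0T : t0 ∈ Ico 0 T := ⟨ht00, lt_of_le_of_lt ht01 ht1⟩
  have hLc := MaxP.continuous_L L hL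
  -- before `t0` everything is positive
  have hbefore : ∀ t, 0 ≤ t → t < t0 → ∀ e ∈ atlas (En n) M, ∀ y ∈ ctarget e, ∀ F : Mt n,
      Fᵀ * (g t).G e y * F = 1 → ∀ θ, 0 < L θ (rot (Rc ((g t).G e) y) F) + H θ t := by
    intro t h0 hlt e he y hy F hF θ
    by_contra hneg
    push Not at hneg
    have : t ∈ S := ⟨⟨h0, hlt.le.trans ht01⟩, e, he, y, hy, F, hF, θ, hneg⟩
    exact absurd (csInf_le hSb this) (not_le.mpr hlt)
  -- `t0` is in `S`
  have ht0S : ∃ e ∈ atlas (En n) M, ∃ y ∈ ctarget e, ∃ F : Mt n,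
      Fᵀ * (g t0).G e y * F = 1 ∧ ∃ θ, L θ (rot (Rc ((g t0).G e) y) F) + H θ t0 ≤ 0 := by
    obtain ⟨u, -, hu, huS⟩ := exists_seq_tendsto_sInf hSne hSb
    choose hu1 e he y hy F hF θ hθ using huS
    let 𝒰 : Ultrafilter ℕ := hyperfilter ℕ
    have hle : (𝒰 : Filter ℕ) ≤ atTop := Nat.hyperfilter_le_atTop
    have hu' : Tendsto u 𝒰 (𝓝 t0) := hu.mono_left hle
    obtain ⟨e0, he0, y0, hy0, F0, hF0, hlim⟩ := MaxP.closure_lemma hg 𝒰 u t0 ht0T
      (fun k => ⟨(hu1 k).1, lt_of_le_of_lt (hu1 k).2 ht1⟩) hu' e he y hy F hF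
    obtain ⟨θ0, -, hθ0⟩ := isCompact_univ.ultrafilter_le_nhds (𝒰.map θ) (by simp)
    have hθ0' : Tendsto θ 𝒰 (𝓝 θ0) := hθ0
    refine ⟨e0, he0, y0, hy0, F0, hF0, θ0, ?_⟩
    have h1 : Tendsto (fun k => L (θ k) (rot (Rc ((g (u k)).G (e k)) (y k)) (F k)) +
        H (θ k) (u k)) 𝒰 (𝓝 (L θ0 (rot (Rc ((g t0).G e0) y0) F0) + H θ0 t0)) := by
      refine Tendsto.add ?_ ?_
      · exact (hLc.tendsto (θ0, rot (Rc ((g t0).G e0) y0) F0)).comp (hθ0'.prodMk_nhds hlim)
      · exact (hH.tendsto (θ0, t0)).comp (hθ0'.prodMk_nhds hu')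
    exact le_of_tendsto' h1 hθ
  -- `0 < t0`
  have ht0pos : 0 < t0 := by
    rcases ht00.lt_or_eq with h | h
    · exact h
    · exfalso
      obtain ⟨e, he, y, hy, F, hF, θ, hθ⟩ := ht0S
      rw [← h] at hF hθ
      exact absurd hθ (not_le.mpr (hinit e he y hy F hF θ))
  -- at `t0` everything is nonnegative
  obtain ⟨r, hr1, hr2⟩ := MaxP.root_exists n
  have hnonneg : ∀ e ∈ atlas (En n) M, ∀ y ∈ ctarget e, ∀ F : Mt n,
      Fᵀ * (g t0).G e y * F = 1 → ∀ θ, 0 ≤ L θ (rot (Rc ((g t0).G e) y) F) + H θ t0 := by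
    intro e he y hy F hF θ
    have hIoo : ∀ᶠ t in 𝓝[<] t0, t ∈ Ioo 0 t0 := Ioo_mem_nhdsLT ht0pos
    have htD : ∀ᶠ t in 𝓝[<] t0, t ∈ Ico 0 T := hIoo.mono fun t ht =>
      ⟨ht.1.le, ht.2.trans ht0T.2⟩
    obtain ⟨lG, -, lR⟩ := MaxP.tendsto_G (l := 𝓝[<] t0) (t := fun t => t) (y := fun _ => y) hg he
      ht0T hy htD (Eventually.of_forall fun _ => hy)
      (tendsto_id.mono_left nhdsWithin_le_nhds) tendsto_const_nhds
    have hdetF : F.det ≠ 0 := by
      intro h0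
      have h1 := congrArg Matrix.det hF
      rw [Matrix.det_mul, h0, mul_zero, Matrix.det_one] at h1
      exact zero_ne_one h1
    have hpos : ∀ t, (Fᵀ * (g t).G e y * F).PosDef := by
      intro t
      have h1 := (g t).posDef e he y hy
      have h2 := h1.conjTranspose_mul_mul_same (B := F) (by
        apply Matrix.mulVec_injective_of_isUnit
        rw [Matrix.isUnit_iff_isUnit_det]
        exact isUnit_iff_ne_zero.mpr hdetF)
      rwa [Matrix.conjTranspose_eq_transpose_of_trivial] at h2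
    have lA : Tendsto (fun t => Fᵀ * (g t).G e y * F) (𝓝[<] t0) (𝓝 1) := by
      rw [← hF]
      exact (tendsto_const_nhds.mul lG).mul tendsto_const_nhds
    have lA' : Tendsto (fun t => Fᵀ * (g t).G e y * F) (𝓝[<] t0)
        (𝓝[{A : Mt n | A.PosDef}] 1) := by
      rw [tendsto_nhdsWithin_iff]
      exact ⟨lA, Eventually.of_forall fun t => hpos t⟩
    have lr : Tendsto (fun t => F * r (Fᵀ * (g t).G e y * F)) (𝓝[<] t0) (𝓝 F) := by
      have := (tendsto_const_nhds (x := F)).mul (hr2.comp lA')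
      rwa [mul_one] at this
    have hfr : ∀ t, (F * r (Fᵀ * (g t).G e y * F))ᵀ * (g t).G e y *
        (F * r (Fᵀ * (g t).G e y * F)) = 1 := by
      intro t
      have := hr1 _ (hpos t)
      rw [← this]
      simp only [Matrix.transpose_mul, Matrix.mul_assoc]
    have lim : Tendsto (fun t => L θ (rot (Rc ((g t).G e) y) (F * r (Fᵀ * (g t).G e y * F))) +
        H θ t) (𝓝[<] t0) (𝓝 (L θ (rot (Rc ((g t0).G e) y) F) + H θ t0)) := by
      refine Tendsto.add ?_ ?_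
      · have k1 : Tendsto (fun t => rot (Rc ((g t).G e) y) (F * r (Fᵀ * (g t).G e y * F)))
            (𝓝[<] t0) (𝓝 (rot (Rc ((g t0).G e) y) F)) := MaxP.tendsto_rot lR lr
        have k2 : Continuous (fun R : T4 n => L θ R) :=
          LinearMap.continuous_of_finiteDimensional (L θ)
        exact (k2.tendsto _).comp k1
      · exact ((hH' θ t0).continuousAt.tendsto).mono_left nhdsWithin_le_nhds
    refine ge_of_tendsto lim ?_
    filter_upwards [hIoo] with t ht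
    exact (hbefore t ht.1.le ht.2 e he y hy _ (hfr t) θ).le
  -- the contradiction
  obtain ⟨e, he, y, hy, E, hE, θ, hθ⟩ := ht0S
  have hz : L θ (rot (Rc ((g t0).G e) y) E) + H θ t0 = 0 :=
    le_antisymm hθ (hnonneg e he y hy E hE θ)
  have h1 := hode t0 ⟨ht0pos, ht01⟩ e he y hy (fun F hF θ => hnonneg e he y hy F hF θ) E hE θ hz
  have hopen : Ioo 0 T ×ˢ ctarget e ∈ 𝓝 (t0, y) :=
    (isOpen_Ioo.prod (MaxP.isOpen_ctarget e)).mem_nhds ⟨⟨ht0pos, ht0T.2⟩, hy⟩
  have hloc : LocFlow (fun t => (g t).G e) t0 y := by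
    refine ⟨?_, ?_, ?_, ?_⟩
    · filter_upwards [hopen] with p hp i j
      have hn : Ico 0 T ×ˢ ctarget e ∈ 𝓝 p := by
        have : Ioo 0 T ×ˢ ctarget e ∈ 𝓝 p :=
          (isOpen_Ioo.prod (MaxP.isOpen_ctarget e)).mem_nhds hp
        exact mem_of_superset this (prod_mono Ioo_subset_Ico_self le_rfl)
      exact (hg.1 e he i j).contDiffAt hn
    · filter_upwards [hopen] with p hp
      exact MaxP.isSymm_of_posDef ((g p.1).posDef e he p.2 hp.2)
    · filter_upwards [hopen] with p hp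
      exact (g p.1).posDef e he p.2 hp.2
    · filter_upwards [hopen] with p hp i j
      exact (hg.2 e he p.2 hp.2 p.1 ⟨hp.1.1.le, hp.1.2⟩ i j).hasDerivAt
        (Ico_mem_nhds hp.1.1 hp.1.2)
  have h2 := ptl hloc (L θ) E hE (H θ) (H' θ t0) (hH' θ t0) (by
    filter_upwards [hopen] with p hp hle F hF
    rcases hle.lt_or_eq with h | h
    · exact (hbefore p.1 hp.1.1.le h e he p.2 hp.2 F hF θ).le
    · have hF2 : Fᵀ * (g t0).G e p.2 * F = 1 := by rw [← h]; exact hF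
      have := hnonneg e he p.2 hp.2 F hF2 θ
      rw [← h] at this
      exact this) hz
  exact absurd h1 (not_lt.mpr h2)

end Pool.Agent.Helper696_RF
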