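import Mathlib
import Pool.Agent.Helper696_RF.Defs

set_option autoImplicit false
open scoped ContDiff Manifold Topology Matrix
open Set Filter

namespace Pool.Agent.Helper696_RF

open Pool.Agent.QTot Pool.Agent.H858R2

/-! ### Part A: algebra of `rot` -/

theorem I_prod4 {n : ℕ} (A B C D : Fin n → ℝ) : ∑ x, ∑ y, ∑ z, ∑ w, A x * (B y * (C z * D w)) =
    (∑ x, A x) * ((∑ y, B y) * ((∑ z, C z) * (∑ w, D w))) := by
  simp only [← Finset.mul_sum, ← Finset.sum_mul]

theorem I_rot_rot {n : ℕ} (R : T4 n) (J P : Mt n) : rot (rot R J) P = rot R (J * P) := by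
  funext i j k l
  have h1 : ∀ (R : T4 n) (F : Mt n) (i j k l : Fin n), rot R F i j k l =
      ∑ q : Fin n × Fin n × Fin n × Fin n, R q.1 q.2.1 q.2.2.1 q.2.2.2 *
        (F q.1 i * F q.2.1 j * F q.2.2.1 k * F q.2.2.2 l) := by
    intro R F i j k l
    simp only [rot, Fintype.sum_prod_type]
    refine Finset.sum_congr rfl fun a _ => Finset.sum_congr rfl fun b _ =>
      Finset.sum_congr rfl fun c _ => Finset.sum_congr rfl fun d _ => ?_
    ring
  rw [h1, h1]
  simp only [h1, Finset.sum_mul]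
  rw [Finset.sum_comm]
  refine Finset.sum_congr rfl fun r _ => ?_
  simp only [mul_assoc (R _ _ _ _)]
  rw [← Finset.mul_sum]
  congr 1
  simp only [Matrix.mul_apply, Fintype.sum_prod_type]
  have h3 := I_prod4 (fun x => J r.1 x * P x i) (fun x => J r.2.1 x * P x j)
    (fun x => J r.2.2.1 x * P x k) (fun x => J r.2.2.2 x * P x l)
  calc _ = _ := Finset.sum_congr rfl fun a _ => Finset.sum_congr rfl fun b _ =>
      Finset.sum_congr rfl fun c _ => Finset.sum_congr rfl fun d _ => by ring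
    _ = _ := h3
    _ = _ := by ring

theorem I_rot_smul_left {n : ℕ} (c : ℝ) (R : T4 n) (F : Mt n) :
    rot (fun i j k l => c * R i j k l) F = fun i j k l => c * rot R F i j k l := by
  funext i j k l
  simp only [rot, Finset.mul_sum]
  refine Finset.sum_congr rfl fun a _ => Finset.sum_congr rfl fun b _ =>
    Finset.sum_congr rfl fun e _ => Finset.sum_congr rfl fun d _ => ?_
  ring

theorem I_rot_smul {n : ℕ} (c : ℝ) (R : T4 n) (F : Mt n) :
    rot R (c • F) = fun i j k l => c ^ 4 * rot R F i j k l := by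
  funext i j k l
  simp only [rot, Finset.mul_sum, Matrix.smul_apply, smul_eq_mul]
  refine Finset.sum_congr rfl fun a _ => Finset.sum_congr rfl fun b _ =>
    Finset.sum_congr rfl fun e _ => Finset.sum_congr rfl fun d _ => ?_
  ring

/-- the quadratic form of a rotated tensor -/
theorem I_quad_rot {n : ℕ} (R : T4 n) (P φ : Mt n) :
    ∑ i, ∑ j, ∑ k, ∑ l, rot R P i j k l * φ i j * φ k l =
      ∑ a, ∑ b, ∑ c, ∑ d, R a b c d * (P * φ * Pᵀ) a b * (P * φ * Pᵀ) c d := by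
  have hM : ∀ a b, (P * φ * Pᵀ) a b = ∑ i, ∑ j, P a i * P b j * φ i j := by
    intro a b
    simp only [Matrix.mul_apply, Matrix.transpose_apply, Finset.sum_mul]
    rw [Finset.sum_comm]
    refine Finset.sum_congr rfl fun i _ => Finset.sum_congr rfl fun j _ => ?_
    ring
  have hM2 : ∀ a b c d, (P * φ * Pᵀ) a b * (P * φ * Pᵀ) c d =
      ∑ q : Fin n × Fin n × Fin n × Fin n,
        P a q.1 * P b q.2.1 * P c q.2.2.1 * P d q.2.2.2 * φ q.1 q.2.1 * φ q.2.2.1 q.2.2.2 := by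
    intro a b c d
    rw [hM, hM]
    simp only [Fintype.sum_prod_type]
    rw [Finset.sum_mul]
    refine Finset.sum_congr rfl fun i _ => ?_
    rw [Finset.sum_mul]
    refine Finset.sum_congr rfl fun j _ => ?_
    rw [Finset.mul_sum]
    refine Finset.sum_congr rfl fun k _ => ?_
    rw [Finset.mul_sum]
    refine Finset.sum_congr rfl fun l _ => ?_
    ring
  have hL : ∑ i, ∑ j, ∑ k, ∑ l, rot R P i j k l * φ i j * φ k l =
      ∑ q : Fin n × Fin n × Fin n × Fin n, ∑ r : Fin n × Fin n × Fin n × Fin n,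
        R r.1 r.2.1 r.2.2.1 r.2.2.2 * (P r.1 q.1 * P r.2.1 q.2.1 * P r.2.2.1 q.2.2.1 *
          P r.2.2.2 q.2.2.2 * φ q.1 q.2.1 * φ q.2.2.1 q.2.2.2) := by
    simp only [Fintype.sum_prod_type, rot, Finset.sum_mul]
    refine Finset.sum_congr rfl fun i _ => Finset.sum_congr rfl fun j _ =>
      Finset.sum_congr rfl fun k _ => Finset.sum_congr rfl fun l _ =>
      Finset.sum_congr rfl fun i _ => Finset.sum_congr rfl fun j _ =>
      Finset.sum_congr rfl fun k _ => Finset.sum_congr rfl fun l _ => ?_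
    ring
  have hR : ∑ a, ∑ b, ∑ c, ∑ d, R a b c d * (P * φ * Pᵀ) a b * (P * φ * Pᵀ) c d =
      ∑ r : Fin n × Fin n × Fin n × Fin n, ∑ q : Fin n × Fin n × Fin n × Fin n,
        R r.1 r.2.1 r.2.2.1 r.2.2.2 * (P r.1 q.1 * P r.2.1 q.2.1 * P r.2.2.1 q.2.2.1 *
          P r.2.2.2 q.2.2.2 * φ q.1 q.2.1 * φ q.2.2.1 q.2.2.2) := by
    rw [Fintype.sum_prod_type]
    refine Finset.sum_congr rfl fun a _ => ?_
    rw [Fintype.sum_prod_type]
    refine Finset.sum_congr rfl fun b _ => ?_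
    rw [Fintype.sum_prod_type]
    refine Finset.sum_congr rfl fun c _ => Finset.sum_congr rfl fun d _ => ?_
    rw [mul_assoc, hM2, Finset.mul_sum]
  rw [hL, hR, Finset.sum_comm]

/-! ### Part B: pull back of the curvature tensor -/

theorem I_R4_pull {n : ℕ} {φ : Eu n → Eu n} {x₀ : Eu n} (hφ : ContDiffAt ℝ ∞ φ x₀)
    (hJ : (Jac φ x₀).det ≠ 0) {G : Eu n → Mt n}
    (hG : ∀ i j, ContDiffAt ℝ ∞ (fun x => G x i j) (φ x₀))
    (hs : ∀ᶠ x in 𝓝 (φ x₀), (G x).IsSymm) (hd : (G (φ x₀)).det ≠ 0) :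
    Rc (pull φ G) x₀ = rot (Rc G (φ x₀)) (Jac φ x₀) := by
  funext i j k l
  set J := Jac φ x₀ with hJd
  -- `R4 (pull φ G) i j l k`
  have h1 : Rc (pull φ G) x₀ i j k l = ∑ a, (pull φ G x₀) k a * N2.Rm (pull φ G) a l i j x₀ := rfl
  have h2 : ∀ a, (pull φ G x₀) k a = ∑ p, ∑ q, J p k * G (φ x₀) p q * J q a := by
    intro a
    simp only [pull, Matrix.mul_apply, Matrix.transpose_apply, Finset.sum_mul]
    rw [Finset.sum_comm]
  have h3 : Rc (pull φ G) x₀ i j k l = ∑ p, ∑ q, J p k * G (φ x₀) p q *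
      ∑ a, J q a * N2.Rm (pull φ G) a l i j x₀ := by
    rw [h1]
    simp only [h2, Finset.sum_mul, Finset.mul_sum]
    rw [Finset.sum_comm]
    refine Finset.sum_congr rfl fun p _ => ?_
    rw [Finset.sum_comm]
    refine Finset.sum_congr rfl fun q _ => Finset.sum_congr rfl fun a _ => ?_
    ring
  have h4 : ∀ q, ∑ a, J q a * N2.Rm (pull φ G) a l i j x₀ =
      ∑ b, ∑ c, ∑ d, N2.Rm G q b c d (φ x₀) * J b l * J c i * J d j := fun q =>
    N2.rm_pull hφ hJ hG hs hd q l i j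
  rw [h3]
  simp only [h4]
  have h5 : ∀ a b c d, Rc G (φ x₀) a b c d = ∑ q, G (φ x₀) c q * N2.Rm G q d a b (φ x₀) :=
    fun a b c d => rfl
  -- reorder
  have e1 : ∑ p, ∑ q, J p k * G (φ x₀) p q *
      ∑ b, ∑ c, ∑ d, N2.Rm G q b c d (φ x₀) * J b l * J c i * J d j =
      ∑ r : Fin n × Fin n × Fin n × Fin n × Fin n, J r.1 k * G (φ x₀) r.1 r.2.1 *
        (N2.Rm G r.2.1 r.2.2.1 r.2.2.2.1 r.2.2.2.2 (φ x₀) * J r.2.2.1 l * J r.2.2.2.1 i *
          J r.2.2.2.2 j) := by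
    simp only [Fintype.sum_prod_type, Finset.mul_sum]
  have e2 : rot (Rc G (φ x₀)) J i j k l =
      ∑ r : Fin n × Fin n × Fin n × Fin n × Fin n, J r.2.2.1 k * G (φ x₀) r.2.2.1 r.2.2.2.2 *
        (N2.Rm G r.2.2.2.2 r.2.2.2.1 r.1 r.2.1 (φ x₀) * J r.2.2.2.1 l * J r.1 i *
          J r.2.1 j) := by
    simp only [Fintype.sum_prod_type, rot, h5, Finset.sum_mul]
    refine Finset.sum_congr rfl fun i _ => Finset.sum_congr rfl fun j _ =>
      Finset.sum_congr rfl fun k _ => Finset.sum_congr rfl fun l _ =>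
      Finset.sum_congr rfl fun i _ => ?_
    ring
  rw [e1, e2]
  exact Fintype.sum_equiv
    ⟨fun r => (r.2.2.2.1, r.2.2.2.2, r.1, r.2.2.1, r.2.1),
     fun r => (r.2.2.1, r.2.2.2.2, r.2.2.2.1, r.1, r.2.1),
     fun r => rfl, fun r => rfl⟩ _ _ (fun r => rfl)

theorem I_Gam_congr {n : ℕ} {G H : Eu n → Mt n} {x : Eu n} (h : G =ᶠ[𝓝 x] H) (k i j : Fin n) :
    Gam G k i j =ᶠ[𝓝 x] Gam H k i j := by
  filter_upwards [h.eventuallyEq_nhds] with z hz
  unfold Gam
  rw [hz.self_of_nhds]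
  congr 1
  refine Finset.sum_congr rfl fun l _ => ?_
  have h1 : ∀ a b, (fun y => G y a b) =ᶠ[𝓝 z] fun y => H y a b := fun a b =>
    hz.mono fun y hy => by simp only [hy]
  rw [N2.pd_congr (h1 j l), N2.pd_congr (h1 i l), N2.pd_congr (h1 i j)]

theorem I_Rc_congr {n : ℕ} {G H : Eu n → Mt n} {x : Eu n} (h : G =ᶠ[𝓝 x] H) :
    Rc G x = Rc H x := by
  funext i j k l
  unfold Rc R4
  rw [h.self_of_nhds]
  refine Finset.sum_congr rfl fun a _ => ?_
  congr 1
  unfold N2.Rm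
  rw [N2.pd_congr (I_Gam_congr h a l j), N2.pd_congr (I_Gam_congr h a l i)]
  congr 1
  refine Finset.sum_congr rfl fun e _ => ?_
  rw [(I_Gam_congr h a i e).self_of_nhds, (I_Gam_congr h e l j).self_of_nhds,
    (I_Gam_congr h a j e).self_of_nhds, (I_Gam_congr h e l i).self_of_nhds]

theorem I_pd_const_mul {n : ℕ} (i : Fin n) (c : ℝ) (f : Eu n → ℝ) (x : Eu n) :
    pd i (fun y => c * f y) x = c * pd i f x := by
  unfold pd
  have : fderiv ℝ (fun y => c * f y) x = c • fderiv ℝ f x := by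
    have := congrFun (fderiv_const_smul_field (𝕜 := ℝ) (f := f) c) x
    simpa only [Pi.smul_def, smul_eq_mul] using this
  rw [this]
  rfl

theorem I_Gam_smul {n : ℕ} {c : ℝ} (hc : c ≠ 0) (G : Eu n → Mt n) (k i j : Fin n) :
    Gam (fun z => c • G z) k i j = Gam G k i j := by
  funext x
  unfold Gam
  have hinv : (c • G x)⁻¹ = c⁻¹ • (G x)⁻¹ := by
    have : IsUnit c := isUnit_iff_ne_zero.2 hc
    by_cases hd : IsUnit (G x).det
    · have : Invertible c := invertibleOfNonzero hc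
      rw [Matrix.inv_smul (G x) c hd]
      simp
    · rw [Matrix.nonsing_inv_apply_not_isUnit _ hd, Matrix.nonsing_inv_apply_not_isUnit _ ?_, smul_zero]
      rw [Matrix.det_smul]
      intro h
      exact hd (isUnit_of_mul_isUnit_right h)
  rw [hinv]
  congr 1
  refine Finset.sum_congr rfl fun l _ => ?_
  simp only [Matrix.smul_apply, smul_eq_mul]
  rw [I_pd_const_mul, I_pd_const_mul, I_pd_const_mul]
  field_simp

theorem I_Rc_smul {n : ℕ} {c : ℝ} (hc : c ≠ 0) (G : Eu n → Mt n) (x : Eu n) :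
    Rc (fun z => c • G z) x = fun i j k l => c * Rc G x i j k l := by
  funext i j k l
  unfold Rc R4
  rw [Finset.mul_sum]
  refine Finset.sum_congr rfl fun a _ => ?_
  have : N2.Rm (fun z => c • G z) a l i j x = N2.Rm G a l i j x := by
    unfold N2.Rm
    simp only [I_Gam_smul hc]
  rw [this]
  show (c * G x k a) * _ = _
  ring

/-! ### Part C: the pull-back of a metric near a point -/

section partC
variable {n : ℕ} {M : Type} [TopologicalSpace M] [ChartedSpace (En n) M]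
  {N : Type} [TopologicalSpace N] [ChartedSpace (En n) N]

omit [ChartedSpace (En n) M] in
theorem I_isOpen_ctarget (e : OpenPartialHomeomorph M (En n)) : IsOpen (ctarget e) :=
  e.open_target.preimage (PiLp.continuous_toLp 2 (fun _ : Fin n => ℝ))

/-- the map in coordinates -/
noncomputable def I_loc (ψ : N → M) (e : OpenPartialHomeomorph N (En n))
    (e' : OpenPartialHomeomorph M (En n)) (z : Eu n) : Eu n :=
  WithLp.ofLp (e' (ψ (e.symm (WithLp.toLp 2 z))))

theorem I_loc_smooth [IsManifold (𝓡 n) ∞ M] [IsManifold (𝓡 n) ∞ N] {ψ : N → M}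
    {e : OpenPartialHomeomorph N (En n)} (he : e ∈ atlas (En n) N)
    {e' : OpenPartialHomeomorph M (En n)} (he' : e' ∈ atlas (En n) M)
    {U : Set N} (hU : IsOpen U) (hψ : ContMDiffOn (𝓡 n) (𝓡 n) ∞ ψ U) {z : Eu n}
    (hz : z ∈ ctarget e) (hzU : e.symm (WithLp.toLp 2 z) ∈ U)
    (hz' : ψ (e.symm (WithLp.toLp 2 z)) ∈ e'.source) :
    ContDiffAt ℝ ∞ (I_loc ψ e e') z := by
  have h1 : ContMDiffAt (𝓡 n) (𝓡 n) ∞ e' (ψ (e.symm (WithLp.toLp 2 z))) :=
    contMDiffAt_of_mem_maximalAtlas (IsManifold.subset_maximalAtlas he') hz'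
  have h2 : ContMDiffAt (𝓡 n) (𝓡 n) ∞ ψ (e.symm (WithLp.toLp 2 z)) :=
    hψ.contMDiffAt (hU.mem_nhds hzU)
  have h3 : ContMDiffAt (𝓡 n) (𝓡 n) ∞ e.symm (WithLp.toLp 2 z) :=
    contMDiffAt_symm_of_mem_maximalAtlas (IsManifold.subset_maximalAtlas he) hz
  have h4 : ContMDiffAt (𝓡 n) (𝓡 n) ∞ (fun w : En n => e' (ψ (e.symm w))) (WithLp.toLp 2 z) :=
    h1.comp (WithLp.toLp 2 z) (h2.comp (WithLp.toLp 2 z) h3)
  have h5 : ContDiffAt ℝ ∞ (fun w : En n => e' (ψ (e.symm w))) (WithLp.toLp 2 z) :=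
    contMDiffAt_iff_contDiffAt.1 h4
  have h6 : ContDiffAt ℝ ∞ (fun z : Eu n => e' (ψ (e.symm (WithLp.toLp 2 z)))) z :=
    h5.comp z (PiLp.contDiff_toLp (p := 2)).contDiffAt
  exact (PiLp.contDiff_ofLp (p := 2)).contDiffAt.comp z h6

theorem I_Jac_comp {φ χ : Eu n → Eu n} {x : Eu n} (hφ : DifferentiableAt ℝ φ x)
    (hχ : DifferentiableAt ℝ χ (φ x)) : Jac (fun y => χ (φ y)) x = Jac χ (φ x) * Jac φ x := by
  ext a i
  rw [Matrix.mul_apply]
  show pd i (fun y => χ (φ y) a) x = _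
  have h : DifferentiableAt ℝ (fun y => χ y a) (φ x) := differentiableAt_pi.1 hχ a
  rw [N2.pd_comp' hφ h]
  rfl

theorem I_Jac_congr {φ χ : Eu n → Eu n} {x : Eu n} (h : φ =ᶠ[𝓝 x] χ) : Jac φ x = Jac χ x := by
  ext a i
  show pd i (fun y => φ y a) x = pd i (fun y => χ y a) x
  exact N2.pd_congr (h.mono fun y hy => by simp only [hy])

theorem I_pullG_eq [IsManifold (𝓡 n) ∞ M] [IsManifold (𝓡 n) ∞ N] (g : Metric n M) {ψ : N → M}
    {e : OpenPartialHomeomorph N (En n)} (he : e ∈ atlas (En n) N)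
    {e' : OpenPartialHomeomorph M (En n)} (he' : e' ∈ atlas (En n) M)
    {U : Set N} (hU : IsOpen U) (hψ : ContMDiffOn (𝓡 n) (𝓡 n) ∞ ψ U) {z : Eu n}
    (hz : z ∈ ctarget e) (hzU : e.symm (WithLp.toLp 2 z) ∈ U)
    (hz' : ψ (e.symm (WithLp.toLp 2 z)) ∈ e'.source) :
    pullG g ψ e z = pull (I_loc ψ e e') (g.G e') z := by
  set e'' := chartAt (En n) (ψ (e.symm (WithLp.toLp 2 z))) with he''
  have hm'' : e'' ∈ atlas (En n) M := chart_mem_atlas _ _
  have hz'' : ψ (e.symm (WithLp.toLp 2 z)) ∈ e''.source := mem_chart_source _ _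
  have h0 : pullG g ψ e z = pull (I_loc ψ e e'') (g.G e'') z := rfl
  rw [h0]
  have hs' := (I_loc_smooth he he' hU hψ hz hzU hz')
  have hs'' := (I_loc_smooth he hm'' hU hψ hz hzU hz'')
  -- continuity
  have hcψ : ContinuousAt ψ (e.symm (WithLp.toLp 2 z)) :=
    (hψ.contMDiffAt (hU.mem_nhds hzU)).continuousAt
  have hce : ContinuousAt (fun w : Eu n => e.symm (WithLp.toLp 2 w)) z :=
    (e.continuousAt_symm hz).comp (f := fun w : Eu n => (WithLp.toLp 2 w : En n))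
      (PiLp.continuous_toLp 2 (fun _ : Fin n => ℝ)).continuousAt
  have hc : ContinuousAt (fun w : Eu n => ψ (e.symm (WithLp.toLp 2 w))) z :=
    ContinuousAt.comp (g := ψ) hcψ hce
  have hnear : ∀ᶠ w in 𝓝 z, ψ (e.symm (WithLp.toLp 2 w)) ∈ e'.source :=
    hc (e'.open_source.mem_nhds hz')
  have hcomp : I_loc ψ e e'' =ᶠ[𝓝 z] fun w => ctrn e' e'' (I_loc ψ e e' w) := by
    filter_upwards [hnear] with w hw
    show WithLp.ofLp (e'' _) = WithLp.ofLp (e'' (e'.symm (WithLp.toLp 2 (WithLp.ofLp (e' _)))))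
    rw [WithLp.toLp_ofLp, e'.left_inv hw]
  have hct : I_loc ψ e e' z ∈ ctarget e' := by
    show WithLp.toLp 2 (WithLp.ofLp (e' _)) ∈ e'.target
    rw [WithLp.toLp_ofLp]
    exact e'.map_source hz'
  have hinv : e'.symm (WithLp.toLp 2 (I_loc ψ e e' z)) = ψ (e.symm (WithLp.toLp 2 z)) := by
    show e'.symm (WithLp.toLp 2 (WithLp.ofLp (e' _))) = _
    rw [WithLp.toLp_ofLp, e'.left_inv hz']
  have hcs : ContDiffAt ℝ ∞ (ctrn e' e'') (I_loc ψ e e' z) := by
    have := I_loc_smooth (ψ := (id : M → M)) he' hm'' isOpen_univ contMDiffOn_id hct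
      (mem_univ _) (by rw [id, hinv]; exact hz'')
    exact this
  have hJ : Jac (I_loc ψ e e'') z = Jac (ctrn e' e'') (I_loc ψ e e' z) * Jac (I_loc ψ e e') z := by
    rw [I_Jac_congr hcomp]
    exact I_Jac_comp (hs'.differentiableAt (by simp)) (hcs.differentiableAt (by simp))
  have hcompat := g.compat e' he' e'' hm'' (I_loc ψ e e' z) hct (by rw [hinv]; exact hz'')
  have hval : ctrn e' e'' (I_loc ψ e e' z) = I_loc ψ e e'' z := hcomp.self_of_nhds.symm
  unfold pull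
  rw [hcompat, hval, hJ, Matrix.transpose_mul]
  simp only [Matrix.mul_assoc]

theorem I_pullG_near [IsManifold (𝓡 n) ∞ M] [IsManifold (𝓡 n) ∞ N] (g : Metric n M) {ψ : N → M}
    {e : OpenPartialHomeomorph N (En n)} (he : e ∈ atlas (En n) N)
    {e' : OpenPartialHomeomorph M (En n)} (he' : e' ∈ atlas (En n) M)
    {U : Set N} (hU : IsOpen U) (hψ : ContMDiffOn (𝓡 n) (𝓡 n) ∞ ψ U) {z : Eu n}
    (hz : z ∈ ctarget e) (hzU : e.symm (WithLp.toLp 2 z) ∈ U)
    (hz' : ψ (e.symm (WithLp.toLp 2 z)) ∈ e'.source) :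
    pullG g ψ e =ᶠ[𝓝 z] pull (I_loc ψ e e') (g.G e') := by
  have hcψ : ContinuousAt ψ (e.symm (WithLp.toLp 2 z)) :=
    (hψ.contMDiffAt (hU.mem_nhds hzU)).continuousAt
  have hce : ContinuousAt (fun w : Eu n => e.symm (WithLp.toLp 2 w)) z :=
    (e.continuousAt_symm hz).comp (f := fun w : Eu n => (WithLp.toLp 2 w : En n))
      (PiLp.continuous_toLp 2 (fun _ : Fin n => ℝ)).continuousAt
  have hc : ContinuousAt (fun w : Eu n => ψ (e.symm (WithLp.toLp 2 w))) z :=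
    ContinuousAt.comp (g := ψ) hcψ hce
  have hnear : ∀ᶠ w in 𝓝 z, ψ (e.symm (WithLp.toLp 2 w)) ∈ e'.source :=
    hc (e'.open_source.mem_nhds hz')
  have hnearU : ∀ᶠ w in 𝓝 z, e.symm (WithLp.toLp 2 w) ∈ U := hce (hU.mem_nhds hzU)
  filter_upwards [hnear, hnearU, (I_isOpen_ctarget e).mem_nhds hz] with w h1 h2 h3
  exact I_pullG_eq g he he' hU hψ h3 h2 h1

theorem I_pull_smooth {φ : Eu n → Eu n} {x₀ : Eu n} (hφ : ContDiffAt ℝ ∞ φ x₀) {G : Eu n → Mt n}
    (hG : ∀ i j, ContDiffAt ℝ ∞ (fun x => G x i j) (φ x₀)) (i j : Fin n) :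
    ContDiffAt ℝ (2 : ℕ) (fun x => pull φ G x i j) x₀ := by
  have hφ4 : ContDiffAt ℝ (3 : ℕ) φ x₀ := contDiffAt_infty.1 hφ 3
  have hφa : ∀ a, ContDiffAt ℝ (3 : ℕ) (fun y => φ y a) x₀ := fun a => contDiffAt_pi.1 hφ4 a
  have hG2 : ∀ i j, ContDiffAt ℝ (2 : ℕ) (fun x => G x i j) (φ x₀) :=
    fun i j => contDiffAt_infty.1 (hG i j) 2
  have hJc : ∀ a k, ContDiffAt ℝ (2 : ℕ) (fun y => Jac φ y a k) x₀ := fun a k =>
    N2.pd_smooth (hφa a)
  have e1 : (fun y => pull φ G y i j) =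
      fun y => ∑ c, (∑ b, Jac φ y b i * G (φ y) b c) * Jac φ y c j := by
    funext y
    simp only [pull, Matrix.mul_apply, Matrix.transpose_apply]
  rw [e1]
  refine ContDiffAt.sum fun c _ => ContDiffAt.mul (ContDiffAt.sum fun b _ => ContDiffAt.mul ?_ ?_) ?_
  · exact hJc b i
  · exact (hG2 b c).comp x₀ (hφ4.of_le (by norm_cast))
  · exact hJc c j

end partC

/-! ### Part D: the curvature as a function of the 2-jet of the metric -/

/-- Christoffel symbols from the 1-jet -/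
noncomputable def I_Gf {n : ℕ} (g : Mt n) (D : Fin n → Fin n → Fin n → ℝ) (k i j : Fin n) : ℝ :=
  (1 / 2) * ∑ l, g⁻¹ k l * (D i j l + D j i l - D l i j)

/-- derivative of the inverse -/
noncomputable def I_DI {n : ℕ} (g : Mt n) (D : Fin n → Fin n → Fin n → ℝ) (c k l : Fin n) : ℝ :=
  -∑ a, ∑ b, g⁻¹ k a * D c a b * g⁻¹ b l

/-- derivatives of the Christoffel symbols from the 2-jet -/
noncomputable def I_dGf {n : ℕ} (g : Mt n) (D : Fin n → Fin n → Fin n → ℝ)
    (E : Fin n → Fin n → Fin n → Fin n → ℝ) (c k i j : Fin n) : ℝ :=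
  (1 / 2) * ∑ l, (I_DI g D c k l * (D i j l + D j i l - D l i j) +
    g⁻¹ k l * (E c i j l + E c j i l - E c l i j))

/-- curvature from the 2-jet -/
noncomputable def I_Rcf {n : ℕ} (g : Mt n) (D : Fin n → Fin n → Fin n → ℝ)
    (E : Fin n → Fin n → Fin n → Fin n → ℝ) (i j k l : Fin n) : ℝ :=
  ∑ a, g k a * (I_dGf g D E i a l j - I_dGf g D E j a l i +
    ∑ e, (I_Gf g D a i e * I_Gf g D e l j - I_Gf g D a j e * I_Gf g D e l i))

theorem I_pd_inv {n : ℕ} {G : Eu n → Mt n} {x : Eu n}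
    (hG : ∀ i j, ContDiffAt ℝ (2 : ℕ) (fun y => G y i j) x) (hd : (G x).det ≠ 0) (c k l : Fin n) :
    pd c (fun y => (G y)⁻¹ k l) x = I_DI (G x) (fun c a b => pd c (fun y => G y a b) x) c k l := by
  have hunit : IsUnit (G x).det := isUnit_iff_ne_zero.2 hd
  have hdn : ∀ᶠ y in 𝓝 x, (G y).det ≠ 0 :=
    (N2.det_cont (M := G) fun a k => (hG a k).continuousAt).eventually_ne hd
  have hGd : ∀ a b, DifferentiableAt ℝ (fun y => G y a b) x := fun a b =>
    (hG a b).differentiableAt (by norm_num)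
  have hId : ∀ a b, DifferentiableAt ℝ (fun y => (G y)⁻¹ a b) x := fun a b =>
    (N2.inv_smooth hG hd a b).differentiableAt (by norm_num)
  -- derivative of `∑ G⁻¹ G = 1`
  have h1 : ∀ k m, ∑ l, (pd c (fun y => (G y)⁻¹ k l) x * G x l m +
      (G x)⁻¹ k l * pd c (fun y => G y l m) x) = 0 := by
    intro k m
    have h2 : pd c (fun y => ∑ l, (G y)⁻¹ k l * G y l m) x = 0 := by
      have h3 : (fun y => ∑ l, (G y)⁻¹ k l * G y l m) =ᶠ[𝓝 x] fun _ => (1 : Mt n) k m := by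
        filter_upwards [hdn] with y hy
        rw [← Matrix.mul_apply, Matrix.nonsing_inv_mul _ (isUnit_iff_ne_zero.2 hy)]
      rw [N2.pd_congr h3]
      unfold pd
      rw [fderiv_fun_const]
      rfl
    rw [N2.pd_sum' Finset.univ (F := fun l y => (G y)⁻¹ k l * G y l m)
      (fun l _ => (hId k l).mul (hGd l m))] at h2
    rw [← h2]
    refine Finset.sum_congr rfl fun l _ => ?_
    rw [N2.pd_mul' (hId k l) (hGd l m)]
  -- in matrix form
  set A : Mt n := Matrix.of fun k l => pd c (fun y => (G y)⁻¹ k l) x with hA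
  set B : Mt n := Matrix.of fun a b => pd c (fun y => G y a b) x with hB
  have h4 : A * G x = -((G x)⁻¹ * B) := by
    ext k m
    have := h1 k m
    rw [Finset.sum_add_distrib] at this
    rw [Matrix.neg_apply, Matrix.mul_apply, Matrix.mul_apply]
    exact eq_neg_of_add_eq_zero_left this
  have h5 : A = -((G x)⁻¹ * B * (G x)⁻¹) := by
    calc A = A * G x * (G x)⁻¹ := by
          rw [Matrix.mul_assoc, Matrix.mul_nonsing_inv _ hunit, Matrix.mul_one]
      _ = _ := by rw [h4, Matrix.neg_mul]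
  have h6 : pd c (fun y => (G y)⁻¹ k l) x = A k l := rfl
  rw [h6, h5, Matrix.neg_apply]
  unfold I_DI
  congr 1
  rw [Matrix.mul_apply]
  simp only [Matrix.mul_apply, Finset.sum_mul]
  rw [Finset.sum_comm]
  rfl

theorem I_pd_Gam {n : ℕ} {G : Eu n → Mt n} {x : Eu n}
    (hG : ∀ i j, ContDiffAt ℝ (2 : ℕ) (fun y => G y i j) x) (hd : (G x).det ≠ 0) (c k i j : Fin n) :
    pd c (Gam G k i j) x = I_dGf (G x) (fun c a b => pd c (fun y => G y a b) x)
      (fun d c a b => pd d (pd c (fun y => G y a b)) x) c k i j := by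
  have hId : ∀ a b, DifferentiableAt ℝ (fun y => (G y)⁻¹ a b) x := fun a b =>
    (N2.inv_smooth hG hd a b).differentiableAt (by norm_num)
  have hP : ∀ c a b, DifferentiableAt ℝ (pd c (fun y => G y a b)) x := fun c a b =>
    (N2.pd_smooth (k := 1) (hG a b)).differentiableAt (by norm_num)
  have hQ : ∀ l, DifferentiableAt ℝ (fun y => pd i (fun y => G y j l) y + pd j (fun y => G y i l) y -
      pd l (fun y => G y i j) y) x := fun l =>
    ((hP i j l).add (hP j i l)).sub (hP l i j)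
  have hcm : ∀ (f : Eu n → ℝ), DifferentiableAt ℝ f x →
      pd c (fun y => (1 / 2 : ℝ) * f y) x = (1 / 2) * pd c f x := by
    intro f hf
    unfold pd
    rw [fderiv_const_mul hf]
    rfl
  have hsub : ∀ (f g : Eu n → ℝ), DifferentiableAt ℝ f x → DifferentiableAt ℝ g x →
      pd c (fun y => f y - g y) x = pd c f x - pd c g x := by
    intro f g hf hg
    unfold pd
    rw [fderiv_fun_sub hf hg]
    rfl
  have hsum : DifferentiableAt ℝ (fun y => ∑ l, (G y)⁻¹ k l *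
      (pd i (fun y => G y j l) y + pd j (fun y => G y i l) y - pd l (fun y => G y i j) y)) x :=
    DifferentiableAt.fun_sum fun l _ => (hId k l).mul (hQ l)
  have h0 : Gam G k i j = fun y => (1 / 2 : ℝ) * ∑ l, (G y)⁻¹ k l *
      (pd i (fun y => G y j l) y + pd j (fun y => G y i l) y - pd l (fun y => G y i j) y) := rfl
  rw [h0, hcm _ hsum, N2.pd_sum' Finset.univ (F := fun l y => (G y)⁻¹ k l *
      (pd i (fun y => G y j l) y + pd j (fun y => G y i l) y - pd l (fun y => G y i j) y))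
      (fun l _ => (hId k l).mul (hQ l))]
  unfold I_dGf
  congr 1
  refine Finset.sum_congr rfl fun l _ => ?_
  have e1 : pd c (fun y => pd i (fun y => G y j l) y + pd j (fun y => G y i l) y -
      pd l (fun y => G y i j) y) x = pd c (pd i (fun y => G y j l)) x +
        pd c (pd j (fun y => G y i l)) x - pd c (pd l (fun y => G y i j)) x := by
    rw [hsub (fun y => pd i (fun y => G y j l) y + pd j (fun y => G y i l) y)
      (fun y => pd l (fun y => G y i j) y) ((hP i j l).add (hP j i l)) (hP l i j),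
      N2.pd_add' (hP i j l) (hP j i l)]
  rw [N2.pd_mul' (hId k l) (hQ l), I_pd_inv hG hd, e1]

theorem I_Rc_jet {n : ℕ} {G : Eu n → Mt n} {x : Eu n}
    (hG : ∀ i j, ContDiffAt ℝ (2 : ℕ) (fun y => G y i j) x) (hd : (G x).det ≠ 0) (i j k l : Fin n) :
    Rc G x i j k l = I_Rcf (G x) (fun c a b => pd c (fun y => G y a b) x)
      (fun d c a b => pd d (pd c (fun y => G y a b)) x) i j k l := by
  unfold Rc R4 I_Rcf
  refine Finset.sum_congr rfl fun a _ => ?_
  congr 1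
  unfold N2.Rm
  rw [I_pd_Gam hG hd, I_pd_Gam hG hd]
  rfl

theorem I_inv_tendsto {n : ℕ} {ι : Type*} {L : Filter ι} {g : ι → Mt n} {g0 : Mt n}
    (hg : Tendsto g L (𝓝 g0)) (hd : g0.det ≠ 0) : Tendsto (fun i => (g i)⁻¹) L (𝓝 g0⁻¹) := by
  have h1 : Tendsto (fun i => (g i).det) L (𝓝 g0.det) :=
    ((Continuous.matrix_det continuous_id).tendsto g0).comp hg
  have h2 : Tendsto (fun i => (g i).adjugate) L (𝓝 g0.adjugate) :=
    ((Continuous.matrix_adjugate continuous_id).tendsto g0).comp hg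
  have h3 := (h1.inv₀ hd).smul h2
  have h4 : ∀ M : Mt n, M⁻¹ = (M.det)⁻¹ • M.adjugate := by
    intro M
    rw [Matrix.inv_def, Ring.inverse_eq_inv']
  simp only [h4]
  exact h3

theorem I_Rcf_tendsto {n : ℕ} {ι : Type*} {L : Filter ι} {g : ι → Mt n} {g0 : Mt n}
    {D : ι → Fin n → Fin n → Fin n → ℝ} {D0 : Fin n → Fin n → Fin n → ℝ}
    {E : ι → Fin n → Fin n → Fin n → Fin n → ℝ} {E0 : Fin n → Fin n → Fin n → Fin n → ℝ}
    (hg : Tendsto g L (𝓝 g0)) (hd : g0.det ≠ 0)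
    (hD : ∀ c a b, Tendsto (fun s => D s c a b) L (𝓝 (D0 c a b)))
    (hE : ∀ d c a b, Tendsto (fun s => E s d c a b) L (𝓝 (E0 d c a b))) (i j k l : Fin n) :
    Tendsto (fun s => I_Rcf (g s) (D s) (E s) i j k l) L (𝓝 (I_Rcf g0 D0 E0 i j k l)) := by
  have hI := I_inv_tendsto hg hd
  have hIe : ∀ a b, Tendsto (fun s => (g s)⁻¹ a b) L (𝓝 (g0⁻¹ a b)) := fun a b =>
    ((continuous_id.matrix_elem a b).tendsto _).comp hI
  have hge : ∀ a b, Tendsto (fun s => g s a b) L (𝓝 (g0 a b)) := fun a b =>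
    ((continuous_id.matrix_elem a b).tendsto _).comp hg
  have hGf : ∀ k i j, Tendsto (fun s => I_Gf (g s) (D s) k i j) L (𝓝 (I_Gf g0 D0 k i j)) := by
    intro k i j
    unfold I_Gf
    exact (tendsto_finsetSum _ fun l _ => (hIe k l).mul
      (((hD i j l).add (hD j i l)).sub (hD l i j))).const_mul _
  have hDI : ∀ c k l, Tendsto (fun s => I_DI (g s) (D s) c k l) L (𝓝 (I_DI g0 D0 c k l)) := by
    intro c k l
    unfold I_DI
    exact (tendsto_finsetSum _ fun a _ => tendsto_finsetSum _ fun b _ =>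
      ((hIe k a).mul (hD c a b)).mul (hIe b l)).neg
  have hdGf : ∀ c k i j, Tendsto (fun s => I_dGf (g s) (D s) (E s) c k i j) L
      (𝓝 (I_dGf g0 D0 E0 c k i j)) := by
    intro c k i j
    unfold I_dGf
    exact (tendsto_finsetSum _ fun l _ => ((hDI c k l).mul
      (((hD i j l).add (hD j i l)).sub (hD l i j))).add
      ((hIe k l).mul (((hE c i j l).add (hE c j i l)).sub (hE c l i j)))).const_mul _
  unfold I_Rcf
  exact tendsto_finsetSum _ fun a _ => (hge k a).mul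
    (((hdGf i a l j).sub (hdGf j a l i)).add (tendsto_finsetSum _ fun e _ =>
      ((hGf a i e).mul (hGf e l j)).sub ((hGf a j e).mul (hGf e l i))))

/-- first derivatives from the iterated derivative -/
theorem I_pd_iter {n : ℕ} (f : Eu n → ℝ) (x : Eu n) (c : Fin n) :
    pd c f x = iteratedFDeriv ℝ 1 f x (fun _ => Pi.single c 1) := by
  rw [iteratedFDeriv_one_apply]
  rfl

theorem I_pd_pd_iter {n : ℕ} {f : Eu n → ℝ} {x : Eu n} (hf : ContDiffAt ℝ (2 : ℕ) f x)
    (d c : Fin n) :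
    pd d (pd c f) x = iteratedFDeriv ℝ 2 f x ![Pi.single d 1, Pi.single c 1] := by
  rw [iteratedFDeriv_two_apply]
  have hd : DifferentiableAt ℝ (fderiv ℝ f) x :=
    (hf.fderiv_right (m := 1) (by norm_num)).differentiableAt (by norm_num)
  unfold pd
  have h := (hd.hasFDerivAt).clm_apply (hasFDerivAt_const (Pi.single c (1:ℝ) : Eu n) x)
  rw [h.fderiv]
  simp

/-! ### Part E: one step and the limit -/

theorem I_frame {n : ℕ} {G : Mt n} (h : G.PosDef) : ∃ F : Mt n, Fᵀ * G * F = 1 := by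
  obtain ⟨a, ha⟩ : ∃ a : Mt n, G = aᵀ * a := by
    open scoped MatrixOrder in
    obtain ⟨a, ha⟩ := CStarAlgebra.nonneg_iff_eq_star_mul_self.mp h.posSemidef.nonneg
    refine ⟨a, ?_⟩
    rw [ha, Matrix.star_eq_conjTranspose, Matrix.conjTranspose_eq_transpose_of_trivial]
  have hdet : a.det ≠ 0 := by
    intro h0
    have h1 := h.det_pos
    rw [ha, Matrix.det_mul, h0, mul_zero] at h1
    exact lt_irrefl _ h1
  have hu : IsUnit a.det := isUnit_iff_ne_zero.2 hdet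
  have hut : IsUnit (aᵀ).det := by rw [Matrix.det_transpose]; exact hu
  refine ⟨a⁻¹, ?_⟩
  rw [ha, Matrix.transpose_nonsing_inv]
  calc (aᵀ)⁻¹ * (aᵀ * a) * a⁻¹ = ((aᵀ)⁻¹ * aᵀ) * (a * a⁻¹) := by simp only [Matrix.mul_assoc]
    _ = 1 := by rw [Matrix.nonsing_inv_mul _ hut, Matrix.mul_nonsing_inv _ hu, Matrix.one_mul]

theorem I_step {n : ℕ} {M : Type} [TopologicalSpace M] [ChartedSpace (En n) M]
    [IsManifold (𝓡 n) ∞ M] {N : Type} [TopologicalSpace N] [ChartedSpace (En n) N]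
    [IsManifold (𝓡 n) ∞ N] (g : Metric n M) {ψ : N → M}
    {e : OpenPartialHomeomorph N (En n)} (he : e ∈ atlas (En n) N)
    {U : Set N} (hU : IsOpen U) (hψ : ContMDiffOn (𝓡 n) (𝓡 n) ∞ ψ U) {y : Eu n}
    (hy : y ∈ ctarget e) (hyU : e.symm (WithLp.toLp 2 y) ∈ U) {c : ℝ} (hc : 0 < c)
    (hdet : (c • pullG g ψ e y).det ≠ 0) :
    (∀ a b, ContDiffAt ℝ (2 : ℕ) (fun z => (c • pullG g ψ e z) a b) y) ∧
    ∃ e' ∈ atlas (En n) M, ∃ w ∈ ctarget e', ∃ F P : Mt n, Fᵀ * g.G e' w * F = 1 ∧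
      Pᵀ * (c • pullG g ψ e y) * P = 1 ∧
      rot (Rc (g.G e') w) F = fun i j k l => c * rot (Rc (fun z => c • pullG g ψ e z) y) P i j k l := by
  classical
  set e' := chartAt (En n) (ψ (e.symm (WithLp.toLp 2 y))) with he'
  have hm' : e' ∈ atlas (En n) M := chart_mem_atlas _ _
  have hz' : ψ (e.symm (WithLp.toLp 2 y)) ∈ e'.source := mem_chart_source _ _
  set φ := I_loc ψ e e' with hφd
  have hφ : ContDiffAt ℝ ∞ φ y := I_loc_smooth he hm' hU hψ hy hyU hz'
  have hnear := I_pullG_near g he hm' hU hψ hy hyU hz'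
  set w := φ y with hw
  have hwt : w ∈ ctarget e' := by
    show WithLp.toLp 2 (WithLp.ofLp (e' _)) ∈ e'.target
    rw [WithLp.toLp_ofLp]
    exact e'.map_source hz'
  have hGs : ∀ a b, ContDiffAt ℝ ∞ (fun x => g.G e' x a b) w := fun a b =>
    (g.smooth e' hm' a b).contDiffAt ((I_isOpen_ctarget e').mem_nhds hwt)
  have hsym : ∀ᶠ x in 𝓝 w, (g.G e' x).IsSymm := by
    filter_upwards [(I_isOpen_ctarget e').mem_nhds hwt] with x hx
    have := (g.posDef e' hm' x hx).isHermitian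
    rwa [Matrix.IsHermitian, Matrix.conjTranspose_eq_transpose_of_trivial] at this
  have hd' : (g.G e' w).det ≠ 0 := (g.posDef e' hm' w hwt).det_pos.ne'
  set J := Jac φ y with hJ
  have hval : c • pullG g ψ e y = c • (Jᵀ * g.G e' w * J) := by
    rw [hnear.self_of_nhds]
    rfl
  have hJd : J.det ≠ 0 := by
    intro h0
    apply hdet
    rw [hval, Matrix.det_smul, Matrix.det_mul, h0, mul_zero, mul_zero]
  have hJu : IsUnit J.det := isUnit_iff_ne_zero.2 hJd
  have hJtu : IsUnit (Jᵀ).det := by rw [Matrix.det_transpose]; exact hJu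
  have hnear' : (fun z => c • pullG g ψ e z) =ᶠ[𝓝 y] fun z => c • pull φ (g.G e') z :=
    hnear.mono fun z hz => by
      have hz2 : pullG g ψ e z = pull φ (g.G e') z := hz
      simp only [hz2]
  refine ⟨fun a b => ?_, ?_⟩
  · have h1 : (fun z => (c • pullG g ψ e z) a b) =ᶠ[𝓝 y] fun z => c * pull φ (g.G e') z a b :=
      hnear'.mono fun z hz => by
        show (c • pullG g ψ e z) a b = _
        have hz' : c • pullG g ψ e z = c • pull φ (g.G e') z := hz
        rw [hz']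
        rfl
    refine ContDiffAt.congr_of_eventuallyEq ?_ h1
    exact contDiffAt_const.mul (I_pull_smooth hφ hGs a b)
  · obtain ⟨F, hF⟩ := I_frame (g.posDef e' hm' w hwt)
    have hsq : Real.sqrt c ≠ 0 := (Real.sqrt_pos.2 hc).ne'
    have hsq2 : Real.sqrt c * Real.sqrt c = c := Real.mul_self_sqrt hc.le
    obtain ⟨P, hP⟩ : ∃ P : Mt n, P = (Real.sqrt c)⁻¹ • (J⁻¹ * F) := ⟨_, rfl⟩
    have hJP : F = Real.sqrt c • (J * P) := by
      rw [hP, Matrix.mul_smul, smul_smul, mul_inv_cancel₀ hsq, one_smul, ← Matrix.mul_assoc,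
        Matrix.mul_nonsing_inv _ hJu, Matrix.one_mul]
    refine ⟨e', hm', w, hwt, F, P, hF, ?_, ?_⟩
    · rw [hval]
      have h2 : Pᵀ * (c • (Jᵀ * g.G e' w * J)) * P =
          (Real.sqrt c • (J * P))ᵀ * g.G e' w * (Real.sqrt c • (J * P)) := by
        rw [Matrix.transpose_smul, Matrix.transpose_mul]
        simp only [Matrix.smul_mul, Matrix.mul_smul, smul_smul, Matrix.mul_assoc, hsq2]
      rw [h2, ← hJP, hF]
    · have h3 : Rc (fun z => c • pullG g ψ e z) y = fun i j k l => c * rot (Rc (g.G e') w) J i j k l := by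
        rw [I_Rc_congr hnear', I_Rc_smul hc.ne', I_R4_pull hφ hJd hGs hsym hd']
      have h4 : rot (Rc (g.G e') w) F = fun i j k l =>
          (Real.sqrt c) ^ 4 * rot (rot (Rc (g.G e') w) J) P i j k l := by
        rw [hJP, I_rot_smul, I_rot_rot]
      rw [h4, h3, I_rot_smul_left]
      funext i j k l
      have : Real.sqrt c ^ 4 = c * c := by
        calc Real.sqrt c ^ 4 = (Real.sqrt c * Real.sqrt c) * (Real.sqrt c * Real.sqrt c) := by ring
          _ = c * c := by rw [hsq2]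
      rw [this]
      ring

/-! ## TARGET I (from a pinching estimate to blow-up limits).
Proof. Let `x,t,Q,U,ψ` be as in `IsBlowUpLimit`, `s ∈ I`, `e` a chart of `N`, `y ∈ ctarget e`, `φ` antisymmetric. Write
`G_i(z) = Q_i • pullG (g (t_i + s/Q_i)) ψ_i e z` and `G = (h s).G e`. For large `i` the point `e.symm y` lies in `U_i`, and near `y` the
field `pullG ..` equals `pull φ_i ((g ..).G e')` for the fixed chart `e' = chartAt (ψ_i (e.symm y))` and
`φ_i = e' ∘ ψ_i ∘ e.symm` (use `Metric.compat`, chain rule for `Jac`), `φ_i` smooth near `y`. The `k = 0` part of the convergence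
gives `G_i(y) → G(y)`, positive definite, so `det Jac φ_i(y) ≠ 0` for large `i`. By convergence for `k = 0,1,2` the components of
`Rc G_i y` converge to those of `Rc G y` (`Rm` is a continuous function of the 2-jet of the metric where `det ≠ 0`). By `rm_pull` and
scaling (`Gam` is unchanged, `Rc (c • G) = c • Rc G`), if `P` is a matrix with `Pᵀ G_i(y) P = 1` then
`F = √Q_i • (Jac φ_i y * P)` satisfies `Fᵀ (g ..).G e' (φ_i y) F = 1` and
`rot (Rc ((g ..).G e') (φ_i y)) F = Q_i • rot (Rc G_i y) P`. Apply `hp` with `ε`, divide by `Q_i`: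
`-((ε |rot (Rc G_i y) P| + K / Q_i) |φ'|^2) ≤ ∑ rot (Rc G_i y) P · φ' φ'` for antisymmetric `φ'`. Choose `P_i → P` (for instance a
continuous choice near `G(y)`, or a convergent subsequence of such matrices) and let `i → ∞`, then `ε → 0`:
`0 ≤ ∑ rot (Rc G y) P i j k l φ'_ij φ'_kl` with `Pᵀ G(y) P = 1`; `φ = P φ' Pᵀ` gives the claim for all antisymmetric `φ`
(`P` is invertible). -/
theorem blow {n : ℕ} {M : Type} [TopologicalSpace M] [ChartedSpace (En n) M]
    [IsManifold (𝓡 n) ∞ M] {T : ℝ} {g : ℝ → Metric n M}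
    (hp : ∀ ε > 0, ∃ K : ℝ, ∀ t ∈ Ico 0 T, ∀ e ∈ atlas (En n) M, ∀ y ∈ ctarget e, ∀ F : Mt n,
      Fᵀ * (g t).G e y * F = 1 → ∀ φ : Mt n, φᵀ = -φ →
      -((ε * Real.sqrt (∑ i, ∑ j, ∑ k, ∑ l, rot (Rc ((g t).G e) y) F i j k l ^ 2) + K)
        * ∑ i, ∑ j, φ i j ^ 2) ≤
        ∑ i, ∑ j, ∑ k, ∑ l, rot (Rc ((g t).G e) y) F i j k l * φ i j * φ k l)
    {N : Type} [TopologicalSpace N] [ChartedSpace (En n) N] [IsManifold (𝓡 n) ∞ N]
    {I : Set ℝ} {h : ℝ → Metric n N} {p : N} (hb : IsBlowUpLimit T g I h p) :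
    ∀ s ∈ I, NonnegOp (h s) := by
  classical
  obtain ⟨x, t, Q, U, ψ, -, -, -, hQi, hUo, hUc, hψ, -, -, hconv⟩ := hb
  intro s hs e he y hy φ hφ
  obtain ⟨hτ, hcv⟩ := hconv s hs
  have hcv' := hcv e he
  set G0 : Eu n → Mt n := (h s).G e with hG0
  set Gi : ℕ → Eu n → Mt n := fun i z => Q i • pullG (g (t i + s / Q i)) (ψ i) e z with hGi
  have hqU : ∀ᶠ i in atTop, e.symm (WithLp.toLp 2 y) ∈ U i :=
    (hUc {e.symm (WithLp.toLp 2 y)} isCompact_singleton).mono fun i hi => hi rfl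
  have hQ0 : ∀ᶠ i in atTop, 0 < Q i := hQi.eventually_gt_atTop 0
  have hpos0 : (G0 y).PosDef := (h s).posDef e he y hy
  have hd0 : (G0 y).det ≠ 0 := hpos0.det_pos.ne'
  have hG0s : ∀ a b, ContDiffAt ℝ (2 : ℕ) (fun z => G0 z a b) y := fun a b =>
    contDiffAt_infty.1 (((h s).smooth e he a b).contDiffAt ((I_isOpen_ctarget e).mem_nhds hy)) 2
  -- convergence of the derivatives
  have hk : ∀ (k : ℕ) (a b : Fin n) (m : Fin k → Eu n), Tendsto
      (fun i => iteratedFDeriv ℝ k (fun z => Gi i z a b) y m) atTop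
      (𝓝 (iteratedFDeriv ℝ k (fun z => G0 z a b) y m)) := fun k a b m =>
    ((continuous_eval_const m).tendsto _).comp ((hcv' a b k).tendsto_at hy)
  have hc0 : Tendsto (fun i => Gi i y) atTop (𝓝 (G0 y)) := by
    refine tendsto_pi_nhds.2 fun a => tendsto_pi_nhds.2 fun b => ?_
    have := hk 0 a b 0
    simpa only [iteratedFDeriv_zero_apply] using this
  have hdi : ∀ᶠ i in atTop, (Gi i y).det ≠ 0 :=
    (((Continuous.matrix_det continuous_id).tendsto (G0 y)).comp hc0).eventually_ne hd0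
  -- the step for large `i`
  have hstep : ∀ᶠ i in atTop, (∀ a b, ContDiffAt ℝ (2 : ℕ) (fun z => Gi i z a b) y) ∧
      ∃ P : Mt n, Pᵀ * Gi i y * P = 1 ∧ ∀ ε K : ℝ, (∀ t ∈ Ico 0 T, ∀ e ∈ atlas (En n) M,
        ∀ y ∈ ctarget e, ∀ F : Mt n, Fᵀ * (g t).G e y * F = 1 → ∀ φ : Mt n, φᵀ = -φ →
        -((ε * Real.sqrt (∑ i, ∑ j, ∑ k, ∑ l, rot (Rc ((g t).G e) y) F i j k l ^ 2) + K)
          * ∑ i, ∑ j, φ i j ^ 2) ≤
        ∑ i, ∑ j, ∑ k, ∑ l, rot (Rc ((g t).G e) y) F i j k l * φ i j * φ k l) →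
        ∀ φ' : Mt n, φ'ᵀ = -φ' →
        -((ε * Real.sqrt (∑ a, ∑ b, ∑ c, ∑ d, rot (Rc (Gi i) y) P a b c d ^ 2) + K / Q i)
          * ∑ a, ∑ b, φ' a b ^ 2) ≤
        ∑ a, ∑ b, ∑ c, ∑ d, rot (Rc (Gi i) y) P a b c d * φ' a b * φ' c d := by
    filter_upwards [hqU, hQ0, hdi, hτ] with i h1 h2 h3 h4
    obtain ⟨hs1, e', he', w, hw, F, P, hF, hP, hrot⟩ :=
      I_step (g (t i + s / Q i)) he (hUo i) (hψ i) hy h1 h2 h3
    refine ⟨hs1, P, hP, fun ε K hK φ' hφ' => ?_⟩
    have h5 := hK _ h4 e' he' w hw F hF φ' hφ'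
    have hrot' : ∀ a b c d, rot (Rc ((g (t i + s / Q i)).G e') w) F a b c d =
        Q i * rot (Rc (Gi i) y) P a b c d := fun a b c d => by rw [hrot]
    simp only [hrot'] at h5
    have h6 : ∑ a, ∑ b, ∑ c, ∑ d, (Q i * rot (Rc (Gi i) y) P a b c d) ^ 2 =
        Q i ^ 2 * ∑ a, ∑ b, ∑ c, ∑ d, rot (Rc (Gi i) y) P a b c d ^ 2 := by
      simp only [Finset.mul_sum, mul_pow]
    have h7 : ∑ a, ∑ b, ∑ c, ∑ d, Q i * rot (Rc (Gi i) y) P a b c d * φ' a b * φ' c d =
        Q i * ∑ a, ∑ b, ∑ c, ∑ d, rot (Rc (Gi i) y) P a b c d * φ' a b * φ' c d := by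
      simp only [Finset.mul_sum, mul_assoc]
    rw [h6, h7, Real.sqrt_mul (by positivity), Real.sqrt_sq h2.le] at h5
    have h8 : -((ε * (Q i * Real.sqrt (∑ a, ∑ b, ∑ c, ∑ d, rot (Rc (Gi i) y) P a b c d ^ 2)) + K)
          * ∑ a, ∑ b, φ' a b ^ 2) =
        Q i * -((ε * Real.sqrt (∑ a, ∑ b, ∑ c, ∑ d, rot (Rc (Gi i) y) P a b c d ^ 2) + K / Q i)
          * ∑ a, ∑ b, φ' a b ^ 2) := by
      field_simp
    rw [h8] at h5
    exact le_of_mul_le_mul_left h5 h2
  -- convergence of the curvature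
  have hRc : ∀ a b c d, Tendsto (fun i => Rc (Gi i) y a b c d) atTop (𝓝 (Rc G0 y a b c d)) := by
    intro a b c d
    rw [I_Rc_jet hG0s hd0]
    have h1 : (fun i => I_Rcf (Gi i y) (fun c a b => pd c (fun z => Gi i z a b) y)
        (fun d c a b => pd d (pd c (fun z => Gi i z a b)) y) a b c d) =ᶠ[atTop]
        fun i => Rc (Gi i) y a b c d := by
      filter_upwards [hstep, hdi] with i h1 h2
      rw [I_Rc_jet h1.1 h2]
    refine Tendsto.congr' h1 (I_Rcf_tendsto hc0 hd0 ?_ ?_ a b c d)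
    · intro c a b
      simp only [I_pd_iter]
      exact hk 1 a b _
    · intro d c a b
      rw [I_pd_pd_iter (hG0s a b)]
      refine Tendsto.congr' ?_ (hk 2 a b ![Pi.single d 1, Pi.single c 1])
      filter_upwards [hstep] with i h1
      rw [I_pd_pd_iter (h1.1 a b)]
  -- choose the frames
  obtain ⟨i₀, hi₀⟩ := eventually_atTop.1 (hstep.and (hQ0.and hdi))
  choose! P hP1 hP2 using fun i (hi : i₀ ≤ i) => (hi₀ i hi).1.2
  -- they are bounded
  have hinv := I_inv_tendsto hc0 hd0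
  have hPP : ∀ i, i₀ ≤ i → P i * (P i)ᵀ = (Gi i y)⁻¹ := by
    intro i hi
    have h1 := hP1 i hi
    have h2 : P i * ((P i)ᵀ * Gi i y) = 1 := mul_eq_one_comm.1 h1
    rw [← Matrix.mul_assoc] at h2
    exact (Matrix.inv_eq_left_inv h2).symm
  have htr : Tendsto (fun i => ((Gi i y)⁻¹).trace) atTop (𝓝 ((G0 y)⁻¹).trace) :=
    ((Continuous.matrix_trace continuous_id).tendsto _).comp hinv
  have hbd : ∀ᶠ i in atTop, ∀ a b, |P i a b| ≤ Real.sqrt (((G0 y)⁻¹).trace + 1) := by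
    filter_upwards [htr.eventually_lt_const (lt_add_one _), eventually_ge_atTop i₀] with i h1 hi a b
    apply Real.abs_le_sqrt
    refine le_trans ?_ h1.le
    rw [← hPP i hi]
    have h2 : (P i * (P i)ᵀ).trace = ∑ a, ∑ b, P i a b ^ 2 := by
      simp only [Matrix.trace, Matrix.diag_apply, Matrix.mul_apply, Matrix.transpose_apply, sq]
    rw [h2]
    calc P i a b ^ 2 ≤ ∑ b, P i a b ^ 2 :=
          Finset.single_le_sum (f := fun b => P i a b ^ 2) (fun _ _ => sq_nonneg _) (Finset.mem_univ b)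
      _ ≤ ∑ a, ∑ b, P i a b ^ 2 :=
          Finset.single_le_sum (f := fun a => ∑ b, P i a b ^ 2)
            (fun _ _ => Finset.sum_nonneg fun _ _ => sq_nonneg _) (Finset.mem_univ a)
  -- a convergent subsequence
  obtain ⟨P0, σ, hσ, hPσ⟩ : ∃ (P0 : Fin n → Fin n → ℝ) (σ : ℕ → ℕ), StrictMono σ ∧
      Tendsto (fun k => (P (σ k) : Fin n → Fin n → ℝ)) atTop (𝓝 P0) := by
    set B := Real.sqrt (((G0 y)⁻¹).trace + 1) with hB
    have hBd : Bornology.IsBounded (Set.pi univ fun _ : Fin n => Set.pi univ fun _ : Fin n =>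
        Icc (-B) B) :=
      Bornology.IsBounded.pi fun _ => Bornology.IsBounded.pi fun _ => Metric.isBounded_Icc _ _
    obtain ⟨P0, -, σ, hσ, hlim⟩ := tendsto_subseq_of_frequently_bounded hBd
      (x := fun i => (P i : Fin n → Fin n → ℝ)) (by
        refine Eventually.frequently ?_
        filter_upwards [hbd] with i hi a _ b _
        exact abs_le.1 (hi a b))
    exact ⟨P0, σ, hσ, hlim⟩
  have hσt : Tendsto σ atTop atTop := hσ.tendsto_atTop
  have hPσ' : Tendsto (fun k => P (σ k)) atTop (𝓝 (P0 : Mt n)) := hPσ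
  have hPe : ∀ a b, Tendsto (fun k => P (σ k) a b) atTop (𝓝 (P0 a b)) := fun a b =>
    (tendsto_pi_nhds.1 (tendsto_pi_nhds.1 hPσ a)) b
  -- the test bivectors
  set Φ : ℕ → Mt n := fun k => ((P (σ k))ᵀ * Gi (σ k) y) * φ * ((P (σ k))ᵀ * Gi (σ k) y)ᵀ with hΦ
  set Φ0 : Mt n := (Matrix.transpose (P0 : Mt n) * G0 y) * φ *
    (Matrix.transpose (P0 : Mt n) * G0 y)ᵀ with hΦ0
  have hPt : Tendsto (fun k => (P (σ k))ᵀ) atTop (𝓝 (Matrix.transpose (P0 : Mt n))) :=
    ((Continuous.matrix_transpose continuous_id).tendsto _).comp hPσ'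
  have hPG : Tendsto (fun k => (P (σ k))ᵀ * Gi (σ k) y) atTop
      (𝓝 (Matrix.transpose (P0 : Mt n) * G0 y)) := hPt.mul (hc0.comp hσt)
  have hΦt : Tendsto Φ atTop (𝓝 Φ0) :=
    (hPG.mul tendsto_const_nhds).mul
      (((Continuous.matrix_transpose continuous_id).tendsto _).comp hPG)
  have hΦe : ∀ a b, Tendsto (fun k => Φ k a b) atTop (𝓝 (Φ0 a b)) := fun a b =>
    ((continuous_id.matrix_elem a b).tendsto _).comp hΦt
  have hrt : ∀ a b c d, Tendsto (fun k => rot (Rc (Gi (σ k)) y) (P (σ k)) a b c d) atTop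
      (𝓝 (rot (Rc G0 y) P0 a b c d)) := by
    intro a b c d
    unfold rot
    exact tendsto_finsetSum _ fun i _ => tendsto_finsetSum _ fun j _ =>
      tendsto_finsetSum _ fun k _ => tendsto_finsetSum _ fun l _ =>
      (((((hRc i j k l).comp hσt).mul (hPe i a)).mul (hPe j b)).mul (hPe k c)).mul (hPe l d)
  -- the inequality for every `ε`
  have hquad : ∀ k, i₀ ≤ σ k →
      ∑ a, ∑ b, ∑ c, ∑ d, rot (Rc (Gi (σ k)) y) (P (σ k)) a b c d * Φ k a b * Φ k c d =
      ∑ a, ∑ b, ∑ c, ∑ d, Rc (Gi (σ k)) y a b c d * φ a b * φ c d := by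
    intro k hk'
    rw [I_quad_rot]
    have h1 : P (σ k) * Φ k * (P (σ k))ᵀ = φ := by
      have h2 : P (σ k) * ((P (σ k))ᵀ * Gi (σ k) y) = 1 := mul_eq_one_comm.1 (hP1 _ hk')
      calc P (σ k) * Φ k * (P (σ k))ᵀ = (P (σ k) * ((P (σ k))ᵀ * Gi (σ k) y)) * φ *
            (P (σ k) * ((P (σ k))ᵀ * Gi (σ k) y))ᵀ := by
            rw [hΦ, Matrix.transpose_mul (P (σ k))]
            simp only [Matrix.mul_assoc]
        _ = φ := by rw [h2, Matrix.transpose_one, Matrix.one_mul, Matrix.mul_one]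
    rw [h1]
  have hanti : ∀ k, (Φ k)ᵀ = -Φ k := by
    intro k
    rw [hΦ]
    simp only [Matrix.transpose_mul, Matrix.transpose_transpose, hφ, Matrix.neg_mul,
      Matrix.mul_neg, Matrix.mul_assoc]
  have hfin : ∀ ε : ℝ, 0 < ε →
      -((ε * Real.sqrt (∑ a, ∑ b, ∑ c, ∑ d, rot (Rc G0 y) P0 a b c d ^ 2) + 0)
          * ∑ a, ∑ b, Φ0 a b ^ 2) ≤
        ∑ a, ∑ b, ∑ c, ∑ d, Rc G0 y a b c d * φ a b * φ c d := by
    intro ε hε
    obtain ⟨K, hK⟩ := hp ε hε
    have hev : ∀ᶠ k in atTop,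
        -((ε * Real.sqrt (∑ a, ∑ b, ∑ c, ∑ d, rot (Rc (Gi (σ k)) y) (P (σ k)) a b c d ^ 2) +
          K / Q (σ k)) * ∑ a, ∑ b, Φ k a b ^ 2) ≤
        ∑ a, ∑ b, ∑ c, ∑ d, Rc (Gi (σ k)) y a b c d * φ a b * φ c d := by
      filter_upwards [hσt.eventually_ge_atTop i₀] with k hk'
      rw [← hquad k hk']
      exact hP2 (σ k) hk' ε K hK (Φ k) (hanti k)
    refine le_of_tendsto_of_tendsto ?_ ?_ hev
    · refine Tendsto.neg (Tendsto.mul (Tendsto.add (Tendsto.const_mul _ ?_) ?_) ?_)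
      · exact (Real.continuous_sqrt.tendsto _).comp (tendsto_finsetSum _ fun a _ =>
          tendsto_finsetSum _ fun b _ => tendsto_finsetSum _ fun c _ =>
          tendsto_finsetSum _ fun d _ => (hrt a b c d).pow 2)
      · exact (tendsto_const_nhds.div_atTop (hQi.comp hσt))
      · exact tendsto_finsetSum _ fun a _ => tendsto_finsetSum _ fun b _ => (hΦe a b).pow 2
    · exact tendsto_finsetSum _ fun a _ => tendsto_finsetSum _ fun b _ =>
        tendsto_finsetSum _ fun c _ => tendsto_finsetSum _ fun d _ =>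
        (((hRc a b c d).comp hσt).mul_const _).mul_const _
  -- let `ε → 0`
  set X := Real.sqrt (∑ a, ∑ b, ∑ c, ∑ d, rot (Rc G0 y) P0 a b c d ^ 2) with hX
  set Y := ∑ a, ∑ b, Φ0 a b ^ 2 with hY
  have hlim : Tendsto (fun ε : ℝ => -((ε * X + 0) * Y)) (𝓝[>] 0) (𝓝 0) := by
    have h1 : Tendsto (fun ε : ℝ => -((ε * X + 0) * Y)) (𝓝 0) (𝓝 (-((0 * X + 0) * Y))) := by
      apply Continuous.tendsto
      fun_prop
    have h2 : -((0 * X + 0) * Y) = 0 := by ring
    rw [h2] at h1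
    exact h1.mono_left nhdsWithin_le_nhds
  exact le_of_tendsto hlim (by
    filter_upwards [self_mem_nhdsWithin] with ε hε
    exact hfin ε hε)

end Pool.Agent.Helper696_RF
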