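import Mathlib
import Pool.Agent.Helper696_RF.Alg

/-!
RF-K null vector condition for non-negative isotropic curvature (helper712). Auxiliary declarations are prefixed `K_`.

`K_C T` is the complex multilinear extension of `T`. The inequality `0 ≤ iso4 v (rot R (exp (s X)))` for real
antisymmetric `X` gives a first order condition (`K_first`) and a second order condition (`K_second`) at a frame with
`iso4 v R = 0`. The second order condition says that a certain hermitian matrix is positive semidefinite, and the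
trace of its product with a conjugate of its transpose is the required expression.
-/

set_option autoImplicit false
open scoped ContDiff Manifold Topology Matrix
open Set Filter

namespace Pool.Agent.Helper696_RF

open Pool.Agent.QTot Pool.Agent.H858R2

/-! ### The symmetries of `QQ R` -/

/-- `∑ R_ipkq R_jplq` -/
def K_B {n : ℕ} (R : T4 n) (i k j l : Fin n) : ℝ := ∑ p, ∑ q, R i p k q * R j p l q

theorem K_B_comm {n : ℕ} (R : T4 n) (i k j l : Fin n) : K_B R i k j l = K_B R j l i k := by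
  simp only [K_B]
  refine Finset.sum_congr rfl fun p _ => Finset.sum_congr rfl fun q _ => ?_
  ring

theorem K_B_rev {n : ℕ} {R : T4 n} (hR : IsAlg R) (i k j l : Fin n) : K_B R i k j l = K_B R k i l j := by
  simp only [K_B]
  rw [Finset.sum_comm]
  refine Finset.sum_congr rfl fun p _ => Finset.sum_congr rfl fun q _ => ?_
  rw [hR.pair i q k p, hR.pair j q l p]

theorem K_QQ_eq {n : ℕ} {R : T4 n} (hR : IsAlg R) (i j k l : Fin n) : QQ R i j k l =
    2 * (K_B R i j k l - K_B R i j l k + K_B R i k j l - K_B R i l j k) := by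
  have h1 : ∀ i j p q, R i j p q = R i p j q - R j p i q := by
    intro i j p q
    have := hR.bian i j p q
    have := hR.anti p i j q
    linarith
  have hA : ∑ p, ∑ q, R i j p q * R k l p q =
      K_B R i j k l - K_B R i j l k - K_B R j i k l + K_B R j i l k := by
    simp only [K_B, ← Finset.sum_sub_distrib, ← Finset.sum_add_distrib]
    refine Finset.sum_congr rfl fun p _ => Finset.sum_congr rfl fun q _ => ?_
    rw [h1 i j p q, h1 k l p q]
    ring
  have hQ : QQ R i j k l = (∑ p, ∑ q, R i j p q * R k l p q) + 2 * K_B R i k j l - 2 * K_B R i l j k := by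
    simp only [QQ, K_B, Finset.mul_sum, ← Finset.sum_add_distrib, ← Finset.sum_sub_distrib]
  rw [hQ, hA, K_B_rev hR j i k l, K_B_rev hR j i l k]
  ring

theorem IsAlg.qq {n : ℕ} {R : T4 n} (hR : IsAlg R) : IsAlg (QQ R) := by
  refine ⟨fun i j k l => ?_, fun i j k l => ?_, fun i j k l => ?_⟩
  · rw [K_QQ_eq hR, K_QQ_eq hR]
    linear_combination (-2) * K_B_rev hR i j l k + 2 * K_B_rev hR i j k l + 2 * K_B_comm R i k j l
      - 2 * K_B_comm R i l j k
  · rw [K_QQ_eq hR, K_QQ_eq hR]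
    linear_combination 2 * K_B_comm R i j k l - 2 * K_B_comm R i j l k - 2 * K_B_rev hR l k i j
      + 2 * K_B_rev hR i k j l - 2 * K_B_comm R i l j k - 2 * K_B_rev hR j k i l
  · rw [K_QQ_eq hR, K_QQ_eq hR, K_QQ_eq hR]
    linear_combination 2 * K_B_comm R i j k l - 2 * K_B_rev hR i j l k + 2 * K_B_rev hR i k j l
      - 2 * K_B_comm R i l j k - 2 * K_B_rev hR j k l i - 2 * K_B_comm R j l k i

/-! ### The complex multilinear extension -/

/-- complex vectors -/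
abbrev K_V (n : ℕ) : Type := Fin n → ℂ

/-- the basis tensors -/
noncomputable def K_q {n : ℕ} (a b c d : Fin n) : K_V n →ₗ[ℂ] K_V n →ₗ[ℂ] K_V n →ₗ[ℂ] K_V n →ₗ[ℂ] ℂ :=
  (LinearMap.proj a).smulRight ((LinearMap.proj b).smulRight
    ((LinearMap.proj c).smulRight (LinearMap.proj d : K_V n →ₗ[ℂ] ℂ)))

/-- the complex multilinear extension of a tensor -/
noncomputable def K_C {n : ℕ} (T : T4 n) : K_V n →ₗ[ℂ] K_V n →ₗ[ℂ] K_V n →ₗ[ℂ] K_V n →ₗ[ℂ] ℂ :=
  ∑ a, ∑ b, ∑ c, ∑ d, (T a b c d : ℂ) • K_q a b c d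

theorem K_C_apply {n : ℕ} (T : T4 n) (x y z w : K_V n) : K_C T x y z w =
    ∑ a, ∑ b, ∑ c, ∑ d, (T a b c d : ℂ) * (x a * (y b * (z c * w d))) := by
  simp only [K_C, K_q, LinearMap.sum_apply, LinearMap.smul_apply, LinearMap.smulRight_apply, LinearMap.proj_apply,
    smul_eq_mul]

theorem K_C_single {n : ℕ} (T : T4 n) (a b c d : Fin n) :
    K_C T (Pi.single a 1) (Pi.single b 1) (Pi.single c 1) (Pi.single d 1) = (T a b c d : ℂ) := by
  rw [K_C_apply]
  simp [Pi.single_apply]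

theorem K_anti {n : ℕ} {T : T4 n} (hT : IsAlg T) (x y z w : K_V n) : K_C T x y z w = -K_C T y x z w := by
  rw [K_C_apply, K_C_apply, Finset.sum_comm]
  simp only [← Finset.sum_neg_distrib]
  refine Finset.sum_congr rfl fun a _ => Finset.sum_congr rfl fun b _ =>
    Finset.sum_congr rfl fun c _ => Finset.sum_congr rfl fun d _ => ?_
  rw [hT.anti b a c d]
  push_cast
  ring

theorem K_sw13 {n : ℕ} (g : Fin n → Fin n → Fin n → Fin n → ℂ) :
    ∑ a, ∑ b, ∑ c, ∑ d, g a b c d = ∑ c, ∑ d, ∑ a, ∑ b, g a b c d := by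
  calc _ = ∑ a, ∑ c, ∑ d, ∑ b, g a b c d := by
        refine Finset.sum_congr rfl fun a _ => ?_
        rw [Finset.sum_comm]
        refine Finset.sum_congr rfl fun c _ => ?_
        rw [Finset.sum_comm]
    _ = ∑ c, ∑ a, ∑ d, ∑ b, g a b c d := Finset.sum_comm
    _ = _ := by
        refine Finset.sum_congr rfl fun c _ => ?_
        rw [Finset.sum_comm]

theorem K_pair {n : ℕ} {T : T4 n} (hT : IsAlg T) (x y z w : K_V n) : K_C T x y z w = K_C T z w x y := by
  rw [K_C_apply, K_C_apply, K_sw13]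
  refine Finset.sum_congr rfl fun a _ => Finset.sum_congr rfl fun b _ =>
    Finset.sum_congr rfl fun c _ => Finset.sum_congr rfl fun d _ => ?_
  rw [hT.pair c d a b]
  ring

theorem K_anti2 {n : ℕ} {T : T4 n} (hT : IsAlg T) (x y z w : K_V n) : K_C T x y z w = -K_C T x y w z := by
  rw [K_pair hT, K_anti hT, K_pair hT]

theorem K_self {n : ℕ} {T : T4 n} (hT : IsAlg T) (x z w : K_V n) : K_C T x x z w = 0 := by
  have := K_anti hT x x z w
  linear_combination (1 / 2 : ℂ) * this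

theorem K_self2 {n : ℕ} {T : T4 n} (hT : IsAlg T) (x y z : K_V n) : K_C T x y z z = 0 := by
  rw [K_pair hT, K_self hT]

theorem K_bian {n : ℕ} {T : T4 n} (hT : IsAlg T) (x y z w : K_V n) :
    K_C T x y z w + K_C T y z x w + K_C T z x y w = 0 := by
  have e1 : K_C T y z x w = ∑ a, ∑ b, ∑ c, ∑ d, (T b c a d : ℂ) * (x a * (y b * (z c * w d))) := by
    rw [K_C_apply]
    calc _ = ∑ b, ∑ a, ∑ c, ∑ d, (T b c a d : ℂ) * (y b * (z c * (x a * w d))) := by
          refine Finset.sum_congr rfl fun b _ => ?_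
          rw [Finset.sum_comm]
      _ = ∑ a, ∑ b, ∑ c, ∑ d, (T b c a d : ℂ) * (y b * (z c * (x a * w d))) := Finset.sum_comm
      _ = _ := by
        refine Finset.sum_congr rfl fun a _ => Finset.sum_congr rfl fun b _ =>
          Finset.sum_congr rfl fun c _ => Finset.sum_congr rfl fun d _ => ?_
        ring
  have e2 : K_C T z x y w = ∑ a, ∑ b, ∑ c, ∑ d, (T c a b d : ℂ) * (x a * (y b * (z c * w d))) := by
    rw [K_C_apply]
    calc _ = ∑ a, ∑ c, ∑ b, ∑ d, (T c a b d : ℂ) * (z c * (x a * (y b * w d))) := Finset.sum_comm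
      _ = ∑ a, ∑ b, ∑ c, ∑ d, (T c a b d : ℂ) * (z c * (x a * (y b * w d))) := by
          refine Finset.sum_congr rfl fun a _ => ?_
          rw [Finset.sum_comm]
      _ = _ := by
        refine Finset.sum_congr rfl fun a _ => Finset.sum_congr rfl fun b _ =>
          Finset.sum_congr rfl fun c _ => Finset.sum_congr rfl fun d _ => ?_
        ring
  rw [K_C_apply T x y z w, e1, e2]
  simp only [← Finset.sum_add_distrib]
  refine Finset.sum_eq_zero fun a _ => Finset.sum_eq_zero fun b _ =>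
    Finset.sum_eq_zero fun c _ => Finset.sum_eq_zero fun d _ => ?_
  have : ((T a b c d : ℂ) + (T b c a d : ℂ) + (T c a b d : ℂ)) = 0 := by
    have := hT.bian a b c d
    exact_mod_cast this
  linear_combination (x a * (y b * (z c * w d))) * this

theorem K_conj {n : ℕ} (T : T4 n) (x y z w : K_V n) :
    star (K_C T x y z w) = K_C T (star x) (star y) (star z) (star w) := by
  simp only [K_C_apply, star_sum, star_mul', Pi.star_apply]
  refine Finset.sum_congr rfl fun a _ => Finset.sum_congr rfl fun b _ =>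
    Finset.sum_congr rfl fun c _ => Finset.sum_congr rfl fun d _ => ?_
  have : star ((T a b c d : ℝ) : ℂ) = (T a b c d : ℂ) := Complex.conj_ofReal _
  rw [this]

theorem K_mv {n : ℕ} {ι : Type} [Fintype ι] (g : ι → Fin n → Fin n → ℂ) :
    ∑ x, ∑ p, ∑ q, g x p q = ∑ p, ∑ q, ∑ x, g x p q := by
  rw [Finset.sum_comm]
  refine Finset.sum_congr rfl fun p _ => ?_
  rw [Finset.sum_comm]

theorem K_s6 {n : ℕ} (g : Fin n → Fin n → Fin n → Fin n → Fin n → Fin n → ℂ) :
    ∑ a, ∑ b, ∑ c, ∑ d, ∑ p, ∑ q, g a b c d p q = ∑ p, ∑ q, ∑ a, ∑ b, ∑ c, ∑ d, g a b c d p q := by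
  calc _ = ∑ a, ∑ b, ∑ c, ∑ p, ∑ q, ∑ d, g a b c d p q := by
        refine Finset.sum_congr rfl fun a _ => Finset.sum_congr rfl fun b _ =>
          Finset.sum_congr rfl fun c _ => K_mv _
    _ = ∑ a, ∑ b, ∑ p, ∑ q, ∑ c, ∑ d, g a b c d p q := by
        refine Finset.sum_congr rfl fun a _ => Finset.sum_congr rfl fun b _ => K_mv _
    _ = ∑ a, ∑ p, ∑ q, ∑ b, ∑ c, ∑ d, g a b c d p q := by
        refine Finset.sum_congr rfl fun a _ => K_mv _
    _ = _ := K_mv _

theorem K_fac1 {n : ℕ} (f g : Fin n → Fin n → ℂ) :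
    ∑ a, ∑ b, ∑ c, ∑ d, f a b * g c d = (∑ a, ∑ b, f a b) * (∑ c, ∑ d, g c d) := by
  simp only [← Finset.mul_sum, ← Finset.sum_mul]

theorem K_fac2 {n : ℕ} (f g : Fin n → Fin n → ℂ) :
    ∑ a, ∑ b, ∑ c, ∑ d, f a c * g b d = (∑ a, ∑ c, f a c) * (∑ b, ∑ d, g b d) := by
  rw [← K_fac1]
  refine Finset.sum_congr rfl fun a _ => ?_
  rw [Finset.sum_comm]

theorem K_fac3 {n : ℕ} (f g : Fin n → Fin n → ℂ) :
    ∑ a, ∑ b, ∑ c, ∑ d, f a d * g b c = (∑ a, ∑ d, f a d) * (∑ b, ∑ c, g b c) := by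
  rw [← K_fac1]
  refine Finset.sum_congr rfl fun a _ => ?_
  rw [← K_mv]

theorem K_lin {n : ℕ} (f g h : Fin n → Fin n → Fin n → Fin n → ℂ) :
    ∑ a, ∑ b, ∑ c, ∑ d, (f a b c d + 2 * g a b c d - 2 * h a b c d) =
      ∑ a, ∑ b, ∑ c, ∑ d, f a b c d + 2 * ∑ a, ∑ b, ∑ c, ∑ d, g a b c d
        - 2 * ∑ a, ∑ b, ∑ c, ∑ d, h a b c d := by
  simp only [Finset.sum_add_distrib, Finset.sum_sub_distrib, Finset.mul_sum]

/-- the basis vectors -/
noncomputable def K_b {n : ℕ} (p : Fin n) : K_V n := Pi.single p 1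

theorem K_C34 {n : ℕ} (R : T4 n) (x y : K_V n) (p q : Fin n) : K_C R x y (K_b p) (K_b q) =
    ∑ a, ∑ b, (R a b p q : ℂ) * (x a * y b) := by
  rw [K_C_apply]
  refine Finset.sum_congr rfl fun a _ => Finset.sum_congr rfl fun b _ => ?_
  simp [K_b, Pi.single_apply]

theorem K_C24 {n : ℕ} (R : T4 n) (x z : K_V n) (p q : Fin n) : K_C R x (K_b p) z (K_b q) =
    ∑ a, ∑ c, (R a p c q : ℂ) * (x a * z c) := by
  rw [K_C_apply]
  refine Finset.sum_congr rfl fun a _ => ?_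
  simp [K_b, Pi.single_apply]

theorem K_QQ {n : ℕ} (R : T4 n) (x y z w : K_V n) : K_C (QQ R) x y z w =
    ∑ p, ∑ q, (K_C R x y (K_b p) (K_b q) * K_C R z w (K_b p) (K_b q)
      + 2 * (K_C R x (K_b p) z (K_b q) * K_C R y (K_b p) w (K_b q))
      - 2 * (K_C R x (K_b p) w (K_b q) * K_C R y (K_b p) z (K_b q))) := by
  rw [K_C_apply]
  have e1 : ∀ a b c d, (QQ R a b c d : ℂ) * (x a * (y b * (z c * w d))) =
      ∑ p, ∑ q, (((R a b p q : ℂ) * (x a * y b)) * ((R c d p q : ℂ) * (z c * w d))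
        + 2 * (((R a p c q : ℂ) * (x a * z c)) * ((R b p d q : ℂ) * (y b * w d)))
        - 2 * (((R a p d q : ℂ) * (x a * w d)) * ((R b p c q : ℂ) * (y b * z c)))) := by
    intro a b c d
    simp only [QQ, Complex.ofReal_sum, Finset.sum_mul]
    refine Finset.sum_congr rfl fun p _ => Finset.sum_congr rfl fun q _ => ?_
    push_cast
    ring
  simp only [e1]
  rw [K_s6]
  refine Finset.sum_congr rfl fun p _ => Finset.sum_congr rfl fun q _ => ?_
  rw [K_lin (fun a b c d => ((R a b p q : ℂ) * (x a * y b)) * ((R c d p q : ℂ) * (z c * w d)))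
    (fun a b c d => ((R a p c q : ℂ) * (x a * z c)) * ((R b p d q : ℂ) * (y b * w d)))
    (fun a b c d => ((R a p d q : ℂ) * (x a * w d)) * ((R b p c q : ℂ) * (y b * z c)))]
  rw [K_fac1 (fun a b => (R a b p q : ℂ) * (x a * y b)) (fun c d => (R c d p q : ℂ) * (z c * w d)),
    K_fac2 (fun a c => (R a p c q : ℂ) * (x a * z c)) (fun b d => (R b p d q : ℂ) * (y b * w d)),
    K_fac3 (fun a d => (R a p d q : ℂ) * (x a * w d)) (fun b c => (R b p c q : ℂ) * (y b * z c)),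
    K_C34, K_C34, K_C24, K_C24, K_C24, K_C24]

/-! ### Real matrices acting on complex vectors -/

/-- the action of a real matrix on complex vectors -/
noncomputable def K_act {n : ℕ} (X : Mt n) : K_V n →ₗ[ℂ] K_V n := Matrix.mulVecLin (X.map Complex.ofReal)

theorem K_act_apply {n : ℕ} (X : Mt n) (z : K_V n) (i : Fin n) : K_act X z i = ∑ j, (X i j : ℂ) * z j := by
  simp [K_act, Matrix.mulVec, dotProduct]

theorem K_act_mul {n : ℕ} (X Y : Mt n) (z : K_V n) : K_act (X * Y) z = K_act X (K_act Y z) := by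
  have : (X * Y).map Complex.ofReal = X.map Complex.ofReal * Y.map Complex.ofReal := by
    ext i j
    simp [Matrix.mul_apply]
  simp only [K_act, this, Matrix.mulVecLin_apply, Matrix.mulVec_mulVec]

theorem K_act_one {n : ℕ} (z : K_V n) : K_act 1 z = z := by
  funext i
  rw [K_act_apply, Finset.sum_eq_single i]
  · simp
  · intro b _ hb
    simp [hb.symm]
  · simp

theorem K_rot {n : ℕ} (R : T4 n) (E : Mt n) (a b c d : Fin n) : ((rot R E a b c d : ℝ) : ℂ) =
    K_C R (K_act E (K_b a)) (K_act E (K_b b)) (K_act E (K_b c)) (K_act E (K_b d)) := by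
  have h : ∀ (a i : Fin n), K_act E (K_b a) i = (E i a : ℂ) := by
    intro a i
    rw [K_act_apply]
    simp [K_b, Pi.single_apply]
  rw [K_C_apply]
  simp only [h, rot, Complex.ofReal_sum]
  refine Finset.sum_congr rfl fun a _ => Finset.sum_congr rfl fun b _ =>
    Finset.sum_congr rfl fun c _ => Finset.sum_congr rfl fun d _ => ?_
  push_cast
  ring

theorem K_iso {n : ℕ} {R : T4 n} (hR : IsAlg R) (p q r s : K_V n) :
    K_C R (p + Complex.I • q) (r + Complex.I • s) (p - Complex.I • q) (r - Complex.I • s) =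
      K_C R p r p r + K_C R p s p s + K_C R q r q r + K_C R q s q s - 2 * K_C R p q r s := by
  simp only [map_add, map_sub, map_smul, LinearMap.add_apply, LinearMap.sub_apply, LinearMap.smul_apply, smul_eq_mul]
  rw [K_pair hR p s p r, K_pair hR q r p r, K_pair hR q s p r, K_pair hR q r p s, K_pair hR q s p s,
    K_pair hR q s q r]
  have hb := K_bian hR p q r s
  rw [K_anti hR r p q s, K_pair hR q r p s] at hb
  linear_combination (2 * K_C R p r q s - K_C R p s p s - 2 * K_C R p s q r - K_C R q r q r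
    + (Complex.I ^ 2 - 1) * K_C R q s q s) * Complex.I_sq + 2 * hb

/-! ### Variations -/

theorem K_hd {n : ℕ} (T : T4 n) (x y z w : ℝ → K_V n) (x' y' z' w' : K_V n) (s : ℝ)
    (hx : ∀ i, HasDerivAt (fun t => x t i) (x' i) s) (hy : ∀ i, HasDerivAt (fun t => y t i) (y' i) s)
    (hz : ∀ i, HasDerivAt (fun t => z t i) (z' i) s) (hw : ∀ i, HasDerivAt (fun t => w t i) (w' i) s) :
    HasDerivAt (fun t => K_C T (x t) (y t) (z t) (w t))
      (K_C T x' (y s) (z s) (w s) + K_C T (x s) y' (z s) (w s) + K_C T (x s) (y s) z' (w s)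
        + K_C T (x s) (y s) (z s) w') s := by
  have e : K_C T x' (y s) (z s) (w s) + K_C T (x s) y' (z s) (w s) + K_C T (x s) (y s) z' (w s)
        + K_C T (x s) (y s) (z s) w' = ∑ a, ∑ b, ∑ c, ∑ d, ((T a b c d : ℂ) *
          (x' a * (y s b * (z s c * w s d)) + x s a * (y' b * (z s c * w s d) + y s b *
            (z' c * w s d + z s c * w' d)))) := by
    simp only [K_C_apply, ← Finset.sum_add_distrib]
    refine Finset.sum_congr rfl fun a _ => Finset.sum_congr rfl fun b _ =>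
      Finset.sum_congr rfl fun c _ => Finset.sum_congr rfl fun d _ => ?_
    ring
  rw [e]
  simp only [K_C_apply]
  refine HasDerivAt.fun_sum fun a _ => HasDerivAt.fun_sum fun b _ => HasDerivAt.fun_sum fun c _ =>
    HasDerivAt.fun_sum fun d _ => ?_
  exact ((hx a).fun_mul ((hy b).fun_mul ((hz c).fun_mul (hw d)))).const_mul _

open scoped Matrix.Norms.Operator in
theorem K_exp0 {n : ℕ} (X : Mt n) (s : ℝ) (i j : Fin n) :
    HasDerivAt (fun t : ℝ => NormedSpace.exp (t • X) i j) ((X * NormedSpace.exp (s • X)) i j) s := by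
  have h := hasDerivAt_exp_smul_const' (𝕂 := ℝ) X s
  let L : Mt n →L[ℝ] ℝ := LinearMap.toContinuousLinearMap (Matrix.entryLinearMap ℝ ℝ i j)
  exact L.hasFDerivAt.comp_hasDerivAt s h

/-- the rotation `exp (s X)` -/
noncomputable def K_E {n : ℕ} (X : Mt n) (s : ℝ) : Mt n := NormedSpace.exp (s • X)

theorem K_E_zero {n : ℕ} (X : Mt n) : K_E X 0 = 1 := by
  rw [K_E, zero_smul]
  exact NormedSpace.exp_zero

theorem K_E_orth {n : ℕ} {X : Mt n} (hX : Xᵀ = -X) (s : ℝ) : (K_E X s)ᵀ * K_E X s = 1 := by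
  rw [K_E, ← Matrix.exp_transpose, Matrix.transpose_smul, hX, ← Matrix.exp_add_of_commute]
  · rw [smul_neg, neg_add_cancel]
    exact NormedSpace.exp_zero
  · exact ((Commute.refl X).neg_left.smul_left s).smul_right s

theorem K_exp {n : ℕ} (X : Mt n) (z : K_V n) (s : ℝ) (i : Fin n) :
    HasDerivAt (fun t : ℝ => K_act (K_E X t) z i) (K_act X (K_act (K_E X s) z) i) s := by
  rw [← K_act_mul, K_act_apply]
  simp only [K_act_apply]
  refine HasDerivAt.fun_sum fun j _ => ?_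
  exact ((K_exp0 X s i j).ofReal_comp).mul_const _

theorem K_exp2 {n : ℕ} (X : Mt n) (z : K_V n) (s : ℝ) (i : Fin n) :
    HasDerivAt (fun t : ℝ => K_act X (K_act (K_E X t) z) i)
      (K_act X (K_act X (K_act (K_E X s) z)) i) s := by
  rw [K_act_apply]
  simp only [K_act_apply X (K_act _ z)]
  refine HasDerivAt.fun_sum fun j _ => ?_
  exact (K_exp X z s j).const_mul _

theorem K_min {g D1 : ℝ → ℂ} {D2 : ℂ} (h1 : ∀ s, HasDerivAt g (D1 s) s) (h2 : HasDerivAt D1 D2 0)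
    (h0 : (g 0).re = 0) (hpos : ∀ s, 0 ≤ (g s).re) : (D1 0).re = 0 ∧ 0 ≤ D2.re := by
  have hf : ∀ s, HasDerivAt (fun t => (g t).re) (D1 s).re s := fun s =>
    (Complex.reCLM.hasFDerivAt).comp_hasDerivAt s (h1 s)
  have hf2 : HasDerivAt (fun t => (D1 t).re) D2.re 0 :=
    (Complex.reCLM.hasFDerivAt).comp_hasDerivAt 0 h2
  have hd : deriv (fun t => (g t).re) = fun t => (D1 t).re := funext fun s => (hf s).deriv
  have hmin : IsLocalMin (fun t => (g t).re) 0 := by
    refine Filter.Eventually.of_forall fun s => ?_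
    show (g 0).re ≤ (g s).re
    rw [h0]
    exact hpos s
  have hd0 : (D1 0).re = 0 := hmin.hasDerivAt_eq_zero (hf 0)
  refine ⟨hd0, ?_⟩
  by_contra hcon
  push Not at hcon
  have hmax : IsLocalMax (fun t => (g t).re) 0 := by
    apply isLocalMax_of_deriv_deriv_neg
    · rw [hd, hf2.deriv]
      exact hcon
    · rw [hd]
      exact hd0
    · exact (hf 0).continuousAt
  have e : (fun t => (g t).re) =ᶠ[𝓝 0] fun _ => (0 : ℝ) := by
    filter_upwards [hmax] with s hs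
    have h3 : (g s).re ≤ (g 0).re := hs
    have h4 := hpos s
    linarith
  have e2 : (fun t => (D1 t).re) =ᶠ[𝓝 0] fun _ => (0 : ℝ) := by
    have := e.deriv
    rw [hd] at this
    filter_upwards [this] with s hs
    rw [hs]
    simp
  have e3 : D2.re = 0 := by
    rw [← hf2.deriv, e2.deriv_eq]
    simp
  linarith

/-! ### The frame -/

/-- `ζ` -/
noncomputable def K_z {n : ℕ} (v : Fin 4 → Fin n) : K_V n := K_b (v 0) + Complex.I • K_b (v 1)
/-- the conjugate of `ζ` -/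
noncomputable def K_zb {n : ℕ} (v : Fin 4 → Fin n) : K_V n := K_b (v 0) - Complex.I • K_b (v 1)
/-- `η` -/
noncomputable def K_e {n : ℕ} (v : Fin 4 → Fin n) : K_V n := K_b (v 2) + Complex.I • K_b (v 3)
/-- the conjugate of `η` -/
noncomputable def K_eb {n : ℕ} (v : Fin 4 → Fin n) : K_V n := K_b (v 2) - Complex.I • K_b (v 3)

theorem K_star_b {n : ℕ} (p : Fin n) : star (K_b p) = K_b p := by
  funext i
  simp only [K_b, Pi.star_apply, Pi.single_apply]
  split <;> simp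

theorem K_star_z {n : ℕ} (v : Fin 4 → Fin n) : star (K_z v) = K_zb v := by
  have h : star Complex.I = -Complex.I := Complex.conj_I
  rw [K_z, K_zb, star_add, star_smul, K_star_b, K_star_b, h, neg_smul, sub_eq_add_neg]

theorem K_star_zb {n : ℕ} (v : Fin 4 → Fin n) : star (K_zb v) = K_z v := by
  rw [← K_star_z, star_star]

theorem K_star_e {n : ℕ} (v : Fin 4 → Fin n) : star (K_e v) = K_eb v := by
  have h : star Complex.I = -Complex.I := Complex.conj_I
  rw [K_e, K_eb, star_add, star_smul, K_star_b, K_star_b, h, neg_smul, sub_eq_add_neg]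

theorem K_star_eb {n : ℕ} (v : Fin 4 → Fin n) : star (K_eb v) = K_e v := by
  rw [← K_star_e, star_star]

theorem K_iso4 {n : ℕ} (v : Fin 4 → Fin n) (T : T4 n) : iso4 v T =
    T (v 0) (v 2) (v 0) (v 2) + T (v 0) (v 3) (v 0) (v 3) + T (v 1) (v 2) (v 1) (v 2)
      + T (v 1) (v 3) (v 1) (v 3) - 2 * T (v 0) (v 1) (v 2) (v 3) := rfl

theorem K_iso_eq {n : ℕ} {T : T4 n} (hT : IsAlg T) (v : Fin 4 → Fin n) :
    ((iso4 v T : ℝ) : ℂ) = K_C T (K_z v) (K_e v) (K_zb v) (K_eb v) := by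
  rw [K_z, K_e, K_zb, K_eb, K_iso hT, K_iso4]
  simp only [K_b, K_C_single]
  push_cast
  ring

theorem K_iso_rot {n : ℕ} {R : T4 n} (hR : IsAlg R) (v : Fin 4 → Fin n) (E : Mt n) :
    ((iso4 v (rot R E) : ℝ) : ℂ) =
      K_C R (K_act E (K_z v)) (K_act E (K_e v)) (K_act E (K_zb v)) (K_act E (K_eb v)) := by
  rw [K_z, K_e, K_zb, K_eb]
  simp only [map_add, map_sub, map_smul]
  have h := K_iso hR (K_act E (K_b (v 0))) (K_act E (K_b (v 1))) (K_act E (K_b (v 2))) (K_act E (K_b (v 3)))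
  simp only [map_add, map_sub, map_smul] at h
  rw [h, K_iso4]
  push_cast
  simp only [K_rot]

theorem K_var {n : ℕ} {R : T4 n} (hR : IsAlg R) (hp : PIC R) (v : Fin 4 → Fin n)
    (hv : Function.Injective v) (h0 : iso4 v R = 0) (X : Mt n) (hX : Xᵀ = -X) :
    (K_C R (K_act X (K_z v)) (K_e v) (K_zb v) (K_eb v) + K_C R (K_z v) (K_act X (K_e v)) (K_zb v) (K_eb v)
      + K_C R (K_z v) (K_e v) (K_act X (K_zb v)) (K_eb v)
      + K_C R (K_z v) (K_e v) (K_zb v) (K_act X (K_eb v))).re = 0 ∧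
    0 ≤ ((K_C R (K_act X (K_act X (K_z v))) (K_e v) (K_zb v) (K_eb v)
      + K_C R (K_act X (K_z v)) (K_act X (K_e v)) (K_zb v) (K_eb v)
      + K_C R (K_act X (K_z v)) (K_e v) (K_act X (K_zb v)) (K_eb v)
      + K_C R (K_act X (K_z v)) (K_e v) (K_zb v) (K_act X (K_eb v)))
      + (K_C R (K_act X (K_z v)) (K_act X (K_e v)) (K_zb v) (K_eb v)
      + K_C R (K_z v) (K_act X (K_act X (K_e v))) (K_zb v) (K_eb v)
      + K_C R (K_z v) (K_act X (K_e v)) (K_act X (K_zb v)) (K_eb v)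
      + K_C R (K_z v) (K_act X (K_e v)) (K_zb v) (K_act X (K_eb v)))
      + (K_C R (K_act X (K_z v)) (K_e v) (K_act X (K_zb v)) (K_eb v)
      + K_C R (K_z v) (K_act X (K_e v)) (K_act X (K_zb v)) (K_eb v)
      + K_C R (K_z v) (K_e v) (K_act X (K_act X (K_zb v))) (K_eb v)
      + K_C R (K_z v) (K_e v) (K_act X (K_zb v)) (K_act X (K_eb v)))
      + (K_C R (K_act X (K_z v)) (K_e v) (K_zb v) (K_act X (K_eb v))
      + K_C R (K_z v) (K_act X (K_e v)) (K_zb v) (K_act X (K_eb v))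
      + K_C R (K_z v) (K_e v) (K_act X (K_zb v)) (K_act X (K_eb v))
      + K_C R (K_z v) (K_e v) (K_zb v) (K_act X (K_act X (K_eb v))))).re := by
  have h1 : ∀ s, HasDerivAt (fun t => K_C R (K_act (K_E X t) (K_z v)) (K_act (K_E X t) (K_e v))
      (K_act (K_E X t) (K_zb v)) (K_act (K_E X t) (K_eb v)))
      ((fun s => K_C R (K_act X (K_act (K_E X s) (K_z v))) (K_act (K_E X s) (K_e v))
        (K_act (K_E X s) (K_zb v)) (K_act (K_E X s) (K_eb v))
      + K_C R (K_act (K_E X s) (K_z v)) (K_act X (K_act (K_E X s) (K_e v)))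
        (K_act (K_E X s) (K_zb v)) (K_act (K_E X s) (K_eb v))
      + K_C R (K_act (K_E X s) (K_z v)) (K_act (K_E X s) (K_e v))
        (K_act X (K_act (K_E X s) (K_zb v))) (K_act (K_E X s) (K_eb v))
      + K_C R (K_act (K_E X s) (K_z v)) (K_act (K_E X s) (K_e v))
        (K_act (K_E X s) (K_zb v)) (K_act X (K_act (K_E X s) (K_eb v)))) s) s := fun s =>
    K_hd R _ _ _ _ _ _ _ _ s (K_exp X _ s) (K_exp X _ s) (K_exp X _ s) (K_exp X _ s)
  have h2 := (((K_hd R (fun s => K_act X (K_act (K_E X s) (K_z v))) (fun s => K_act (K_E X s) (K_e v))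
      (fun s => K_act (K_E X s) (K_zb v)) (fun s => K_act (K_E X s) (K_eb v)) _ _ _ _ 0
      (K_exp2 X _ 0) (K_exp X _ 0) (K_exp X _ 0) (K_exp X _ 0)).fun_add
    (K_hd R (fun s => K_act (K_E X s) (K_z v)) (fun s => K_act X (K_act (K_E X s) (K_e v)))
      (fun s => K_act (K_E X s) (K_zb v)) (fun s => K_act (K_E X s) (K_eb v)) _ _ _ _ 0
      (K_exp X _ 0) (K_exp2 X _ 0) (K_exp X _ 0) (K_exp X _ 0))).fun_add
    (K_hd R (fun s => K_act (K_E X s) (K_z v)) (fun s => K_act (K_E X s) (K_e v))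
      (fun s => K_act X (K_act (K_E X s) (K_zb v))) (fun s => K_act (K_E X s) (K_eb v)) _ _ _ _ 0
      (K_exp X _ 0) (K_exp X _ 0) (K_exp2 X _ 0) (K_exp X _ 0))).fun_add
    (K_hd R (fun s => K_act (K_E X s) (K_z v)) (fun s => K_act (K_E X s) (K_e v))
      (fun s => K_act (K_E X s) (K_zb v)) (fun s => K_act X (K_act (K_E X s) (K_eb v))) _ _ _ _ 0
      (K_exp X _ 0) (K_exp X _ 0) (K_exp X _ 0) (K_exp2 X _ 0))
  have h3 := K_min h1 h2 (by
    simp only [K_E_zero, K_act_one]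
    rw [← K_iso_eq hR, h0]
    simp) (fun s => by
    have h4 := K_iso_rot hR v (K_E X s)
    rw [← h4]
    rw [Complex.ofReal_re]
    exact hp _ (K_E_orth hX s) v hv)
  simp only [K_E_zero, K_act_one] at h3
  exact h3

/-! ### Real antisymmetric matrices with prescribed values on the frame -/

/-- the real part of `x yᴴ - conj y xᵀ` -/
noncomputable def K_W {n : ℕ} (x y : K_V n) : Mt n :=
  fun i j => (x i * star (y j)).re - (x j * star (y i)).re

theorem K_W_anti {n : ℕ} (x y : K_V n) : (K_W x y)ᵀ = -K_W x y := by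
  ext i j
  simp only [K_W, Matrix.transpose_apply, Matrix.neg_apply]
  ring

theorem K_re (w : ℂ) : ((w.re : ℝ) : ℂ) = (w + star w) / 2 := Complex.re_eq_add_conj w

theorem K_act_W {n : ℕ} (x y z : K_V n) : K_act (K_W x y) z =
    (1 / 2 : ℂ) • ((star y ⬝ᵥ z) • x + (y ⬝ᵥ z) • star x - (x ⬝ᵥ z) • star y - (star x ⬝ᵥ z) • y) := by
  funext i
  rw [K_act_apply]
  simp only [Pi.smul_apply, Pi.add_apply, Pi.sub_apply, smul_eq_mul, dotProduct, Finset.sum_mul, Pi.star_apply,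
    ← Finset.sum_add_distrib, ← Finset.sum_sub_distrib, Finset.mul_sum]
  refine Finset.sum_congr rfl fun j _ => ?_
  simp only [K_W]
  push_cast
  rw [K_re, K_re]
  simp only [star_mul', star_star]
  ring

theorem K_dot_b {n : ℕ} (p : Fin n) (z : K_V n) : K_b p ⬝ᵥ z = z p := by
  simp [K_b]

theorem K_dot_z {n : ℕ} (v : Fin 4 → Fin n) (x : K_V n) :
    K_z v ⬝ᵥ x = x (v 0) + Complex.I * x (v 1) := by
  simp only [K_z, add_dotProduct, smul_dotProduct, K_dot_b, smul_eq_mul]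

theorem K_dot_zb {n : ℕ} (v : Fin 4 → Fin n) (x : K_V n) :
    K_zb v ⬝ᵥ x = x (v 0) - Complex.I * x (v 1) := by
  simp only [K_zb, sub_dotProduct, smul_dotProduct, K_dot_b, smul_eq_mul]

theorem K_dot_e {n : ℕ} (v : Fin 4 → Fin n) (x : K_V n) :
    K_e v ⬝ᵥ x = x (v 2) + Complex.I * x (v 3) := by
  simp only [K_e, add_dotProduct, smul_dotProduct, K_dot_b, smul_eq_mul]

theorem K_dot_eb {n : ℕ} (v : Fin 4 → Fin n) (x : K_V n) :
    K_eb v ⬝ᵥ x = x (v 2) - Complex.I * x (v 3) := by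
  simp only [K_eb, sub_dotProduct, smul_dotProduct, K_dot_b, smul_eq_mul]

/-- vanishing on the frame directions -/
def K_N {n : ℕ} (v : Fin 4 → Fin n) (u : K_V n) : Prop := ∀ a, u (v a) = 0

theorem K_N_star {n : ℕ} {v : Fin 4 → Fin n} {u : K_V n} (hu : K_N v u) : K_N v (star u) := by
  intro a
  rw [Pi.star_apply, hu a, star_zero]

theorem K_dots {n : ℕ} {v : Fin 4 → Fin n} {u : K_V n} (hu : K_N v u) :
    u ⬝ᵥ K_z v = 0 ∧ u ⬝ᵥ K_zb v = 0 ∧ u ⬝ᵥ K_e v = 0 ∧ u ⬝ᵥ K_eb v = 0 := by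
  refine ⟨?_, ?_, ?_, ?_⟩
  · rw [dotProduct_comm, K_dot_z, hu 0, hu 1]; simp
  · rw [dotProduct_comm, K_dot_zb, hu 0, hu 1]; simp
  · rw [dotProduct_comm, K_dot_e, hu 2, hu 3]; simp
  · rw [dotProduct_comm, K_dot_eb, hu 2, hu 3]; simp

theorem K_dots' {n : ℕ} {v : Fin 4 → Fin n} {u : K_V n} (hu : K_N v u) :
    K_z v ⬝ᵥ u = 0 ∧ K_zb v ⬝ᵥ u = 0 ∧ K_e v ⬝ᵥ u = 0 ∧ K_eb v ⬝ᵥ u = 0 := by
  refine ⟨?_, ?_, ?_, ?_⟩
  · rw [K_dot_z, hu 0, hu 1]; simp
  · rw [K_dot_zb, hu 0, hu 1]; simp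
  · rw [K_dot_e, hu 2, hu 3]; simp
  · rw [K_dot_eb, hu 2, hu 3]; simp

theorem K_frame_dots {n : ℕ} {v : Fin 4 → Fin n} (hv : Function.Injective v) :
    (K_z v ⬝ᵥ K_z v = 0 ∧ K_z v ⬝ᵥ K_zb v = 2 ∧ K_z v ⬝ᵥ K_e v = 0 ∧ K_z v ⬝ᵥ K_eb v = 0) ∧
    (K_zb v ⬝ᵥ K_z v = 2 ∧ K_zb v ⬝ᵥ K_zb v = 0 ∧ K_zb v ⬝ᵥ K_e v = 0 ∧ K_zb v ⬝ᵥ K_eb v = 0) ∧
    (K_e v ⬝ᵥ K_z v = 0 ∧ K_e v ⬝ᵥ K_zb v = 0 ∧ K_e v ⬝ᵥ K_e v = 0 ∧ K_e v ⬝ᵥ K_eb v = 2) ∧
    (K_eb v ⬝ᵥ K_z v = 0 ∧ K_eb v ⬝ᵥ K_zb v = 0 ∧ K_eb v ⬝ᵥ K_e v = 2 ∧ K_eb v ⬝ᵥ K_eb v = 0) := by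
  have hb : ∀ a b : Fin 4, (K_b (v a) : K_V n) (v b) = if a = b then 1 else 0 := by
    intro a b
    simp only [K_b, Pi.single_apply, hv.eq_iff, eq_comm]
  have hI : Complex.I * Complex.I = -1 := Complex.I_mul_I
  simp only [K_dot_z, K_dot_zb, K_dot_e, K_dot_eb]
  simp only [K_z, K_zb, K_e, K_eb, Pi.add_apply, Pi.sub_apply, Pi.smul_apply, smul_eq_mul, hb]
  refine ⟨⟨?_, ?_, ?_, ?_⟩, ⟨?_, ?_, ?_, ?_⟩, ⟨?_, ?_, ?_, ?_⟩, ⟨?_, ?_, ?_, ?_⟩⟩ <;> simp <;> norm_num

theorem K_act_add {n : ℕ} (X Y : Mt n) (z : K_V n) : K_act (X + Y) z = K_act X z + K_act Y z := by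
  funext i
  simp only [K_act_apply, Pi.add_apply, Matrix.add_apply, ← Finset.sum_add_distrib]
  refine Finset.sum_congr rfl fun j _ => ?_
  push_cast
  ring

theorem K_act_star {n : ℕ} (X : Mt n) (z : K_V n) : star (K_act X z) = K_act X (star z) := by
  funext i
  rw [Pi.star_apply, K_act_apply, K_act_apply, star_sum]
  refine Finset.sum_congr rfl fun j _ => ?_
  have : star ((X i j : ℝ) : ℂ) = (X i j : ℂ) := Complex.conj_ofReal _
  rw [star_mul', this, Pi.star_apply]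

/-- the real antisymmetric matrix which takes `ζ` to `u` and `η` to `u'` -/
noncomputable def K_X {n : ℕ} (v : Fin 4 → Fin n) (u u' : K_V n) : Mt n := K_W u (K_z v) + K_W u' (K_e v)

theorem K_X_anti {n : ℕ} (v : Fin 4 → Fin n) (u u' : K_V n) : (K_X v u u')ᵀ = -K_X v u u' := by
  rw [K_X, Matrix.transpose_add, K_W_anti, K_W_anti, neg_add]

theorem K_X_z {n : ℕ} {v : Fin 4 → Fin n} (hv : Function.Injective v) {u u' : K_V n} (hu : K_N v u)
    (hu' : K_N v u') : K_act (K_X v u u') (K_z v) = u := by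
  obtain ⟨⟨a1, a2, a3, a4⟩, ⟨b1, b2, b3, b4⟩, ⟨c1, c2, c3, c4⟩, d1, d2, d3, d4⟩ := K_frame_dots hv
  rw [K_X, K_act_add, K_act_W, K_act_W, K_star_z, K_star_e, a1, b1, c1, d1, (K_dots hu).1, (K_dots hu').1,
    (K_dots (K_N_star hu)).1, (K_dots (K_N_star hu')).1]
  simp only [zero_smul, add_zero, sub_zero, smul_zero, smul_smul]
  norm_num

theorem K_X_e {n : ℕ} {v : Fin 4 → Fin n} (hv : Function.Injective v) {u u' : K_V n} (hu : K_N v u)
    (hu' : K_N v u') : K_act (K_X v u u') (K_e v) = u' := by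
  obtain ⟨⟨a1, a2, a3, a4⟩, ⟨b1, b2, b3, b4⟩, ⟨c1, c2, c3, c4⟩, d1, d2, d3, d4⟩ := K_frame_dots hv
  rw [K_X, K_act_add, K_act_W, K_act_W, K_star_z, K_star_e, a3, b3, c3, d3, (K_dots hu).2.2.1,
    (K_dots hu').2.2.1, (K_dots (K_N_star hu)).2.2.1, (K_dots (K_N_star hu')).2.2.1]
  simp only [zero_smul, add_zero, sub_zero, smul_zero, smul_smul]
  norm_num

theorem K_X_zb {n : ℕ} {v : Fin 4 → Fin n} (hv : Function.Injective v) {u u' : K_V n} (hu : K_N v u)
    (hu' : K_N v u') : K_act (K_X v u u') (K_zb v) = star u := by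
  rw [← K_star_z, ← K_act_star, K_X_z hv hu hu']

theorem K_X_eb {n : ℕ} {v : Fin 4 → Fin n} (hv : Function.Injective v) {u u' : K_V n} (hu : K_N v u)
    (hu' : K_N v u') : K_act (K_X v u u') (K_eb v) = star u' := by
  rw [← K_star_e, ← K_act_star, K_X_e hv hu hu']

theorem K_X_act {n : ℕ} {v : Fin 4 → Fin n} {u u' x : K_V n} (hx : K_N v x) :
    K_act (K_X v u u') x = (-(1 / 2) : ℂ) • ((u ⬝ᵥ x) • K_zb v + (star u ⬝ᵥ x) • K_z v + (u' ⬝ᵥ x) • K_eb v
      + (star u' ⬝ᵥ x) • K_e v) := by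
  rw [K_X, K_act_add, K_act_W, K_act_W, K_star_z, K_star_e, (K_dots' hx).1, (K_dots' hx).2.1,
    (K_dots' hx).2.2.1, (K_dots' hx).2.2.2]
  simp only [zero_smul, add_zero, zero_sub, smul_sub, smul_add, neg_smul, smul_neg]
  abel

/-- the hermitian form of the second variation -/
noncomputable def K_Q {n : ℕ} (R : T4 n) (v : Fin 4 → Fin n) (u u' : K_V n) : ℂ :=
  K_C R u (K_e v) (star u) (K_eb v) + K_C R u (K_e v) (K_zb v) (star u')
    + K_C R (K_z v) u' (star u) (K_eb v) + K_C R (K_z v) u' (K_zb v) (star u')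

theorem K_second {n : ℕ} {R : T4 n} (hR : IsAlg R) (hp : PIC R) {v : Fin 4 → Fin n}
    (hv : Function.Injective v) (h0 : iso4 v R = 0) {u u' : K_V n} (hu : K_N v u) (hu' : K_N v u') :
    0 ≤ (K_Q R v u u').re := by
  have hIu : K_N v (Complex.I • u) := fun a => by rw [Pi.smul_apply, hu a, smul_zero]
  have hIu' : K_N v (Complex.I • u') := fun a => by rw [Pi.smul_apply, hu' a, smul_zero]
  have h1 := (K_var hR hp v hv h0 (K_X v u u') (K_X_anti v u u')).2
  have h2 := (K_var hR hp v hv h0 (K_X v (Complex.I • u) (Complex.I • u')) (K_X_anti v _ _)).2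
  have hz : K_C R (K_z v) (K_e v) (K_zb v) (K_eb v) = 0 := by
    rw [← K_iso_eq hR, h0]
    simp
  have hI : star Complex.I = -Complex.I := Complex.conj_I
  rw [K_X_z hv hu hu', K_X_e hv hu hu', K_X_zb hv hu hu', K_X_eb hv hu hu', K_X_act hu, K_X_act hu',
    K_X_act (K_N_star hu), K_X_act (K_N_star hu')] at h1
  rw [K_X_z hv hIu hIu', K_X_e hv hIu hIu', K_X_zb hv hIu hIu', K_X_eb hv hIu hIu', K_X_act hIu, K_X_act hIu',
    K_X_act (K_N_star hIu), K_X_act (K_N_star hIu')] at h2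
  have h3 := add_nonneg h1 h2
  rw [← Complex.add_re] at h3
  have key : ∀ z : ℂ, z = 4 * K_Q R v u u' → 0 ≤ z.re → 0 ≤ (K_Q R v u u').re := by
    intro z hz hz'
    rw [hz] at hz'
    simp only [Complex.mul_re] at hz'
    norm_num at hz'
    exact hz'
  refine key _ ?_ h3
  simp only [K_Q, map_add, map_smul, LinearMap.add_apply, LinearMap.smul_apply, smul_eq_mul, star_smul,
    smul_dotProduct, dotProduct_smul, hI, K_self hR, K_self2 hR, hz]
  ring_nf
  simp only [Complex.I_sq]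
  ring_nf

theorem K_first {n : ℕ} {R : T4 n} (hR : IsAlg R) (hp : PIC R) {v : Fin 4 → Fin n}
    (hv : Function.Injective v) (h0 : iso4 v R = 0) {X : Mt n} (hX : Xᵀ = -X) :
    (K_C R (K_act X (K_z v)) (K_e v) (K_zb v) (K_eb v)
      + K_C R (K_z v) (K_act X (K_e v)) (K_zb v) (K_eb v)).re = 0 := by
  have h1 := (K_var hR hp v hv h0 X hX).1
  have e1 : K_C R (K_z v) (K_e v) (K_act X (K_zb v)) (K_eb v) =
      star (K_C R (K_act X (K_z v)) (K_e v) (K_zb v) (K_eb v)) := by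
    rw [K_conj, K_act_star, K_star_z, K_star_e, K_star_zb, K_star_eb, K_pair hR]
  have e2 : K_C R (K_z v) (K_e v) (K_zb v) (K_act X (K_eb v)) =
      star (K_C R (K_z v) (K_act X (K_e v)) (K_zb v) (K_eb v)) := by
    rw [K_conj, K_act_star, K_star_z, K_star_e, K_star_zb, K_star_eb, K_pair hR]
  have e3 : ∀ z : ℂ, (star z).re = z.re := fun z => Complex.conj_re z
  rw [e1, e2] at h1
  simp only [Complex.add_re, e3] at h1 ⊢
  linarith

theorem K_re_zero {z : ℂ} (h1 : z.re = 0) (h2 : (Complex.I * z).re = 0) : z = 0 := by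
  apply Complex.ext
  · exact h1
  · simpa using h2

theorem K_F1 {n : ℕ} {R : T4 n} (hR : IsAlg R) (hp : PIC R) {v : Fin 4 → Fin n}
    (hv : Function.Injective v) (h0 : iso4 v R = 0) {u : K_V n} (hu : K_N v u) :
    K_C R u (K_e v) (K_zb v) (K_eb v) = 0 ∧ K_C R (K_z v) u (K_zb v) (K_eb v) = 0 := by
  have hN0 : K_N v (0 : K_V n) := fun a => rfl
  have hIu : K_N v (Complex.I • u) := fun a => by rw [Pi.smul_apply, hu a, smul_zero]
  have h1 := K_first hR hp hv h0 (K_X_anti v u 0)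
  have h2 := K_first hR hp hv h0 (K_X_anti v (Complex.I • u) 0)
  have h3 := K_first hR hp hv h0 (K_X_anti v 0 u)
  have h4 := K_first hR hp hv h0 (K_X_anti v 0 (Complex.I • u))
  rw [K_X_z hv hu hN0, K_X_e hv hu hN0] at h1
  rw [K_X_z hv hIu hN0, K_X_e hv hIu hN0] at h2
  rw [K_X_z hv hN0 hu, K_X_e hv hN0 hu] at h3
  rw [K_X_z hv hN0 hIu, K_X_e hv hN0 hIu] at h4
  simp only [map_zero, LinearMap.zero_apply, add_zero, zero_add, map_smul, LinearMap.smul_apply,
    smul_eq_mul] at h1 h2 h3 h4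
  exact ⟨K_re_zero h1 h2, K_re_zero h3 h4⟩

theorem K_F2 {n : ℕ} {R : T4 n} (hR : IsAlg R) (hp : PIC R) {v : Fin 4 → Fin n}
    (hv : Function.Injective v) (h0 : iso4 v R = 0) :
    K_C R (K_eb v) (K_e v) (K_zb v) (K_eb v) = K_C R (K_z v) (K_zb v) (K_zb v) (K_eb v) := by
  obtain ⟨⟨a1, a2, a3, a4⟩, ⟨b1, b2, b3, b4⟩, ⟨c1, c2, c3, c4⟩, d1, d2, d3, d4⟩ := K_frame_dots hv
  have hz : ∀ β : ℂ, K_act (K_W (β • K_eb v) (K_z v)) (K_z v) = β • K_eb v := by
    intro β
    rw [K_act_W, K_star_z, b1, a1, star_smul, K_star_eb, smul_dotProduct, smul_dotProduct, d1, c1]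
    simp only [smul_eq_mul, mul_zero]
    module
  have he : ∀ β : ℂ, K_act (K_W (β • K_eb v) (K_z v)) (K_e v) = -(β • K_zb v) := by
    intro β
    rw [K_act_W, K_star_z, b3, a3, star_smul, K_star_eb, smul_dotProduct, smul_dotProduct, d3, c3]
    simp only [smul_eq_mul, mul_zero]
    module
  have h : ∀ β : ℂ, (β * (K_C R (K_eb v) (K_e v) (K_zb v) (K_eb v)
      - K_C R (K_z v) (K_zb v) (K_zb v) (K_eb v))).re = 0 := by
    intro β
    have h1 := K_first hR hp hv h0 (K_W_anti (β • K_eb v) (K_z v))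
    rw [hz, he] at h1
    simp only [map_neg, map_smul, LinearMap.neg_apply, LinearMap.smul_apply, smul_eq_mul] at h1
    rw [mul_sub, sub_eq_add_neg]
    exact h1
  have := K_re_zero (z := K_C R (K_eb v) (K_e v) (K_zb v) (K_eb v)
      - K_C R (K_z v) (K_zb v) (K_zb v) (K_eb v)) (by simpa using h 1) (h Complex.I)
  exact sub_eq_zero.1 this

/-! ### Projection to the complement of the frame -/

open Classical in
/-- the projection of the basis vectors to the complement of the frame -/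
noncomputable def K_pi {n : ℕ} (v : Fin 4 → Fin n) (k : Fin n) : K_V n :=
  if ∀ a, v a ≠ k then K_b k else 0

theorem K_N_pi {n : ℕ} (v : Fin 4 → Fin n) (k : Fin n) : K_N v (K_pi v k) := by
  intro a
  unfold K_pi
  split
  · rename_i h
    rw [K_b, Pi.single_apply, if_neg (h a)]
  · rfl

theorem K_star_pi {n : ℕ} (v : Fin 4 → Fin n) (k : Fin n) : star (K_pi v k) = K_pi v k := by
  unfold K_pi
  split
  · exact K_star_b k
  · exact star_zero _

theorem K_split {n : ℕ} {v : Fin 4 → Fin n} (hv : Function.Injective v) (G H : K_V n →ₗ[ℂ] ℂ) :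
    ∑ p, G (K_b p) * H (K_b p) =
      (1 / 2) * (G (K_z v) * H (K_zb v) + G (K_zb v) * H (K_z v) + G (K_e v) * H (K_eb v)
        + G (K_eb v) * H (K_e v)) + ∑ p, G (K_pi v p) * H (K_pi v p) := by
  have e1 : ∀ p, G (K_b p) * H (K_b p) = (∑ a, if v a = p then G (K_b (v a)) * H (K_b (v a)) else 0)
      + G (K_pi v p) * H (K_pi v p) := by
    intro p
    by_cases h : ∀ a, v a ≠ p
    · rw [K_pi, if_pos h, Finset.sum_eq_zero (fun a _ => if_neg (h a)), zero_add]
    · rw [K_pi, if_neg h]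
      push Not at h
      obtain ⟨a, rfl⟩ := h
      rw [Finset.sum_eq_single a]
      · simp
      · intro b _ hb
        rw [if_neg (fun h => hb (hv h))]
      · simp
  rw [Finset.sum_congr rfl (fun p _ => e1 p), Finset.sum_add_distrib, Finset.sum_comm]
  congr 1
  simp only [Finset.sum_ite_eq, Finset.mem_univ, if_true, Fin.sum_univ_four, K_z, K_zb, K_e, K_eb, map_add,
    map_sub, map_smul, smul_eq_mul]
  linear_combination (G (K_b (v 1)) * H (K_b (v 1)) + G (K_b (v 3)) * H (K_b (v 3))) * Complex.I_sq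

theorem K_split2 {n : ℕ} {v : Fin 4 → Fin n} (hv : Function.Injective v) (R : T4 n)
    (x z w x' z' w' : K_V n) : ∑ p, K_C R x (K_b p) z w * K_C R x' (K_b p) z' w' =
      (1 / 2) * (K_C R x (K_z v) z w * K_C R x' (K_zb v) z' w' + K_C R x (K_zb v) z w * K_C R x' (K_z v) z' w'
        + K_C R x (K_e v) z w * K_C R x' (K_eb v) z' w' + K_C R x (K_eb v) z w * K_C R x' (K_e v) z' w')
        + ∑ p, K_C R x (K_pi v p) z w * K_C R x' (K_pi v p) z' w' :=
  K_split hv (((K_C R x).flip z).flip w) (((K_C R x').flip z').flip w')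

theorem K_split4 {n : ℕ} {v : Fin 4 → Fin n} (hv : Function.Injective v) (R : T4 n)
    (x y z x' y' z' : K_V n) : ∑ p, K_C R x y z (K_b p) * K_C R x' y' z' (K_b p) =
      (1 / 2) * (K_C R x y z (K_z v) * K_C R x' y' z' (K_zb v) + K_C R x y z (K_zb v) * K_C R x' y' z' (K_z v)
        + K_C R x y z (K_e v) * K_C R x' y' z' (K_eb v) + K_C R x y z (K_eb v) * K_C R x' y' z' (K_e v))
        + ∑ p, K_C R x y z (K_pi v p) * K_C R x' y' z' (K_pi v p) :=
  K_split hv (K_C R x y z) (K_C R x' y' z')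

/-! ### The trace inequality -/

/-- `RC ζ p ζ̄ q` on the complement -/
noncomputable def K_mP {n : ℕ} (R : T4 n) (v : Fin 4 → Fin n) : Matrix (Fin n) (Fin n) ℂ :=
  fun k l => K_C R (K_z v) (K_pi v k) (K_zb v) (K_pi v l)
/-- `RC η p η̄ q` on the complement -/
noncomputable def K_mQ {n : ℕ} (R : T4 n) (v : Fin 4 → Fin n) : Matrix (Fin n) (Fin n) ℂ :=
  fun k l => K_C R (K_e v) (K_pi v k) (K_eb v) (K_pi v l)
/-- `RC ζ p η̄ q` on the complement -/
noncomputable def K_mM {n : ℕ} (R : T4 n) (v : Fin 4 → Fin n) : Matrix (Fin n) (Fin n) ℂ :=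
  fun k l => K_C R (K_z v) (K_pi v k) (K_eb v) (K_pi v l)
/-- `RC η p ζ̄ q` on the complement -/
noncomputable def K_mN {n : ℕ} (R : T4 n) (v : Fin 4 → Fin n) : Matrix (Fin n) (Fin n) ℂ :=
  fun k l => K_C R (K_e v) (K_pi v k) (K_zb v) (K_pi v l)

theorem K_Q_real {n : ℕ} {R : T4 n} (hR : IsAlg R) (v : Fin 4 → Fin n) (u u' : K_V n) :
    (K_Q R v u u').im = 0 := by
  have h : star (K_Q R v u u') = K_Q R v u u' := by
    simp only [K_Q, star_add, K_conj, K_star_z, K_star_zb, K_star_e, K_star_eb, star_star]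
    rw [K_pair hR (star u) (K_eb v) u (K_e v), K_pair hR (star u) (K_eb v) (K_z v) u',
      K_pair hR (K_zb v) (star u') u (K_e v), K_pair hR (K_zb v) (star u') (K_z v) u']
    ring
  exact Complex.conj_eq_iff_im.1 h

theorem K_Q_sum {n : ℕ} {R : T4 n} (hR : IsAlg R) (v : Fin 4 → Fin n) (a b : Fin n → ℂ) :
    K_Q R v (∑ k, a k • K_pi v k) (∑ k, b k • K_pi v k) =
      ∑ k, ∑ l, (a k * K_mQ R v k l * star (a l) - a k * K_mN R v k l * star (b l)
        - b k * K_mM R v k l * star (a l) + b k * K_mP R v k l * star (b l)) := by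
  have hs : ∀ c : Fin n → ℂ, star (∑ k, c k • K_pi v k) = ∑ k, star (c k) • K_pi v k := by
    intro c
    rw [star_sum]
    refine Finset.sum_congr rfl fun k _ => ?_
    rw [star_smul, K_star_pi]
  rw [K_Q, hs, hs]
  have e1 : ∀ (x : K_V n) (w : K_V n), K_C R (∑ k, a k • K_pi v k) x (∑ k, star (a k) • K_pi v k) w =
      ∑ k, ∑ l, a k * K_C R x (K_pi v k) w (K_pi v l) * star (a l) := by
    intro x w
    simp only [map_sum, map_smul, LinearMap.sum_apply, LinearMap.smul_apply, smul_eq_mul, Finset.mul_sum]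
    rw [Finset.sum_comm]
    refine Finset.sum_congr rfl fun k _ => Finset.sum_congr rfl fun l _ => ?_
    rw [K_anti hR (K_pi v k), K_anti2 hR x]
    ring
  have e2 : ∀ (x : K_V n) (w : K_V n), K_C R (∑ k, a k • K_pi v k) x w (∑ k, star (b k) • K_pi v k) =
      -∑ k, ∑ l, a k * K_C R x (K_pi v k) w (K_pi v l) * star (b l) := by
    intro x w
    simp only [map_sum, map_smul, LinearMap.sum_apply, LinearMap.smul_apply, smul_eq_mul, Finset.mul_sum,
      ← Finset.sum_neg_distrib]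
    rw [Finset.sum_comm]
    refine Finset.sum_congr rfl fun k _ => Finset.sum_congr rfl fun l _ => ?_
    rw [K_anti hR (K_pi v k)]
    ring
  have e3 : ∀ (x : K_V n) (w : K_V n), K_C R x (∑ k, b k • K_pi v k) (∑ k, star (a k) • K_pi v k) w =
      -∑ k, ∑ l, b k * K_C R x (K_pi v k) w (K_pi v l) * star (a l) := by
    intro x w
    simp only [map_sum, map_smul, LinearMap.sum_apply, LinearMap.smul_apply, smul_eq_mul, Finset.mul_sum,
      ← Finset.sum_neg_distrib]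
    rw [Finset.sum_comm]
    refine Finset.sum_congr rfl fun k _ => Finset.sum_congr rfl fun l _ => ?_
    rw [K_anti2 hR x]
    ring
  have e4 : ∀ (x : K_V n) (w : K_V n), K_C R x (∑ k, b k • K_pi v k) w (∑ k, star (b k) • K_pi v k) =
      ∑ k, ∑ l, b k * K_C R x (K_pi v k) w (K_pi v l) * star (b l) := by
    intro x w
    simp only [map_sum, map_smul, LinearMap.sum_apply, LinearMap.smul_apply, smul_eq_mul, Finset.mul_sum]
    rw [Finset.sum_comm]
    refine Finset.sum_congr rfl fun k _ => Finset.sum_congr rfl fun l _ => ?_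
    ring
  rw [e1, e2, e3, e4]
  simp only [Finset.sum_add_distrib, Finset.sum_sub_distrib, K_mP, K_mQ, K_mM, K_mN]
  ring

open scoped ComplexOrder

theorem K_psd {n : ℕ} {R : T4 n} (hR : IsAlg R) (hp : PIC R) {v : Fin 4 → Fin n}
    (hv : Function.Injective v) (h0 : iso4 v R = 0) :
    (Matrix.fromBlocks (K_mQ R v) (-K_mN R v) (-K_mM R v) (K_mP R v)).PosSemidef := by
  refine Matrix.PosSemidef.of_dotProduct_mulVec_nonneg (Matrix.IsHermitian.fromBlocks ?_ ?_ ?_) fun x => ?_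
  · ext k l
    rw [Matrix.conjTranspose_apply]
    simp only [K_mQ]
    rw [K_conj, K_star_e, K_star_eb, K_star_pi, K_star_pi, K_pair hR]
  · ext k l
    rw [Matrix.conjTranspose_apply]
    simp only [K_mN, K_mM, Matrix.neg_apply, star_neg]
    rw [K_conj, K_star_e, K_star_zb, K_star_pi, K_star_pi, K_pair hR]
  · ext k l
    rw [Matrix.conjTranspose_apply]
    simp only [K_mP]
    rw [K_conj, K_star_z, K_star_zb, K_star_pi, K_star_pi, K_pair hR]
  · have e : star x ⬝ᵥ (Matrix.fromBlocks (K_mQ R v) (-K_mN R v) (-K_mM R v) (K_mP R v) *ᵥ x) =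
        K_Q R v (∑ k, star (x (Sum.inl k)) • K_pi v k) (∑ k, star (x (Sum.inr k)) • K_pi v k) := by
      rw [K_Q_sum hR]
      simp only [dotProduct, Matrix.mulVec, Fintype.sum_sum_type, Matrix.fromBlocks_apply₁₁,
        Matrix.fromBlocks_apply₁₂, Matrix.fromBlocks_apply₂₁, Matrix.fromBlocks_apply₂₂, Pi.star_apply,
        star_star, Matrix.neg_apply, mul_add, Finset.mul_sum, Finset.sum_add_distrib, Finset.sum_sub_distrib,
        neg_mul, mul_neg, Finset.sum_neg_distrib, mul_assoc]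
      ring
    rw [e]
    have hN : ∀ c : Fin n → ℂ, K_N v (∑ k, c k • K_pi v k) := by
      intro c a
      rw [Finset.sum_apply]
      refine Finset.sum_eq_zero fun k _ => ?_
      rw [Pi.smul_apply, K_N_pi v k a, smul_zero]
    rw [Complex.nonneg_iff]
    exact ⟨K_second hR hp hv h0 (hN _) (hN _), (K_Q_real hR v _ _).symm⟩

theorem K_trace {n : ℕ} {R : T4 n} (hR : IsAlg R) (hp : PIC R) {v : Fin 4 → Fin n}
    (hv : Function.Injective v) (h0 : iso4 v R = 0) :
    0 ≤ (∑ k, ∑ l, (K_mP R v k l * K_mQ R v k l - K_mM R v k l * K_mN R v k l)).re := by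
  have hK := K_psd hR hp hv h0
  have hL := hK.mul_mul_conjTranspose_same (Matrix.fromBlocks 0 1 (-1) 0 :
    Matrix (Fin n ⊕ Fin n) (Fin n ⊕ Fin n) ℂ)
  have eL : (Matrix.fromBlocks 0 1 (-1) 0 : Matrix (Fin n ⊕ Fin n) (Fin n ⊕ Fin n) ℂ) *
      Matrix.fromBlocks (K_mQ R v) (-K_mN R v) (-K_mM R v) (K_mP R v) *
      (Matrix.fromBlocks 0 1 (-1) 0 : Matrix (Fin n ⊕ Fin n) (Fin n ⊕ Fin n) ℂ)ᴴ =
      Matrix.fromBlocks (K_mP R v) (K_mM R v) (K_mN R v) (K_mQ R v) := by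
    rw [Matrix.fromBlocks_conjTranspose, Matrix.fromBlocks_multiply, Matrix.fromBlocks_multiply]
    simp
  rw [eL] at hL
  have h := (hK.hadamard hL).dotProduct_mulVec_nonneg (fun _ => 1)
  have e : star (fun _ => (1 : ℂ)) ⬝ᵥ ((Matrix.hadamard
      (Matrix.fromBlocks (K_mQ R v) (-K_mN R v) (-K_mM R v) (K_mP R v))
      (Matrix.fromBlocks (K_mP R v) (K_mM R v) (K_mN R v) (K_mQ R v))) *ᵥ (fun _ => (1 : ℂ))) =
      2 * ∑ k, ∑ l, (K_mP R v k l * K_mQ R v k l - K_mM R v k l * K_mN R v k l) := by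
    simp only [dotProduct, Matrix.mulVec, Fintype.sum_sum_type, Matrix.hadamard_apply,
      Matrix.fromBlocks_apply₁₁, Matrix.fromBlocks_apply₁₂, Matrix.fromBlocks_apply₂₁,
      Matrix.fromBlocks_apply₂₂, Pi.star_apply, star_one, one_mul, mul_one, Matrix.neg_apply, neg_mul,
      Finset.sum_add_distrib, Finset.sum_sub_distrib, Finset.sum_neg_distrib]
    have c1 : ∑ k, ∑ l, K_mQ R v k l * K_mP R v k l = ∑ k, ∑ l, K_mP R v k l * K_mQ R v k l :=
      Finset.sum_congr rfl fun k _ => Finset.sum_congr rfl fun l _ => mul_comm _ _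
    have c2 : ∑ k, ∑ l, K_mN R v k l * K_mM R v k l = ∑ k, ∑ l, K_mM R v k l * K_mN R v k l :=
      Finset.sum_congr rfl fun k _ => Finset.sum_congr rfl fun l _ => mul_comm _ _
    rw [c1, c2]
    ring
  rw [e, Complex.nonneg_iff] at h
  have h1 := h.1
  rw [Complex.mul_re] at h1
  norm_num at h1
  simpa using h1

/-! ### The splitting of the sums and the conclusion -/

theorem K_five {n : ℕ} (A B C D E : Fin n → ℂ) :
    ∑ p, ((1 / 2) * (A p + B p + C p + D p) + E p) =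
      (1 / 2) * (∑ p, A p + ∑ p, B p + ∑ p, C p + ∑ p, D p) + ∑ p, E p := by
  simp only [Finset.sum_add_distrib, Finset.mul_sum, mul_add]

theorem K_double {n : ℕ} {v : Fin 4 → Fin n} (hv : Function.Injective v) (R : T4 n)
    (x z x' z' : K_V n) : ∑ p, ∑ q, K_C R x (K_b p) z (K_b q) * K_C R x' (K_b p) z' (K_b q) =
      (1 / 2) * (∑ p, K_C R x (K_b p) z (K_z v) * K_C R x' (K_b p) z' (K_zb v)
        + ∑ p, K_C R x (K_b p) z (K_zb v) * K_C R x' (K_b p) z' (K_z v)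
        + ∑ p, K_C R x (K_b p) z (K_e v) * K_C R x' (K_b p) z' (K_eb v)
        + ∑ p, K_C R x (K_b p) z (K_eb v) * K_C R x' (K_b p) z' (K_e v))
      + ∑ q, ∑ p, K_C R x (K_b p) z (K_pi v q) * K_C R x' (K_b p) z' (K_pi v q) := by
  rw [Finset.sum_congr rfl (fun p _ => K_split4 hv R x (K_b p) z x' (K_b p) z'), K_five]
  rw [Finset.sum_comm (s := Finset.univ) (t := Finset.univ)
    (f := fun q p => K_C R x (K_b p) z (K_pi v q) * K_C R x' (K_b p) z' (K_pi v q))]

theorem K_zeros {n : ℕ} {R : T4 n} (hR : IsAlg R) (hp : PIC R) {v : Fin 4 → Fin n}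
    (hv : Function.Injective v) (h0 : iso4 v R = 0) (p : Fin n) :
    K_C R (K_e v) (K_pi v p) (K_zb v) (K_eb v) = 0 ∧ K_C R (K_e v) (K_pi v p) (K_eb v) (K_zb v) = 0 ∧
    K_C R (K_z v) (K_pi v p) (K_zb v) (K_eb v) = 0 ∧ K_C R (K_z v) (K_pi v p) (K_eb v) (K_zb v) = 0 ∧
    K_C R (K_z v) (K_e v) (K_eb v) (K_pi v p) = 0 ∧ K_C R (K_e v) (K_z v) (K_eb v) (K_pi v p) = 0 ∧
    K_C R (K_z v) (K_e v) (K_zb v) (K_pi v p) = 0 ∧ K_C R (K_e v) (K_z v) (K_zb v) (K_pi v p) = 0 := by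
  obtain ⟨f1, f2⟩ := K_F1 hR hp hv h0 (K_N_pi v p)
  have g1 : K_C R (K_e v) (K_pi v p) (K_zb v) (K_eb v) = 0 := by rw [K_anti hR, f1, neg_zero]
  have g3 : K_C R (K_z v) (K_e v) (K_pi v p) (K_eb v) = 0 := by
    have h := congrArg star f1
    rw [K_conj, K_star_pi, K_star_e, K_star_zb, K_star_eb, star_zero] at h
    rw [K_pair hR, h]
  have g4 : K_C R (K_z v) (K_e v) (K_zb v) (K_pi v p) = 0 := by
    have h := congrArg star f2
    rw [K_conj, K_star_pi, K_star_z, K_star_zb, K_star_eb, star_zero] at h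
    rw [K_pair hR, h]
  have g5 : K_C R (K_z v) (K_e v) (K_eb v) (K_pi v p) = 0 := by rw [K_anti2 hR, g3, neg_zero]
  refine ⟨g1, ?_, f2, ?_, g5, ?_, g4, ?_⟩
  · rw [K_anti2 hR, g1, neg_zero]
  · rw [K_anti2 hR, f2, neg_zero]
  · rw [K_anti hR, g5, neg_zero]
  · rw [K_anti hR, g4, neg_zero]

theorem K_sum_eq {n : ℕ} {R : T4 n} (hR : IsAlg R) (hp : PIC R) {v : Fin 4 → Fin n}
    (hv : Function.Injective v) (h0 : iso4 v R = 0) :
    ∑ p, ∑ q, K_C R (K_z v) (K_b p) (K_zb v) (K_b q) * K_C R (K_e v) (K_b p) (K_eb v) (K_b q)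
      - ∑ p, ∑ q, K_C R (K_z v) (K_b p) (K_eb v) (K_b q) * K_C R (K_e v) (K_b p) (K_zb v) (K_b q) =
    ∑ k, ∑ l, (K_mP R v k l * K_mQ R v k l - K_mM R v k l * K_mN R v k l) := by
  have z1 : K_C R (K_z v) (K_e v) (K_zb v) (K_eb v) = 0 := by
    rw [← K_iso_eq hR, h0]
    simp
  have z2 : K_C R (K_e v) (K_z v) (K_zb v) (K_eb v) = 0 := by rw [K_anti hR, z1, neg_zero]
  have z3 : K_C R (K_z v) (K_e v) (K_eb v) (K_zb v) = 0 := by rw [K_anti2 hR, z1, neg_zero]
  have z4 : K_C R (K_e v) (K_z v) (K_eb v) (K_zb v) = 0 := by rw [K_anti hR, z3, neg_zero]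
  have g1 := fun p => (K_zeros hR hp hv h0 p).1
  have g2 := fun p => (K_zeros hR hp hv h0 p).2.1
  have g3 := fun p => (K_zeros hR hp hv h0 p).2.2.1
  have g4 := fun p => (K_zeros hR hp hv h0 p).2.2.2.1
  have g5 := fun p => (K_zeros hR hp hv h0 p).2.2.2.2.1
  have g6 := fun p => (K_zeros hR hp hv h0 p).2.2.2.2.2.1
  have g7 := fun p => (K_zeros hR hp hv h0 p).2.2.2.2.2.2.1
  have g8 := fun p => (K_zeros hR hp hv h0 p).2.2.2.2.2.2.2
  rw [K_double hv, K_double hv]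
  simp only [K_split2 hv, K_self hR, K_self2 hR, z1, z2, z3, z4, g1, g2, g3, g4, g5, g6, g7, g8, zero_mul,
    mul_zero, add_zero, zero_add, Finset.sum_const_zero]
  have F := K_F2 hR hp hv h0
  rw [K_anti hR (K_eb v) (K_e v)] at F
  rw [K_anti2 hR (K_e v) (K_eb v) (K_eb v) (K_zb v), K_anti hR (K_e v) (K_z v) (K_eb v) (K_e v),
    K_anti2 hR (K_z v) (K_zb v) (K_eb v) (K_zb v), K_anti hR (K_e v) (K_z v) (K_zb v) (K_z v), ← F]
  simp only [Finset.sum_sub_distrib, K_mP, K_mQ, K_mM, K_mN]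
  rw [Finset.sum_comm (f := fun q p => K_C R (K_z v) (K_pi v p) (K_zb v) (K_pi v q) *
      K_C R (K_e v) (K_pi v p) (K_eb v) (K_pi v q)),
    Finset.sum_comm (f := fun q p => K_C R (K_z v) (K_pi v p) (K_eb v) (K_pi v q) *
      K_C R (K_e v) (K_pi v p) (K_zb v) (K_pi v q))]
  ring

theorem picnull {n : ℕ} {R : T4 n} (hR : IsAlg R) (hp : PIC R) (v : Fin 4 → Fin n)
    (hv : Function.Injective v) (h0 : iso4 v R = 0) : 0 ≤ iso4 v (QQ R) := by
  have h1 := K_iso_eq hR.qq v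
  rw [K_QQ] at h1
  have h2 : ∑ p, ∑ q, (K_C R (K_z v) (K_e v) (K_b p) (K_b q) * K_C R (K_zb v) (K_eb v) (K_b p) (K_b q)
      + 2 * (K_C R (K_z v) (K_b p) (K_zb v) (K_b q) * K_C R (K_e v) (K_b p) (K_eb v) (K_b q))
      - 2 * (K_C R (K_z v) (K_b p) (K_eb v) (K_b q) * K_C R (K_e v) (K_b p) (K_zb v) (K_b q))) =
      ((∑ p, ∑ q, Complex.normSq (K_C R (K_z v) (K_e v) (K_b p) (K_b q)) : ℝ) : ℂ)
      + 2 * ∑ k, ∑ l, (K_mP R v k l * K_mQ R v k l - K_mM R v k l * K_mN R v k l) := by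
    rw [← K_sum_eq hR hp hv h0]
    push_cast
    simp only [Finset.sum_add_distrib, Finset.sum_sub_distrib, ← Finset.mul_sum]
    have h3 : ∀ p q, K_C R (K_z v) (K_e v) (K_b p) (K_b q) * K_C R (K_zb v) (K_eb v) (K_b p) (K_b q) =
        ((Complex.normSq (K_C R (K_z v) (K_e v) (K_b p) (K_b q)) : ℝ) : ℂ) := by
      intro p q
      have : K_C R (K_zb v) (K_eb v) (K_b p) (K_b q) = star (K_C R (K_z v) (K_e v) (K_b p) (K_b q)) := by
        rw [K_conj, K_star_z, K_star_e, K_star_b, K_star_b]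
      rw [this]
      exact Complex.mul_conj _
    simp only [h3]
    ring
  rw [h2] at h1
  have h4 := congrArg Complex.re h1
  rw [Complex.ofReal_re, Complex.add_re, Complex.ofReal_re] at h4
  have h5 := K_trace hR hp hv h0
  have h6 : 0 ≤ ∑ p, ∑ q, Complex.normSq (K_C R (K_z v) (K_e v) (K_b p) (K_b q)) :=
    Finset.sum_nonneg fun p _ => Finset.sum_nonneg fun q _ => Complex.normSq_nonneg _
  have h7 : ∀ z : ℂ, (2 * z).re = 2 * z.re := by
    intro z
    simp
  rw [h7] at h4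
  linarith

end Pool.Agent.Helper696_RF
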