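import Mathlib
import Pool.Agent.Helper696_RF.Alg
import Pool.Agent.Helper696_RF.K
import Pool.Agent.Helper696_RF.A
import Pool.Agent.Helper696_RF.G
import Pool.Agent.Helper696_RF.H0
import Pool.Agent.Helper696_RF.H

set_option autoImplicit false
open scoped ContDiff Manifold Topology Matrix
open Set Filter

namespace Pool.Agent.Helper696_RF

open Pool.Agent.QTot Pool.Agent.H858R2

namespace L

theorem rc_bdd_aux {n : ℕ} {M : Type} [TopologicalSpace M] [ChartedSpace (En n) M]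
    [IsManifold (𝓡 n) ∞ M] [CompactSpace M] {T : ℝ} {g : ℝ → Metric n M} (hg : IsRicciFlow T g)
    {t1 : ℝ} (ht1 : t1 < T) :
    ∃ B : ℝ, ∀ t ∈ Icc 0 t1, ∀ e ∈ atlas (En n) M, ∀ y ∈ ctarget e, ∀ F : Mt n,
      Fᵀ * (g t).G e y * F = 1 → ‖rot (Rc ((g t).G e) y) F‖ ≤ B := by
  by_contra hcon
  push Not at hcon
  choose t ht e he y hy F hF hB using fun k : ℕ => hcon (k : ℝ)
  let 𝒰 : Ultrafilter ℕ := hyperfilter ℕ
  have hle : (𝒰 : Filter ℕ) ≤ atTop := Nat.hyperfilter_le_atTop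
  obtain ⟨t0, ht0, htt⟩ := (isCompact_Icc (a := (0 : ℝ)) (b := t1)).ultrafilter_le_nhds
    (𝒰.map t) (by
      rw [le_principal_iff]
      show ∀ᶠ k in (𝒰 : Filter ℕ), t k ∈ Icc 0 t1
      exact Eventually.of_forall ht)
  have htt' : Tendsto t 𝒰 (𝓝 t0) := htt
  obtain ⟨e0, he0, y0, hy0, F0, hF0, hlim⟩ := MaxP.closure_lemma hg 𝒰 t t0
    ⟨ht0.1, lt_of_le_of_lt ht0.2 ht1⟩
    (fun k => ⟨(ht k).1, lt_of_le_of_lt (ht k).2 ht1⟩) htt' e he y hy F hF
  have h1 : Tendsto (fun k => ‖rot (Rc ((g (t k)).G (e k)) (y k)) (F k)‖) 𝒰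
      (𝓝 ‖rot (Rc ((g t0).G e0) y0) F0‖) := hlim.norm
  have h2 : ∀ᶠ k in (𝒰 : Filter ℕ), ‖rot (Rc ((g (t k)).G (e k)) (y k)) (F k)‖ <
      ‖rot (Rc ((g t0).G e0) y0) F0‖ + 1 := h1.eventually (gt_mem_nhds (by linarith))
  have h3 : ∀ᶠ k : ℕ in (𝒰 : Filter ℕ), ‖rot (Rc ((g t0).G e0) y0) F0‖ + 1 ≤ (k : ℝ) :=
    hle (tendsto_natCast_atTop_atTop.eventually (eventually_ge_atTop _))
  obtain ⟨k, hk1, hk2⟩ := (h2.and h3).exists
  linarith [hB k]

/-! ### algebra -/

theorem sum3_cyc {n : ℕ} (g : Fin n → Fin n → Fin n → ℝ) :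
    ∑ a, ∑ b, ∑ c, g b c a = ∑ a, ∑ b, ∑ c, g a b c := by
  rw [Finset.sum_comm]
  refine Finset.sum_congr rfl fun b _ => ?_
  rw [Finset.sum_comm]

theorem sum4_swap {n : ℕ} (f : Fin n → Fin n → Fin n → Fin n → ℝ) :
    ∑ a, ∑ b, ∑ c, ∑ d, f c d a b = ∑ a, ∑ b, ∑ c, ∑ d, f a b c d := by
  calc ∑ a, ∑ b, ∑ c, ∑ d, f c d a b
      = ∑ x : (Fin n × Fin n) × (Fin n × Fin n), f x.2.1 x.2.2 x.1.1 x.1.2 := by
        simp only [Fintype.sum_prod_type]
    _ = ∑ x : (Fin n × Fin n) × (Fin n × Fin n), f x.1.1 x.1.2 x.2.1 x.2.2 :=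
        Fintype.sum_equiv (Equiv.prodComm _ _) _ _ fun x => rfl
    _ = _ := by simp only [Fintype.sum_prod_type]

theorem isAlg_rot {n : ℕ} {R : T4 n} (hR : IsAlg R) (F : Mt n) : IsAlg (rot R F) where
  anti i j k l := by
    unfold rot
    rw [Finset.sum_comm]
    simp only [← Finset.sum_neg_distrib]
    refine Finset.sum_congr rfl fun b _ => Finset.sum_congr rfl fun a _ =>
      Finset.sum_congr rfl fun c _ => Finset.sum_congr rfl fun d _ => ?_
    rw [hR.anti a b c d]
    ring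
  pair i j k l := by
    unfold rot
    rw [← sum4_swap (fun a b c d => R a b c d * F a k * F b l * F c i * F d j)]
    refine Finset.sum_congr rfl fun a _ => Finset.sum_congr rfl fun b _ =>
      Finset.sum_congr rfl fun c _ => Finset.sum_congr rfl fun d _ => ?_
    rw [hR.pair a b c d]
    ring
  bian i j k l := by
    unfold rot
    rw [← sum3_cyc (fun a b c => ∑ d, R a b c d * F a j * F b k * F c i * F d l),
      ← sum3_cyc (fun a b c => ∑ d, R a b c d * F a k * F b i * F c j * F d l),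
      ← sum3_cyc (fun a b c => ∑ d, R b c a d * F b k * F c i * F a j * F d l)]
    simp only [← Finset.sum_add_distrib]
    refine Finset.sum_eq_zero fun a _ => Finset.sum_eq_zero fun b _ =>
      Finset.sum_eq_zero fun c _ => Finset.sum_eq_zero fun d _ => ?_
    have h := hR.bian a b c d
    linear_combination (F a i * F b j * F c k * F d l) * h

/-- the curvature tensor of the unit sphere -/
def D1 {n : ℕ} : T4 n := dg (fun _ _ => 1)

theorem D1_apply {n : ℕ} (i j k l : Fin n) : (D1 : T4 n) i j k l =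
    (if i = k then 1 else 0) * (if j = l then 1 else 0)
    - (if i = l then 1 else 0) * (if j = k then 1 else 0) := by
  unfold D1 dg
  rw [one_mul]

theorem isAlg_D1 {n : ℕ} : IsAlg (D1 : T4 n) where
  anti i j k l := by rw [D1_apply, D1_apply]; ring
  pair i j k l := by
    rw [D1_apply, D1_apply]
    simp only [eq_comm (a := k), eq_comm (a := l)]
    ring
  bian i j k l := by
    rw [D1_apply, D1_apply, D1_apply]
    simp only [eq_comm (a := j) (b := i), eq_comm (a := k) (b := i), eq_comm (a := k) (b := j)]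
    ring

theorem isAlg_add {n : ℕ} {R R' : T4 n} (hR : IsAlg R) (hR' : IsAlg R') (a : ℝ) :
    IsAlg (R + a • R') where
  anti i j k l := by
    simp only [Pi.add_apply, Pi.smul_apply, smul_eq_mul]
    rw [hR.anti i j k l, hR'.anti i j k l]; ring
  pair i j k l := by
    simp only [Pi.add_apply, Pi.smul_apply, smul_eq_mul]
    rw [hR.pair i j k l, hR'.pair i j k l]
  bian i j k l := by
    simp only [Pi.add_apply, Pi.smul_apply, smul_eq_mul]
    linear_combination hR.bian i j k l + a * hR'.bian i j k l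

theorem rot_D1 {n : ℕ} (O : Mt n) (hO : Oᵀ * O = 1) : rot (D1 : T4 n) O = D1 := by
  have h : ∀ i j, ∑ a, O a i * O a j = if i = j then 1 else 0 := by
    intro i j
    have := congrFun (congrFun hO i) j
    rw [Matrix.mul_apply, Matrix.one_apply] at this
    simpa using this
  funext i j k l
  have e1 : rot (D1 : T4 n) O i j k l = (∑ a, O a i * O a k) * (∑ b, O b j * O b l)
      - (∑ a, O a i * O a l) * (∑ b, O b j * O b k) := by
    unfold rot
    simp only [D1_apply]
    rw [Finset.sum_mul_sum, Finset.sum_mul_sum, ← Finset.sum_sub_distrib]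
    refine Finset.sum_congr rfl fun a _ => ?_
    rw [← Finset.sum_sub_distrib]
    refine Finset.sum_congr rfl fun b _ => ?_
    simp only [sub_mul, Finset.sum_sub_distrib]
    congr 1
    · rw [Finset.sum_eq_single a, Finset.sum_eq_single b]
      · simp; ring
      · intro d _ hd; simp [hd.symm]
      · intro h; exact absurd (Finset.mem_univ _) h
      · intro c _ hc; refine Finset.sum_eq_zero fun d _ => ?_; simp [hc.symm]
      · intro h; exact absurd (Finset.mem_univ _) h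
    · rw [Finset.sum_eq_single b, Finset.sum_eq_single a]
      · simp; ring
      · intro d _ hd; simp [hd.symm]
      · intro h; exact absurd (Finset.mem_univ _) h
      · intro c _ hc; refine Finset.sum_eq_zero fun d _ => ?_; simp [hc.symm]
      · intro h; exact absurd (Finset.mem_univ _) h
  rw [e1, h, h, h, h, D1_apply]

theorem iso4_apply {n : ℕ} (v : Fin 4 → Fin n) (R : T4 n) : iso4 v R =
    R (v 0) (v 2) (v 0) (v 2) + R (v 0) (v 3) (v 0) (v 3) + R (v 1) (v 2) (v 1) (v 2)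
    + R (v 1) (v 3) (v 1) (v 3) - 2 * R (v 0) (v 1) (v 2) (v 3) := rfl

theorem iso4_D1 {n : ℕ} (v : Fin 4 → Fin n) (hv : Function.Injective v) :
    iso4 v (D1 : T4 n) = 4 := by
  have h : ∀ a b, a ≠ b → v a ≠ v b := fun a b hab h => hab (hv h)
  have h02 := h 0 2 (by decide)
  have h03 := h 0 3 (by decide)
  have h12 := h 1 2 (by decide)
  have h13 := h 1 3 (by decide)
  rw [iso4_apply]
  simp only [D1_apply, h02, h03, h12, h13, h02.symm, h03.symm, h12.symm, h13.symm, if_true, if_false]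
  norm_num

theorem D1_abs {n : ℕ} (i j k l : Fin n) : |(D1 : T4 n) i j k l| ≤ 1 := by
  rw [D1_apply]
  split_ifs <;> norm_num

theorem entry_le {n : ℕ} (R : T4 n) (i j k l : Fin n) : |R i j k l| ≤ ‖R‖ :=
  calc |R i j k l| = ‖R i j k l‖ := rfl
    _ ≤ ‖R i j k‖ := norm_le_pi_norm _ l
    _ ≤ ‖R i j‖ := norm_le_pi_norm _ k
    _ ≤ ‖R i‖ := norm_le_pi_norm _ j
    _ ≤ ‖R‖ := norm_le_pi_norm _ i

theorem prod_diff {B a x y d d' : ℝ} (ha : 0 ≤ a) (hB : 0 ≤ B) (hx : |x| ≤ B) (hy : |y| ≤ B)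
    (hd : |d| ≤ 1) (hd' : |d'| ≤ 1) :
    |(x + a * d) * (y + a * d') - x * y| ≤ a * (2 * B + a) := by
  have e : (x + a * d) * (y + a * d') - x * y = a * (x * d' + d * y + a * (d * d')) := by ring
  rw [e, abs_mul, abs_of_nonneg ha]
  refine mul_le_mul_of_nonneg_left ?_ ha
  have h1 : |x * d'| ≤ B := by
    rw [abs_mul]
    calc |x| * |d'| ≤ B * 1 := mul_le_mul hx hd' (abs_nonneg _) hB
      _ = B := mul_one _
  have h2 : |d * y| ≤ B := by
    rw [abs_mul]
    calc |d| * |y| ≤ 1 * B := mul_le_mul hd hy (abs_nonneg _) zero_le_one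
      _ = B := one_mul _
  have h3 : |a * (d * d')| ≤ a := by
    rw [abs_mul, abs_mul, abs_of_nonneg ha]
    calc a * (|d| * |d'|) ≤ a * (1 * 1) :=
          mul_le_mul_of_nonneg_left (mul_le_mul hd hd' (abs_nonneg _) zero_le_one) ha
      _ = a := by ring
  calc |x * d' + d * y + a * (d * d')| ≤ |x * d' + d * y| + |a * (d * d')| := abs_add_le _ _
    _ ≤ |x * d'| + |d * y| + |a * (d * d')| := by gcongr; exact abs_add_le _ _
    _ ≤ 2 * B + a := by linarith

theorem QQ_diff {n : ℕ} (R : T4 n) {B a : ℝ} (ha : 0 ≤ a) (hB : ‖R‖ ≤ B) (i j k l : Fin n) :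
    |QQ (R + a • (D1 : T4 n)) i j k l - QQ R i j k l| ≤ (n : ℝ) ^ 2 * (5 * (a * (2 * B + a))) := by
  have hB0 : 0 ≤ B := (norm_nonneg _).trans hB
  have hR : ∀ i j k l, |R i j k l| ≤ B := fun i j k l => (entry_le R i j k l).trans hB
  unfold QQ
  simp only [← Finset.sum_sub_distrib]
  have hterm : ∀ p q : Fin n, |((R + a • (D1 : T4 n)) i j p q * (R + a • (D1 : T4 n)) k l p q
      + 2 * ((R + a • (D1 : T4 n)) i p k q * (R + a • (D1 : T4 n)) j p l q)
      - 2 * ((R + a • (D1 : T4 n)) i p l q * (R + a • (D1 : T4 n)) j p k q))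
      - (R i j p q * R k l p q + 2 * (R i p k q * R j p l q) - 2 * (R i p l q * R j p k q))|
      ≤ 5 * (a * (2 * B + a)) := by
    intro p q
    simp only [Pi.add_apply, Pi.smul_apply, smul_eq_mul]
    have h1 := prod_diff ha hB0 (hR i j p q) (hR k l p q) (D1_abs i j p q) (D1_abs k l p q)
    have h2 := prod_diff ha hB0 (hR i p k q) (hR j p l q) (D1_abs i p k q) (D1_abs j p l q)
    have h3 := prod_diff ha hB0 (hR i p l q) (hR j p k q) (D1_abs i p l q) (D1_abs j p k q)
    rw [abs_le] at h1 h2 h3 ⊢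
    constructor <;> linarith [h1.1, h1.2, h2.1, h2.2, h3.1, h3.2]
  calc |∑ p, ∑ q, _| ≤ ∑ p : Fin n, ∑ q : Fin n, 5 * (a * (2 * B + a)) :=
        (Finset.abs_sum_le_sum_abs _ _).trans (Finset.sum_le_sum fun p _ =>
          (Finset.abs_sum_le_sum_abs _ _).trans (Finset.sum_le_sum fun q _ => hterm p q))
    _ = (n : ℝ) ^ 2 * (5 * (a * (2 * B + a))) := by
        simp only [Finset.sum_const, Finset.card_univ, Fintype.card_fin, nsmul_eq_mul]
        ring

theorem iso4_diff {n : ℕ} (v : Fin 4 → Fin n) (R : T4 n) {B a : ℝ} (ha : 0 ≤ a) (hB : ‖R‖ ≤ B) :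
    iso4 v (QQ (R + a • (D1 : T4 n))) ≤ iso4 v (QQ R) + 30 * (n : ℝ) ^ 2 * (a * (2 * B + a)) := by
  have h := QQ_diff R ha hB
  rw [iso4_apply, iso4_apply]
  have h1 := (abs_le.1 (h (v 0) (v 2) (v 0) (v 2))).2
  have h2 := (abs_le.1 (h (v 0) (v 3) (v 0) (v 3))).2
  have h3 := (abs_le.1 (h (v 1) (v 2) (v 1) (v 2))).2
  have h4 := (abs_le.1 (h (v 1) (v 3) (v 1) (v 3))).2
  have h5 := (abs_le.1 (h (v 0) (v 1) (v 2) (v 3))).1
  linarith

/-- frames and orthogonal matrices -/
theorem frame_mul {n : ℕ} {G F O : Mt n} (hF : Fᵀ * G * F = 1) (hO : Oᵀ * O = 1) :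
    (F * O)ᵀ * G * (F * O) = 1 := by
  have e : (F * O)ᵀ * G * (F * O) = Oᵀ * (Fᵀ * G * F) * O := by
    simp only [Matrix.transpose_mul, Matrix.mul_assoc]
  rw [e, hF, Matrix.mul_one, hO]

theorem isAlg_Rc {n : ℕ} {M : Type} [TopologicalSpace M] [ChartedSpace (En n) M]
    (g : Metric n M) {e : OpenPartialHomeomorph M (En n)} (he : e ∈ atlas (En n) M) {y : Eu n}
    (hy : y ∈ ctarget e) : IsAlg (Rc (g.G e) y) := by
  have hopen : ctarget e ∈ 𝓝 y := (MaxP.isOpen_ctarget e).mem_nhds hy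
  have hG : ∀ i j, ContDiffAt ℝ ∞ (fun z => g.G e z i j) y := fun i j =>
    (g.smooth e he i j).contDiffAt hopen
  have hs : ∀ᶠ z in 𝓝 y, (g.G e z).IsSymm := by
    filter_upwards [hopen] with z hz
    exact MaxP.isSymm_of_posDef (g.posDef e he z hz)
  have hd : (g.G e y).det ≠ 0 := (g.posDef e he y hy).det_pos.ne'
  have h := rc_symm hG hs hd
  exact ⟨fun i j k l => (h i j k l).1, fun i j k l => (h i j k l).2.2.1,
    fun i j k l => (h i j k l).2.2.2⟩

end L

theorem rc_bdd {n : ℕ} {M : Type} [TopologicalSpace M] [ChartedSpace (En n) M]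
    [IsManifold (𝓡 n) ∞ M] [CompactSpace M] {T : ℝ} {g : ℝ → Metric n M} (hg : IsRicciFlow T g)
    {t1 : ℝ} (ht1 : t1 < T) :
    ∃ B : ℝ, ∀ t ∈ Icc 0 t1, ∀ e ∈ atlas (En n) M, ∀ y ∈ ctarget e, ∀ F : Mt n,
      Fᵀ * (g t).G e y * F = 1 → ‖rot (Rc ((g t).G e) y) F‖ ≤ B := L.rc_bdd_aux hg ht1


theorem wpic_preserved {n : ℕ} {M : Type} [TopologicalSpace M] [ChartedSpace (En n) M]
    [IsManifold (𝓡 n) ∞ M] [CompactSpace M] {T : ℝ} {g : ℝ → Metric n M} (hg : IsRicciFlow T g)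
    (h0 : WPIC (g 0)) :
    ∀ t ∈ Ico 0 T, ∀ e ∈ atlas (En n) M, ∀ y ∈ ctarget e, ∀ F : Mt n,
      Fᵀ * (g t).G e y * F = 1 → PIC (rot (Rc ((g t).G e) y) F) := by
  intro t ht e he y hy F hF O hO v hv
  rw [G_rot_mul]
  have hFO := L.frame_mul hF hO
  generalize F * O = E at hFO
  obtain ⟨B0, hB0⟩ := rc_bdd hg ht.2
  set B : ℝ := max B0 0 with hBdef
  have hB : ∀ s ∈ Icc 0 t, ∀ e ∈ atlas (En n) M, ∀ y ∈ ctarget e, ∀ F : Mt n,
      Fᵀ * (g s).G e y * F = 1 → ‖rot (Rc ((g s).G e) y) F‖ ≤ B := fun s hs e he y hy F hF =>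
    (hB0 s hs e he y hy F hF).trans (le_max_left _ _)
  have hBn : 0 ≤ B := le_max_right _ _
  set Λ : ℝ := 30 * (n : ℝ) ^ 2 * (B + 1) + 1 with hΛ
  have hΛ0 : 0 < Λ := by positivity
  -- the main claim
  have main : ∀ ε : ℝ, 0 < ε → ε * Real.exp (Λ * t) ≤ 1 →
      0 < iso4 v (rot (Rc ((g t).G e) y) E) + ε * Real.exp (Λ * t) := by
    intro ε hε hε1
    let Θ : Type := {v : Fin 4 → Fin n // Function.Injective v}
    have hfin : Finite Θ := inferInstanceAs (Finite {v : Fin 4 → Fin n // Function.Injective v})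
    let _ : TopologicalSpace Θ := ⊥
    have : DiscreteTopology Θ := ⟨rfl⟩
    have hmax := maxp hg ht.2 (Θ := Θ) (fun θ => iso4 θ.1) (fun R => continuous_of_discreteTopology)
      (fun _ s => ε * Real.exp (Λ * s)) (fun _ s => ε * (Λ * Real.exp (Λ * s)))
      (by fun_prop)
      (fun θ s => by
        have h1 : HasDerivAt (fun s : ℝ => Λ * s) Λ s := by
          simpa using (hasDerivAt_id s).const_mul Λ
        have h2 := h1.exp.const_mul ε
        have e1 : ε * (Real.exp (Λ * s) * Λ) = ε * (Λ * Real.exp (Λ * s)) := by ring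
        rw [e1] at h2
        exact h2)
      (by
        intro e he y hy F hF θ
        have hw := h0 e he y hy (fun a i => F i (θ.1 a)) (by
          intro a b
          have h1 : ip ((g 0).G e y) (fun i => F i (θ.1 a)) (fun i => F i (θ.1 b)) =
              (Fᵀ * (g 0).G e y * F) (θ.1 a) (θ.1 b) := by
            unfold ip
            rw [Matrix.mul_apply]
            simp only [Matrix.mul_apply, Matrix.transpose_apply, Finset.sum_mul]
            rw [Finset.sum_comm]
            refine Finset.sum_congr rfl fun i _ => Finset.sum_congr rfl fun j _ => ?_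
            ring
          rw [h1, hF, Matrix.one_apply]
          by_cases hab : a = b
          · rw [if_pos hab, if_pos (by rw [hab])]
          · rw [if_neg hab, if_neg (fun h => hab (θ.2 h))])
        have h2 : 0 ≤ iso4 θ.1 (rot (Rc ((g 0).G e) y) F) := hw
        have h3 : 0 < ε * Real.exp (Λ * 0) := by positivity
        show 0 < iso4 θ.1 (rot (Rc ((g 0).G e) y) F) + ε * Real.exp (Λ * 0)
        linarith)
      (by
        intro s hs e he y hy hall E hE θ hz
        have hz' : iso4 θ.1 (rot (Rc ((g s).G e) y) E) + ε * Real.exp (Λ * s) = 0 := hz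
        set h : ℝ := ε * Real.exp (Λ * s) with hh
        have hpos : 0 < h := by positivity
        have hle1 : h ≤ 1 := by
          refine le_trans ?_ hε1
          refine mul_le_mul_of_nonneg_left ?_ hε.le
          exact Real.exp_le_exp.2 (mul_le_mul_of_nonneg_left hs.2 hΛ0.le)
        have hRB : ‖rot (Rc ((g s).G e) y) E‖ ≤ B := hB s ⟨hs.1.le, hs.2⟩ e he y hy E hE
        have hRalg : IsAlg (rot (Rc ((g s).G e) y) E) := L.isAlg_rot (L.isAlg_Rc (g s) he hy) E
        have hpic : PIC (rot (Rc ((g s).G e) y) E + (h / 4) • (L.D1 : T4 n)) := by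
          intro O hO v' hv'
          rw [G_rot_add, G_rot_smul, L.rot_D1 O hO, map_add, map_smul, L.iso4_D1 v' hv', G_rot_mul]
          have h1 := hall (E * O) (L.frame_mul hE hO) ⟨v', hv'⟩
          have h2 : 0 ≤ iso4 v' (rot (Rc ((g s).G e) y) (E * O)) + h := h1
          rw [smul_eq_mul]
          linarith
        have hzero : iso4 θ.1 (rot (Rc ((g s).G e) y) E + (h / 4) • (L.D1 : T4 n)) = 0 := by
          rw [map_add, map_smul, L.iso4_D1 θ.1 θ.2, smul_eq_mul]
          linarith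
        have hnull := picnull (L.isAlg_add hRalg L.isAlg_D1 (h / 4)) hpic θ.1 θ.2 hzero
        have hdiff := L.iso4_diff θ.1 (rot (Rc ((g s).G e) y) E) (a := h / 4) (by positivity) hRB
        show 0 < iso4 θ.1 (QQ (rot (Rc ((g s).G e) y) E)) + ε * (Λ * Real.exp (Λ * s))
        have e2 : ε * (Λ * Real.exp (Λ * s)) = Λ * h := by rw [hh]; ring
        rw [e2]
        have h3 : h / 4 * (2 * B + h / 4) ≤ (B + 1) * h := by nlinarith
        have h4 : 30 * (n : ℝ) ^ 2 * (h / 4 * (2 * B + h / 4)) ≤ 30 * (n : ℝ) ^ 2 * ((B + 1) * h) :=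
          mul_le_mul_of_nonneg_left h3 (by positivity)
        have h5 : Λ * h = 30 * (n : ℝ) ^ 2 * ((B + 1) * h) + h := by rw [hΛ]; ring
        linarith)
    exact hmax t ⟨ht.1, le_rfl⟩ e he y hy E hFO ⟨v, hv⟩
  by_contra hneg
  push Not at hneg
  have hexp : 0 < Real.exp (Λ * t) := Real.exp_pos _
  set δ : ℝ := -iso4 v (rot (Rc ((g t).G e) y) E) with hδ
  have hδ0 : 0 < δ := by linarith
  have h1 := main (min 1 δ / Real.exp (Λ * t)) (by positivity) (by
    rw [div_mul_cancel₀ _ hexp.ne']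
    exact min_le_left _ _)
  rw [div_mul_cancel₀ _ hexp.ne'] at h1
  linarith [min_le_right 1 δ]

end Pool.Agent.Helper696_RF
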