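import Mathlib
import Pool.Agent.Helper696_RF.Alg
import Pool.Agent.Helper696_RF.L
import Pool.Agent.Helper696_RF.G
import Pool.Agent.Helper696_RF.H0
import Pool.Agent.Helper696_RF.H

/-!
Needs on disk (all on origin/main): `Pool/Agent/Helper696_RF/` (files Defs, Loc, Alg; further ones are named below where they are
needed), `Pool/Agent/H858R2/Defs.lean` and the directory `Pool/Agent/QTot` (starting files). `Pool/Agent/Helper696_RF/G.lean` has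
(import `Pool.Agent.Helper696_RF.G`) `G_rot_mul : rot (rot R A) B = rot R (A * B)`, `G_rot_one`, `G_rot_add`, `G_rot_smul`,
`G_QQ_rot : E * Eᵀ = 1 → QQ (rot R E) = rot (QQ R) E` (see the file for exact forms).
-/

set_option autoImplicit false
open scoped ContDiff Manifold Topology Matrix
open Set Filter

namespace Pool.Agent.Helper696_RF

open Pool.Agent.QTot Pool.Agent.H858R2

namespace MPinch

theorem continuous_QQ {n : ℕ} : Continuous (fun R : T4 n => QQ R) := by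
  refine continuous_pi fun i => continuous_pi fun j => continuous_pi fun k => continuous_pi fun l =>
    ?_
  unfold QQ
  have h : ∀ a b c d : Fin n, Continuous fun R : T4 n => R a b c d := fun a b c d =>
    LinearMap.continuous_of_finiteDimensional (ev4 a b c d)
  refine continuous_finsetSum _ fun p _ => continuous_finsetSum _ fun q _ => ?_
  exact (((h i j p q).mul (h k l p q)).add (continuous_const.mul ((h i p k q).mul (h j p l q)))).sub
    (continuous_const.mul ((h i p l q).mul (h j p k q)))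

theorem QQ_smul {n : ℕ} (c : ℝ) (R : T4 n) : QQ (c • R) = (c ^ 2) • QQ R := by
  funext i j k l
  unfold QQ
  simp only [Pi.smul_apply, smul_eq_mul, Finset.mul_sum]
  refine Finset.sum_congr rfl fun p _ => Finset.sum_congr rfl fun q _ => ?_
  ring

theorem PIC_smul {n : ℕ} {c : ℝ} (hc : 0 ≤ c) {R : T4 n} (h : PIC R) : PIC (c • R) := by
  intro O hO v hv
  rw [G_rot_smul, map_smul, smul_eq_mul]
  exact mul_nonneg hc (h O hO v hv)

theorem PIC_rot {n : ℕ} {R : T4 n} (h : PIC R) {O : Mt n} (hO : Oᵀ * O = 1) : PIC (rot R O) := by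
  intro O' hO' v hv
  rw [G_rot_mul]
  refine h (O * O') ?_ v hv
  rw [Matrix.transpose_mul, Matrix.mul_assoc, ← Matrix.mul_assoc Oᵀ, hO, Matrix.one_mul, hO']

theorem continuous_rot_left {n : ℕ} (O : Mt n) : Continuous (fun R : T4 n => rot R O) :=
  Continuous.comp (g := fun p : T4 n × Mt n => rot p.1 p.2) (f := fun R : T4 n => (R, O))
    MaxP.continuous_rot (continuous_id.prodMk continuous_const)

theorem isClosed_PIC {n : ℕ} : IsClosed {R : T4 n | PIC R} := by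
  have : {R : T4 n | PIC R} = ⋂ O : Mt n, ⋂ _ : Oᵀ * O = 1, ⋂ v : Fin 4 → Fin n,
      ⋂ _ : Function.Injective v, {R : T4 n | 0 ≤ iso4 v (rot R O)} := by
    ext R
    simp only [PIC, mem_ofPred_eq, mem_iInter]
  rw [this]
  refine isClosed_iInter fun O => isClosed_iInter fun _ => isClosed_iInter fun v =>
    isClosed_iInter fun _ => isClosed_le continuous_const ?_
  exact (LinearMap.continuous_of_finiteDimensional (iso4 v)).comp (continuous_rot_left O)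

end MPinch

open MPinch in
theorem pinch_alg {n : ℕ} (𝒞 : Set (T4 n)) (hcl : IsClosed 𝒞)
    (hcone : ∀ R ∈ 𝒞, ∀ c : ℝ, 0 < c → c • R ∈ 𝒞)
    (hrot : ∀ R ∈ 𝒞, ∀ O : Mt n, Oᵀ * O = 1 → rot R O ∈ 𝒞)
    {Θ : Type} [PseudoMetricSpace Θ] [CompactSpace Θ] (L : Θ → T4 n →ₗ[ℝ] ℝ)
    (hL : ∀ R : T4 n, Continuous fun θ => L θ R) (s : Θ → ℝ) (hs : Continuous s)
    (hs1 : ∀ θ, s θ ≤ 1)
    (h0 : ∀ R ∈ 𝒞, PIC R → ∀ θ, s θ = 1 → 0 ≤ L θ R)
    (C : ℝ) (h1 : ∀ θ, s θ < 1 → ∃ δ0 > 0, ∀ δ ∈ Ioo 0 δ0, ∃ θ', s θ + δ ≤ s θ' ∧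
      ∀ R : T4 n, |L θ' R - L θ R| ≤ C * δ * ‖R‖)
    (h2 : ∀ R ∈ 𝒞, R ≠ 0 → PIC R → ∀ θ,
      (∀ θ', s θ ≤ s θ' → ∀ O : Mt n, Oᵀ * O = 1 → 0 ≤ L θ' (rot R O)) → L θ R = 0 →
      0 < L θ (QQ R)) :
    ∃ Λ : ℝ, 0 < Λ ∧ ∀ R ∈ 𝒞, PIC R → ∀ θ, ∀ η : ℝ, 0 < η → Λ * η ≤ ‖R‖ → L θ R = -η →
      (∀ θ', s θ ≤ s θ' → ∀ O : Mt n, Oᵀ * O = 1 → -η ≤ L θ' (rot R O)) → 0 < L θ (QQ R) := by
  by_contra hcon
  push Not at hcon
  have hk : ∀ k : ℕ, (0 : ℝ) < (k : ℝ) + 1 := fun k => by positivity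
  choose R0 hR0C hR0P θ η0 hη0 hη0R hLR0 hlow0 hQ0 using fun k : ℕ => hcon ((k : ℝ) + 1) (hk k)
  have hnorm : ∀ k, 0 < ‖R0 k‖ := fun k => lt_of_lt_of_le (mul_pos (hk k) (hη0 k)) (hη0R k)
  -- rescaled sequences
  let R : ℕ → T4 n := fun k => ‖R0 k‖⁻¹ • R0 k
  let η : ℕ → ℝ := fun k => ‖R0 k‖⁻¹ * η0 k
  have hRn : ∀ k, ‖R k‖ = 1 := by
    intro k
    show ‖‖R0 k‖⁻¹ • R0 k‖ = 1
    rw [norm_smul, norm_inv, norm_norm, inv_mul_cancel₀ (hnorm k).ne']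
  have hRC : ∀ k, R k ∈ 𝒞 := fun k => hcone _ (hR0C k) _ (inv_pos.2 (hnorm k))
  have hRP : ∀ k, PIC (R k) := fun k => PIC_smul (inv_pos.2 (hnorm k)).le (hR0P k)
  have hη : ∀ k, 0 < η k := fun k => mul_pos (inv_pos.2 (hnorm k)) (hη0 k)
  have hηle : ∀ k, η k ≤ 1 / ((k : ℝ) + 1) := by
    intro k
    show ‖R0 k‖⁻¹ * η0 k ≤ _
    rw [le_div_iff₀ (hk k), mul_assoc, inv_mul_le_iff₀ (hnorm k), mul_one, mul_comm]
    exact hη0R k
  have hLR : ∀ k, L (θ k) (R k) = -η k := by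
    intro k
    show L (θ k) (‖R0 k‖⁻¹ • R0 k) = _
    rw [map_smul, hLR0, smul_eq_mul, mul_neg]
  have hlow : ∀ k θ', s (θ k) ≤ s θ' → ∀ O : Mt n, Oᵀ * O = 1 → -η k ≤ L θ' (rot (R k) O) := by
    intro k θ' hθ' O hO
    show _ ≤ L θ' (rot (‖R0 k‖⁻¹ • R0 k) O)
    rw [G_rot_smul, map_smul, smul_eq_mul]
    show -(‖R0 k‖⁻¹ * η0 k) ≤ _
    rw [← mul_neg]
    exact mul_le_mul_of_nonneg_left (hlow0 k θ' hθ' O hO) (inv_pos.2 (hnorm k)).le
  have hQ : ∀ k, L (θ k) (QQ (R k)) ≤ 0 := by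
    intro k
    show L (θ k) (QQ (‖R0 k‖⁻¹ • R0 k)) ≤ 0
    rw [QQ_smul, map_smul, smul_eq_mul]
    exact mul_nonpos_of_nonneg_of_nonpos (by positivity) (hQ0 k)
  -- limits along an ultrafilter
  let 𝒰 : Ultrafilter ℕ := hyperfilter ℕ
  have hle : (𝒰 : Filter ℕ) ≤ atTop := Nat.hyperfilter_le_atTop
  obtain ⟨θl, -, hθ0⟩ := isCompact_univ.ultrafilter_le_nhds (𝒰.map θ) (by simp)
  have hθ' : Tendsto θ 𝒰 (𝓝 θl) := hθ0
  obtain ⟨Rl, hRl1, hR0⟩ := (isCompact_sphere (0 : T4 n) 1).ultrafilter_le_nhds (𝒰.map R) (by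
    rw [Filter.le_principal_iff, Ultrafilter.mem_coe, Ultrafilter.mem_map]
    refine Filter.Eventually.of_forall (f := (𝒰 : Filter ℕ)) fun k => ?_
    simp only [mem_sphere_iff_norm, sub_zero]
    exact hRn k)
  have hR' : Tendsto R 𝒰 (𝓝 Rl) := hR0
  have hη' : Tendsto η 𝒰 (𝓝 0) := by
    have h3 : Tendsto (fun k : ℕ => 1 / ((k : ℝ) + 1)) 𝒰 (𝓝 0) :=
      tendsto_one_div_add_atTop_nhds_zero_nat.mono_left hle
    exact squeeze_zero (fun k => (hη k).le) hηle h3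
  have hRlC : Rl ∈ 𝒞 := hcl.mem_of_tendsto hR' (Eventually.of_forall hRC)
  have hRlP : PIC Rl := isClosed_PIC.mem_of_tendsto hR' (Eventually.of_forall hRP)
  have hRl0 : Rl ≠ 0 := by
    rintro rfl
    simp at hRl1
  have hLc := MaxP.continuous_L L hL
  have hL1 : L θl Rl = 0 := by
    have h3 : Tendsto (fun k => L (θ k) (R k)) 𝒰 (𝓝 (L θl Rl)) :=
      (hLc.tendsto (θl, Rl)).comp (hθ'.prodMk_nhds hR')
    have h4 : Tendsto (fun k => L (θ k) (R k)) 𝒰 (𝓝 0) := by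
      have h5 := hη'.neg
      rw [neg_zero] at h5
      exact h5.congr fun k => (hLR k).symm
    exact tendsto_nhds_unique h3 h4
  have hQ1 : L θl (QQ Rl) ≤ 0 := by
    have h3 : Tendsto (fun k => L (θ k) (QQ (R k))) 𝒰 (𝓝 (L θl (QQ Rl))) :=
      (hLc.tendsto (θl, QQ Rl)).comp (hθ'.prodMk_nhds ((continuous_QQ.tendsto Rl).comp hR'))
    exact le_of_tendsto' h3 hQ
  -- the case `s θl < s θ'`
  have hgt : ∀ θ', s θl < s θ' → ∀ O : Mt n, Oᵀ * O = 1 → 0 ≤ L θ' (rot Rl O) := by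
    intro θ' hlt O hO
    have h3 : ∀ᶠ k in (𝒰 : Filter ℕ), s (θ k) < s θ' :=
      ((hs.tendsto θl).comp hθ').eventually_lt_const hlt
    have h4 : Tendsto (fun k => L θ' (rot (R k) O)) 𝒰 (𝓝 (L θ' (rot Rl O))) :=
      (((LinearMap.continuous_of_finiteDimensional (L θ')).comp
        (continuous_rot_left O)).tendsto Rl).comp hR'
    have h5 := hη'.neg
    rw [neg_zero] at h5
    refine le_of_tendsto_of_tendsto h5 h4 ?_
    filter_upwards [h3] with k hk'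
    exact hlow k θ' hk'.le O hO
  have hall : ∀ θ', s θl ≤ s θ' → ∀ O : Mt n, Oᵀ * O = 1 → 0 ≤ L θ' (rot Rl O) := by
    intro θ' hle' O hO
    rcases (hs1 θ').lt_or_eq with hlt1 | heq1
    · rcases hle'.lt_or_eq with hlt | heq
      · exact hgt θ' hlt O hO
      · obtain ⟨δ0, hδ0, hδ⟩ := h1 θ' hlt1
        refine le_of_forall_pos_le_add fun ε hε => ?_
        -- choose a small `δ`
        obtain ⟨δ, hδ1, hδ2, hδ3⟩ : ∃ δ, 0 < δ ∧ δ < δ0 ∧ C * δ * ‖rot Rl O‖ ≤ ε := by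
          refine ⟨min (δ0 / 2) (ε / (|C| * ‖rot Rl O‖ + 1)), by positivity,
            lt_of_le_of_lt (min_le_left _ _) (by linarith), ?_⟩
          set δ := min (δ0 / 2) (ε / (|C| * ‖rot Rl O‖ + 1)) with hδdef
          have hδpos : 0 < δ := by positivity
          have e1 : C * δ * ‖rot Rl O‖ ≤ δ * (|C| * ‖rot Rl O‖ + 1) := by
            have e2 : C * δ * ‖rot Rl O‖ ≤ |C| * δ * ‖rot Rl O‖ :=
              mul_le_mul_of_nonneg_right (mul_le_mul_of_nonneg_right (le_abs_self C) hδpos.le)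
                (norm_nonneg _)
            nlinarith
          have e3 : δ ≤ ε / (|C| * ‖rot Rl O‖ + 1) := min_le_right _ _
          have e4 : 0 < |C| * ‖rot Rl O‖ + 1 := by positivity
          rw [le_div_iff₀ e4] at e3
          exact e1.trans e3
        obtain ⟨θ'', h3, h4⟩ := hδ δ ⟨hδ1, hδ2⟩
        have h5 := hgt θ'' (by rw [heq]; linarith) O hO
        have h6 := (abs_le.1 (h4 (rot Rl O))).2
        linarith
    · exact h0 _ (hrot _ hRlC O hO) (PIC_rot hRlP hO) θ' heq1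
  exact absurd (h2 Rl hRlC hRl0 hRlP θl hall hL1) (not_lt.2 hQ1)

open MPinch in
theorem pinch {n : ℕ} {M : Type} [TopologicalSpace M] [ChartedSpace (En n) M]
    [IsManifold (𝓡 n) ∞ M] [CompactSpace M] {T : ℝ} {g : ℝ → Metric n M} (hg : IsRicciFlow T g)
    (𝒞 : Set (T4 n)) (hcl : IsClosed 𝒞)
    (hcone : ∀ R ∈ 𝒞, ∀ c : ℝ, 0 < c → c • R ∈ 𝒞)
    (hrot : ∀ R ∈ 𝒞, ∀ O : Mt n, Oᵀ * O = 1 → rot R O ∈ 𝒞)
    (hg𝒞 : ∀ t ∈ Ico 0 T, ∀ e ∈ atlas (En n) M, ∀ y ∈ ctarget e, ∀ F : Mt n,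
      Fᵀ * (g t).G e y * F = 1 → rot (Rc ((g t).G e) y) F ∈ 𝒞 ∧ PIC (rot (Rc ((g t).G e) y) F))
    {Θ : Type} [PseudoMetricSpace Θ] [CompactSpace Θ] (L : Θ → T4 n →ₗ[ℝ] ℝ)
    (hL : ∀ R : T4 n, Continuous fun θ => L θ R) (s : Θ → ℝ) (hs : Continuous s)
    (hs1 : ∀ θ, s θ ≤ 1)
    (h0 : ∀ R ∈ 𝒞, PIC R → ∀ θ, s θ = 1 → 0 ≤ L θ R)
    (C : ℝ) (h1 : ∀ θ, s θ < 1 → ∃ δ0 > 0, ∀ δ ∈ Ioo 0 δ0, ∃ θ', s θ + δ ≤ s θ' ∧
      ∀ R : T4 n, |L θ' R - L θ R| ≤ C * δ * ‖R‖)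
    (h2 : ∀ R ∈ 𝒞, R ≠ 0 → PIC R → ∀ θ,
      (∀ θ', s θ ≤ s θ' → ∀ O : Mt n, Oᵀ * O = 1 → 0 ≤ L θ' (rot R O)) → L θ R = 0 →
      0 < L θ (QQ R)) :
    ∃ K : ℝ, ∀ t ∈ Ico 0 T, ∀ e ∈ atlas (En n) M, ∀ y ∈ ctarget e, ∀ F : Mt n,
      Fᵀ * (g t).G e y * F = 1 → ∀ θ, -K ≤ L θ (rot (Rc ((g t).G e) y) F) := by
  rcases le_or_gt T 0 with hT | hT
  · refine ⟨0, fun t ht => ?_⟩
    exact absurd (lt_of_le_of_lt ht.1 ht.2) (not_lt.2 hT)
  rcases isEmpty_or_nonempty Θ with hΘ | hΘ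
  · exact ⟨0, fun t _ e _ y _ F _ θ => hΘ.elim θ⟩
  obtain ⟨Λ, hΛ, halg⟩ := pinch_alg 𝒞 hcl hcone hrot L hL s hs hs1 h0 C h1 h2
  obtain ⟨B, hB⟩ := rc_bdd hg hT
  have hLc := MaxP.continuous_L L hL
  -- a bound for the functionals
  obtain ⟨N, hN⟩ : ∃ N : ℝ, ∀ θ, ∀ R : T4 n, ‖R‖ ≤ |B| → |L θ R| ≤ N := by
    have hc : IsCompact ((univ : Set Θ) ×ˢ Metric.closedBall (0 : T4 n) |B|) :=
      isCompact_univ.prod (isCompact_closedBall _ _)
    obtain ⟨N, hN⟩ := (hc.image (hLc.abs)).bddAbove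
    refine ⟨N, fun θ R hR => hN ⟨(θ, R), ⟨mem_univ _, by simpa using hR⟩, rfl⟩⟩
  obtain ⟨m, hm⟩ : ∃ m : ℝ, ∀ θ, m ≤ s θ := by
    obtain ⟨m, hm⟩ := (isCompact_univ.image hs).bddBelow
    exact ⟨m, fun θ => hm ⟨θ, mem_univ _, rfl⟩⟩
  set κ : ℝ := |N| + 1 with hκ
  have hκ0 : 0 < κ := by positivity
  have hκN : ∀ θ, ∀ R : T4 n, ‖R‖ ≤ |B| → |L θ R| < κ := fun θ R hR =>
    lt_of_le_of_lt ((hN θ R hR).trans (le_abs_self N)) (by rw [hκ]; linarith)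
  set Λ' : ℝ := (|C| + 1) * Λ with hΛ'
  have hΛ'0 : 0 < Λ' := by positivity
  let H : Θ → ℝ → ℝ := fun θ _ => κ * Real.exp (Λ' * (1 - s θ))
  have hHmono : ∀ θ θ' t t', s θ ≤ s θ' → H θ' t' ≤ H θ t := by
    intro θ θ' t t' hle
    refine mul_le_mul_of_nonneg_left (Real.exp_le_exp.2 ?_) hκ0.le
    exact mul_le_mul_of_nonneg_left (by linarith) hΛ'0.le
  have hHκ : ∀ θ t, κ ≤ H θ t := by
    intro θ t
    show κ ≤ κ * Real.exp (Λ' * (1 - s θ))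
    have h3 : 1 ≤ Real.exp (Λ' * (1 - s θ)) :=
      Real.one_le_exp (mul_nonneg hΛ'0.le (by linarith [hs1 θ]))
    nlinarith
  have hHpos : ∀ θ t, 0 < H θ t := fun θ t => lt_of_lt_of_le hκ0 (hHκ θ t)
  refine ⟨κ * Real.exp (Λ' * (1 - m)), fun t ht e he y hy F hF θ => ?_⟩
  have hfin := maxp hg ht.2 L hL H (fun _ _ => 0) (by
      have h3 : Continuous fun q : Θ × ℝ => κ * Real.exp (Λ' * (1 - s q.1)) := by fun_prop
      exact h3) (fun θ t => hasDerivAt_const t _) ?_ ?_ t ⟨ht.1, le_refl t⟩ e he y hy F hF θ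
  · have h3 : H θ t ≤ κ * Real.exp (Λ' * (1 - m)) := by
      refine mul_le_mul_of_nonneg_left (Real.exp_le_exp.2 ?_) hκ0.le
      exact mul_le_mul_of_nonneg_left (by linarith [hm θ]) hΛ'0.le
    linarith
  · -- initial time
    intro e he y hy F hF θ
    have h3 := hB 0 ⟨le_refl 0, le_refl 0⟩ e he y hy F hF
    have h4 := hκN θ _ (h3.trans (le_abs_self B))
    have h5 := (abs_lt.1 h4).1
    linarith [hHκ θ 0]
  · intro t' ht' e he y hy hall E hE θ hLE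
    have ht'T : t' ∈ Ico 0 T := ⟨ht'.1.le, lt_of_le_of_lt ht'.2 ht.2⟩
    obtain ⟨hRC, hRP⟩ := hg𝒞 t' ht'T e he y hy E hE
    set R := rot (Rc ((g t').G e) y) E with hR
    have hLR : L θ R = -H θ t' := by linarith
    rw [add_zero]
    have hframe : ∀ O : Mt n, Oᵀ * O = 1 → (E * O)ᵀ * (g t').G e y * (E * O) = 1 := by
      intro O hO
      have h3 : (E * O)ᵀ * (g t').G e y * (E * O) = Oᵀ * (Eᵀ * (g t').G e y * E) * O := by
        rw [Matrix.transpose_mul]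
        simp only [Matrix.mul_assoc]
      rw [h3, hE, Matrix.mul_one, hO]
    have hlow : ∀ θ', ∀ O : Mt n, Oᵀ * O = 1 → -H θ' t' ≤ L θ' (rot R O) := by
      intro θ' O hO
      have h3 := hall (E * O) (hframe O hO) θ'
      rw [hR, G_rot_mul]
      linarith
    have hlow1 : ∀ θ', -H θ' t' ≤ L θ' R := by
      intro θ'
      have h3 := hlow θ' 1 (by simp)
      rwa [G_rot_one] at h3
    have hs1' : s θ < 1 := by
      rcases (hs1 θ).lt_or_eq with h | h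
      · exact h
      · have h3 := h0 R hRC hRP θ h
        linarith [hHpos θ t']
    refine halg R hRC hRP θ (H θ t') (hHpos θ t') ?_ hLR ?_
    · -- `Λ η ≤ ‖R‖`
      obtain ⟨δ0, hδ0, hδ⟩ := h1 θ hs1'
      set η := H θ t' with hη
      have hηpos : 0 < η := hHpos θ t'
      have key : ∀ δ ∈ Ioo 0 δ0, η * (1 - Real.exp (-(Λ' * δ))) ≤ |C| * δ * ‖R‖ := by
        intro δ hδm
        obtain ⟨θ', h3, h4⟩ := hδ δ hδm
        have h5 := (abs_le.1 (h4 R)).2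
        have h6 := hlow1 θ'
        have h7 : H θ' t' ≤ η * Real.exp (-(Λ' * δ)) := by
          show κ * Real.exp (Λ' * (1 - s θ')) ≤ κ * Real.exp (Λ' * (1 - s θ)) * Real.exp (-(Λ' * δ))
          rw [mul_assoc κ, ← Real.exp_add]
          refine mul_le_mul_of_nonneg_left (Real.exp_le_exp.2 ?_) hκ0.le
          nlinarith
        have h8 : C * δ * ‖R‖ ≤ |C| * δ * ‖R‖ :=
          mul_le_mul_of_nonneg_right (mul_le_mul_of_nonneg_right (le_abs_self C) hδm.1.le)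
            (norm_nonneg _)
        nlinarith
      -- derivative at zero
      have key2 : Λ' * η ≤ |C| * ‖R‖ := by
        have hd : HasDerivAt (fun δ : ℝ => η * (1 - Real.exp (-(Λ' * δ)))) (Λ' * η) 0 := by
          have h3 : HasDerivAt (fun δ : ℝ => -(Λ' * δ)) (-(Λ' * 1)) 0 :=
            ((hasDerivAt_id (0 : ℝ)).const_mul Λ').neg
          have h4 := (h3.exp.const_sub 1).const_mul η
          have h5 : η * -(Real.exp (-(Λ' * 0)) * -(Λ' * 1)) = Λ' * η := by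
            rw [mul_zero, neg_zero, Real.exp_zero]; ring
          rw [h5] at h4
          exact h4
        have h3 := hd.tendsto_slope_zero_right
        have h4 : Tendsto (fun δ : ℝ => |C| * ‖R‖) (𝓝[>] 0) (𝓝 (|C| * ‖R‖)) := tendsto_const_nhds
        refine le_of_tendsto_of_tendsto h3 h4 ?_
        filter_upwards [Ioo_mem_nhdsGT hδ0] with δ hδm
        have h5 := key δ hδm
        simp only [zero_add, mul_zero, neg_zero, Real.exp_zero, sub_self, sub_zero, smul_eq_mul]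
        rw [inv_mul_le_iff₀ hδm.1]
        linarith
      have h3 : (|C| + 1) * (Λ * η) ≤ (|C| + 1) * ‖R‖ := by
        have h4 : (|C| + 1) * (Λ * η) = Λ' * η := by rw [hΛ']; ring
        rw [h4]
        nlinarith [norm_nonneg R]
      exact le_of_mul_le_mul_left h3 (by positivity)
    · intro θ' hθ' O hO
      have h3 := hlow θ' O hO
      have h4 := hHmono θ θ' t' t' hθ'
      linarith

end Pool.Agent.Helper696_RF
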