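import Mathlib
import Pool.Agent.Helper696_RF.Alg

/-!
RF-N normal form of plane-symmetric curvature tensors (helper574).
-/

set_option autoImplicit false
open scoped ContDiff Manifold Topology Matrix
open Set Filter

namespace Pool.Agent.Helper696_RF

open Pool.Agent.QTot Pool.Agent.H858R2

/-- index quadruples -/
abbrev N_I4 (n : ℕ) := Fin n × Fin n × Fin n × Fin n

theorem N_rot_eq {n : ℕ} (R : T4 n) (F : Mt n) (i j k l : Fin n) : rot R F i j k l =
    ∑ x : N_I4 n, R x.1 x.2.1 x.2.2.1 x.2.2.2 *
      (F x.1 i * F x.2.1 j * F x.2.2.1 k * F x.2.2.2 l) := by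
  simp only [rot, Fintype.sum_prod_type]
  refine Finset.sum_congr rfl fun a _ => Finset.sum_congr rfl fun b _ =>
    Finset.sum_congr rfl fun c _ => Finset.sum_congr rfl fun d _ => ?_
  ring

theorem N_prod4 {n : ℕ} (f g h k : Fin n → ℝ) :
    (∑ a, f a) * (∑ b, g b) * (∑ c, h c) * (∑ d, k d) =
      ∑ x : N_I4 n, f x.1 * g x.2.1 * h x.2.2.1 * k x.2.2.2 := by
  simp only [Fintype.sum_prod_type]
  simp only [← Finset.mul_sum, ← Finset.sum_mul]

theorem N_rot_mul {n : ℕ} (R : T4 n) (A B : Mt n) : rot (rot R A) B = rot R (A * B) := by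
  funext i j k l
  rw [N_rot_eq, N_rot_eq]
  calc ∑ x : N_I4 n, rot R A x.1 x.2.1 x.2.2.1 x.2.2.2 *
      (B x.1 i * B x.2.1 j * B x.2.2.1 k * B x.2.2.2 l)
      = ∑ x : N_I4 n, ∑ y : N_I4 n, R y.1 y.2.1 y.2.2.1 y.2.2.2 *
          ((A y.1 x.1 * B x.1 i) * (A y.2.1 x.2.1 * B x.2.1 j) * (A y.2.2.1 x.2.2.1 * B x.2.2.1 k) *
            (A y.2.2.2 x.2.2.2 * B x.2.2.2 l)) := by
        refine Finset.sum_congr rfl fun x _ => ?_
        rw [N_rot_eq, Finset.sum_mul]
        refine Finset.sum_congr rfl fun y _ => ?_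
        ring
    _ = _ := by
        rw [Finset.sum_comm]
        refine Finset.sum_congr rfl fun y _ => ?_
        rw [← Finset.mul_sum]
        congr 1
        simp only [Matrix.mul_apply]
        rw [N_prod4]

theorem N_alg {n : ℕ} {R : T4 n} (hR : IsAlg R) (F : Mt n) : IsAlg (rot R F) := by
  refine ⟨?_, ?_, ?_⟩
  · intro i j k l
    unfold rot
    rw [Finset.sum_comm, ← Finset.sum_neg_distrib]
    refine Finset.sum_congr rfl fun b _ => ?_
    rw [← Finset.sum_neg_distrib]
    refine Finset.sum_congr rfl fun a _ => ?_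
    rw [← Finset.sum_neg_distrib]
    refine Finset.sum_congr rfl fun c _ => ?_
    rw [← Finset.sum_neg_distrib]
    refine Finset.sum_congr rfl fun d _ => ?_
    rw [hR.anti a b c d]
    ring
  · intro i j k l
    rw [N_rot_eq, N_rot_eq]
    let e : N_I4 n ≃ N_I4 n :=
      { toFun := fun x => (x.2.2.1, x.2.2.2, x.1, x.2.1)
        invFun := fun x => (x.2.2.1, x.2.2.2, x.1, x.2.1)
        left_inv := fun x => rfl
        right_inv := fun x => rfl }
    rw [← Equiv.sum_comp e]
    refine Finset.sum_congr rfl fun x _ => ?_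
    simp only [e, Equiv.coe_fn_mk]
    rw [hR.pair]
    ring
  · intro i j k l
    rw [N_rot_eq, N_rot_eq, N_rot_eq]
    let e : N_I4 n ≃ N_I4 n :=
      { toFun := fun x => (x.2.1, x.2.2.1, x.1, x.2.2.2)
        invFun := fun x => (x.2.2.1, x.1, x.2.1, x.2.2.2)
        left_inv := fun x => rfl
        right_inv := fun x => rfl }
    let e' : N_I4 n ≃ N_I4 n :=
      { toFun := fun x => (x.2.2.1, x.1, x.2.1, x.2.2.2)
        invFun := fun x => (x.2.1, x.2.2.1, x.1, x.2.2.2)
        left_inv := fun x => rfl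
        right_inv := fun x => rfl }
    rw [← Equiv.sum_comp e (fun x : N_I4 n => R x.1 x.2.1 x.2.2.1 x.2.2.2 *
      (F x.1 j * F x.2.1 k * F x.2.2.1 i * F x.2.2.2 l)),
      ← Equiv.sum_comp e' (fun x : N_I4 n => R x.1 x.2.1 x.2.2.1 x.2.2.2 *
      (F x.1 k * F x.2.1 i * F x.2.2.1 j * F x.2.2.2 l)),
      ← Finset.sum_add_distrib, ← Finset.sum_add_distrib]
    apply Finset.sum_eq_zero
    intro x _
    simp only [e, e', Equiv.coe_fn_mk]
    have := hR.bian x.1 x.2.1 x.2.2.1 x.2.2.2
    linear_combination (F x.1 i * F x.2.1 j * F x.2.2.1 k * F x.2.2.2 l) * this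

/-- a single-column substitution -/
theorem N_rot_diag {n : ℕ} (R : T4 n) (s : Fin n → ℝ) (i j k l : Fin n) :
    rot R (Matrix.diagonal s) i j k l = R i j k l * s i * s j * s k * s l := by
  unfold rot
  simp [Matrix.diagonal_apply]

theorem N_rot_perm {n : ℕ} (R : T4 n) (σ : Fin n → Fin n) (i j k l : Fin n) :
    rot R (Matrix.of fun a b => if a = σ b then (1 : ℝ) else 0) i j k l
      = R (σ i) (σ j) (σ k) (σ l) := by
  unfold rot
  simp

/-- the invariance hypothesis -/
def N_inv {n : ℕ} (R : T4 n) : Prop :=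
  ∀ O : Mt n, Oᵀ * O = 1 → (∀ i j : Fin n, j.val < 2 → O i j = if i = j then 1 else 0) →
      rot R O = R

theorem N_flip {n : ℕ} {R : T4 n} (h : N_inv R) (x : Fin n) (hx : 2 ≤ x.val) (i j k l : Fin n) :
    R i j k l = R i j k l * (if i = x then -1 else 1) * (if j = x then -1 else 1) *
      (if k = x then -1 else 1) * (if l = x then -1 else 1) := by
  have h1 := h (Matrix.diagonal fun a => if a = x then (-1 : ℝ) else 1) (by
    rw [Matrix.diagonal_transpose, Matrix.diagonal_mul_diagonal, ← Matrix.diagonal_one]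
    congr 1
    funext a
    split_ifs <;> norm_num) (by
    intro i j hj
    rw [Matrix.diagonal_apply]
    have : j ≠ x := by
      rintro rfl
      omega
    by_cases hij : i = j
    · subst hij
      simp [this]
    · simp [hij])
  have h2 := congrFun (congrFun (congrFun (congrFun h1 i) j) k) l
  rw [N_rot_diag] at h2
  exact h2.symm

theorem N_perm {n : ℕ} {R : T4 n} (h : N_inv R) (x y : Fin n) (hx : 2 ≤ x.val) (hy : 2 ≤ y.val)
    (i j k l : Fin n) :
    R (Equiv.swap x y i) (Equiv.swap x y j) (Equiv.swap x y k) (Equiv.swap x y l) = R i j k l := by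
  have h1 := h (Matrix.of fun a b => if a = Equiv.swap x y b then (1 : ℝ) else 0) (by
    ext a b
    rw [Matrix.mul_apply, Matrix.one_apply]
    by_cases hab : a = b
    · subst hab
      simp [Matrix.transpose_apply]
    · simp [Matrix.transpose_apply, hab, Ne.symm hab]) (by
    intro i j hj
    have h1 : j ≠ x := by rintro rfl; omega
    have h2 : j ≠ y := by rintro rfl; omega
    simp [Equiv.swap_apply_of_ne_of_ne h1 h2])
  have h2 := congrFun (congrFun (congrFun (congrFun h1 i) j) k) l
  rw [N_rot_perm] at h2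
  exact h2

/-- the rotation in the first two coordinates -/
noncomputable def N_P {n : ℕ} (i0 i1 : Fin n) (c s : ℝ) : Mt n :=
  1 + (c - 1) • (Matrix.single i0 i0 1 + Matrix.single i1 i1 1) +
    s • (Matrix.single i1 i0 1 - Matrix.single i0 i1 1)

theorem N_P_orth {n : ℕ} (i0 i1 : Fin n) (h01 : i0 ≠ i1) (c s : ℝ) (hcs : c ^ 2 + s ^ 2 = 1) :
    (N_P i0 i1 c s)ᵀ * N_P i0 i1 c s = 1 := by
  set u : Mt n := Matrix.single i0 i0 1 + Matrix.single i1 i1 1 with hu
  set w : Mt n := Matrix.single i1 i0 1 - Matrix.single i0 i1 1 with hw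
  have uT : uᵀ = u := by
    rw [hu, Matrix.transpose_add, Matrix.transpose_single, Matrix.transpose_single]
  have wT : wᵀ = -w := by
    rw [hw, Matrix.transpose_sub, Matrix.transpose_single, Matrix.transpose_single, neg_sub]
  have uu : u * u = u := by
    rw [hu]
    simp [mul_add, add_mul, Matrix.single_mul_single_of_ne, h01, h01.symm]
  have uw : u * w = w := by
    rw [hu, hw]
    simp [mul_add, add_mul, mul_sub, sub_mul, Matrix.single_mul_single_of_ne, h01, h01.symm]
  have wu : w * u = w := by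
    rw [hu, hw]
    simp [mul_add, add_mul, mul_sub, sub_mul, Matrix.single_mul_single_of_ne, h01, h01.symm]
    abel
  have ww : w * w = -u := by
    rw [hu, hw]
    simp [mul_add, add_mul, mul_sub, sub_mul, Matrix.single_mul_single_of_ne, h01, h01.symm]
    abel
  have e : N_P i0 i1 c s = 1 + (c - 1) • u + s • w := rfl
  rw [e, Matrix.transpose_add, Matrix.transpose_add, Matrix.transpose_smul, Matrix.transpose_smul,
    uT, wT, Matrix.transpose_one]
  simp only [mul_add, add_mul, mul_one, one_mul, Matrix.smul_mul, Matrix.mul_smul, smul_smul,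
    uu, uw, wu, ww, Matrix.neg_mul, smul_neg]
  have key : (c - 1) + (c - 1) + (c - 1) * (c - 1) + s * s = 0 := by linear_combination hcs
  have key2 : ((c - 1) + (c - 1) + (c - 1) * (c - 1) + s * s) • u = 0 := by rw [key, zero_smul]
  simp only [add_smul] at key2
  have key3 : ((c - 1) * s) • w = (s * (c - 1)) • w := by rw [mul_comm]
  calc _ = 1 + ((c - 1) • u + (c - 1) • u + ((c - 1) * (c - 1)) • u + (s * s) • u)
        + ((s * (c - 1)) • w - ((c - 1) * s) • w) := by abel
    _ = _ := by rw [key2, key3, sub_self, add_zero, add_zero]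

theorem N_comm {n : ℕ} (i0 i1 : Fin n) (c s : ℝ) (O : Mt n) (h1 : Oᵀ * O = 1)
    (g0 : ∀ i, O i i0 = if i = i0 then 1 else 0) (g1 : ∀ i, O i i1 = if i = i1 then 1 else 0) :
    N_P i0 i1 c s * O = O * N_P i0 i1 c s := by
  have r0 : ∀ j, O i0 j = if i0 = j then 1 else 0 := by
    intro j
    have := congrFun (congrFun h1 i0) j
    rw [Matrix.mul_apply, Matrix.one_apply] at this
    simpa [Matrix.transpose_apply, g0] using this
  have r1 : ∀ j, O i1 j = if i1 = j then 1 else 0 := by
    intro j
    have := congrFun (congrFun h1 i1) j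
    rw [Matrix.mul_apply, Matrix.one_apply] at this
    simpa [Matrix.transpose_apply, g1] using this
  have key : ∀ a b : Fin n, (∀ i, O i a = if i = a then 1 else 0) →
      (∀ j, O b j = if b = j then 1 else 0) →
      Matrix.single a b (1 : ℝ) * O = O * Matrix.single a b 1 := by
    intro a b ha hb
    ext i j
    rw [Matrix.mul_apply, Matrix.mul_apply]
    simp only [Matrix.single_apply]
    rw [Finset.sum_eq_single b, Finset.sum_eq_single a]
    · rw [ha, hb]
      by_cases h1 : a = i <;> by_cases h2 : b = j <;> simp [h1, h2, eq_comm]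
    · intro x _ hx
      simp [hx.symm]
    · simp
    · intro x _ hx
      simp [hx.symm]
    · simp
  unfold N_P
  simp only [mul_add, add_mul, mul_sub, sub_mul, Matrix.smul_mul, Matrix.mul_smul, mul_one,
    one_mul, key i0 i0 g0 r0, key i1 i1 g1 r1, key i1 i0 g1 r0, key i0 i1 g0 r1]

/-- the classification once the off-diagonal entry vanishes -/
theorem N_class {n : ℕ} (i0 i1 i2 i3 : Fin n) (h0 : i0.val = 0) (h1 : i1.val = 1)
    (h2 : i2.val = 2) (h3 : i3.val = 3) {R : T4 n} (hR : IsAlg R) (hinv : N_inv R)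
    (hz : R i0 i2 i1 i2 = 0) :
    R = dg (KW (R i0 i2 i0 i2) (R i1 i2 i1 i2) (R i0 i1 i0 i1) (R i2 i3 i2 i3)) := by
  have an := hR.anti
  have pr := hR.pair
  have an2 : ∀ i j k l, R i j k l = -R i j l k := by
    intro i j k l
    rw [pr i j k l, an k l i j, pr l k i j]
  have n01 : i0 ≠ i1 := by rintro rfl; omega
  have n02 : i0 ≠ i2 := by rintro rfl; omega
  have n12 : i1 ≠ i2 := by rintro rfl; omega
  have n03 : i0 ≠ i3 := by rintro rfl; omega
  have n13 : i1 ≠ i3 := by rintro rfl; omega
  have n23 : i2 ≠ i3 := by rintro rfl; omega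
  have cases01 : ∀ i : Fin n, i = i0 ∨ i = i1 ∨ 2 ≤ i.val := by
    intro i
    rcases Nat.lt_or_ge i.val 2 with h | h
    · rcases Nat.lt_or_ge i.val 1 with h' | h'
      · left
        apply Fin.ext
        omega
      · right; left
        apply Fin.ext
        omega
    · right; right; exact h
  -- swapping two indices at least two
  have sw : ∀ x y : Fin n, 2 ≤ x.val → 2 ≤ y.val → ∀ a b : Fin n, a.val < 2 → b.val < 2 →
      R a x b x = R a y b y := by
    intro x y hx hy a b ha hb
    have := N_perm hinv x y hx hy a x b x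
    have e1 : Equiv.swap x y a = a := Equiv.swap_apply_of_ne_of_ne
      (by rintro rfl; omega) (by rintro rfl; omega)
    have e2 : Equiv.swap x y b = b := Equiv.swap_apply_of_ne_of_ne
      (by rintro rfl; omega) (by rintro rfl; omega)
    rw [e1, e2, Equiv.swap_apply_left] at this
    exact this.symm
  have S1 : ∀ x y z : Fin n, 2 ≤ x.val → 2 ≤ y.val → 2 ≤ z.val → x ≠ y → x ≠ z →
      R x y x y = R x z x z := by
    intro x y z hx hy hz hxy hxz
    have := N_perm hinv y z hy hz x y x y
    have e1 : Equiv.swap y z x = x := Equiv.swap_apply_of_ne_of_ne hxy hxz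
    rw [e1, Equiv.swap_apply_left] at this
    exact this.symm
  have S2 : ∀ x y : Fin n, R x y x y = R y x y x := by
    intro x y
    rw [an x y x y, an2 y x x y, neg_neg]
  have C1 : ∀ x y : Fin n, 2 ≤ x.val → 2 ≤ y.val → x ≠ y → R x y x y = R i2 i3 i2 i3 := by
    intro x y hx hy hxy
    by_cases hx2 : x = i2
    · subst hx2
      exact S1 x y i3 hx hy (by omega) hxy n23
    · rw [S1 x y i2 hx hy (by omega) hxy hx2, S2 x i2,
        S1 i2 x i3 (by omega) hx (by omega) (Ne.symm hx2) n23]
  -- the diagonal values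
  set K := KW (R i0 i2 i0 i2) (R i1 i2 i1 i2) (R i0 i1 i0 i1) (R i2 i3 i2 i3) with hK
  have D : ∀ i j : Fin n, i ≠ j → R i j i j = K i j := by
    intro i j hij
    rcases cases01 i with hi | hi | hi <;> rcases cases01 j with hj | hj | hj
    · exact absurd (hi.trans hj.symm) hij
    · subst hi; subst hj
      simp [hK, KW, h0, h1]
    · subst hi
      rw [sw j i2 hj (by omega) i i (by omega) (by omega)]
      have a2 : ¬ j.val < 2 := by omega
      simp [hK, KW, h0, a2]
    · subst hi; subst hj
      rw [S2]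
      simp [hK, KW, h0, h1]
    · exact absurd (hi.trans hj.symm) hij
    · subst hi
      rw [sw j i2 hj (by omega) i i (by omega) (by omega)]
      have a2 : ¬ j.val < 2 := by omega
      simp [hK, KW, h1, a2]
    · subst hj
      rw [S2, sw i i2 hi (by omega) j j (by omega) (by omega)]
      have a2 : ¬ i.val < 2 := by omega
      simp [hK, KW, h0, a2]
    · subst hj
      rw [S2, sw i i2 hi (by omega) j j (by omega) (by omega)]
      have a2 : ¬ i.val < 2 := by omega
      simp [hK, KW, h1, a2]
    · rw [C1 i j hi hj hij]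
      have a1 : ¬ i.val < 2 := by omega
      have a2 : ¬ j.val < 2 := by omega
      simp [hK, KW, a1, a2]
  -- vanishing if a large index occurs once
  have V1 : ∀ i j k l : Fin n, 2 ≤ i.val → i ≠ j → i ≠ k → i ≠ l → R i j k l = 0 := by
    intro i j k l hi hij hik hil
    have := N_flip hinv i hi i j k l
    rw [if_pos rfl, if_neg hij.symm, if_neg hik.symm, if_neg hil.symm] at this
    linarith
  have V2 : ∀ i j k l : Fin n, 2 ≤ j.val → j ≠ i → j ≠ k → j ≠ l → R i j k l = 0 := by
    intro i j k l hi hij hik hil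
    rw [an, V1 j i k l hi hij hik hil, neg_zero]
  have V3 : ∀ i j k l : Fin n, 2 ≤ k.val → k ≠ i → k ≠ j → k ≠ l → R i j k l = 0 := by
    intro i j k l hi hij hik hil
    rw [pr, V1 k l i j hi hil hij hik]
  have V4 : ∀ i j k l : Fin n, 2 ≤ l.val → l ≠ i → l ≠ j → l ≠ k → R i j k l = 0 := by
    intro i j k l hi hij hik hil
    rw [pr, V2 k l i j hi hil hij hik]
  have Z1 : ∀ x : Fin n, 2 ≤ x.val → R i0 x i1 x = 0 := by
    intro x hx
    rw [sw x i2 hx (by omega) i0 i1 (by omega) (by omega), hz]
  -- mixed components: one common index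
  have M1 : ∀ x y z : Fin n, x ≠ y → x ≠ z → y ≠ z → R y x z x = 0 := by
    intro x y z hxy hxz hyz
    rcases cases01 y with hy | hy | hy
    · rcases cases01 z with hz' | hz' | hz'
      · exact absurd (hy.trans hz'.symm) hyz
      · subst hy; subst hz'
        rcases cases01 x with hx | hx | hx
        · exact absurd hx hxy
        · exact absurd hx hxz
        · exact Z1 x hx
      · exact V3 _ _ _ _ hz' hyz.symm hxz.symm hxz.symm
    · rcases cases01 z with hz' | hz' | hz'
      · subst hy; subst hz'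
        rcases cases01 x with hx | hx | hx
        · exact absurd hx hxz
        · exact absurd hx hxy
        · rw [pr]; exact Z1 x hx
      · exact absurd (hy.trans hz'.symm) hyz
      · exact V3 _ _ _ _ hz' hyz.symm hxz.symm hxz.symm
    · exact V1 _ _ _ _ hy hxy.symm hyz hxy.symm
  funext i j k l
  unfold dg
  by_cases hij : i = j
  · subst hij
    have : R i i k l = 0 := by have := an i i k l; linarith
    rw [this]
    ring
  by_cases hkl : k = l
  · subst hkl
    have : R i j k k = 0 := by have := an2 i j k k; linarith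
    rw [this]
    ring
  by_cases hik : i = k
  · subst hik
    by_cases hjl : j = l
    · subst hjl
      simp [D i j hij, hij]
    · rw [if_neg hjl, if_neg hkl, an, an2, M1 i j l hij hkl hjl]
      simp
  · by_cases hil : i = l
    · subst hil
      by_cases hjk : j = k
      · subst hjk
        rw [an2, D i j hij]
        simp [hij]
      · rw [if_neg hik, if_neg hjk, an, M1 i j k hij hik hjk]
        simp
    · rw [if_neg hik, if_neg hil]
      simp only [zero_mul, sub_zero, mul_zero]
      by_cases hjk : j = k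
      · subst hjk
        rw [an2, M1 j i l (Ne.symm hij) hkl hil, neg_zero]
      · by_cases hjl : j = l
        · subst hjl
          exact M1 j i k (Ne.symm hij) hjk hik
        · -- four distinct indices
          rcases cases01 i with hi | hi | hi
          · rcases cases01 j with hj | hj | hj
            · exact absurd (hi.trans hj.symm) hij
            · rcases cases01 k with hk | hk | hk
              · exact absurd (hi.trans hk.symm) hik
              · exact absurd (hj.trans hk.symm) hjk
              · exact V3 _ _ _ _ hk (Ne.symm hik) (Ne.symm hjk) hkl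
            · exact V2 _ _ _ _ hj (Ne.symm hij) hjk hjl
          · rcases cases01 j with hj | hj | hj
            · rcases cases01 k with hk | hk | hk
              · exact absurd (hj.trans hk.symm) hjk
              · exact absurd (hi.trans hk.symm) hik
              · exact V3 _ _ _ _ hk (Ne.symm hik) (Ne.symm hjk) hkl
            · exact absurd (hi.trans hj.symm) hij
            · exact V2 _ _ _ _ hj (Ne.symm hij) hjk hjl
          · exact V1 _ _ _ _ hi hij hik hil

/-- existence of the angle -/
theorem N_angle (a b : ℝ) : ∃ c s : ℝ, c ^ 2 + s ^ 2 = 1 ∧ a * (c * s) + b * (c ^ 2 - s ^ 2) = 0 := by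
  have hcont : ContinuousOn (fun θ : ℝ => a * (Real.cos θ * Real.sin θ)
      + b * (Real.cos θ ^ 2 - Real.sin θ ^ 2)) (Icc 0 (Real.pi / 2)) := by fun_prop
  have hpi : (0 : ℝ) ≤ Real.pi / 2 := by positivity
  have : (0 : ℝ) ∈ (fun θ : ℝ => a * (Real.cos θ * Real.sin θ)
      + b * (Real.cos θ ^ 2 - Real.sin θ ^ 2)) '' Icc 0 (Real.pi / 2) := by
    rcases le_total 0 b with hb | hb
    · apply intermediate_value_Icc' hpi hcont
      exact ⟨by simp; linarith, by simp; linarith⟩
    · apply intermediate_value_Icc hpi hcont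
      exact ⟨by simp; linarith, by simp; linarith⟩
  obtain ⟨θ, _, hθ⟩ := this
  exact ⟨Real.cos θ, Real.sin θ, Real.cos_sq_add_sin_sq θ, hθ⟩

theorem N_entry {n : ℕ} (i0 i1 i2 : Fin n) (n01 : i0 ≠ i1) (n02 : i0 ≠ i2) (n12 : i1 ≠ i2)
    (c s : ℝ) (R : T4 n) :
    rot R (N_P i0 i1 c s) i0 i2 i1 i2 = -(c * s) * R i0 i2 i0 i2 + c ^ 2 * R i0 i2 i1 i2
      - s ^ 2 * R i1 i2 i0 i2 + c * s * R i1 i2 i1 i2 := by
  have c0 : ∀ a, N_P i0 i1 c s a i0 = c * (if a = i0 then 1 else 0) + s * (if a = i1 then 1 else 0) := by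
    intro a
    unfold N_P
    by_cases h0 : a = i0
    · subst h0
      simp [Matrix.single_apply, n01, n01.symm]
    · by_cases h1 : a = i1
      · subst h1
        simp [Matrix.single_apply, n01, n01.symm]
      · simp [Matrix.single_apply, h0, h1, Ne.symm h0, Ne.symm h1, n01, n01.symm]
  have c1 : ∀ a, N_P i0 i1 c s a i1 = -s * (if a = i0 then 1 else 0) + c * (if a = i1 then 1 else 0) := by
    intro a
    unfold N_P
    by_cases h0 : a = i0
    · subst h0
      simp [Matrix.single_apply, n01, n01.symm]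
    · by_cases h1 : a = i1
      · subst h1
        simp [Matrix.single_apply, n01, n01.symm]
      · simp [Matrix.single_apply, h0, h1, Ne.symm h0, Ne.symm h1, n01, n01.symm]
  have c2 : ∀ a, N_P i0 i1 c s a i2 = if a = i2 then 1 else 0 := by
    intro a
    unfold N_P
    simp [Matrix.single_apply, n02, n12, Matrix.one_apply]
  unfold rot
  simp only [c0, c1, c2]
  simp only [mul_ite, mul_one, mul_zero, Finset.sum_ite_eq', Finset.mem_univ, if_true]
  simp only [mul_add, add_mul, mul_ite, ite_mul, mul_zero, zero_mul, Finset.sum_add_distrib,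
    Finset.sum_ite_eq', Finset.mem_univ, if_true]
  ring

/-! ## TARGET N (normal form of a curvature tensor invariant under the rotations fixing a plane). -/
theorem w0_form {n : ℕ} (hn : 5 ≤ n) {R : T4 n} (hR : IsAlg R)
    (hinv : ∀ O : Mt n, Oᵀ * O = 1 → (∀ i j : Fin n, j.val < 2 → O i j = if i = j then 1 else 0) →
      rot R O = R) :
    ∃ P : Mt n, Pᵀ * P = 1 ∧ ∃ A E B C : ℝ, rot R P = dg (KW A E B C) := by
  let i0 : Fin n := ⟨0, by omega⟩
  let i1 : Fin n := ⟨1, by omega⟩
  let i2 : Fin n := ⟨2, by omega⟩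
  let i3 : Fin n := ⟨3, by omega⟩
  have n01 : i0 ≠ i1 := by simp [i0, i1]
  have n02 : i0 ≠ i2 := by simp [i0, i2]
  have n12 : i1 ≠ i2 := by simp [i1, i2]
  obtain ⟨c, s, hcs, hzero⟩ := N_angle (R i1 i2 i1 i2 - R i0 i2 i0 i2) (R i0 i2 i1 i2)
  have horth := N_P_orth i0 i1 n01 c s hcs
  refine ⟨N_P i0 i1 c s, horth, _, _, _, _,
    N_class i0 i1 i2 i3 rfl rfl rfl rfl (N_alg hR _) ?_ ?_⟩
  · intro O hO1 hO2
    have hc := N_comm i0 i1 c s O hO1 (fun i => hO2 i i0 (by simp [i0]))
      (fun i => hO2 i i1 (by simp [i1]))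
    rw [N_rot_mul, hc, ← N_rot_mul, hinv O hO1 hO2]
  · rw [N_entry i0 i1 i2 n01 n02 n12, hR.pair i1 i2 i0 i2]
    linear_combination hzero

end Pool.Agent.Helper696_RF
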