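import Mathlib
import Pool.Agent.Helper696_RF.Alg

/-!
RF-O: general facts about `dg K` and `fnu` (helper724). Auxiliary lemmas are prefixed `O_`.
-/

set_option autoImplicit false
open scoped ContDiff Manifold Topology Matrix
open Set Filter

namespace Pool.Agent.Helper696_RF

open Pool.Agent.QTot Pool.Agent.H858R2

theorem isAlg_dg {n : ℕ} (K : Mt n) (hK : ∀ i j, K i j = K j i) : IsAlg (dg K) := by
  constructor
  · intro i j k l
    simp only [dg]
    rw [hK j i]
    ring
  · intro i j k l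
    simp only [dg]
    rw [show (if k = i then (1:ℝ) else 0) = if i = k then 1 else 0 by simp only [eq_comm],
      show (if l = j then (1:ℝ) else 0) = if j = l then 1 else 0 by simp only [eq_comm],
      show (if k = j then (1:ℝ) else 0) = if j = k then 1 else 0 by simp only [eq_comm],
      show (if l = i then (1:ℝ) else 0) = if i = l then 1 else 0 by simp only [eq_comm]]
    by_cases h1 : i = k
    · subst h1
      by_cases h2 : j = l
      · subst h2; ring
      · by_cases h3 : i = l
        · subst h3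
          simp only [h2, if_false]
          by_cases h4 : j = i
          · exact absurd h4 h2
          · simp [h4]
        · simp [h2, h3]
    · by_cases h3 : i = l
      · subst h3
        by_cases h4 : j = k
        · subst h4
          rw [hK j i]; ring
        · simp [h1, h4]
      · simp [h1, h3]
  · intro i j k l
    simp only [dg]
    rw [show (if j = i then (1:ℝ) else 0) = if i = j then 1 else 0 by simp only [eq_comm],
      show (if k = j then (1:ℝ) else 0) = if j = k then 1 else 0 by simp only [eq_comm],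
      show (if k = i then (1:ℝ) else 0) = if i = k then 1 else 0 by simp only [eq_comm]]
    have e1 : K i j * ((if i = k then 1 else 0) * (if j = l then 1 else 0)) =
        K j k * ((if j = l then 1 else 0) * (if i = k then 1 else 0)) := by
      by_cases h : i = k
      · subst h; rw [hK j i]; ring
      · simp [h]
    have e2 : K i j * ((if i = l then 1 else 0) * (if j = k then 1 else 0)) =
        K k i * ((if j = k then 1 else 0) * (if i = l then 1 else 0)) := by
      by_cases h : j = k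
      · subst h; rw [hK j i]; ring
      · simp [h]
    have e3 : K j k * ((if i = j then 1 else 0) * (if k = l then 1 else 0)) =
        K k i * ((if k = l then 1 else 0) * (if i = j then 1 else 0)) := by
      by_cases h : i = j
      · subst h; rw [hK k i]; ring
      · simp [h]
    linear_combination e1 - e2 + e3

theorem IsAlg.rot {n : ℕ} {R : T4 n} (hR : IsAlg R) (F : Mt n) : IsAlg (rot R F) := by
  constructor
  · intro i j k l
    simp only [Helper696_RF.rot]
    rw [Finset.sum_comm]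
    simp only [← Finset.sum_neg_distrib]
    refine Finset.sum_congr rfl fun a _ => Finset.sum_congr rfl fun b _ =>
      Finset.sum_congr rfl fun c _ => Finset.sum_congr rfl fun d _ => ?_
    rw [hR.anti b a]
    ring
  · intro i j k l
    simp only [Helper696_RF.rot]
    calc _ = ∑ a, ∑ c, ∑ b, ∑ d, R a b c d * F a i * F b j * F c k * F d l := by
          refine Finset.sum_congr rfl fun a _ => ?_
          rw [Finset.sum_comm]
      _ = ∑ c, ∑ a, ∑ d, ∑ b, R a b c d * F a i * F b j * F c k * F d l := by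
          rw [Finset.sum_comm]
          refine Finset.sum_congr rfl fun a _ => Finset.sum_congr rfl fun b _ => ?_
          rw [Finset.sum_comm]
      _ = ∑ c, ∑ d, ∑ a, ∑ b, R a b c d * F a i * F b j * F c k * F d l := by
          refine Finset.sum_congr rfl fun a _ => ?_
          rw [Finset.sum_comm]
      _ = _ := by
          refine Finset.sum_congr rfl fun a _ => Finset.sum_congr rfl fun b _ =>
            Finset.sum_congr rfl fun c _ => Finset.sum_congr rfl fun d _ => ?_
          rw [hR.pair c d a b]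
          ring
  · intro i j k l
    have h2 : Helper696_RF.rot R F j k i l =
        ∑ a, ∑ b, ∑ c, ∑ d, R b c a d * F b j * F c k * F a i * F d l := by
      simp only [Helper696_RF.rot]
      calc _ = ∑ a, ∑ c, ∑ b, ∑ d, R a b c d * F a j * F b k * F c i * F d l := by
            refine Finset.sum_congr rfl fun a _ => ?_
            rw [Finset.sum_comm]
        _ = ∑ c, ∑ a, ∑ b, ∑ d, R a b c d * F a j * F b k * F c i * F d l := by
            rw [Finset.sum_comm]
        _ = _ := rfl
    have h3 : Helper696_RF.rot R F k i j l =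
        ∑ a, ∑ b, ∑ c, ∑ d, R c a b d * F c k * F a i * F b j * F d l := by
      simp only [Helper696_RF.rot]
      calc _ = ∑ b, ∑ a, ∑ c, ∑ d, R a b c d * F a k * F b i * F c j * F d l := by
            rw [Finset.sum_comm]
        _ = ∑ b, ∑ c, ∑ a, ∑ d, R a b c d * F a k * F b i * F c j * F d l := by
            refine Finset.sum_congr rfl fun a _ => ?_
            rw [Finset.sum_comm]
        _ = _ := rfl
    rw [h2, h3]
    simp only [Helper696_RF.rot, ← Finset.sum_add_distrib]
    refine Finset.sum_eq_zero fun a _ => Finset.sum_eq_zero fun b _ =>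
      Finset.sum_eq_zero fun c _ => Finset.sum_eq_zero fun d _ => ?_
    linear_combination (F a i * F b j * F c k * F d l) * hR.bian a b c d

/-- the Kronecker delta -/
def O_d {n : ℕ} (i j : Fin n) : ℝ := if i = j then 1 else 0

theorem O_d_comm {n : ℕ} (i j : Fin n) : O_d i j = O_d j i := by
  simp only [O_d, eq_comm]

theorem O_d_self {n : ℕ} (i : Fin n) : O_d i i = 1 := by simp [O_d]

theorem O_d_ne {n : ℕ} {i j : Fin n} (h : i ≠ j) : O_d i j = 0 := by simp [O_d, h]

theorem O_d_sum {n : ℕ} (i : Fin n) (f : Fin n → ℝ) : ∑ q, O_d i q * f q = f i := by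
  simp [O_d]

theorem O_d_sum' {n : ℕ} (i : Fin n) (f : Fin n → ℝ) : ∑ q, O_d q i * f q = f i := by
  simp [O_d]

theorem O_dg {n : ℕ} (K : Mt n) (i j k l : Fin n) :
    dg K i j k l = K i j * (O_d i k * O_d j l - O_d i l * O_d j k) := rfl

theorem O_contr {n : ℕ} (K : Mt n) (i j : Fin n) (X : Fin n → Fin n → ℝ) :
    ∑ p, ∑ q, dg K i j p q * X p q = K i j * (X i j - X j i) := by
  have h1 : ∀ p, ∑ q, dg K i j p q * X p q =
      O_d i p * (K i j * X p j) - O_d j p * (K i j * X p i) := by
    intro p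
    have : ∀ q, dg K i j p q * X p q =
        O_d j q * (O_d i p * (K i j * X p q)) - O_d i q * (O_d j p * (K i j * X p q)) := by
      intro q; rw [O_dg]; ring
    simp only [this, Finset.sum_sub_distrib]
    rw [O_d_sum j, O_d_sum i]
  simp only [h1, Finset.sum_sub_distrib]
  rw [O_d_sum i, O_d_sum j]
  ring

theorem O_B {n : ℕ} (K : Mt n) {i j : Fin n} (hij : i ≠ j) (k l : Fin n) :
    ∑ p, ∑ q, dg K i p k q * dg K j p l q =
      O_d i k * O_d j l * ((∑ p, K i p * K j p) - K i j * K j j - K i i * K j i) := by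
  have h1 : ∀ p, ∑ q, dg K i p k q * dg K j p l q =
      O_d i k * O_d j l * (K i p * K j p) - O_d j p * (O_d i k * (K i p * K j p) * O_d p l)
        - O_d i p * (O_d p k * (K i p * K j p) * O_d j l) := by
    intro p
    have : ∀ q, dg K i p k q * dg K j p l q =
        O_d p q * (K i p * K j p * O_d i k * (O_d j l * O_d p q - O_d j q * O_d p l)) -
        O_d i q * (K i p * K j p * O_d p k * (O_d j l * O_d p q - O_d j q * O_d p l)) := by
      intro q; rw [O_dg, O_dg]; ring
    simp only [this, Finset.sum_sub_distrib]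
    rw [O_d_sum p, O_d_sum i, O_d_self, O_d_ne hij.symm, O_d_comm p i]
    ring
  simp only [h1, Finset.sum_sub_distrib]
  rw [O_d_sum j, O_d_sum i, ← Finset.mul_sum]
  ring

theorem qq_dg {n : ℕ} (K : Mt n) (hK : ∀ i j, K i j = K j i) :
    QQ (dg K) = dg (fun i j => 2 * (K i j ^ 2 + ∑ p, if p = i ∨ p = j then 0 else K i p * K j p)) := by
  funext i j k l
  by_cases hij : i = j
  · subst hij
    have h0 : dg (fun i j => 2 * (K i j ^ 2 + ∑ p, if p = i ∨ p = j then 0 else K i p * K j p))
        i i k l = 0 := by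
      simp only [dg]; ring
    rw [h0]
    simp only [QQ]
    have h1 : ∀ p q, dg K i i p q = 0 := by
      intro p q; simp only [dg]; ring
    simp only [h1, zero_mul, zero_add]
    -- `R i p k q * R i p l q - R i p l q * R i p k q = 0`
    refine Finset.sum_eq_zero fun p _ => Finset.sum_eq_zero fun q _ => ?_
    ring
  · have hS : ∑ p, (if p = i ∨ p = j then 0 else K i p * K j p) =
        (∑ p, K i p * K j p) - K i i * K j i - K i j * K j j := by
      have : ∀ p, (if p = i ∨ p = j then 0 else K i p * K j p) = K i p * K j p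
          - (if p = i then K i p * K j p else 0) - (if p = j then K i p * K j p else 0) := by
        intro p
        by_cases h1 : p = i
        · have h2 : p ≠ j := fun h => hij (h1.symm.trans h)
          simp [h1]
          intro h3
          exact absurd h3 hij
        · by_cases h2 : p = j <;> simp [h1, h2]
          intro h3
          exact absurd h3.symm hij
      simp only [this, Finset.sum_sub_distrib, Finset.sum_ite_eq', Finset.mem_univ, if_true]
    have hQ : QQ (dg K) i j k l = (∑ p, ∑ q, dg K i j p q * dg K k l p q) +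
        2 * (∑ p, ∑ q, dg K i p k q * dg K j p l q) -
        2 * (∑ p, ∑ q, dg K i p l q * dg K j p k q) := by
      simp only [QQ, Finset.mul_sum, ← Finset.sum_add_distrib, ← Finset.sum_sub_distrib]
    have hT : dg (fun i j => 2 * (K i j ^ 2 + ∑ p, if p = i ∨ p = j then 0 else K i p * K j p))
        i j k l = (2 * (K i j ^ 2 + ∑ p, if p = i ∨ p = j then 0 else K i p * K j p)) *
          (O_d i k * O_d j l - O_d i l * O_d j k) := rfl
    rw [hT, hQ, O_contr, O_B K hij, O_B K hij, O_dg, O_dg, hS]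
    have e1 : O_d k i * O_d l j * K k l = O_d i k * O_d j l * K i j := by
      by_cases h1 : i = k
      · by_cases h2 : j = l
        · subst h1; subst h2; ring
        · rw [O_d_ne h2, O_d_comm l j, O_d_ne h2]; ring
      · rw [O_d_ne h1, O_d_comm k i, O_d_ne h1]; ring
    have e2 : O_d k j * O_d l i * K k l = O_d i l * O_d j k * K i j := by
      by_cases h1 : i = l
      · by_cases h2 : j = k
        · subst h1; subst h2; rw [hK j i]; ring
        · rw [O_d_ne h2, O_d_comm k j, O_d_ne h2]; ring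
      · rw [O_d_ne h1, O_d_comm l i, O_d_ne h1]; ring
    linear_combination 2 * K i j * e1 - 2 * K i j * e2

/-! ### rotated diagonal tensors -/

theorem O_rot_dg {n : ℕ} (K O : Mt n) (i j k l : Fin n) : rot (dg K) O i j k l =
    ∑ a, ∑ b, K a b * (O a i * O b j * (O a k * O b l - O b k * O a l)) := by
  simp only [rot]
  refine Finset.sum_congr rfl fun a _ => Finset.sum_congr rfl fun b _ => ?_
  have := O_contr K a b (fun c d => O a i * O b j * O c k * O d l)
  calc _ = ∑ c, ∑ d, dg K a b c d * (O a i * O b j * O c k * O d l) := by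
        refine Finset.sum_congr rfl fun c _ => Finset.sum_congr rfl fun d _ => ?_
        ring
    _ = _ := by rw [this]; ring

theorem O_col {n : ℕ} {O : Mt n} (hO : Oᵀ * O = 1) (a b : Fin n) : ∑ i, O i a * O i b = O_d a b := by
  have := congrFun (congrFun hO a) b
  simpa [Matrix.mul_apply, Matrix.one_apply, O_d] using this

theorem O_row {n : ℕ} {O : Mt n} (hO : Oᵀ * O = 1) (i j : Fin n) : ∑ a, O i a * O j a = O_d i j := by
  have h := mul_eq_one_comm.1 hO
  have := congrFun (congrFun h i) j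
  simpa [Matrix.mul_apply, Matrix.one_apply, O_d] using this

theorem O_ric_dg {n : ℕ} (K : Mt n) (i : Fin n) : ric4 i (dg K) = (∑ p, K i p) - K i i := by
  have h1 : ric4 i (dg K) = ∑ p, dg K i p i p := by
    simp [ric4, ev4]
  rw [h1]
  have : ∀ p, dg K i p i p = K i p - O_d i p * (K i p * O_d p i) := by
    intro p; rw [O_dg, O_d_self, O_d_self]; ring
  simp only [this, Finset.sum_sub_distrib]
  rw [O_d_sum i, O_d_self, mul_one]

theorem O_ric {n : ℕ} (K : Mt n) {O : Mt n} (hO : Oᵀ * O = 1) (a : Fin n) :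
    ric4 a (rot (dg K) O) = ∑ i, O i a ^ 2 * ric4 i (dg K) := by
  have h1 : ric4 a (rot (dg K) O) = ∑ p, rot (dg K) O a p a p := by
    simp [ric4, ev4]
  rw [h1]
  simp only [O_rot_dg, O_ric_dg]
  rw [Finset.sum_comm]
  refine Finset.sum_congr rfl fun i _ => ?_
  rw [Finset.sum_comm]
  have h2 : ∀ j, ∑ p, K i j * (O i a * O j p * (O i a * O j p - O j a * O i p)) =
      K i j * O i a ^ 2 - O_d i j * (K i j * O i a * O j a) := by
    intro j
    have e : ∑ p, K i j * (O i a * O j p * (O i a * O j p - O j a * O i p)) =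
        K i j * O i a ^ 2 * (∑ p, O j p * O j p) - K i j * O i a * O j a * (∑ p, O i p * O j p) := by
      simp only [Finset.mul_sum, ← Finset.sum_sub_distrib]
      refine Finset.sum_congr rfl fun p _ => ?_
      ring
    rw [e, O_row hO, O_row hO, O_d_self]
    ring
  simp only [h2, Finset.sum_sub_distrib]
  rw [O_d_sum i, ← Finset.sum_mul]
  ring

theorem O_scal {n : ℕ} (K : Mt n) {O : Mt n} (hO : Oᵀ * O = 1) :
    scal4 (rot (dg K) O) = scal4 (dg K) := by
  have h1 : ∀ R : T4 n, scal4 R = ∑ a, ric4 a R := by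
    intro R; simp [scal4]
  rw [h1, h1]
  simp only [O_ric K hO]
  rw [Finset.sum_comm]
  refine Finset.sum_congr rfl fun i _ => ?_
  rw [← Finset.sum_mul]
  have : ∑ a, O i a ^ 2 = 1 := by
    have := O_row hO i i
    rw [O_d_self] at this
    rw [← this]
    refine Finset.sum_congr rfl fun p _ => ?_
    ring
  rw [this, one_mul]

theorem O_fnu {n : ℕ} (ν : ℝ) (a b : Fin n) (R : T4 n) : fnu ν a b R =
    R a b a b + (ν / ((n : ℝ) - 2)) * (ric4 a R + ric4 b R - 2 * R a b a b)
    + (ν ^ 2 / (((n : ℝ) - 2) * ((n : ℝ) - 3))) *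
      (scal4 R - 2 * ric4 a R - 2 * ric4 b R + 2 * R a b a b) := by
  simp [fnu, ev4]
  ring

theorem O_dg_diag {n : ℕ} (K : Mt n) {i j : Fin n} (h : i ≠ j) : dg K i j i j = K i j := by
  rw [O_dg, O_d_self, O_d_self, O_d_ne h]; ring

theorem fnu_dg {n : ℕ} (K : Mt n) (hK : ∀ i j, K i j = K j i) (ν : ℝ) {a b : Fin n} (hab : a ≠ b)
    {O : Mt n} (hO : Oᵀ * O = 1) :
    fnu ν a b (rot (dg K) O) =
      (1 / 2) * ∑ i, ∑ j, (if i = j then 0 else (O i a * O j b - O j a * O i b) ^ 2 * fnu ν i j (dg K)) ∧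
    ∑ i, ∑ j, (O i a * O j b - O j a * O i b) ^ 2 = 2 := by
  set w : Fin n → Fin n → ℝ := fun i j => O i a * O j b - O j a * O i b with hw
  have hws : ∀ i j, w i j ^ 2 = w j i ^ 2 := by
    intro i j; simp only [hw]; ring
  have hw0 : ∀ i, w i i = 0 := by
    intro i; simp only [hw]; ring
  have hrow : ∀ i, ∑ j, w i j ^ 2 = O i a ^ 2 + O i b ^ 2 := by
    intro i
    have e : ∑ j, w i j ^ 2 = O i a ^ 2 * (∑ j, O j b * O j b) - 2 * O i a * O i b * (∑ j, O j a * O j b)
        + O i b ^ 2 * (∑ j, O j a * O j a) := by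
      simp only [hw, Finset.mul_sum, ← Finset.sum_sub_distrib, ← Finset.sum_add_distrib]
      refine Finset.sum_congr rfl fun p _ => ?_
      ring
    rw [e, O_col hO, O_col hO, O_col hO, O_d_self, O_d_self, O_d_ne hab]
    ring
  have hcs : ∀ c, ∑ i, O i c ^ 2 = 1 := by
    intro c
    have := O_col hO c c
    rw [O_d_self] at this
    rw [← this]
    refine Finset.sum_congr rfl fun p _ => ?_
    ring
  have hS1 : ∑ i, ∑ j, w i j ^ 2 = 2 := by
    simp only [hrow, Finset.sum_add_distrib, hcs]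
    norm_num
  refine ⟨?_, hS1⟩
  have hSr : ∑ i, ∑ j, w i j ^ 2 * ric4 i (dg K) =
      ric4 a (rot (dg K) O) + ric4 b (rot (dg K) O) := by
    simp only [← Finset.sum_mul, hrow]
    rw [O_ric K hO, O_ric K hO, ← Finset.sum_add_distrib]
    refine Finset.sum_congr rfl fun p _ => ?_
    ring
  have hSr' : ∑ i, ∑ j, w i j ^ 2 * ric4 j (dg K) =
      ric4 a (rot (dg K) O) + ric4 b (rot (dg K) O) := by
    rw [Finset.sum_comm, ← hSr]
    refine Finset.sum_congr rfl fun p _ => Finset.sum_congr rfl fun q _ => ?_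
    rw [hws q p]
  have hSK : ∑ i, ∑ j, w i j ^ 2 * dg K i j i j = 2 * rot (dg K) O a b a b := by
    rw [O_rot_dg]
    have e1 : ∀ i j, w i j ^ 2 * dg K i j i j = w i j ^ 2 * K i j := by
      intro i j
      by_cases h : i = j
      · subst h; rw [hw0]; ring
      · rw [O_dg_diag K h]
    simp only [e1]
    have e2 : ∑ i, ∑ j, K i j * (O i a * O j b * (O i a * O j b - O j a * O i b)) =
        ∑ i, ∑ j, -(K i j * (O j a * O i b * (O i a * O j b - O j a * O i b))) := by
      rw [Finset.sum_comm]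
      refine Finset.sum_congr rfl fun p _ => Finset.sum_congr rfl fun q _ => ?_
      rw [hK q p]; ring
    rw [two_mul]
    conv_rhs => rw [e2]
    conv_rhs => enter [2]; rw [← e2]
    rw [← Finset.sum_add_distrib]
    refine Finset.sum_congr rfl fun p _ => ?_
    rw [← Finset.sum_add_distrib]
    refine Finset.sum_congr rfl fun q _ => ?_
    simp only [hw]
    ring
  have hif : ∀ i j, (if i = j then 0 else (O i a * O j b - O j a * O i b) ^ 2 * fnu ν i j (dg K)) =
      w i j ^ 2 * fnu ν i j (dg K) := by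
    intro i j
    by_cases h : i = j
    · subst h; rw [hw0]; simp
    · rw [if_neg h]
  simp only [hif]
  simp only [O_fnu]
  rw [O_scal K hO]
  set c1 := ν / ((n : ℝ) - 2)
  set c2 := ν ^ 2 / (((n : ℝ) - 2) * ((n : ℝ) - 3))
  have hexp : ∑ i, ∑ j, w i j ^ 2 * (dg K i j i j + c1 * (ric4 i (dg K) + ric4 j (dg K)
      - 2 * dg K i j i j) + c2 * (scal4 (dg K) - 2 * ric4 i (dg K) - 2 * ric4 j (dg K)
      + 2 * dg K i j i j)) =
      (∑ i, ∑ j, w i j ^ 2 * dg K i j i j) + c1 * ((∑ i, ∑ j, w i j ^ 2 * ric4 i (dg K)) +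
        (∑ i, ∑ j, w i j ^ 2 * ric4 j (dg K)) - 2 * (∑ i, ∑ j, w i j ^ 2 * dg K i j i j)) +
      c2 * (scal4 (dg K) * (∑ i, ∑ j, w i j ^ 2) - 2 * (∑ i, ∑ j, w i j ^ 2 * ric4 i (dg K))
        - 2 * (∑ i, ∑ j, w i j ^ 2 * ric4 j (dg K))
        + 2 * (∑ i, ∑ j, w i j ^ 2 * dg K i j i j)) := by
    simp only [Finset.mul_sum, ← Finset.sum_sub_distrib, ← Finset.sum_add_distrib]
    refine Finset.sum_congr rfl fun p _ => Finset.sum_congr rfl fun q _ => ?_
    ring
  rw [hexp, hS1, hSr, hSr', hSK]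
  ring

/-! ### non-negativity of `fnu 1` -/

theorem O_rot_one {n : ℕ} (R : T4 n) : rot R 1 = R := by
  funext i j k l
  simp [rot, Matrix.one_apply]

theorem O_rot_diagonal {n : ℕ} (R : T4 n) (s : Fin n → ℝ) (i j k l : Fin n) :
    rot R (Matrix.diagonal s) i j k l = R i j k l * s i * s j * s k * s l := by
  simp [rot, Matrix.diagonal_apply]

theorem O_iso {n : ℕ} {R : T4 n} (hp : PIC R) {a b c d : Fin n} (hab : a ≠ b) (hac : a ≠ c)
    (had : a ≠ d) (hbc : b ≠ c) (hbd : b ≠ d) (hcd : c ≠ d) :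
    0 ≤ R a b a b + R a d a d + R c b c b + R c d c d := by
  have hv : Function.Injective ![a, c, b, d] := by
    intro x y hxy
    fin_cases x <;> fin_cases y <;> simp_all [eq_comm]
  have h1 := hp 1 (by simp) ![a, c, b, d] hv
  rw [O_rot_one] at h1
  have h2 := hp (Matrix.diagonal fun i => if i = c then -1 else 1) (by
    rw [Matrix.diagonal_transpose, Matrix.diagonal_mul_diagonal, ← Matrix.diagonal_one]
    congr 1
    funext i
    by_cases h : i = c <;> simp [h]) ![a, c, b, d] hv
  simp only [iso4, ev4, LinearMap.sub_apply, LinearMap.add_apply, LinearMap.smul_apply,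
    LinearMap.coe_mk, AddHom.coe_mk, smul_eq_mul, Matrix.cons_val_zero, Matrix.cons_val_one,
    Matrix.cons_val] at h1 h2
  simp only [O_rot_diagonal, if_neg hac, if_neg hbc, if_neg hcd.symm, if_true] at h2
  linarith

theorem fnu_one {n : ℕ} (hn : 5 ≤ n) {R : T4 n} (hR : IsAlg R) (hp : PIC R) {a b : Fin n} (hab : a ≠ b) :
    0 ≤ fnu 1 a b R := by
  set K : Fin n → Fin n → ℝ := fun i j => R i j i j with hKdef
  have hK0 : ∀ i, K i i = 0 := by
    intro i
    have := hR.anti i i i i
    simp only [hKdef]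
    linarith
  have hKs : ∀ i j, K i j = K j i := by
    intro i j
    simp only [hKdef]
    rw [hR.anti i j i j, hR.pair j i i j, hR.anti i j j i, neg_neg]
  have hric : ∀ i, ric4 i R = ∑ p, K i p := by
    intro i; simp [ric4, ev4, hKdef]
  have hscal : scal4 R = ∑ i, ∑ p, K i p := by
    simp [scal4, hric]
  set x : Fin n → ℝ := fun c => 1 - O_d a c - O_d b c with hxdef
  have hx : ∀ f : Fin n → ℝ, ∑ c, x c * f c = (∑ c, f c) - f a - f b := by
    intro f
    have : ∀ c, x c * f c = f c - O_d a c * f c - O_d b c * f c := by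
      intro c; simp only [hxdef]; ring
    simp only [this, Finset.sum_sub_distrib]
    rw [O_d_sum a, O_d_sum b]
  have hxx : ∀ c, x c * x c = x c := by
    intro c
    by_cases h1 : a = c
    · have h2 : b ≠ c := fun h => hab (h1.trans h.symm)
      simp only [hxdef]
      rw [O_d_ne h2, ← h1, O_d_self]; ring
    · by_cases h2 : b = c
      · simp only [hxdef]
        rw [O_d_ne h1, ← h2, O_d_self]; ring
      · simp only [hxdef]
        rw [O_d_ne h1, O_d_ne h2]; ring
  have hn1 : ∑ c, x c = (n : ℝ) - 2 := by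
    have := hx fun _ => 1
    simp only [mul_one, Finset.sum_const, Finset.card_univ, Fintype.card_fin, nsmul_eq_mul] at this
    rw [this]; ring
  have hpos : 0 ≤ ∑ c, ∑ d, x c * x d * (1 - O_d c d) * (K a b + K a d + K c b + K c d) := by
    refine Finset.sum_nonneg fun c _ => Finset.sum_nonneg fun d _ => ?_
    by_cases h1 : a = c
    · have h2 : b ≠ c := fun h => hab (h1.trans h.symm)
      have : x c = 0 := by
        simp only [hxdef]; rw [O_d_ne h2, ← h1, O_d_self]; ring
      rw [this]; simp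
    · by_cases h2 : b = c
      · have : x c = 0 := by
          simp only [hxdef]; rw [O_d_ne h1, ← h2, O_d_self]; ring
        rw [this]; simp
      · by_cases h3 : a = d
        · have h4 : b ≠ d := fun h => hab (h3.trans h.symm)
          have : x d = 0 := by
            simp only [hxdef]; rw [O_d_ne h4, ← h3, O_d_self]; ring
          rw [this]; simp
        · by_cases h4 : b = d
          · have : x d = 0 := by
              simp only [hxdef]; rw [O_d_ne h3, ← h4, O_d_self]; ring
            rw [this]; simp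
          · by_cases h5 : c = d
            · rw [h5, O_d_self]; simp
            · have e1 : x c = 1 := by
                simp only [hxdef]; rw [O_d_ne h1, O_d_ne h2]; ring
              have e2 : x d = 1 := by
                simp only [hxdef]; rw [O_d_ne h3, O_d_ne h4]; ring
              rw [e1, e2, O_d_ne h5]
              have := O_iso hp hab h1 h3 h2 h4 h5
              simp only [hKdef]
              linarith
  have hrow : ∀ c, ∑ d, x c * x d * (1 - O_d c d) * (K a b + K a d + K c b + K c d) =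
      x c * (((n : ℝ) - 2) * (K a b + K c b) + (ric4 a R - K a b) + (ric4 c R - K c a - K c b))
        - x c * (K a b + K a c + K c b) := by
    intro c
    have e1 : ∀ d, x c * x d * (1 - O_d c d) * (K a b + K a d + K c b + K c d) =
        x c * (K a b + K c b) * x d + x c * (x d * K a d) + x c * (x d * K c d) -
        O_d c d * (x c * x d * (K a b + K a d + K c b + K c d)) := by
      intro d; ring
    simp only [e1, Finset.sum_sub_distrib, Finset.sum_add_distrib, ← Finset.mul_sum]
    rw [O_d_sum c, hx, hx, hn1, hxx, hK0, hK0, hric, hric]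
    ring
  simp only [hrow] at hpos
  have e2 : ∀ c, x c * (((n : ℝ) - 2) * (K a b + K c b) + (ric4 a R - K a b) +
      (ric4 c R - K c a - K c b)) - x c * (K a b + K a c + K c b) =
      (((n : ℝ) - 2) * K a b + (ric4 a R - K a b) - K a b) * x c + ((n : ℝ) - 4) * (x c * K b c)
        + x c * ric4 c R - 2 * (x c * K a c) := by
    intro c
    rw [hKs c a, hKs c b]; ring
  simp only [e2, Finset.sum_sub_distrib, Finset.sum_add_distrib, ← Finset.mul_sum] at hpos
  rw [hx, hx, hx, hn1, hK0, hK0, ← hric, ← hric, hKs b a] at hpos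
  have hsc : ∑ c, ric4 c R = scal4 R := by simp [scal4]
  rw [hsc] at hpos
  rw [O_fnu]
  have hn' : (5 : ℝ) ≤ n := by exact_mod_cast hn
  have p1 : (0 : ℝ) < (n : ℝ) - 2 := by linarith
  have p2 : (0 : ℝ) < (n : ℝ) - 3 := by linarith
  have hfin : R a b a b + 1 / ((n : ℝ) - 2) * (ric4 a R + ric4 b R - 2 * R a b a b) +
      1 ^ 2 / (((n : ℝ) - 2) * ((n : ℝ) - 3)) * (scal4 R - 2 * ric4 a R - 2 * ric4 b R
        + 2 * R a b a b) =
      (((n : ℝ) - 2) * ((n : ℝ) - 3) * K a b + ((n : ℝ) - 3) * (ric4 a R + ric4 b R - 2 * K a b) +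
        (scal4 R - 2 * ric4 a R - 2 * ric4 b R + 2 * K a b)) / (((n : ℝ) - 2) * ((n : ℝ) - 3)) := by
    simp only [hKdef]
    field_simp
  rw [hfin]
  apply div_nonneg _ (by positivity)
  linarith

/-! ### the curvature operator -/

theorem O_mv {n : ℕ} {ι : Type} [Fintype ι] (g : ι → Fin n → Fin n → ℝ) :
    ∑ x, ∑ p, ∑ q, g x p q = ∑ p, ∑ q, ∑ x, g x p q := by
  rw [Finset.sum_comm]
  refine Finset.sum_congr rfl fun p _ => ?_
  rw [Finset.sum_comm]

theorem O_s6 {n : ℕ} (g : Fin n → Fin n → Fin n → Fin n → Fin n → Fin n → ℝ) :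
    ∑ a, ∑ b, ∑ c, ∑ d, ∑ p, ∑ q, g a b c d p q = ∑ p, ∑ q, ∑ a, ∑ b, ∑ c, ∑ d, g a b c d p q := by
  calc _ = ∑ a, ∑ b, ∑ c, ∑ p, ∑ q, ∑ d, g a b c d p q := by
        refine Finset.sum_congr rfl fun a _ => Finset.sum_congr rfl fun b _ =>
          Finset.sum_congr rfl fun c _ => O_mv _
    _ = ∑ a, ∑ b, ∑ p, ∑ q, ∑ c, ∑ d, g a b c d p q := by
        refine Finset.sum_congr rfl fun a _ => Finset.sum_congr rfl fun b _ => O_mv _
    _ = ∑ a, ∑ p, ∑ q, ∑ b, ∑ c, ∑ d, g a b c d p q := by
        refine Finset.sum_congr rfl fun a _ => O_mv _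
    _ = _ := O_mv _

theorem O_one {n : ℕ} (O : Mt n) (h : ∀ a b, ∑ i, O a i * O b i = O_d a b) (g : Fin n → ℝ) :
    ∑ i, (∑ a, g a * O a i) ^ 2 = ∑ a, g a ^ 2 := by
  calc ∑ i, (∑ a, g a * O a i) ^ 2 = ∑ i, ∑ a, ∑ b, (g a * g b) * (O a i * O b i) := by
        refine Finset.sum_congr rfl fun i _ => ?_
        rw [sq, Finset.sum_mul_sum]
        refine Finset.sum_congr rfl fun a _ => Finset.sum_congr rfl fun b _ => ?_
        ring
    _ = ∑ a, ∑ b, (g a * g b) * O_d a b := by
        rw [Finset.sum_comm]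
        refine Finset.sum_congr rfl fun a _ => ?_
        rw [Finset.sum_comm]
        refine Finset.sum_congr rfl fun b _ => ?_
        rw [← Finset.mul_sum, h]
    _ = _ := by
        refine Finset.sum_congr rfl fun a _ => ?_
        have : ∀ b, (g a * g b) * O_d a b = O_d a b * (g a * g b) := by intro b; ring
        simp only [this]
        rw [O_d_sum a]; ring

theorem O_norm_rot {n : ℕ} (R : T4 n) {O : Mt n} (hO : Oᵀ * O = 1) :
    ∑ i, ∑ j, ∑ k, ∑ l, rot R O i j k l ^ 2 = ∑ i, ∑ j, ∑ k, ∑ l, R i j k l ^ 2 := by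
  have h := O_row hO
  have s1 : ∀ i j k, ∑ l, rot R O i j k l ^ 2 =
      ∑ d, (∑ a, ∑ b, ∑ c, R a b c d * O a i * O b j * O c k) ^ 2 := by
    intro i j k
    refine Eq.trans ?_ (O_one O h fun d => ∑ a, ∑ b, ∑ c, R a b c d * O a i * O b j * O c k)
    refine Finset.sum_congr rfl fun l _ => ?_
    congr 1
    simp only [rot, Finset.sum_mul]
    calc _ = ∑ a, ∑ b, ∑ d, ∑ c, R a b c d * O a i * O b j * O c k * O d l := by
          refine Finset.sum_congr rfl fun a _ => Finset.sum_congr rfl fun b _ => ?_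
          rw [Finset.sum_comm]
      _ = ∑ a, ∑ d, ∑ b, ∑ c, R a b c d * O a i * O b j * O c k * O d l := by
          refine Finset.sum_congr rfl fun a _ => ?_
          rw [Finset.sum_comm]
      _ = _ := by rw [Finset.sum_comm]
  have s2 : ∀ i j d, ∑ k, (∑ a, ∑ b, ∑ c, R a b c d * O a i * O b j * O c k) ^ 2 =
      ∑ c, (∑ a, ∑ b, R a b c d * O a i * O b j) ^ 2 := by
    intro i j d
    refine Eq.trans ?_ (O_one O h fun c => ∑ a, ∑ b, R a b c d * O a i * O b j)
    refine Finset.sum_congr rfl fun l _ => ?_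
    congr 1
    simp only [Finset.sum_mul]
    calc _ = ∑ a, ∑ c, ∑ b, R a b c d * O a i * O b j * O c l := by
          refine Finset.sum_congr rfl fun a _ => ?_
          rw [Finset.sum_comm]
      _ = _ := by rw [Finset.sum_comm]
  have s3 : ∀ i c d, ∑ j, (∑ a, ∑ b, R a b c d * O a i * O b j) ^ 2 =
      ∑ b, (∑ a, R a b c d * O a i) ^ 2 := by
    intro i c d
    refine Eq.trans ?_ (O_one O h fun b => ∑ a, R a b c d * O a i)
    refine Finset.sum_congr rfl fun l _ => ?_
    congr 1
    simp only [Finset.sum_mul]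
    rw [Finset.sum_comm]
  have s4 : ∀ b c d, ∑ i, (∑ a, R a b c d * O a i) ^ 2 = ∑ a, R a b c d ^ 2 := by
    intro b c d
    exact O_one O h fun a => R a b c d
  calc _ = ∑ i, ∑ j, ∑ k, ∑ d, (∑ a, ∑ b, ∑ c, R a b c d * O a i * O b j * O c k) ^ 2 := by
        simp only [s1]
    _ = ∑ i, ∑ j, ∑ d, ∑ c, (∑ a, ∑ b, R a b c d * O a i * O b j) ^ 2 := by
        refine Finset.sum_congr rfl fun i _ => Finset.sum_congr rfl fun j _ => ?_
        rw [Finset.sum_comm]
        simp only [s2]
    _ = ∑ i, ∑ d, ∑ c, ∑ b, (∑ a, R a b c d * O a i) ^ 2 := by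
        refine Finset.sum_congr rfl fun i _ => ?_
        rw [O_mv]
        simp only [s3]
    _ = ∑ d, ∑ c, ∑ b, ∑ a, R a b c d ^ 2 := by
        calc _ = ∑ d, ∑ i, ∑ c, ∑ b, (∑ a, R a b c d * O a i) ^ 2 := Finset.sum_comm
          _ = _ := by
            refine Finset.sum_congr rfl fun d _ => ?_
            rw [O_mv]
            simp only [s4]
    _ = ∑ d, ∑ c, ∑ a, ∑ b, R a b c d ^ 2 := by
        refine Finset.sum_congr rfl fun d _ => Finset.sum_congr rfl fun c _ => ?_
        rw [Finset.sum_comm]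
    _ = ∑ c, ∑ d, ∑ a, ∑ b, R a b c d ^ 2 := Finset.sum_comm
    _ = ∑ c, ∑ a, ∑ b, ∑ d, R a b c d ^ 2 := by
        refine Finset.sum_congr rfl fun c _ => ?_
        rw [O_mv]
    _ = ∑ a, ∑ b, ∑ c, ∑ d, R a b c d ^ 2 := by
        rw [O_mv (fun c a b => ∑ d, R a b c d ^ 2)]

theorem O_entry {n : ℕ} (R : T4 n) (i j k l : Fin n) :
    |R i j k l| ≤ Real.sqrt (∑ i, ∑ j, ∑ k, ∑ l, R i j k l ^ 2) := by
  rw [← Real.sqrt_sq_eq_abs]
  apply Real.sqrt_le_sqrt
  calc R i j k l ^ 2 ≤ ∑ l, R i j k l ^ 2 :=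
        Finset.single_le_sum (f := fun l => R i j k l ^ 2) (fun _ _ => by positivity)
          (Finset.mem_univ l)
    _ ≤ ∑ k, ∑ l, R i j k l ^ 2 :=
        Finset.single_le_sum (f := fun k => ∑ l, R i j k l ^ 2) (fun _ _ => by positivity)
          (Finset.mem_univ k)
    _ ≤ ∑ j, ∑ k, ∑ l, R i j k l ^ 2 :=
        Finset.single_le_sum (f := fun j => ∑ k, ∑ l, R i j k l ^ 2) (fun _ _ => by positivity)
          (Finset.mem_univ j)
    _ ≤ _ :=
        Finset.single_le_sum (f := fun i => ∑ j, ∑ k, ∑ l, R i j k l ^ 2)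
          (fun _ _ => by positivity) (Finset.mem_univ i)

theorem O_quad {n : ℕ} (K : Mt n) (O φ : Mt n) (hφ : φᵀ = -φ) :
    ∑ i, ∑ j, ∑ k, ∑ l, rot (dg K) O i j k l * φ i j * φ k l =
      ∑ a, ∑ b, 2 * K a b * (∑ j, (∑ i, φ i j * O a i) * O b j) ^ 2 := by
  have hψ : ∀ a b, ∑ j, (∑ i, φ i j * O a i) * O b j = -∑ j, (∑ i, φ i j * O b i) * O a j := by
    intro a b
    simp only [Finset.sum_mul]
    rw [Finset.sum_comm]
    simp only [← Finset.sum_neg_distrib]
    refine Finset.sum_congr rfl fun i _ => Finset.sum_congr rfl fun j _ => ?_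
    have := congrFun (congrFun hφ i) j
    rw [Matrix.transpose_apply, Matrix.neg_apply] at this
    rw [this]; ring
  have e1 : ∀ a b, 2 * K a b * (∑ j, (∑ i, φ i j * O a i) * O b j) ^ 2 =
      K a b * (∑ j, (∑ i, φ i j * O a i) * O b j) *
        ((∑ j, (∑ i, φ i j * O a i) * O b j) - ∑ j, (∑ i, φ i j * O b i) * O a j) := by
    intro a b
    rw [hψ b a]; ring
  simp only [e1]
  have e2 : ∀ a b, K a b * (∑ j, (∑ i, φ i j * O a i) * O b j) *
        ((∑ j, (∑ i, φ i j * O a i) * O b j) - ∑ j, (∑ i, φ i j * O b i) * O a j) =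
      ∑ i, ∑ j, ∑ k, ∑ l, K a b * (O a i * O b j * (O a k * O b l - O b k * O a l)) *
        φ i j * φ k l := by
    intro a b
    have f1 : ∀ a b, ∑ j, (∑ i, φ i j * O a i) * O b j = ∑ i, ∑ j, φ i j * O a i * O b j := by
      intro a b
      simp only [Finset.sum_mul]
      rw [Finset.sum_comm]
    rw [f1 a b, f1 b a]
    obtain ⟨S, hS⟩ : ∃ S, S = (∑ i, ∑ j, φ i j * O a i * O b j) -
        ∑ i, ∑ j, φ i j * O b i * O a j := ⟨_, rfl⟩
    rw [← hS, Finset.mul_sum, Finset.sum_mul]
    refine Finset.sum_congr rfl fun i _ => ?_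
    rw [Finset.mul_sum, Finset.sum_mul]
    refine Finset.sum_congr rfl fun j _ => ?_
    rw [hS, ← Finset.sum_sub_distrib]
    simp only [← Finset.sum_sub_distrib]
    rw [Finset.mul_sum]
    refine Finset.sum_congr rfl fun k _ => ?_
    rw [Finset.mul_sum]
    refine Finset.sum_congr rfl fun l _ => ?_
    ring
  simp only [e2]
  rw [← O_s6]
  refine Finset.sum_congr rfl fun i _ => Finset.sum_congr rfl fun j _ =>
    Finset.sum_congr rfl fun k _ => Finset.sum_congr rfl fun l _ => ?_
  rw [O_rot_dg]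
  simp only [Finset.sum_mul]

theorem dg_op {n : ℕ} (hn : 5 ≤ n) : ∃ c : ℝ, ∀ (K : Mt n), (∀ i j, K i j = K j i) → ∀ ν κ : ℝ,
    0 < ν → ν ≤ 1 → (∀ a b : Fin n, a ≠ b → -κ ≤ fnu ν a b (dg K)) →
    ∀ O : Mt n, Oᵀ * O = 1 → ∀ φ : Mt n, φᵀ = -φ →
      -((c * ν * Real.sqrt (∑ i, ∑ j, ∑ k, ∑ l, rot (dg K) O i j k l ^ 2) + 2 * κ)
        * ∑ i, ∑ j, φ i j ^ 2) ≤
        ∑ i, ∑ j, ∑ k, ∑ l, rot (dg K) O i j k l * φ i j * φ k l := by
  refine ⟨2 * ((n : ℝ) ^ 2 + 6 * n + 4), ?_⟩
  intro K hK ν κ hν hν1 hf O hO φ hφ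
  rw [O_norm_rot _ hO, O_quad K O φ hφ]
  set N := Real.sqrt (∑ i, ∑ j, ∑ k, ∑ l, dg K i j k l ^ 2) with hN
  have hN0 : 0 ≤ N := Real.sqrt_nonneg _
  have hn' : (5 : ℝ) ≤ n := by exact_mod_cast hn
  have hent : ∀ i j, |dg K i j i j| ≤ N := fun i j => O_entry (dg K) i j i j
  have hricb : ∀ i, |ric4 i (dg K)| ≤ n * N := by
    intro i
    have h1 : ric4 i (dg K) = ∑ p, dg K i p i p := by
      simp [ric4, ev4]
    rw [h1]
    refine (Finset.abs_sum_le_sum_abs _ _).trans ?_
    refine (Finset.sum_le_sum fun p _ => hent i p).trans (le_of_eq ?_)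
    simp
  have hscb : |scal4 (dg K)| ≤ n * (n * N) := by
    have h1 : scal4 (dg K) = ∑ p, ric4 p (dg K) := by
      simp [scal4]
    rw [h1]
    refine (Finset.abs_sum_le_sum_abs _ _).trans ?_
    refine (Finset.sum_le_sum fun p _ => hricb p).trans (le_of_eq ?_)
    simp
  have hlow : ∀ a b, a ≠ b → -(κ + ((n : ℝ) ^ 2 + 6 * n + 4) * ν * N) ≤ K a b := by
    intro a b hab
    have h1 := hf a b hab
    rw [O_fnu, O_dg_diag K hab] at h1
    have hk := abs_le.1 (hent a b)
    rw [O_dg_diag K hab] at hk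
    have ha := abs_le.1 (hricb a)
    have hb := abs_le.1 (hricb b)
    have hs := abs_le.1 hscb
    have c1 : 0 ≤ ν / ((n : ℝ) - 2) := div_nonneg hν.le (by linarith)
    have c1' : ν / ((n : ℝ) - 2) ≤ ν := div_le_self hν.le (by linarith)
    have c2 : 0 ≤ ν ^ 2 / (((n : ℝ) - 2) * ((n : ℝ) - 3)) :=
      div_nonneg (by positivity) (mul_nonneg (by linarith) (by linarith))
    have c2' : ν ^ 2 / (((n : ℝ) - 2) * ((n : ℝ) - 3)) ≤ ν := by
      have : ν ^ 2 / (((n : ℝ) - 2) * ((n : ℝ) - 3)) ≤ ν ^ 2 :=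
        div_le_self (by positivity) (by nlinarith)
      nlinarith
    have b1 : ν / ((n : ℝ) - 2) * (ric4 a (dg K) + ric4 b (dg K) - 2 * K a b) ≤
        ν * ((2 * n + 2) * N) := by
      refine (mul_le_mul_of_nonneg_left (?_ : _ ≤ (2 * n + 2) * N) c1).trans
        (mul_le_mul_of_nonneg_right c1' (by positivity))
      linarith
    have b2 : ν ^ 2 / (((n : ℝ) - 2) * ((n : ℝ) - 3)) *
        (scal4 (dg K) - 2 * ric4 a (dg K) - 2 * ric4 b (dg K) + 2 * K a b) ≤
        ν * (((n : ℝ) ^ 2 + 4 * n + 2) * N) := by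
      refine (mul_le_mul_of_nonneg_left (?_ : _ ≤ ((n : ℝ) ^ 2 + 4 * n + 2) * N) c2).trans
        (mul_le_mul_of_nonneg_right c2' (by positivity))
      nlinarith
    nlinarith
  -- the antisymmetric array `ψ`
  set ψ : Fin n → Fin n → ℝ := fun a b => ∑ j, (∑ i, φ i j * O a i) * O b j with hψdef
  have hψ0 : ∀ a, ψ a a = 0 := by
    intro a
    have : ψ a a = -ψ a a := by
      simp only [hψdef, Finset.sum_mul]
      conv_lhs => rw [Finset.sum_comm]
      simp only [← Finset.sum_neg_distrib]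
      refine Finset.sum_congr rfl fun i _ => Finset.sum_congr rfl fun j _ => ?_
      have := congrFun (congrFun hφ i) j
      rw [Matrix.transpose_apply, Matrix.neg_apply] at this
      rw [this]; ring
    linarith
  have hψn : ∑ a, ∑ b, ψ a b ^ 2 = ∑ i, ∑ j, φ i j ^ 2 := by
    have hcol : ∀ a b, ∑ i, Oᵀ a i * Oᵀ b i = O_d a b := by
      intro a b
      simpa only [Matrix.transpose_apply] using O_col hO a b
    have t1 : ∀ a, ∑ b, ψ a b ^ 2 = ∑ j, (∑ i, φ i j * O a i) ^ 2 := by
      intro a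
      exact O_one Oᵀ hcol fun j => ∑ i, φ i j * O a i
    simp only [t1]
    rw [Finset.sum_comm]
    have t2 : ∀ j, ∑ a, (∑ i, φ i j * O a i) ^ 2 = ∑ i, φ i j ^ 2 := by
      intro j
      exact O_one Oᵀ hcol fun i => φ i j
    simp only [t2]
    rw [Finset.sum_comm]
  rw [← hψn]
  have hterm : ∀ a b, -((2 * ((n : ℝ) ^ 2 + 6 * n + 4) * ν * N + 2 * κ) * ψ a b ^ 2) ≤
      2 * K a b * ψ a b ^ 2 := by
    intro a b
    by_cases hab : a = b
    · subst hab; rw [hψ0]; simp
    · have h1 := hlow a b hab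
      have h2 : 0 ≤ ψ a b ^ 2 := sq_nonneg _
      nlinarith
  rw [Finset.mul_sum, ← Finset.sum_neg_distrib]
  refine Finset.sum_le_sum fun a _ => ?_
  rw [Finset.mul_sum, ← Finset.sum_neg_distrib]
  exact Finset.sum_le_sum fun b _ => hterm a b

end Pool.Agent.Helper696_RF
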