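import Mathlib
import Pool.Agent.Helper696_RF.Alg
import Pool.Agent.Helper696_RF.O
import Pool.Agent.Helper696_RF.G

/-!
Needs on disk (all on origin/main): `Pool/Agent/Helper696_RF/` (files Defs, Loc, Alg; further ones are named below where they are
needed), `Pool/Agent/H858R2/Defs.lean` and the directory `Pool/Agent/QTot` (starting files). `Pool/Agent/Helper696_RF/G.lean` has
(import `Pool.Agent.Helper696_RF.G`) `G_rot_mul : rot (rot R A) B = rot R (A * B)`, `G_rot_one`, `G_rot_add`, `G_rot_smul`,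
`G_QQ_rot : E * Eᵀ = 1 → QQ (rot R E) = rot (QQ R) E` (see the file for exact forms).
-/

set_option autoImplicit false
open scoped ContDiff Manifold Topology Matrix
open Set Filter

namespace Pool.Agent.Helper696_RF

open Pool.Agent.QTot Pool.Agent.H858R2

/-! ### auxiliary lemmas: real algebra -/

theorem P_cbb {v w q : ℝ} (hv : 0 < v) (hw : 0 ≤ w) (hvw : v + w = 1) (hq : 0 ≤ q) :
    0 < (8 * v ^ 5 - 4 * v ^ 4 - 18 * v ^ 3 + 15 * v ^ 2 + 18 * v) + q * (- 6 * v ^ 4 - 2 * v ^ 3 +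
      17 * v ^ 2 + 12 * v) + q ^ 2 * (2 * v ^ 3 + 4 * v ^ 2 + 2 * v) := by
  have hw' : w = 1 - v := by linarith
  have key : (8 * v ^ 5 - 4 * v ^ 4 - 18 * v ^ 3 + 15 * v ^ 2 + 18 * v) + q * (- 6 * v ^ 4 - 2 * v ^ 3 +
      17 * v ^ 2 + 12 * v) + q ^ 2 * (2 * v ^ 3 + 4 * v ^ 2 + 2 * v) =
      (18 * v ^ 1 * w ^ 4 + 87 * v ^ 2 * w ^ 3 + 135 * v ^ 3 * w ^ 2 + 77 * v ^ 4 * w ^ 1 + 19 * v
      ^ 5) + q * (12 * v ^ 1 * w ^ 3 + 53 * v ^ 2 * w ^ 2 + 68 * v ^ 3 * w ^ 1 + 21 * v ^ 4)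
      + q ^ 2 * (2 * v ^ 1 * w ^ 2 + 8 * v ^ 2 * w ^ 1 + 8 * v ^ 3) := by
    rw [hw']; ring
  rw [key]
  positivity

theorem P_cbe {v w q : ℝ} (hv : 0 < v) (hw : 0 ≤ w) (hvw : v + w = 1) (hq : 0 ≤ q) :
    0 < (- 8 * v ^ 6 + 16 * v ^ 5 + 38 * v ^ 4 - 22 * v ^ 3 - 18 * v ^ 2 + 45 * v + 27) + q * (12 *
      v ^ 5 + 6 * v ^ 4 - 27 * v ^ 3 + 9 * v ^ 2 + 57 * v + 27) + q ^ 2 * (- 4 * v ^ 4 - 4 *
      v ^ 3 + 14 * v ^ 2 + 23 * v + 9) + q ^ 3 * (v ^ 3 + 3 * v ^ 2 + 3 * v + 1) := by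
  have hw' : w = 1 - v := by linarith
  have key : (- 8 * v ^ 6 + 16 * v ^ 5 + 38 * v ^ 4 - 22 * v ^ 3 - 18 * v ^ 2 + 45 * v + 27) + q * (12 *
      v ^ 5 + 6 * v ^ 4 - 27 * v ^ 3 + 9 * v ^ 2 + 57 * v + 27) + q ^ 2 * (- 4 * v ^ 4 - 4 *
      v ^ 3 + 14 * v ^ 2 + 23 * v + 9) + q ^ 3 * (v ^ 3 + 3 * v ^ 2 + 3 * v + 1) =
      (27 * w ^ 6 + 207 * v ^ 1 * w ^ 5 + 612 * v ^ 2 * w ^ 4 + 896 * v ^ 3 * w ^ 3 + 719 * v ^ 4
      * w ^ 2 + 341 * v ^ 5 * w ^ 1 + 78 * v ^ 6) + q * (27 * w ^ 5 + 192 * v ^ 1 * w ^ 4 +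
      507 * v ^ 2 * w ^ 3 + 612 * v ^ 3 * w ^ 2 + 342 * v ^ 4 * w ^ 1 + 84 * v ^ 5) + q ^ 2
      * (9 * w ^ 4 + 59 * v ^ 1 * w ^ 3 + 137 * v ^ 2 * w ^ 2 + 129 * v ^ 3 * w ^ 1 + 38 * v
      ^ 4) + q ^ 3 * (1 * w ^ 3 + 6 * v ^ 1 * w ^ 2 + 12 * v ^ 2 * w ^ 1 + 8 * v ^ 3) := by
    rw [hw']; ring
  rw [key]
  positivity

theorem P_cbC {v w q : ℝ} (hv : 0 < v) (hw : 0 ≤ w) (hvw : v + w = 1) (hq : 0 ≤ q) :
    0 < (- 16 * v ^ 7 + 12 * v ^ 6 + 40 * v ^ 5 - 17 * v ^ 4 - 8 * v ^ 3 + 21 * v ^ 2) + q * (16 * v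
      ^ 6 + 8 * v ^ 5 - 19 * v ^ 4 + 14 * v ^ 3 + 25 * v ^ 2) + q ^ 2 * (- 4 * v ^ 5 - v ^ 4
      + 12 * v ^ 3 + 9 * v ^ 2) + q ^ 3 * (v ^ 4 + 2 * v ^ 3 + v ^ 2) := by
  have hw' : w = 1 - v := by linarith
  have key : (- 16 * v ^ 7 + 12 * v ^ 6 + 40 * v ^ 5 - 17 * v ^ 4 - 8 * v ^ 3 + 21 * v ^ 2) + q * (16 * v
      ^ 6 + 8 * v ^ 5 - 19 * v ^ 4 + 14 * v ^ 3 + 25 * v ^ 2) + q ^ 2 * (- 4 * v ^ 5 - v ^ 4
      + 12 * v ^ 3 + 9 * v ^ 2) + q ^ 3 * (v ^ 4 + 2 * v ^ 3 + v ^ 2) =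
      (21 * v ^ 2 * w ^ 5 + 97 * v ^ 3 * w ^ 4 + 161 * v ^ 4 * w ^ 3 + 151 * v ^ 5 * w ^ 2 + 114 *
      v ^ 6 * w ^ 1 + 32 * v ^ 7) + q * (25 * v ^ 2 * w ^ 4 + 114 * v ^ 3 * w ^ 3 + 173 * v
      ^ 4 * w ^ 2 + 112 * v ^ 5 * w ^ 1 + 44 * v ^ 6) + q ^ 2 * (9 * v ^ 2 * w ^ 3 + 39 * v
      ^ 3 * w ^ 2 + 50 * v ^ 4 * w ^ 1 + 16 * v ^ 5) + q ^ 3 * (1 * v ^ 2 * w ^ 2 + 4 * v ^
      3 * w ^ 1 + 4 * v ^ 4) := by
    rw [hw']; ring
  rw [key]
  positivity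

theorem P_cee {v w q : ℝ} (hv : 0 < v) (hw : 0 ≤ w) (hvw : v + w = 1) (hq : 0 ≤ q) :
    0 < (- 8 * v ^ 6 + 36 * v ^ 4 + 40 * v ^ 3 + 12 * v ^ 2) + q * (- 2 * v ^ 6 + 8 * v ^ 5 + 29 * v
      ^ 4 + 26 * v ^ 3 + 7 * v ^ 2) + q ^ 2 * (2 * v ^ 5 + 5 * v ^ 4 + 4 * v ^ 3 + v ^ 2) := by
  have hw' : w = 1 - v := by linarith
  have key : (- 8 * v ^ 6 + 36 * v ^ 4 + 40 * v ^ 3 + 12 * v ^ 2) + q * (- 2 * v ^ 6 + 8 * v ^ 5 + 29 * v
      ^ 4 + 26 * v ^ 3 + 7 * v ^ 2) + q ^ 2 * (2 * v ^ 5 + 5 * v ^ 4 + 4 * v ^ 3 + v ^ 2) =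
      (12 * v ^ 2 * w ^ 4 + 88 * v ^ 3 * w ^ 3 + 228 * v ^ 4 * w ^ 2 + 240 * v ^ 5 * w ^ 1 + 80 *
      v ^ 6) + q * (7 * v ^ 2 * w ^ 4 + 54 * v ^ 3 * w ^ 3 + 149 * v ^ 4 * w ^ 2 + 172 * v ^
      5 * w ^ 1 + 68 * v ^ 6) + q ^ 2 * (1 * v ^ 2 * w ^ 3 + 7 * v ^ 3 * w ^ 2 + 16 * v ^ 4
      * w ^ 1 + 12 * v ^ 5) := by
    rw [hw']; ring
  rw [key]
  positivity

theorem P_ceC {v w q : ℝ} (hv : 0 < v) (hw : 0 ≤ w) (hvw : v + w = 1) (hq : 0 ≤ q) :
    0 < (8 * v ^ 8 - 20 * v ^ 7 - 38 * v ^ 6 + 41 * v ^ 5 + 79 * v ^ 4 + 31 * v ^ 3 + 3 * v ^ 2) + q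
      * (- 16 * v ^ 7 - 2 * v ^ 6 + 66 * v ^ 5 + 78 * v ^ 4 + 30 * v ^ 3 + 4 * v ^ 2) + q ^
      2 * (8 * v ^ 6 + 21 * v ^ 5 + 19 * v ^ 4 + 7 * v ^ 3 + v ^ 2) := by
  have hw' : w = 1 - v := by linarith
  have key : (8 * v ^ 8 - 20 * v ^ 7 - 38 * v ^ 6 + 41 * v ^ 5 + 79 * v ^ 4 + 31 * v ^ 3 + 3 * v ^ 2) + q
      * (- 16 * v ^ 7 - 2 * v ^ 6 + 66 * v ^ 5 + 78 * v ^ 4 + 30 * v ^ 3 + 4 * v ^ 2) + q ^
      2 * (8 * v ^ 6 + 21 * v ^ 5 + 19 * v ^ 4 + 7 * v ^ 3 + v ^ 2) =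
      (3 * v ^ 2 * w ^ 6 + 49 * v ^ 3 * w ^ 5 + 279 * v ^ 4 * w ^ 4 + 727 * v ^ 5 * w ^ 3 + 914 *
      v ^ 6 * w ^ 2 + 516 * v ^ 7 * w ^ 1 + 104 * v ^ 8) + q * (4 * v ^ 2 * w ^ 5 + 50 * v ^
      3 * w ^ 4 + 238 * v ^ 4 * w ^ 3 + 520 * v ^ 5 * w ^ 2 + 504 * v ^ 6 * w ^ 1 + 160 * v
      ^ 7) + q ^ 2 * (1 * v ^ 2 * w ^ 4 + 11 * v ^ 3 * w ^ 3 + 46 * v ^ 4 * w ^ 2 + 84 * v ^
      5 * w ^ 1 + 56 * v ^ 6) := by
    rw [hw']; ring
  rw [key]
  positivity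

theorem P_cCC {v w q : ℝ} (hv : 0 < v) (hw : 0 ≤ w) (hvw : v + w = 1) (hq : 0 ≤ q) :
    0 < (8 * v ^ 9 - 8 * v ^ 8 - 22 * v ^ 7 + 6 * v ^ 6 + 10 * v ^ 5 + 14 * v ^ 4 + 28 * v ^ 3 + 12
      * v ^ 2) + q * (- 10 * v ^ 8 - 6 * v ^ 7 + 12 * v ^ 6 + 16 * v ^ 5 + 38 * v ^ 4 + 46 *
      v ^ 3 + 16 * v ^ 2) + q ^ 2 * (2 * v ^ 7 + 5 * v ^ 6 + 14 * v ^ 5 + 28 * v ^ 4 + 24 *
      v ^ 3 + 7 * v ^ 2) + q ^ 3 * (v ^ 6 + 4 * v ^ 5 + 6 * v ^ 4 + 4 * v ^ 3 + v ^ 2) := by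
  have hw' : w = 1 - v := by linarith
  have key : (8 * v ^ 9 - 8 * v ^ 8 - 22 * v ^ 7 + 6 * v ^ 6 + 10 * v ^ 5 + 14 * v ^ 4 + 28 * v ^ 3 + 12
      * v ^ 2) + q * (- 10 * v ^ 8 - 6 * v ^ 7 + 12 * v ^ 6 + 16 * v ^ 5 + 38 * v ^ 4 + 46 *
      v ^ 3 + 16 * v ^ 2) + q ^ 2 * (2 * v ^ 7 + 5 * v ^ 6 + 14 * v ^ 5 + 28 * v ^ 4 + 24 *
      v ^ 3 + 7 * v ^ 2) + q ^ 3 * (v ^ 6 + 4 * v ^ 5 + 6 * v ^ 4 + 4 * v ^ 3 + v ^ 2) =
      (12 * v ^ 2 * w ^ 7 + 112 * v ^ 3 * w ^ 6 + 434 * v ^ 4 * w ^ 5 + 920 * v ^ 5 * w ^ 4 + 1166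
      * v ^ 6 * w ^ 3 + 868 * v ^ 7 * w ^ 2 + 328 * v ^ 8 * w ^ 1 + 48 * v ^ 9) + q * (16 *
      v ^ 2 * w ^ 6 + 142 * v ^ 3 * w ^ 5 + 508 * v ^ 4 * w ^ 4 + 948 * v ^ 5 * w ^ 3 + 988
      * v ^ 6 * w ^ 2 + 544 * v ^ 7 * w ^ 1 + 112 * v ^ 8) + q ^ 2 * (7 * v ^ 2 * w ^ 5 + 59
      * v ^ 3 * w ^ 4 + 194 * v ^ 4 * w ^ 3 + 312 * v ^ 5 * w ^ 2 + 248 * v ^ 6 * w ^ 1 + 80
      * v ^ 7) + q ^ 3 * (1 * v ^ 2 * w ^ 4 + 8 * v ^ 3 * w ^ 3 + 24 * v ^ 4 * w ^ 2 + 32 *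
      v ^ 5 * w ^ 1 + 16 * v ^ 6) := by
    rw [hw']; ring
  rw [key]
  positivity

theorem P_key {v q A b e C : ℝ}
    (hA : (1 + v) * (q + 3 - 2 * v) * A + (v * b + v * (1 + v) * e + v * (1 + v) * (q + 2 - v) * C) = 0)
    {G : ℝ}
    (hG : G = (q + 3) * (A ^ 2 + (q + 2) * A * C + (b - v * e - v ^ 2 * C) * (e - A))
      + v * ((q + 2) * (A ^ 2 + (q + 2) * A * C + (b - v * e - v ^ 2 * C) * (e - A))
        + ((b - v * e - v ^ 2 * C) ^ 2 + (q + 3) * A * (e - A))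
        + ((e - A) ^ 2 + (q + 2) * (e - A) * C + A * (b - v * e - v ^ 2 * C))
        + (q + 2) * ((q + 2) * C ^ 2 + A ^ 2 + (e - A) ^ 2))
      + v ^ 2 * (2 * ((e - A) ^ 2 + (q + 2) * (e - A) * C + A * (b - v * e - v ^ 2 * C))
        + (q + 1) * ((q + 2) * C ^ 2 + A ^ 2 + (e - A) ^ 2))) :
    ((1 + v) * (q + 3 - 2 * v)) ^ 2 * G =
      ((8 * v ^ 5 - 4 * v ^ 4 - 18 * v ^ 3 + 15 * v ^ 2 + 18 * v) + q * (- 6 * v ^ 4 - 2 * v ^ 3 +
      17 * v ^ 2 + 12 * v) + q ^ 2 * (2 * v ^ 3 + 4 * v ^ 2 + 2 * v)) * b ^ 2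
      + ((- 8 * v ^ 6 + 16 * v ^ 5 + 38 * v ^ 4 - 22 * v ^ 3 - 18 * v ^ 2 + 45 * v + 27) + q * (12 *
      v ^ 5 + 6 * v ^ 4 - 27 * v ^ 3 + 9 * v ^ 2 + 57 * v + 27) + q ^ 2 * (- 4 * v ^ 4 - 4 *
      v ^ 3 + 14 * v ^ 2 + 23 * v + 9) + q ^ 3 * (v ^ 3 + 3 * v ^ 2 + 3 * v + 1)) * (b * e)
      + ((- 16 * v ^ 7 + 12 * v ^ 6 + 40 * v ^ 5 - 17 * v ^ 4 - 8 * v ^ 3 + 21 * v ^ 2) + q * (16 * v
      ^ 6 + 8 * v ^ 5 - 19 * v ^ 4 + 14 * v ^ 3 + 25 * v ^ 2) + q ^ 2 * (- 4 * v ^ 5 - v ^ 4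
      + 12 * v ^ 3 + 9 * v ^ 2) + q ^ 3 * (v ^ 4 + 2 * v ^ 3 + v ^ 2)) * (b * C)
      + ((- 8 * v ^ 6 + 36 * v ^ 4 + 40 * v ^ 3 + 12 * v ^ 2) + q * (- 2 * v ^ 6 + 8 * v ^ 5 + 29 * v
      ^ 4 + 26 * v ^ 3 + 7 * v ^ 2) + q ^ 2 * (2 * v ^ 5 + 5 * v ^ 4 + 4 * v ^ 3 + v ^ 2)) * e ^ 2
      + ((8 * v ^ 8 - 20 * v ^ 7 - 38 * v ^ 6 + 41 * v ^ 5 + 79 * v ^ 4 + 31 * v ^ 3 + 3 * v ^ 2) + q
      * (- 16 * v ^ 7 - 2 * v ^ 6 + 66 * v ^ 5 + 78 * v ^ 4 + 30 * v ^ 3 + 4 * v ^ 2) + q ^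
      2 * (8 * v ^ 6 + 21 * v ^ 5 + 19 * v ^ 4 + 7 * v ^ 3 + v ^ 2)) * (e * C)
      + ((8 * v ^ 9 - 8 * v ^ 8 - 22 * v ^ 7 + 6 * v ^ 6 + 10 * v ^ 5 + 14 * v ^ 4 + 28 * v ^ 3 + 12
      * v ^ 2) + q * (- 10 * v ^ 8 - 6 * v ^ 7 + 12 * v ^ 6 + 16 * v ^ 5 + 38 * v ^ 4 + 46 *
      v ^ 3 + 16 * v ^ 2) + q ^ 2 * (2 * v ^ 7 + 5 * v ^ 6 + 14 * v ^ 5 + 28 * v ^ 4 + 24 *
      v ^ 3 + 7 * v ^ 2) + q ^ 3 * (v ^ 6 + 4 * v ^ 5 + 6 * v ^ 4 + 4 * v ^ 3 + v ^ 2)) * C ^ 2 := by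
  rw [hG]
  linear_combination ((2 * q * v ^ 2 + 2 * q * v + 4 * v ^ 2 + q + 4 * v + 3) *
      ((1 + v) * (q + 3 - 2 * v) * A - (v * b + v * (1 + v) * e + v * (1 + v) * (q + 2 - v) * C))
    + (1 + v) * (q + 3 - 2 * v) * (C * q * v ^ 3 - 2 * C * v ^ 4 - C * q * v ^ 2 + C * q ^ 2 * v + C * v ^ 3 - e * q * v ^ 2 -
      2 * e * v ^ 3 + 3 * C * q * v + C * q ^ 2 - C * v ^ 2 - b * q * v + 2 * b * v ^ 2 - 5
      * e * v ^ 2 + 5 * C * q + 2 * C * v - b * q - b * v + 6 * C - 3 * b)) * hA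


/-- case `F1 = 0` -/
theorem P_F1 {p : ℝ} (hp : p = 3 ∨ 4 ≤ p) {v : ℝ} (hv : 0 < v) (hv1 : v ≤ 1) {A E B C : ℝ}
    (hle : A ≤ E) (hAE : 0 ≤ A + E) (hAC : 0 ≤ A + C)
    (hC : 4 ≤ p → 0 ≤ C)
    (h1 : B + v * (A + E) + v ^ 2 * C = 0)
    (h2 : 0 ≤ p * A + v * ((p - 1) * A + B + E + (p - 1) * C) + v ^ 2 * (2 * E + (p - 2) * C))
    (hne : ¬(A = 0 ∧ E = 0 ∧ B = 0 ∧ C = 0)) :
    0 < (B ^ 2 + p * A * E) + v * ((A ^ 2 + (p - 1) * A * C + B * E) +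
      (E ^ 2 + (p - 1) * E * C + A * B)) + v ^ 2 * ((p - 1) * C ^ 2 + A ^ 2 + E ^ 2) := by
  have hp3 : 3 ≤ p := by rcases hp with h | h <;> linarith
  have hE : 0 ≤ E := by linarith
  have hw : 0 ≤ 1 - v := by linarith
  have hB : B = -(v * (A + E) + v ^ 2 * C) := by linarith
  have hF : (B ^ 2 + p * A * E) + v * ((A ^ 2 + (p - 1) * A * C + B * E) +
      (E ^ 2 + (p - 1) * E * C + A * B)) + v ^ 2 * ((p - 1) * C ^ 2 + A ^ 2 + E ^ 2) =
      v ^ 3 * C * (A + E) + v ^ 4 * C ^ 2 + p * A * E + (v + v ^ 2) * (A ^ 2 + E ^ 2)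
        + v * (p - 1) * C * (A + E) + v ^ 2 * (p - 1) * C ^ 2 := by
    rw [hB]; ring
  rw [hF]
  rcases lt_or_ge C 0 with hC0 | hC0
  · -- `C < 0`, `p = 3`
    have hp' : p = 3 := by
      rcases hp with h | h
      · exact h
      · exact absurd (hC h) (not_le.mpr hC0)
    obtain ⟨c, hc⟩ : ∃ c, C = -c := ⟨-C, by ring⟩
    obtain ⟨x, hx⟩ : ∃ x, A = c + x := ⟨A - c, by ring⟩
    obtain ⟨y, hy⟩ : ∃ y, E = c + y := ⟨E - c, by ring⟩
    have hc0 : 0 < c := by linarith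
    have hx0 : 0 ≤ x := by linarith
    have hy0 : 0 ≤ y := by linarith
    subst hp'
    rw [hc, hx, hy]
    have e1 : 0 < 3 - 2 * v + 4 * v ^ 2 - 2 * v ^ 3 + v ^ 4 := by
      nlinarith [sq_nonneg v, sq_nonneg (v ^ 2), mul_nonneg (sq_nonneg v) hw]
    have e2 : 0 < 3 + 2 * v ^ 2 - v ^ 3 := by
      nlinarith [sq_nonneg v, mul_nonneg (sq_nonneg v) hw]
    have e3 : v ^ 3 * -c * (c + x + (c + y)) + v ^ 4 * (-c) ^ 2 + 3 * (c + x) * (c + y) +
        (v + v ^ 2) * ((c + x) ^ 2 + (c + y) ^ 2) + v * (3 - 1) * -c * (c + x + (c + y)) +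
        v ^ 2 * (3 - 1) * (-c) ^ 2 =
        (3 - 2 * v + 4 * v ^ 2 - 2 * v ^ 3 + v ^ 4) * c ^ 2 +
        (3 + 2 * v ^ 2 - v ^ 3) * (c * (x + y)) + 3 * (x * y) + (v + v ^ 2) * (x ^ 2 + y ^ 2) := by
      ring
    rw [e3]
    positivity
  · rcases lt_or_ge A 0 with hA0 | hA0
    · obtain ⟨x, hx⟩ : ∃ x, A = -x := ⟨-A, by ring⟩
      have hx0 : 0 < x := by linarith
      have hE0 : 0 < E := by linarith
      -- T ≥ 0
      have hT : 0 ≤ v * E + v * (p - 1 - v) * C - (p - v) * x := by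
        have h3 : p * A + v * ((p - 1) * A + B + E + (p - 1) * C) +
            v ^ 2 * (2 * E + (p - 2) * C) =
            (1 + v) * (v * E + v * (p - 1 - v) * C - (p - v) * x) := by
          rw [hB, hx]; ring
        rw [h3] at h2
        exact nonneg_of_mul_nonneg_right h2 (by linarith)
      have hpv : 0 < p - v := by linarith
      have hid : (p - v) * (v ^ 3 * C * (A + E) + v ^ 4 * C ^ 2 + p * A * E
          + (v + v ^ 2) * (A ^ 2 + E ^ 2) + v * (p - 1) * C * (A + E) + v ^ 2 * (p - 1) * C ^ 2) =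
          v ^ 2 * ((p - 2) * (E ^ 2 - C * E + C ^ 2) + (1 - v) * E ^ 2 + v * (p - 2 * v) * (C * E)
            + (v ^ 2 + 1) * C ^ 2) + (p - v) * (v + v ^ 2) * x ^ 2
          + (v * E + v * (p - 1 - v) * C - (p - v) * x) * (p * E + C * (v ^ 3 + v * (p - 1))) := by
        rw [hx]; ring
      have hquad : 0 < E ^ 2 - C * E + C ^ 2 := by nlinarith [sq_nonneg (E - 2 * C), sq_pos_of_pos hE0]
      have hp2 : 0 < p - 2 := by linarith
      have hp2v : 0 ≤ p - 2 * v := by linarith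
      have hp1 : 0 ≤ p - 1 := by linarith
      have hp0 : 0 ≤ p := by linarith
      have hpos : 0 < (p - v) * (v ^ 3 * C * (A + E) + v ^ 4 * C ^ 2 + p * A * E
          + (v + v ^ 2) * (A ^ 2 + E ^ 2) + v * (p - 1) * C * (A + E) + v ^ 2 * (p - 1) * C ^ 2) := by
        rw [hid]
        have s1 : 0 < (p - 2) * (E ^ 2 - C * E + C ^ 2) := mul_pos hp2 hquad
        have s2 : 0 ≤ (1 - v) * E ^ 2 := mul_nonneg hw (sq_nonneg E)
        have s3 : 0 ≤ v * (p - 2 * v) * (C * E) := by positivity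
        have s4 : 0 ≤ (v ^ 2 + 1) * C ^ 2 := by positivity
        have s5 : 0 ≤ (p - v) * (v + v ^ 2) * x ^ 2 := by positivity
        have s6 : 0 ≤ (v * E + v * (p - 1 - v) * C - (p - v) * x) *
            (p * E + C * (v ^ 3 + v * (p - 1))) := mul_nonneg hT (by positivity)
        have s7 : 0 < v ^ 2 * ((p - 2) * (E ^ 2 - C * E + C ^ 2) + (1 - v) * E ^ 2 +
            v * (p - 2 * v) * (C * E) + (v ^ 2 + 1) * C ^ 2) := by
          refine mul_pos (by positivity) (by linarith)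
        linarith
      exact (mul_pos_iff_of_pos_left hpv).mp hpos
    · -- everything nonnegative
      have hp1 : 0 ≤ p - 1 := by linarith
      have hp0 : 0 ≤ p := by linarith
      rcases hE.lt_or_eq with hE0 | hE0
      · positivity
      · have hA : A = 0 := by linarith
        have hC' : 0 < C := by
          refine hC0.lt_of_ne fun h => hne ⟨hA, hE0.symm, ?_, h.symm⟩
          rw [hB, hA, ← hE0, ← h]; ring
        positivity

/-- case `F2 = 0` -/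
theorem P_F2 {p : ℝ} (hp : p = 3 ∨ 4 ≤ p) {v : ℝ} (hv : 0 < v) (hv1 : v ≤ 1) {A E B C : ℝ}
    (hle : A ≤ E) (hAE : 0 ≤ A + E) (hAC : 0 ≤ A + C)
    (hC : 4 ≤ p → 0 ≤ C)
    (h1 : 0 ≤ B + v * (A + E) + v ^ 2 * C)
    (h2 : p * A + v * ((p - 1) * A + B + E + (p - 1) * C) + v ^ 2 * (2 * E + (p - 2) * C) = 0)
    (hne : ¬(A = 0 ∧ E = 0 ∧ B = 0 ∧ C = 0)) :
    0 < p * (A ^ 2 + (p - 1) * A * C + B * E) + v * ((p - 1) * (A ^ 2 + (p - 1) * A * C + B * E)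
      + (B ^ 2 + p * A * E) + (E ^ 2 + (p - 1) * E * C + A * B)
      + (p - 1) * ((p - 1) * C ^ 2 + A ^ 2 + E ^ 2))
      + v ^ 2 * (2 * (E ^ 2 + (p - 1) * E * C + A * B)
        + (p - 2) * ((p - 1) * C ^ 2 + A ^ 2 + E ^ 2)) := by
  have hp3 : 3 ≤ p := by rcases hp with h | h <;> linarith
  have hw : 0 ≤ 1 - v := by linarith
  rcases lt_or_ge C 0 with hC0 | hC0
  · exfalso
    have hp' : p = 3 := by
      rcases hp with h | h
      · exact h
      · exact absurd (hC h) (not_le.mpr hC0)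
    obtain ⟨c, hc⟩ : ∃ c, C = -c := ⟨-C, by ring⟩
    obtain ⟨x, hx⟩ : ∃ x, A = c + x := ⟨A - c, by ring⟩
    obtain ⟨y, hy⟩ : ∃ y, E = c + y := ⟨E - c, by ring⟩
    have hc0 : 0 < c := by linarith
    have hx0 : 0 ≤ x := by linarith
    have hy0 : 0 ≤ y := by linarith
    subst hp'
    rw [hc, hx, hy] at h1 h2
    have e1 : 0 < 3 + v - v ^ 2 + v ^ 3 := by
      nlinarith [sq_nonneg v, mul_nonneg hv.le hw, mul_nonneg (sq_nonneg v) hv.le]
    have e2 : 0 < 3 + 2 * v - v ^ 2 := by nlinarith [mul_nonneg hv.le hw]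
    have e3 : 3 * (c + x) + v * ((3 - 1) * (c + x) + B + (c + y) + (3 - 1) * -c) +
        v ^ 2 * (2 * (c + y) + (3 - 2) * -c) =
        v * (B + v * (c + x + (c + y)) + v ^ 2 * -c) + ((3 + v - v ^ 2 + v ^ 3) * c +
          (3 + 2 * v - v ^ 2) * x + (v + v ^ 2) * y) := by ring
    rw [e3] at h2
    have e4 : 0 < (3 + v - v ^ 2 + v ^ 3) * c + (3 + 2 * v - v ^ 2) * x + (v + v ^ 2) * y := by
      positivity
    have e5 := mul_nonneg hv.le h1
    linarith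
  · obtain ⟨q, hq⟩ : ∃ q, p = q + 3 := ⟨p - 3, by ring⟩
    have hq0 : 0 ≤ q := by linarith
    obtain ⟨b, hb⟩ : ∃ b, b = B + v * (A + E) + v ^ 2 * C := ⟨_, rfl⟩
    obtain ⟨e, he⟩ : ∃ e, e = A + E := ⟨_, rfl⟩
    have hb0 : 0 ≤ b := by rw [hb]; exact h1
    have he0 : 0 ≤ e := by rw [he]; exact hAE
    have hE : E = e - A := by rw [he]; ring
    have hB : B = b - v * e - v ^ 2 * C := by rw [hb, he]; ring
    have hA : (1 + v) * (q + 3 - 2 * v) * A +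
        (v * b + v * (1 + v) * e + v * (1 + v) * (q + 2 - v) * C) = 0 := by
      rw [hq, hE, hB] at h2
      linear_combination h2
    obtain ⟨G, hG⟩ : ∃ G, G = p * (A ^ 2 + (p - 1) * A * C + B * E) +
      v * ((p - 1) * (A ^ 2 + (p - 1) * A * C + B * E)
      + (B ^ 2 + p * A * E) + (E ^ 2 + (p - 1) * E * C + A * B)
      + (p - 1) * ((p - 1) * C ^ 2 + A ^ 2 + E ^ 2))
      + v ^ 2 * (2 * (E ^ 2 + (p - 1) * E * C + A * B)
        + (p - 2) * ((p - 1) * C ^ 2 + A ^ 2 + E ^ 2)) := ⟨_, rfl⟩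
    rw [← hG]
    have hkey := P_key (G := G) hA (by rw [hG, hq, hE, hB]; ring)
    obtain ⟨w, hw0⟩ : ∃ w, w = 1 - v := ⟨_, rfl⟩
    have hwn : 0 ≤ w := by rw [hw0]; exact hw
    have hvw : v + w = 1 := by rw [hw0]; ring
    have k1 := P_cbb hv hwn hvw hq0
    have k2 := P_cbe hv hwn hvw hq0
    have k3 := P_cbC hv hwn hvw hq0
    have k4 := P_cee hv hwn hvw hq0
    have k5 := P_ceC hv hwn hvw hq0
    have k6 := P_cCC hv hwn hvw hq0
    have hD : 0 < ((1 + v) * (q + 3 - 2 * v)) ^ 2 := by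
      have : 0 < q + 3 - 2 * v := by linarith
      positivity
    have m1 := mul_nonneg k1.le (sq_nonneg b)
    have m2 := mul_nonneg k2.le (mul_nonneg hb0 he0)
    have m3 := mul_nonneg k3.le (mul_nonneg hb0 hC0)
    have m4 := mul_nonneg k4.le (sq_nonneg e)
    have m5 := mul_nonneg k5.le (mul_nonneg he0 hC0)
    have m6 := mul_nonneg k6.le (sq_nonneg C)
    refine (mul_pos_iff_of_pos_left hD).mp (lt_of_not_ge fun hle0 => ?_)
    rw [hkey] at hle0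
    have z1 := le_antisymm (by linarith) m1
    have z4 := le_antisymm (by linarith) m4
    have z6 := le_antisymm (by linarith) m6
    have hbz : b = 0 := by
      rcases mul_eq_zero.mp z1 with h | h
      · exact absurd h k1.ne'
      · exact pow_eq_zero_iff (two_ne_zero) |>.mp h
    have hez : e = 0 := by
      rcases mul_eq_zero.mp z4 with h | h
      · exact absurd h k4.ne'
      · exact pow_eq_zero_iff (two_ne_zero) |>.mp h
    have hCz : C = 0 := by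
      rcases mul_eq_zero.mp z6 with h | h
      · exact absurd h k6.ne'
      · exact pow_eq_zero_iff (two_ne_zero) |>.mp h
    have hAz : A = 0 := by
      rw [hbz, hez, hCz] at hA
      have h3 : (1 + v) * (q + 3 - 2 * v) * A = 0 := by linarith
      rcases mul_eq_zero.mp h3 with h | h
      · exfalso
        have : 0 < (1 + v) * (q + 3 - 2 * v) := by
          have : 0 < q + 3 - 2 * v := by linarith
          positivity
        exact this.ne' h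
      · exact h
    exact hne ⟨hAz, by rw [hE, hez, hAz, sub_zero], by rw [hB, hbz, hez, hCz]; ring, hCz⟩

/-- case `F4 = 0` -/
theorem P_F4 {p : ℝ} (hp : p = 3 ∨ 4 ≤ p) {v : ℝ} (hv : 0 < v) (hv1 : v ≤ 1) {A E B C : ℝ}
    (hAE : 0 ≤ A + E) (hAC : 0 ≤ A + C) (hEC : 0 ≤ E + C) (hBB : 0 ≤ A + E + B + C)
    (hC : 4 ≤ p → 0 ≤ C)
    (h1 : 0 ≤ B + v * (A + E) + v ^ 2 * C)
    (h4 : p * (p - 1) * C + v * (p - 1) * (2 * A + 2 * E + 2 * (p - 2) * C)
      + v ^ 2 * (2 * B + 2 * (p - 2) * (A + E) + (p - 2) * (p - 3) * C) = 0)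
    (hne : ¬(A = 0 ∧ E = 0 ∧ B = 0 ∧ C = 0)) :
    0 < p * (p - 1) * ((p - 1) * C ^ 2 + A ^ 2 + E ^ 2)
      + v * (p - 1) * (2 * (A ^ 2 + (p - 1) * A * C + B * E) + 2 * (E ^ 2 + (p - 1) * E * C + A * B)
        + 2 * (p - 2) * ((p - 1) * C ^ 2 + A ^ 2 + E ^ 2))
      + v ^ 2 * (2 * (B ^ 2 + p * A * E)
        + 2 * (p - 2) * ((A ^ 2 + (p - 1) * A * C + B * E) + (E ^ 2 + (p - 1) * E * C + A * B))
        + (p - 2) * (p - 3) * ((p - 1) * C ^ 2 + A ^ 2 + E ^ 2)) := by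
  have hp3 : 3 ≤ p := by rcases hp with h | h <;> linarith
  have hw : 0 ≤ 1 - v := by linarith
  rcases lt_or_ge C 0 with hC0 | hC0
  · have hp' : p = 3 := by
      rcases hp with h | h
      · exact h
      · exact absurd (hC h) (not_le.mpr hC0)
    subst hp'
    obtain ⟨c, hc⟩ : ∃ c, C = -c := ⟨-C, by ring⟩
    obtain ⟨x, hx⟩ : ∃ x, A = c + x := ⟨A - c, by ring⟩
    obtain ⟨y, hy⟩ : ∃ y, E = c + y := ⟨E - c, by ring⟩
    obtain ⟨z, hz⟩ : ∃ z, z = A + E + B + C := ⟨_, rfl⟩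
    have hc0 : 0 < c := by linarith
    have hx0 : 0 ≤ x := by linarith
    have hy0 : 0 ≤ y := by linarith
    have hz0 : 0 ≤ z := by rw [hz]; exact hBB
    have hB : B = z - c - x - y := by rw [hz, hc, hx, hy]; ring
    -- twice three times `F4'`
    have e1 : 3 * (3 - 1) * ((3 - 1) * C ^ 2 + A ^ 2 + E ^ 2)
      + v * (3 - 1) * (2 * (A ^ 2 + (3 - 1) * A * C + B * E) + 2 * (E ^ 2 + (3 - 1) * E * C + A * B)
        + 2 * (3 - 2) * ((3 - 1) * C ^ 2 + A ^ 2 + E ^ 2))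
      + v ^ 2 * (2 * (B ^ 2 + 3 * A * E)
        + 2 * (3 - 2) * ((A ^ 2 + (3 - 1) * A * C + B * E) + (E ^ 2 + (3 - 1) * E * C + A * B))
        + (3 - 2) * (3 - 3) * ((3 - 1) * C ^ 2 + A ^ 2 + E ^ 2)) =
        2 * ((3 + 2 * v) * (2 * c ^ 2 + (x - y) ^ 2) + (6 + v ^ 2) * ((c + x) * (c + y))
          - (2 * v + v ^ 2) * (c * (2 * c + x + y)) + (2 * v + v ^ 2) * ((2 * c + x + y) * z)
          + v ^ 2 * B ^ 2) := by
      rw [hB, hc, hx, hy]; ring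
    rw [e1]
    have e2 : (6 + v ^ 2) * ((c + x) * (c + y)) - (2 * v + v ^ 2) * (c * (2 * c + x + y)) =
        (6 - 4 * v - v ^ 2) * c ^ 2 + (6 - 2 * v) * (c * (x + y)) + (6 + v ^ 2) * (x * y) := by
      ring
    have e3 : 0 < 6 - 4 * v - v ^ 2 := by nlinarith
    have e4 : 0 < 6 - 2 * v := by linarith
    have e5 : 0 < (6 + v ^ 2) * ((c + x) * (c + y)) - (2 * v + v ^ 2) * (c * (2 * c + x + y)) := by
      rw [e2]; positivity
    have e6 : 0 ≤ (3 + 2 * v) * (2 * c ^ 2 + (x - y) ^ 2) := by positivity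
    have e7 : 0 ≤ (2 * v + v ^ 2) * ((2 * c + x + y) * z) := by positivity
    have e8 : 0 ≤ v ^ 2 * B ^ 2 := by positivity
    linarith
  · exfalso
    obtain ⟨q, hq⟩ : ∃ q, p = q + 3 := ⟨p - 3, by ring⟩
    have hq0 : 0 ≤ q := by linarith
    have e1 : p * (p - 1) * C + v * (p - 1) * (2 * A + 2 * E + 2 * (p - 2) * C)
      + v ^ 2 * (2 * B + 2 * (p - 2) * (A + E) + (p - 2) * (p - 3) * C) =
        2 * v ^ 2 * (B + v * (A + E) + v ^ 2 * C)
        + 2 * v * ((q + 2) + v * (q + 1) - v ^ 2) * (A + E)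
        + ((q + 3) * (q + 2) + 2 * v * (q + 2) * (q + 1) + v ^ 2 * (q + 1) * q - 2 * v ^ 4) * C := by
      rw [hq]; ring
    rw [e1] at h4
    have e2 : 0 < 2 * v * ((q + 2) + v * (q + 1) - v ^ 2) := by
      have : 0 < (q + 2) + v * (q + 1) - v ^ 2 := by nlinarith
      positivity
    have e3 : 0 < (q + 3) * (q + 2) + 2 * v * (q + 2) * (q + 1) + v ^ 2 * (q + 1) * q - 2 * v ^ 4 := by
      have h5 : v ^ 4 ≤ 1 := pow_le_one₀ hv.le hv1
      have h6 : 0 ≤ 2 * v * (q + 2) * (q + 1) + v ^ 2 * (q + 1) * q := by positivity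
      nlinarith
    have e4 := mul_nonneg (by positivity : 0 ≤ 2 * v ^ 2) h1
    have e5 := mul_nonneg e2.le hAE
    have e6 := mul_nonneg e3.le hC0
    have z1 : A + E = 0 := by
      rcases mul_eq_zero.mp (le_antisymm (by linarith) e5) with h | h
      · exact absurd h e2.ne'
      · exact h
    have z2 : C = 0 := by
      rcases mul_eq_zero.mp (le_antisymm (by linarith) e6) with h | h
      · exact absurd h e3.ne'
      · exact h
    have z3 : B + v * (A + E) + v ^ 2 * C = 0 := by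
      rcases mul_eq_zero.mp (le_antisymm (by linarith) e4) with h | h
      · exact absurd h (by positivity)
      · exact h
    rw [z1, z2] at z3
    refine hne ⟨by linarith, by linarith, by linarith, z2⟩


/-- the four cases for `A ≤ E` -/
theorem P_all {p : ℝ} (hp : p = 3 ∨ 4 ≤ p) {v : ℝ} (hv : 0 < v) (hv1 : v ≤ 1) {A E B C : ℝ}
    (hle : A ≤ E) (hAE : 0 ≤ A + E) (hAC : 0 ≤ A + C) (hEC : 0 ≤ E + C) (hBB : 0 ≤ A + E + B + C)
    (hC : 4 ≤ p → 0 ≤ C)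
    (h1 : 0 ≤ B + v * (A + E) + v ^ 2 * C)
    (h2 : 0 ≤ p * A + v * ((p - 1) * A + B + E + (p - 1) * C) + v ^ 2 * (2 * E + (p - 2) * C))
    (hne : ¬(A = 0 ∧ E = 0 ∧ B = 0 ∧ C = 0)) {A' E' B' C' : ℝ}
    (hA' : A' = A ^ 2 + (p - 1) * A * C + B * E) (hE' : E' = E ^ 2 + (p - 1) * E * C + A * B)
    (hB' : B' = B ^ 2 + p * A * E) (hC' : C' = (p - 1) * C ^ 2 + A ^ 2 + E ^ 2) :
    (B + v * (A + E) + v ^ 2 * C = 0 → 0 < B' + v * (A' + E') + v ^ 2 * C') ∧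
    (p * A + v * ((p - 1) * A + B + E + (p - 1) * C) + v ^ 2 * (2 * E + (p - 2) * C) = 0 →
      0 < p * A' + v * ((p - 1) * A' + B' + E' + (p - 1) * C') + v ^ 2 * (2 * E' + (p - 2) * C')) ∧
    (p * E + v * ((p - 1) * E + B + A + (p - 1) * C) + v ^ 2 * (2 * A + (p - 2) * C) = 0 →
      0 < p * E' + v * ((p - 1) * E' + B' + A' + (p - 1) * C') + v ^ 2 * (2 * A' + (p - 2) * C')) ∧
    (p * (p - 1) * C + v * (p - 1) * (2 * A + 2 * E + 2 * (p - 2) * C)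
      + v ^ 2 * (2 * B + 2 * (p - 2) * (A + E) + (p - 2) * (p - 3) * C) = 0 →
      0 < p * (p - 1) * C' + v * (p - 1) * (2 * A' + 2 * E' + 2 * (p - 2) * C')
      + v ^ 2 * (2 * B' + 2 * (p - 2) * (A' + E') + (p - 2) * (p - 3) * C')) := by
  have hp3 : 3 ≤ p := by rcases hp with h | h <;> linarith
  have c2 : p * A + v * ((p - 1) * A + B + E + (p - 1) * C) + v ^ 2 * (2 * E + (p - 2) * C) = 0 →
      0 < p * A' + v * ((p - 1) * A' + B' + E' + (p - 1) * C')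
        + v ^ 2 * (2 * E' + (p - 2) * C') := by
    intro h
    rw [hA', hE', hB', hC']
    exact P_F2 hp hv hv1 hle hAE hAC hC h1 h hne
  refine ⟨fun h => ?_, c2, fun h => ?_, fun h => ?_⟩
  · rw [hA', hE', hB', hC']
    exact P_F1 hp hv hv1 hle hAE hAC hC h h2 hne
  · -- `A = E`
    have e1 : (p * E + v * ((p - 1) * E + B + A + (p - 1) * C) + v ^ 2 * (2 * A + (p - 2) * C)) -
        (p * A + v * ((p - 1) * A + B + E + (p - 1) * C) + v ^ 2 * (2 * E + (p - 2) * C)) =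
        (1 + v) * (p - 2 * v) * (E - A) := by ring
    have e2 : 0 < (1 + v) * (p - 2 * v) := by
      have : 0 < p - 2 * v := by linarith
      positivity
    have e3 : 0 ≤ (1 + v) * (p - 2 * v) * (E - A) := mul_nonneg e2.le (by linarith)
    have e4 : (1 + v) * (p - 2 * v) * (E - A) = 0 := le_antisymm (by linarith) e3
    have e5 : E - A = 0 := by
      rcases mul_eq_zero.mp e4 with h6 | h6
      · exact absurd h6 e2.ne'
      · exact h6
    have e6 : E = A := by linarith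
    have e7 : E' = A' := by rw [hA', hE', e6]; ring
    have h2' : p * A + v * ((p - 1) * A + B + E + (p - 1) * C) + v ^ 2 * (2 * E + (p - 2) * C) = 0 := by
      linarith
    have h7 := c2 h2'
    rw [e7] at h7 ⊢
    exact h7
  · rw [hA', hE', hB', hC']
    exact P_F4 hp hv hv1 hAE hAC hEC hBB hC h1 h hne



/-! ### the tensors `dg (KW A E B C)` -/

section KWsec
variable {m : ℕ} (A E B C : ℝ)

theorem P_KW01 : KW (n := m + 2) A E B C 0 1 = B := by simp [KW]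
theorem P_KW10 : KW (n := m + 2) A E B C 1 0 = B := by simp [KW]
theorem P_KW0e (k : Fin m) : KW (n := m + 2) A E B C 0 k.succ.succ = A := by simp [KW]
theorem P_KWe0 (k : Fin m) : KW (n := m + 2) A E B C k.succ.succ 0 = A := by simp [KW]
theorem P_KW1e (k : Fin m) : KW (n := m + 2) A E B C 1 k.succ.succ = E := by simp [KW]
theorem P_KWe1 (k : Fin m) : KW (n := m + 2) A E B C k.succ.succ 1 = E := by simp [KW]
theorem P_KWee (k l : Fin m) : KW (n := m + 2) A E B C k.succ.succ l.succ.succ = C := by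
  simp [KW]

end KWsec

theorem P_KW_symm {n : ℕ} (A E B C : ℝ) (i j : Fin n) : KW A E B C i j = KW A E B C j i := by
  unfold KW
  split_ifs <;> rfl

theorem P_dg_congr {n : ℕ} {K K' : Mt n} (h : ∀ i j, i ≠ j → K i j = K' i j) : dg K = dg K' := by
  funext i j k l
  unfold dg
  by_cases hij : i = j
  · subst hij
    rw [mul_comm (if i = k then (1 : ℝ) else 0), sub_self, mul_zero, mul_zero]
  · rw [h i j hij]

theorem P_sum2 {m : ℕ} (f : Fin (m + 2) → ℝ) :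
    ∑ p, f p = f 0 + f 1 + ∑ k : Fin m, f k.succ.succ := by
  rw [Fin.sum_univ_succ, Fin.sum_univ_succ]
  exact (add_assoc _ _ _).symm

theorem P_sum_one {m : ℕ} (k0 : Fin m) (c : ℝ) :
    ∑ k : Fin m, (if k = k0 then 0 else c) = ((m : ℝ) - 1) * c := by
  have h : ∀ k : Fin m, (if k = k0 then 0 else c) = c - (if k = k0 then c else 0) := by
    intro k; split_ifs <;> ring
  simp only [h, Finset.sum_sub_distrib, Finset.sum_const, Finset.card_univ, Fintype.card_fin,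
    nsmul_eq_mul, Finset.sum_ite_eq', Finset.mem_univ, if_true]
  ring

theorem P_sum_two {m : ℕ} {k0 k1 : Fin m} (hk : k0 ≠ k1) (c : ℝ) :
    ∑ k : Fin m, (if k = k0 ∨ k = k1 then 0 else c) = ((m : ℝ) - 2) * c := by
  have h : ∀ k : Fin m, (if k = k0 ∨ k = k1 then 0 else c) =
      c - (if k = k0 then c else 0) - (if k = k1 then c else 0) := by
    intro k
    by_cases h0 : k = k0
    · have h1 : k ≠ k1 := fun h => hk (h0.symm.trans h)
      rw [if_pos (Or.inl h0), if_pos h0, if_neg h1]; ring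
    · by_cases h1 : k = k1
      · rw [if_pos (Or.inr h1), if_neg h0, if_pos h1]; ring
      · rw [if_neg (by tauto), if_neg h0, if_neg h1]; ring
  simp only [h, Finset.sum_sub_distrib, Finset.sum_const, Finset.card_univ, Fintype.card_fin,
    nsmul_eq_mul, Finset.sum_ite_eq', Finset.mem_univ, if_true]
  ring

theorem P_ev {n : ℕ} (K : Mt n) {a b : Fin n} (h : a ≠ b) : ev4 a b a b (dg K) = K a b := by
  show dg K a b a b = K a b
  unfold dg
  rw [if_pos rfl, if_pos rfl, if_neg h, if_neg h.symm]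
  ring

theorem P_ric {n : ℕ} (K : Mt n) (a : Fin n) :
    ric4 a (dg K) = ∑ p, if p = a then 0 else K a p := by
  unfold ric4
  rw [LinearMap.sum_apply]
  refine Finset.sum_congr rfl fun p _ => ?_
  by_cases h : p = a
  · subst h
    rw [if_pos rfl]
    show dg K p p p p = 0
    unfold dg
    rw [if_pos rfl]; ring
  · rw [if_neg h, P_ev K (Ne.symm h)]

theorem P_ric0 {m : ℕ} (A E B C : ℝ) :
    ric4 0 (dg (KW (n := m + 2) A E B C)) = B + m * A := by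
  rw [P_ric, P_sum2, if_pos rfl, if_neg (by simp), P_KW01]
  have h : ∀ k : Fin m, (if (k.succ.succ : Fin (m + 2)) = 0 then (0 : ℝ)
      else KW A E B C 0 k.succ.succ) = A := by
    intro k
    rw [if_neg (Fin.succ_ne_zero _), P_KW0e]
  simp only [h, Finset.sum_const, Finset.card_univ, Fintype.card_fin, nsmul_eq_mul]
  ring

theorem P_succ_ne_one {m : ℕ} (k : Fin m) : (k.succ.succ : Fin (m + 2)) ≠ 1 := by
  intro h
  have := congrArg Fin.val h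
  simp at this

theorem P_ric1 {m : ℕ} (A E B C : ℝ) :
    ric4 1 (dg (KW (n := m + 2) A E B C)) = B + m * E := by
  rw [P_ric, P_sum2, if_pos rfl, if_neg (by simp), P_KW10]
  have h : ∀ k : Fin m, (if (k.succ.succ : Fin (m + 2)) = 1 then (0 : ℝ)
      else KW A E B C 1 k.succ.succ) = E := by
    intro k
    rw [if_neg (P_succ_ne_one k), P_KW1e]
  simp only [h, Finset.sum_const, Finset.card_univ, Fintype.card_fin, nsmul_eq_mul]
  ring

theorem P_rice {m : ℕ} (A E B C : ℝ) (k0 : Fin m) :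
    ric4 k0.succ.succ (dg (KW (n := m + 2) A E B C)) = A + E + ((m : ℝ) - 1) * C := by
  rw [P_ric, P_sum2, if_neg (Fin.succ_ne_zero _).symm, if_neg (P_succ_ne_one k0).symm, P_KWe0,
    P_KWe1, ← P_sum_one k0 C]
  congr 1
  refine Finset.sum_congr rfl fun k _ => ?_
  simp only [Fin.succ_inj, P_KWee]

theorem P_scal {m : ℕ} (A E B C : ℝ) :
    scal4 (dg (KW (n := m + 2) A E B C)) = 2 * B + 2 * m * (A + E) + m * ((m : ℝ) - 1) * C := by
  unfold scal4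
  rw [LinearMap.sum_apply, P_sum2, P_ric0, P_ric1]
  simp only [P_rice, Finset.sum_const, Finset.card_univ, Fintype.card_fin, nsmul_eq_mul]
  ring

theorem P_fnu_def {n : ℕ} (ν : ℝ) (a b : Fin n) (R : T4 n) :
    fnu ν a b R = ev4 a b a b R + (ν / ((n : ℝ) - 2)) * (ric4 a R + ric4 b R - 2 * ev4 a b a b R)
    + (ν ^ 2 / (((n : ℝ) - 2) * ((n : ℝ) - 3))) *
      (scal4 R - 2 * ric4 a R - 2 * ric4 b R + 2 * ev4 a b a b R) := by
  unfold fnu
  simp only [LinearMap.add_apply, LinearMap.sub_apply, LinearMap.smul_apply, smul_eq_mul]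

theorem P_fnu_symm {n : ℕ} {K : Mt n} (hK : ∀ i j, K i j = K j i) (ν : ℝ) {a b : Fin n}
    (h : a ≠ b) : fnu ν a b (dg K) = fnu ν b a (dg K) := by
  rw [P_fnu_def, P_fnu_def, P_ev K h, P_ev K h.symm, hK a b]
  ring

section vals
variable {m : ℕ} (hm : 3 ≤ m) (ν A E B C : ℝ)
include hm

theorem P_val01 : fnu ν 0 1 (dg (KW (n := m + 2) A E B C)) = B + ν * (A + E) + ν ^ 2 * C := by
  have hm' : (3 : ℝ) ≤ m := by exact_mod_cast hm
  have h0 : (m : ℝ) ≠ 0 := by linarith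
  have h1 : (m : ℝ) - 1 ≠ 0 := by linarith
  rw [P_fnu_def, P_ev _ (by simp), P_ric0, P_ric1, P_scal, P_KW01]
  push_cast
  rw [show (m : ℝ) + 2 - 2 = m by ring, show (m : ℝ) + 2 - 3 = m - 1 by ring]
  field_simp
  ring

theorem P_val0e (k : Fin m) : fnu ν 0 k.succ.succ (dg (KW (n := m + 2) A E B C)) =
    A + (ν / m) * (((m : ℝ) - 1) * A + B + E + ((m : ℝ) - 1) * C)
      + (ν ^ 2 / m) * (2 * E + ((m : ℝ) - 2) * C) := by
  have hm' : (3 : ℝ) ≤ m := by exact_mod_cast hm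
  have h0 : (m : ℝ) ≠ 0 := by linarith
  have h1 : (m : ℝ) - 1 ≠ 0 := by linarith
  rw [P_fnu_def, P_ev _ (Fin.succ_ne_zero _).symm, P_ric0, P_rice, P_scal, P_KW0e]
  push_cast
  rw [show (m : ℝ) + 1 + 1 - 2 = m by ring, show (m : ℝ) + 1 + 1 - 3 = m - 1 by ring]
  field_simp
  ring

theorem P_val1e (k : Fin m) : fnu ν 1 k.succ.succ (dg (KW (n := m + 2) A E B C)) =
    E + (ν / m) * (((m : ℝ) - 1) * E + B + A + ((m : ℝ) - 1) * C)
      + (ν ^ 2 / m) * (2 * A + ((m : ℝ) - 2) * C) := by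
  have hm' : (3 : ℝ) ≤ m := by exact_mod_cast hm
  have h0 : (m : ℝ) ≠ 0 := by linarith
  have h1 : (m : ℝ) - 1 ≠ 0 := by linarith
  rw [P_fnu_def, P_ev _ (P_succ_ne_one k).symm, P_ric1, P_rice, P_scal, P_KW1e]
  push_cast
  rw [show (m : ℝ) + 1 + 1 - 2 = m by ring, show (m : ℝ) + 1 + 1 - 3 = m - 1 by ring]
  field_simp
  ring

theorem P_valee {k l : Fin m} (hkl : k ≠ l) :
    fnu ν k.succ.succ l.succ.succ (dg (KW (n := m + 2) A E B C)) =
    C + (ν / m) * (2 * A + 2 * E + 2 * ((m : ℝ) - 2) * C)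
      + (ν ^ 2 / (m * ((m : ℝ) - 1))) * (2 * B + 2 * ((m : ℝ) - 2) * (A + E)
        + ((m : ℝ) - 2) * ((m : ℝ) - 3) * C) := by
  have hm' : (3 : ℝ) ≤ m := by exact_mod_cast hm
  have h0 : (m : ℝ) ≠ 0 := by linarith
  have h1 : (m : ℝ) - 1 ≠ 0 := by linarith
  have hne : (k.succ.succ : Fin (m + 2)) ≠ l.succ.succ := fun h => hkl (by simpa using h)
  rw [P_fnu_def, P_ev _ hne, P_rice, P_rice, P_scal, P_KWee]
  push_cast
  rw [show (m : ℝ) + 1 + 1 - 2 = m by ring, show (m : ℝ) + 1 + 1 - 3 = m - 1 by ring]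
  field_simp
  ring

end vals

/-- the quadratic expression of `KW A E B C` -/
theorem P_QQ {m : ℕ} (A E B C : ℝ) :
    QQ (dg (KW (n := m + 2) A E B C)) = dg (KW (n := m + 2)
      (2 * (A ^ 2 + ((m : ℝ) - 1) * A * C + B * E)) (2 * (E ^ 2 + ((m : ℝ) - 1) * E * C + A * B))
      (2 * (B ^ 2 + m * A * E)) (2 * (((m : ℝ) - 1) * C ^ 2 + A ^ 2 + E ^ 2))) := by
  rw [qq_dg _ (P_KW_symm A E B C)]
  have hsym : ∀ i j : Fin (m + 2),
      2 * (KW (n := m + 2) A E B C i j ^ 2 + ∑ p, if p = i ∨ p = j then 0 else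
        KW (n := m + 2) A E B C i p * KW (n := m + 2) A E B C j p) =
      2 * (KW (n := m + 2) A E B C j i ^ 2 + ∑ p, if p = j ∨ p = i then 0 else
        KW (n := m + 2) A E B C j p * KW (n := m + 2) A E B C i p) := by
    intro i j
    rw [P_KW_symm A E B C i j]
    congr 2
    refine Finset.sum_congr rfl fun p _ => ?_
    rw [mul_comm]
    simp only [or_comm]
  have h01 : 2 * (KW (n := m + 2) A E B C 0 1 ^ 2 + ∑ p, if p = 0 ∨ p = 1 then 0 else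
        KW (n := m + 2) A E B C 0 p * KW (n := m + 2) A E B C 1 p) = 2 * (B ^ 2 + m * A * E) := by
    rw [P_sum2, if_pos (Or.inl rfl), if_pos (Or.inr rfl), P_KW01]
    have h : ∀ k : Fin m, (if (k.succ.succ : Fin (m + 2)) = 0 ∨ (k.succ.succ : Fin (m + 2)) = 1
        then (0 : ℝ) else KW (n := m + 2) A E B C 0 k.succ.succ *
          KW (n := m + 2) A E B C 1 k.succ.succ) = A * E := by
      intro k
      rw [if_neg (by rintro (h | h); exacts [Fin.succ_ne_zero _ h, P_succ_ne_one k h]), P_KW0e,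
        P_KW1e]
    simp only [h, Finset.sum_const, Finset.card_univ, Fintype.card_fin, nsmul_eq_mul]
    ring
  have h0e : ∀ k0 : Fin m, 2 * (KW (n := m + 2) A E B C 0 k0.succ.succ ^ 2 +
      ∑ p, if p = 0 ∨ p = k0.succ.succ then 0 else
        KW (n := m + 2) A E B C 0 p * KW (n := m + 2) A E B C k0.succ.succ p) =
      2 * (A ^ 2 + ((m : ℝ) - 1) * A * C + B * E) := by
    intro k0
    rw [P_sum2, if_pos (Or.inl rfl), if_neg (by
      rintro (h | h); exacts [absurd h (by simp), (P_succ_ne_one k0) h.symm]), P_KW01, P_KW0e,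
      P_KWe1]
    have h : ∀ k : Fin m, (if (k.succ.succ : Fin (m + 2)) = 0 ∨
        (k.succ.succ : Fin (m + 2)) = k0.succ.succ then (0 : ℝ)
        else KW (n := m + 2) A E B C 0 k.succ.succ *
          KW (n := m + 2) A E B C k0.succ.succ k.succ.succ) = if k = k0 then 0 else A * C := by
      intro k
      rw [P_KW0e, P_KWee]
      simp only [Fin.succ_ne_zero, false_or, Fin.succ_inj]
    simp only [h, P_sum_one]
    ring
  have h1e : ∀ k0 : Fin m, 2 * (KW (n := m + 2) A E B C 1 k0.succ.succ ^ 2 +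
      ∑ p, if p = 1 ∨ p = k0.succ.succ then 0 else
        KW (n := m + 2) A E B C 1 p * KW (n := m + 2) A E B C k0.succ.succ p) =
      2 * (E ^ 2 + ((m : ℝ) - 1) * E * C + A * B) := by
    intro k0
    rw [P_sum2, if_pos (Or.inl rfl : (1 : Fin (m + 2)) = 1 ∨ (1 : Fin (m + 2)) = k0.succ.succ),
      if_neg (by
      rintro (h | h); exacts [absurd h (by simp), (Fin.succ_ne_zero _) h.symm]), P_KW10, P_KW1e,
      P_KWe0]
    have h : ∀ k : Fin m, (if (k.succ.succ : Fin (m + 2)) = 1 ∨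
        (k.succ.succ : Fin (m + 2)) = k0.succ.succ then (0 : ℝ)
        else KW (n := m + 2) A E B C 1 k.succ.succ *
          KW (n := m + 2) A E B C k0.succ.succ k.succ.succ) = if k = k0 then 0 else E * C := by
      intro k
      rw [P_KW1e, P_KWee]
      simp only [P_succ_ne_one, false_or, Fin.succ_inj]
    simp only [h, P_sum_one]
    ring
  have hee : ∀ k0 k1 : Fin m, k0 ≠ k1 →
      2 * (KW (n := m + 2) A E B C k0.succ.succ k1.succ.succ ^ 2 +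
      ∑ p, if p = k0.succ.succ ∨ p = k1.succ.succ then 0 else
        KW (n := m + 2) A E B C k0.succ.succ p * KW (n := m + 2) A E B C k1.succ.succ p) =
      2 * (((m : ℝ) - 1) * C ^ 2 + A ^ 2 + E ^ 2) := by
    intro k0 k1 hk
    rw [P_sum2, if_neg (by
      rintro (h | h); exacts [(Fin.succ_ne_zero _) h.symm, (Fin.succ_ne_zero _) h.symm]),
      if_neg (by
      rintro (h | h); exacts [(P_succ_ne_one k0) h.symm, (P_succ_ne_one k1) h.symm]),
      P_KWe0, P_KWe1, P_KWe0, P_KWe1, P_KWee]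
    have h : ∀ k : Fin m, (if (k.succ.succ : Fin (m + 2)) = k0.succ.succ ∨
        (k.succ.succ : Fin (m + 2)) = k1.succ.succ then (0 : ℝ)
        else KW (n := m + 2) A E B C k0.succ.succ k.succ.succ *
          KW (n := m + 2) A E B C k1.succ.succ k.succ.succ) =
        if k = k0 ∨ k = k1 then 0 else C * C := by
      intro k
      rw [P_KWee, P_KWee]
      simp only [Fin.succ_inj]
    simp only [h, P_sum_two hk]
    ring
  refine P_dg_congr fun i j hij => ?_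
  induction i using Fin.cases with
  | zero =>
    induction j using Fin.cases with
    | zero => exact absurd rfl hij
    | succ j =>
      induction j using Fin.cases with
      | zero => exact h01.trans (P_KW01 _ _ _ _).symm
      | succ j => exact (h0e j).trans (P_KW0e _ _ _ _ j).symm
  | succ i =>
    induction i using Fin.cases with
    | zero =>
      induction j using Fin.cases with
      | zero => exact ((hsym _ _).trans h01).trans (P_KW10 _ _ _ _).symm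
      | succ j =>
        induction j using Fin.cases with
        | zero => exact absurd rfl hij
        | succ j => exact (h1e j).trans (P_KW1e _ _ _ _ j).symm
    | succ i =>
      induction j using Fin.cases with
      | zero => exact ((hsym _ _).trans (h0e i)).trans (P_KWe0 _ _ _ _ i).symm
      | succ j =>
        induction j using Fin.cases with
        | zero => exact ((hsym _ _).trans (h1e i)).trans (P_KWe1 _ _ _ _ i).symm
        | succ j =>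
          exact (hee i j fun h => hij (by rw [h])).trans (P_KWee _ _ _ _ i j).symm

/-! ### permutations -/

/-- the matrix of a permutation -/
def P_mat {n : ℕ} (σ : Equiv.Perm (Fin n)) : Mt n := fun x y => if x = σ y then 1 else 0

theorem P_mat_orth {n : ℕ} (σ : Equiv.Perm (Fin n)) : (P_mat σ)ᵀ * P_mat σ = 1 := by
  ext y z
  rw [Matrix.mul_apply, Matrix.one_apply]
  simp only [Matrix.transpose_apply, P_mat, mul_ite, mul_one, mul_zero]
  rw [Finset.sum_ite_eq']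
  simp only [Finset.mem_univ, if_true]
  by_cases h : y = z
  · subst h; simp
  · rw [if_neg h, if_neg (fun h' => h (σ.injective h').symm)]

theorem P_rot_mat {n : ℕ} (R : T4 n) (σ : Equiv.Perm (Fin n)) :
    rot R (P_mat σ) = fun i j k l => R (σ i) (σ j) (σ k) (σ l) := by
  funext i j k l
  unfold rot
  simp only [P_mat, mul_ite, mul_one, mul_zero, Finset.sum_ite_eq', Finset.mem_univ, if_true]

theorem P_fnu_perm {n : ℕ} (R : T4 n) (σ : Equiv.Perm (Fin n)) (ν : ℝ) (a b : Fin n) :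
    fnu ν a b (fun i j k l => R (σ i) (σ j) (σ k) (σ l)) = fnu ν (σ a) (σ b) R := by
  have h1 : ∀ a : Fin n, ric4 a (fun i j k l => R (σ i) (σ j) (σ k) (σ l)) = ric4 (σ a) R := by
    intro a
    unfold ric4
    rw [LinearMap.sum_apply, LinearMap.sum_apply,
      ← Equiv.sum_comp σ (fun d => ev4 (σ a) d (σ a) d R)]
    rfl
  have h2 : scal4 (fun i j k l => R (σ i) (σ j) (σ k) (σ l)) = scal4 R := by
    unfold scal4
    rw [LinearMap.sum_apply, LinearMap.sum_apply, ← Equiv.sum_comp σ (fun a => ric4 a R)]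
    exact Finset.sum_congr rfl fun a _ => h1 a
  rw [P_fnu_def, P_fnu_def, h1, h1, h2]
  rfl

theorem P_exists_perm {n : ℕ} {a b i j : Fin n} (hab : a ≠ b) (hij : i ≠ j) :
    ∃ σ : Equiv.Perm (Fin n), σ a = i ∧ σ b = j := by
  refine ⟨Equiv.swap (Equiv.swap a i b) j * Equiv.swap a i, ?_, ?_⟩
  · rw [Equiv.Perm.mul_apply, Equiv.swap_apply_left]
    refine Equiv.swap_apply_of_ne_of_ne ?_ hij
    intro h
    have h1 : Equiv.swap a i a = Equiv.swap a i b := by rw [Equiv.swap_apply_left]; exact h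
    exact hab ((Equiv.swap a i).injective h1)
  · rw [Equiv.Perm.mul_apply, Equiv.swap_apply_left]

/-- the isotropic curvatures of coordinate frames -/
theorem P_iso {n : ℕ} {K : Mt n} (hp : PIC (dg K)) {a b c d : Fin n} (hab : a ≠ b) (hac : a ≠ c)
    (had : a ≠ d) (hbc : b ≠ c) (hbd : b ≠ d) (hcd : c ≠ d) :
    0 ≤ K a c + K a d + K b c + K b d := by
  have hv : Function.Injective (![a, b, c, d] : Fin 4 → Fin n) := by
    intro x y h
    fin_cases x <;> fin_cases y <;> simp_all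
  have h := hp 1 (by simp) ![a, b, c, d] hv
  rw [G_rot_one] at h
  have e : iso4 ![a, b, c, d] (dg K) = ev4 a c a c (dg K) + ev4 a d a d (dg K) +
      ev4 b c b c (dg K) + ev4 b d b d (dg K) - 2 * ev4 a b c d (dg K) := rfl
  rw [e, P_ev K hac, P_ev K had, P_ev K hbc, P_ev K hbd] at h
  have e2 : ev4 a b c d (dg K) = 0 := by
    show dg K a b c d = 0
    unfold dg
    rw [if_neg hac, if_neg had]
    ring
  rw [e2] at h
  linarith


/-! ## TARGET P (strict inequality for the tensors `dg (KW A E B C)`; `p = n - 2 ≥ 3`).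
`w0_alg` (real algebra; write `F1..F4` for the four forms in `h1..h4`, `σ = A + E`). Primes: `A' = A²+(p-1)AC+BE`,
`E' = E²+(p-1)EC+AB`, `B' = B²+pAE`, `C' = (p-1)C²+A²+E²`. By the symmetry `A ↔ E` (it exchanges `F2, F3`) assume `A ≤ E`.
Case F1 = 0: `B = -νσ-ν²C`, `F1' = ν³Cσ+ν⁴C²+pAE+(ν+ν²)(A²+E²)+ν(p-1)Cσ+ν²(p-1)C²`, and `F2 ≥ 0` gives
  `(p-ν)A+νE+ν(p-1-ν)C ≥ 0`. If `A,C ≥ 0` clear (all vanish only if `A=E=C=B=0`). If `A = -x < 0 ≤ C`: `x ≤ C`, `x ≤ E` and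
  `x ≤ x* = (ν/(p-ν))((p-1-ν)C+E)`; bounding `pxE` and `xC(ν³+ν(p-1))` with `x ≤ x*` gives
  `F1' ≥ (ν²/(p-ν)) [(p-1-ν)E² + (ν(p-ν)+1-(ν²+p-1)) CE + (ν²+p-1)C²]`, a positive definite form.
  If `C = -c < 0` (only `p = 3`): `A,E ≥ c`, use `AE ≥ cσ/2`, `A²+E² ≥ cσ`: `F1' ≥ cσ(3/2-ν+ν²-ν³)+ν⁴c²+2ν²c² > 0`.
Case F2 = 0 (with `A ≤ E`), `C ≥ 0`: `b = F1 = B+νσ+ν²C ≥ 0`, `e = σ ≥ 0`; then
  `A = -[νb+ν(1+ν)e+ν(1+ν)(p-1-ν)C]/((1+ν)(p-2ν))`, `E = e-A`, `B = b-νe-ν²C` and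
  `pF2' = A²[p+2ν(p-1)+ν²(p-2)]-ν(p-1)BC+BE(p+ν(p-1))+νB²+νpAE+νp(1+ν)E²+ν(1+2ν)AB` is, after multiplication by
  `((1+ν)(p-2ν))²`, a quadratic form in `b, e, C ≥ 0` all of whose coefficients (polynomials in `ν ∈ (0,1]` and `q = p-3 ≥ 0`) are
  positive. E.g. with `p = 3+q` the coefficient of `b²` is
  `2ν³q²-6ν⁴q+8ν⁵+4ν²q²-2ν³q-4ν⁴+2νq²+17ν²q-18ν³+12νq+15ν²+18ν`. `b=e=C=0` implies all zero.
  `C = -c < 0` (only `p = 3`) is impossible: `A, E ≥ c`, `F1 ≥ 0` imply `F2 > 0`.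
Case F3 = 0, `A ≤ E`: `F3-F2 = (E-A)(1+ν(p-2)/p-2ν²/p)` with positive factor, so `F2 ≥ 0` gives `A = E` and `F2 = 0`.
Case F4 = 0: if `C ≥ 0` insert `B ≥ -νσ-ν²C` (and for `p = 3` also `B+σ ≥ -C`): forces all zero. If `C = -c < 0`, `p = 3`: `A, E ≥ c`,
  `b3 = A+E+B+C ≥ 0`, `3F4' = (3+2ν)C'+(2ν+ν²)(A'+E')+ν²B'` with `C' = 2c²+A²+E²`,
  `A'+E' = -2AE-cσ+σb3` and `B' = B²+3AE`; hence `3F4' ≥ (6+ν²)AE-(2ν+ν²)cσ > 0` as `AE ≥ cσ/2`.
All of this was also checked numerically. `w0_alg` has hypotheses `hAE..` which are the coordinate-frame cases of `PIC`.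
`w0_strict`: by `fnu_dg`, `fnu` of a rotated `dg K` is an average of the values at coordinate planes with non-negative weights; the
hypothesis (for permutation matrices) makes all coordinate values `≥ 0`, so if the average vanishes those with non-zero weight vanish;
`QQ (rot W O) = rot (QQ W) O` (`G_QQ_rot`), `QQ W = dg (KW (2A') (2E') (2B') (2C'))`, and by `w0_alg` `fnu` of it is positive at each
such coordinate plane. The values `fnu ν i j (dg (KW A E B C))` are `F1` for `{0,1}`, `F2` for `{0,e}`, `F3` for `{1,e}`, `F4` for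
`{e,e'}`. `PIC` for coordinate frames (add the two values for `e_c ↦ -e_c`, or note `R_{0123}`-type components vanish):
`K_ab+K_ad+K_cb+K_cd ≥ 0` for distinct `a,b,c,d`. -/
theorem w0_alg (p : ℝ) (hp : p = 3 ∨ 4 ≤ p) {ν : ℝ} (hν : 0 < ν) (hν1 : ν ≤ 1) (A E B C : ℝ)
    (hAE : 0 ≤ A + E) (hAC : 0 ≤ A + C) (hEC : 0 ≤ E + C) (hB : 0 ≤ A + E + B + C)
    (hC : 4 ≤ p → 0 ≤ C)
    (h1 : 0 ≤ B + ν * (A + E) + ν ^ 2 * C)
    (h2 : 0 ≤ A + (ν / p) * ((p - 1) * A + B + E + (p - 1) * C) + (ν ^ 2 / p) * (2 * E + (p - 2) * C))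
    (h3 : 0 ≤ E + (ν / p) * ((p - 1) * E + B + A + (p - 1) * C) + (ν ^ 2 / p) * (2 * A + (p - 2) * C))
    (h4 : 0 ≤ C + (ν / p) * (2 * A + 2 * E + 2 * (p - 2) * C)
      + (ν ^ 2 / (p * (p - 1))) * (2 * B + 2 * (p - 2) * (A + E) + (p - 2) * (p - 3) * C))
    (hne : ¬(A = 0 ∧ E = 0 ∧ B = 0 ∧ C = 0)) (A' E' B' C' : ℝ)
    (hA' : A' = A ^ 2 + (p - 1) * A * C + B * E) (hE' : E' = E ^ 2 + (p - 1) * E * C + A * B)
    (hB' : B' = B ^ 2 + p * A * E) (hC' : C' = (p - 1) * C ^ 2 + A ^ 2 + E ^ 2) :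
    (B + ν * (A + E) + ν ^ 2 * C = 0 → 0 < B' + ν * (A' + E') + ν ^ 2 * C') ∧
    (A + (ν / p) * ((p - 1) * A + B + E + (p - 1) * C) + (ν ^ 2 / p) * (2 * E + (p - 2) * C) = 0 →
      0 < A' + (ν / p) * ((p - 1) * A' + B' + E' + (p - 1) * C')
        + (ν ^ 2 / p) * (2 * E' + (p - 2) * C')) ∧
    (E + (ν / p) * ((p - 1) * E + B + A + (p - 1) * C) + (ν ^ 2 / p) * (2 * A + (p - 2) * C) = 0 →
      0 < E' + (ν / p) * ((p - 1) * E' + B' + A' + (p - 1) * C')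
        + (ν ^ 2 / p) * (2 * A' + (p - 2) * C')) ∧
    (C + (ν / p) * (2 * A + 2 * E + 2 * (p - 2) * C)
        + (ν ^ 2 / (p * (p - 1))) * (2 * B + 2 * (p - 2) * (A + E) + (p - 2) * (p - 3) * C) = 0 →
      0 < C' + (ν / p) * (2 * A' + 2 * E' + 2 * (p - 2) * C')
        + (ν ^ 2 / (p * (p - 1))) * (2 * B' + 2 * (p - 2) * (A' + E') + (p - 2) * (p - 3) * C')) := by
  have hp3 : 3 ≤ p := by rcases hp with h | h <;> linarith
  have hp0 : p ≠ 0 := by linarith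
  have hp1 : p - 1 ≠ 0 := by linarith
  have hpp : 0 < 1 / p := by positivity
  have hpq : 0 < 1 / (p * (p - 1)) := by
    have : 0 < p - 1 := by linarith
    positivity
  have t2 : ∀ A E B C : ℝ, A + (ν / p) * ((p - 1) * A + B + E + (p - 1) * C) +
      (ν ^ 2 / p) * (2 * E + (p - 2) * C) =
      (1 / p) * (p * A + ν * ((p - 1) * A + B + E + (p - 1) * C) +
        ν ^ 2 * (2 * E + (p - 2) * C)) := by
    intro A E B C; field_simp
  have t4 : ∀ A E B C : ℝ, C + (ν / p) * (2 * A + 2 * E + 2 * (p - 2) * C)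
      + (ν ^ 2 / (p * (p - 1))) * (2 * B + 2 * (p - 2) * (A + E) + (p - 2) * (p - 3) * C) =
      (1 / (p * (p - 1))) * (p * (p - 1) * C + ν * (p - 1) * (2 * A + 2 * E + 2 * (p - 2) * C)
        + ν ^ 2 * (2 * B + 2 * (p - 2) * (A + E) + (p - 2) * (p - 3) * C)) := by
    intro A E B C; field_simp
  rw [t2] at h2 h3
  rw [t2, t2, t2, t2, t4, t4]
  simp only [mul_eq_zero, hpp.ne', hpq.ne', false_or, mul_pos_iff_of_pos_left hpp,
    mul_pos_iff_of_pos_left hpq]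
  rw [mul_nonneg_iff_of_pos_left hpp] at h2 h3
  rcases le_total A E with hle | hle
  · exact P_all hp hν hν1 hle hAE hAC hEC hB hC h1 h2 hne hA' hE' hB' hC'
  · have h5 := P_all hp hν hν1 hle (by linarith) hEC hAC (by linarith) hC (by linarith) h3
      (fun h => hne ⟨h.2.1, h.1, h.2.2.1, h.2.2.2⟩) (A' := E') (E' := A') (B' := B') (C' := C')
      (by rw [hE']; ring) (by rw [hA']; ring) (by rw [hB']; ring) (by rw [hC']; ring)
    obtain ⟨g1, g2, g3, g4⟩ := h5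
    refine ⟨fun h => ?_, g3, g2, fun h => ?_⟩
    · have := g1 (by linarith)
      linarith
    · have := g4 (by linear_combination h)
      linarith


theorem w0_strict {n : ℕ} (hn : 5 ≤ n) {A E B C : ℝ} (hne : (dg (KW A E B C) : T4 n) ≠ 0)
    (hp : PIC (dg (KW A E B C) : T4 n)) {ν : ℝ} (hν : 0 < ν) (hν1 : ν ≤ 1) {a b : Fin n} (hab : a ≠ b)
    (hf : ∀ O : Mt n, Oᵀ * O = 1 → 0 ≤ fnu ν a b (rot (dg (KW A E B C)) O)) {O : Mt n}
    (hO : Oᵀ * O = 1) (h0 : fnu ν a b (rot (dg (KW A E B C)) O) = 0) :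
    0 < fnu ν a b (QQ (rot (dg (KW A E B C)) O)) := by
  obtain ⟨m, rfl⟩ : ∃ m, n = m + 2 := ⟨n - 2, by omega⟩
  have hm : 3 ≤ m := by omega
  have hm' : (3 : ℝ) ≤ m := by exact_mod_cast hm
  -- coordinate values are nonnegative
  have hcoord : ∀ i j : Fin (m + 2), i ≠ j → 0 ≤ fnu ν i j (dg (KW (n := m + 2) A E B C)) := by
    intro i j hij
    obtain ⟨σ, h1, h2⟩ := P_exists_perm hab hij
    have h3 := hf (P_mat σ) (P_mat_orth σ)
    rw [P_rot_mat, P_fnu_perm, h1, h2] at h3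
    exact h3
  -- indices
  let k0 : Fin m := ⟨0, by omega⟩
  let k1 : Fin m := ⟨1, by omega⟩
  let k2 : Fin m := ⟨2, by omega⟩
  have hk01 : (k0.succ.succ : Fin (m + 2)) ≠ k1.succ.succ := by simp [k0, k1]
  have hk02 : (k0.succ.succ : Fin (m + 2)) ≠ k2.succ.succ := by simp [k0, k2]
  have hk12 : (k1.succ.succ : Fin (m + 2)) ≠ k2.succ.succ := by simp [k1, k2]
  have hz1 : (0 : Fin (m + 2)) ≠ 1 := by simp
  have hze : ∀ k : Fin m, (0 : Fin (m + 2)) ≠ k.succ.succ := fun k => (Fin.succ_ne_zero _).symm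
  have hoe : ∀ k : Fin m, (1 : Fin (m + 2)) ≠ k.succ.succ := fun k => (P_succ_ne_one k).symm
  have hAE : 0 ≤ A + E := by
    have := P_iso hp hz1 (hze k0) (hze k1) (hoe k0) (hoe k1) hk01
    rw [P_KW0e, P_KW0e, P_KW1e, P_KW1e] at this
    linarith
  have hAC : 0 ≤ A + C := by
    have := P_iso hp (hze k0) (hze k1) (hze k2) hk01 hk02 hk12
    rw [P_KW0e, P_KW0e, P_KWee, P_KWee] at this
    linarith
  have hEC : 0 ≤ E + C := by
    have := P_iso hp (hoe k0) (hoe k1) (hoe k2) hk01 hk02 hk12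
    rw [P_KW1e, P_KW1e, P_KWee, P_KWee] at this
    linarith
  have hB : 0 ≤ A + E + B + C := by
    have := P_iso hp (hze k0) hz1 (hze k1) (hoe k0).symm hk01 (hoe k1)
    rw [P_KW01, P_KW0e, P_KWe1, P_KWee] at this
    linarith
  have hC : 4 ≤ (m : ℝ) → 0 ≤ C := by
    intro h4
    have h4' : 4 ≤ m := by exact_mod_cast h4
    let k3 : Fin m := ⟨3, by omega⟩
    have hk03 : (k0.succ.succ : Fin (m + 2)) ≠ k3.succ.succ := by simp [k0, k3]
    have hk13 : (k1.succ.succ : Fin (m + 2)) ≠ k3.succ.succ := by simp [k1, k3]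
    have hk23 : (k2.succ.succ : Fin (m + 2)) ≠ k3.succ.succ := by simp [k2, k3]
    have := P_iso hp hk01 hk02 hk03 hk12 hk13 hk23
    rw [P_KWee, P_KWee, P_KWee, P_KWee] at this
    linarith
  have h1 := hcoord 0 1 hz1
  rw [P_val01 hm] at h1
  have h2 := hcoord 0 k0.succ.succ (hze k0)
  rw [P_val0e hm] at h2
  have h3 := hcoord 1 k0.succ.succ (hoe k0)
  rw [P_val1e hm] at h3
  have h4 := hcoord k0.succ.succ k1.succ.succ hk01
  rw [P_valee hm ν A E B C (show k0 ≠ k1 by simp [k0, k1])] at h4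
  have hne' : ¬(A = 0 ∧ E = 0 ∧ B = 0 ∧ C = 0) := by
    rintro ⟨rfl, rfl, rfl, rfl⟩
    apply hne
    funext i j k l
    show dg (KW 0 0 0 0) i j k l = 0
    unfold dg KW
    split_ifs <;> simp
  have hpm : (m : ℝ) = 3 ∨ 4 ≤ (m : ℝ) := by
    rcases (show m = 3 ∨ 4 ≤ m by omega) with h | h
    · left; exact_mod_cast h
    · right; exact_mod_cast h
  obtain ⟨c1, c2, c3, c4⟩ := w0_alg (m : ℝ) hpm hν hν1 A E B C hAE hAC hEC hB hC h1 h2 h3 h4 hne'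
    _ _ _ _ rfl rfl rfl rfl
  -- positivity at the zeros
  have hpos : ∀ i j : Fin (m + 2), i ≠ j → fnu ν i j (dg (KW (n := m + 2) A E B C)) = 0 →
      0 < fnu ν i j (QQ (dg (KW (n := m + 2) A E B C))) := by
    have s01 : fnu ν 0 1 (dg (KW (n := m + 2) A E B C)) = 0 →
        0 < fnu ν 0 1 (QQ (dg (KW (n := m + 2) A E B C))) := by
      intro h
      rw [P_val01 hm] at h
      rw [P_QQ, P_val01 hm]
      linarith [c1 h]
    have s0e : ∀ k : Fin m, fnu ν 0 k.succ.succ (dg (KW (n := m + 2) A E B C)) = 0 →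
        0 < fnu ν 0 k.succ.succ (QQ (dg (KW (n := m + 2) A E B C))) := by
      intro k h
      rw [P_val0e hm] at h
      rw [P_QQ, P_val0e hm]
      have := c2 h
      linarith
    have s1e : ∀ k : Fin m, fnu ν 1 k.succ.succ (dg (KW (n := m + 2) A E B C)) = 0 →
        0 < fnu ν 1 k.succ.succ (QQ (dg (KW (n := m + 2) A E B C))) := by
      intro k h
      rw [P_val1e hm] at h
      rw [P_QQ, P_val1e hm]
      have := c3 h
      linarith
    have see : ∀ k l : Fin m, k ≠ l →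
        fnu ν k.succ.succ l.succ.succ (dg (KW (n := m + 2) A E B C)) = 0 →
        0 < fnu ν k.succ.succ l.succ.succ (QQ (dg (KW (n := m + 2) A E B C))) := by
      intro k l hkl h
      rw [P_valee hm _ _ _ _ _ hkl] at h
      rw [P_QQ, P_valee hm _ _ _ _ _ hkl]
      have := c4 h
      linarith
    have hsw : ∀ i j : Fin (m + 2), i ≠ j →
        (fnu ν i j (dg (KW (n := m + 2) A E B C)) = 0 →
          0 < fnu ν i j (QQ (dg (KW (n := m + 2) A E B C)))) →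
        (fnu ν j i (dg (KW (n := m + 2) A E B C)) = 0 →
          0 < fnu ν j i (QQ (dg (KW (n := m + 2) A E B C)))) := by
      intro i j hij h h'
      rw [P_fnu_symm (P_KW_symm A E B C) ν hij.symm] at h'
      have := h h'
      rw [P_QQ] at this ⊢
      rwa [P_fnu_symm (P_KW_symm _ _ _ _) ν hij.symm]
    intro i j hij
    induction i using Fin.cases with
    | zero =>
      induction j using Fin.cases with
      | zero => exact absurd rfl hij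
      | succ j =>
        induction j using Fin.cases with
        | zero => exact s01
        | succ j => exact s0e j
    | succ i =>
      induction i using Fin.cases with
      | zero =>
        induction j using Fin.cases with
        | zero => exact hsw _ _ hz1 s01
        | succ j =>
          induction j using Fin.cases with
          | zero => exact absurd rfl hij
          | succ j => exact s1e j
      | succ i =>
        induction j using Fin.cases with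
        | zero => exact hsw _ _ (hze i) (s0e i)
        | succ j =>
          induction j using Fin.cases with
          | zero => exact hsw _ _ (hoe i) (s1e i)
          | succ j => exact see i j fun h => hij (by rw [h])
  -- averaging
  obtain ⟨f1, f2⟩ := fnu_dg _ (P_KW_symm (n := m + 2) A E B C) ν hab hO
  rw [h0] at f1
  have hOO : O * Oᵀ = 1 := mul_eq_one_comm.mp hO
  rw [G_QQ_rot _ _ hOO]
  have hQ := hpos
  rw [P_QQ] at hQ ⊢
  obtain ⟨g1, -⟩ := fnu_dg _ (P_KW_symm (n := m + 2)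
    (2 * (A ^ 2 + ((m : ℝ) - 1) * A * C + B * E)) (2 * (E ^ 2 + ((m : ℝ) - 1) * E * C + A * B))
      (2 * (B ^ 2 + m * A * E)) (2 * (((m : ℝ) - 1) * C ^ 2 + A ^ 2 + E ^ 2))) ν hab hO
  rw [g1]
  have hterm : ∀ i j : Fin (m + 2), 0 ≤ (if i = j then 0 else
      (O i a * O j b - O j a * O i b) ^ 2 * fnu ν i j (dg (KW (n := m + 2) A E B C))) := by
    intro i j
    split_ifs with h
    · exact le_rfl
    · exact mul_nonneg (sq_nonneg _) (hcoord i j h)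
  have hzero : ∀ i j : Fin (m + 2), (if i = j then 0 else
      (O i a * O j b - O j a * O i b) ^ 2 * fnu ν i j (dg (KW (n := m + 2) A E B C))) = 0 := by
    have h5 : ∑ i : Fin (m + 2), ∑ j : Fin (m + 2), (if i = j then 0 else
      (O i a * O j b - O j a * O i b) ^ 2 * fnu ν i j (dg (KW (n := m + 2) A E B C))) = 0 := by
      linarith
    have h6 := (Finset.sum_eq_zero_iff_of_nonneg fun i _ =>
      Finset.sum_nonneg fun j _ => hterm i j).mp h5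
    intro i j
    exact (Finset.sum_eq_zero_iff_of_nonneg fun j _ => hterm i j).mp (h6 i (Finset.mem_univ i)) j
      (Finset.mem_univ j)
  have hval : ∀ i j : Fin (m + 2), i ≠ j → O i a * O j b - O j a * O i b ≠ 0 →
      0 < (O i a * O j b - O j a * O i b) ^ 2 * fnu ν i j (dg (KW (n := m + 2)
      (2 * (A ^ 2 + ((m : ℝ) - 1) * A * C + B * E)) (2 * (E ^ 2 + ((m : ℝ) - 1) * E * C + A * B))
      (2 * (B ^ 2 + m * A * E)) (2 * (((m : ℝ) - 1) * C ^ 2 + A ^ 2 + E ^ 2)))) := by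
    intro i j hij hW
    have h5 := hzero i j
    rw [if_neg hij] at h5
    have hW2 : 0 < (O i a * O j b - O j a * O i b) ^ 2 := by positivity
    rcases mul_eq_zero.mp h5 with h6 | h6
    · exact absurd h6 hW2.ne'
    · have h7 := hQ i j hij h6
      exact mul_pos hW2 h7
  refine mul_pos (by norm_num) ?_
  have hnn : ∀ i j : Fin (m + 2), 0 ≤ (if i = j then 0 else
      (O i a * O j b - O j a * O i b) ^ 2 * fnu ν i j (dg (KW (n := m + 2)
      (2 * (A ^ 2 + ((m : ℝ) - 1) * A * C + B * E)) (2 * (E ^ 2 + ((m : ℝ) - 1) * E * C + A * B))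
      (2 * (B ^ 2 + m * A * E)) (2 * (((m : ℝ) - 1) * C ^ 2 + A ^ 2 + E ^ 2))))) := by
    intro i j
    split_ifs with h
    · exact le_rfl
    · by_cases hW : O i a * O j b - O j a * O i b = 0
      · rw [hW]; simp
      · exact (hval i j h hW).le
  obtain ⟨i, -, hi⟩ := Finset.exists_ne_zero_of_sum_ne_zero (s := (Finset.univ : Finset (Fin (m + 2))))
    (f := fun i => ∑ j, (O i a * O j b - O j a * O i b) ^ 2) (by rw [f2]; norm_num)
  obtain ⟨j, -, hj⟩ := Finset.exists_ne_zero_of_sum_ne_zero hi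
  have hW : O i a * O j b - O j a * O i b ≠ 0 := fun h => hj (by rw [h]; ring)
  have hij : i ≠ j := by
    rintro rfl
    exact hW (by ring)
  refine Finset.sum_pos' (fun i _ => Finset.sum_nonneg fun j _ => hnn i j) ⟨i, Finset.mem_univ i, ?_⟩
  refine Finset.sum_pos' (fun j _ => hnn i j) ⟨j, Finset.mem_univ j, ?_⟩
  rw [if_neg hij]
  exact hval i j hij hW


end Pool.Agent.Helper696_RF
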