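import Mathlib
import Pool.Agent.Helper696_RF.Alg

/-!
# Pure curvature tensors: definitions
-/

set_option autoImplicit false
open scoped ContDiff Manifold Topology Matrix
open Set Filter

namespace Pool.Agent.Helper696_RF

open Pool.Agent.QTot Pool.Agent.H858R2

/-- the reaction term of the Ricci flow for the sectional curvatures `K i j` of a pure curvature tensor -/
def KQ {n : ℕ} (K : Mt n) : Mt n := fun i j => if i = j then 0 else 2 * K i j ^ 2 + 2 * ∑ p, K i p * K j p

/-- `∑_p K i p` -/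
def kr {n : ℕ} (K : Mt n) (i : Fin n) : ℝ := ∑ p, K i p

/-- `∑_{i,p} K i p` -/
def ks {n : ℕ} (K : Mt n) : ℝ := ∑ i, kr K i

/-- non-negative isotropic curvature for the coordinate four-frames -/
def CPIC {n : ℕ} (K : Mt n) : Prop :=
  ∀ a b c d : Fin n, a ≠ b → a ≠ c → a ≠ d → b ≠ c → b ≠ d → c ≠ d → 0 ≤ K a b + K a d + K c b + K c d

/-- `R_acac + R_bcbc + α (Ric_aa + Ric_bb) + 2 γ scal` -/
noncomputable def phi {n : ℕ} (α γ : ℝ) (a b c : Fin n) : T4 n →ₗ[ℝ] ℝ :=
  ev4 a c a c + ev4 b c b c + α • (ric4 a + ric4 b) + (2 * γ) • scal4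

/-- `R_abab + β scal` -/
noncomputable def psi {n : ℕ} (β : ℝ) (a b : Fin n) : T4 n →ₗ[ℝ] ℝ := ev4 a b a b + β • scal4

section
variable {n : ℕ} {M : Type} [TopologicalSpace M] [ChartedSpace (En n) M]

/-- Pure curvature: at every point there is an orthonormal frame (the columns of `F`) in which the only non-zero
components of the curvature tensor are those of the form `R_ijij` and `R_ijji`; equivalently the curvature operator
is diagonal in the basis `e_i ∧ e_j` of bivectors. -/
def PureCurv (g : Metric n M) : Prop :=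
  ∀ e ∈ atlas (En n) M, ∀ y ∈ ctarget e, ∃ F : Mt n, Fᵀ * g.G e y * F = 1 ∧
    ∀ i j k l : Fin n, ¬ ((i = k ∧ j = l) ∨ (i = l ∧ j = k)) → rot (Rc (g.G e) y) F i j k l = 0

end

end Pool.Agent.Helper696_RF
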