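import Mathlib
import Pool.Agent.Helper696_RF.Alg
import Pool.Agent.Helper696_RF.G
import Pool.Agent.Helper696_RF.H
import Pool.Agent.Helper696_RF.I
import Pool.Agent.Helper696_RF.K
import Pool.Agent.Helper696_RF.L
import Pool.Agent.Helper696_RF.M
import Pool.Agent.Helper696_RF.N
import Pool.Agent.Helper696_RF.O
import Pool.Agent.Helper696_RF.P

/-!
# Assembly: blow-up limits of plane-symmetric Ricci flows
-/

set_option autoImplicit false
open scoped ContDiff Manifold Topology Matrix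
open Set Filter

namespace Pool.Agent.Helper696_RF

open Pool.Agent.QTot Pool.Agent.H858R2

theorem KW_symm {n : ℕ} (A E B C : ℝ) (i j : Fin n) : KW A E B C i j = KW A E B C j i := by
  unfold KW
  by_cases hi : i.val < 2 <;> by_cases hj : j.val < 2 <;> simp [hi, hj]

/-- the class of curvature tensors -/
def CW (n : ℕ) : Set (T4 n) :=
  {R | ∃ O : Mt n, Oᵀ * O = 1 ∧ ∃ A E B C : ℝ, rot R O = dg (KW A E B C)}

theorem orth_T {n : ℕ} {O : Mt n} (hO : Oᵀ * O = 1) : O * Oᵀ = 1 := mul_eq_one_comm.mp hO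

theorem rot_rotT {n : ℕ} {O : Mt n} (hO : Oᵀ * O = 1) (R : T4 n) : rot (rot R O) Oᵀ = R := by
  rw [G_rot_mul, orth_T hO, G_rot_one]

theorem CW_alg {n : ℕ} {R : T4 n} (h : R ∈ CW n) : IsAlg R := by
  obtain ⟨O, hO, A, E, B, C, h⟩ := h
  have h1 := (isAlg_dg (KW A E B C : Mt n) (KW_symm A E B C)).rot Oᵀ
  rwa [← h, rot_rotT hO] at h1

theorem dg_smul {n : ℕ} (c : ℝ) (K : Mt n) : dg (c • K) = c • dg K := by
  funext i j k l
  simp only [dg, Pi.smul_apply, smul_eq_mul, Matrix.smul_apply]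
  ring

theorem CW_cone {n : ℕ} {R : T4 n} (h : R ∈ CW n) (c : ℝ) : c • R ∈ CW n := by
  obtain ⟨O, hO, A, E, B, C, h⟩ := h
  refine ⟨O, hO, c * A, c * E, c * B, c * C, ?_⟩
  rw [G_rot_smul, h, ← dg_smul]
  congr 1
  funext i j
  simp only [KW, Matrix.smul_apply, smul_eq_mul]
  split_ifs <;> rfl

theorem CW_rot {n : ℕ} {R : T4 n} (h : R ∈ CW n) {O' : Mt n} (hO' : O'ᵀ * O' = 1) : rot R O' ∈ CW n := by
  obtain ⟨O, hO, A, E, B, C, h⟩ := h
  refine ⟨O'ᵀ * O, ?_, A, E, B, C, ?_⟩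
  · rw [Matrix.transpose_mul, Matrix.transpose_transpose, Matrix.mul_assoc, ← Matrix.mul_assoc O',
      orth_T hO', Matrix.one_mul, hO]
  · rw [G_rot_mul, ← Matrix.mul_assoc, orth_T hO', Matrix.one_mul, h]

/-- the matrices with orthonormal columns form a compact set -/
theorem isCompact_orth (n : ℕ) : IsCompact {O : Mt n | Oᵀ * O = 1} := by
  have hcl : IsClosed {O : Mt n | Oᵀ * O = 1} :=
    isClosed_eq ((Continuous.matrix_transpose continuous_id).matrix_mul continuous_id)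
      continuous_const
  have hsub : {O : Mt n | Oᵀ * O = 1} ⊆ Set.pi univ fun _ : Fin n => Set.pi univ fun _ : Fin n =>
      Icc (-1 : ℝ) 1 := by
    intro O hO
    have hO' : Oᵀ * O = 1 := hO
    intro i _ j _
    have h1 : ∑ k, O k j * O k j = 1 := by
      have := congrFun (congrFun hO' j) j
      rw [Matrix.mul_apply, Matrix.one_apply_eq] at this
      exact this
    have h2 : O i j * O i j ≤ 1 := by
      rw [← h1]
      exact Finset.single_le_sum (f := fun k => O k j * O k j) (fun k _ => mul_self_nonneg _)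
        (Finset.mem_univ i)
    constructor <;> nlinarith [mul_self_nonneg (O i j - 1), mul_self_nonneg (O i j + 1)]
  exact IsCompact.of_isClosed_subset
    (isCompact_univ_pi fun _ => isCompact_univ_pi fun _ => isCompact_Icc) hcl hsub

theorem CW_closed {n : ℕ} (hn : 5 ≤ n) : IsClosed (CW n) := by
  have i0 : Fin n := ⟨0, by omega⟩
  let e0 : Fin n := ⟨0, by omega⟩
  let e1 : Fin n := ⟨1, by omega⟩
  let e2 : Fin n := ⟨2, by omega⟩
  let e3 : Fin n := ⟨3, by omega⟩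
  have hS : IsClosed {W : T4 n | W = dg (KW (W e0 e2 e0 e2) (W e1 e2 e1 e2) (W e0 e1 e0 e1)
      (W e2 e3 e2 e3))} := by
    refine isClosed_eq continuous_id ?_
    refine continuous_pi fun i => continuous_pi fun j => continuous_pi fun k =>
      continuous_pi fun l => ?_
    have hev : ∀ a b c d : Fin n, Continuous fun W : T4 n => W a b c d := fun a b c d => by
      fun_prop
    unfold dg
    refine Continuous.mul ?_ continuous_const
    unfold KW
    split_ifs <;> exact hev _ _ _ _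
  have hS' : ∀ W : T4 n, (∃ A E B C : ℝ, W = dg (KW A E B C)) ↔
      W = dg (KW (W e0 e2 e0 e2) (W e1 e2 e1 e2) (W e0 e1 e0 e1) (W e2 e3 e2 e3)) := by
    intro W
    constructor
    · rintro ⟨A, E, B, C, rfl⟩
      congr 1
      have a1 : e0 ≠ e2 := by simp [e0, e2, Fin.ext_iff]
      have a2 : e1 ≠ e2 := by simp [e1, e2, Fin.ext_iff]
      have a3 : e0 ≠ e1 := by simp [e0, e1, Fin.ext_iff]
      have a4 : e2 ≠ e3 := by simp [e2, e3, Fin.ext_iff]
      congr 1 <;> simp [dg, KW, a1, a2, a3, a4, e0, e1, e2, e3]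
    · intro h
      exact ⟨_, _, _, _, h⟩
  rw [isClosed_iff_ultrafilter]
  intro R u hu hs
  -- choose the rotations
  have hch : ∀ R' : T4 n, ∃ O : Mt n, R' ∈ CW n → Oᵀ * O = 1 ∧ ∃ A E B C : ℝ,
      rot R' O = dg (KW A E B C) := by
    intro R'
    by_cases h : R' ∈ CW n
    · obtain ⟨O, hO, h'⟩ := h
      exact ⟨O, fun _ => ⟨hO, h'⟩⟩
    · exact ⟨1, fun h' => absurd h' h⟩
  choose f hf using hch
  obtain ⟨O, hO, hlim⟩ := (isCompact_orth n).ultrafilter_le_nhds (u.map f) (by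
    rw [le_principal_iff]
    show f ⁻¹' _ ∈ u
    filter_upwards [hs] with R' h' using (hf R' h').1)
  have hOl : Tendsto f u (𝓝 O) := hlim
  have hRl : Tendsto (fun R' : T4 n => R') u (𝓝 R) := hu
  have hrl : Tendsto (fun R' => rot R' (f R')) u (𝓝 (rot R O)) := MaxP.tendsto_rot hRl hOl
  refine ⟨O, hO, (hS' _).2 ?_⟩
  refine hS.mem_of_tendsto hrl ?_
  filter_upwards [hs] with R' h'
  exact (hS' _).1 (hf R' h').2

/-- the dependence of `fnu` on the parameter -/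
theorem fnu_diff {n : ℕ} (hn : 5 ≤ n) (a b : Fin n) : ∃ C : ℝ, ∀ ν δ : ℝ, 0 ≤ ν → ν ≤ 1 → 0 ≤ δ → δ ≤ 1 →
    ∀ R : T4 n, |fnu (ν + δ) a b R - fnu ν a b R| ≤ C * δ * ‖R‖ := by
  obtain ⟨X, hX⟩ : ∃ X : T4 n →ₗ[ℝ] ℝ, X = ric4 a + ric4 b - (2 : ℝ) • ev4 a b a b := ⟨_, rfl⟩
  obtain ⟨Y, hY⟩ : ∃ Y : T4 n →ₗ[ℝ] ℝ, Y = scal4 - (2 : ℝ) • ric4 a - (2 : ℝ) • ric4 b
    + (2 : ℝ) • ev4 a b a b := ⟨_, rfl⟩
  have hb : ∀ Z : T4 n →ₗ[ℝ] ℝ, ∃ c : ℝ, 0 ≤ c ∧ ∀ R : T4 n, |Z R| ≤ c * ‖R‖ := by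
    intro Z
    refine ⟨‖LinearMap.toContinuousLinearMap Z‖, norm_nonneg _, fun R => ?_⟩
    have := (LinearMap.toContinuousLinearMap Z).le_opNorm R
    simpa [Real.norm_eq_abs] using this
  obtain ⟨cX, hcX, hX'⟩ := hb X
  obtain ⟨cY, hcY, hY'⟩ := hb Y
  have hn2 : (0 : ℝ) < (n : ℝ) - 2 := by
    have : (5 : ℝ) ≤ n := by exact_mod_cast hn
    linarith
  have hn3 : (0 : ℝ) < (n : ℝ) - 3 := by
    have : (5 : ℝ) ≤ n := by exact_mod_cast hn
    linarith
  refine ⟨cX / ((n : ℝ) - 2) + 3 * cY / (((n : ℝ) - 2) * ((n : ℝ) - 3)), ?_⟩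
  intro ν δ h0 h1 hd hd1 R
  have e1 : fnu (ν + δ) a b R - fnu ν a b R = δ / ((n : ℝ) - 2) * X R
      + (δ * (2 * ν + δ)) / (((n : ℝ) - 2) * ((n : ℝ) - 3)) * Y R := by
    simp only [fnu, hX, hY, LinearMap.add_apply, LinearMap.sub_apply, LinearMap.smul_apply,
      smul_eq_mul]
    field_simp
    ring
  rw [e1]
  have hR := norm_nonneg R
  have t1 : |δ / ((n : ℝ) - 2) * X R| ≤ δ / ((n : ℝ) - 2) * (cX * ‖R‖) := by
    rw [abs_mul, abs_of_nonneg (by positivity)]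
    exact mul_le_mul_of_nonneg_left (hX' R) (by positivity)
  have t2 : |(δ * (2 * ν + δ)) / (((n : ℝ) - 2) * ((n : ℝ) - 3)) * Y R| ≤
      (δ * 3) / (((n : ℝ) - 2) * ((n : ℝ) - 3)) * (cY * ‖R‖) := by
    rw [abs_mul, abs_of_nonneg (by positivity)]
    refine mul_le_mul ?_ (hY' R) (abs_nonneg _) (by positivity)
    have : 2 * ν + δ ≤ 3 := by linarith
    gcongr
  calc _ ≤ _ := abs_add_le _ _
    _ ≤ _ := add_le_add t1 t2
    _ = _ := by ring

theorem sym_pinch {n : ℕ} (hn : 5 ≤ n) {M : Type} [TopologicalSpace M] [ChartedSpace (En n) M]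
    [IsManifold (𝓡 n) ∞ M] [CompactSpace M] {T : ℝ} {g : ℝ → Metric n M} (hg : IsRicciFlow T g)
    (h0 : WPIC (g 0)) (hc : ∀ t ∈ Ico 0 T, ∀ e ∈ atlas (En n) M, ∀ y ∈ ctarget e, ∀ F : Mt n,
      Fᵀ * (g t).G e y * F = 1 → rot (Rc ((g t).G e) y) F ∈ CW n)
    {ν : ℝ} (hν : 0 < ν) (hν1 : ν ≤ 1) {a b : Fin n} (hab : a ≠ b) :
    ∃ K : ℝ, ∀ t ∈ Ico 0 T, ∀ e ∈ atlas (En n) M, ∀ y ∈ ctarget e, ∀ F : Mt n,
      Fᵀ * (g t).G e y * F = 1 → -K ≤ fnu ν a b (rot (Rc ((g t).G e) y) F) := by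
  obtain ⟨C, hC⟩ := fnu_diff hn a b
  have hP := wpic_preserved hg h0
  obtain ⟨K, hK⟩ := pinch hg (CW n) (CW_closed hn) (fun R hR c _ => CW_cone hR c)
    (fun R hR O hO => CW_rot hR hO)
    (fun t ht e he y hy F hF => ⟨hc t ht e he y hy F hF, hP t ht e he y hy F hF⟩)
    (Θ := Icc ν 1) (fun θ => fnu θ.1 a b)
    (by
      intro R
      simp only [fnu, LinearMap.add_apply, LinearMap.smul_apply, smul_eq_mul]
      fun_prop)
    (fun θ => θ.1) continuous_subtype_val (fun θ => θ.2.2)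
    (by
      intro R hR hp θ hθ
      have hθ' : θ.1 = 1 := hθ
      rw [hθ']
      exact fnu_one hn (CW_alg hR) hp hab)
    C
    (by
      intro θ hθ
      refine ⟨1 - θ.1, by linarith, fun δ hδ => ?_⟩
      have h1 : θ.1 + δ ∈ Icc ν 1 := ⟨by linarith [θ.2.1, hδ.1], by linarith [hδ.2]⟩
      refine ⟨⟨θ.1 + δ, h1⟩, le_refl _, fun R => ?_⟩
      exact hC θ.1 δ (by linarith [θ.2.1]) θ.2.2 hδ.1.le (by linarith [hδ.2, θ.2.1]) R)
    (by
      intro R hR hne hp θ hpos hzero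
      obtain ⟨O, hO, A, E, B, D, hW⟩ := hR
      have hRW : R = rot (dg (KW A E B D)) Oᵀ := by rw [← hW, rot_rotT hO]
      have hOT : Oᵀᵀ * Oᵀ = 1 := by rw [Matrix.transpose_transpose]; exact orth_T hO
      have hWne : (dg (KW A E B D) : T4 n) ≠ 0 := by
        intro h
        apply hne
        rw [hRW, h]
        funext i j k l
        simp [rot]
      have hpW : PIC (dg (KW A E B D) : T4 n) := by
        rw [← hW]; exact MPinch.PIC_rot hp hO
      have h1 : ∀ O' : Mt n, O'ᵀ * O' = 1 → 0 ≤ fnu θ.1 a b (rot (dg (KW A E B D)) O') := by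
        intro O' hO'
        have h2 := hpos θ (le_refl _) (O * O') (by
          rw [Matrix.transpose_mul, Matrix.mul_assoc, ← Matrix.mul_assoc Oᵀ, hO, Matrix.one_mul,
            hO'])
        rwa [← G_rot_mul, hW] at h2
      have h3 := w0_strict hn hWne hpW (lt_of_lt_of_le hν θ.2.1) θ.2.2 hab h1 hOT
        (by rw [← hRW]; exact hzero)
      rw [← hRW] at h3
      exact h3)
  exact ⟨K, fun t ht e he y hy F hF => hK t ht e he y hy F hF ⟨ν, le_refl _, hν1⟩⟩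

theorem frame_rel {n : ℕ} {G F0 F : Mt n} (h0 : F0ᵀ * G * F0 = 1) (h : Fᵀ * G * F = 1)
    (hs : G.IsSymm) : (F0ᵀ * G * F)ᵀ * (F0ᵀ * G * F) = 1 ∧ F0 * (F0ᵀ * G * F) = F := by
  have e1 : F0 * (F0ᵀ * G) = 1 := mul_eq_one_comm.mp h0
  have e2 : F0 * (F0ᵀ * G * F) = F := by
    rw [← Matrix.mul_assoc, e1, Matrix.one_mul]
  refine ⟨?_, e2⟩
  have e3 : (F0ᵀ * G * F)ᵀ = Fᵀ * G * F0 := by
    rw [Matrix.transpose_mul, Matrix.transpose_mul, Matrix.transpose_transpose, hs.eq,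
      Matrix.mul_assoc]
  rw [e3, Matrix.mul_assoc, e2, h]

theorem sym_blow {n : ℕ} (hn : 5 ≤ n) {M : Type} [TopologicalSpace M] [ChartedSpace (En n) M]
    [IsManifold (𝓡 n) ∞ M] [CompactSpace M] {T : ℝ} {g : ℝ → Metric n M} (hg : IsRicciFlow T g)
    (h0 : WPIC (g 0)) (hsym : ∀ t ∈ Ico 0 T, PlaneSym (g t))
    {N : Type} [TopologicalSpace N] [ChartedSpace (En n) N] [IsManifold (𝓡 n) ∞ N]
    {I : Set ℝ} {h : ℝ → Metric n N} {p : N} (hb : IsBlowUpLimit T g I h p) :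
    ∀ s ∈ I, NonnegOp (h s) := by
  -- the curvature lies in the class
  have hc : ∀ t ∈ Ico 0 T, ∀ e ∈ atlas (En n) M, ∀ y ∈ ctarget e, ∀ F : Mt n,
      Fᵀ * (g t).G e y * F = 1 → rot (Rc ((g t).G e) y) F ∈ CW n := by
    intro t ht e he y hy F hF
    obtain ⟨F0, hF0, hinv⟩ := hsym t ht e he y hy
    have hA : IsAlg (Rc ((g t).G e) y) := L.isAlg_Rc (g t) he hy
    have hA0 := hA.rot F0
    obtain ⟨P, hP, A, E, B, C, hW⟩ := w0_form hn hA0 (by
      intro O hO hO2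
      rw [G_rot_mul]
      exact hinv O hO hO2)
    have hs : ((g t).G e y).IsSymm := MaxP.isSymm_of_posDef ((g t).posDef e he y hy)
    obtain ⟨k1, k2⟩ := frame_rel hF0 hF hs
    have hin : rot (Rc ((g t).G e) y) F0 ∈ CW n := ⟨P, hP, A, E, B, C, hW⟩
    have h3 := CW_rot hin k1
    rwa [G_rot_mul, k2] at h3
  refine blow ?_ hb
  intro ε hε
  obtain ⟨c, hcop⟩ := dg_op (n := n) hn
  set ν : ℝ := min 1 (ε / (|c| + 1)) with hνdef
  have hc1 : (0 : ℝ) < |c| + 1 := by positivity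
  have hν : 0 < ν := lt_min one_pos (div_pos hε hc1)
  have hν1 : ν ≤ 1 := min_le_left _ _
  have hνε : c * ν ≤ ε := by
    have h1 : ν ≤ ε / (|c| + 1) := min_le_right _ _
    have h2 : ν * (|c| + 1) ≤ ε := (le_div_iff₀ hc1).mp h1
    have h3 : c * ν ≤ |c| * ν := mul_le_mul_of_nonneg_right (le_abs_self c) hν.le
    nlinarith
  have hK : ∀ a b : Fin n, ∃ K : ℝ, a ≠ b → ∀ t ∈ Ico 0 T, ∀ e ∈ atlas (En n) M, ∀ y ∈ ctarget e,
      ∀ F : Mt n, Fᵀ * (g t).G e y * F = 1 → -K ≤ fnu ν a b (rot (Rc ((g t).G e) y) F) := by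
    intro a b
    by_cases hab : a = b
    · exact ⟨0, fun h => absurd hab h⟩
    · obtain ⟨K, hK⟩ := sym_pinch hn hg h0 hc hν hν1 hab
      exact ⟨K, fun _ => hK⟩
  choose K hK using hK
  set κ : ℝ := ∑ a, ∑ b, |K a b| with hκ
  have hKκ : ∀ a b, K a b ≤ κ := by
    intro a b
    calc K a b ≤ |K a b| := le_abs_self _
      _ ≤ ∑ b, |K a b| := Finset.single_le_sum (f := fun b => |K a b|) (fun _ _ => abs_nonneg _)
        (Finset.mem_univ b)
      _ ≤ κ := Finset.single_le_sum (f := fun a => ∑ b, |K a b|)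
        (fun _ _ => Finset.sum_nonneg fun _ _ => abs_nonneg _) (Finset.mem_univ a)
  refine ⟨2 * κ, ?_⟩
  intro t ht e he y hy F hF φ hφ
  obtain ⟨O, hO, A, E, B, C, hW⟩ := hc t ht e he y hy F hF
  have hOT : Oᵀᵀ * Oᵀ = 1 := by rw [Matrix.transpose_transpose]; exact orth_T hO
  have hRW : rot (Rc ((g t).G e) y) F = rot (dg (KW A E B C)) Oᵀ := by
    rw [← hW, rot_rotT hO]
  have hFO : (F * O)ᵀ * (g t).G e y * (F * O) = 1 := by
    have : (F * O)ᵀ * (g t).G e y * (F * O) = Oᵀ * (Fᵀ * (g t).G e y * F) * O := by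
      simp only [Matrix.transpose_mul, Matrix.mul_assoc]
    rw [this, hF, Matrix.mul_one, hO]
  have hlow : ∀ a b : Fin n, a ≠ b → -κ ≤ fnu ν a b (dg (KW A E B C)) := by
    intro a b hab
    have h1 := hK a b hab t ht e he y hy (F * O) hFO
    rw [← G_rot_mul, hW] at h1
    linarith [hKκ a b]
  have h1 := hcop (KW A E B C) (KW_symm A E B C) ν κ hν hν1 hlow Oᵀ hOT φ hφ
  rw [← hRW] at h1
  refine le_trans ?_ h1
  rw [neg_le_neg_iff]
  refine mul_le_mul_of_nonneg_right ?_ (Finset.sum_nonneg fun i _ => Finset.sum_nonneg fun j _ =>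
    sq_nonneg _)
  have h2 := mul_le_mul_of_nonneg_right hνε (Real.sqrt_nonneg (∑ i, ∑ j, ∑ k, ∑ l,
    rot (Rc ((g t).G e) y) F i j k l ^ 2))
  linarith

end Pool.Agent.Helper696_RF
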