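import Mathlib
import Pool.Agent.Helper696_RF.Sym

/-!
# Blow-up limits of plane-symmetric Ricci flows with non-negative isotropic curvature

The curvature tensor evolves by the usual reaction-diffusion equation (`Helper696_RF.evol`), the maximum
principle for the curvature tensor on closed manifolds is `Helper696_RF.maxp`, non-negative isotropic
curvature is preserved (`Helper696_RF.wpic_preserved`), and the pinching estimate is `Helper696_RF.sym_pinch`.
-/

set_option autoImplicit false

open scoped ContDiff Manifold Topology Matrix
open Set Filter

namespace Pool.Agent.Helper696_RF.PlaneSymBlowUp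

open Pool.Agent.QTot Pool.Agent.H858R2 Pool.Agent.Helper696_RF

/-- Let `n ≥ 5`, let `M` be a compact `n`-manifold and `g t`, `t ∈ [0, T)`, a Ricci flow on `M` such that `g 0` has
non-negative isotropic curvature and such that at each point and time the curvature tensor is invariant under
all orthogonal maps of the tangent space fixing some two-dimensional subspace pointwise. Then every blow-up
limit of the flow at time `T` has non-negative curvature operator. -/
theorem result {n : ℕ} (hn : 5 ≤ n) {M : Type} [TopologicalSpace M] [ChartedSpace (En n) M]
    [IsManifold (𝓡 n) ∞ M] [CompactSpace M] {T : ℝ} {g : ℝ → Metric n M} (hg : IsRicciFlow T g)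
    (h0 : WPIC (g 0)) (hsym : ∀ t ∈ Ico 0 T, PlaneSym (g t))
    {N : Type} [TopologicalSpace N] [ChartedSpace (En n) N] [IsManifold (𝓡 n) ∞ N]
    {I : Set ℝ} {h : ℝ → Metric n N} {p : N} (hb : IsBlowUpLimit T g I h p) :
    ∀ s ∈ I, NonnegOp (h s) :=
  sym_blow hn hg h0 hsym hb

end Pool.Agent.Helper696_RF.PlaneSymBlowUp
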