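import Mathlib
import Pool.Agent.Helper696_RF.PAlg

/-!
# A bound for pure curvature tensors with nonnegative isotropic curvature
-/

set_option autoImplicit false
open scoped ContDiff Manifold Topology Matrix
open Set Filter

namespace Pool.Agent.Helper696_RF

open Pool.Agent.QTot Pool.Agent.H858R2

/-- four distinct indices -/
def qd {n : ℕ} (a b c d : Fin n) : Prop := a ≠ b ∧ a ≠ c ∧ a ≠ d ∧ b ≠ c ∧ b ≠ d ∧ c ≠ d

instance {n : ℕ} (a b c d : Fin n) : Decidable (qd a b c d) := by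
  unfold qd
  infer_instance

theorem qd_card3 {n : ℕ} {a b c : Fin n} (h1 : a ≠ b) (h2 : a ≠ c) (h3 : b ≠ c) (x : ℝ) :
    ∑ d : Fin n, (if a ≠ d ∧ b ≠ d ∧ c ≠ d then x else 0) = ((n : ℝ) - 3) * x := by
  rw [← Finset.sum_filter, Finset.sum_const, nsmul_eq_mul]
  congr 1
  have e1 : (Finset.univ.filter fun d : Fin n => a ≠ d ∧ b ≠ d ∧ c ≠ d) = ({a, b, c} : Finset (Fin n))ᶜ := by
    ext d
    simp only [Finset.mem_filter, Finset.mem_univ, true_and, Finset.mem_compl, Finset.mem_insert,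
      Finset.mem_singleton, not_or]
    constructor
    · rintro ⟨h4, h5, h6⟩
      exact ⟨h4.symm, h5.symm, h6.symm⟩
    · rintro ⟨h4, h5, h6⟩
      exact ⟨fun e => h4 e.symm, fun e => h5 e.symm, fun e => h6 e.symm⟩
  have e2 : ({a, b, c} : Finset (Fin n)).card = 3 := Finset.card_eq_three.2 ⟨a, b, c, h1, h2, h3, rfl⟩
  have e3 := Finset.card_add_card_compl ({a, b, c} : Finset (Fin n))
  rw [e2, Fintype.card_fin] at e3
  rw [e1]
  have e4 : (3 : ℝ) + ((({a, b, c} : Finset (Fin n))ᶜ.card : ℕ) : ℝ) = n := by exact_mod_cast e3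
  linarith

theorem qd_card2 {n : ℕ} {a b : Fin n} (h1 : a ≠ b) (x : ℝ) :
    ∑ c : Fin n, (if a ≠ c ∧ b ≠ c then x else 0) = ((n : ℝ) - 2) * x := by
  rw [← Finset.sum_filter, Finset.sum_const, nsmul_eq_mul]
  congr 1
  have e1 : (Finset.univ.filter fun d : Fin n => a ≠ d ∧ b ≠ d) = ({a, b} : Finset (Fin n))ᶜ := by
    ext d
    simp only [Finset.mem_filter, Finset.mem_univ, true_and, Finset.mem_compl, Finset.mem_insert,
      Finset.mem_singleton, not_or]
    constructor
    · rintro ⟨h4, h5⟩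
      exact ⟨h4.symm, h5.symm⟩
    · rintro ⟨h4, h5⟩
      exact ⟨fun e => h4 e.symm, fun e => h5 e.symm⟩
  have e2 : ({a, b} : Finset (Fin n)).card = 2 := Finset.card_pair h1
  have e3 := Finset.card_add_card_compl ({a, b} : Finset (Fin n))
  rw [e2, Fintype.card_fin] at e3
  rw [e1]
  have e4 : (2 : ℝ) + ((({a, b} : Finset (Fin n))ᶜ.card : ℕ) : ℝ) = n := by exact_mod_cast e3
  linarith

theorem qd_sum {n : ℕ} {K : Mt n} (hd : ∀ i, K i i = 0) :
    ∑ a : Fin n, ∑ b : Fin n, ∑ c : Fin n, ∑ d : Fin n, (if qd a b c d then K a b else 0) =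
      ((n : ℝ) - 2) * ((n : ℝ) - 3) * ks K := by
  unfold ks kr
  rw [Finset.mul_sum]
  apply Finset.sum_congr rfl
  intro a _
  rw [Finset.mul_sum]
  apply Finset.sum_congr rfl
  intro b _
  by_cases hab : a = b
  · subst hab
    rw [hd]
    simp
  · have e1 : ∀ c : Fin n, ∑ d : Fin n, (if qd a b c d then K a b else 0) =
        if a ≠ c ∧ b ≠ c then ((n : ℝ) - 3) * K a b else 0 := by
      intro c
      by_cases hc : a ≠ c ∧ b ≠ c
      · rw [if_pos hc, ← qd_card3 hab hc.1 hc.2]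
        apply Finset.sum_congr rfl
        intro d _
        congr 1
        unfold qd
        apply propext
        constructor
        · rintro ⟨_, _, h3, _, h5, h6⟩
          exact ⟨h3, h5, h6⟩
        · rintro ⟨h3, h5, h6⟩
          exact ⟨hab, hc.1, h3, hc.2, h5, h6⟩
      · rw [if_neg hc]
        apply Finset.sum_eq_zero
        intro d _
        rw [if_neg]
        intro h
        exact hc ⟨h.2.1, h.2.2.2.1⟩
    rw [Finset.sum_congr rfl (fun c _ => e1 c), qd_card2 hab]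
    ring

theorem qd_swap_bd {n : ℕ} (f : Fin n → Fin n → Fin n → Fin n → ℝ) :
    ∑ a : Fin n, ∑ b : Fin n, ∑ c : Fin n, ∑ d : Fin n, f a b c d =
    ∑ a : Fin n, ∑ b : Fin n, ∑ c : Fin n, ∑ d : Fin n, f a d c b := by
  apply Finset.sum_congr rfl
  intro a _
  calc ∑ b : Fin n, ∑ c : Fin n, ∑ d : Fin n, f a b c d
      = ∑ c : Fin n, ∑ b : Fin n, ∑ d : Fin n, f a b c d := Finset.sum_comm
    _ = ∑ c : Fin n, ∑ d : Fin n, ∑ b : Fin n, f a b c d :=
        Finset.sum_congr rfl fun c _ => Finset.sum_comm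
    _ = ∑ d : Fin n, ∑ c : Fin n, ∑ b : Fin n, f a b c d := Finset.sum_comm

theorem qd_swap_ac {n : ℕ} (f : Fin n → Fin n → Fin n → Fin n → ℝ) :
    ∑ a : Fin n, ∑ b : Fin n, ∑ c : Fin n, ∑ d : Fin n, f a b c d =
    ∑ a : Fin n, ∑ b : Fin n, ∑ c : Fin n, ∑ d : Fin n, f c b a d := by
  calc ∑ a : Fin n, ∑ b : Fin n, ∑ c : Fin n, ∑ d : Fin n, f a b c d
      = ∑ b : Fin n, ∑ a : Fin n, ∑ c : Fin n, ∑ d : Fin n, f a b c d := Finset.sum_comm
    _ = ∑ b : Fin n, ∑ c : Fin n, ∑ a : Fin n, ∑ d : Fin n, f a b c d :=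
        Finset.sum_congr rfl fun b _ => Finset.sum_comm
    _ = ∑ c : Fin n, ∑ b : Fin n, ∑ a : Fin n, ∑ d : Fin n, f a b c d := Finset.sum_comm

theorem qd_total {n : ℕ} {K : Mt n} (hd : ∀ i, K i i = 0) :
    ∑ a : Fin n, ∑ b : Fin n, ∑ c : Fin n, ∑ d : Fin n,
      (if qd a b c d then K a b + K a d + K c b + K c d else 0) =
      4 * (((n : ℝ) - 2) * ((n : ℝ) - 3) * ks K) := by
  have s1 := qd_sum hd
  have sym1 : ∀ a b c d : Fin n, qd a d c b ↔ qd a b c d := by
    intro a b c d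
    unfold qd
    constructor
    · rintro ⟨h1, h2, h3, h4, h5, h6⟩
      exact ⟨h3, h2, h1, h6.symm, h5.symm, h4.symm⟩
    · rintro ⟨h1, h2, h3, h4, h5, h6⟩
      exact ⟨h3, h2, h1, h6.symm, h5.symm, h4.symm⟩
  have sym2 : ∀ a b c d : Fin n, qd c b a d ↔ qd a b c d := by
    intro a b c d
    unfold qd
    constructor
    · rintro ⟨h1, h2, h3, h4, h5, h6⟩
      exact ⟨h4.symm, h2.symm, h6, h1.symm, h5, h3⟩
    · rintro ⟨h1, h2, h3, h4, h5, h6⟩
      exact ⟨h4.symm, h2.symm, h6, h1.symm, h5, h3⟩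
  have s2 : ∑ a : Fin n, ∑ b : Fin n, ∑ c : Fin n, ∑ d : Fin n, (if qd a b c d then K a d else 0) =
      ((n : ℝ) - 2) * ((n : ℝ) - 3) * ks K := by
    rw [qd_swap_bd, ← s1]
    simp only [sym1]
  have s3 : ∑ a : Fin n, ∑ b : Fin n, ∑ c : Fin n, ∑ d : Fin n, (if qd a b c d then K c b else 0) =
      ((n : ℝ) - 2) * ((n : ℝ) - 3) * ks K := by
    rw [qd_swap_ac, ← s1]
    simp only [sym2]
  have s4 : ∑ a : Fin n, ∑ b : Fin n, ∑ c : Fin n, ∑ d : Fin n, (if qd a b c d then K c d else 0) =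
      ((n : ℝ) - 2) * ((n : ℝ) - 3) * ks K := by
    rw [qd_swap_ac, ← s2]
    simp only [sym2]
  have e : ∀ a b c d : Fin n, (if qd a b c d then K a b + K a d + K c b + K c d else 0) =
      (if qd a b c d then K a b else 0) + (if qd a b c d then K a d else 0) +
      (if qd a b c d then K c b else 0) + (if qd a b c d then K c d else 0) := by
    intro a b c d
    by_cases h : qd a b c d
    · simp only [if_pos h]
    · simp only [if_neg h, add_zero]
  simp only [e, Finset.sum_add_distrib]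
  rw [s1, s2, s3, s4]
  ring

theorem exists_notMem_of_card {n : ℕ} (s : Finset (Fin n)) (h : s.card < n) : ∃ x, x ∉ s := by
  by_contra hc
  push Not at hc
  have h1 : s = Finset.univ := Finset.eq_univ_iff_forall.2 hc
  rw [h1, Finset.card_univ, Fintype.card_fin] at h
  exact lt_irrefl _ h

/-- TARGET R -/
theorem cpic_bound {n : ℕ} (hn : 5 ≤ n) : ∃ C : ℝ, 0 < C ∧ ∀ K : Mt n, (∀ i j, K i j = K j i) → (∀ i, K i i = 0) →
    CPIC K → 0 ≤ ks K ∧ ∀ a b, |K a b| ≤ C * ks K := by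
  have hn' : (5 : ℝ) ≤ n := by exact_mod_cast hn
  have hN : 0 < ((n : ℝ) - 2) * ((n : ℝ) - 3) := mul_pos (by linarith) (by linarith)
  refine ⟨10 * (((n : ℝ) - 2) * ((n : ℝ) - 3)), by positivity, ?_⟩
  intro K hs hd hK
  have htot := qd_total hd
  have hterm : ∀ a b c d : Fin n, 0 ≤ (if qd a b c d then K a b + K a d + K c b + K c d else 0) := by
    intro a b c d
    by_cases h : qd a b c d
    · rw [if_pos h]
      exact hK a b c d h.1 h.2.1 h.2.2.1 h.2.2.2.1 h.2.2.2.2.1 h.2.2.2.2.2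
    · rw [if_neg h]
  have hT0 : 0 ≤ 4 * (((n : ℝ) - 2) * ((n : ℝ) - 3) * ks K) := by
    rw [← htot]
    exact Finset.sum_nonneg fun a _ => Finset.sum_nonneg fun b _ => Finset.sum_nonneg fun c _ =>
      Finset.sum_nonneg fun d _ => hterm a b c d
  have hks : 0 ≤ ks K := by
    by_contra hneg
    push Not at hneg
    have := mul_neg_of_pos_of_neg hN hneg
    linarith
  refine ⟨hks, ?_⟩
  have hle : ∀ a b c d : Fin n, a ≠ b → a ≠ c → a ≠ d → b ≠ c → b ≠ d → c ≠ d →
      0 ≤ K a b + K a d + K c b + K c d ∧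
      K a b + K a d + K c b + K c d ≤ 4 * (((n : ℝ) - 2) * ((n : ℝ) - 3) * ks K) := by
    intro a b c d h1 h2 h3 h4 h5 h6
    refine ⟨hK a b c d h1 h2 h3 h4 h5 h6, ?_⟩
    rw [← htot]
    have hq : qd a b c d := ⟨h1, h2, h3, h4, h5, h6⟩
    have t1 : K a b + K a d + K c b + K c d ≤ ∑ d : Fin n,
        (if qd a b c d then K a b + K a d + K c b + K c d else 0) := by
      have := Finset.single_le_sum (f := fun d : Fin n =>
        (if qd a b c d then K a b + K a d + K c b + K c d else 0))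
        (fun d _ => hterm a b c d) (Finset.mem_univ d)
      simp only [if_pos hq] at this
      exact this
    have t2 : ∑ d : Fin n, (if qd a b c d then K a b + K a d + K c b + K c d else 0) ≤
        ∑ c : Fin n, ∑ d : Fin n, (if qd a b c d then K a b + K a d + K c b + K c d else 0) :=
      Finset.single_le_sum (f := fun c : Fin n => ∑ d : Fin n,
        (if qd a b c d then K a b + K a d + K c b + K c d else 0))
        (fun c _ => Finset.sum_nonneg fun d _ => hterm a b c d) (Finset.mem_univ c)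
    have t3 : ∑ c : Fin n, ∑ d : Fin n, (if qd a b c d then K a b + K a d + K c b + K c d else 0) ≤
        ∑ b : Fin n, ∑ c : Fin n, ∑ d : Fin n,
          (if qd a b c d then K a b + K a d + K c b + K c d else 0) :=
      Finset.single_le_sum (f := fun b : Fin n => ∑ c : Fin n, ∑ d : Fin n,
        (if qd a b c d then K a b + K a d + K c b + K c d else 0))
        (fun b _ => Finset.sum_nonneg fun c _ => Finset.sum_nonneg fun d _ => hterm a b c d)
        (Finset.mem_univ b)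
    have t4 : ∑ b : Fin n, ∑ c : Fin n, ∑ d : Fin n,
          (if qd a b c d then K a b + K a d + K c b + K c d else 0) ≤
        ∑ a : Fin n, ∑ b : Fin n, ∑ c : Fin n, ∑ d : Fin n,
          (if qd a b c d then K a b + K a d + K c b + K c d else 0) :=
      Finset.single_le_sum (f := fun a : Fin n => ∑ b : Fin n, ∑ c : Fin n, ∑ d : Fin n,
        (if qd a b c d then K a b + K a d + K c b + K c d else 0))
        (fun a _ => Finset.sum_nonneg fun b _ => Finset.sum_nonneg fun c _ =>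
          Finset.sum_nonneg fun d _ => hterm a b c d)
        (Finset.mem_univ a)
    exact le_trans t1 (le_trans t2 (le_trans t3 t4))
  set m : ℝ := 4 * (((n : ℝ) - 2) * ((n : ℝ) - 3) * ks K) with hm
  have hx : ∀ a b c d : Fin n, a ≠ b → a ≠ c → a ≠ d → b ≠ c → b ≠ d → c ≠ d →
      -m ≤ K a b + K c d ∧ K a b + K c d ≤ m := by
    intro a b c d h1 h2 h3 h4 h5 h6
    have y1 := hle a b c d h1 h2 h3 h4 h5 h6
    have y2 := hle a b d c h1 h3 h2 h5 h4 h6.symm
    have y3 := hle a c b d h2 h1 h3 h4.symm h6 h5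
    have e1 := hs d c
    have e2 := hs c b
    have e3 := hs d b
    constructor <;> linarith [y1.1, y1.2, y2.1, y2.2, y3.1, y3.2]
  intro a b
  by_cases hab : a = b
  · rw [hab, hd, abs_zero]
    positivity
  · obtain ⟨c, hc⟩ := exists_notMem_of_card ({a, b} : Finset (Fin n))
      (lt_of_le_of_lt (Finset.card_le_two) (by omega))
    obtain ⟨d, hdd⟩ := exists_notMem_of_card ({a, b, c} : Finset (Fin n))
      (lt_of_le_of_lt (Finset.card_le_three) (by omega))
    obtain ⟨e, he⟩ := exists_notMem_of_card ({a, b, c, d} : Finset (Fin n))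
      (lt_of_le_of_lt (Finset.card_le_four) (by omega))
    simp only [Finset.mem_insert, Finset.mem_singleton, not_or] at hc hdd he
    obtain ⟨ca, cb⟩ := hc
    obtain ⟨da, db, dc⟩ := hdd
    obtain ⟨ea, eb, ec, ed⟩ := he
    -- 2 K ab = (K ab + K cd) - (K cd + K ea) + (K ea + K bc) - (K bc + K de) + (K de + K ab)
    have x1 := hx a b c d hab (Ne.symm ca) (Ne.symm da) (Ne.symm cb) (Ne.symm db) (Ne.symm dc)
    have x2 := hx c d e a (Ne.symm dc) (Ne.symm ec) ca (Ne.symm ed) da ea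
    have x3 := hx e a b c ea eb ec hab (Ne.symm ca) (Ne.symm cb)
    have x4 := hx b c d e (Ne.symm cb) (Ne.symm db) (Ne.symm eb) (Ne.symm dc) (Ne.symm ec) (Ne.symm ed)
    have x5 := hx d e a b (Ne.symm ed) da db ea eb hab
    rw [abs_le]
    have hm2 : 10 * (((n : ℝ) - 2) * ((n : ℝ) - 3)) * ks K = 5 * m / 2 := by rw [hm]; ring
    rw [hm2]
    constructor <;> linarith [x1.1, x1.2, x2.1, x2.2, x3.1, x3.2, x4.1, x4.2, x5.1, x5.2]

end Pool.Agent.Helper696_RF
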