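import Mathlib
import Pool.Agent.Helper696_RF.PAlg

/-!
Needs on disk (all on origin/main): `Pool/Agent/Helper696_RF/` (the file PAlg imports Alg, Defs, Loc), `Pool/Agent/H858R2/Defs.lean`
and the directory `Pool/Agent/QTot` (starting files).
-/

set_option autoImplicit false
open scoped ContDiff Manifold Topology Matrix
open Set Filter

namespace Pool.Agent.Helper696_RF

open Pool.Agent.QTot Pool.Agent.H858R2

theorem ph_split {n : ℕ} (f : Fin n → ℝ) (a b c : Fin n) (hab : a ≠ b) (hac : a ≠ c)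
    (hbc : b ≠ c) : ∑ p, f p = f a + f b + f c +
      ∑ p ∈ Finset.univ.filter (fun p => p ≠ a ∧ p ≠ b ∧ p ≠ c), f p := by
  rw [← Finset.add_sum_erase Finset.univ f (Finset.mem_univ a),
    ← Finset.add_sum_erase (Finset.univ.erase a) f
      (Finset.mem_erase.2 ⟨hab.symm, Finset.mem_univ b⟩),
    ← Finset.add_sum_erase ((Finset.univ.erase a).erase b) f
      (Finset.mem_erase.2 ⟨hbc.symm, Finset.mem_erase.2 ⟨hac.symm, Finset.mem_univ c⟩⟩)]
  have e : ((Finset.univ.erase a).erase b).erase c =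
      Finset.univ.filter (fun p => p ≠ a ∧ p ≠ b ∧ p ≠ c) := by
    ext p
    simp
    tauto
  rw [e]
  ring

theorem ph_kr {n : ℕ} (K : Mt n) (hK : ∀ i j, K i j = K j i) (h0 : ∀ i, K i i = 0) (i : Fin n) :
    kr (KQ K) i = 2 * ∑ p, K i p * kr K p := by
  have e1 : kr (KQ K) i = ∑ j, ((2 * K i j ^ 2 + 2 * ∑ p, K i p * K j p) -
      (if i = j then (2 * K i j ^ 2 + 2 * ∑ p, K i p * K j p) else 0)) := by
    unfold kr KQ
    refine Finset.sum_congr rfl fun j _ => ?_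
    split_ifs <;> simp
  rw [e1, Finset.sum_sub_distrib, Finset.sum_ite_eq, if_pos (Finset.mem_univ i), h0 i,
    Finset.sum_add_distrib, ← Finset.mul_sum, ← Finset.mul_sum, Finset.sum_comm]
  have e2 : ∑ p, ∑ j, K i p * K j p = ∑ p, K i p * kr K p := by
    refine Finset.sum_congr rfl fun p _ => ?_
    unfold kr
    rw [Finset.mul_sum]
    refine Finset.sum_congr rfl fun j _ => ?_
    rw [hK j p]
  have e3 : ∑ p, K i p * K i p = ∑ j, K i j ^ 2 :=
    Finset.sum_congr rfl fun p _ => by ring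
  rw [e2, e3]
  ring

theorem ph_ks {n : ℕ} (K : Mt n) (hK : ∀ i j, K i j = K j i) (h0 : ∀ i, K i i = 0) :
    ks (KQ K) = 2 * ∑ p, kr K p ^ 2 := by
  unfold ks
  rw [Finset.sum_congr rfl fun i _ => ph_kr K hK h0 i, ← Finset.mul_sum, Finset.sum_comm]
  congr 1
  refine Finset.sum_congr rfl fun p _ => ?_
  rw [← Finset.sum_mul, sq]
  congr 1
  unfold kr
  exact Finset.sum_congr rfl fun i _ => hK i p

/-- the case `τ < 0` -/
theorem ph_neg {Kac Kbc SXY τ Tc γ s R S2 : ℝ} (hSXY : 0 ≤ SXY) (hτ : τ < 0) (hTc : 0 < Tc)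
    (hγ : 0 < γ) (hs : 0 < s) (hR : R < 0) (hS2 : 0 ≤ S2) :
    0 < Kac ^ 2 + Kbc ^ 2 + SXY - τ * Tc - γ * s * R + 2 * γ * S2 := by
  have h1 : 0 < -τ * Tc := mul_pos (by linarith) hTc
  have h2 : 0 < γ * s * (-R) := mul_pos (mul_pos hγ hs) (by linarith)
  have h3 : 0 ≤ 2 * γ * S2 := by positivity
  have h4 : 0 ≤ Kac ^ 2 + Kbc ^ 2 := by positivity
  linarith

/-- the case `τ ≥ 0` -/
theorem ph_nonneg {N Kac Kbc SXY τ Tc rc α γ s R S2 : ℝ} (hN : 5 ≤ N) (hτ : 0 ≤ τ)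
    (hY : 0 ≤ rc + α * s + N * γ * s - Tc)
    (hSXY : τ * (rc + α * s + N * γ * s - Tc) ≤ SXY) (hKK : Kac + Kbc = -τ)
    (hTc : Tc = α * rc + γ * s) (hτR : τ = α * R + 2 * γ * s)
    (hα : 0 < α) (hγ : 0 < γ) (hαγ : α = 1 / 2 ∨ (α ≤ 1 / 2 ∧ γ = α ^ 2 / N)) (hs : 0 < s)
    (hS2 : s ^ 2 ≤ N * S2) :
    0 < Kac ^ 2 + Kbc ^ 2 + SXY - τ * Tc - γ * s * R + 2 * γ * S2 := by
  have hN0 : 0 < N := by linarith
  have h1 : τ ^ 2 / 2 ≤ Kac ^ 2 + Kbc ^ 2 := by
    have h2 : τ ^ 2 = (Kac + Kbc) ^ 2 := by rw [hKK]; ring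
    rw [h2]
    have h3 := sq_nonneg (Kac - Kbc)
    have h4 : Kac ^ 2 + Kbc ^ 2 - (Kac + Kbc) ^ 2 / 2 = (Kac - Kbc) ^ 2 / 2 := by ring
    linarith
  have hS20 : 0 ≤ S2 := by
    have h5 : 0 < N * S2 := lt_of_lt_of_le (by positivity) hS2
    exact (pos_of_mul_pos_right h5 hN0.le).le
  rcases hαγ with hα2 | ⟨hα2, hγ2⟩
  · -- the case `α = 1/2`
    subst hα2
    have hR : R = 2 * τ - 4 * γ * s := by linarith
    have h6 : 0 ≤ τ * s * (1 / 2 + (N - 4) * γ) := by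
      have : 0 ≤ (N - 4) * γ := mul_nonneg (by linarith) hγ.le
      positivity
    have h7 : 0 < 4 * γ ^ 2 * s ^ 2 := by positivity
    have h8 : 0 ≤ 2 * γ * S2 := by positivity
    have h9 : 0 ≤ τ ^ 2 := sq_nonneg τ
    have h10 : τ ^ 2 / 2 + τ * (rc + 1 / 2 * s + N * γ * s - Tc) - τ * Tc - γ * s * R =
        τ ^ 2 / 2 + τ * s * (1 / 2 + (N - 4) * γ) + 4 * γ ^ 2 * s ^ 2 := by
      rw [hR, hTc]
      ring
    linarith
  · -- the case `γ = α² / N`
    obtain ⟨g, hg⟩ : ∃ g : ℝ, g = 1 / N := ⟨_, rfl⟩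
    have hg0 : 0 < g := by rw [hg]; positivity
    have hgN : N * g = 1 := by rw [hg]; field_simp
    have hg1 : g ≤ 1 := by
      rw [hg, div_le_one hN0]
      linarith
    have hγg : γ = α ^ 2 * g := by rw [hγ2, hg]; ring
    have hNγ : N * γ = α ^ 2 := by
      rw [hγg]
      calc N * (α ^ 2 * g) = α ^ 2 * (N * g) := by ring
        _ = α ^ 2 := by rw [hgN, mul_one]
    have hS2' : g * s ^ 2 ≤ S2 := by
      have h5 : g * s ^ 2 ≤ g * (N * S2) := mul_le_mul_of_nonneg_left hS2 hg0.le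
      have h6 : g * (N * S2) = (N * g) * S2 := by ring
      rw [h6, hgN, one_mul] at h5
      exact h5
    have hγR : γ * s * R = α * g * s * (τ - 2 * γ * s) := by
      have : τ - 2 * γ * s = α * R := by linarith
      rw [this, hγg]
      ring
    -- the coefficient of `τ`
    have hE : 0 ≤ (1 - α) * rc + α * s + α ^ 2 * s - α ^ 2 * g * s := by
      have h5 : rc + α * s + N * γ * s - Tc =
          (1 - α) * rc + α * s + α ^ 2 * s - α ^ 2 * g * s := by
        rw [hNγ, hTc, hγg]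
        ring
      rw [← h5]
      exact hY
    have hC : 0 ≤ (1 - 2 * α) * rc + α * s + α ^ 2 * s - 2 * α ^ 2 * g * s := by
      have h6 : 0 ≤ (1 - 2 * α) * ((1 - α) * rc + α * s + α ^ 2 * s - α ^ 2 * g * s) :=
        mul_nonneg (by linarith) hE
      have h7 : 0 ≤ s * α ^ 2 * (1 + α - g) := by
        have : 0 ≤ 1 + α - g := by linarith
        positivity
      have h8 : (1 - α) * ((1 - 2 * α) * rc + α * s + α ^ 2 * s - 2 * α ^ 2 * g * s) =
          (1 - 2 * α) * ((1 - α) * rc + α * s + α ^ 2 * s - α ^ 2 * g * s) +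
          s * α ^ 2 * (1 + α - g) := by ring
      have h9 : 0 ≤ (1 - α) * ((1 - 2 * α) * rc + α * s + α ^ 2 * s - 2 * α ^ 2 * g * s) := by
        rw [h8]
        linarith
      exact nonneg_of_mul_nonneg_right h9 (by linarith)
    have hτC := mul_nonneg hτ hC
    obtain ⟨w, hw⟩ : ∃ w : ℝ, w = α * g * s := ⟨_, rfl⟩
    have hw0 : 0 < w := by rw [hw]; positivity
    have h10 : τ ^ 2 / 2 + τ * (rc + α * s + N * γ * s - Tc) - τ * Tc - γ * s * R =
        τ ^ 2 / 2 + τ * ((1 - 2 * α) * rc + α * s + α ^ 2 * s - 2 * α ^ 2 * g * s) - w * τ +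
        2 * w * γ * s := by
      rw [hγR, hNγ, hTc, hγg, hw]
      ring
    have h11 : 2 * w ^ 2 ≤ 2 * γ * S2 := by
      have h12 : 2 * γ * (g * s ^ 2) ≤ 2 * γ * S2 := mul_le_mul_of_nonneg_left hS2' (by positivity)
      have h13 : 2 * γ * (g * s ^ 2) = 2 * w ^ 2 := by
        rw [hγg, hw]
        ring
      linarith
    have h14 : 0 < 2 * w * γ * s := by positivity
    have h15 : 0 ≤ (τ - w) ^ 2 := sq_nonneg _
    have h16 : 0 < w ^ 2 := by positivity
    have h17 : (τ - w) ^ 2 = τ ^ 2 - 2 * (w * τ) + w ^ 2 := by ring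
    linarith

theorem pure_phi {n : ℕ} (hn : 5 ≤ n) (K : Mt n) (hK : ∀ i j, K i j = K j i) (h0 : ∀ i, K i i = 0) (hp : CPIC K)
    (hs : 0 < ks K) (α γ : ℝ) (hα : 0 < α) (hγ : 0 < γ) (hαγ : α = 1 / 2 ∨ (α ≤ 1 / 2 ∧ γ = α ^ 2 / n))
    (hpos : ∀ i j k : Fin n, i ≠ j → i ≠ k → j ≠ k →
      0 ≤ K i k + K j k + α * (kr K i + kr K j) + 2 * γ * ks K)
    (a b c : Fin n) (hab : a ≠ b) (hac : a ≠ c) (hbc : b ≠ c)
    (hz : K a c + K b c + α * (kr K a + kr K b) + 2 * γ * ks K = 0) :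
    0 < KQ K a c + KQ K b c + α * (kr (KQ K) a + kr (KQ K) b) + 2 * γ * ks (KQ K) := by
  have hN : (5 : ℝ) ≤ (n : ℝ) := by exact_mod_cast hn
  have k1 := ph_kr K hK h0
  have k2 := ph_ks K hK h0
  have kac : KQ K a c = 2 * K a c ^ 2 + 2 * ∑ p, K a p * K c p := by
    unfold KQ
    rw [if_neg hac]
  have kbc : KQ K b c = 2 * K b c ^ 2 + 2 * ∑ p, K b p * K c p := by
    unfold KQ
    rw [if_neg hbc]
  obtain ⟨ρ, hρ⟩ : ∃ ρ : Fin n → ℝ, ρ = kr K := ⟨_, rfl⟩
  obtain ⟨s, hsdef⟩ : ∃ s : ℝ, s = ks K := ⟨_, rfl⟩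
  obtain ⟨T, hT⟩ : ∃ T : Fin n → ℝ, T = fun p => α * ρ p + γ * s := ⟨_, rfl⟩
  have hTp : ∀ p, T p = α * ρ p + γ * s := fun p => by rw [hT]
  have hρp : ∀ i, ρ i = ∑ p, K i p := fun i => by rw [hρ]; rfl
  have hsρ : s = ∑ p, ρ p := by rw [hsdef, hρ]; rfl
  rw [kac, kbc, k1 a, k1 b, k2]
  rw [← hρ]
  rw [← hρ, ← hsdef] at hpos hz
  rw [← hsdef] at hs
  have hpos' : ∀ i j k : Fin n, i ≠ j → i ≠ k → j ≠ k → 0 ≤ K i k + K j k + T i + T j := by
    intro i j k h1 h2 h3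
    have := hpos i j k h1 h2 h3
    rw [hTp, hTp]
    linarith
  have hz' : K a c + K b c + T a + T b = 0 := by
    rw [hTp, hTp]
    linarith
  obtain ⟨P, hP⟩ : ∃ P : Finset (Fin n), P = Finset.univ.filter
    (fun p => p ≠ a ∧ p ≠ b ∧ p ≠ c) := ⟨_, rfl⟩
  have hmem : ∀ p ∈ P, p ≠ a ∧ p ≠ b ∧ p ≠ c := by
    intro p hp
    rw [hP] at hp
    exact (Finset.mem_filter.1 hp).2
  -- the sum
  have hSS : ∑ p, (K a p + K b p) * (K c p + T p) = (∑ p, K a p * K c p) +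
      (∑ p, K b p * K c p) + α * ((∑ p, K a p * ρ p) + ∑ p, K b p * ρ p) +
      γ * s * (ρ a + ρ b) := by
    rw [hρp a, hρp b, ← Finset.sum_add_distrib, ← Finset.sum_add_distrib,
      ← Finset.sum_add_distrib, Finset.mul_sum, Finset.mul_sum, ← Finset.sum_add_distrib,
      ← Finset.sum_add_distrib]
    refine Finset.sum_congr rfl fun p _ => ?_
    rw [hTp]
    ring
  have hSS2 : ∑ p, (K a p + K b p) * (K c p + T p) =
      -(T a + T b) * T c + ∑ p ∈ P, (K a p + K b p) * (K c p + T p) := by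
    rw [ph_split _ a b c hab hac hbc, ← hP, h0 a, h0 b, h0 c, hK b a, hK c a, hK c b]
    have e1 : K a c + K b c = -(T a + T b) := by linarith
    have e2 : (0 + K a b) * (K a c + T a) + (K a b + 0) * (K b c + T b) +
        (K a c + K b c) * (0 + T c) = K a b * (K a c + K b c + T a + T b) +
        (K a c + K b c) * T c := by ring
    rw [e2, hz', e1]
    ring
  have hp' : ∀ p ∈ P, 0 ≤ K a c + K a p + K b c + K b p := by
    intro p hpP
    obtain ⟨h1, h2, h3⟩ := hmem p hpP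
    exact hp a c b p hac hab h1.symm hbc.symm h3.symm h2.symm
  obtain ⟨SXY, hSXY⟩ : ∃ SXY : ℝ, SXY = ∑ p ∈ P, (K a p + K b p) * (K c p + T p) := ⟨_, rfl⟩
  obtain ⟨τ, hτ⟩ : ∃ τ : ℝ, τ = T a + T b := ⟨_, rfl⟩
  obtain ⟨S2, hS2⟩ : ∃ S2 : ℝ, S2 = ∑ p, ρ p ^ 2 := ⟨_, rfl⟩
  have hF : 0 < K a c ^ 2 + K b c ^ 2 + SXY - τ * T c - γ * s * (ρ a + ρ b) + 2 * γ * S2 → 
      0 < 2 * K a c ^ 2 + 2 * ∑ p, K a p * K c p + (2 * K b c ^ 2 + 2 * ∑ p, K b p * K c p) +
        α * (2 * ∑ p, K a p * ρ p + 2 * ∑ p, K b p * ρ p) + 2 * γ * (2 * ∑ p, ρ p ^ 2) := by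
    intro h
    rw [hSS, ← hSXY, ← hτ] at hSS2
    rw [← hS2]
    linarith
  apply hF
  -- the factors
  have hX1 : ∀ p ∈ P, τ ≤ K a p + K b p := by
    intro p hp
    obtain ⟨h1, h2, h3⟩ := hmem p hp
    have h4 := hp' p hp
    linarith
  have hY : ∀ p ∈ P, 0 ≤ K c p + T p := by
    intro p hp
    obtain ⟨h1, h2, h3⟩ := hmem p hp
    have h4 := hpos' p a c h1 h3 hac
    have h5 := hpos' p b c h2 h3 hbc
    rw [hK c p]
    linarith
  have hYs : ∑ p ∈ P, (K c p + T p) = ρ c + α * s + n * γ * s - T c := by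
    have h1 := ph_split (fun p => K c p + T p) a b c hab hac hbc
    rw [← hP] at h1
    have h2 : ∑ p, (K c p + T p) = ρ c + α * s + n * γ * s := by
      rw [Finset.sum_add_distrib, ← hρp c]
      have h3 : ∑ p, T p = α * s + n * γ * s := by
        rw [Finset.sum_congr rfl fun p _ => hTp p, Finset.sum_add_distrib, ← Finset.mul_sum,
          ← hsρ, Finset.sum_const, Finset.card_univ, Fintype.card_fin, nsmul_eq_mul]
        ring
      rw [h3]
      ring
    rw [h2, h0 c, hK c a, hK c b] at h1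
    linarith
  rcases lt_or_ge τ 0 with hneg | hnn
  · have hX2 : ∀ p ∈ P, 0 ≤ K a p + K b p := by
      intro p hp
      obtain ⟨h1, h2, h3⟩ := hmem p hp
      have h4 := hpos' a b p hab h1.symm h2.symm
      linarith
    have hR : ρ a + ρ b < 0 := by
      have h1 : α * (ρ a + ρ b) = τ - 2 * γ * s := by
        rw [hτ, hTp, hTp]
        ring
      have h2 : α * (ρ a + ρ b) < 0 := by
        rw [h1]
        have : 0 < 2 * γ * s := by positivity
        linarith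
      by_contra hcon
      have h3 := mul_nonneg hα.le (not_lt.1 hcon)
      linarith
    have hKab : 2 * K a b < 0 := by
      have h1 : ρ a + ρ b = ∑ p, (K a p + K b p) := by
        rw [Finset.sum_add_distrib, ← hρp, ← hρp]
      rw [ph_split _ a b c hab hac hbc, ← hP, h0 a, h0 b, hK b a] at h1
      have h2 := Finset.sum_nonneg hX2
      linarith
    have hTc : 0 < T c := by
      have h1 := hpos' a c b hac hab hbc.symm
      have h2 := hpos' b c a hbc hab.symm hac.symm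
      rw [hK c b] at h1
      rw [hK b a, hK c a] at h2
      linarith
    refine ph_neg ?_ hneg hTc hγ hs hR ?_
    · rw [hSXY]
      exact Finset.sum_nonneg fun p hp => mul_nonneg (hX2 p hp) (hY p hp)
    · rw [hS2]
      exact Finset.sum_nonneg fun p _ => sq_nonneg _
  · refine ph_nonneg (N := n) (rc := ρ c) (α := α) hN hnn ?_ ?_ ?_ (hTp c) ?_ hα hγ hαγ hs ?_
    · rw [← hYs]
      exact Finset.sum_nonneg hY
    · rw [hSXY, ← hYs, Finset.mul_sum]
      exact Finset.sum_le_sum fun p hp => mul_le_mul_of_nonneg_right (hX1 p hp) (hY p hp)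
    · rw [hτ]
      linarith
    · rw [hτ, hTp, hTp]
      ring
    · rw [hS2, hsρ]
      have := sq_sum_le_card_mul_sum_sq (s := Finset.univ) (f := ρ)
      rw [Finset.card_univ, Fintype.card_fin] at this
      exact this

end Pool.Agent.Helper696_RF
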