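import Mathlib
import Pool.Agent.Helper696_RF.PAlg

/-!
Needs on disk (all on origin/main): `Pool/Agent/Helper696_RF/` (the file PAlg imports Alg, Defs, Loc), `Pool/Agent/H858R2/Defs.lean`
and the directory `Pool/Agent/QTot` (starting files).
-/

set_option autoImplicit false
open scoped ContDiff Manifold Topology Matrix
open Set Filter

namespace Pool.Agent.Helper696_RF

open Pool.Agent.QTot Pool.Agent.H858R2

theorem ks_KQ_5379 {n : ℕ} (K : Mt n) (hK : ∀ i j, K i j = K j i) (h0 : ∀ i, K i i = 0) :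
    ks (KQ K) = 2 * ∑ p, kr K p ^ 2 := by
  have h1 : ∀ i j, KQ K i j = 2 * K i j ^ 2 + 2 * ∑ p, K i p * K j p -
      (if i = j then 2 * ∑ p, K i p * K j p else 0) := by
    intro i j
    unfold KQ
    by_cases hij : i = j
    · subst hij
      simp [h0]
    · simp [hij]
  have h2 : ks (KQ K) = ∑ i, ∑ j, (2 * K i j ^ 2 + 2 * ∑ p, K i p * K j p -
      (if i = j then 2 * ∑ p, K i p * K j p else 0)) := by
    unfold ks kr
    exact Finset.sum_congr rfl (fun i _ => Finset.sum_congr rfl (fun j _ => h1 i j))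
  have h3 : ∀ i : Fin n, ∑ j, (if i = j then 2 * ∑ p, K i p * K j p else 0) =
      2 * ∑ p, K i p ^ 2 := by
    intro i
    rw [Finset.sum_ite_eq]
    simp [sq]
  have h4 : ∑ i, ∑ j, ∑ p, K i p * K j p = ∑ p, kr K p ^ 2 := by
    have : ∀ i, ∑ j, ∑ p, K i p * K j p = ∑ p, ∑ j, K i p * K j p := fun i => Finset.sum_comm
    rw [Finset.sum_congr rfl (fun i _ => this i), Finset.sum_comm]
    apply Finset.sum_congr rfl
    intro p _
    unfold kr
    rw [sq, Finset.sum_mul_sum]
    apply Finset.sum_congr rfl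
    intro i _
    apply Finset.sum_congr rfl
    intro j _
    rw [hK i p, hK j p]
  rw [h2]
  have h5 : ∀ i, ∑ j, (2 * K i j ^ 2 + 2 * ∑ p, K i p * K j p -
      (if i = j then 2 * ∑ p, K i p * K j p else 0)) = 2 * ∑ j, ∑ p, K i p * K j p := by
    intro i
    rw [Finset.sum_sub_distrib, Finset.sum_add_distrib, h3 i, ← Finset.mul_sum, ← Finset.mul_sum]
    ring
  rw [Finset.sum_congr rfl (fun i _ => h5 i), ← Finset.mul_sum, h4]

/-! ## TARGET T. Let `ρ i = kr K i`, `s = ks K`, `T i = α ρ i + γ s`; `|ρ i| ≤ n C s`, so `T i ≤ α (n C + 1) s` (`γ ≤ α`).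
`hpos` says `K i k + K j k + T i + T j ≥ 0`. For `p ∉ {a, b}`, taking `(i,j,k) = (b,p,a)`: `K a p ≥ -K a b - T b - T p = β s - T b - T p ≥ 0`
and similarly `K b p ≥ 0`. `KQ K a b = 2 K ab² + 2 ∑_p K a p K b p` (terms `p = a, b` vanish) and `ks (KQ K) = 2 ∑ ρ p² > 0`. -/
theorem pure_psi {n : ℕ} (K : Mt n) (hK : ∀ i j, K i j = K j i) (h0 : ∀ i, K i i = 0)
    (hs : 0 < ks K) (C : ℝ) (hC : 0 < C) (hKC : ∀ i j, |K i j| ≤ C * ks K)
    (α γ β : ℝ) (hα : 0 < α) (hγ : 0 < γ) (hγα : γ ≤ α) (hβ : 2 * (n * C + 1) * α ≤ β)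
    (hpos : ∀ i j k : Fin n, i ≠ j → i ≠ k → j ≠ k →
      0 ≤ K i k + K j k + α * (kr K i + kr K j) + 2 * γ * ks K)
    (a b : Fin n) (hab : a ≠ b) (hz : K a b + β * ks K = 0) :
    0 < KQ K a b + β * ks (KQ K) := by
  have hβ0 : 0 < β := by
    have : 0 < 2 * (n * C + 1) * α := by positivity
    linarith
  -- the row sums
  have hρ : ∀ i, kr K i ≤ n * C * ks K := by
    intro i
    unfold kr
    calc ∑ p, K i p ≤ ∑ _p : Fin n, C * ks K :=
          Finset.sum_le_sum (fun p _ => le_trans (le_abs_self _) (hKC i p))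
      _ = n * C * ks K := by simp [mul_assoc]
  -- the key positivity
  have key : ∀ x y p : Fin n, x ≠ y → p ≠ x → p ≠ y → K x y + β * ks K = 0 → 0 ≤ K x p := by
    intro x y p hxy hpx hpy hxz
    have h1 := hpos y p x (Ne.symm hpy) (Ne.symm hxy) hpx
    rw [hK y x, hK p x] at h1
    have h2 : α * (kr K y + kr K p) ≤ α * (2 * (n * C * ks K)) :=
      mul_le_mul_of_nonneg_left (by linarith [hρ y, hρ p]) hα.le
    have h3 : γ * ks K ≤ α * ks K := mul_le_mul_of_nonneg_right hγα hs.le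
    have h4 : 2 * (n * C + 1) * α * ks K ≤ β * ks K := mul_le_mul_of_nonneg_right hβ hs.le
    nlinarith
  have hsum : 0 ≤ ∑ p, K a p * K b p := by
    apply Finset.sum_nonneg
    intro p _
    by_cases hpa : p = a
    · rw [hpa, h0]; simp
    · by_cases hpb : p = b
      · rw [hpb, h0]; simp
      · exact mul_nonneg (key a b p hab hpa hpb hz)
          (key b a p (Ne.symm hab) hpb hpa (by rw [hK b a]; exact hz))
  have hQ : 0 ≤ KQ K a b := by
    unfold KQ
    rw [if_neg hab]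
    positivity
  have hpos2 : 0 < ∑ p, kr K p ^ 2 := by
    have hne : ∃ p, kr K p ≠ 0 := by
      by_contra hcon
      push Not at hcon
      have : ks K = 0 := by
        unfold ks
        exact Finset.sum_eq_zero (fun p _ => hcon p)
      linarith
    obtain ⟨p, hp⟩ := hne
    exact Finset.sum_pos' (fun i _ => sq_nonneg _) ⟨p, Finset.mem_univ _, by positivity⟩
  rw [ks_KQ_5379 K hK h0]
  have : 0 < β * (2 * ∑ p, kr K p ^ 2) := by positivity
  linarith

end Pool.Agent.Helper696_RF
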