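import Mathlib
import Pool.Agent.Helper696_RF.PAlg

set_option autoImplicit false
open scoped ContDiff Manifold Topology Matrix
open Set Filter

namespace Pool.Agent.Helper696_RF

open Pool.Agent.QTot Pool.Agent.H858R2

namespace QDom

variable {n : ℕ}

/-- the two-by-two minors -/
noncomputable def pp (u v : Fin n → ℝ) (i j : Fin n) : ℝ := u i * v j - u j * v i

/-- the wedge of an antisymmetric array and a vector -/
noncomputable def wd (b : Fin n → Fin n → ℝ) (w : Fin n → ℝ) (i j k : Fin n) : ℝ :=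
  b i j * w k + b j k * w i + b k i * w j

theorem sum_sq3 (u v w : Fin n → ℝ) (huu : ∑ i, u i * u i = 1) (hvv : ∑ i, v i * v i = 1)
    (hww : ∑ i, w i * w i = 1)
    (huv : ∑ i, u i * v i = 0) (huw : ∑ i, u i * w i = 0) (hvw : ∑ i, v i * w i = 0) (a b c : ℝ) :
    ∑ k, (a * u k + b * v k + c * w k) ^ 2 = a ^ 2 + b ^ 2 + c ^ 2 := by
  have h1 : ∀ k, (a * u k + b * v k + c * w k) ^ 2 =
      a ^ 2 * (u k * u k) + b ^ 2 * (v k * v k) + c ^ 2 * (w k * w k)
      + (2 * a * b) * (u k * v k) + (2 * a * c) * (u k * w k) + (2 * b * c) * (v k * w k) := by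
    intro k; ring
  simp_rw [h1, Finset.sum_add_distrib, ← Finset.mul_sum, huu, hvv, hww, huv, huw, hvw]
  ring

theorem sum_pp (u v : Fin n → ℝ) (huu : ∑ i, u i * u i = 1) (hvv : ∑ i, v i * v i = 1)
    (huv : ∑ i, u i * v i = 0) (i : Fin n) :
    ∑ j, pp u v i j ^ 2 = u i ^ 2 + v i ^ 2 := by
  have h1 : ∀ k, pp u v i k ^ 2 =
      (u i) ^ 2 * (v k * v k) + (v i) ^ 2 * (u k * u k) + (- 2 * u i * v i) * (u k * v k) := by
    intro k; unfold pp; ring
  simp_rw [h1, Finset.sum_add_distrib, ← Finset.mul_sum, huu, hvv, huv]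
  ring

theorem sum_pp2 (u v : Fin n → ℝ) (huu : ∑ i, u i * u i = 1) (hvv : ∑ i, v i * v i = 1)
    (huv : ∑ i, u i * v i = 0) :
    ∑ i, ∑ j, pp u v i j ^ 2 = 2 := by
  simp_rw [sum_pp u v huu hvv huv, Finset.sum_add_distrib, pow_two, huu, hvv]
  norm_num

theorem sum_D (u v w : Fin n → ℝ) (huu : ∑ i, u i * u i = 1) (hvv : ∑ i, v i * v i = 1)
    (hww : ∑ i, w i * w i = 1)
    (huv : ∑ i, u i * v i = 0) (huw : ∑ i, u i * w i = 0) (hvw : ∑ i, v i * w i = 0) (i j : Fin n) :
    ∑ k, wd (pp u v) w i j k ^ 2 = pp u v i j ^ 2 + pp u w i j ^ 2 + pp v w i j ^ 2 := by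
  have h1 : ∀ k, wd (pp u v) w i j k =
      (pp v w i j) * u k + (- pp u w i j) * v k + pp u v i j * w k := by
    intro k; unfold wd pp; ring
  simp_rw [h1]
  rw [sum_sq3 u v w huu hvv hww huv huw hvw]
  ring

theorem sum_D3 (u v w : Fin n → ℝ) (huu : ∑ i, u i * u i = 1) (hvv : ∑ i, v i * v i = 1)
    (hww : ∑ i, w i * w i = 1)
    (huv : ∑ i, u i * v i = 0) (huw : ∑ i, u i * w i = 0) (hvw : ∑ i, v i * w i = 0) :
    ∑ i, ∑ j, ∑ k, wd (pp u v) w i j k ^ 2 = 6 := by
  simp_rw [sum_D u v w huu hvv hww huv huw hvw, Finset.sum_add_distrib]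
  rw [sum_pp2 u v huu hvv huv, sum_pp2 u w huu hww huw, sum_pp2 v w hvv hww hvw]
  norm_num

/-- rotations of a triple sum -/
theorem rot3 (F : Fin n → Fin n → Fin n → ℝ) :
    ∑ i, ∑ j, ∑ k, F i j k = ∑ i, ∑ j, ∑ k, F k i j := by
  have h1 : ∑ i, ∑ j, ∑ k, F k i j = ∑ i, ∑ k, ∑ j, F k i j := by
    refine Finset.sum_congr rfl fun i _ => ?_
    exact Finset.sum_comm
  rw [h1]
  rw [Finset.sum_comm]

theorem wd_le (b : Fin n → Fin n → ℝ) (hb : ∀ i j, b i j = - b j i) (w : Fin n → ℝ)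
    (hww : ∑ i, w i * w i = 1) :
    ∑ i, ∑ j, ∑ k, wd b w i j k ^ 2 ≤ 3 * ∑ i, ∑ j, b i j ^ 2 := by
  have e0 : ∀ i j k, wd b w i j k ^ 2 =
      ((b i j * w k) ^ 2 + (b j k * w i) ^ 2 + (b k i * w j) ^ 2)
      + ((2 * (b i j * w k) * (b j k * w i)) + (2 * (b j k * w i) * (b k i * w j))
        + (2 * (b k i * w j) * (b i j * w k))) := by
    intro i j k; unfold wd; ring
  have s1 : ∑ i, ∑ j, ∑ k, (b i j * w k) ^ 2 = ∑ i, ∑ j, b i j ^ 2 := by
    refine Finset.sum_congr rfl fun i _ => Finset.sum_congr rfl fun j _ => ?_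
    have : ∀ k, (b i j * w k) ^ 2 = b i j ^ 2 * (w k * w k) := by intro k; ring
    simp_rw [this, ← Finset.mul_sum, hww, mul_one]
  have s2 : ∑ i, ∑ j, ∑ k, (b j k * w i) ^ 2 = ∑ i, ∑ j, b i j ^ 2 := by
    rw [← s1]
    rw [rot3 (fun i j k => (b j k * w i) ^ 2)]
  have s3 : ∑ i, ∑ j, ∑ k, (b k i * w j) ^ 2 = ∑ i, ∑ j, b i j ^ 2 := by
    rw [← s1]
    rw [rot3 (fun i j k => (b i j * w k) ^ 2)]
  have t1 : ∑ i, ∑ j, ∑ k, (2 * (b i j * w k) * (b j k * w i)) = - 2 * ∑ j, (∑ i, w i * b i j) ^ 2 := by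
    rw [Finset.sum_comm, Finset.mul_sum]
    refine Finset.sum_congr rfl fun j _ => ?_
    have h2 : ∀ i, ∑ k, (2 * (b i j * w k) * (b j k * w i)) = (- 2 * (w i * b i j)) * ∑ k, w k * b k j := by
      intro i
      rw [Finset.mul_sum]
      refine Finset.sum_congr rfl fun k _ => ?_
      rw [hb j k]; ring
    simp_rw [h2, ← Finset.sum_mul, ← Finset.mul_sum]
    ring
  have t2 : ∑ i, ∑ j, ∑ k, (2 * (b j k * w i) * (b k i * w j)) = - 2 * ∑ j, (∑ i, w i * b i j) ^ 2 := by
    rw [← t1]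
    rw [rot3 (fun i j k => 2 * (b j k * w i) * (b k i * w j))]
  have t3 : ∑ i, ∑ j, ∑ k, (2 * (b k i * w j) * (b i j * w k)) = - 2 * ∑ j, (∑ i, w i * b i j) ^ 2 := by
    rw [← t2]
    rw [rot3 (fun i j k => 2 * (b k i * w j) * (b i j * w k))]
  simp_rw [e0, Finset.sum_add_distrib]
  rw [s1, s2, s3, t1, t2, t3]
  have : 0 ≤ ∑ j, (∑ i, w i * b i j) ^ 2 := Finset.sum_nonneg fun _ _ => sq_nonneg _
  linarith

/-- stochastic domination, one level: the weight of the triples containing a pair in `S` is at least the weight of `S`. -/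
theorem level (u v w : Fin n → ℝ) (huu : ∑ i, u i * u i = 1) (hvv : ∑ i, v i * v i = 1)
    (hww : ∑ i, w i * w i = 1)
    (huv : ∑ i, u i * v i = 0) (huw : ∑ i, u i * w i = 0) (hvw : ∑ i, v i * w i = 0)
    (f : Fin n → Fin n → ℝ) (hf : ∀ i j, f i j = f j i) (t : ℝ) :
    3 * ∑ i, ∑ j, (if t < f i j then pp u v i j ^ 2 else 0) ≤
      ∑ i, ∑ j, ∑ k, (if t < max (f i j) (max (f j k) (f k i)) then wd (pp u v) w i j k ^ 2 else 0) := by
  classical
  set b : Fin n → Fin n → ℝ := fun i j => if t < f i j then 0 else pp u v i j with hb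
  have hba : ∀ i j, b i j = - b j i := by
    intro i j
    simp only [hb]
    rw [hf i j]
    split_ifs
    · simp
    · unfold pp; ring
  have h1 := wd_le b hba w hww
  have h2 : ∑ i, ∑ j, ∑ k, (if t < max (f i j) (max (f j k) (f k i)) then 0 else wd (pp u v) w i j k ^ 2)
      ≤ ∑ i, ∑ j, ∑ k, wd b w i j k ^ 2 := by
    refine Finset.sum_le_sum fun i _ => Finset.sum_le_sum fun j _ => Finset.sum_le_sum fun k _ => ?_
    split_ifs with h
    · exact sq_nonneg _
    · push Not at h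
      have a1 : ¬ t < f i j := not_lt.mpr ((le_max_left _ _).trans h)
      have a2 : ¬ t < f j k := not_lt.mpr ((le_max_left _ _).trans ((le_max_right _ _).trans h))
      have a3 : ¬ t < f k i := not_lt.mpr ((le_max_right _ _).trans ((le_max_right _ _).trans h))
      apply le_of_eq
      unfold wd
      simp only [hb, if_neg a1, if_neg a2, if_neg a3]
  have h3 : ∑ i, ∑ j, ∑ k, (if t < max (f i j) (max (f j k) (f k i)) then wd (pp u v) w i j k ^ 2 else 0)
      + ∑ i, ∑ j, ∑ k, (if t < max (f i j) (max (f j k) (f k i)) then 0 else wd (pp u v) w i j k ^ 2) = 6 := by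
    rw [← sum_D3 u v w huu hvv hww huv huw hvw]
    simp_rw [← Finset.sum_add_distrib]
    refine Finset.sum_congr rfl fun i _ => Finset.sum_congr rfl fun j _ => Finset.sum_congr rfl fun k _ => ?_
    split_ifs <;> simp
  have h4 : ∑ i, ∑ j, (if t < f i j then pp u v i j ^ 2 else 0) + ∑ i, ∑ j, b i j ^ 2 = 2 := by
    rw [← sum_pp2 u v huu hvv huv]
    simp_rw [← Finset.sum_add_distrib]
    refine Finset.sum_congr rfl fun i _ => Finset.sum_congr rfl fun j _ => ?_
    simp only [hb]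
    split_ifs <;> simp
  linarith

theorem layer_int (x a : ℝ) (ha : 0 ≤ a) (c d : ℝ) :
    IntervalIntegrable (fun t : ℝ => if t < x then a else 0) MeasureTheory.volume c d := by
  apply Antitone.intervalIntegrable
  intro s t hst
  show (if t < x then a else 0) ≤ (if s < x then a else 0)
  split_ifs with h1 h2
  · exact le_rfl
  · exact absurd (lt_of_le_of_lt hst h1) h2
  · exact ha
  · exact le_rfl

/-- `∫_{-m}^m 1[t < x] dt = x + m`. -/
theorem layer (m x a : ℝ) (ha : 0 ≤ a) (h1 : -m ≤ x) (h2 : x ≤ m) :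
    ∫ t in (-m)..m, (if t < x then a else 0) = (x + m) * a := by
  rw [← intervalIntegral.integral_add_adjacent_intervals (b := x) (layer_int x a ha _ _)
    (layer_int x a ha _ _)]
  have e1 : ∫ t in (-m)..x, (if t < x then a else 0) = ∫ t in (-m)..x, a := by
    apply intervalIntegral.integral_congr_ae
    have : ∀ᵐ t : ℝ, t ≠ x := by
      simp [MeasureTheory.ae_iff]
    filter_upwards [this] with t ht hmem
    rw [Set.uIoc_of_le h1] at hmem
    rw [if_pos (lt_of_le_of_ne hmem.2 ht)]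
  have e2 : ∫ t in x..m, (if t < x then a else 0) = ∫ t in x..m, (0 : ℝ) := by
    apply intervalIntegral.integral_congr_ae
    refine Filter.Eventually.of_forall fun t hmem => ?_
    rw [Set.uIoc_of_le h2] at hmem
    rw [if_neg (not_lt.mpr hmem.1.le)]
  rw [e1, e2]
  simp

theorem int_sum (F : Fin n → ℝ → ℝ) (c d : ℝ)
    (h : ∀ i, IntervalIntegrable (F i) MeasureTheory.volume c d) :
    IntervalIntegrable (fun t => ∑ i, F i t) MeasureTheory.volume c d := by
  have := IntervalIntegrable.sum Finset.univ (f := F) fun i _ => h i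
  have e : (∑ i, F i) = fun t => ∑ i, F i t := by
    funext t; simp
  rw [e] at this
  exact this

/-- stochastic domination, integrated. -/
theorem dom (u v w : Fin n → ℝ) (huu : ∑ i, u i * u i = 1) (hvv : ∑ i, v i * v i = 1)
    (hww : ∑ i, w i * w i = 1)
    (huv : ∑ i, u i * v i = 0) (huw : ∑ i, u i * w i = 0) (hvw : ∑ i, v i * w i = 0)
    (f : Fin n → Fin n → ℝ) (hf : ∀ i j, f i j = f j i) :
    3 * ∑ i, ∑ j, f i j * pp u v i j ^ 2 ≤
      ∑ i, ∑ j, ∑ k, max (f i j) (max (f j k) (f k i)) * wd (pp u v) w i j k ^ 2 := by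
  classical
  obtain ⟨m, hm0, hm⟩ : ∃ m : ℝ, 0 ≤ m ∧ ∀ i j, |f i j| ≤ m := by
    refine ⟨∑ i, ∑ j, |f i j|, Finset.sum_nonneg fun _ _ => Finset.sum_nonneg fun _ _ => abs_nonneg _, ?_⟩
    intro i j
    have a1 : |f i j| ≤ ∑ j, |f i j| :=
      Finset.single_le_sum (f := fun j => |f i j|) (fun _ _ => abs_nonneg _) (Finset.mem_univ j)
    have a2 : ∑ j, |f i j| ≤ ∑ i, ∑ j, |f i j| :=
      Finset.single_le_sum (f := fun i => ∑ j, |f i j|)
        (fun _ _ => Finset.sum_nonneg fun _ _ => abs_nonneg _) (Finset.mem_univ i)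
    exact a1.trans a2
  have hm1 : ∀ i j, -m ≤ f i j := fun i j => (abs_le.mp (hm i j)).1
  have hm2 : ∀ i j, f i j ≤ m := fun i j => (abs_le.mp (hm i j)).2
  have hM1 : ∀ i j k, -m ≤ max (f i j) (max (f j k) (f k i)) := fun i j k => (hm1 i j).trans (le_max_left _ _)
  have hM2 : ∀ i j k, max (f i j) (max (f j k) (f k i)) ≤ m := fun i j k =>
    max_le (hm2 _ _) (max_le (hm2 _ _) (hm2 _ _))
  have I1 : ∀ i j, IntervalIntegrable (fun t : ℝ => if t < f i j then pp u v i j ^ 2 else 0)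
      MeasureTheory.volume (-m) m := fun i j => layer_int _ _ (sq_nonneg _) _ _
  have I2 : ∀ i j k, IntervalIntegrable (fun t : ℝ => if t < max (f i j) (max (f j k) (f k i))
      then wd (pp u v) w i j k ^ 2 else 0)
      MeasureTheory.volume (-m) m := fun i j k => layer_int _ _ (sq_nonneg _) _ _
  have J1 : IntervalIntegrable (fun t : ℝ => 3 * ∑ i, ∑ j, (if t < f i j then pp u v i j ^ 2 else 0))
      MeasureTheory.volume (-m) m := by
    apply IntervalIntegrable.const_mul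
    exact int_sum _ _ _ fun i => int_sum _ _ _ fun j => I1 i j
  have J2 : IntervalIntegrable (fun t : ℝ => ∑ i, ∑ j, ∑ k, (if t < max (f i j) (max (f j k) (f k i))
      then wd (pp u v) w i j k ^ 2 else 0))
      MeasureTheory.volume (-m) m :=
    int_sum _ _ _ fun i => int_sum _ _ _ fun j => int_sum _ _ _ fun k => I2 i j k
  have key := intervalIntegral.integral_mono_on (a := -m) (b := m) (by linarith) J1 J2
    (fun t _ => level u v w huu hvv hww huv huw hvw f hf t)
  have L1 : ∫ t in (-m)..m, (3 * ∑ i, ∑ j, (if t < f i j then pp u v i j ^ 2 else 0))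
      = 3 * ∑ i, ∑ j, f i j * pp u v i j ^ 2 + 6 * m := by
    rw [intervalIntegral.integral_const_mul]
    rw [intervalIntegral.integral_finsetSum]
    · have : ∀ i, ∫ t in (-m)..m, ∑ j, (if t < f i j then pp u v i j ^ 2 else 0)
          = ∑ j, (f i j * pp u v i j ^ 2 + m * pp u v i j ^ 2) := by
        intro i
        rw [intervalIntegral.integral_finsetSum]
        · refine Finset.sum_congr rfl fun j _ => ?_
          rw [layer m _ _ (sq_nonneg _) (hm1 i j) (hm2 i j)]
          ring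
        · intro j _
          exact I1 i j
      simp_rw [this, Finset.sum_add_distrib, ← Finset.mul_sum]
      rw [sum_pp2 u v huu hvv huv]
      ring
    · intro i _
      exact int_sum _ _ _ fun j => I1 i j
  have L2 : ∫ t in (-m)..m, (∑ i, ∑ j, ∑ k, (if t < max (f i j) (max (f j k) (f k i))
      then wd (pp u v) w i j k ^ 2 else 0))
      = ∑ i, ∑ j, ∑ k, max (f i j) (max (f j k) (f k i)) * wd (pp u v) w i j k ^ 2 + 6 * m := by
    rw [intervalIntegral.integral_finsetSum]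
    · have : ∀ i, ∫ t in (-m)..m, ∑ j, ∑ k, (if t < max (f i j) (max (f j k) (f k i))
          then wd (pp u v) w i j k ^ 2 else 0)
          = ∑ j, ∑ k, (max (f i j) (max (f j k) (f k i)) * wd (pp u v) w i j k ^ 2
              + m * wd (pp u v) w i j k ^ 2) := by
        intro i
        rw [intervalIntegral.integral_finsetSum]
        · refine Finset.sum_congr rfl fun j _ => ?_
          rw [intervalIntegral.integral_finsetSum]
          · refine Finset.sum_congr rfl fun k _ => ?_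
            rw [layer m _ _ (sq_nonneg _) (hM1 i j k) (hM2 i j k)]
            ring
          · intro k _
            exact I2 i j k
        · intro j _
          exact int_sum _ _ _ fun k => I2 i j k
      simp_rw [this, Finset.sum_add_distrib, ← Finset.mul_sum]
      rw [sum_D3 u v w huu hvv hww huv huw hvw]
      ring
    · intro i _
      exact int_sum _ _ _ fun j => int_sum _ _ _ fun k => I2 i j k
  rw [L1, L2] at key
  linarith

end QDom

open QDom in
theorem hull3_le {n : ℕ} (K : Fin n → Fin n → ℝ) (hK : ∀ i j, K i j = K j i) (c : Fin n → ℝ)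
    (h : ∀ i j k : Fin n, i ≠ j → i ≠ k → j ≠ k → 0 ≤ K i k + K j k + c i + c j)
    (u v w : Fin n → ℝ) (huu : ∑ i, u i * u i = 1) (hvv : ∑ i, v i * v i = 1) (hww : ∑ i, w i * w i = 1)
    (huv : ∑ i, u i * v i = 0) (huw : ∑ i, u i * w i = 0) (hvw : ∑ i, v i * w i = 0) :
    0 ≤ (1 / 2) * (∑ i, ∑ k, K i k * ((u i * w k - u k * w i) ^ 2 + (v i * w k - v k * w i) ^ 2))
      + ∑ i, c i * (u i ^ 2 + v i ^ 2) := by
  classical
  have D1 := dom u v w huu hvv hww huv huw hvw (fun i j => K i j - c i - c j)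
    (fun i j => by simp only [hK i j]; ring)
  -- replace the maximum by the sum
  have D2 : ∑ i, ∑ j, ∑ k, max (K i j - c i - c j) (max (K j k - c j - c k) (K k i - c k - c i))
        * wd (pp u v) w i j k ^ 2
      ≤ ∑ i, ∑ j, ∑ k, (K i j + K j k + K k i) * wd (pp u v) w i j k ^ 2 := by
    refine Finset.sum_le_sum fun i _ => Finset.sum_le_sum fun j _ => Finset.sum_le_sum fun k _ => ?_
    by_cases hij : i = j
    · have : wd (pp u v) w i j k = 0 := by subst hij; unfold wd pp; ring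
      rw [this]; simp
    by_cases hik : i = k
    · have : wd (pp u v) w i j k = 0 := by subst hik; unfold wd pp; ring
      rw [this]; simp
    by_cases hjk : j = k
    · have : wd (pp u v) w i j k = 0 := by subst hjk; unfold wd pp; ring
      rw [this]; simp
    refine mul_le_mul_of_nonneg_right ?_ (sq_nonneg _)
    have k1 := h i j k hij hik hjk
    have k2 := h j k i hjk (Ne.symm hij) (Ne.symm hik)
    have k3 := h k i j (Ne.symm hik) (Ne.symm hjk) hij
    have q1 := hK i j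
    have q2 := hK j k
    have q3 := hK k i
    refine max_le ?_ (max_le ?_ ?_) <;> linarith
  have D3 := D1.trans D2
  -- the triple sum
  have E1 : ∑ i, ∑ j, ∑ k, K i j * wd (pp u v) w i j k ^ 2
      = ∑ i, ∑ j, K i j * (pp u v i j ^ 2 + pp u w i j ^ 2 + pp v w i j ^ 2) := by
    refine Finset.sum_congr rfl fun i _ => Finset.sum_congr rfl fun j _ => ?_
    rw [← Finset.mul_sum, sum_D u v w huu hvv hww huv huw hvw]
  have W : ∀ i j k, wd (pp u v) w i j k = wd (pp u v) w k i j := by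
    intro i j k; unfold wd; ring
  have E2 : ∑ i, ∑ j, ∑ k, K j k * wd (pp u v) w i j k ^ 2
      = ∑ i, ∑ j, ∑ k, K i j * wd (pp u v) w i j k ^ 2 := by
    rw [rot3 (fun i j k => K j k * wd (pp u v) w i j k ^ 2)]
    refine Finset.sum_congr rfl fun i _ => Finset.sum_congr rfl fun j _ =>
      Finset.sum_congr rfl fun k _ => ?_
    rw [W i j k]
  have E3 : ∑ i, ∑ j, ∑ k, K k i * wd (pp u v) w i j k ^ 2
      = ∑ i, ∑ j, ∑ k, K i j * wd (pp u v) w i j k ^ 2 := by
    rw [rot3 (fun i j k => K k i * wd (pp u v) w i j k ^ 2)]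
    rw [← E2]
    refine Finset.sum_congr rfl fun i _ => Finset.sum_congr rfl fun j _ =>
      Finset.sum_congr rfl fun k _ => ?_
    rw [W i j k]
  have E4 : ∑ i, ∑ j, ∑ k, (K i j + K j k + K k i) * wd (pp u v) w i j k ^ 2
      = 3 * ∑ i, ∑ j, K i j * (pp u v i j ^ 2 + pp u w i j ^ 2 + pp v w i j ^ 2) := by
    simp_rw [add_mul, Finset.sum_add_distrib]
    rw [E2, E3, E1]
    simp_rw [mul_add, Finset.sum_add_distrib]
    ring
  rw [E4] at D3
  have F1 : ∑ i, ∑ j, c i * pp u v i j ^ 2 = ∑ i, c i * (u i ^ 2 + v i ^ 2) := by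
    refine Finset.sum_congr rfl fun i _ => ?_
    rw [← Finset.mul_sum, sum_pp u v huu hvv huv]
  have F2 : ∑ i, ∑ j, c j * pp u v i j ^ 2 = ∑ i, c i * (u i ^ 2 + v i ^ 2) := by
    rw [← F1, Finset.sum_comm]
    refine Finset.sum_congr rfl fun i _ => Finset.sum_congr rfl fun j _ => ?_
    unfold pp; ring
  have F3 : ∑ i, ∑ j, (K i j - c i - c j) * pp u v i j ^ 2
      = ∑ i, ∑ j, K i j * pp u v i j ^ 2 - 2 * ∑ i, c i * (u i ^ 2 + v i ^ 2) := by
    simp_rw [sub_mul, Finset.sum_sub_distrib]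
    rw [F1, F2]; ring
  have G1 : ∑ i, ∑ j, K i j * (pp u v i j ^ 2 + pp u w i j ^ 2 + pp v w i j ^ 2)
      = ∑ i, ∑ j, K i j * pp u v i j ^ 2
        + ∑ i, ∑ k, K i k * ((u i * w k - u k * w i) ^ 2 + (v i * w k - v k * w i) ^ 2) := by
    simp_rw [← Finset.sum_add_distrib]
    refine Finset.sum_congr rfl fun i _ => Finset.sum_congr rfl fun j _ => ?_
    unfold pp; ring
  rw [F3, G1] at D3
  linarith

open QDom in
theorem hull3_lt {n : ℕ} (K : Fin n → Fin n → ℝ) (hK : ∀ i j, K i j = K j i) (c : Fin n → ℝ)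
    (h : ∀ i j k : Fin n, i ≠ j → i ≠ k → j ≠ k → 0 < K i k + K j k + c i + c j)
    (u v w : Fin n → ℝ) (huu : ∑ i, u i * u i = 1) (hvv : ∑ i, v i * v i = 1) (hww : ∑ i, w i * w i = 1)
    (huv : ∑ i, u i * v i = 0) (huw : ∑ i, u i * w i = 0) (hvw : ∑ i, v i * w i = 0) :
    0 < (1 / 2) * (∑ i, ∑ k, K i k * ((u i * w k - u k * w i) ^ 2 + (v i * w k - v k * w i) ^ 2))
      + ∑ i, c i * (u i ^ 2 + v i ^ 2) := by
  classical
  obtain ⟨η, hη, hη2⟩ : ∃ η : ℝ, 0 < η ∧ ∀ i j k : Fin n, i ≠ j → i ≠ k → j ≠ k →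
      η ≤ K i k + K j k + c i + c j := by
    set T : Finset (Fin n × Fin n × Fin n) :=
      Finset.univ.filter (fun p => p.1 ≠ p.2.1 ∧ p.1 ≠ p.2.2 ∧ p.2.1 ≠ p.2.2) with hT
    by_cases hne : T.Nonempty
    · obtain ⟨p, hp, hmin⟩ := T.exists_min_image
        (fun p => K p.1 p.2.2 + K p.2.1 p.2.2 + c p.1 + c p.2.1) hne
      rw [hT, Finset.mem_filter] at hp
      refine ⟨_, h p.1 p.2.1 p.2.2 hp.2.1 hp.2.2.1 hp.2.2.2, ?_⟩
      intro i j k h1 h2 h3
      exact hmin (i, j, k) (by rw [hT, Finset.mem_filter]; exact ⟨Finset.mem_univ _, h1, h2, h3⟩)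
    · refine ⟨1, one_pos, ?_⟩
      intro i j k h1 h2 h3
      exact absurd ⟨(i, j, k), by rw [hT, Finset.mem_filter]; exact ⟨Finset.mem_univ _, h1, h2, h3⟩⟩ hne
  have key := hull3_le K hK (fun i => c i - η / 2)
    (fun i j k h1 h2 h3 => by have := hη2 i j k h1 h2 h3; linarith) u v w huu hvv hww huv huw hvw
  have : ∑ i, (c i - η / 2) * (u i ^ 2 + v i ^ 2) = ∑ i, c i * (u i ^ 2 + v i ^ 2) - η := by
    simp_rw [sub_mul, Finset.sum_sub_distrib, ← Finset.mul_sum, Finset.sum_add_distrib, pow_two, huu, hvv]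
    ring
  rw [this] at key
  linarith

end Pool.Agent.Helper696_RF
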