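import Mathlib
import Pool.Agent.Helper696_RF.PAlg
import Pool.Agent.Helper696_RF.Q
import Pool.Agent.Helper696_RF.G
import Pool.Agent.Helper696_RF.O
import Pool.Agent.Helper696_RF.P

/-!
Needs on disk (all on origin/main): `Pool/Agent/Helper696_RF/` (the file PAlg imports Alg, Defs, Loc), `Pool/Agent/H858R2/Defs.lean`
and the directory `Pool/Agent/QTot` (starting files).
-/

set_option autoImplicit false
open scoped ContDiff Manifold Topology Matrix
open Set Filter

namespace Pool.Agent.Helper696_RF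

open Pool.Agent.QTot Pool.Agent.H858R2

theorem U_ric {n : ℕ} (K : Mt n) (h0 : ∀ i, K i i = 0) (i : Fin n) : ric4 i (dg K) = kr K i := by
  rw [O_ric_dg, h0, sub_zero, kr]

theorem U_scal {n : ℕ} (K : Mt n) (h0 : ∀ i, K i i = 0) : scal4 (dg K) = ks K := by
  have h1 : scal4 (dg K) = ∑ a, ric4 a (dg K) := by simp [scal4]
  rw [h1, ks]
  exact Finset.sum_congr rfl fun i _ => U_ric K h0 i

theorem U_phi {n : ℕ} (α γ : ℝ) (a b c : Fin n) (R : T4 n) :
    phi α γ a b c R = R a c a c + R b c b c + α * (ric4 a R + ric4 b R) + 2 * γ * scal4 R := by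
  simp [phi, ev4]
  ring

theorem U_psi {n : ℕ} (β : ℝ) (a b : Fin n) (R : T4 n) :
    psi β a b R = R a b a b + β * scal4 R := by
  simp [psi, ev4]

theorem phi_dg {n : ℕ} (K : Mt n) (hK : ∀ i j, K i j = K j i) (h0 : ∀ i, K i i = 0) (α γ : ℝ) {a b c : Fin n}
    (hac : a ≠ c) (hbc : b ≠ c) :
    phi α γ a b c (dg K) = K a c + K b c + α * (kr K a + kr K b) + 2 * γ * ks K := by
  rw [U_phi, O_dg_diag K hac, O_dg_diag K hbc, U_ric K h0, U_ric K h0, U_scal K h0]

theorem psi_dg {n : ℕ} (K : Mt n) (hK : ∀ i j, K i j = K j i) (h0 : ∀ i, K i i = 0) (β : ℝ) {a b : Fin n}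
    (hab : a ≠ b) : psi β a b (dg K) = K a b + β * ks K := by
  rw [U_psi, O_dg_diag K hab, U_scal K h0]

theorem KQ_dg {n : ℕ} (K : Mt n) (hK : ∀ i j, K i j = K j i) (h0 : ∀ i, K i i = 0) :
    QQ (dg K) = dg (KQ K) ∧ (∀ i j, KQ K i j = KQ K j i) ∧ ∀ i, KQ K i i = 0 := by
  refine ⟨?_, ?_, ?_⟩
  · rw [qq_dg K hK]
    apply P_dg_congr
    intro i j hij
    have h1 : ∑ p, (if p = i ∨ p = j then 0 else K i p * K j p) = ∑ p, K i p * K j p := by
      refine Finset.sum_congr rfl fun p _ => ?_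
      by_cases h : p = i ∨ p = j
      · rw [if_pos h]
        rcases h with h | h
        · rw [h, h0 i]; ring
        · rw [h, h0 j]; ring
      · rw [if_neg h]
    simp only [KQ, h1, if_neg hij]
    ring
  · intro i j
    simp only [KQ]
    by_cases hij : i = j
    · subst hij; rfl
    · rw [if_neg hij, if_neg (Ne.symm hij), hK i j]
      have h1 : ∑ p, K i p * K j p = ∑ p, K j p * K i p :=
        Finset.sum_congr rfl fun p _ => mul_comm _ _
      rw [h1]
  · intro i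
    simp [KQ]

theorem U_rot {n : ℕ} (K : Mt n) (hK : ∀ i j, K i j = K j i) (O : Mt n) (a b : Fin n) :
    rot (dg K) O a b a b = (1 / 2) * ∑ i, ∑ j, K i j * (O i a * O j b - O j a * O i b) ^ 2 := by
  rw [O_rot_dg]
  have e2 : ∑ i, ∑ j, K i j * (O i a * O j b * (O i a * O j b - O j a * O i b)) =
      ∑ i, ∑ j, -(K i j * (O j a * O i b * (O i a * O j b - O j a * O i b))) := by
    rw [Finset.sum_comm]
    refine Finset.sum_congr rfl fun p _ => Finset.sum_congr rfl fun q _ => ?_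
    rw [hK q p]; ring
  have e3 : ∑ i, ∑ j, K i j * (O i a * O j b - O j a * O i b) ^ 2 =
      (∑ i, ∑ j, K i j * (O i a * O j b * (O i a * O j b - O j a * O i b))) +
      ∑ i, ∑ j, -(K i j * (O j a * O i b * (O i a * O j b - O j a * O i b))) := by
    rw [← Finset.sum_add_distrib]
    refine Finset.sum_congr rfl fun p _ => ?_
    rw [← Finset.sum_add_distrib]
    refine Finset.sum_congr rfl fun q _ => ?_
    ring
  rw [e3, ← e2]
  ring

theorem U_ricrot {n : ℕ} (K : Mt n) (h0 : ∀ i, K i i = 0) {O : Mt n} (hO : Oᵀ * O = 1) (a : Fin n) :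
    ric4 a (rot (dg K) O) = ∑ i, kr K i * O i a ^ 2 := by
  rw [O_ric K hO]
  refine Finset.sum_congr rfl fun i _ => ?_
  rw [U_ric K h0, mul_comm]

theorem U_scalrot {n : ℕ} (K : Mt n) (h0 : ∀ i, K i i = 0) {O : Mt n} (hO : Oᵀ * O = 1) :
    scal4 (rot (dg K) O) = ks K := by
  rw [O_scal K hO, U_scal K h0]

theorem U_phirot {n : ℕ} (K : Mt n) (hK : ∀ i j, K i j = K j i) (h0 : ∀ i, K i i = 0) (α γ : ℝ)
    (a b c : Fin n) {O : Mt n} (hO : Oᵀ * O = 1) :
    phi α γ a b c (rot (dg K) O) =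
      (1 / 2) * (∑ i, ∑ k, K i k * ((O i a * O k c - O k a * O i c) ^ 2 +
        (O i b * O k c - O k b * O i c) ^ 2))
      + ∑ i, (α * kr K i + γ * ks K) * (O i a ^ 2 + O i b ^ 2) := by
  have e1 : ∑ i, ∑ k, K i k * ((O i a * O k c - O k a * O i c) ^ 2 +
        (O i b * O k c - O k b * O i c) ^ 2) =
      (∑ i, ∑ k, K i k * (O i a * O k c - O k a * O i c) ^ 2) +
        ∑ i, ∑ k, K i k * (O i b * O k c - O k b * O i c) ^ 2 := by
    rw [← Finset.sum_add_distrib]
    refine Finset.sum_congr rfl fun p _ => ?_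
    rw [← Finset.sum_add_distrib]
    refine Finset.sum_congr rfl fun q _ => ?_
    ring
  have hcs : ∀ c, ∑ i, O i c ^ 2 = 1 := by
    intro c
    have := O_col hO c c
    rw [O_d_self] at this
    rw [← this]
    refine Finset.sum_congr rfl fun p _ => ?_
    ring
  have e2 : ∑ i, (α * kr K i + γ * ks K) * (O i a ^ 2 + O i b ^ 2) =
      α * ((∑ i, kr K i * O i a ^ 2) + ∑ i, kr K i * O i b ^ 2) +
        γ * ks K * ((∑ i, O i a ^ 2) + ∑ i, O i b ^ 2) := by
    rw [← Finset.sum_add_distrib, ← Finset.sum_add_distrib, Finset.mul_sum, Finset.mul_sum,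
      ← Finset.sum_add_distrib]
    refine Finset.sum_congr rfl fun p _ => ?_
    ring
  rw [U_phi, U_rot K hK, U_rot K hK, U_ricrot K h0 hO, U_ricrot K h0 hO, U_scalrot K h0 hO,
    e1, e2, hcs, hcs]
  ring

theorem phi_hull_lt {n : ℕ} (K : Mt n) (hK : ∀ i j, K i j = K j i) (h0 : ∀ i, K i i = 0) (α γ : ℝ)
    (h : ∀ i j k : Fin n, i ≠ j → i ≠ k → j ≠ k → 0 < phi α γ i j k (dg K)) {a b c : Fin n} (hab : a ≠ b)
    (hac : a ≠ c) (hbc : b ≠ c) {O : Mt n} (hO : Oᵀ * O = 1) : 0 < phi α γ a b c (rot (dg K) O) := by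
  rw [U_phirot K hK h0 α γ a b c hO]
  refine hull3_lt K hK (fun i => α * kr K i + γ * ks K) ?_ (fun i => O i a) (fun i => O i b)
    (fun i => O i c) ?_ ?_ ?_ ?_ ?_ ?_
  · intro i j k hij hik hjk
    have := h i j k hij hik hjk
    rw [phi_dg K hK h0 α γ hik hjk] at this
    linarith
  · rw [O_col hO, O_d_self]
  · rw [O_col hO, O_d_self]
  · rw [O_col hO, O_d_self]
  · rw [O_col hO, O_d_ne hab]
  · rw [O_col hO, O_d_ne hac]
  · rw [O_col hO, O_d_ne hbc]

theorem phi_hull_le {n : ℕ} (K : Mt n) (hK : ∀ i j, K i j = K j i) (h0 : ∀ i, K i i = 0) (α γ : ℝ)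
    (h : ∀ i j k : Fin n, i ≠ j → i ≠ k → j ≠ k → 0 ≤ phi α γ i j k (dg K)) {a b c : Fin n} (hab : a ≠ b)
    (hac : a ≠ c) (hbc : b ≠ c) {O : Mt n} (hO : Oᵀ * O = 1) : 0 ≤ phi α γ a b c (rot (dg K) O) := by
  rw [U_phirot K hK h0 α γ a b c hO]
  refine hull3_le K hK (fun i => α * kr K i + γ * ks K) ?_ (fun i => O i a) (fun i => O i b)
    (fun i => O i c) ?_ ?_ ?_ ?_ ?_ ?_
  · intro i j k hij hik hjk
    have := h i j k hij hik hjk
    rw [phi_dg K hK h0 α γ hik hjk] at this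
    linarith
  · rw [O_col hO, O_d_self]
  · rw [O_col hO, O_d_self]
  · rw [O_col hO, O_d_self]
  · rw [O_col hO, O_d_ne hab]
  · rw [O_col hO, O_d_ne hac]
  · rw [O_col hO, O_d_ne hbc]

theorem U_wsum {n : ℕ} {a b : Fin n} (hab : a ≠ b) {O : Mt n} (hO : Oᵀ * O = 1) :
    ∑ i, ∑ j, (O i a * O j b - O j a * O i b) ^ 2 = 2 := by
  have hrow : ∀ i, ∑ j, (O i a * O j b - O j a * O i b) ^ 2 = O i a ^ 2 + O i b ^ 2 := by
    intro i
    have e : ∑ j, (O i a * O j b - O j a * O i b) ^ 2 =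
        O i a ^ 2 * (∑ j, O j b * O j b) - 2 * O i a * O i b * (∑ j, O j a * O j b)
        + O i b ^ 2 * (∑ j, O j a * O j a) := by
      simp only [Finset.mul_sum, ← Finset.sum_sub_distrib, ← Finset.sum_add_distrib]
      refine Finset.sum_congr rfl fun p _ => ?_
      ring
    rw [e, O_col hO, O_col hO, O_col hO, O_d_self, O_d_self, O_d_ne hab]
    ring
  have hcs : ∀ c, ∑ i, O i c ^ 2 = 1 := by
    intro c
    have := O_col hO c c
    rw [O_d_self] at this
    rw [← this]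
    refine Finset.sum_congr rfl fun p _ => ?_
    ring
  simp only [hrow, Finset.sum_add_distrib, hcs]
  norm_num

theorem U_psirot {n : ℕ} (K : Mt n) (hK : ∀ i j, K i j = K j i) (h0 : ∀ i, K i i = 0) (β : ℝ)
    {a b : Fin n} (hab : a ≠ b) {O : Mt n} (hO : Oᵀ * O = 1) :
    psi β a b (rot (dg K) O) =
      (1 / 2) * ∑ i, ∑ j, (K i j + β * ks K) * (O i a * O j b - O j a * O i b) ^ 2 := by
  rw [U_psi, U_rot K hK, U_scalrot K h0 hO]
  have e : ∑ i, ∑ j, (K i j + β * ks K) * (O i a * O j b - O j a * O i b) ^ 2 =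
      (∑ i, ∑ j, K i j * (O i a * O j b - O j a * O i b) ^ 2) +
        β * ks K * ∑ i, ∑ j, (O i a * O j b - O j a * O i b) ^ 2 := by
    rw [Finset.mul_sum, ← Finset.sum_add_distrib]
    refine Finset.sum_congr rfl fun p _ => ?_
    rw [Finset.mul_sum, ← Finset.sum_add_distrib]
    refine Finset.sum_congr rfl fun q _ => ?_
    ring
  rw [e, U_wsum hab hO]
  ring

theorem psi_hull_lt {n : ℕ} (K : Mt n) (hK : ∀ i j, K i j = K j i) (h0 : ∀ i, K i i = 0) (β : ℝ)
    (h : ∀ i j : Fin n, i ≠ j → 0 < psi β i j (dg K)) {a b : Fin n} (hab : a ≠ b)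
    {O : Mt n} (hO : Oᵀ * O = 1) : 0 < psi β a b (rot (dg K) O) := by
  rw [U_psirot K hK h0 β hab hO]
  have hterm : ∀ i j, 0 ≤ (K i j + β * ks K) * (O i a * O j b - O j a * O i b) ^ 2 := by
    intro i j
    by_cases hij : i = j
    · subst hij
      have : O i a * O i b - O i a * O i b = 0 := by ring
      rw [this]; simp
    · have := h i j hij
      rw [psi_dg K hK h0 β hij] at this
      positivity
  by_contra hcon
  have hle : ∑ i, ∑ j, (K i j + β * ks K) * (O i a * O j b - O j a * O i b) ^ 2 = 0 := by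
    have h1 : 0 ≤ ∑ i, ∑ j, (K i j + β * ks K) * (O i a * O j b - O j a * O i b) ^ 2 :=
      Finset.sum_nonneg fun i _ => Finset.sum_nonneg fun j _ => hterm i j
    linarith
  have hz : ∀ i j, (O i a * O j b - O j a * O i b) ^ 2 = 0 := by
    intro i j
    have h2 := (Finset.sum_eq_zero_iff_of_nonneg
      (fun i _ => Finset.sum_nonneg fun j _ => hterm i j)).1 hle i (Finset.mem_univ i)
    have h3 := (Finset.sum_eq_zero_iff_of_nonneg (fun j _ => hterm i j)).1 h2 j (Finset.mem_univ j)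
    by_cases hij : i = j
    · subst hij; ring
    · have h4 := h i j hij
      rw [psi_dg K hK h0 β hij] at h4
      rcases mul_eq_zero.1 h3 with h5 | h5
      · exact absurd h5 h4.ne'
      · exact h5
  have h2 := U_wsum hab hO
  simp only [hz, Finset.sum_const_zero] at h2
  norm_num at h2

theorem psi_hull_le {n : ℕ} (K : Mt n) (hK : ∀ i j, K i j = K j i) (h0 : ∀ i, K i i = 0) (β : ℝ)
    (h : ∀ i j : Fin n, i ≠ j → 0 ≤ psi β i j (dg K)) {a b : Fin n} (hab : a ≠ b)
    {O : Mt n} (hO : Oᵀ * O = 1) : 0 ≤ psi β a b (rot (dg K) O) := by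
  rw [U_psirot K hK h0 β hab hO]
  refine mul_nonneg (by norm_num) (Finset.sum_nonneg fun i _ => Finset.sum_nonneg fun j _ => ?_)
  by_cases hij : i = j
  · subst hij
    have : O i a * O i b - O i a * O i b = 0 := by ring
    rw [this]; simp
  · have := h i j hij
    rw [psi_dg K hK h0 β hij] at this
    positivity

end Pool.Agent.Helper696_RF
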