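import Mathlib
import Pool.Agent.Helper696_RF.PAlg
import Pool.Agent.Helper696_RF.G
import Pool.Agent.Helper696_RF.O
import Pool.Agent.Helper696_RF.P

/-!
Needs on disk (all on origin/main): `Pool/Agent/Helper696_RF/` (the file PAlg imports Alg, Defs, Loc), `Pool/Agent/H858R2/Defs.lean`
and the directory `Pool/Agent/QTot` (starting files).
-/

set_option autoImplicit false
open scoped ContDiff Manifold Topology Matrix
open Set Filter

namespace Pool.Agent.Helper696_RF

open Pool.Agent.QTot Pool.Agent.H858R2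

/-! ## TARGET V (import also `Pool.Agent.Helper696_RF.G`, `Pool.Agent.Helper696_RF.O`, `Pool.Agent.Helper696_RF.P`). Variant of `dg_op` at
the end of `O.lean` with `psi β a b` in place of `fnu ν a b` (`psi β a b (dg K) = K a b + β * scal4 (dg K)` for `a ≠ b`, and
`|scal4 (dg K)| ≤ n (n N)`, `N` the norm); the proof of `dg_op` works with obvious changes. -/
theorem dg_op2 (n : ℕ) : ∃ c : ℝ, ∀ (K : Mt n), (∀ i j, K i j = K j i) → ∀ β κ : ℝ,
    0 < β → (∀ a b : Fin n, a ≠ b → -κ ≤ psi β a b (dg K)) →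
    ∀ O : Mt n, Oᵀ * O = 1 → ∀ φ : Mt n, φᵀ = -φ →
      -((c * β * Real.sqrt (∑ i, ∑ j, ∑ k, ∑ l, rot (dg K) O i j k l ^ 2) + 2 * κ)
        * ∑ i, ∑ j, φ i j ^ 2) ≤
        ∑ i, ∑ j, ∑ k, ∑ l, rot (dg K) O i j k l * φ i j * φ k l := by
  refine ⟨2 * (n : ℝ) ^ 2, ?_⟩
  intro K hK β κ hβ hf O hO φ hφ
  rw [O_norm_rot _ hO, O_quad K O φ hφ]
  set N := Real.sqrt (∑ i, ∑ j, ∑ k, ∑ l, dg K i j k l ^ 2) with hN
  have hN0 : 0 ≤ N := Real.sqrt_nonneg _
  have hent : ∀ i j, |dg K i j i j| ≤ N := fun i j => O_entry (dg K) i j i j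
  have hricb : ∀ i, |ric4 i (dg K)| ≤ n * N := by
    intro i
    have h1 : ric4 i (dg K) = ∑ p, dg K i p i p := by
      simp [ric4, ev4]
    rw [h1]
    refine (Finset.abs_sum_le_sum_abs _ _).trans ?_
    refine (Finset.sum_le_sum fun p _ => hent i p).trans (le_of_eq ?_)
    simp
  have hscb : |scal4 (dg K)| ≤ n * (n * N) := by
    have h1 : scal4 (dg K) = ∑ p, ric4 p (dg K) := by
      simp [scal4]
    rw [h1]
    refine (Finset.abs_sum_le_sum_abs _ _).trans ?_
    refine (Finset.sum_le_sum fun p _ => hricb p).trans (le_of_eq ?_)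
    simp
  have hlow : ∀ a b, a ≠ b → -(κ + (n : ℝ) ^ 2 * β * N) ≤ K a b := by
    intro a b hab
    have h1 := hf a b hab
    have h2 : psi β a b (dg K) = K a b + β * scal4 (dg K) := by
      simp only [psi, LinearMap.add_apply, LinearMap.smul_apply, smul_eq_mul]
      congr 1
      exact O_dg_diag K hab
    rw [h2] at h1
    have hs := (abs_le.1 hscb).2
    have h3 : β * scal4 (dg K) ≤ β * (n * (n * N)) := mul_le_mul_of_nonneg_left hs hβ.le
    nlinarith
  -- the antisymmetric array `ψ`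
  set ψ : Fin n → Fin n → ℝ := fun a b => ∑ j, (∑ i, φ i j * O a i) * O b j with hψdef
  have hψ0 : ∀ a, ψ a a = 0 := by
    intro a
    have : ψ a a = -ψ a a := by
      simp only [hψdef, Finset.sum_mul]
      conv_lhs => rw [Finset.sum_comm]
      simp only [← Finset.sum_neg_distrib]
      refine Finset.sum_congr rfl fun i _ => Finset.sum_congr rfl fun j _ => ?_
      have := congrFun (congrFun hφ i) j
      rw [Matrix.transpose_apply, Matrix.neg_apply] at this
      rw [this]; ring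
    linarith
  have hψn : ∑ a, ∑ b, ψ a b ^ 2 = ∑ i, ∑ j, φ i j ^ 2 := by
    have hcol : ∀ a b, ∑ i, Oᵀ a i * Oᵀ b i = O_d a b := by
      intro a b
      simpa only [Matrix.transpose_apply] using O_col hO a b
    have t1 : ∀ a, ∑ b, ψ a b ^ 2 = ∑ j, (∑ i, φ i j * O a i) ^ 2 := by
      intro a
      exact O_one Oᵀ hcol fun j => ∑ i, φ i j * O a i
    simp only [t1]
    rw [Finset.sum_comm]
    have t2 : ∀ j, ∑ a, (∑ i, φ i j * O a i) ^ 2 = ∑ i, φ i j ^ 2 := by
      intro j
      exact O_one Oᵀ hcol fun i => φ i j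
    simp only [t2]
    rw [Finset.sum_comm]
  rw [← hψn]
  have hterm : ∀ a b, -((2 * (n : ℝ) ^ 2 * β * N + 2 * κ) * ψ a b ^ 2) ≤
      2 * K a b * ψ a b ^ 2 := by
    intro a b
    by_cases hab : a = b
    · subst hab; rw [hψ0]; simp
    · have h1 := hlow a b hab
      have h2 : 0 ≤ ψ a b ^ 2 := sq_nonneg _
      nlinarith
  rw [Finset.mul_sum, ← Finset.sum_neg_distrib]
  refine Finset.sum_le_sum fun a _ => ?_
  rw [Finset.mul_sum, ← Finset.sum_neg_distrib]
  exact Finset.sum_le_sum fun b _ => hterm a b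

end Pool.Agent.Helper696_RF
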