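import Mathlib
import Pool.Agent.Helper696_RF.Sym
import Pool.Agent.Helper696_RF.PAlg
import Pool.Agent.Helper696_RF.R
import Pool.Agent.Helper696_RF.S
import Pool.Agent.Helper696_RF.Tt
import Pool.Agent.Helper696_RF.U
import Pool.Agent.Helper696_RF.V

/-!
# Assembly: blow-up limits of Ricci flows with pure curvature
-/

set_option autoImplicit false
open scoped ContDiff Manifold Topology Matrix
open Set Filter

namespace Pool.Agent.Helper696_RF

open Pool.Agent.QTot Pool.Agent.H858R2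

/-- the class of pure curvature tensors -/
def CP (n : ℕ) : Set (T4 n) :=
  {R | ∃ O : Mt n, Oᵀ * O = 1 ∧ ∃ K : Mt n, (∀ i j, K i j = K j i) ∧ (∀ i, K i i = 0) ∧ rot R O = dg K}

theorem CP_cone {n : ℕ} {R : T4 n} (h : R ∈ CP n) (c : ℝ) : c • R ∈ CP n := by
  obtain ⟨O, hO, K, h1, h2, h⟩ := h
  refine ⟨O, hO, c • K, fun i j => ?_, fun i => ?_, ?_⟩
  · simp only [Matrix.smul_apply, h1 i j]
  · simp only [Matrix.smul_apply, h2 i, smul_zero]
  · rw [G_rot_smul, h, ← dg_smul]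

theorem CP_rot {n : ℕ} {R : T4 n} (h : R ∈ CP n) {O' : Mt n} (hO' : O'ᵀ * O' = 1) : rot R O' ∈ CP n := by
  obtain ⟨O, hO, K, h1, h2, h⟩ := h
  refine ⟨O'ᵀ * O, ?_, K, h1, h2, ?_⟩
  · rw [Matrix.transpose_mul, Matrix.transpose_transpose, Matrix.mul_assoc, ← Matrix.mul_assoc O',
      orth_T hO', Matrix.one_mul, hO]
  · rw [G_rot_mul, ← Matrix.mul_assoc, orth_T hO', Matrix.one_mul, h]

theorem CP_closed {n : ℕ} : IsClosed (CP n) := by
  have hev : ∀ a b c d : Fin n, Continuous fun W : T4 n => W a b c d := fun a b c d => by fun_prop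
  have hS : IsClosed {W : T4 n | (∀ i j, W i j i j = W j i j i) ∧ (∀ i, W i i i i = 0) ∧
      W = dg (fun i j => W i j i j)} := by
    refine IsClosed.inter ?_ (IsClosed.inter ?_ ?_)
    · have : {W : T4 n | ∀ i j, W i j i j = W j i j i} = ⋂ i, ⋂ j, {W : T4 n | W i j i j = W j i j i} := by
        ext W; simp
      show IsClosed {W : T4 n | ∀ i j, W i j i j = W j i j i}
      rw [this]
      exact isClosed_iInter fun i => isClosed_iInter fun j => isClosed_eq (hev _ _ _ _) (hev _ _ _ _)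
    · have : {W : T4 n | ∀ i, W i i i i = 0} = ⋂ i, {W : T4 n | W i i i i = 0} := by
        ext W; simp
      show IsClosed {W : T4 n | ∀ i, W i i i i = 0}
      rw [this]
      exact isClosed_iInter fun i => isClosed_eq (hev _ _ _ _) continuous_const
    · show IsClosed {W : T4 n | W = dg (fun i j => W i j i j)}
      refine isClosed_eq continuous_id ?_
      refine continuous_pi fun i => continuous_pi fun j => continuous_pi fun k =>
        continuous_pi fun l => ?_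
      exact (hev i j i j).mul continuous_const
  have hS' : ∀ W : T4 n, (∃ K : Mt n, (∀ i j, K i j = K j i) ∧ (∀ i, K i i = 0) ∧ W = dg K) ↔
      W ∈ {W : T4 n | (∀ i j, W i j i j = W j i j i) ∧ (∀ i, W i i i i = 0) ∧
      W = dg (fun i j => W i j i j)} := by
    intro W
    constructor
    · rintro ⟨K, h1, h2, rfl⟩
      have e : ∀ i j, dg K i j i j = K i j := by
        intro i j
        by_cases h : i = j
        · subst h; simp [dg, h2]
        · exact O_dg_diag K h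
      refine ⟨fun i j => ?_, fun i => ?_, ?_⟩
      · rw [e, e, h1]
      · rw [e, h2]
      · congr 1
        funext i j
        exact (e i j).symm
    · rintro ⟨h1, h2, h3⟩
      exact ⟨_, h1, h2, h3⟩
  rw [isClosed_iff_ultrafilter]
  intro R u hu hs
  have hch : ∀ R' : T4 n, ∃ O : Mt n, R' ∈ CP n → Oᵀ * O = 1 ∧ ∃ K : Mt n, (∀ i j, K i j = K j i) ∧
      (∀ i, K i i = 0) ∧ rot R' O = dg K := by
    intro R'
    by_cases h : R' ∈ CP n
    · obtain ⟨O, hO, h'⟩ := h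
      exact ⟨O, fun _ => ⟨hO, h'⟩⟩
    · exact ⟨1, fun h' => absurd h' h⟩
  choose f hf using hch
  obtain ⟨O, hO, hlim⟩ := (isCompact_orth n).ultrafilter_le_nhds (u.map f) (by
    rw [le_principal_iff]
    show f ⁻¹' _ ∈ u
    filter_upwards [hs] with R' h' using (hf R' h').1)
  have hOl : Tendsto f u (𝓝 O) := hlim
  have hRl : Tendsto (fun R' : T4 n => R') u (𝓝 R) := hu
  have hrl : Tendsto (fun R' => rot R' (f R')) u (𝓝 (rot R O)) := MaxP.tendsto_rot hRl hOl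
  refine ⟨O, hO, (hS' _).2 ?_⟩
  refine hS.mem_of_tendsto hrl ?_
  filter_upwards [hs] with R' h'
  exact (hS' _).1 (hf R' h').2

theorem exists_perm3 {n : ℕ} {a b c i j k : Fin n} (hab : a ≠ b) (hac : a ≠ c) (hbc : b ≠ c)
    (hij : i ≠ j) (hik : i ≠ k) (hjk : j ≠ k) :
    ∃ σ : Equiv.Perm (Fin n), σ a = i ∧ σ b = j ∧ σ c = k := by
  obtain ⟨σ, h1, h2⟩ := P_exists_perm hab hij
  refine ⟨Equiv.swap (σ c) k * σ, ?_, ?_, ?_⟩
  · rw [Equiv.Perm.mul_apply, h1]
    refine Equiv.swap_apply_of_ne_of_ne ?_ hik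
    rw [← h1]
    exact fun h => hac (σ.injective h)
  · rw [Equiv.Perm.mul_apply, h2]
    refine Equiv.swap_apply_of_ne_of_ne ?_ hjk
    rw [← h2]
    exact fun h => hbc (σ.injective h)
  · rw [Equiv.Perm.mul_apply, Equiv.swap_apply_left]

theorem ric_perm {n : ℕ} (R : T4 n) (σ : Equiv.Perm (Fin n)) (a : Fin n) :
    ric4 a (fun i j k l => R (σ i) (σ j) (σ k) (σ l)) = ric4 (σ a) R := by
  unfold ric4
  rw [LinearMap.sum_apply, LinearMap.sum_apply,
    ← Equiv.sum_comp σ (fun d => ev4 (σ a) d (σ a) d R)]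
  rfl

theorem scal_perm {n : ℕ} (R : T4 n) (σ : Equiv.Perm (Fin n)) :
    scal4 (fun i j k l => R (σ i) (σ j) (σ k) (σ l)) = scal4 R := by
  unfold scal4
  rw [LinearMap.sum_apply, LinearMap.sum_apply, ← Equiv.sum_comp σ (fun a => ric4 a R)]
  exact Finset.sum_congr rfl fun a _ => ric_perm R σ a

theorem phi_perm {n : ℕ} (R : T4 n) (σ : Equiv.Perm (Fin n)) (α γ : ℝ) (a b c : Fin n) :
    phi α γ a b c (fun i j k l => R (σ i) (σ j) (σ k) (σ l)) = phi α γ (σ a) (σ b) (σ c) R := by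
  rw [U_phi, U_phi, ric_perm, ric_perm, scal_perm]

theorem psi_perm {n : ℕ} (R : T4 n) (σ : Equiv.Perm (Fin n)) (β : ℝ) (a b : Fin n) :
    psi β a b (fun i j k l => R (σ i) (σ j) (σ k) (σ l)) = psi β (σ a) (σ b) R := by
  rw [U_psi, U_psi, scal_perm]

theorem CPIC_of_PIC {n : ℕ} {K : Mt n} (hp : PIC (dg K)) : CPIC K := by
  intro a b c d hab hac had hbc hbd hcd
  have h := P_iso hp hac hab had hbc.symm hcd hbd
  linarith

theorem exists_small {ι : Type} [Finite ι] (p q : ι → ℝ) (h0 : ∀ i, 0 ≤ p i) (h1 : ∀ i, p i = 0 → 0 < q i) :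
    ∃ t : ℝ, 0 < t ∧ ∀ i, 0 < p i + t * q i := by
  have h : ∀ i, ∀ᶠ t in 𝓝[>] (0 : ℝ), 0 < p i + t * q i := by
    intro i
    rcases (h0 i).eq_or_lt with h | h
    · filter_upwards [self_mem_nhdsWithin] with t ht
      rw [← h, zero_add]
      exact mul_pos ht (h1 i h.symm)
    · have hc : Tendsto (fun t : ℝ => p i + t * q i) (𝓝[>] 0) (𝓝 (p i + 0 * q i)) :=
        (Continuous.tendsto (by fun_prop) 0).mono_left nhdsWithin_le_nhds
      rw [zero_mul, add_zero] at hc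
      exact hc.eventually (lt_mem_nhds h)
  obtain ⟨t, ht, ht'⟩ := ((eventually_all.2 h).and self_mem_nhdsWithin).exists
  exact ⟨t, ht', ht⟩

theorem dg_add_smul {n : ℕ} (K K' : Mt n) (t : ℝ) : dg (K + t • K') = dg K + t • dg K' := by
  funext i j k l
  simp only [dg, Pi.add_apply, Pi.smul_apply, smul_eq_mul, Matrix.smul_apply, Matrix.add_apply]
  ring

/-! ### parameters -/

/-- first parameter along the path -/
noncomputable def pa (σ : ℝ) : ℝ := min σ (1 / 2)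

/-- second parameter along the path -/
noncomputable def pg (n : ℕ) (Γ σ : ℝ) : ℝ := (min σ (1 / 2)) ^ 2 / n + Γ * max (σ - 1 / 2) 0

/-- the family of functionals -/
noncomputable def pL {n : ℕ} (Γ B σ x : ℝ) (a b c : Fin n) : T4 n →ₗ[ℝ] ℝ :=
  x • phi (pa σ) (pg n Γ σ) a b c + (1 - x) • psi (B * σ) a b

theorem pL_one {n : ℕ} (Γ B σ : ℝ) (a b c : Fin n) : pL Γ B σ 1 a b c = phi (pa σ) (pg n Γ σ) a b c := by
  unfold pL
  rw [one_smul, sub_self, zero_smul, add_zero]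

theorem pL_zero {n : ℕ} (Γ B σ : ℝ) (a b c : Fin n) : pL Γ B σ 0 a b c = psi (B * σ) a b := by
  unfold pL
  rw [zero_smul, sub_zero, one_smul, zero_add]

theorem lin_bd {n : ℕ} (Z : T4 n →ₗ[ℝ] ℝ) : ∃ c : ℝ, 0 ≤ c ∧ ∀ R : T4 n, |Z R| ≤ c * ‖R‖ := by
  refine ⟨‖LinearMap.toContinuousLinearMap Z‖, norm_nonneg _, fun R => ?_⟩
  have := (LinearMap.toContinuousLinearMap Z).le_opNorm R
  simpa [Real.norm_eq_abs] using this

theorem pa_lip {σ δ : ℝ} (hδ : 0 ≤ δ) : |pa (σ + δ) - pa σ| ≤ δ := by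
  unfold pa
  rw [abs_le]
  rcases le_total (σ + δ) (1 / 2) with h1 | h1 <;> rcases le_total σ (1 / 2) with h2 | h2 <;>
    simp only [min_eq_left, min_eq_right, h1, h2] <;> constructor <;> linarith

theorem pg_lip {n : ℕ} (hn : 5 ≤ n) {Γ σ δ : ℝ} (hΓ : 0 ≤ Γ) (hσ : 0 ≤ σ) (hδ : 0 ≤ δ) :
    |pg n Γ (σ + δ) - pg n Γ σ| ≤ (1 + Γ) * δ := by
  have hn' : (5 : ℝ) ≤ n := by exact_mod_cast hn
  have h1 := pa_lip (σ := σ) hδ
  have hA0 : 0 ≤ pa (σ + δ) := le_min (by linarith) (by norm_num)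
  have hB0 : 0 ≤ pa σ := le_min hσ (by norm_num)
  have hA1 : pa (σ + δ) ≤ 1 / 2 := min_le_right _ _
  have hB1 : pa σ ≤ 1 / 2 := min_le_right _ _
  have e1 : pg n Γ (σ + δ) - pg n Γ σ = (pa (σ + δ) - pa σ) * (pa (σ + δ) + pa σ) / n
      + Γ * (max (σ + δ - 1 / 2) 0 - max (σ - 1 / 2) 0) := by
    unfold pg pa; ring
  have h2 : |max (σ + δ - 1 / 2) 0 - max (σ - 1 / 2) 0| ≤ δ := by
    rw [abs_le]
    rcases le_total (σ + δ - 1 / 2) 0 with h1 | h1 <;> rcases le_total (σ - 1 / 2) 0 with h2 | h2 <;>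
      simp only [max_eq_left, max_eq_right, h1, h2] <;> constructor <;> linarith
  rw [e1]
  have h3 : |(pa (σ + δ) - pa σ) * (pa (σ + δ) + pa σ) / n| ≤ δ := by
    rw [abs_div, abs_mul, div_le_iff₀ (by rw [Nat.abs_cast]; linarith), Nat.abs_cast]
    have h4 : |pa (σ + δ) + pa σ| ≤ 1 := by
      rw [abs_of_nonneg (by linarith)]; linarith
    calc _ ≤ δ * 1 := mul_le_mul h1 h4 (abs_nonneg _) hδ
      _ ≤ δ * n := by nlinarith
  have h4 : |Γ * (max (σ + δ - 1 / 2) 0 - max (σ - 1 / 2) 0)| ≤ Γ * δ := by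
    rw [abs_mul, abs_of_nonneg hΓ]
    exact mul_le_mul_of_nonneg_left h2 hΓ
  calc _ ≤ _ := abs_add_le _ _
    _ ≤ δ + Γ * δ := add_le_add h3 h4
    _ = _ := by ring

theorem pL_lip {n : ℕ} (hn : 5 ≤ n) {Γ B : ℝ} (hΓ : 0 ≤ Γ) (hB : 0 ≤ B) (a b c : Fin n) : ∃ C : ℝ,
    ∀ σ δ x : ℝ, 0 ≤ σ → 0 ≤ δ → (x = 0 ∨ x = 1) → ∀ R : T4 n,
      |pL Γ B (σ + δ) x a b c R - pL Γ B σ x a b c R| ≤ C * δ * ‖R‖ := by
  obtain ⟨c1, hc1, h1⟩ := lin_bd (n := n) (ric4 a + ric4 b)
  obtain ⟨c2, hc2, h2⟩ := lin_bd (n := n) (scal4)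
  refine ⟨c1 + 2 * (1 + Γ) * c2 + B * c2, ?_⟩
  intro σ δ x hσ hδ hx R
  have hR := norm_nonneg R
  rcases hx with rfl | rfl
  · rw [pL_zero, pL_zero]
    have e : psi (B * (σ + δ)) a b R - psi (B * σ) a b R = B * δ * scal4 R := by
      simp only [psi, LinearMap.add_apply, LinearMap.smul_apply, smul_eq_mul]; ring
    rw [e, abs_mul, abs_of_nonneg (by positivity)]
    calc B * δ * |scal4 R| ≤ B * δ * (c2 * ‖R‖) := mul_le_mul_of_nonneg_left (h2 R) (by positivity)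
      _ ≤ _ := by
        have : 0 ≤ (c1 + 2 * (1 + Γ) * c2) * δ * ‖R‖ := by positivity
        nlinarith
  · rw [pL_one, pL_one]
    have e : phi (pa (σ + δ)) (pg n Γ (σ + δ)) a b c R - phi (pa σ) (pg n Γ σ) a b c R =
        (pa (σ + δ) - pa σ) * (ric4 a + ric4 b) R + 2 * (pg n Γ (σ + δ) - pg n Γ σ) * scal4 R := by
      simp only [phi, LinearMap.add_apply, LinearMap.smul_apply, smul_eq_mul]; ring
    rw [e]
    have t1 : |(pa (σ + δ) - pa σ) * (ric4 a + ric4 b) R| ≤ δ * (c1 * ‖R‖) := by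
      rw [abs_mul]
      exact mul_le_mul (pa_lip hδ) (h1 R) (abs_nonneg _) hδ
    have t2 : |2 * (pg n Γ (σ + δ) - pg n Γ σ) * scal4 R| ≤ 2 * ((1 + Γ) * δ) * (c2 * ‖R‖) := by
      rw [abs_mul, abs_mul, abs_of_nonneg (by norm_num : (0 : ℝ) ≤ 2)]
      exact mul_le_mul (mul_le_mul_of_nonneg_left (pg_lip hn hΓ hσ hδ) (by norm_num)) (h2 R)
        (abs_nonneg _) (by positivity)
    calc _ ≤ _ := abs_add_le _ _
      _ ≤ _ := add_le_add t1 t2
      _ ≤ _ := by
        have : 0 ≤ B * c2 * δ * ‖R‖ := by positivity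
        nlinarith

/-- positivity of the scalar curvature -/
theorem ks_pos {n : ℕ} {C : ℝ} {K : Mt n} (h0 : 0 ≤ ks K) (hb : ∀ a b, |K a b| ≤ C * ks K)
    (hne : (dg K : T4 n) ≠ 0) : 0 < ks K := by
  rcases h0.eq_or_lt with h | h
  · exfalso
    apply hne
    funext i j k l
    have h1 := hb i j
    rw [← h, mul_zero] at h1
    have h2 : K i j = 0 := abs_eq_zero.1 (le_antisymm h1 (abs_nonneg _))
    simp [dg, h2]
  · exact h

/-- the coordinate values of the functionals `phi` -/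
theorem phi_coord {n : ℕ} {K O : Mt n} (hO : Oᵀ * O = 1) {α γ : ℝ} {a b c : Fin n} (hab : a ≠ b)
    (hac : a ≠ c) (hbc : b ≠ c)
    (h : ∀ P : Mt n, Pᵀ * P = 1 → 0 ≤ phi α γ a b c (rot (rot (dg K) Oᵀ) P)) :
    ∀ i j k : Fin n, i ≠ j → i ≠ k → j ≠ k → 0 ≤ phi α γ i j k (dg K) := by
  intro i j k hij hik hjk
  obtain ⟨σ, h1, h2, h3⟩ := exists_perm3 hab hac hbc hij hik hjk
  have h4 := h (O * P_mat σ) (by
    rw [Matrix.transpose_mul, Matrix.mul_assoc, ← Matrix.mul_assoc Oᵀ, hO, Matrix.one_mul,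
      P_mat_orth])
  have e : rot (rot (dg K) Oᵀ) (O * P_mat σ) = rot (dg K) (P_mat σ) := by
    rw [G_rot_mul, ← Matrix.mul_assoc, hO, Matrix.one_mul]
  rw [e, P_rot_mat, phi_perm, h1, h2, h3] at h4
  exact h4

theorem psi_coord {n : ℕ} {K O : Mt n} (hO : Oᵀ * O = 1) {β : ℝ} {a b : Fin n} (hab : a ≠ b)
    (h : ∀ P : Mt n, Pᵀ * P = 1 → 0 ≤ psi β a b (rot (rot (dg K) Oᵀ) P)) :
    ∀ i j : Fin n, i ≠ j → 0 ≤ psi β i j (dg K) := by
  intro i j hij
  obtain ⟨σ, h1, h2⟩ := P_exists_perm hab hij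
  have h4 := h (O * P_mat σ) (by
    rw [Matrix.transpose_mul, Matrix.mul_assoc, ← Matrix.mul_assoc Oᵀ, hO, Matrix.one_mul,
      P_mat_orth])
  have e : rot (rot (dg K) Oᵀ) (O * P_mat σ) = rot (dg K) (P_mat σ) := by
    rw [G_rot_mul, ← Matrix.mul_assoc, hO, Matrix.one_mul]
  rw [e, P_rot_mat, psi_perm, h1, h2] at h4
  exact h4

theorem KQ_add {n : ℕ} {K : Mt n} (hK : ∀ i j, K i j = K j i) (h0 : ∀ i, K i i = 0) (t : ℝ) :
    (∀ i j, (K + t • KQ K) i j = (K + t • KQ K) j i) ∧ ∀ i, (K + t • KQ K) i i = 0 := by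
  obtain ⟨-, h1, h2⟩ := KQ_dg K hK h0
  refine ⟨fun i j => ?_, fun i => ?_⟩
  · simp only [Matrix.add_apply, Matrix.smul_apply, hK i j, h1 i j]
  · simp only [Matrix.add_apply, Matrix.smul_apply, h0 i, h2 i, smul_zero, add_zero]

/-- strictness for `phi` -/
theorem phi_strict {n : ℕ} (hn : 5 ≤ n) {K : Mt n} (hK : ∀ i j, K i j = K j i) (h0 : ∀ i, K i i = 0)
    (hp : CPIC K) (hs : 0 < ks K) {α γ : ℝ} (hα : 0 < α) (hγ : 0 < γ)
    (hαγ : α = 1 / 2 ∨ (α ≤ 1 / 2 ∧ γ = α ^ 2 / n))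
    (hpos : ∀ i j k : Fin n, i ≠ j → i ≠ k → j ≠ k → 0 ≤ phi α γ i j k (dg K))
    {a b c : Fin n} (hab : a ≠ b) (hac : a ≠ c) (hbc : b ≠ c) {O : Mt n} (hO : Oᵀ * O = 1)
    (hz : phi α γ a b c (rot (dg K) O) = 0) : 0 < phi α γ a b c (rot (QQ (dg K)) O) := by
  obtain ⟨k1, k2, k3⟩ := KQ_dg K hK h0
  have hpos' : ∀ i j k : Fin n, i ≠ j → i ≠ k → j ≠ k →
      0 ≤ K i k + K j k + α * (kr K i + kr K j) + 2 * γ * ks K := by
    intro i j k hij hik hjk
    have := hpos i j k hij hik hjk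
    rwa [phi_dg K hK h0 α γ hik hjk] at this
  let ι := {p : Fin n × Fin n × Fin n // p.1 ≠ p.2.1 ∧ p.1 ≠ p.2.2 ∧ p.2.1 ≠ p.2.2}
  obtain ⟨t, ht, htp⟩ := exists_small (ι := ι)
    (fun p => phi α γ p.1.1 p.1.2.1 p.1.2.2 (dg K))
    (fun p => phi α γ p.1.1 p.1.2.1 p.1.2.2 (dg (KQ K)))
    (fun p => hpos _ _ _ p.2.1 p.2.2.1 p.2.2.2)
    (by
      intro p hp0
      have hp0' : phi α γ p.1.1 p.1.2.1 p.1.2.2 (dg K) = 0 := hp0
      rw [phi_dg K hK h0 α γ p.2.2.1 p.2.2.2] at hp0'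
      show 0 < phi α γ p.1.1 p.1.2.1 p.1.2.2 (dg (KQ K))
      rw [phi_dg (KQ K) k2 k3 α γ p.2.2.1 p.2.2.2]
      exact pure_phi hn K hK h0 hp hs α γ hα hγ hαγ hpos' _ _ _ p.2.1 p.2.2.1 p.2.2.2 hp0')
  obtain ⟨m1, m2⟩ := KQ_add hK h0 t
  have h5 := phi_hull_lt (K + t • KQ K) m1 m2 α γ (by
    intro i j k hij hik hjk
    rw [dg_add_smul, map_add, map_smul, smul_eq_mul]
    exact htp ⟨(i, j, k), hij, hik, hjk⟩) hab hac hbc hO
  rw [dg_add_smul, G_rot_add, G_rot_smul, map_add, map_smul, hz, zero_add, smul_eq_mul] at h5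
  rw [k1]
  exact (pos_iff_pos_of_mul_pos h5).1 ht

/-- strictness for `psi` -/
theorem psi_strict {n : ℕ} {K : Mt n} (hK : ∀ i j, K i j = K j i) (h0 : ∀ i, K i i = 0)
    {β : ℝ} (hpos : ∀ i j : Fin n, i ≠ j → 0 ≤ psi β i j (dg K))
    (hst : ∀ i j : Fin n, i ≠ j → psi β i j (dg K) = 0 → 0 < psi β i j (dg (KQ K)))
    {a b : Fin n} (hab : a ≠ b) {O : Mt n} (hO : Oᵀ * O = 1)
    (hz : psi β a b (rot (dg K) O) = 0) : 0 < psi β a b (rot (QQ (dg K)) O) := by
  obtain ⟨k1, k2, k3⟩ := KQ_dg K hK h0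
  let ι := {p : Fin n × Fin n // p.1 ≠ p.2}
  obtain ⟨t, ht, htp⟩ := exists_small (ι := ι)
    (fun p => psi β p.1.1 p.1.2 (dg K)) (fun p => psi β p.1.1 p.1.2 (dg (KQ K)))
    (fun p => hpos _ _ p.2) (fun p hp0 => hst _ _ p.2 hp0)
  obtain ⟨m1, m2⟩ := KQ_add hK h0 t
  have h5 := psi_hull_lt (K + t • KQ K) m1 m2 β (by
    intro i j hij
    rw [dg_add_smul, map_add, map_smul, smul_eq_mul]
    exact htp ⟨(i, j), hij⟩) hab hO
  rw [dg_add_smul, G_rot_add, G_rot_smul, map_add, map_smul, hz, zero_add, smul_eq_mul] at h5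
  rw [k1]
  exact (pos_iff_pos_of_mul_pos h5).1 ht

theorem pure_pinch {n : ℕ} (hn : 5 ≤ n) : ∃ B : ℝ, 0 < B ∧ ∀ {M : Type} [TopologicalSpace M]
    [ChartedSpace (En n) M] [IsManifold (𝓡 n) ∞ M] [CompactSpace M] {T : ℝ} {g : ℝ → Metric n M},
    IsRicciFlow T g → WPIC (g 0) →
    (∀ t ∈ Ico 0 T, ∀ e ∈ atlas (En n) M, ∀ y ∈ ctarget e, ∀ F : Mt n,
      Fᵀ * (g t).G e y * F = 1 → rot (Rc ((g t).G e) y) F ∈ CP n) →
    ∀ ε : ℝ, 0 < ε → ε ≤ 1 → ∀ a b : Fin n, a ≠ b →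
    ∃ K : ℝ, ∀ t ∈ Ico 0 T, ∀ e ∈ atlas (En n) M, ∀ y ∈ ctarget e, ∀ F : Mt n,
      Fᵀ * (g t).G e y * F = 1 → -K ≤ psi (B * ε) a b (rot (Rc ((g t).G e) y) F) := by
  obtain ⟨C, hC, hbd⟩ := cpic_bound hn
  have hn' : (5 : ℝ) ≤ n := by exact_mod_cast hn
  set B : ℝ := 2 * (n * C + 1) with hB
  have hB0 : 0 < B := by positivity
  refine ⟨B, hB0, ?_⟩
  intro M _ _ _ _ T g hg h0 hc ε hε hε1 a b hab
  obtain ⟨c, hac, hbc⟩ : ∃ c : Fin n, a ≠ c ∧ b ≠ c := by
    obtain ⟨c, hc⟩ := exists_notMem_of_card ({a, b} : Finset (Fin n)) (by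
      refine lt_of_le_of_lt Finset.card_le_two ?_
      omega)
    simp only [Finset.mem_insert, Finset.mem_singleton, not_or] at hc
    exact ⟨c, fun h => hc.1 h.symm, fun h => hc.2 h.symm⟩
  set Γ : ℝ := (n + 2) * C with hΓ
  have hΓ0 : 0 < Γ := by positivity
  obtain ⟨CL, hCL⟩ := pL_lip hn hΓ0.le hB0.le a b c
  have hP := wpic_preserved hg h0
  -- decomposition of the elements of the class
  have hdec : ∀ R ∈ CP n, PIC R → ∃ K O : Mt n, Oᵀ * O = 1 ∧ (∀ i j, K i j = K j i) ∧ (∀ i, K i i = 0) ∧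
      R = rot (dg K) Oᵀ ∧ CPIC K ∧ 0 ≤ ks K ∧ ∀ a b, |K a b| ≤ C * ks K := by
    intro R hR hp
    obtain ⟨O, hO, K, h1, h2, h3⟩ := hR
    have h4 : PIC (dg K : T4 n) := by rw [← h3]; exact MPinch.PIC_rot hp hO
    have h5 := hbd K h1 h2 (CPIC_of_PIC h4)
    exact ⟨K, O, hO, h1, h2, by rw [← h3, rot_rotT hO], CPIC_of_PIC h4, h5.1, h5.2⟩
  have hkr : ∀ K : Mt n, 0 ≤ ks K → (∀ a b, |K a b| ≤ C * ks K) → ∀ i, -(n * (C * ks K)) ≤ kr K i := by
    intro K _ hb i
    have : |kr K i| ≤ n * (C * ks K) := by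
      unfold kr
      refine (Finset.abs_sum_le_sum_abs _ _).trans ?_
      refine (Finset.sum_le_sum fun p _ => hb i p).trans (le_of_eq ?_)
      simp
    exact (abs_le.1 this).1
  have : CompactSpace ({0, 1} : Set ℝ) := isCompact_iff_compactSpace.1 (Set.toFinite _).isCompact
  obtain ⟨K, hK⟩ := pinch hg (CP n) CP_closed (fun R hR c _ => CP_cone hR c)
    (fun R hR O hO => CP_rot hR hO)
    (fun t ht e he y hy F hF => ⟨hc t ht e he y hy F hF, hP t ht e he y hy F hF⟩)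
    (Θ := (Icc ε 1 : Set ℝ) × ({0, 1} : Set ℝ)) (fun θ => pL Γ B θ.1.1 θ.2.1 a b c)
    (by
      intro R
      simp only [pL, phi, psi, pa, pg, LinearMap.add_apply, LinearMap.smul_apply, smul_eq_mul]
      fun_prop)
    (fun θ => θ.1.1) (by fun_prop) (fun θ => θ.1.2.2)
    (by
      rintro R hR hp ⟨⟨σ, hσ⟩, ⟨x, hx⟩⟩ hθ
      have hσ1 : σ = 1 := hθ
      subst hσ1
      obtain ⟨K, O, hO, hK, hK0, hRK, hcp, hks, hKb⟩ := hdec R hR hp
      have hOT : Oᵀᵀ * Oᵀ = 1 := by rw [Matrix.transpose_transpose]; exact orth_T hO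
      show 0 ≤ pL Γ B 1 x a b c R
      rcases hx with hx | hx
      · rw [hx, pL_zero, hRK]
        refine psi_hull_le K hK hK0 _ ?_ hab hOT
        intro i j hij
        rw [psi_dg K hK hK0 _ hij]
        have h1 := (abs_le.1 (hKb i j)).1
        have h2 : C ≤ B := by rw [hB]; nlinarith
        nlinarith
      · have hx' : x = 1 := hx
        rw [hx', pL_one, hRK]
        refine phi_hull_le K hK hK0 _ _ ?_ hab hac hbc hOT
        intro i j k hij hik hjk
        rw [phi_dg K hK hK0 _ _ hik hjk]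
        have e1 : pa 1 = 1 / 2 := by unfold pa; norm_num
        have e2 : pg n Γ 1 = (1 / 2) ^ 2 / n + Γ * (1 / 2) := by
          unfold pg
          rw [min_eq_right (by norm_num), max_eq_left (by norm_num)]
          norm_num
        rw [e1, e2]
        have h1 := (abs_le.1 (hKb i k)).1
        have h2 := (abs_le.1 (hKb j k)).1
        have h3 := hkr K hks hKb i
        have h4 := hkr K hks hKb j
        have h5 : 0 ≤ (1 / 2 : ℝ) ^ 2 / n * ks K := by positivity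
        rw [hΓ]
        nlinarith)
    CL
    (by
      rintro ⟨⟨σ, hσ⟩, ⟨x, hx⟩⟩ hθ
      have hσ1 : σ < 1 := hθ
      refine ⟨1 - σ, by linarith, fun δ hδ => ?_⟩
      refine ⟨⟨⟨σ + δ, by linarith [hσ.1, hδ.1], by linarith [hδ.2]⟩, ⟨x, hx⟩⟩, le_refl _, fun R => ?_⟩
      exact hCL σ δ x (by linarith [hσ.1]) hδ.1.le hx R)
    (by
      rintro R hR hne hp ⟨⟨σ, hσ⟩, ⟨x, hx⟩⟩ hpos hzero
      obtain ⟨K, O, hO, hK, hK0, hRK, hcp, hks, hKb⟩ := hdec R hR hp
      have hOT : Oᵀᵀ * Oᵀ = 1 := by rw [Matrix.transpose_transpose]; exact orth_T hO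
      have hdne : (dg K : T4 n) ≠ 0 := by
        intro h
        apply hne
        rw [hRK, h]
        funext i j k l
        simp [rot]
      have hs := ks_pos hks hKb hdne
      have hσ0 : 0 < σ := lt_of_lt_of_le hε hσ.1
      have hpa0 : 0 < pa σ := lt_min hσ0 (by norm_num)
      have hpg0 : 0 < pg n Γ σ := by
        have h1 : 0 < (pa σ) ^ 2 / n := by positivity
        have h2 : 0 ≤ Γ * max (σ - 1 / 2) 0 := mul_nonneg hΓ0.le (le_max_right _ _)
        have h3 : pg n Γ σ = (pa σ) ^ 2 / n + Γ * max (σ - 1 / 2) 0 := rfl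
        rw [h3]; linarith
      have hpar : pa σ = 1 / 2 ∨ (pa σ ≤ 1 / 2 ∧ pg n Γ σ = (pa σ) ^ 2 / n) := by
        rcases le_total σ (1 / 2) with h | h
        · right
          refine ⟨min_le_right _ _, ?_⟩
          unfold pg pa
          rw [max_eq_right (by linarith), mul_zero, add_zero]
        · left
          exact min_eq_right h
      -- coordinate values
      have hphi : ∀ i j k : Fin n, i ≠ j → i ≠ k → j ≠ k →
          0 ≤ phi (pa σ) (pg n Γ σ) i j k (dg K) := by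
        refine phi_coord hO hab hac hbc ?_
        intro P hPo
        have h1 := hpos ⟨⟨σ, hσ⟩, ⟨1, by simp⟩⟩ (le_refl _) P hPo
        have h2 : 0 ≤ pL Γ B σ 1 a b c (rot R P) := h1
        rwa [pL_one, hRK] at h2
      have hpsi : ∀ i j : Fin n, i ≠ j → 0 ≤ psi (B * σ) i j (dg K) := by
        refine psi_coord hO hab ?_
        intro P hPo
        have h1 := hpos ⟨⟨σ, hσ⟩, ⟨0, by simp⟩⟩ (le_refl _) P hPo
        have h2 : 0 ≤ pL Γ B σ 0 a b c (rot R P) := h1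
        rwa [pL_zero, hRK] at h2
      have hQ : QQ R = rot (QQ (dg K)) Oᵀ := by
        rw [hRK]
        refine G_QQ_rot _ _ ?_
        rw [Matrix.transpose_transpose, hO]
      show 0 < pL Γ B σ x a b c (QQ R)
      have hz : pL Γ B σ x a b c R = 0 := hzero
      rw [hQ]
      rw [hRK] at hz
      rcases hx with hx | hx
      · rw [hx, pL_zero] at hz ⊢
        refine psi_strict hK hK0 hpsi ?_ hab hOT hz
        intro i j hij hij0
        obtain ⟨-, k2, k3⟩ := KQ_dg K hK hK0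
        rw [psi_dg K hK hK0 _ hij] at hij0
        rw [psi_dg _ k2 k3 _ hij]
        rcases le_total σ (1 / 2) with h | h
        · have e1 : pa σ = σ := min_eq_left h
          have e2 : pg n Γ σ = σ ^ 2 / n := by
            unfold pg
            rw [max_eq_right (by linarith), mul_zero, add_zero, min_eq_left h]
          rw [e1, e2] at hphi
          refine pure_psi K hK hK0 hs C hC hKb σ (σ ^ 2 / n) (B * σ) hσ0 (by positivity) ?_
            (le_of_eq (by rw [hB])) ?_ i j hij hij0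
          · rw [div_le_iff₀ (by linarith)]
            nlinarith [hσ.2]
          · intro i j k h1 h2 h3
            have := hphi i j k h1 h2 h3
            rwa [phi_dg K hK hK0 _ _ h2 h3] at this
        · exfalso
          have h1 := (abs_le.1 (hKb i j)).1
          have h2 : n * C + 1 ≤ B * σ := by rw [hB]; nlinarith
          have h3 : (n * C + 1) * ks K ≤ B * σ * ks K := mul_le_mul_of_nonneg_right h2 hs.le
          have h4 : 5 * (C * ks K) ≤ n * (C * ks K) := mul_le_mul_of_nonneg_right hn' (by positivity)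
          have h5 : 0 < C * ks K := by positivity
          nlinarith
      · have hx' : x = 1 := hx
        rw [hx', pL_one] at hz ⊢
        exact phi_strict hn hK hK0 hcp hs hpa0 hpg0 hpar hphi hab hac hbc hOT hz)
  refine ⟨K, fun t ht e he y hy F hF => ?_⟩
  have h1 := hK t ht e he y hy F hF ⟨⟨ε, le_refl _, hε1⟩, ⟨0, by simp⟩⟩
  have h2 : -K ≤ pL Γ B ε 0 a b c (rot (Rc ((g t).G e) y) F) := h1
  rwa [pL_zero] at h2

theorem pure_blow {n : ℕ} (hn : 5 ≤ n) {M : Type} [TopologicalSpace M] [ChartedSpace (En n) M]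
    [IsManifold (𝓡 n) ∞ M] [CompactSpace M] {T : ℝ} {g : ℝ → Metric n M} (hg : IsRicciFlow T g)
    (h0 : WPIC (g 0)) (hpure : ∀ t ∈ Ico 0 T, PureCurv (g t))
    {N : Type} [TopologicalSpace N] [ChartedSpace (En n) N] [IsManifold (𝓡 n) ∞ N]
    {I : Set ℝ} {h : ℝ → Metric n N} {p : N} (hb : IsBlowUpLimit T g I h p) :
    ∀ s ∈ I, NonnegOp (h s) := by
  have hc : ∀ t ∈ Ico 0 T, ∀ e ∈ atlas (En n) M, ∀ y ∈ ctarget e, ∀ F : Mt n,
      Fᵀ * (g t).G e y * F = 1 → rot (Rc ((g t).G e) y) F ∈ CP n := by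
    intro t ht e he y hy F hF
    obtain ⟨F0, hF0, hzero⟩ := hpure t ht e he y hy
    have hA : IsAlg (Rc ((g t).G e) y) := L.isAlg_Rc (g t) he hy
    have hA0 := hA.rot F0
    have hin : rot (Rc ((g t).G e) y) F0 ∈ CP n := by
      refine ⟨1, by simp, fun i j => rot (Rc ((g t).G e) y) F0 i j i j, ?_, ?_, ?_⟩
      · intro i j
        show rot (Rc ((g t).G e) y) F0 i j i j = rot (Rc ((g t).G e) y) F0 j i j i
        rw [hA0.anti i j i j, hA0.pair j i i j, hA0.anti i j j i, neg_neg]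
      · intro i
        have := hA0.anti i i i i
        show rot (Rc ((g t).G e) y) F0 i i i i = 0
        linarith
      · rw [G_rot_one]
        funext i j k l
        by_cases h1 : (i = k ∧ j = l) ∨ (i = l ∧ j = k)
        · rcases h1 with ⟨rfl, rfl⟩ | ⟨rfl, rfl⟩
          · by_cases hij : i = j
            · subst hij
              have h5 : rot (Rc ((g t).G e) y) F0 i i i i = 0 := by
                have := hA0.anti i i i i
                linarith
              simp only [dg, h5, zero_mul]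
            · simp [dg, hij]
          · by_cases hij : i = j
            · subst hij
              have h5 : rot (Rc ((g t).G e) y) F0 i i i i = 0 := by
                have := hA0.anti i i i i
                linarith
              simp only [dg, h5, zero_mul]
            · have e1 : rot (Rc ((g t).G e) y) F0 i j j i = -rot (Rc ((g t).G e) y) F0 i j i j := by
                rw [hA0.pair i j j i, hA0.anti j i i j]
              rw [e1]
              simp [dg, hij]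
        · rw [hzero i j k l h1]
          simp only [dg]
          have e1 : ((if i = k then (1 : ℝ) else 0) * if j = l then 1 else 0) = 0 := by
            by_cases h2 : i = k
            · have h3 : ¬ j = l := fun h3 => h1 (Or.inl ⟨h2, h3⟩)
              rw [if_neg h3, mul_zero]
            · rw [if_neg h2, zero_mul]
          have e2 : ((if i = l then (1 : ℝ) else 0) * if j = k then 1 else 0) = 0 := by
            by_cases h2 : i = l
            · have h3 : ¬ j = k := fun h3 => h1 (Or.inr ⟨h2, h3⟩)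
              rw [if_neg h3, mul_zero]
            · rw [if_neg h2, zero_mul]
          rw [e1, e2, sub_zero, mul_zero]
    have hs : ((g t).G e y).IsSymm := MaxP.isSymm_of_posDef ((g t).posDef e he y hy)
    obtain ⟨k1, k2⟩ := frame_rel hF0 hF hs
    have h3 := CP_rot hin k1
    rwa [G_rot_mul, k2] at h3
  obtain ⟨B, hB0, hpin⟩ := pure_pinch hn
  refine blow ?_ hb
  intro ε hε
  obtain ⟨c, hcop⟩ := dg_op2 n
  set ν : ℝ := min 1 (ε / (|c| * B + 1)) with hνdef
  have hc1 : (0 : ℝ) < |c| * B + 1 := by positivity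
  have hν : 0 < ν := lt_min one_pos (div_pos hε hc1)
  have hν1 : ν ≤ 1 := min_le_left _ _
  have hνε : c * (B * ν) ≤ ε := by
    have h1 : ν ≤ ε / (|c| * B + 1) := min_le_right _ _
    have h2 : ν * (|c| * B + 1) ≤ ε := (le_div_iff₀ hc1).mp h1
    have h3 : c * (B * ν) ≤ |c| * (B * ν) := mul_le_mul_of_nonneg_right (le_abs_self c) (by positivity)
    nlinarith
  have hK : ∀ a b : Fin n, ∃ K : ℝ, a ≠ b → ∀ t ∈ Ico 0 T, ∀ e ∈ atlas (En n) M, ∀ y ∈ ctarget e,
      ∀ F : Mt n, Fᵀ * (g t).G e y * F = 1 → -K ≤ psi (B * ν) a b (rot (Rc ((g t).G e) y) F) := by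
    intro a b
    by_cases hab : a = b
    · exact ⟨0, fun h => absurd hab h⟩
    · obtain ⟨K, hK⟩ := hpin hg h0 hc ν hν hν1 a b hab
      exact ⟨K, fun _ => hK⟩
  choose K hK using hK
  set κ : ℝ := ∑ a, ∑ b, |K a b| with hκ
  have hKκ : ∀ a b, K a b ≤ κ := by
    intro a b
    calc K a b ≤ |K a b| := le_abs_self _
      _ ≤ ∑ b, |K a b| := Finset.single_le_sum (f := fun b => |K a b|) (fun _ _ => abs_nonneg _)
        (Finset.mem_univ b)
      _ ≤ κ := Finset.single_le_sum (f := fun a => ∑ b, |K a b|)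
        (fun _ _ => Finset.sum_nonneg fun _ _ => abs_nonneg _) (Finset.mem_univ a)
  refine ⟨2 * κ, ?_⟩
  intro t ht e he y hy F hF φ hφ
  obtain ⟨O, hO, W, hW1, hW2, hW⟩ := hc t ht e he y hy F hF
  have hOT : Oᵀᵀ * Oᵀ = 1 := by rw [Matrix.transpose_transpose]; exact orth_T hO
  have hRW : rot (Rc ((g t).G e) y) F = rot (dg W) Oᵀ := by
    rw [← hW, rot_rotT hO]
  have hFO : (F * O)ᵀ * (g t).G e y * (F * O) = 1 := by
    have : (F * O)ᵀ * (g t).G e y * (F * O) = Oᵀ * (Fᵀ * (g t).G e y * F) * O := by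
      simp only [Matrix.transpose_mul, Matrix.mul_assoc]
    rw [this, hF, Matrix.mul_one, hO]
  have hlow : ∀ a b : Fin n, a ≠ b → -κ ≤ psi (B * ν) a b (dg W) := by
    intro a b hab
    have h1 := hK a b hab t ht e he y hy (F * O) hFO
    rw [← G_rot_mul, hW] at h1
    linarith [hKκ a b]
  have h1 := hcop W hW1 (B * ν) κ (by positivity) hlow Oᵀ hOT φ hφ
  rw [← hRW] at h1
  refine le_trans ?_ h1
  rw [neg_le_neg_iff]
  refine mul_le_mul_of_nonneg_right ?_ (Finset.sum_nonneg fun i _ => Finset.sum_nonneg fun j _ =>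
    sq_nonneg _)
  have h2 := mul_le_mul_of_nonneg_right hνε (Real.sqrt_nonneg (∑ i, ∑ j, ∑ k, ∑ l,
    rot (Rc ((g t).G e) y) F i j k l ^ 2))
  linarith

end Pool.Agent.Helper696_RF
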